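import Pool.Agent.Helper48.ST.CardSq

/-!
ST-10. Lower bound for the number of squarefree polynomials of degree `N` prime to a fixed one.

Proof. Let `R = pr S`, `ρ = dgs S`, `q = card F ≥ 2`. Consider the monic `D` of degree `N ≥ ρ` with `D ≡ 1 mod R`: there are `q^(N-ρ)` of them
(`D = R Q + 1` with `Q` monic of degree `N - ρ` if `ρ ≥ 1`; if `S = ∅` take all `D`), all prime to `R`. Those which are not squarefree are
divisible by `P^2` for some monic irreducible `P`, prime to `R`. For `2 deg P ≤ N - ρ` the number of `D ≡ 1 mod R` divisible by `P^2` is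
`q^(N-ρ-2 deg P)` (Chinese remainder theorem: `D = P^2 E`, `E` monic of degree `N - 2 deg P ≥ ρ` in one residue class modulo `R`). For `2 deg P > N - ρ` there are at most
`q^(N - 2 deg P)` of them. With `card (IrEq k) ≤ q^k / k` the number of non-squarefree ones is at most
`q^(N-ρ) ∑_{k≥1} q^(-k)/k + ∑_{k > (N-ρ)/2} q^(N-k) ≤ q^(N-ρ) (-log(1 - 1/q)) + 2 q^(N - (N-ρ)/2)`, and `-log(1-1/q) ≤ log 2 < 1`. So the number of
squarefree ones is at least `(1 - log 2 - o(1)) q^(N-ρ)`; take `c = q^(-ρ)/5`. (`D` squarefree prime to `R` is `pr t` for a unique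
`t ∈ Sq S N`, ST-03.)
-/

set_option autoImplicit false

open Polynomial
open scoped Classical

namespace Pool.Agent.Helper48.ST

variable {F : Type} [Field F]

theorem sql_exists_rep : ∀ (n : ℕ) (A : F[X]), A.Monic → A.natDegree = n →
    ∃ (B : F[X]) (t : Finset (Ir F)), B.Monic ∧ A = B ^ 2 * pr t := by
  intro n
  induction n using Nat.strong_induction_on with
  | _ n ih =>
    intro A hA hn
    by_cases hs : Squarefree A
    · obtain ⟨t, ht⟩ := exists_pr A hA hs
      exact ⟨1, t, monic_one, by rw [one_pow, one_mul, ht]⟩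
    · unfold Squarefree at hs
      push Not at hs
      obtain ⟨x, hx, hxu⟩ := hs
      have hx0 : x ≠ 0 := by
        rintro rfl
        rw [mul_zero, zero_dvd_iff] at hx
        exact hA.ne_zero hx
      have hl : x.leadingCoeff ≠ 0 := leadingCoeff_ne_zero.2 hx0
      set P : F[X] := x * C x.leadingCoeff⁻¹ with hP
      have hPm : P.Monic := monic_mul_leadingCoeff_inv hx0
      have hPd : P.natDegree = x.natDegree := natDegree_mul_C (inv_ne_zero hl)
      have hP2 : P * P ∣ A := by
        refine dvd_trans ?_ hx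
        refine ⟨C (x.leadingCoeff * x.leadingCoeff), ?_⟩
        have h1 : C x.leadingCoeff⁻¹ * C x.leadingCoeff = (1 : F[X]) := by
          rw [← C_mul, inv_mul_cancel₀ hl, C_1]
        rw [hP, C_mul]
        calc x * x = x * x * ((C x.leadingCoeff⁻¹ * C x.leadingCoeff) * (C x.leadingCoeff⁻¹ * C x.leadingCoeff)) := by
              rw [h1]; ring
          _ = _ := by ring
      obtain ⟨A', hA'⟩ := hP2
      have hA'm : A'.Monic := by
        have h2 : (P * P * A').Monic := hA' ▸ hA
        exact (hPm.mul hPm).of_mul_monic_left h2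
      have hd : A.natDegree = P.natDegree + P.natDegree + A'.natDegree := by
        rw [hA', (hPm.mul hPm).natDegree_mul hA'm, hPm.natDegree_mul hPm]
      have hpos : 0 < P.natDegree := by
        rw [hPd]
        by_contra hcon
        have h4 : x.natDegree = 0 := by omega
        have h5 : x.degree ≤ 0 := natDegree_eq_zero_iff_degree_le_zero.1 h4
        apply hxu
        rw [isUnit_iff_degree_eq_zero]
        exact le_antisymm h5 (zero_le_degree_iff.2 hx0)
      obtain ⟨B, t, hB, hBt⟩ := ih A'.natDegree (by omega) A' hA'm rfl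
      refine ⟨P * B, t, hPm.mul hB, ?_⟩
      rw [hA', hBt]
      ring

theorem sql_rep_unique {B B' : F[X]} {t t' : Finset (Ir F)} (hB : B.Monic) (hB' : B'.Monic)
    (h : B ^ 2 * pr t = B' ^ 2 * pr t') : B = B' ∧ t = t' := by
  obtain ⟨b, b', g, hrel, hb, hb'⟩ :=
    UniqueFactorizationMonoid.exists_reduced_factors B hB.ne_zero B'
  have hcop : IsCoprime b b' := hrel.isCoprime
  have hg : g ≠ 0 := by
    rintro rfl
    rw [zero_mul] at hb
    exact hB.ne_zero hb.symm
  have h1 : b ^ 2 * pr t = b' ^ 2 * pr t' := by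
    apply mul_left_cancel₀ (pow_ne_zero 2 hg)
    rw [← hb, ← hb'] at h
    linear_combination h
  have h2 : IsUnit b := by
    apply squarefree_pr t' b
    have h3 : b ^ 2 ∣ b' ^ 2 * pr t' := ⟨pr t, h1.symm⟩
    rw [← sq]
    exact (hcop.pow (m := 2) (n := 2)).dvd_of_dvd_mul_left h3
  have h3 : IsUnit b' := by
    apply squarefree_pr t b'
    have h4 : b' ^ 2 ∣ b ^ 2 * pr t := ⟨pr t', h1⟩
    rw [← sq]
    exact (hcop.symm.pow (m := 2) (n := 2)).dvd_of_dvd_mul_left h4
  have h4 : B = B' := by
    apply eq_of_monic_of_associated hB hB'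
    rw [← hb, ← hb']
    exact ((associated_mul_unit_right g b h2).symm).trans (associated_mul_unit_right g b' h3)
  refine ⟨h4, ?_⟩
  rw [h4] at h
  exact pr_injective (mul_left_cancel₀ (pow_ne_zero 2 hB'.ne_zero) h)

variable [Fintype F]

theorem sql_card (N : ℕ) : Fintype.card F ^ N =
    ∑ j ∈ Finset.range (N / 2 + 1), Fintype.card F ^ j * (Sq (∅ : Finset (Ir F)) (N - 2 * j)).card := by
  have h1 : Mon F N = (Finset.range (N / 2 + 1)).biUnion fun j =>
      ((Mon F j) ×ˢ (Sq (∅ : Finset (Ir F)) (N - 2 * j))).image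
        (fun x : F[X] × Finset (Ir F) => x.1 ^ 2 * pr x.2) := by
    ext A
    simp only [Finset.mem_biUnion, Finset.mem_range, Finset.mem_image, Finset.mem_product, mem_Mon,
      mem_Sq, Prod.exists]
    constructor
    · rintro ⟨hA, hN⟩
      obtain ⟨B, t, hB, hBt⟩ := sql_exists_rep N A hA hN
      have hd : A.natDegree = 2 * B.natDegree + dgs t := by
        rw [hBt, (hB.pow 2).natDegree_mul (pr_monic t), hB.natDegree_pow, natDegree_pr]
      exact ⟨B.natDegree, by omega, B, t, ⟨⟨hB, rfl⟩, Finset.disjoint_empty_right t, by omega⟩,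
        hBt.symm⟩
    · rintro ⟨j, hj, B, t, ⟨⟨hB, hBj⟩, _, ht⟩, rfl⟩
      refine ⟨(hB.pow 2).mul (pr_monic t), ?_⟩
      rw [(hB.pow 2).natDegree_mul (pr_monic t), hB.natDegree_pow, natDegree_pr, hBj, ht]
      omega
  rw [← card_Mon (F := F) N, h1, Finset.card_biUnion]
  · refine Finset.sum_congr rfl fun j _ => ?_
    rw [Finset.card_image_of_injOn, Finset.card_product, card_Mon]
    intro x hx y hy hxy
    rw [Finset.mem_coe, Finset.mem_product, mem_Mon] at hx hy
    obtain ⟨h2, h3⟩ := sql_rep_unique hx.1.1 hy.1.1 hxy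
    exact Prod.ext h2 h3
  · intro i _ j _ hij
    rw [Function.onFun, Finset.disjoint_left]
    intro A hA hA'
    rw [Finset.mem_image] at hA hA'
    obtain ⟨x, hx, hx2⟩ := hA
    obtain ⟨y, hy, hy2⟩ := hA'
    rw [Finset.mem_product, mem_Mon] at hx hy
    obtain ⟨h2, -⟩ := sql_rep_unique hx.1.1 hy.1.1 (hx2.trans hy2.symm)
    apply hij
    rw [← hx.1.2, ← hy.1.2, h2]

theorem sql_empty (N : ℕ) : Fintype.card F ^ (N + 2) =
    (Sq (∅ : Finset (Ir F)) (N + 2)).card + Fintype.card F ^ (N + 1) := by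
  have h1 := sql_card (F := F) (N + 2)
  have h2 : (N + 2) / 2 + 1 = (N / 2 + 1) + 1 := by omega
  rw [h2, Finset.sum_range_succ'] at h1
  simp only [pow_zero, one_mul, mul_zero, Nat.sub_zero] at h1
  have h3 : ∑ j ∈ Finset.range (N / 2 + 1), Fintype.card F ^ (j + 1) *
      (Sq (∅ : Finset (Ir F)) (N + 2 - 2 * (j + 1))).card = Fintype.card F ^ (N + 1) := by
    rw [pow_succ, sql_card (F := F) N, Finset.sum_mul]
    refine Finset.sum_congr rfl fun j _ => ?_
    have h4 : N + 2 - 2 * (j + 1) = N - 2 * j := by omega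
    rw [h4, pow_succ]
    ring
  rw [h3] at h1
  omega

theorem sql_insert (S : Finset (Ir F)) (P : Ir F) (hP : P ∉ S) (N : ℕ) (hN : P.1.natDegree ≤ N) :
    (Sq S N).card = (Sq (insert P S) N).card + (Sq (insert P S) (N - P.1.natDegree)).card := by
  rw [← Finset.card_filter_add_card_filter_not (s := Sq S N) (fun t => P ∉ t)]
  congr 1
  · congr 1
    ext t
    rw [Finset.mem_filter, mem_Sq, mem_Sq, Finset.disjoint_insert_right]
    tauto
  · refine Finset.card_nbij' (fun t => t.erase P) (fun t => insert P t) ?_ ?_ ?_ ?_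
    · intro t ht
      rw [Finset.mem_coe, Finset.mem_filter, mem_Sq, not_not] at ht
      rw [Finset.mem_coe, mem_Sq, Finset.disjoint_insert_right]
      refine ⟨⟨Finset.notMem_erase P t, ht.1.1.mono_left (Finset.erase_subset P t)⟩, ?_⟩
      have h1 : P.1.natDegree + dgs (t.erase P) = dgs t := by
        unfold dgs
        exact Finset.add_sum_erase t (fun P : Ir F => P.1.natDegree) ht.2
      have h2 := ht.1.2
      change dgs (t.erase P) = N - P.1.natDegree
      omega
    · intro t ht
      rw [Finset.mem_coe, mem_Sq, Finset.disjoint_insert_right] at ht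
      rw [Finset.mem_coe, Finset.mem_filter, mem_Sq, not_not, Finset.disjoint_insert_left]
      refine ⟨⟨⟨hP, ht.1.2⟩, ?_⟩, Finset.mem_insert_self P t⟩
      have h1 : dgs (insert P t) = P.1.natDegree + dgs t := by
        unfold dgs
        exact Finset.sum_insert ht.1.1
      have h2 := ht.2
      change dgs (insert P t) = N
      omega
    · intro t ht
      rw [Finset.mem_coe, Finset.mem_filter, not_not] at ht
      exact Finset.insert_erase ht.2
    · intro t ht
      rw [Finset.mem_coe, mem_Sq, Finset.disjoint_insert_right] at ht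
      exact Finset.erase_insert ht.1.1

open Filter Topology in
theorem sql_rec {a b : ℕ → ℝ} {c r M : ℝ} {d : ℕ} (hr0 : 0 ≤ r) (hr1 : r < 1)
    (ha : Tendsto a atTop (𝓝 c)) (hb : ∀ N, |b N| ≤ M) (hab : ∀ N, d ≤ N → a N = b N + r * b (N - d)) :
    Tendsto b atTop (𝓝 (c / (1 + r))) := by
  have hM : 0 ≤ M := (abs_nonneg _).trans (hb 0)
  set l : ℝ := c / (1 + r) with hl
  have hcl : c = l + r * l := by
    rw [hl]
    field_simp
  set K : ℝ := M + |l| with hK
  have hK0 : 0 ≤ K := add_nonneg hM (abs_nonneg _)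
  have key : ∀ k : ℕ, ∀ ε : ℝ, 0 < ε → ∀ᶠ N in atTop, |b N - l| ≤ K * r ^ k + ε := by
    intro k
    induction k with
    | zero =>
      intro ε hε
      refine Eventually.of_forall fun N => ?_
      rw [pow_zero, mul_one]
      have h1 : |b N - l| ≤ |b N| + |l| := abs_sub _ _
      linarith [hb N]
    | succ k ih =>
      intro ε hε
      have h1 : ∀ᶠ N in atTop, |a N - c| < ε / 2 := by
        have := (Metric.tendsto_atTop.1 ha) (ε / 2) (by positivity)
        obtain ⟨N₀, hN₀⟩ := this
        filter_upwards [eventually_ge_atTop N₀] with N hN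
        exact hN₀ N hN
      have h2 : ∀ᶠ N in atTop, |b (N - d) - l| ≤ K * r ^ k + ε / 2 :=
        (tendsto_sub_atTop_nat d).eventually (ih (ε / 2) (by positivity))
      filter_upwards [h1, h2, eventually_ge_atTop d] with N h3 h4 h5
      have h6 : b N - l = (a N - c) - r * (b (N - d) - l) := by
        rw [hab N h5, hcl]
        ring
      rw [h6]
      have h7 : |r * (b (N - d) - l)| ≤ r * (K * r ^ k + ε / 2) := by
        rw [abs_mul, abs_of_nonneg hr0]
        exact mul_le_mul_of_nonneg_left h4 hr0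
      have h8 : |(a N - c) - r * (b (N - d) - l)| ≤ |a N - c| + |r * (b (N - d) - l)| := abs_sub _ _
      have h9 : r * (ε / 2) ≤ ε / 2 := by nlinarith
      have h10 : K * r ^ (k + 1) = r * (K * r ^ k) := by ring
      rw [h10]
      linarith
  rw [Metric.tendsto_atTop]
  intro ε hε
  have h1 : Tendsto (fun k : ℕ => K * r ^ k) atTop (𝓝 (K * 0)) :=
    (tendsto_pow_atTop_nhds_zero_of_lt_one hr0 hr1).const_mul K
  rw [mul_zero] at h1
  obtain ⟨k, hk⟩ := ((h1.eventually_lt_const (show (0 : ℝ) < ε / 2 by positivity))).exists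
  obtain ⟨N₀, hN₀⟩ := eventually_atTop.1 (key k (ε / 3) (by positivity))
  refine ⟨N₀, fun N hN => ?_⟩
  rw [Real.dist_eq]
  have := hN₀ N hN
  linarith

open Filter Topology in
theorem sql_tendsto (S : Finset (Ir F)) : ∃ c : ℝ, 0 < c ∧
    Tendsto (fun N => ((Sq S N).card : ℝ) / (Fintype.card F : ℝ) ^ N) atTop (𝓝 c) := by
  have hq : (1 : ℝ) < Fintype.card F := by exact_mod_cast Fintype.one_lt_card
  have hq0 : (0 : ℝ) < Fintype.card F := by linarith
  induction S using Finset.induction_on with
  | empty =>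
    refine ⟨1 - (Fintype.card F : ℝ)⁻¹, ?_, ?_⟩
    · have := inv_lt_one_of_one_lt₀ hq
      linarith
    · refine tendsto_const_nhds.congr' ?_
      filter_upwards [eventually_ge_atTop 2] with N hN
      obtain ⟨n, rfl⟩ := Nat.exists_eq_add_of_le' hN
      have h1 := sql_empty (F := F) n
      have h2 : (Fintype.card F : ℝ) ^ (n + 2) =
          ((Sq (∅ : Finset (Ir F)) (n + 2)).card : ℝ) + (Fintype.card F : ℝ) ^ (n + 1) := by
        exact_mod_cast h1
      rw [eq_div_iff (by positivity), sub_mul, one_mul, h2]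
      have h3 : (Fintype.card F : ℝ)⁻¹ * (((Sq (∅ : Finset (Ir F)) (n + 2)).card : ℝ) +
          (Fintype.card F : ℝ) ^ (n + 1)) = (Fintype.card F : ℝ) ^ (n + 1) := by
        rw [← h2, pow_succ (Fintype.card F : ℝ) (n + 1)]
        field_simp
      rw [h3]
      ring
  | insert P S hP ih =>
    obtain ⟨c, hc, hlim⟩ := ih
    set r : ℝ := ((Fintype.card F : ℝ) ^ P.1.natDegree)⁻¹ with hr
    have hr0 : 0 < r := by positivity
    have hdeg : P.1.natDegree ≠ 0 := P.2.2.natDegree_pos.ne'
    have hr1 : r < 1 := inv_lt_one_of_one_lt₀ (one_lt_pow₀ hq hdeg)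
    refine ⟨c / (1 + r), by positivity, ?_⟩
    refine sql_rec (M := 1) (d := P.1.natDegree) hr0.le hr1 hlim ?_ ?_
    · intro N
      rw [abs_of_nonneg (by positivity), div_le_one (by positivity)]
      exact_mod_cast card_Sq_le (insert P S) N
    · intro N hN
      rw [sql_insert S P hP N hN, Nat.cast_add, add_div]
      congr 1
      have h1 : (Fintype.card F : ℝ) ^ N =
          (Fintype.card F : ℝ) ^ P.1.natDegree * (Fintype.card F : ℝ) ^ (N - P.1.natDegree) := by
        rw [← pow_add]
        congr 1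
        omega
      rw [h1, hr]
      field_simp

theorem sq_lower {F : Type} [Field F] [Fintype F] (S : Finset (Ir F)) :
    ∃ c : ℝ, 0 < c ∧ ∃ N₀ : ℕ, ∀ N, N₀ ≤ N →
      c * (Fintype.card F : ℝ) ^ N ≤ ((Sq S N).card : ℝ) := by
  obtain ⟨c, hc, hlim⟩ := sql_tendsto S
  have hq0 : (0 : ℝ) < Fintype.card F := by exact_mod_cast Fintype.card_pos
  obtain ⟨N₀, hN₀⟩ := Filter.eventually_atTop.1
    (hlim.eventually_const_lt (show c / 2 < c by linarith))
  refine ⟨c / 2, by positivity, N₀, fun N hN => ?_⟩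
  have h1 := hN₀ N hN
  rw [lt_div_iff₀ (by positivity)] at h1
  exact h1.le

end Pool.Agent.Helper48.ST
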