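import Pool.Agent.Helper48.ST.Defs

/-!
ST-12. Splitting a family into the members with index in `U` and the others.

Proof. `s ↦ (m, s', s'')` with `s'' = s` restricted to `U`, `s' = s` restricted to the complement, `m` the total degree of `s'`, is a bijection
from `Fam Ω S N` onto the triples on the right (inverse `glue`). (`Finset.sum_sigma'`, `Finset.sum_nbij'`; the total degree is
`∑_{u ∈ U} + ∑_{u ∉ U}`, `Fintype.sum_subtype_add_sum_subtype`.)
-/

set_option autoImplicit false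

open Polynomial
open scoped Classical

namespace Pool.Agent.Helper48.ST

theorem split_glue_mem {F : Type} [Field F] {Ω : Type} (U : Finset Ω)
    (s : {u : Ω // u ∈ U} → Finset (Ir F)) (s' : {u : Ω // u ∉ U} → Finset (Ir F))
    {u : Ω} (h : u ∈ U) : glue U s s' u = s ⟨u, h⟩ := by
  unfold glue
  rw [dif_pos h]

theorem split_glue_not_mem {F : Type} [Field F] {Ω : Type} (U : Finset Ω)
    (s : {u : Ω // u ∈ U} → Finset (Ir F)) (s' : {u : Ω // u ∉ U} → Finset (Ir F))
    {u : Ω} (h : u ∉ U) : glue U s s' u = s' ⟨u, h⟩ := by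
  unfold glue
  rw [dif_neg h]

theorem split_sum {F : Type} [Field F] {Ω : Type} [Fintype Ω] (U : Finset Ω)
    (s : Ω → Finset (Ir F)) :
    (∑ u : {u : Ω // u ∈ U}, dgs (s u)) + ∑ u : {u : Ω // u ∉ U}, dgs (s u) = ∑ u, dgs (s u) := by
  have h1 : ∑ u ∈ Finset.univ.filter (fun u : Ω => u ∈ U), dgs (s u) =
      ∑ u : {u : Ω // u ∈ U}, dgs (s u) :=
    Finset.sum_subtype _ (by simp) (fun u => dgs (s u))
  have h2 : ∑ u ∈ Finset.univ.filter (fun u : Ω => ¬ u ∈ U), dgs (s u) =
      ∑ u : {u : Ω // u ∉ U}, dgs (s u) :=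
    Finset.sum_subtype _ (by simp) (fun u => dgs (s u))
  rw [← h1, ← h2]
  exact Finset.sum_filter_add_sum_filter_not _ _ _

theorem split_gen {F : Type} [Field F] [Fintype F] {Ω : Type} [Fintype Ω] {M : Type}
    [AddCommMonoid M] (U : Finset Ω) (S : Finset (Ir F)) (N : ℕ) (Φ : (Ω → Finset (Ir F)) → M) :
    ∑ s ∈ Fam Ω S N, Φ s =
      ∑ m ∈ Finset.range (N + 1), ∑ s' ∈ Fam {u : Ω // u ∉ U} S m,
        ∑ s'' ∈ Fam {u : Ω // u ∈ U} (S ∪ uni s') (N - m), Φ (glue U s'' s') := by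
  rw [Finset.sum_sigma', Finset.sum_sigma']
  refine Finset.sum_bij'
    (fun s _ => ⟨⟨∑ u : {u : Ω // u ∉ U}, dgs (s u), fun u => s u⟩, fun u => s u⟩)
    (fun y _ => glue U y.2 y.1.2) ?_ ?_ ?_ ?_ ?_
  · intro s hs
    rw [mem_Fam] at hs
    obtain ⟨h1, h2, h3⟩ := hs
    have h4 := split_sum U s
    simp only [Finset.mem_sigma, Finset.mem_range, mem_Fam]
    refine ⟨⟨by omega, fun u v huv => h1 _ _ fun h => huv (Subtype.ext h), fun u => h2 _, trivial⟩,
      fun u v huv => h1 _ _ fun h => huv (Subtype.ext h), fun u => ?_, by omega⟩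
    rw [Finset.disjoint_union_right]
    refine ⟨h2 _, ?_⟩
    unfold uni
    rw [Finset.disjoint_biUnion_right]
    intro v _
    exact h1 _ _ fun h => v.2 (h ▸ u.2)
  · rintro ⟨⟨m, s'⟩, s''⟩ hy
    simp only [Finset.mem_sigma, Finset.mem_range, mem_Fam] at hy
    obtain ⟨⟨hm, a1, a2, a3⟩, b1, b2, b3⟩ := hy
    have hd : ∀ (u : {u : Ω // u ∈ U}) (v : {u : Ω // u ∉ U}), Disjoint (s'' u) (s' v) := by
      intro u v
      refine (b2 u).mono_right ?_
      refine Finset.Subset.trans ?_ Finset.subset_union_right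
      exact Finset.subset_biUnion_of_mem s' (Finset.mem_univ v)
    rw [mem_Fam]
    refine ⟨fun u v huv => ?_, fun u => ?_, ?_⟩
    · by_cases hu : u ∈ U
      · by_cases hv : v ∈ U
        · rw [split_glue_mem U _ _ hu, split_glue_mem U _ _ hv]
          exact b1 _ _ fun h => huv (congrArg Subtype.val h)
        · rw [split_glue_mem U _ _ hu, split_glue_not_mem U _ _ hv]
          exact hd _ _
      · by_cases hv : v ∈ U
        · rw [split_glue_not_mem U _ _ hu, split_glue_mem U _ _ hv]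
          exact (hd _ _).symm
        · rw [split_glue_not_mem U _ _ hu, split_glue_not_mem U _ _ hv]
          exact a1 _ _ fun h => huv (congrArg Subtype.val h)
    · by_cases hu : u ∈ U
      · rw [split_glue_mem U _ _ hu]
        exact (b2 _).mono_right Finset.subset_union_left
      · rw [split_glue_not_mem U _ _ hu]
        exact a2 _
    · rw [← split_sum U]
      have e1 : ∀ u : {u : Ω // u ∈ U}, glue U s'' s' u = s'' u :=
        fun u => split_glue_mem U _ _ u.2
      have e2 : ∀ u : {u : Ω // u ∉ U}, glue U s'' s' u = s' u :=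
        fun u => split_glue_not_mem U _ _ u.2
      simp only [e1, e2]
      omega
  · intro s hs
    funext u
    by_cases hu : u ∈ U
    · rw [split_glue_mem U _ _ hu]
    · rw [split_glue_not_mem U _ _ hu]
  · rintro ⟨⟨m, s'⟩, s''⟩ hy
    simp only [Finset.mem_sigma, Finset.mem_range, mem_Fam] at hy
    obtain ⟨⟨hm, a1, a2, a3⟩, -⟩ := hy
    have e1 : (fun u : {u : Ω // u ∈ U} => glue U s'' s' u) = s'' :=
      funext fun u => split_glue_mem U _ _ u.2
    have e2 : (fun u : {u : Ω // u ∉ U} => glue U s'' s' u) = s' :=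
      funext fun u => split_glue_not_mem U _ _ u.2
    have e3 : ∑ u : {u : Ω // u ∉ U}, dgs (glue U s'' s' u) = m := by
      rw [← a3]
      exact Finset.sum_congr rfl fun u _ => congrArg dgs (congrFun e2 u)
    simp only [e1, e2, e3]
  · intro s hs
    congr 1
    funext u
    by_cases hu : u ∈ U
    · rw [split_glue_mem U _ _ hu]
    · rw [split_glue_not_mem U _ _ hu]

theorem split {F : Type} [Field F] [Fintype F] {Ω : Type} [Fintype Ω] (U : Finset Ω)
    (S : Finset (Ir F)) (N : ℕ) (Φ : (Ω → Finset (Ir F)) → ℂ) :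
    ∑ s ∈ Fam Ω S N, Φ s =
      ∑ m ∈ Finset.range (N + 1), ∑ s' ∈ Fam {u : Ω // u ∉ U} S m,
        ∑ s'' ∈ Fam {u : Ω // u ∈ U} (S ∪ uni s') (N - m), Φ (glue U s'' s') :=
  split_gen U S N Φ

theorem split_real {F : Type} [Field F] [Fintype F] {Ω : Type} [Fintype Ω] (U : Finset Ω)
    (S : Finset (Ir F)) (N : ℕ) (Φ : (Ω → Finset (Ir F)) → ℝ) :
    ∑ s ∈ Fam Ω S N, Φ s =
      ∑ m ∈ Finset.range (N + 1), ∑ s' ∈ Fam {u : Ω // u ∉ U} S m,
        ∑ s'' ∈ Fam {u : Ω // u ∈ U} (S ∪ uni s') (N - m), Φ (glue U s'' s') :=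
  split_gen U S N Φ

end Pool.Agent.Helper48.ST
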