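import Pool.Agent.Helper48.ST.InnerBound
import Pool.Agent.Helper48.ST.Split

/-!
ST-31. The families whose members outside an unlinked set with `κ` elements are short.

Proof. `m₀ = card Ω`, `q = card F`. `split` (for the summand times the indicator of the condition, which only concerns `s'`) gives
`∑_{m ≤ N} ∑_{s' ∈ Fam Uᶜ S m, short} ∑_{s'' ∈ Fam U (S ∪ uni s') (N-m)} W (glue U s'' s')`; for short `s'`, `m ≤ m₀ T ≤ N/2`, so `N - m ≥ N/2 ≥ 1/2`, hence `N - m ≥ 1`.
If all `s' v = ∅` (then `m = 0`, `uni s' = ∅`, one family) and `Cst S U`: `inner_trivial` gives `card (Sq S N)`. In all other cases `inner_bound` with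
`M = (card Ω + dgs S + 1) * T ≥ dgs S + m`: at most `21 q^(N-m) (1000 M^2/(N-m))^(c0/2) ≤ 42 q^(N-m) (1000 M^2/N)^(c0/2)` (`2^(c0/2) ≤ 2`). The sum of
`q^(-m)` over the short families `s'` is at most `T^(card Uᶜ) ≤ T^m₀` (`short_sum`).
-/

set_option autoImplicit false

open Polynomial
open scoped Classical

namespace Pool.Agent.Helper48.ST

theorem sc_le_of_short {F : Type} [Field F] [Fintype F] {Ω : Type} [Fintype Ω]
    (S : Finset (Ir F)) (U : Finset Ω) (T m : ℕ) (s' : {u : Ω // u ∉ U} → Finset (Ir F))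
    (h1 : s' ∈ Fam {u : Ω // u ∉ U} S m) (h2 : ∀ u, dgs (s' u) < T) :
    m ≤ Fintype.card Ω * T := by
  rw [mem_Fam] at h1
  rw [← h1.2.2]
  calc ∑ u, dgs (s' u) ≤ ∑ _u : {u : Ω // u ∉ U}, T := Finset.sum_le_sum fun u _ => (h2 u).le
    _ = Fintype.card {u : Ω // u ∉ U} * T := by
        rw [Finset.sum_const, smul_eq_mul, Finset.card_univ]
    _ ≤ Fintype.card Ω * T := Nat.mul_le_mul_right _ (Fintype.card_subtype_le _)

theorem sc_first {F : Type} [Field F] [Fintype F] {ι : Type} [Fintype ι]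
    (S : Finset (Ir F)) (N T : ℕ) (p : Prop) (X : ℝ) (hX : 0 ≤ X) :
    ∑ m ∈ Finset.range (N + 1), ∑ s' ∈ (Fam ι S m).filter (fun s => ∀ u, dgs (s u) < T),
      (if (∀ v, s' v = ∅) ∧ p then X else 0) ≤ if p then X else 0 := by
  by_cases hp : p
  · rw [if_pos hp]
    have h1 : ∀ m ∈ Finset.range (N + 1),
        ∑ s' ∈ (Fam ι S m).filter (fun s => ∀ u, dgs (s u) < T),
          (if (∀ v, s' v = ∅) ∧ p then X else 0) ≤ if m = 0 then X else 0 := by
      intro m _
      by_cases hm : m = 0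
      · rw [if_pos hm]
        calc ∑ s' ∈ (Fam ι S m).filter (fun s => ∀ u, dgs (s u) < T),
              (if (∀ v, s' v = ∅) ∧ p then X else 0)
            ≤ ∑ s' ∈ (Fam ι S m).filter (fun s => ∀ u, dgs (s u) < T),
              (if s' = (fun _ => ∅) then X else 0) := by
              refine Finset.sum_le_sum fun s' _ => ?_
              by_cases h : (∀ v, s' v = ∅)
              · rw [if_pos ⟨h, hp⟩, if_pos (funext h)]
              · rw [if_neg (fun h' => h h'.1), if_neg (fun h' => h (fun v => by rw [h']))]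
          _ ≤ X := by
              rw [Finset.sum_ite_eq']
              split_ifs
              · exact le_rfl
              · exact hX
      · rw [if_neg hm]
        refine le_of_eq (Finset.sum_eq_zero fun s' hs' => ?_)
        rw [if_neg]
        rintro ⟨h, _⟩
        rw [Finset.mem_filter, mem_Fam] at hs'
        apply hm
        rw [← hs'.1.2.2]
        refine Finset.sum_eq_zero fun u _ => ?_
        rw [h u]
        rfl
    refine (Finset.sum_le_sum h1).trans ?_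
    rw [Finset.sum_ite_eq']
    rw [if_pos (Finset.mem_range.mpr (Nat.succ_pos N))]
  · rw [if_neg hp]
    refine le_of_eq (Finset.sum_eq_zero fun m _ => Finset.sum_eq_zero fun s' _ => ?_)
    rw [if_neg fun h => hp h.2]

theorem sc_rpow {a b c : ℝ} (ha : 0 ≤ a) (hc0 : 0 ≤ c) (hc1 : c ≤ 1) (hb : b ≤ 2 * a)
    (hb0 : 0 ≤ b) : b ^ (c / 2) ≤ 2 * a ^ (c / 2) := by
  calc b ^ (c / 2) ≤ (2 * a) ^ (c / 2) := Real.rpow_le_rpow hb0 hb (by linarith)
    _ = (2 : ℝ) ^ (c / 2) * a ^ (c / 2) := Real.mul_rpow (by norm_num) ha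
    _ ≤ 2 * a ^ (c / 2) := by
        refine mul_le_mul_of_nonneg_right ?_ (Real.rpow_nonneg ha _)
        calc (2 : ℝ) ^ (c / 2) ≤ (2 : ℝ) ^ (1 : ℝ) :=
              Real.rpow_le_rpow_of_exponent_le (by norm_num) (by linarith)
          _ = 2 := Real.rpow_one 2

theorem step_C {F : Type} [Field F] [Fintype F] {ℓ : ℕ} [Fact ℓ.Prime] (g : Lg F ℓ) (h2 : ℓ ≠ 2)
    {Ω : Type} [Fintype Ω] (D : Dat F ℓ Ω) (κ : ℕ) (hκ : 1 ≤ κ) (hD : D.Ok κ)
    (S : Finset (Ir F)) (U : Finset Ω) (hU : D.Unl U) (hUκ : U.card = κ) (N T : ℕ) (hN : 1 ≤ N)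
    (hT : 1 ≤ T) (hTN : 2 * Fintype.card Ω * T ≤ N) :
    ‖∑ s ∈ (Fam Ω S N).filter (fun s => ∀ v, v ∉ U → dgs (s v) < T), D.W g κ S s‖ ≤
      (if D.Cst S U then ((Sq S N).card : ℝ) else 0) +
        42 * (T : ℝ) ^ Fintype.card Ω * (Fintype.card F : ℝ) ^ N *
          ((1000 * (((Fintype.card Ω + dgs S + 1) * T : ℕ) : ℝ) ^ 2) / N) ^ (c0 ℓ κ / 2) := by
  have hp : ℓ.Prime := Fact.out
  have hℓ : 3 ≤ ℓ := by
    have := hp.two_le
    omega
  have hc1 : c0 ℓ κ ≤ 1 := by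
    refine (c0_le ℓ κ hκ).trans ?_
    have hκ1 : (1 : ℝ) ≤ (κ : ℝ) := by exact_mod_cast hκ
    rw [div_le_one (by positivity)]
    nlinarith
  have hc0 : 0 ≤ c0 ℓ κ := (c0_pos ℓ κ (by omega) hκ).le
  have hq : (0 : ℝ) < (Fintype.card F : ℝ) := by exact_mod_cast Fintype.card_pos
  have hN0 : (0 : ℝ) < N := by exact_mod_cast hN
  obtain ⟨M, hMdef⟩ : ∃ M : ℕ, M = (Fintype.card Ω + dgs S + 1) * T := ⟨_, rfl⟩
  have hM1 : 1 ≤ M := by
    rw [hMdef]
    exact Nat.one_le_iff_ne_zero.mpr (Nat.mul_ne_zero (by omega) (by omega))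
  rw [← hMdef]
  obtain ⟨B, hB⟩ : ∃ B : ℝ, B = ((1000 * (M : ℝ) ^ 2) / N) ^ (c0 ℓ κ / 2) := ⟨_, rfl⟩
  have ha : (0 : ℝ) ≤ (1000 * (M : ℝ) ^ 2) / N := by positivity
  have hB0 : 0 ≤ B := by rw [hB]; exact Real.rpow_nonneg ha _
  rw [← hB]
  -- the sum by splitting
  have key : ∑ s ∈ (Fam Ω S N).filter (fun s => ∀ v, v ∉ U → dgs (s v) < T), D.W g κ S s =
      ∑ m ∈ Finset.range (N + 1), ∑ s' ∈ (Fam {u : Ω // u ∉ U} S m).filter
        (fun s => ∀ u, dgs (s u) < T),
        ∑ s'' ∈ Fam {u : Ω // u ∈ U} (S ∪ uni s') (N - m), D.W g κ S (glue U s'' s') := by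
    rw [Finset.sum_filter, split U S N]
    refine Finset.sum_congr rfl fun m _ => ?_
    rw [Finset.sum_filter]
    refine Finset.sum_congr rfl fun s' _ => ?_
    by_cases h : ∀ u, dgs (s' u) < T
    · rw [if_pos h]
      refine Finset.sum_congr rfl fun s'' _ => ?_
      rw [if_pos]
      intro v hv
      rw [glue, dif_neg hv]
      exact h ⟨v, hv⟩
    · rw [if_neg h]
      refine Finset.sum_eq_zero fun s'' _ => ?_
      rw [if_neg]
      intro h'
      apply h
      rintro ⟨v, hv⟩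
      have := h' v hv
      rwa [glue, dif_neg hv] at this
  have hbd : ∀ m ∈ Finset.range (N + 1), ∀ s' ∈ (Fam {u : Ω // u ∉ U} S m).filter
        (fun s => ∀ u, dgs (s u) < T),
      ‖∑ s'' ∈ Fam {u : Ω // u ∈ U} (S ∪ uni s') (N - m), D.W g κ S (glue U s'' s')‖ ≤
        (if (∀ v, s' v = ∅) ∧ D.Cst S U then ((Sq S N).card : ℝ) else 0) +
          42 * (Fintype.card F : ℝ) ^ N * B * ((Fintype.card F : ℝ)⁻¹) ^ m := by
    intro m _ s' hs'
    rw [Finset.mem_filter] at hs'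
    obtain ⟨hs1, hs2⟩ := hs'
    have hmT : m ≤ Fintype.card Ω * T := sc_le_of_short S U T m s' hs1 hs2
    have hmN : 2 * m ≤ N := by nlinarith
    have hnonneg : 0 ≤ 42 * (Fintype.card F : ℝ) ^ N * B * ((Fintype.card F : ℝ)⁻¹) ^ m := by
      positivity
    by_cases hA : (∀ v, s' v = ∅) ∧ D.Cst S U
    · rw [if_pos hA]
      have h1 := inner_trivial g h2 D κ hκ hD S U hU hUκ s' (N - m)
      have hm0 : m = 0 := by
        rw [mem_Fam] at hs1
        rw [← hs1.2.2]
        refine Finset.sum_eq_zero fun u _ => ?_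
        rw [hA.1 u]
        rfl
      have hu : uni s' = ∅ := by
        rw [uni, Finset.eq_empty_iff_forall_notMem]
        intro P hP
        rw [Finset.mem_biUnion] at hP
        obtain ⟨v, _, hv⟩ := hP
        rw [hA.1 v] at hv
        exact absurd hv (Finset.notMem_empty P)
      rw [hu, Finset.union_empty] at h1
      rw [hu, Finset.union_empty]
      rw [hm0, Nat.sub_zero] at h1 ⊢
      rw [hm0] at hnonneg
      linarith
    · rw [if_neg hA, zero_add]
      have hne : (∃ v, s' v ≠ ∅) ∨ ¬ D.Cst S U := by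
        by_contra hcon
        push Not at hcon
        exact hA ⟨hcon.1, hcon.2⟩
      have hMle : dgs S + m ≤ M := by
        rw [hMdef]
        have : dgs S ≤ dgs S * T := Nat.le_mul_of_pos_right _ hT
        nlinarith
      have hn1 : 1 ≤ N - m := by omega
      have h1 := inner_bound g h2 D κ hκ hD S U hU hUκ s' m hs1 hne M hMle hM1 (N - m) hn1
      refine h1.trans ?_
      have hn0 : (0 : ℝ) < ((N - m : ℕ) : ℝ) := by exact_mod_cast hn1
      have h3 : (1000 * (M : ℝ) ^ 2) / ((N - m : ℕ) : ℝ) ≤ 2 * ((1000 * (M : ℝ) ^ 2) / N) := by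
        have h4 : (N : ℝ) ≤ 2 * ((N - m : ℕ) : ℝ) := by
          have : N ≤ 2 * (N - m) := by omega
          exact_mod_cast this
        rw [← mul_div_assoc, div_le_div_iff₀ hn0 hN0]
        have h5 : (0 : ℝ) ≤ 1000 * (M : ℝ) ^ 2 := by positivity
        nlinarith
      have h6 := sc_rpow ha hc0 hc1 h3 (by positivity)
      rw [← hB] at h6
      have h7 : (Fintype.card F : ℝ) ^ (N - m) =
          (Fintype.card F : ℝ) ^ N * ((Fintype.card F : ℝ)⁻¹) ^ m := by
        have : (Fintype.card F : ℝ) ^ N = (Fintype.card F : ℝ) ^ (N - m) * (Fintype.card F : ℝ) ^ m := by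
          rw [← pow_add]; congr 1; omega
        rw [this, mul_assoc, ← mul_pow, mul_inv_cancel₀ hq.ne', one_pow, mul_one]
      rw [h7]
      calc 21 * ((Fintype.card F : ℝ) ^ N * ((Fintype.card F : ℝ)⁻¹) ^ m) *
            ((1000 * (M : ℝ) ^ 2) / ((N - m : ℕ) : ℝ)) ^ (c0 ℓ κ / 2)
          ≤ 21 * ((Fintype.card F : ℝ) ^ N * ((Fintype.card F : ℝ)⁻¹) ^ m) * (2 * B) :=
            mul_le_mul_of_nonneg_left h6 (by positivity)
        _ = 42 * (Fintype.card F : ℝ) ^ N * B * ((Fintype.card F : ℝ)⁻¹) ^ m := by ring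
  rw [key]
  refine (norm_sum_le _ _).trans ?_
  refine (Finset.sum_le_sum fun m _ => norm_sum_le _ _).trans ?_
  refine (Finset.sum_le_sum fun m hm => Finset.sum_le_sum (hbd m hm)).trans ?_
  simp only [Finset.sum_add_distrib]
  refine add_le_add (sc_first S N T (D.Cst S U) _ (Nat.cast_nonneg _)) ?_
  have h8 := short_sum (ι := {u : Ω // u ∉ U}) S T N hT
  have h9 : ∑ m ∈ Finset.range (N + 1), ∑ _s' ∈ (Fam {u : Ω // u ∉ U} S m).filter
        (fun s => ∀ u, dgs (s u) < T),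
        42 * (Fintype.card F : ℝ) ^ N * B * ((Fintype.card F : ℝ)⁻¹) ^ m =
      42 * (Fintype.card F : ℝ) ^ N * B * ∑ m ∈ Finset.range (N + 1),
        ∑ _s' ∈ (Fam {u : Ω // u ∉ U} S m).filter (fun s => ∀ u, dgs (s u) < T),
          ((Fintype.card F : ℝ)⁻¹) ^ m := by
    rw [Finset.mul_sum]
    refine Finset.sum_congr rfl fun m _ => ?_
    rw [Finset.mul_sum]
  rw [h9]
  have h10 : (T : ℝ) ^ Fintype.card {u : Ω // u ∉ U} ≤ (T : ℝ) ^ Fintype.card Ω :=
    pow_le_pow_right₀ (by exact_mod_cast hT) (Fintype.card_subtype_le _)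
  have h11 : (0 : ℝ) ≤ 42 * (Fintype.card F : ℝ) ^ N * B := by positivity
  calc 42 * (Fintype.card F : ℝ) ^ N * B * ∑ m ∈ Finset.range (N + 1),
        ∑ _s' ∈ (Fam {u : Ω // u ∉ U} S m).filter (fun s => ∀ u, dgs (s u) < T),
          ((Fintype.card F : ℝ)⁻¹) ^ m
      ≤ 42 * (Fintype.card F : ℝ) ^ N * B * (T : ℝ) ^ Fintype.card Ω :=
        mul_le_mul_of_nonneg_left (h8.trans h10) h11
    _ = 42 * (T : ℝ) ^ Fintype.card Ω * (Fintype.card F : ℝ) ^ N * B := by ring

end Pool.Agent.Helper48.ST
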