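import Pool.Agent.Helper48.ST.Facts

/-!
ST-50. The parameters determine the class.

Proof. Let `x, x' ∈ InS` have the same parameters. For each `j`: `lgc (x j) = lgc (x' j)` (`sum_lgc`: `toV` is the vector itself), for `P ∈ t` `vl P (x j) ≡ vl P (x' j) mod ℓ` (`sum_vl`), for `P ∉ t ∪ S` both are
`≡ 0` (`vl_out`), and for `P ∈ S` by `loc_S` both are determined by `vl P (x (pb P)) ≡ vl P (x' (pb P))`: `0` for `j ≠ pa, pb`, and `vl P (x (pa P)) ≡ - vl P (x (pb P))`. So `x j / x' j` satisfies the hypotheses of `isPow`.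
-/

set_option autoImplicit false

open Polynomial
open scoped Classical

namespace Pool.Agent.Helper48.ST

theorem pi_toV {n ℓ : ℕ} {w w' : Fin n → ZMod ℓ} (h : ∑ i, w i = 0) (h' : ∑ i, w' i = 0)
    (he : toV w = toV w') : w = w' := by
  have h1 : w ∈ Vs n ℓ := h
  have h2 : w' ∈ Vs n ℓ := h'
  rw [toV, toV, dif_pos h1, dif_pos h2] at he
  exact congrArg Subtype.val he

theorem prm_inj {F : Type} [Field F] [Fintype F] {ℓ : ℕ} [Fact ℓ.Prime] (g : Lg F ℓ)
    {n d : ℕ} {a : Fin n → F[X]} (ha : Stp d a) {pa pb : Ir F → Fin n} (hp : Pairs a pa pb)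
    {t : Finset (Ir F)} (ht : Disjoint t (SS a)) {x x' : Fin n → (RatFunc F)ˣ}
    (hx : InS g a t x) (hx' : InS g a t x')
    (h : prm g pb (SS a) t x = prm g pb (SS a) t x') : x⁻¹ * x' ∈ Pw F n ℓ := by
  rw [prm, prm, Prod.mk.injEq, Prod.mk.injEq] at h
  obtain ⟨⟨h1, h2⟩, h3⟩ := h
  have k1 := pi_toV (sum_lgc g hx) (sum_lgc g hx') h1
  have k2 : ∀ P ∈ SS a, ((vl P (x (pb P) : RatFunc F) : ℤ) : ZMod ℓ) =
      ((vl P (x' (pb P) : RatFunc F) : ℤ) : ZMod ℓ) := fun P hP => congrFun h2 ⟨P, hP⟩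
  have k3 : ∀ P ∈ t, ∀ j, ((vl P (x j : RatFunc F) : ℤ) : ZMod ℓ) =
      ((vl P (x' j : RatFunc F) : ℤ) : ZMod ℓ) := by
    intro P hP j
    exact congrFun (pi_toV (sum_vl g hx P) (sum_vl g hx' P) (congrFun h3 ⟨P, hP⟩)) j
  have key : ∀ P : Ir F, ∀ j, ((vl P (x j : RatFunc F) : ℤ) : ZMod ℓ) =
      ((vl P (x' j : RatFunc F) : ℤ) : ZMod ℓ) := by
    intro P j
    by_cases hPt : P ∈ t
    · exact k3 P hPt j
    · by_cases hPS : P ∈ SS a
      · obtain ⟨w, _, e1, e2, e3, _⟩ := loc_S g ha hp ht hx hPS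
        obtain ⟨w', _, e1', e2', e3', _⟩ := loc_S g ha hp ht hx' hPS
        have e4 := k2 P hPS
        by_cases hja : j = pa P
        · rw [hja, e2, e2']
          rw [e1, e1'] at e4
          linear_combination -e4
        · by_cases hjb : j = pb P
          · rw [hjb]
            exact e4
          · rw [e3 j hja hjb, e3' j hja hjb]
      · rw [(ZMod.intCast_zmod_eq_zero_iff_dvd _ _).mpr (vl_out g ha hx hPt hPS j),
          (ZMod.intCast_zmod_eq_zero_iff_dvd _ _).mpr (vl_out g ha hx' hPt hPS j)]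
  have hpow : ∀ j, ∃ y : (RatFunc F)ˣ, y ^ ℓ = (x j)⁻¹ * x' j := by
    intro j
    have hx0 : (x j : RatFunc F) ≠ 0 := (x j).ne_zero
    have hx0' : (x' j : RatFunc F) ≠ 0 := (x' j).ne_zero
    have hne : (x j : RatFunc F)⁻¹ * (x' j : RatFunc F) ≠ 0 := mul_ne_zero (inv_ne_zero hx0) hx0'
    obtain ⟨y, hy0, hy⟩ := isPow g ((x j : RatFunc F)⁻¹ * (x' j : RatFunc F)) hne (by
      rw [lgc_mul g _ _ (inv_ne_zero hx0) hx0', lgc_inv g _ hx0]
      have := congrFun k1 j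
      rw [this]
      ring) (by
      intro P
      rw [vl_mul P _ _ (inv_ne_zero hx0) hx0', vl_inv P _ hx0,
        ← ZMod.intCast_zmod_eq_zero_iff_dvd]
      push_cast
      rw [key P j]
      ring)
    refine ⟨Units.mk0 y hy0, Units.ext ?_⟩
    rw [Units.val_pow_eq_pow_val, Units.val_mk0, ← hy, Units.val_mul, Units.val_inv_eq_inv_val]
  choose y hy using hpow
  refine ⟨y, ?_⟩
  funext j
  exact hy j

end Pool.Agent.Helper48.ST
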