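import Pool.Agent.Helper48.ST.Facts

/-!
ST-49. The parameters of `x ∈ InS` satisfy the conditions at `π ∈ S` and at infinity.

Notation as in ST-48. Proof. Let `π ∈ S`, `a = pa π`, `b = pb π`. `ch_formula` (`T = t ∪ S`): `ch π (x_a) - ch π (x_b) = deg π (λ_a - λ_b) + ∑_{P ∈ t} (m a P - m b P) L(P,π) + ∑_{π' ∈ S \ π} (m a π' - m b π') L(π',π)`. By `loc_S`
and `tor_ch_S` it equals `(w_a - w_b)(∑_{P ∈ t} L(P,π) + 2 ch π (a_a - a_b) + ∑_{i ≠ a,b} L(a_a - a_i, π))` and `w_a - w_b = - e π`. So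
`∑_{P ∈ t} (m a P - m b P + e π) L(P,π) + cS = 0` with
`cS = deg π (λ_a - λ_b) + ∑_{π' ∈ S \ π} (m a π' - m b π') L(π',π) + e π (2 ch π (a_a - a_b) + ∑_{i ≠ a,b} L(a_a - a_i, π))`, where `m j π'` is the function
`mS e π' j = -e π'` if `j = pa π'`, `e π'` if `j = pb π'`, `0` otherwise (`loc_S`) of the parameters: `cS` depends only on `y = (λ, e)` and `π`.
Infinity: `hx.inf j` and `deg_formula`: `0 = ∑_{P ∈ t} deg P * m j P + ∑_{π ∈ S} deg π * m j π`; multiply by `s j` and sum: `EI s + cI = 0`, `cI y s = ∑_{π ∈ S} deg π * e π * (s_b - s_a)`, additive in `s`.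
-/

set_option autoImplicit false

open Polynomial
open scoped Classical

namespace Pool.Agent.Helper48.ST

/-- The valuations of `x` at the primes of `S`, as functions of the parameters. -/
noncomputable def prmS_m {F : Type} [Field F] [Fintype F] {n ℓ : ℕ} {S : Finset (Ir F)} (pa pb : Ir F → Fin n)
    (y : Pr F n ℓ S) (π : Ir F) (j : Fin n) : ZMod ℓ :=
  if j = pa π then -ex y.2 π else if j = pb π then ex y.2 π else 0

theorem prmS_sum_units {F : Type} [Field F] {t : Finset (Ir F)} {ℓ : ℕ} (f : Ir F → ZMod ℓ) :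
    ∑ P : {P : Ir F // P ∈ t}, f P.1 = ∑ P ∈ t, f P :=
  Finset.sum_coe_sort t f

theorem exists_consts {F : Type} [Field F] [Fintype F] {ℓ : ℕ} [Fact ℓ.Prime] (g : Lg F ℓ)
    (h2 : ℓ ≠ 2) {n d : ℕ} {a : Fin n → F[X]} (ha : Stp d a) {pa pb : Ir F → Fin n}
    (hp : Pairs a pa pb) :
    ∃ (cS : Pr F n ℓ (SS a) → Ir F → ZMod ℓ) (cI : Pr F n ℓ (SS a) → Vs n ℓ → ZMod ℓ),
      (∀ y s s', cI y (s + s') = cI y s + cI y s') ∧
      ∀ (t : Finset (Ir F)), Disjoint t (SS a) → ∀ x : Fin n → (RatFunc F)ˣ, InS g a t x →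
        (∀ π ∈ SS a, ES g pa pb (SS a) t (prm g pb (SS a) t x).1 (prm g pb (SS a) t x).2 π +
          cS (prm g pb (SS a) t x).1 π = 0) ∧
        ∀ s, EI t (prm g pb (SS a) t x).2 s + cI (prm g pb (SS a) t x).1 s = 0 := by
  refine ⟨fun y π => (π.1.natDegree : ZMod ℓ) * (y.1.1 (pa π) - y.1.1 (pb π)) +
      ∑ ρ ∈ (SS a).erase π, (prmS_m pa pb y ρ (pa π) - prmS_m pa pb y ρ (pb π)) * g.L ρ.1 π.1 +
      ex y.2 π * (2 * ch g π (algebraMap F[X] (RatFunc F) (a (pa π) - a (pb π))) +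
        ∑ i ∈ (Finset.univ.erase (pa π)).erase (pb π), g.L (a (pa π) - a i) π.1),
    fun y s => ∑ π ∈ SS a, (π.1.natDegree : ZMod ℓ) * ∑ j, s.1 j * prmS_m pa pb y π j, ?_, ?_⟩
  · intro y s s'
    rw [← Finset.sum_add_distrib]
    refine Finset.sum_congr rfl fun π _ => ?_
    rw [← mul_add, ← Finset.sum_add_distrib]
    congr 1
    refine Finset.sum_congr rfl fun j _ => ?_
    have h1 : (s + s').1 j = s.1 j + s'.1 j := rfl
    rw [h1, add_mul]
  intro t ht x hx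
  have hlam : ∀ j, ((prm g pb (SS a) t x).1.1).1 j = lgc g (x j : RatFunc F) := by
    intro j
    have h1 : (fun j => lgc g (x j : RatFunc F)) ∈ Vs n ℓ := mem_Vs.2 (sum_lgc g hx)
    show (toV fun j => lgc g (x j : RatFunc F)).1 j = _
    rw [toV, dif_pos h1]
  have hw : ∀ (P : {P : Ir F // P ∈ t}) (j : Fin n), ((prm g pb (SS a) t x).2 P).1 j =
      ((vl P.1 (x j : RatFunc F) : ℤ) : ZMod ℓ) := by
    intro P j
    have h1 : (fun j => ((vl P.1 (x j : RatFunc F) : ℤ) : ZMod ℓ)) ∈ Vs n ℓ :=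
      mem_Vs.2 (sum_vl g hx P.1)
    show (toV fun j => ((vl P.1 (x j : RatFunc F) : ℤ) : ZMod ℓ)).1 j = _
    rw [toV, dif_pos h1]
  have he : ∀ π ∈ SS a, ex (prm g pb (SS a) t x).1.2 π =
      ((vl π (x (pb π) : RatFunc F) : ℤ) : ZMod ℓ) := by
    intro π hπ
    rw [ex, dif_pos hπ]
    rfl
  have hm : ∀ π ∈ SS a, ∀ j, prmS_m pa pb (prm g pb (SS a) t x).1 π j =
      ((vl π (x j : RatFunc F) : ℤ) : ZMod ℓ) := by
    intro π hπ j
    obtain ⟨w, -, hb, haa, ho, -⟩ := loc_S g ha hp ht hx hπ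
    unfold prmS_m
    rw [he π hπ]
    split_ifs with h3 h4
    · rw [h3, hb, haa]
      ring
    · rw [h4]
    · exact (ho j h3 h4).symm
  have hT : ∀ j, ∀ P, P ∉ t ∪ SS a → (ℓ : ℤ) ∣ vl P (x j : RatFunc F) := by
    intro j P hP
    rw [Finset.mem_union, not_or] at hP
    exact vl_out g ha hx hP.1 hP.2 j
  set y := (prm g pb (SS a) t x).1 with hy
  constructor
  · intro π hπ
    have hπt : π ∉ t := fun h => Finset.disjoint_left.1 ht h hπ
    have hch : ∀ j, ch g π (x j : RatFunc F) = (π.1.natDegree : ZMod ℓ) * y.1.1 j +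
        (∑ P ∈ t, ((vl P (x j : RatFunc F) : ℤ) : ZMod ℓ) * g.L P.1 π.1 +
          ∑ ρ ∈ (SS a).erase π, prmS_m pa pb y ρ j * g.L ρ.1 π.1) := by
      intro j
      rw [ch_formula g (x j : RatFunc F) (x j).ne_zero (t ∪ SS a) (hT j) π, hlam]
      congr 1
      have e1 : (t ∪ SS a).erase π = t ∪ (SS a).erase π := by
        rw [Finset.erase_union_distrib, Finset.erase_eq_of_notMem hπt]
      rw [e1, Finset.sum_union (ht.mono_right (Finset.erase_subset _ _))]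
      congr 1
      refine Finset.sum_congr rfl fun ρ hρ => ?_
      rw [hm ρ (Finset.mem_of_mem_erase hρ)]
    obtain ⟨w, -, hb, -, -, hd⟩ := loc_S g ha hp ht hx hπ
    rw [hch, hch, tor_ch_S g ha hp ht w h2 hπ] at hd
    have hES : ES g pa pb (SS a) t y (prm g pb (SS a) t x).2 π =
        ∑ P ∈ t, (((vl P (x (pa π) : RatFunc F) : ℤ) : ZMod ℓ) -
          ((vl P (x (pb π) : RatFunc F) : ℤ) : ZMod ℓ) + ex y.2 π) * g.L P.1 π.1 := by
      rw [← prmS_sum_units (t := t) (fun P => (((vl P (x (pa π) : RatFunc F) : ℤ) : ZMod ℓ) -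
          ((vl P (x (pb π) : RatFunc F) : ℤ) : ZMod ℓ) + ex y.2 π) * g.L P.1 π.1)]
      unfold ES
      refine Finset.sum_congr rfl fun P _ => ?_
      rw [hw, hw]
    have hES2 : ES g pa pb (SS a) t y (prm g pb (SS a) t x).2 π =
        ∑ P ∈ t, ((vl P (x (pa π) : RatFunc F) : ℤ) : ZMod ℓ) * g.L P.1 π.1 -
          ∑ P ∈ t, ((vl P (x (pb π) : RatFunc F) : ℤ) : ZMod ℓ) * g.L P.1 π.1 +
          ex y.2 π * ∑ P ∈ t, g.L P.1 π.1 := by
      rw [hES, Finset.mul_sum, ← Finset.sum_sub_distrib, ← Finset.sum_add_distrib]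
      refine Finset.sum_congr rfl fun P _ => ?_
      ring
    have hsub : ∑ ρ ∈ (SS a).erase π, (prmS_m pa pb y ρ (pa π) - prmS_m pa pb y ρ (pb π)) * g.L ρ.1 π.1 =
        ∑ ρ ∈ (SS a).erase π, prmS_m pa pb y ρ (pa π) * g.L ρ.1 π.1 -
          ∑ ρ ∈ (SS a).erase π, prmS_m pa pb y ρ (pb π) * g.L ρ.1 π.1 := by
      rw [← Finset.sum_sub_distrib]
      refine Finset.sum_congr rfl fun ρ _ => ?_
      ring
    have hwe : (w (pa π) : ZMod ℓ) - (w (pb π) : ZMod ℓ) = -ex y.2 π := by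
      rw [he π hπ, hb]
      ring
    rw [hwe] at hd
    simp only []
    rw [hES2, hsub]
    linear_combination hd
  · intro s
    have hdeg : ∀ j, ∑ P ∈ t, (P.1.natDegree : ZMod ℓ) * ((vl P (x j : RatFunc F) : ℤ) : ZMod ℓ) +
        ∑ π ∈ SS a, (π.1.natDegree : ZMod ℓ) * prmS_m pa pb y π j = 0 := by
      intro j
      have h1 := deg_formula (ℓ := ℓ) (x j : RatFunc F) (x j).ne_zero (t ∪ SS a) (hT j)
      rw [(ZMod.intCast_zmod_eq_zero_iff_dvd _ _).2 (hx.inf j), Finset.sum_union ht] at h1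
      rw [h1]
      congr 1
      refine Finset.sum_congr rfl fun π hπ => ?_
      rw [hm π hπ]
    have hEI : EI t (prm g pb (SS a) t x).2 s =
        ∑ j, s.1 j * ∑ P ∈ t, (P.1.natDegree : ZMod ℓ) * ((vl P (x j : RatFunc F) : ℤ) : ZMod ℓ) := by
      have h1 : EI t (prm g pb (SS a) t x).2 s =
          ∑ P ∈ t, (P.1.natDegree : ZMod ℓ) * ∑ j, s.1 j * ((vl P (x j : RatFunc F) : ℤ) : ZMod ℓ) := by
        rw [← prmS_sum_units (t := t) (fun P => (P.1.natDegree : ZMod ℓ) *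
          ∑ j, s.1 j * ((vl P (x j : RatFunc F) : ℤ) : ZMod ℓ))]
        unfold EI
        refine Finset.sum_congr rfl fun P _ => ?_
        congr 1
        refine Finset.sum_congr rfl fun j _ => ?_
        rw [hw]
      rw [h1]
      simp only [Finset.mul_sum]
      rw [Finset.sum_comm]
      refine Finset.sum_congr rfl fun j _ => Finset.sum_congr rfl fun P _ => ?_
      ring
    have hcI : ∑ π ∈ SS a, (π.1.natDegree : ZMod ℓ) * ∑ j, s.1 j * prmS_m pa pb y π j =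
        ∑ j, s.1 j * ∑ π ∈ SS a, (π.1.natDegree : ZMod ℓ) * prmS_m pa pb y π j := by
      simp only [Finset.mul_sum]
      rw [Finset.sum_comm]
      refine Finset.sum_congr rfl fun j _ => Finset.sum_congr rfl fun P _ => ?_
      ring
    simp only []
    rw [hEI, hcI, ← Finset.sum_add_distrib]
    refine Finset.sum_eq_zero fun j _ => ?_
    rw [← mul_add, hdeg, mul_zero]

end Pool.Agent.Helper48.ST
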