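import Pool.Agent.Helper48.ST.PrmT
import Pool.Agent.Helper48.ST.PrmS
import Pool.Agent.Helper48.ST.PrmInj

/-!
ST-51. The number of classes is at most the number of solutions.

Proof. The map `class of x ↦ prm x` (choose a representative in `InS`) is injective (`prm_inj`: classes are equal iff `x⁻¹ * x' ∈ Pw`, `QuotientGroup.eq`) into the finite set `Sol` (ST-48, 49).
-/

set_option autoImplicit false

open Polynomial
open scoped Classical

namespace Pool.Agent.Helper48.ST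

theorem cls_le {F : Type} [Field F] [Fintype F] {ℓ : ℕ} [Fact ℓ.Prime] (g : Lg F ℓ)
    (h2 : ℓ ≠ 2) {n d : ℕ} {a : Fin n → F[X]} (ha : Stp d a) {pa pb : Ir F → Fin n}
    (hp : Pairs a pa pb) :
    ∃ (cS : Pr F n ℓ (SS a) → Ir F → ZMod ℓ) (cI : Pr F n ℓ (SS a) → Vs n ℓ → ZMod ℓ),
      (∀ y s s', cI y (s + s') = cI y s + cI y s') ∧
      ∀ (t : Finset (Ir F)), Disjoint t (SS a) →
        (clsS g a t).Finite ∧ (clsS g a t).ncard ≤ (Sol g a pa pb (SS a) t cS cI).card := by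
  obtain ⟨cS, cI, hadd, h⟩ := exists_consts g h2 ha hp
  refine ⟨cS, cI, hadd, fun t ht => ?_⟩
  have hex : ∀ c : (Fin n → (RatFunc F)ˣ) ⧸ Pw F n ℓ, ∃ x : Fin n → (RatFunc F)ˣ, c ∈ clsS g a t →
      InS g a t x ∧ (x : (Fin n → (RatFunc F)ˣ) ⧸ Pw F n ℓ) = c := by
    intro c
    by_cases hc : c ∈ clsS g a t
    · obtain ⟨x, hx, hxc⟩ := hc
      exact ⟨x, fun _ => ⟨hx, hxc⟩⟩
    · exact ⟨1, fun h => absurd h hc⟩
  choose r hr using hex
  have hmaps : ∀ c ∈ clsS g a t, prm g pb (SS a) t (r c) ∈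
      (Sol g a pa pb (SS a) t cS cI : Set (Pr F n ℓ (SS a) × ({P : Ir F // P ∈ t} → Vs n ℓ))) := by
    intro c hc
    have hx := (hr c hc).1
    rw [Finset.mem_coe, Sol, Finset.mem_filter]
    exact ⟨Finset.mem_univ _, fun P z => prm_EP g h2 ha hp ht hx P z, (h t ht _ hx).1, (h t ht _ hx).2⟩
  have hinj : Set.InjOn (fun c => prm g pb (SS a) t (r c)) (clsS g a t) := by
    intro c hc c' hc' hcc
    have h1 := prm_inj g ha hp ht (hr c hc).1 (hr c' hc').1 hcc
    rw [← (hr c hc).2, ← (hr c' hc').2]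
    exact QuotientGroup.eq.2 h1
  refine ⟨Set.Finite.of_injOn hmaps hinj (Finset.finite_toSet _), ?_⟩
  rw [← Set.ncard_coe_finset (Sol g a pa pb (SS a) t cS cI)]
  exact Set.ncard_le_ncard_of_injOn _ hmaps hinj (Finset.finite_toSet _)

end Pool.Agent.Helper48.ST
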