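import Pool.Agent.Helper48.ST.Types

/-!
ST-60. The total number of constant pairs `(parameters, U)`.

Proof. `V = Vs n ℓ`, `κ = card V`, `card (Pr) = κ ℓ^(card S)`. By ST-59 and `unl_iff` `cnt` is at most the number of `w₀ ∈ V` with `Cst S ({w₀} × V)` plus the number of `z₀` with `Cst S (V × {z₀})`.
For `w₀` fixed, `Cst` on `{w₀} × V` determines `y = (λ, e)`: for `π ∈ S`, with `a = pa π ≠ b = pb π`, `(w₀ a - w₀ b + e π)(z_b - z_a + r π)` is the same for `z = 0` and `z = e_b - e_a`, whose values of `z_b - z_a` differ by `2 ≠ 0`, so `e π = w₀ b - w₀ a`. And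
`A (w₀, z) = const + ∑_j λ_j z_j + ∑_{i<j} (w₀ i - w₀ j)(z_j - z_i) θ_ij` is the same for `z` and `0`, so `∑_j λ_j z_j` is determined for all `z ∈ V`, and `λ` by `Vs_nondeg`. So there is at most one `y` (for all `y'` the same), so at most
`card (Pr)` pairs `(y, y')`; there are `κ` choices for `w₀`. Symmetrically, `Cst` on `V × {z₀}` determines `y' = (s, r)`: `r π = z₀ a - z₀ b`, and `∑ s_j w_j + ∑_{i<j} (w_i - w_j)(z₀ j - z₀ i) θ_ij` constant determines `s`. Total `2 κ * κ ℓ^(card S)`.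
-/

set_option autoImplicit false

open Polynomial
open scoped Classical

namespace Pool.Agent.Helper48.ST

theorem cntSum_two {ℓ : ℕ} [Fact ℓ.Prime] (h2 : ℓ ≠ 2) : (2 : ZMod ℓ) ≠ 0 := by
  intro h
  have h1 : ((2 : ℕ) : ZMod ℓ) = 0 := by exact_mod_cast h
  rw [ZMod.natCast_eq_zero_iff] at h1
  exact h2 ((Nat.prime_dvd_prime_iff_eq (Fact.out : ℓ.Prime) Nat.prime_two).1 h1)

/-- a vector of sum zero separating two coordinates -/
theorem cntSum_vec {n ℓ : ℕ} (i j : Fin n) (hij : i ≠ j) :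
    ∃ z : Vs n ℓ, z.1 i = -1 ∧ z.1 j = 1 := by
  refine ⟨⟨Pi.single j 1 - Pi.single i 1, ?_⟩, ?_, ?_⟩
  · rw [mem_Vs]
    simp [Finset.sum_sub_distrib]
  · simp [hij]
  · simp [hij.symm]

theorem cntSum_zero {n ℓ : ℕ} [Fact ℓ.Prime] (h2 : ℓ ≠ 2) (i j : Fin n) (hij : i ≠ j)
    (p r : ZMod ℓ) (h : ∀ z : Vs n ℓ, p * (z.1 j - z.1 i + r) = p * r) : p = 0 := by
  obtain ⟨z, h1, h3⟩ := cntSum_vec (ℓ := ℓ) i j hij
  have h4 := h z
  rw [h1, h3] at h4
  have h5 : (2 : ZMod ℓ) * p = 0 := by linear_combination h4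
  exact (mul_eq_zero.1 h5).resolve_left (cntSum_two h2)

section

variable {F : Type} [Field F] {ℓ : ℕ} [Fact ℓ.Prime]

/-- the first family of cosets -/
theorem cntSum_uniq1 (h2 : ℓ ≠ 2) (g : Lg F ℓ) {n : ℕ} (hn : ¬ ℓ ∣ n) (a : Fin n → F[X])
    (pa pb : Ir F → Fin n) (S : Finset (Ir F)) (hab : ∀ π ∈ S, pa π < pb π) (w₀ : Vs n ℓ)
    (y₁ y₂ y' : Pr F n ℓ S)
    (h1 : (DatP g a pa pb S y₁ y').Cst S (Finset.univ.filter fun u => u.1 = w₀))
    (h3 : (DatP g a pa pb S y₂ y').Cst S (Finset.univ.filter fun u => u.1 = w₀)) : y₁ = y₂ := by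
  have key : ∀ y : Pr F n ℓ S,
      (DatP g a pa pb S y y').Cst S (Finset.univ.filter fun u => u.1 = w₀) →
      (∀ π (hπ : π ∈ S), y.2 ⟨π, hπ⟩ = w₀.1 (pb π) - w₀.1 (pa π)) ∧
      ∀ z : Vs n ℓ, ∑ j, y.1.1 j * z.1 j = -∑ i, ∑ j ∈ Finset.Ioi i,
        (w₀.1 i - w₀.1 j) * (z.1 j - z.1 i) * g.toFun (a i - a j).leadingCoeff := by
    intro y hy
    have hm : ∀ z : Vs n ℓ, (w₀, z) ∈
        (Finset.univ.filter fun u : Vs n ℓ × Vs n ℓ => u.1 = w₀) := by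
      intro z
      rw [Finset.mem_filter]
      exact ⟨Finset.mem_univ _, rfl⟩
    constructor
    · intro π hπ
      have h4 : w₀.1 (pa π) - w₀.1 (pb π) + ex y.2 π = 0 := by
        refine cntSum_zero h2 (pa π) (pb π) (ne_of_lt (hab π hπ)) _ (ex y'.2 π) ?_
        intro z
        have h5 := (hy (w₀, z) (hm z) (w₀, 0) (hm 0)).2 π hπ
        have h6 : (w₀.1 (pa π) - w₀.1 (pb π) + ex y.2 π) * (z.1 (pb π) - z.1 (pa π) + ex y'.2 π) =
            (w₀.1 (pa π) - w₀.1 (pb π) + ex y.2 π) *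
              ((0 : Vs n ℓ).1 (pb π) - (0 : Vs n ℓ).1 (pa π) + ex y'.2 π) := h5
        rw [h6]
        have h7 : ∀ k, (0 : Vs n ℓ).1 k = 0 := fun k => rfl
        rw [h7, h7, sub_zero, zero_add]
      have h8 : ex y.2 π = y.2 ⟨π, hπ⟩ := by
        unfold ex
        rw [dif_pos hπ]
      rw [← h8]
      linear_combination h4
    · intro z
      have h5 := (hy (w₀, z) (hm z) (w₀, 0) (hm 0)).1
      have h6 : ∑ j, y'.1.1 j * w₀.1 j + ∑ j, y.1.1 j * z.1 j + ∑ i, ∑ j ∈ Finset.Ioi i,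
          (w₀.1 i - w₀.1 j) * (z.1 j - z.1 i) * g.toFun (a i - a j).leadingCoeff =
          ∑ j, y'.1.1 j * w₀.1 j + ∑ j, y.1.1 j * (0 : Vs n ℓ).1 j + ∑ i, ∑ j ∈ Finset.Ioi i,
          (w₀.1 i - w₀.1 j) * ((0 : Vs n ℓ).1 j - (0 : Vs n ℓ).1 i) *
            g.toFun (a i - a j).leadingCoeff := h5
      have h7 : ∀ k, (0 : Vs n ℓ).1 k = 0 := fun k => rfl
      simp only [h7, mul_zero, sub_zero, zero_mul, Finset.sum_const_zero, add_zero] at h6
      linear_combination h6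
  obtain ⟨e1, l1⟩ := key y₁ h1
  obtain ⟨e2, l2⟩ := key y₂ h3
  refine Prod.ext ?_ ?_
  · rw [← sub_eq_zero]
    refine Vs_nondeg hn _ ?_
    intro z
    have h4 : ∑ j, (y₁.1 - y₂.1).1 j * z.1 j = ∑ j, y₁.1.1 j * z.1 j - ∑ j, y₂.1.1 j * z.1 j := by
      rw [← Finset.sum_sub_distrib]
      refine Finset.sum_congr rfl fun j _ => ?_
      have h5 : (y₁.1 - y₂.1).1 j = y₁.1.1 j - y₂.1.1 j := rfl
      rw [h5, sub_mul]
    rw [h4, l1 z, l2 z, sub_self]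
  · funext π
    obtain ⟨π, hπ⟩ := π
    rw [e1 π hπ, e2 π hπ]

/-- the second family of cosets -/
theorem cntSum_uniq2 (h2 : ℓ ≠ 2) (g : Lg F ℓ) {n : ℕ} (hn : ¬ ℓ ∣ n) (a : Fin n → F[X])
    (pa pb : Ir F → Fin n) (S : Finset (Ir F)) (hab : ∀ π ∈ S, pa π < pb π) (z₀ : Vs n ℓ)
    (y y₁ y₂ : Pr F n ℓ S)
    (h1 : (DatP g a pa pb S y y₁).Cst S (Finset.univ.filter fun u => u.2 = z₀))
    (h3 : (DatP g a pa pb S y y₂).Cst S (Finset.univ.filter fun u => u.2 = z₀)) : y₁ = y₂ := by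
  have key : ∀ y' : Pr F n ℓ S,
      (DatP g a pa pb S y y').Cst S (Finset.univ.filter fun u => u.2 = z₀) →
      (∀ π (hπ : π ∈ S), y'.2 ⟨π, hπ⟩ = z₀.1 (pa π) - z₀.1 (pb π)) ∧
      ∀ w : Vs n ℓ, ∑ j, y'.1.1 j * w.1 j = -∑ i, ∑ j ∈ Finset.Ioi i,
        (w.1 i - w.1 j) * (z₀.1 j - z₀.1 i) * g.toFun (a i - a j).leadingCoeff := by
    intro y' hy
    have hm : ∀ w : Vs n ℓ, (w, z₀) ∈
        (Finset.univ.filter fun u : Vs n ℓ × Vs n ℓ => u.2 = z₀) := by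
      intro w
      rw [Finset.mem_filter]
      exact ⟨Finset.mem_univ _, rfl⟩
    constructor
    · intro π hπ
      have h4 : z₀.1 (pb π) - z₀.1 (pa π) + ex y'.2 π = 0 := by
        refine cntSum_zero h2 (pb π) (pa π) (ne_of_lt (hab π hπ)).symm _ (ex y.2 π) ?_
        intro w
        have h5 := (hy (w, z₀) (hm w) (0, z₀) (hm 0)).2 π hπ
        have h6 : (w.1 (pa π) - w.1 (pb π) + ex y.2 π) * (z₀.1 (pb π) - z₀.1 (pa π) + ex y'.2 π) =
            ((0 : Vs n ℓ).1 (pa π) - (0 : Vs n ℓ).1 (pb π) + ex y.2 π) *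
              (z₀.1 (pb π) - z₀.1 (pa π) + ex y'.2 π) := h5
        have h7 : ∀ k, (0 : Vs n ℓ).1 k = 0 := fun k => rfl
        rw [h7, h7, sub_zero, zero_add] at h6
        linear_combination h6
      have h8 : ex y'.2 π = y'.2 ⟨π, hπ⟩ := by
        unfold ex
        rw [dif_pos hπ]
      rw [← h8]
      linear_combination h4
    · intro w
      have h5 := (hy (w, z₀) (hm w) (0, z₀) (hm 0)).1
      have h6 : ∑ j, y'.1.1 j * w.1 j + ∑ j, y.1.1 j * z₀.1 j + ∑ i, ∑ j ∈ Finset.Ioi i,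
          (w.1 i - w.1 j) * (z₀.1 j - z₀.1 i) * g.toFun (a i - a j).leadingCoeff =
          ∑ j, y'.1.1 j * (0 : Vs n ℓ).1 j + ∑ j, y.1.1 j * z₀.1 j + ∑ i, ∑ j ∈ Finset.Ioi i,
          ((0 : Vs n ℓ).1 i - (0 : Vs n ℓ).1 j) * (z₀.1 j - z₀.1 i) *
            g.toFun (a i - a j).leadingCoeff := h5
      have h7 : ∀ k, (0 : Vs n ℓ).1 k = 0 := fun k => rfl
      simp only [h7, mul_zero, sub_zero, zero_mul, Finset.sum_const_zero, add_zero, zero_add] at h6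
      linear_combination h6
  obtain ⟨e1, l1⟩ := key y₁ h1
  obtain ⟨e2, l2⟩ := key y₂ h3
  refine Prod.ext ?_ ?_
  · rw [← sub_eq_zero]
    refine Vs_nondeg hn _ ?_
    intro z
    have h4 : ∑ j, (y₁.1 - y₂.1).1 j * z.1 j = ∑ j, y₁.1.1 j * z.1 j - ∑ j, y₂.1.1 j * z.1 j := by
      rw [← Finset.sum_sub_distrib]
      refine Finset.sum_congr rfl fun j _ => ?_
      have h5 : (y₁.1 - y₂.1).1 j = y₁.1.1 j - y₂.1.1 j := rfl
      rw [h5, sub_mul]
    rw [h4, l1 z, l2 z, sub_self]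
  · funext π
    obtain ⟨π, hπ⟩ := π
    rw [e1 π hπ, e2 π hπ]

/-- the maximal constant unlinked sets are of two types -/
theorem cntSum_le (h2 : ℓ ≠ 2) (g : Lg F ℓ) {n : ℕ} (hn : ¬ ℓ ∣ n) (a : Fin n → F[X])
    (pa pb : Ir F → Fin n) (S : Finset (Ir F))
    (hS : ∀ i j, i < j → ∃ π ∈ S, pa π = i ∧ pb π = j) (y y' : Pr F n ℓ S) :
    (DatP g a pa pb S y y').cnt (Fintype.card (Vs n ℓ)) S ≤
      (∑ w₀ : Vs n ℓ, if (DatP g a pa pb S y y').Cst S
        (Finset.univ.filter fun u => u.1 = w₀) then 1 else 0) +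
      ∑ z₀ : Vs n ℓ, if (DatP g a pa pb S y y').Cst S
        (Finset.univ.filter fun u => u.2 = z₀) then 1 else 0 := by
  rw [← Finset.card_filter, ← Finset.card_filter]
  unfold Dat.cnt
  refine le_trans (Finset.card_le_card (t :=
    ((Finset.univ.filter fun w₀ : Vs n ℓ => (DatP g a pa pb S y y').Cst S
        (Finset.univ.filter fun u => u.1 = w₀)).image
          fun w₀ => Finset.univ.filter fun u : Vs n ℓ × Vs n ℓ => u.1 = w₀) ∪
    ((Finset.univ.filter fun z₀ : Vs n ℓ => (DatP g a pa pb S y y').Cst S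
        (Finset.univ.filter fun u => u.2 = z₀)).image
          fun z₀ => Finset.univ.filter fun u : Vs n ℓ × Vs n ℓ => u.2 = z₀)) ?_) ?_
  · intro U hU
    rw [Finset.mem_filter] at hU
    obtain ⟨-, hU1, hU2, hU3⟩ := hU
    rw [Finset.mem_union]
    rcases types h2 g hn a pa pb S hS y y' U ((unl_iff g a pa pb S y y' U).1 hU1) hU2 hU3 with
      ⟨w₀, hw⟩ | ⟨z₀, hz⟩
    · left
      rw [Finset.mem_image]
      refine ⟨w₀, ?_, hw.symm⟩
      rw [Finset.mem_filter]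
      refine ⟨Finset.mem_univ _, ?_⟩
      rw [← hw]
      exact hU3
    · right
      rw [Finset.mem_image]
      refine ⟨z₀, ?_, hz.symm⟩
      rw [Finset.mem_filter]
      refine ⟨Finset.mem_univ _, ?_⟩
      rw [← hz]
      exact hU3
  · refine (Finset.card_union_le _ _).trans ?_
    exact Nat.add_le_add Finset.card_image_le Finset.card_image_le

end

theorem sum_cnt {F : Type} [Field F] {ℓ : ℕ} [Fact ℓ.Prime] (h2 : ℓ ≠ 2) (g : Lg F ℓ) {n : ℕ}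
    (hn : ¬ ℓ ∣ n) (a : Fin n → F[X]) (pa pb : Ir F → Fin n) (S : Finset (Ir F))
    (hS : ∀ i j, i < j → ∃ π ∈ S, pa π = i ∧ pb π = j) (hab : ∀ π ∈ S, pa π < pb π) :
    ∑ y : Pr F n ℓ S, ∑ y' : Pr F n ℓ S,
      (DatP g a pa pb S y y').cnt (Fintype.card (Vs n ℓ)) S ≤
      2 * Fintype.card (Vs n ℓ) * (Fintype.card (Vs n ℓ) * ℓ ^ S.card) := by
  have hcard : Fintype.card (Pr F n ℓ S) = Fintype.card (Vs n ℓ) * ℓ ^ S.card := by
    rw [Fintype.card_prod, Fintype.card_fun, ZMod.card, Fintype.card_coe]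
  have h1 : ∑ y : Pr F n ℓ S, ∑ y' : Pr F n ℓ S, (∑ w₀ : Vs n ℓ,
      if (DatP g a pa pb S y y').Cst S (Finset.univ.filter fun u => u.1 = w₀) then 1 else 0) ≤
      Fintype.card (Vs n ℓ) * (Fintype.card (Vs n ℓ) * ℓ ^ S.card) := by
    rw [Finset.sum_comm]
    have e1 : ∑ y' : Pr F n ℓ S, ∑ y : Pr F n ℓ S, (∑ w₀ : Vs n ℓ,
        if (DatP g a pa pb S y y').Cst S (Finset.univ.filter fun u => u.1 = w₀) then 1 else 0) ≤
        ∑ y' : Pr F n ℓ S, ∑ w₀ : Vs n ℓ, 1 := by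
      refine Finset.sum_le_sum fun y' _ => ?_
      rw [Finset.sum_comm]
      refine Finset.sum_le_sum fun w₀ _ => ?_
      rw [← Finset.card_filter]
      refine Finset.card_le_one.2 ?_
      intro y₁ hy₁ y₂ hy₂
      exact cntSum_uniq1 h2 g hn a pa pb S hab w₀ y₁ y₂ y' (Finset.mem_filter.1 hy₁).2
        (Finset.mem_filter.1 hy₂).2
    refine e1.trans (le_of_eq ?_)
    rw [Finset.sum_const, Finset.sum_const, Finset.card_univ, Finset.card_univ, hcard,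
      smul_eq_mul, smul_eq_mul, mul_one]
    ring
  have h3 : ∑ y : Pr F n ℓ S, ∑ y' : Pr F n ℓ S, (∑ z₀ : Vs n ℓ,
      if (DatP g a pa pb S y y').Cst S (Finset.univ.filter fun u => u.2 = z₀) then 1 else 0) ≤
      Fintype.card (Vs n ℓ) * (Fintype.card (Vs n ℓ) * ℓ ^ S.card) := by
    have e1 : ∑ y : Pr F n ℓ S, ∑ y' : Pr F n ℓ S, (∑ z₀ : Vs n ℓ,
        if (DatP g a pa pb S y y').Cst S (Finset.univ.filter fun u => u.2 = z₀) then 1 else 0) ≤
        ∑ y : Pr F n ℓ S, ∑ z₀ : Vs n ℓ, 1 := by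
      refine Finset.sum_le_sum fun y _ => ?_
      rw [Finset.sum_comm]
      refine Finset.sum_le_sum fun z₀ _ => ?_
      rw [← Finset.card_filter]
      refine Finset.card_le_one.2 ?_
      intro y₁ hy₁ y₂ hy₂
      exact cntSum_uniq2 h2 g hn a pa pb S hab z₀ y y₁ y₂ (Finset.mem_filter.1 hy₁).2
        (Finset.mem_filter.1 hy₂).2
    refine e1.trans (le_of_eq ?_)
    rw [Finset.sum_const, Finset.sum_const, Finset.card_univ, Finset.card_univ, hcard,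
      smul_eq_mul, smul_eq_mul, mul_one]
    ring
  calc ∑ y : Pr F n ℓ S, ∑ y' : Pr F n ℓ S,
      (DatP g a pa pb S y y').cnt (Fintype.card (Vs n ℓ)) S
      ≤ ∑ y : Pr F n ℓ S, ∑ y' : Pr F n ℓ S, ((∑ w₀ : Vs n ℓ,
          if (DatP g a pa pb S y y').Cst S (Finset.univ.filter fun u => u.1 = w₀) then 1 else 0) +
          ∑ z₀ : Vs n ℓ, if (DatP g a pa pb S y y').Cst S
            (Finset.univ.filter fun u => u.2 = z₀) then 1 else 0) :=
        Finset.sum_le_sum fun y _ => Finset.sum_le_sum fun y' _ =>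
          cntSum_le h2 g hn a pa pb S hS y y'
    _ = (∑ y : Pr F n ℓ S, ∑ y' : Pr F n ℓ S, (∑ w₀ : Vs n ℓ,
          if (DatP g a pa pb S y y').Cst S (Finset.univ.filter fun u => u.1 = w₀) then 1 else 0)) +
        ∑ y : Pr F n ℓ S, ∑ y' : Pr F n ℓ S, (∑ z₀ : Vs n ℓ,
          if (DatP g a pa pb S y y').Cst S (Finset.univ.filter fun u => u.2 = z₀) then 1 else 0) := by
        rw [← Finset.sum_add_distrib]
        exact Finset.sum_congr rfl fun y _ => by rw [← Finset.sum_add_distrib]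
    _ ≤ Fintype.card (Vs n ℓ) * (Fintype.card (Vs n ℓ) * ℓ ^ S.card) +
        Fintype.card (Vs n ℓ) * (Fintype.card (Vs n ℓ) * ℓ ^ S.card) := Nat.add_le_add h1 h3
    _ = 2 * Fintype.card (Vs n ℓ) * (Fintype.card (Vs n ℓ) * ℓ ^ S.card) := by ring

end Pool.Agent.Helper48.ST
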