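import Mathlib

/-!
ST-58. Products of affine functions; a remark on equivalence relations (Mathlib only).

Proof. `aff_prod`: expanding `H`, `f x * h x + β * f x + α * h x = 0` for all `x ∈ W`. Replace `x` by `-x` and add: `2 f x h x = 0`, so `f x = 0` or `h x = 0` for every `x ∈ W`. If `f x ≠ 0` and `h y ≠ 0` for some `x, y ∈ W`, then
`h x = 0`, `f y = 0` and `f (x+y) h (x+y) = f x * h y ≠ 0`, contradiction. `two_rel`: suppose `¬ r i j` and `¬ s k l`. Then `s i j`, `r k l`. If `r i k` then `¬ r j k` (else `r i j`) so `s j k`, so `s i k`; also `¬ r j l` (else `r j k`), so `s j l`, then `s k l`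
(`s k i`, `s i j`, `s j l`), contradiction. So `¬ r i k`, hence `s i k`; similarly `s i l` (if `r i l` then `r i k` by `r k l`), so `s k l`, contradiction.
-/

set_option autoImplicit false

open Polynomial
open scoped Classical

namespace Pool.Agent.Helper48.ST

theorem aff_prod {ℓ : ℕ} [Fact ℓ.Prime] (h2 : ℓ ≠ 2) {M : Type} [AddCommGroup M]
    [Module (ZMod ℓ) M] (W : Submodule (ZMod ℓ) M) (f h : M →ₗ[ZMod ℓ] ZMod ℓ) (α β : ZMod ℓ)
    (H : ∀ x ∈ W, (f x + α) * (h x + β) = α * β) : (∀ x ∈ W, f x = 0) ∨ ∀ x ∈ W, h x = 0 := by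
  have hp : ℓ.Prime := Fact.out
  have h20 : (2 : ZMod ℓ) ≠ 0 := by
    intro h0
    have h1 : ((2 : ℕ) : ZMod ℓ) = 0 := by exact_mod_cast h0
    rw [ZMod.natCast_eq_zero_iff] at h1
    exact h2 ((Nat.prime_dvd_prime_iff_eq hp Nat.prime_two).1 h1)
  have hz : ∀ x ∈ W, f x * h x = 0 := by
    intro x hx
    have h3 := H x hx
    have h4 := H (-x) (W.neg_mem hx)
    rw [map_neg, map_neg] at h4
    have h5 : 2 * (f x * h x) = 0 := by linear_combination h3 + h4
    exact (mul_eq_zero.1 h5).resolve_left h20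
  by_contra hcon
  rw [not_or] at hcon
  obtain ⟨hf, hh⟩ := hcon
  push Not at hf hh
  obtain ⟨x, hx, hfx⟩ := hf
  obtain ⟨y, hy, hhy⟩ := hh
  have h3 : h x = 0 := (mul_eq_zero.1 (hz x hx)).resolve_left hfx
  have h4 : f y = 0 := (mul_eq_zero.1 (hz y hy)).resolve_right hhy
  have h5 := hz (x + y) (W.add_mem hx hy)
  rw [map_add, map_add, h3, h4, add_zero, zero_add] at h5
  exact mul_ne_zero hfx hhy h5

theorem two_rel {ι : Type} (r s : ι → ι → Prop) (hr : Equivalence r) (hs : Equivalence s)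
    (h : ∀ i j, r i j ∨ s i j) : (∀ i j, r i j) ∨ ∀ i j, s i j := by
  by_contra hcon
  rw [not_or] at hcon
  obtain ⟨h1, h2⟩ := hcon
  push Not at h1 h2
  obtain ⟨i, j, hij⟩ := h1
  obtain ⟨k, l, hkl⟩ := h2
  have sij : s i j := (h i j).resolve_left hij
  have rkl : r k l := (h k l).resolve_right hkl
  have hik : ¬ r i k := by
    intro rik
    have hjk : ¬ r j k := fun rjk => hij (hr.trans rik (hr.symm rjk))
    have sjk : s j k := (h j k).resolve_left hjk
    have hjl : ¬ r j l := fun rjl => hjk (hr.trans rjl (hr.symm rkl))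
    have sjl : s j l := (h j l).resolve_left hjl
    exact hkl (hs.trans (hs.symm sjk) sjl)
  have sik : s i k := (h i k).resolve_left hik
  have hil : ¬ r i l := fun ril => hik (hr.trans ril (hr.symm rkl))
  have sil : s i l := (h i l).resolve_left hil
  exact hkl (hs.trans (hs.symm sik) sil)

end Pool.Agent.Helper48.ST
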