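import Pool.Agent.Helper48.ST.Decomp
import Pool.Agent.Helper48.ST.StepC
import Pool.Agent.Helper48.ST.Asym
import Pool.Agent.Helper48.ST.SqLower

/-!
ST-34. The main character sum.

Proof. `sq_lower`: `c₁ q^N ≤ card (Sq S N)` for `N ≥ N₁`, `c₁ > 0`. `decomp` and `step_C` (sum over the at most `2^m₀` sets `U`, of which `D.cnt κ S` satisfy `Cst S U`) give, for every admissible `T`,
`‖∑ W‖ ≤ cnt * card (Sq S N) + q^N * (A (T^m₀ N^(-1/κ)) + B (...) + C (T^m₀ (E T^2/N)^(c0/2)))` with `m₀ = card Ω`, `A = (1 + 2^m₀) * 6 * 2^m₀`, `B = 1`, `C = 42 * 2^m₀`,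
`E = 1000 (m₀ + dgs S + 1)^2`. `asym` with `δ * c₁` in place of `δ` gives the claim. (`c0_pos`, `c0_le`, `ℓ ≥ 2`.)
-/

set_option autoImplicit false

open Polynomial
open scoped Classical

namespace Pool.Agent.Helper48.ST

theorem main_sum {F : Type} [Field F] [Fintype F] {ℓ : ℕ} [Fact ℓ.Prime] (g : Lg F ℓ) (h2 : ℓ ≠ 2)
    {Ω : Type} [Fintype Ω] (D : Dat F ℓ Ω) (κ : ℕ) (hκ : 1 ≤ κ) (hD : D.Ok κ)
    (S : Finset (Ir F)) (δ : ℝ) (hδ : 0 < δ) :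
    ∃ N₀ : ℕ, ∀ N, N₀ ≤ N →
      ‖∑ s ∈ Fam Ω S N, D.W g κ S s‖ ≤ ((D.cnt κ S : ℝ) + δ) * ((Sq S N).card : ℝ) := by
  obtain ⟨c₁, hc₁, N₁, hN₁⟩ := sq_lower S
  have hℓ : 2 ≤ ℓ := (Fact.out : ℓ.Prime).two_le
  have hq : (2 : ℝ) ≤ (Fintype.card F : ℝ) := by
    exact_mod_cast Fintype.one_lt_card (α := F)
  have hc0 := c0_pos ℓ κ hℓ hκ
  have hc01 : c0 ℓ κ ≤ 1 := by
    refine (c0_le ℓ κ hκ).trans ?_
    have h1 : (1 : ℝ) ≤ κ := by exact_mod_cast hκ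
    rw [div_le_one (by positivity)]
    nlinarith
  set m₀ := Fintype.card Ω with hm₀
  obtain ⟨N₂, hN₂⟩ := asym m₀ κ hκ (Fintype.card F : ℝ) hq (c0 ℓ κ) hc0 hc01
    ((1 + 2 ^ m₀) * (6 * 2 ^ m₀)) 1 (2 ^ m₀ * 42)
    (1000 * ((m₀ + dgs S + 1 : ℕ) : ℝ) ^ 2) (by positivity) (by positivity) (by positivity)
    (by positivity) (δ * c₁) (by positivity)
  refine ⟨max N₁ N₂, fun N hN => ?_⟩
  have hNa := hN₁ N ((le_max_left _ _).trans hN)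
  obtain ⟨hN1, T, hT, hTN, hbd⟩ := hN₂ N ((le_max_right _ _).trans hN)
  have hdec := decomp g h2 D κ hκ hD S N T hN1 hT hTN
  set q : ℝ := (Fintype.card F : ℝ) with hqdef
  set 𝒰 : Finset (Finset Ω) :=
    Finset.univ.filter (fun U : Finset Ω => D.Unl U ∧ U.card = κ) with h𝒰
  set R : ℝ := 42 * (T : ℝ) ^ m₀ * q ^ N *
    ((1000 * (((m₀ + dgs S + 1) * T : ℕ) : ℝ) ^ 2) / N) ^ (c0 ℓ κ / 2) with hR
  have hRnn : 0 ≤ R := by positivity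
  have hU : ∀ U ∈ 𝒰,
      ‖∑ s ∈ (Fam Ω S N).filter (fun s => ∀ v, v ∉ U → dgs (s v) < T), D.W g κ S s‖ ≤
        (if D.Cst S U then ((Sq S N).card : ℝ) else 0) + R := by
    intro U hU
    rw [h𝒰, Finset.mem_filter] at hU
    exact step_C g h2 D κ hκ hD S U hU.2.1 hU.2.2 N T hN1 hT hTN
  have hcardU : (𝒰.card : ℝ) ≤ 2 ^ m₀ := by
    have : 𝒰.card ≤ 2 ^ m₀ := by
      refine (Finset.card_filter_le _ _).trans ?_
      rw [Finset.card_univ, Fintype.card_finset]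
    exact_mod_cast this
  have hsumU : ‖∑ U ∈ 𝒰, ∑ s ∈ (Fam Ω S N).filter (fun s => ∀ v, v ∉ U → dgs (s v) < T),
      D.W g κ S s‖ ≤ (D.cnt κ S : ℝ) * ((Sq S N).card : ℝ) + 2 ^ m₀ * R := by
    refine (norm_sum_le _ _).trans ?_
    refine (Finset.sum_le_sum hU).trans ?_
    rw [Finset.sum_add_distrib, Finset.sum_const, nsmul_eq_mul]
    refine add_le_add ?_ (mul_le_mul_of_nonneg_right hcardU hRnn)
    rw [← Finset.sum_filter, Finset.sum_const, nsmul_eq_mul, h𝒰, Finset.filter_filter]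
    refine le_of_eq ?_
    congr 2
    unfold Dat.cnt
    congr 1
    ext U
    simp [and_assoc]
  have hqN : 0 < q ^ N := by positivity
  have hRe : R = q ^ N * (42 * ((T : ℝ) ^ m₀ *
      (1000 * ((m₀ + dgs S + 1 : ℕ) : ℝ) ^ 2 * (T : ℝ) ^ 2 / N) ^ (c0 ℓ κ / 2))) := by
    rw [hR]
    have : (1000 * (((m₀ + dgs S + 1) * T : ℕ) : ℝ) ^ 2) / N =
        1000 * ((m₀ + dgs S + 1 : ℕ) : ℝ) ^ 2 * (T : ℝ) ^ 2 / N := by
      push_cast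
      ring
    rw [this]
    ring
  have htri : ‖∑ s ∈ Fam Ω S N, D.W g κ S s‖ ≤
      ‖∑ s ∈ Fam Ω S N, D.W g κ S s - ∑ U ∈ 𝒰,
        ∑ s ∈ (Fam Ω S N).filter (fun s => ∀ v, v ∉ U → dgs (s v) < T), D.W g κ S s‖ +
      ‖∑ U ∈ 𝒰, ∑ s ∈ (Fam Ω S N).filter (fun s => ∀ v, v ∉ U → dgs (s v) < T),
        D.W g κ S s‖ := by
    have := norm_add_le (∑ s ∈ Fam Ω S N, D.W g κ S s - ∑ U ∈ 𝒰,
        ∑ s ∈ (Fam Ω S N).filter (fun s => ∀ v, v ∉ U → dgs (s v) < T), D.W g κ S s)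
      (∑ U ∈ 𝒰, ∑ s ∈ (Fam Ω S N).filter (fun s => ∀ v, v ∉ U → dgs (s v) < T),
        D.W g κ S s)
    rwa [sub_add_cancel] at this
  have hmul := mul_le_mul_of_nonneg_left hbd hqN.le
  have hmul2 := mul_le_mul_of_nonneg_left hNa hδ.le
  rw [add_mul]
  rw [hRe] at hsumU
  set X1 : ℝ := (T : ℝ) ^ m₀ * (N : ℝ) ^ (-(1 / (κ : ℝ))) with hX1
  set X2 : ℝ := ((N : ℝ) + 1) ^ m₀ * (((N : ℝ) + 1) * (q⁻¹) ^ T) ^ (1 / 4 : ℝ) with hX2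
  set X3 : ℝ := (T : ℝ) ^ m₀ *
    (1000 * ((m₀ + dgs S + 1 : ℕ) : ℝ) ^ 2 * (T : ℝ) ^ 2 / N) ^ (c0 ℓ κ / 2) with hX3
  have hd' : (1 + 2 ^ m₀) * (6 * 2 ^ m₀ * (T : ℝ) ^ m₀ * q ^ N * (N : ℝ) ^ (-(1 / (κ : ℝ)))) +
      ((N : ℝ) + 1) ^ m₀ * (q ^ N * (((N : ℝ) + 1) * (q⁻¹) ^ T) ^ (1 / 4 : ℝ)) =
      q ^ N * ((1 + 2 ^ m₀) * (6 * 2 ^ m₀) * X1 + 1 * X2) := by
    rw [hX1, hX2]
    ring
  rw [hd'] at hdec
  nlinarith [htri, hdec, hsumU, hmul, hmul2]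

end Pool.Agent.Helper48.ST
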