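import Pool.Agent.Helper48.ST.Expand

/-!
ST-55. The sum over all `t`.

Proof. Sum `card_Sol` over `t ∈ Sq S N` (disjoint from `S`), exchange the sums, `sum_colorings` for each `(y, y')`, take norms (`norm_e`).
-/

set_option autoImplicit false

open Polynomial
open scoped Classical

namespace Pool.Agent.Helper48.ST

theorem sum_card_Sol {F : Type} [Field F] [Fintype F] {ℓ : ℕ} [Fact ℓ.Prime] (g : Lg F ℓ)
    (h2 : ℓ ≠ 2) {n : ℕ} (a : Fin n → F[X]) (pa pb : Ir F → Fin n) (S : Finset (Ir F))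
    (cS : Pr F n ℓ S → Ir F → ZMod ℓ) (cI : Pr F n ℓ S → Vs n ℓ → ZMod ℓ)
    (hcI : ∀ y s s', cI y (s + s') = cI y s + cI y s') (N : ℕ) :
    ∑ t ∈ Sq S N, ((Sol g a pa pb S t cS cI).card : ℝ) ≤
      ((Fintype.card (Vs n ℓ) : ℝ))⁻¹ * ((ℓ : ℝ)⁻¹) ^ S.card *
        ∑ y : Pr F n ℓ S, ∑ y' : Pr F n ℓ S,
          ‖∑ s ∈ Fam (Vs n ℓ × Vs n ℓ) S N,
            (DatP g a pa pb S y y').W g (Fintype.card (Vs n ℓ)) S s‖ := by
  have h1 : ((∑ t ∈ Sq S N, ((Sol g a pa pb S t cS cI).card : ℝ) : ℝ) : ℂ) =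
      ((Fintype.card (Vs n ℓ) : ℂ))⁻¹ * ((ℓ : ℂ)⁻¹) ^ S.card *
        ∑ y : Pr F n ℓ S, ∑ y' : Pr F n ℓ S,
          e (∑ π ∈ S, ex y'.2 π * cS y π + cI y y'.1) *
            ∑ s ∈ Fam (Vs n ℓ × Vs n ℓ) S N,
              (DatP g a pa pb S y y').W g (Fintype.card (Vs n ℓ)) S s := by
    push_cast
    have h3 : ∀ t ∈ Sq S N, ((Sol g a pa pb S t cS cI).card : ℂ) =
      ((Fintype.card (Vs n ℓ) : ℂ))⁻¹ * ((ℓ : ℂ)⁻¹) ^ S.card *
        ∑ y : Pr F n ℓ S, ∑ y' : Pr F n ℓ S,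
          e (∑ π ∈ S, ex y'.2 π * cS y π + cI y y'.1) *
            ∑ c : {P : Ir F // P ∈ t} → Vs n ℓ × Vs n ℓ,
              (DatP g a pa pb S y y').W g (Fintype.card (Vs n ℓ)) S (parts t c) := by
      intro t ht
      exact card_Sol g h2 a pa pb S cS cI hcI t (mem_Sq.1 ht).1
    rw [Finset.sum_congr rfl h3, ← Finset.mul_sum]
    congr 1
    rw [Finset.sum_comm]
    refine Finset.sum_congr rfl fun y _ => ?_
    rw [Finset.sum_comm]
    refine Finset.sum_congr rfl fun y' _ => ?_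
    rw [← Finset.mul_sum]
    congr 1
    exact sum_colorings S N _
  have h2' : ∑ t ∈ Sq S N, ((Sol g a pa pb S t cS cI).card : ℝ) ≤
      ‖((∑ t ∈ Sq S N, ((Sol g a pa pb S t cS cI).card : ℝ) : ℝ) : ℂ)‖ := by
    rw [Complex.norm_real]
    exact le_abs_self _
  refine h2'.trans ?_
  rw [h1, norm_mul, norm_mul, norm_inv, norm_pow, norm_inv, Complex.norm_natCast,
    Complex.norm_natCast]
  refine mul_le_mul_of_nonneg_left ?_ (by positivity)
  refine (norm_sum_le _ _).trans (Finset.sum_le_sum fun y _ => ?_)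
  refine (norm_sum_le _ _).trans (Finset.sum_le_sum fun y' _ => ?_)
  rw [norm_mul, norm_e, one_mul]

end Pool.Agent.Helper48.ST
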