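import Pool.Agent.Helper48.ST.Defs

/-!
ST-06. Cardinalities.

Proof. `card_Mon`: `A ↦` its coefficients below degree `k` is a bijection onto `Fin k → F`.
`mangoldt` (logarithmic derivative): `∑_{A ∈ Mon k} χ A * deg A`, with `deg A = ∑_P ∑_{m ≥ 1, P^m ∣ A} deg P` (unique
factorisation), is `∑_{P, m ≥ 1, m deg P ≤ k} deg P * ∑_{A ∈ Mon k, P^m ∣ A} χ A`, and `A = P^m A'` with `A'` monic of degree
`k - m deg P` gives `∑_{P,m} deg P χ(P)^m ∑_{A' ∈ Mon (k - m deg P)} χ A'`; group by `j = m deg P`, `d = deg P`, `m = j / d`.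
`sum_divisors`: `χ = 1` in `mangoldt` and `card_Mon`: with `C j = ∑_{d ∣ j} d * card (IrEq d)`, `k q^k = ∑_{j=1}^k C j q^(k-j)`;
by strong induction `C j = q^j` for `j < k`, so `k q^k = (k-1) q^k + C k`.
-/

set_option autoImplicit false

open Polynomial
open scoped Classical

namespace Pool.Agent.Helper48.ST

variable {F : Type} [Field F] [Fintype F]

theorem card_Mon (k : ℕ) : (Mon F k).card = Fintype.card F ^ k := by
  have e : {A : F[X] // A ∈ Mon F k} ≃ (Fin k → F) :=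
    ((Equiv.subtypeEquivRight fun A => mem_Mon).trans (monicEquivDegreeLT k)).trans
      (degreeLTEquiv F k).toEquiv
  have h := Fintype.card_congr e
  rw [Fintype.card_coe, Fintype.card_fun, Fintype.card_fin] at h
  exact h

/-- the degree as a sum over the prime powers dividing the polynomial -/
theorem cards_deg (k : ℕ) (A : F[X]) (hA : A ∈ Mon F k) :
    k = ∑ P ∈ IrLe F k, ∑ m ∈ Finset.Icc 1 k, if P.1 ^ m ∣ A then P.1.natDegree else 0 := by
  rw [mem_Mon] at hA
  obtain ⟨hm, hk⟩ := hA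
  have hA0 : A ≠ 0 := hm.ne_zero
  have hfac : ∀ Q ∈ UniqueFactorizationMonoid.normalizedFactors A, Q.Monic ∧ Irreducible Q := by
    intro Q hQ
    have h1 := UniqueFactorizationMonoid.irreducible_of_normalized_factor Q hQ
    have h2 := UniqueFactorizationMonoid.normalize_normalized_factor Q hQ
    refine ⟨?_, h1⟩
    rw [← h2]
    exact monic_normalize h1.ne_zero
  have hprod : (UniqueFactorizationMonoid.normalizedFactors A).prod = A := by
    rw [UniqueFactorizationMonoid.prod_normalizedFactors_eq hA0, hm.normalize_eq_self]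
  have hcount : ∀ P : Ir F, ∀ m : ℕ,
      P.1 ^ m ∣ A ↔ m ≤ (UniqueFactorizationMonoid.normalizedFactors A).count P.1 := by
    intro P m
    rw [pow_dvd_iff_le_emultiplicity,
      UniqueFactorizationMonoid.emultiplicity_eq_count_normalizedFactors P.2.2 hA0,
      P.2.1.normalize_eq_self, Nat.cast_le]
  have hdeg : k = ((UniqueFactorizationMonoid.normalizedFactors A).map natDegree).sum := by
    rw [← natDegree_multiset_prod_of_monic _ (fun Q hQ => (hfac Q hQ).1), hprod, hk]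
  have hcle : ∀ P : Ir F, (UniqueFactorizationMonoid.normalizedFactors A).count P.1 ≤ k := by
    intro P
    have h1 : P.1 ^ (UniqueFactorizationMonoid.normalizedFactors A).count P.1 ∣ A :=
      (hcount P _).2 le_rfl
    have h2 := natDegree_le_of_dvd h1 hA0
    rw [natDegree_pow, hk] at h2
    have h3 := P.2.2.natDegree_pos
    nlinarith
  have hin : ∀ P ∈ IrLe F k, ∑ m ∈ Finset.Icc 1 k, (if P.1 ^ m ∣ A then P.1.natDegree else 0) =
      (UniqueFactorizationMonoid.normalizedFactors A).count P.1 * P.1.natDegree := by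
    intro P _
    rw [← Finset.sum_filter, Finset.sum_const, smul_eq_mul]
    congr 1
    have h1 : (Finset.Icc 1 k).filter (fun m => P.1 ^ m ∣ A) =
        Finset.Icc 1 ((UniqueFactorizationMonoid.normalizedFactors A).count P.1) := by
      ext m
      rw [Finset.mem_filter, Finset.mem_Icc, Finset.mem_Icc, hcount]
      have := hcle P
      omega
    rw [h1, Nat.card_Icc, Nat.add_sub_cancel]
  rw [Finset.sum_congr rfl hin]
  conv_lhs => rw [hdeg]
  rw [Finset.sum_multiset_map_count]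
  symm
  refine Finset.sum_bij_ne_zero (fun P _ _ => P.1) ?_ ?_ ?_ ?_
  · intro P _ hP
    rw [Multiset.mem_toFinset]
    have := left_ne_zero_of_mul hP
    exact Multiset.count_ne_zero.1 this
  · intro P _ _ P' _ _ h
    exact Subtype.ext h
  · intro Q hQ hQ0
    rw [Multiset.mem_toFinset] at hQ
    refine ⟨⟨Q, hfac Q hQ⟩, ?_, ?_, rfl⟩
    · rw [mem_IrLe]
      have h1 : Q ∣ A := UniqueFactorizationMonoid.dvd_of_mem_normalizedFactors hQ
      have := natDegree_le_of_dvd h1 hA0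
      rw [hk] at this
      exact this
    · rw [smul_eq_mul] at hQ0
      exact hQ0
  · intro P _ _
    rw [smul_eq_mul]

omit [Fintype F] in
theorem cards_mul {χ : F[X] → ℂ} (h1 : χ 1 = 1)
    (hmul : ∀ A B, A.Monic → B.Monic → χ (A * B) = χ A * χ B) {P : F[X]} (hP : P.Monic) (m : ℕ) :
    χ (P ^ m) = χ P ^ m := by
  induction m with
  | zero => rw [pow_zero, pow_zero, h1]
  | succ m ih => rw [pow_succ, pow_succ, hmul _ _ (hP.pow m) hP, ih]

/-- the sum over the multiples of a power -/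
theorem cards_mult {χ : F[X] → ℂ} (h1 : χ 1 = 1)
    (hmul : ∀ A B, A.Monic → B.Monic → χ (A * B) = χ A * χ B) (k : ℕ) (P : Ir F) (m : ℕ) :
    ∑ A ∈ Mon F k, (if P.1 ^ m ∣ A then χ A else 0) =
      if m * P.1.natDegree ≤ k then χ P.1 ^ m * ∑ A ∈ Mon F (k - m * P.1.natDegree), χ A else 0 := by
  rw [← Finset.sum_filter]
  split_ifs with h
  · rw [Finset.mul_sum]
    symm
    refine Finset.sum_bij (fun A _ => P.1 ^ m * A) ?_ ?_ ?_ ?_
    · intro A hA
      rw [mem_Mon] at hA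
      rw [Finset.mem_filter, mem_Mon]
      refine ⟨⟨(P.2.1.pow m).mul hA.1, ?_⟩, dvd_mul_right _ _⟩
      rw [(P.2.1.pow m).natDegree_mul hA.1, P.2.1.natDegree_pow, hA.2]
      omega
    · intro A _ A' _ he
      exact mul_left_cancel₀ (P.2.1.pow m).ne_zero he
    · intro B hB
      rw [Finset.mem_filter, mem_Mon] at hB
      obtain ⟨A, hA⟩ := hB.2
      have hAm : A.Monic := (P.2.1.pow m).of_mul_monic_left (by rw [← hA]; exact hB.1.1)
      refine ⟨A, ?_, hA.symm⟩
      rw [mem_Mon]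
      refine ⟨hAm, ?_⟩
      have h2 := hB.1.2
      rw [hA, (P.2.1.pow m).natDegree_mul hAm, P.2.1.natDegree_pow] at h2
      omega
    · intro A hA
      rw [mem_Mon] at hA
      rw [hmul _ _ (P.2.1.pow m) hA.1, cards_mul h1 hmul P.2.1]
  · refine Finset.sum_eq_zero fun A hA => ?_
    exfalso
    rw [Finset.mem_filter, mem_Mon] at hA
    have h2 := natDegree_le_of_dvd hA.2 hA.1.1.ne_zero
    rw [P.2.1.natDegree_pow, hA.1.2] at h2
    exact h h2

/-- change of variables `j = m d` -/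
theorem cards_sum (k d : ℕ) (hd : 1 ≤ d) (f : ℕ → ℕ → ℂ) :
    ∑ m ∈ Finset.Icc 1 k, (if m * d ≤ k then f m (m * d) else 0) =
      ∑ j ∈ Finset.Icc 1 k, if d ∣ j then f (j / d) j else 0 := by
  rw [← Finset.sum_filter, ← Finset.sum_filter]
  refine Finset.sum_bij (fun m _ => m * d) ?_ ?_ ?_ ?_
  · intro m hm
    rw [Finset.mem_filter, Finset.mem_Icc] at hm ⊢
    exact ⟨⟨Nat.mul_pos hm.1.1 hd, hm.2⟩, dvd_mul_left _ _⟩
  · intro m _ m' _ he
    exact Nat.eq_of_mul_eq_mul_right hd he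
  · intro j hj
    rw [Finset.mem_filter, Finset.mem_Icc] at hj
    obtain ⟨m, rfl⟩ := hj.2
    refine ⟨m, ?_, mul_comm _ _⟩
    rw [Finset.mem_filter, Finset.mem_Icc]
    have h1 : 1 ≤ m := Nat.pos_of_ne_zero (by rintro rfl; omega)
    have h2 : m ≤ d * m := Nat.le_mul_of_pos_left _ hd
    exact ⟨⟨h1, by omega⟩, by rw [mul_comm]; exact hj.1.2⟩
  · intro m _
    rw [Nat.mul_div_cancel _ hd]

theorem cards_fiber (k : ℕ) (g : Ir F → ℂ) :
    ∑ P ∈ IrLe F k, g P = ∑ d ∈ Finset.Icc 1 k, ∑ P ∈ IrEq F d, g P := by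
  rw [← Finset.sum_fiberwise_of_maps_to (s := IrLe F k) (t := Finset.Icc 1 k)
    (g := fun P => P.1.natDegree) (fun P hP => by
      rw [Finset.mem_Icc]
      exact ⟨P.2.2.natDegree_pos, mem_IrLe.1 hP⟩)]
  refine Finset.sum_congr rfl fun d hd => ?_
  refine Finset.sum_congr ?_ fun _ _ => rfl
  ext P
  rw [Finset.mem_filter, mem_IrLe, mem_IrEq]
  have := (Finset.mem_Icc.1 hd).2
  constructor
  · exact fun h => h.2
  · exact fun h => ⟨h.le.trans this, h⟩

theorem mangoldt (χ : F[X] → ℂ) (h1 : χ 1 = 1) (hmul : ∀ A B, A.Monic → B.Monic → χ (A * B) = χ A * χ B)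
    (k : ℕ) (hk : 1 ≤ k) :
    (k : ℂ) * ∑ A ∈ Mon F k, χ A = ∑ j ∈ Finset.Icc 1 k, cc χ j * ∑ A ∈ Mon F (k - j), χ A := by
  have e1 : (k : ℂ) * ∑ A ∈ Mon F k, χ A = ∑ P ∈ IrLe F k, ∑ m ∈ Finset.Icc 1 k,
      (P.1.natDegree : ℂ) * ∑ A ∈ Mon F k, (if P.1 ^ m ∣ A then χ A else 0) := by
    rw [Finset.mul_sum]
    have e : ∀ A ∈ Mon F k, (k : ℂ) * χ A = ∑ P ∈ IrLe F k, ∑ m ∈ Finset.Icc 1 k,
        (P.1.natDegree : ℂ) * (if P.1 ^ m ∣ A then χ A else 0) := by
      intro A hA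
      have h2 := cards_deg k A hA
      have h3 : (k : ℂ) = ∑ P ∈ IrLe F k, ∑ m ∈ Finset.Icc 1 k,
          ((if P.1 ^ m ∣ A then P.1.natDegree else 0 : ℕ) : ℂ) := by
        conv_lhs => rw [h2]
        push_cast
        rfl
      rw [h3, Finset.sum_mul]
      refine Finset.sum_congr rfl fun P _ => ?_
      rw [Finset.sum_mul]
      refine Finset.sum_congr rfl fun m _ => ?_
      split_ifs
      · rfl
      · rw [Nat.cast_zero, zero_mul, mul_zero]
    rw [Finset.sum_congr rfl e, Finset.sum_comm]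
    refine Finset.sum_congr rfl fun P _ => ?_
    rw [Finset.sum_comm]
    refine Finset.sum_congr rfl fun m _ => ?_
    rw [Finset.mul_sum]
  have e2 : ∀ P : Ir F, ∑ m ∈ Finset.Icc 1 k,
      (P.1.natDegree : ℂ) * ∑ A ∈ Mon F k, (if P.1 ^ m ∣ A then χ A else 0) =
      ∑ j ∈ Finset.Icc 1 k, if P.1.natDegree ∣ j then
        (P.1.natDegree : ℂ) * (χ P.1 ^ (j / P.1.natDegree) * ∑ A ∈ Mon F (k - j), χ A) else 0 := by
    intro P
    rw [← cards_sum k P.1.natDegree P.2.2.natDegree_pos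
      (fun m j => (P.1.natDegree : ℂ) * (χ P.1 ^ m * ∑ A ∈ Mon F (k - j), χ A))]
    refine Finset.sum_congr rfl fun m _ => ?_
    rw [cards_mult h1 hmul]
    split_ifs
    · rfl
    · rw [mul_zero]
  rw [e1, Finset.sum_congr rfl fun P _ => e2 P, cards_fiber]
  have e3 : ∀ d ∈ Finset.Icc 1 k, ∑ P ∈ IrEq F d, ∑ j ∈ Finset.Icc 1 k, (if P.1.natDegree ∣ j then
        (P.1.natDegree : ℂ) * (χ P.1 ^ (j / P.1.natDegree) * ∑ A ∈ Mon F (k - j), χ A) else 0) =
      ∑ j ∈ Finset.Icc 1 k, if d ∣ j then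
        ((d : ℂ) * ∑ P ∈ IrEq F d, χ P.1 ^ (j / d)) * ∑ A ∈ Mon F (k - j), χ A else 0 := by
    intro d _
    rw [Finset.sum_comm]
    refine Finset.sum_congr rfl fun j _ => ?_
    split_ifs with hdj
    · rw [mul_assoc, Finset.sum_mul, Finset.mul_sum]
      refine Finset.sum_congr rfl fun P hP => ?_
      rw [mem_IrEq] at hP
      rw [hP, if_pos hdj]
    · refine Finset.sum_eq_zero fun P hP => ?_
      rw [mem_IrEq] at hP
      rw [hP, if_neg hdj]
  rw [Finset.sum_congr rfl e3, Finset.sum_comm]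
  refine Finset.sum_congr rfl fun j hj => ?_
  rw [cc, Finset.sum_mul, ← Finset.sum_filter]
  refine Finset.sum_congr ?_ fun _ _ => rfl
  ext d
  rw [Finset.mem_filter, Finset.mem_Icc, Nat.mem_divisors]
  rw [Finset.mem_Icc] at hj
  constructor
  · exact fun h => ⟨h.2, by omega⟩
  · intro h
    exact ⟨⟨Nat.pos_of_dvd_of_pos h.1 (by omega), (Nat.le_of_dvd (by omega) h.1).trans hj.2⟩, h.1⟩

theorem sum_divisors (k : ℕ) (hk : 1 ≤ k) :
    ∑ d ∈ k.divisors, d * (IrEq F d).card = Fintype.card F ^ k := by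
  set q := Fintype.card F with hq
  have hC : ∀ j, cc (fun _ : F[X] => (1 : ℂ)) j = ((∑ d ∈ j.divisors, d * (IrEq F d).card : ℕ) : ℂ) := by
    intro j
    rw [cc]
    push_cast
    refine Finset.sum_congr rfl fun d _ => ?_
    rw [Finset.sum_congr rfl fun P _ => one_pow _, Finset.sum_const, nsmul_eq_mul, mul_one]
  have hM : ∀ k : ℕ, 1 ≤ k → (k : ℂ) * (q : ℂ) ^ k = ∑ j ∈ Finset.Icc 1 k,
      ((∑ d ∈ j.divisors, d * (IrEq F d).card : ℕ) : ℂ) * (q : ℂ) ^ (k - j) := by
    intro k hk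
    have h := mangoldt (F := F) (fun _ => 1) rfl (fun _ _ _ _ => by rw [mul_one]) k hk
    have hs : ∀ n, ∑ _A ∈ Mon F n, (1 : ℂ) = (q : ℂ) ^ n := by
      intro n
      rw [Finset.sum_const, nsmul_eq_mul, mul_one, card_Mon]
      push_cast
      rfl
    simp only [hs, hC] at h
    exact h
  obtain ⟨n, rfl⟩ : ∃ n, k = n + 1 := ⟨k - 1, by omega⟩
  have h1 := hM (n + 1) hk
  rw [Finset.sum_Icc_succ_top (by omega), Nat.sub_self, pow_zero, mul_one] at h1
  have h2 : (n : ℂ) * (q : ℂ) ^ (n + 1) = ∑ j ∈ Finset.Icc 1 n,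
      ((∑ d ∈ j.divisors, d * (IrEq F d).card : ℕ) : ℂ) * (q : ℂ) ^ (n + 1 - j) := by
    rcases Nat.eq_zero_or_pos n with rfl | hn
    · simp
    · have h3 := hM n hn
      rw [pow_succ, ← mul_assoc, h3, Finset.sum_mul]
      refine Finset.sum_congr rfl fun j hj => ?_
      rw [Finset.mem_Icc] at hj
      have e : n + 1 - j = (n - j) + 1 := by omega
      rw [e, pow_succ]
      ring
  rw [← h2] at h1
  have h4 : ((∑ d ∈ (n + 1).divisors, d * (IrEq F d).card : ℕ) : ℂ) = (q : ℂ) ^ (n + 1) := by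
    push_cast at h1 ⊢
    linear_combination -h1
  exact_mod_cast h4

theorem card_IrEq (k : ℕ) : k * (IrEq F k).card ≤ Fintype.card F ^ k := by
  rcases Nat.eq_zero_or_pos k with rfl | hk
  · simp
  · rw [← sum_divisors k hk]
    exact Finset.single_le_sum (f := fun d => d * (IrEq F d).card) (fun _ _ => Nat.zero_le _)
      (Nat.mem_divisors_self k (by omega))

end Pool.Agent.Helper48.ST
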