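import Pool.Agent.Helper48.ST.LSets
import Pool.Agent.Helper48.ST.Cards

/-!
ST-07. There are at most `q ^ m` finite sets of total degree `m`, and the sum of `q^(-deg)` over all finite sets of degree `< T` is at most `T`.

Proof. `t ↦ pr t` is an injection of `Sq S m` into `Mon F m` (ST-03, ST-06). The second statement: sort by degree.
The third: the family is determined by its members, `∑_m` over all families whose members have degree `< T` is at most the product over `ι` of
the sums over single sets (drop the disjointness conditions: `Finset.prod_univ_sum`, `Fintype.piFinset`).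
-/

set_option autoImplicit false

open Polynomial
open scoped Classical

namespace Pool.Agent.Helper48.ST

variable {F : Type} [Field F] [Fintype F]

theorem card_Sq_le (S : Finset (Ir F)) (m : ℕ) : (Sq S m).card ≤ Fintype.card F ^ m := by
  rw [← card_Mon (F := F) m]
  refine Finset.card_le_card_of_injOn pr ?_ (fun s _ t _ h => pr_injective h)
  intro t ht
  rw [Finset.mem_coe, mem_Sq] at ht
  rw [Finset.mem_coe, mem_Mon]
  exact ⟨pr_monic t, by rw [natDegree_pr, ht.2]⟩

theorem sum_Sq_lt (S : Finset (Ir F)) (T : ℕ) :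
    ∑ m ∈ Finset.range T, ∑ _t ∈ Sq S m, ((Fintype.card F : ℝ)⁻¹) ^ m ≤ T := by
  have hq : (0 : ℝ) < Fintype.card F := by exact_mod_cast Fintype.card_pos
  have h : ∀ m ∈ Finset.range T, ∑ _t ∈ Sq S m, ((Fintype.card F : ℝ)⁻¹) ^ m ≤ 1 := by
    intro m _
    rw [Finset.sum_const, nsmul_eq_mul, inv_pow, ← div_eq_mul_inv, div_le_one (by positivity)]
    exact_mod_cast card_Sq_le S m
  refine (Finset.sum_le_sum h).trans ?_
  simp

theorem cardSq_sum_union (S : Finset (Ir F)) (T : ℕ) :
    ∑ t ∈ (Finset.range T).biUnion (Sq S), ((Fintype.card F : ℝ)⁻¹) ^ dgs t ≤ T := by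
  rw [Finset.sum_biUnion]
  · refine le_trans (le_of_eq ?_) (sum_Sq_lt S T)
    apply Finset.sum_congr rfl
    intro m _
    apply Finset.sum_congr rfl
    intro t ht
    rw [(mem_Sq.1 ht).2]
  · intro i _ j _ hij
    rw [Function.onFun, Finset.disjoint_left]
    intro t ht ht'
    exact hij ((mem_Sq.1 ht).2.symm.trans (mem_Sq.1 ht').2)

theorem short_sum {ι : Type} [Fintype ι] (S : Finset (Ir F)) (T N : ℕ) (hT : 1 ≤ T) :
    ∑ m ∈ Finset.range (N + 1),
      ∑ _s ∈ (Fam ι S m).filter (fun s => ∀ u, dgs (s u) < T), ((Fintype.card F : ℝ)⁻¹) ^ m ≤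
      (T : ℝ) ^ Fintype.card ι := by
  have hq : (0 : ℝ) < Fintype.card F := by exact_mod_cast Fintype.card_pos
  set Z : Finset (Finset (Ir F)) := (Finset.range T).biUnion (Sq S) with hZ
  have h1 : ∑ m ∈ Finset.range (N + 1),
      ∑ _s ∈ (Fam ι S m).filter (fun s => ∀ u, dgs (s u) < T), ((Fintype.card F : ℝ)⁻¹) ^ m =
      ∑ s ∈ (Finset.range (N + 1)).biUnion
        (fun m => (Fam ι S m).filter (fun s => ∀ u, dgs (s u) < T)),
        ∏ u, ((Fintype.card F : ℝ)⁻¹) ^ dgs (s u) := by
    rw [Finset.sum_biUnion]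
    · apply Finset.sum_congr rfl
      intro m _
      apply Finset.sum_congr rfl
      intro s hs
      rw [Finset.prod_pow_eq_pow_sum, (mem_Fam.1 (Finset.mem_filter.1 hs).1).2.2]
    · intro i _ j _ hij
      rw [Function.onFun, Finset.disjoint_left]
      intro s hs hs'
      exact hij ((mem_Fam.1 (Finset.mem_filter.1 hs).1).2.2.symm.trans
        (mem_Fam.1 (Finset.mem_filter.1 hs').1).2.2)
  rw [h1]
  have hsub : (Finset.range (N + 1)).biUnion
      (fun m => (Fam ι S m).filter (fun s => ∀ u, dgs (s u) < T)) ⊆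
      Fintype.piFinset (fun _ : ι => Z) := by
    intro s hs
    rw [Finset.mem_biUnion] at hs
    obtain ⟨m, _, hs⟩ := hs
    rw [Finset.mem_filter] at hs
    rw [Fintype.mem_piFinset]
    intro u
    rw [hZ, Finset.mem_biUnion]
    exact ⟨dgs (s u), Finset.mem_range.2 (hs.2 u), mem_Sq.2 ⟨(mem_Fam.1 hs.1).2.1 u, rfl⟩⟩
  calc ∑ s ∈ (Finset.range (N + 1)).biUnion
        (fun m => (Fam ι S m).filter (fun s => ∀ u, dgs (s u) < T)),
        ∏ u, ((Fintype.card F : ℝ)⁻¹) ^ dgs (s u)
      ≤ ∑ s ∈ Fintype.piFinset (fun _ : ι => Z), ∏ u, ((Fintype.card F : ℝ)⁻¹) ^ dgs (s u) :=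
        Finset.sum_le_sum_of_subset_of_nonneg hsub
          (fun s _ _ => Finset.prod_nonneg (fun u _ => by positivity))
    _ = ∏ _u : ι, ∑ t ∈ Z, ((Fintype.card F : ℝ)⁻¹) ^ dgs t :=
        (Finset.prod_univ_sum (fun _ : ι => Z)
          (fun _ t => ((Fintype.card F : ℝ)⁻¹) ^ dgs t)).symm
    _ ≤ ∏ _u : ι, (T : ℝ) :=
        Finset.prod_le_prod (fun u _ => Finset.sum_nonneg (fun t _ => by positivity))
          (fun u _ => cardSq_sum_union S T)
    _ = (T : ℝ) ^ Fintype.card ι := by rw [Finset.prod_const, Finset.card_univ]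

end Pool.Agent.Helper48.ST
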