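import Pool.Agent.Helper48.ST.Chi
import Pool.Agent.Helper48.ST.CardSq

/-!
ST-19. Orthogonality of the characters `g.chi c s` over complete sums.

Proof. Expand the square: `∑_{s₁, s₂} ε s₁ conj(ε s₂) ∑_{C ∈ Mon m} χ_{s₁}(C) conj(χ_{s₂}(C))`. For `s₁ ≠ s₂` the inner summand is
`g.chi c' (s₁ ∪ s₂) C` with `c' P = c` on `s₁ \ s₂`, `-c` on `s₂ \ s₁`, `0` on the intersection (`C` is coprime to `pr (s₁ ∪ s₂)` iff it is coprime to both,
`coprime_pr_iff`; `conj (e x) = e (-x)`). As `s₁ ≠ s₂` have the same total degree (degrees of members are positive) the symmetric difference is not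
empty, so `c' P ≠ 0` for some `P ∈ s₁ ∪ s₂`, and `dgs (s₁ ∪ s₂) ≤ 2 a ≤ m`: the sum is `0` by `chi_sum_zero`. For `s₁ = s₂` it is at most
`card (Mon m) = q^m` (`card_Mon`). Total at most `card (Sq ∅ a) * q^m ≤ q^(a+m)` (`card_Sq_le`).
-/

set_option autoImplicit false

open Polynomial
open scoped Classical

namespace Pool.Agent.Helper48.ST

theorem lsv_conj_e {ℓ : ℕ} [NeZero ℓ] (x : ZMod ℓ) : (starRingEnd ℂ) (e x) = e (-x) := by
  unfold e
  exact (AddChar.map_neg_eq_conj _ x).symm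

theorem lsv_pair {F : Type} [Field F] {ℓ : ℕ} [Fact ℓ.Prime] (g : Lg F ℓ) (c : ZMod ℓ)
    (s t : Finset (Ir F)) (C : F[X]) :
    g.chi (fun _ => c) s C * (starRingEnd ℂ) (g.chi (fun _ => c) t C) =
      g.chi (fun P => (if P ∈ s then c else 0) - (if P ∈ t then c else 0)) (s ∪ t) C := by
  have hiff : IsCoprime C (pr (s ∪ t)) ↔ IsCoprime C (pr s) ∧ IsCoprime C (pr t) := by
    rw [coprime_pr_iff, coprime_pr_iff, coprime_pr_iff]
    constructor
    · intro h
      exact ⟨fun R hR => h R (Finset.mem_union_left _ hR),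
        fun R hR => h R (Finset.mem_union_right _ hR)⟩
    · intro h R hR
      rcases Finset.mem_union.1 hR with hR | hR
      · exact h.1 R hR
      · exact h.2 R hR
  unfold Lg.chi
  by_cases h1 : IsCoprime C (pr s)
  · by_cases h2 : IsCoprime C (pr t)
    · rw [if_pos h1, if_pos h2, if_pos (hiff.2 ⟨h1, h2⟩), lsv_conj_e, ← e_add]
      congr 1
      have e1 : ∑ P ∈ s ∪ t, (if P ∈ s then c else 0) * g.L C P.1 = ∑ P ∈ s, c * g.L C P.1 := by
        have : ∀ P ∈ s ∪ t, (if P ∈ s then c else 0) * g.L C P.1 =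
            if P ∈ s then c * g.L C P.1 else 0 := by
          intro P _
          split_ifs
          · rfl
          · rw [zero_mul]
        rw [Finset.sum_congr rfl this, Finset.sum_ite_mem, Finset.union_inter_cancel_left]
      have e2 : ∑ P ∈ s ∪ t, (if P ∈ t then c else 0) * g.L C P.1 = ∑ P ∈ t, c * g.L C P.1 := by
        have : ∀ P ∈ s ∪ t, (if P ∈ t then c else 0) * g.L C P.1 =
            if P ∈ t then c * g.L C P.1 else 0 := by
          intro P _
          split_ifs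
          · rfl
          · rw [zero_mul]
        rw [Finset.sum_congr rfl this, Finset.sum_ite_mem, Finset.union_inter_cancel_right]
      rw [← e1, ← e2, ← sub_eq_add_neg, ← Finset.sum_sub_distrib]
      exact Finset.sum_congr rfl fun P _ => (sub_mul _ _ _).symm
    · rw [if_neg h2, map_zero, mul_zero, if_neg fun h => h2 (hiff.1 h).2]
  · rw [if_neg h1, zero_mul, if_neg fun h => h1 (hiff.1 h).1]

theorem lsv_dgs_union {F : Type} [Field F] (s t : Finset (Ir F)) : dgs (s ∪ t) ≤ dgs s + dgs t := by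
  unfold dgs
  rw [← Finset.sum_union_inter]
  exact Nat.le_add_right _ _

theorem lsv_zero {F : Type} [Field F] [Fintype F] {ℓ : ℕ} [Fact ℓ.Prime] (g : Lg F ℓ)
    (c : ZMod ℓ) (hc : c ≠ 0) {a m : ℕ} (ham : 2 * a ≤ m) {s t : Finset (Ir F)}
    (hs : dgs s = a) (ht : dgs t = a) (hst : s ≠ t) :
    ∑ C ∈ Mon F m, g.chi (fun _ => c) s C * (starRingEnd ℂ) (g.chi (fun _ => c) t C) = 0 := by
  rw [Finset.sum_congr rfl fun C _ => lsv_pair g c s t C]
  refine chi_sum_zero g _ (s ∪ t) ?_ m ?_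
  · by_contra hcon
    push Not at hcon
    apply hst
    ext P
    constructor
    · intro hP
      by_contra hP'
      have h1 := hcon P (Finset.mem_union_left _ hP)
      rw [if_pos hP, if_neg hP', sub_zero] at h1
      exact hc h1
    · intro hP
      by_contra hP'
      have h1 := hcon P (Finset.mem_union_right _ hP)
      rw [if_neg hP', if_pos hP, zero_sub, neg_eq_zero] at h1
      exact hc h1
  · have := lsv_dgs_union s t
    omega

theorem large_sieve {F : Type} [Field F] [Fintype F] {ℓ : ℕ} [Fact ℓ.Prime] (g : Lg F ℓ)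
    (c : ZMod ℓ) (hc : c ≠ 0) (a m : ℕ) (ham : 2 * a ≤ m) (ε : Finset (Ir F) → ℂ)
    (hε : ∀ s, ‖ε s‖ ≤ 1) :
    ∑ C ∈ Mon F m, ‖∑ s ∈ Sq ∅ a, ε s * g.chi (fun _ => c) s C‖ ^ 2 ≤
      (Fintype.card F : ℝ) ^ (a + m) := by
  have hexp : ((∑ C ∈ Mon F m, ‖∑ s ∈ Sq ∅ a, ε s * g.chi (fun _ => c) s C‖ ^ 2 : ℝ) : ℂ) =
      ∑ s ∈ Sq (∅ : Finset (Ir F)) a, ∑ t ∈ Sq (∅ : Finset (Ir F)) a,
        ε s * (starRingEnd ℂ) (ε t) *
        ∑ C ∈ Mon F m, g.chi (fun _ => c) s C * (starRingEnd ℂ) (g.chi (fun _ => c) t C) := by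
    rw [Complex.ofReal_sum]
    have h1 : ∀ C ∈ Mon F m, ((‖∑ s ∈ Sq ∅ a, ε s * g.chi (fun _ => c) s C‖ ^ 2 : ℝ) : ℂ) =
        ∑ s ∈ Sq (∅ : Finset (Ir F)) a, ∑ t ∈ Sq (∅ : Finset (Ir F)) a,
          ε s * (starRingEnd ℂ) (ε t) *
          (g.chi (fun _ => c) s C * (starRingEnd ℂ) (g.chi (fun _ => c) t C)) := by
      intro C _
      rw [Complex.ofReal_pow, ← Complex.mul_conj', map_sum, Finset.sum_mul_sum]
      refine Finset.sum_congr rfl fun s _ => Finset.sum_congr rfl fun t _ => ?_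
      rw [map_mul]
      ring
    rw [Finset.sum_congr rfl h1, Finset.sum_comm]
    refine Finset.sum_congr rfl fun s _ => ?_
    rw [Finset.sum_comm]
    refine Finset.sum_congr rfl fun t _ => ?_
    rw [Finset.mul_sum]
  have hdiag : ∀ s ∈ Sq (∅ : Finset (Ir F)) a, ∑ t ∈ Sq (∅ : Finset (Ir F)) a,
        ε s * (starRingEnd ℂ) (ε t) *
        ∑ C ∈ Mon F m, g.chi (fun _ => c) s C * (starRingEnd ℂ) (g.chi (fun _ => c) t C) =
      ε s * (starRingEnd ℂ) (ε s) *
        ∑ C ∈ Mon F m, g.chi (fun _ => c) s C * (starRingEnd ℂ) (g.chi (fun _ => c) s C) := by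
    intro s hs
    rw [Finset.sum_eq_single s]
    · intro t ht hts
      rw [lsv_zero g c hc ham (mem_Sq.1 hs).2 (mem_Sq.1 ht).2 hts.symm, mul_zero]
    · intro h
      exact absurd hs h
  rw [Finset.sum_congr rfl hdiag] at hexp
  have hnn : 0 ≤ ∑ C ∈ Mon F m, ‖∑ s ∈ Sq ∅ a, ε s * g.chi (fun _ => c) s C‖ ^ 2 :=
    Finset.sum_nonneg fun C _ => by positivity
  have hnorm := congrArg norm hexp
  rw [Complex.norm_real, Real.norm_eq_abs, abs_of_nonneg hnn] at hnorm
  rw [hnorm]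
  have hterm : ∀ s ∈ Sq (∅ : Finset (Ir F)) a, ‖ε s * (starRingEnd ℂ) (ε s) *
        ∑ C ∈ Mon F m, g.chi (fun _ => c) s C * (starRingEnd ℂ) (g.chi (fun _ => c) s C)‖ ≤
      (Fintype.card F : ℝ) ^ m := by
    intro s _
    have h1 : ‖∑ C ∈ Mon F m, g.chi (fun _ => c) s C *
        (starRingEnd ℂ) (g.chi (fun _ => c) s C)‖ ≤ (Fintype.card F : ℝ) ^ m := by
      refine (norm_sum_le _ _).trans ?_
      have h2 : ∀ C ∈ Mon F m, ‖g.chi (fun _ => c) s C *
          (starRingEnd ℂ) (g.chi (fun _ => c) s C)‖ ≤ 1 := by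
        intro C _
        rw [norm_mul, RCLike.norm_conj]
        have h3 := norm_chi_le g (fun _ => c) s C
        exact mul_le_one₀ h3 (norm_nonneg _) h3
      refine (Finset.sum_le_sum h2).trans ?_
      rw [Finset.sum_const, nsmul_eq_mul, mul_one, card_Mon]
      push_cast
      exact le_rfl
    rw [norm_mul, norm_mul, RCLike.norm_conj]
    have h4 : ‖ε s‖ * ‖ε s‖ ≤ 1 := mul_le_one₀ (hε s) (norm_nonneg _) (hε s)
    calc ‖ε s‖ * ‖ε s‖ * ‖∑ C ∈ Mon F m, g.chi (fun _ => c) s C *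
          (starRingEnd ℂ) (g.chi (fun _ => c) s C)‖
        ≤ 1 * (Fintype.card F : ℝ) ^ m :=
          mul_le_mul h4 h1 (norm_nonneg _) zero_le_one
      _ = (Fintype.card F : ℝ) ^ m := one_mul _
  refine (norm_sum_le _ _).trans ((Finset.sum_le_sum hterm).trans ?_)
  rw [Finset.sum_const, nsmul_eq_mul, pow_add]
  refine mul_le_mul_of_nonneg_right ?_ (by positivity)
  exact_mod_cast card_Sq_le (∅ : Finset (Ir F)) a

end Pool.Agent.Helper48.ST
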