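import Pool.Agent.Helper48.ST.QuadCount
import Pool.Agent.Helper48.ST.LargeSieve
import Pool.Agent.Helper48.ST.CardSq

/-!
ST-20. Bilinear sums (double oscillation).

Proof. Let `χ_s = g.chi (fun _ => c) s`. For `s`, `t` disjoint `e (c * LL s t) = χ_s (pr t)` (`L_mul_left` over `t`, `L_ir_symm`), and `χ_s (pr t) = 0` if they
are not disjoint (`pr_coprime_iff`). So the sum is `∑_s α s * B s`, `B s = ∑_{t ∈ Sq ∅ b} β t χ_s(pr t)`. Cauchy–Schwarz: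
`|sum|^2 ≤ card (Sq a) * ∑_s |B s|^2`. Let `ε s` be of norm `≤ 1` with `|B s|^2 = ε s * (B s)^2`. Since `χ_s` is multiplicative
`(B s)^2 = ∑_{C ∈ Mon 2b} γ C χ_s(C)`, `γ C = ∑_{t₁, t₂ ∈ Sq ∅ b, pr t₁ * pr t₂ = C} β t₁ β t₂`. So `∑_s |B s|^2 = ∑_C γ C ∑_s ε s χ_s(C)` and by Cauchy–Schwarz
`(∑_s |B s|^2)^2 ≤ (∑_C |γ C|^2) (∑_C |∑_s ε s χ_s(C)|^2) ≤ (b+1) q^(2b) * q^(a+2b)`: the first factor is at most the number of
`(t₁,t₂,t₃,t₄)` with `pr t₁ * pr t₂ = pr t₃ * pr t₄`, at most `(b+1) q^(2b)` by `quad_count` (`pr` is injective, `pr t ∈ Mon b`), the second is `large_sieve`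
(`m = 2b ≥ 2a`). Together `|sum|^4 ≤ q^(2a) (b+1) q^(a+4b)`.
-/

set_option autoImplicit false

open Polynomial
open scoped Classical

namespace Pool.Agent.Helper48.ST

theorem bilinear_chi_eq {F : Type} [Field F] {ℓ : ℕ} [Fact ℓ.Prime] (g : Lg F ℓ) (h2 : ℓ ≠ 2)
    (c : ZMod ℓ) (s t : Finset (Ir F)) :
    (if Disjoint s t then e (c * g.LL s t) else 0) = g.chi (fun _ => c) s (pr t) := by
  unfold Lg.chi
  have hiff : IsCoprime (pr t) (pr s) ↔ Disjoint s t := by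
    rw [pr_coprime_iff, disjoint_comm]
  by_cases h : Disjoint s t
  · rw [if_pos h, if_pos (hiff.2 h)]
    congr 1
    unfold Lg.LL
    rw [Finset.mul_sum]
    refine Finset.sum_congr rfl fun P hP => ?_
    congr 1
    have hcop : IsCoprime (pr t) P.1 := (coprime_pr_iff (pr t) s).1 (hiff.2 h) P hP
    rw [L_symm g h2 (pr t) P.1 (pr_monic t) P.2.1 hcop, L_pr_right g P.1 t hcop.symm]
  · rw [if_neg h, if_neg (fun h' => h (hiff.1 h'))]

theorem bilinear_count {F : Type} [Field F] [Fintype F] (b : ℕ) :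
    ∑ C ∈ Mon F (2 * b),
      (((Sq (F := F) ∅ b ×ˢ Sq ∅ b).filter (fun x => pr x.1 * pr x.2 = C)).card : ℝ) ^ 2 ≤
      ((b : ℝ) + 1) * (Fintype.card F : ℝ) ^ (2 * b) := by
  set P := Sq (F := F) ∅ b ×ˢ Sq (F := F) ∅ b with hP
  set f : Finset (Ir F) × Finset (Ir F) → F[X] := fun x => pr x.1 * pr x.2 with hf
  set Q := (P ×ˢ P).filter (fun x => f x.1 = f x.2) with hQ
  have hmemSq : ∀ t, t ∈ Sq (F := F) ∅ b → pr t ∈ Mon F b := by
    intro t ht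
    rw [mem_Sq] at ht
    rw [mem_Mon]
    exact ⟨pr_monic t, by rw [natDegree_pr]; exact ht.2⟩
  have hf2 : ∀ x ∈ P, f x ∈ Mon F (2 * b) := by
    intro x hx
    rw [hP, Finset.mem_product] at hx
    have h1 := hmemSq _ hx.1
    have h2 := hmemSq _ hx.2
    rw [mem_Mon] at h1 h2 ⊢
    refine ⟨h1.1.mul h2.1, ?_⟩
    rw [h1.1.natDegree_mul h2.1, h1.2, h2.2]
    ring
  have h1 : Q.card = ∑ C ∈ Mon F (2 * b), (P.filter (fun x => f x = C)).card ^ 2 := by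
    rw [Finset.card_eq_sum_card_fiberwise (f := fun x => f x.1) (t := Mon F (2 * b))]
    · refine Finset.sum_congr rfl fun C _ => ?_
      rw [sq, ← Finset.card_product]
      congr 1
      ext x
      simp only [hQ, Finset.mem_filter, Finset.mem_product]
      constructor
      · rintro ⟨⟨⟨h1, h2⟩, h3⟩, h4⟩
        exact ⟨⟨h1, h4⟩, h2, h3 ▸ h4⟩
      · rintro ⟨⟨h1, h4⟩, h2, h5⟩
        exact ⟨⟨⟨h1, h2⟩, h4.trans h5.symm⟩, h4⟩
    · intro x hx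
      rw [Finset.mem_coe, hQ, Finset.mem_filter, Finset.mem_product] at hx
      exact hf2 _ hx.1.1
  have h3 : Q.card ≤ (b + 1) * Fintype.card F ^ (2 * b) := by
    refine le_trans ?_ (quad_count (F := F) b)
    refine Finset.card_le_card_of_injOn
      (fun x => ((pr x.1.1, pr x.1.2), (pr x.2.1, pr x.2.2))) ?_ ?_
    · intro x hx
      rw [Finset.mem_coe, hQ, Finset.mem_filter, Finset.mem_product, hP, Finset.mem_product,
        Finset.mem_product] at hx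
      rw [Finset.mem_coe, Finset.mem_filter, Finset.mem_product, Finset.mem_product,
        Finset.mem_product]
      exact ⟨⟨⟨hmemSq _ hx.1.1.1, hmemSq _ hx.1.1.2⟩, ⟨hmemSq _ hx.1.2.1, hmemSq _ hx.1.2.2⟩⟩,
        hx.2⟩
    · rintro ⟨⟨x1, x2⟩, ⟨x3, x4⟩⟩ _ ⟨⟨y1, y2⟩, ⟨y3, y4⟩⟩ _ h
      simp only [Prod.mk.injEq] at h
      obtain ⟨⟨e1, e2⟩, ⟨e3, e4⟩⟩ := h
      rw [pr_injective e1, pr_injective e2, pr_injective e3, pr_injective e4]
  have h4 : ∑ C ∈ Mon F (2 * b), ((P.filter (fun x => f x = C)).card : ℝ) ^ 2 =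
      (Q.card : ℝ) := by
    rw [h1]
    push_cast
    rfl
  refine h4.le.trans ?_
  exact_mod_cast h3

theorem bilinear {F : Type} [Field F] [Fintype F] {ℓ : ℕ} [Fact ℓ.Prime] (g : Lg F ℓ) (h2 : ℓ ≠ 2)
    (c : ZMod ℓ) (hc : c ≠ 0) (a b : ℕ) (hab : a ≤ b) (α β : Finset (Ir F) → ℂ)
    (hα : ∀ s, ‖α s‖ ≤ 1) (hβ : ∀ s, ‖β s‖ ≤ 1) :
    ‖∑ s ∈ Sq ∅ a, ∑ t ∈ Sq ∅ b,
      α s * β t * (if Disjoint s t then e (c * g.LL s t) else 0)‖ ^ 4 ≤
      ((b : ℝ) + 1) * (Fintype.card F : ℝ) ^ (3 * a + 4 * b) := by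
  set χ : Finset (Ir F) → F[X] → ℂ := fun s => g.chi (fun _ => c) s with hχ
  set B : Finset (Ir F) → ℂ := fun s => ∑ t ∈ Sq ∅ b, β t * χ s (pr t) with hB
  set q : ℝ := (Fintype.card F : ℝ) with hq
  have hsum : ∑ s ∈ Sq ∅ a, ∑ t ∈ Sq ∅ b,
      α s * β t * (if Disjoint s t then e (c * g.LL s t) else 0) =
      ∑ s ∈ Sq ∅ a, α s * B s := by
    refine Finset.sum_congr rfl fun s _ => ?_
    rw [hB, Finset.mul_sum]
    refine Finset.sum_congr rfl fun t _ => ?_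
    rw [bilinear_chi_eq g h2 c s t, mul_assoc]
  rw [hsum]
  -- first Cauchy-Schwarz
  set S2 : ℝ := ∑ s ∈ Sq (F := F) ∅ a, ‖B s‖ ^ 2 with hS2
  have hS2nn : 0 ≤ S2 := Finset.sum_nonneg fun _ _ => by positivity
  have hcard : ((Sq (F := F) ∅ a).card : ℝ) ≤ q ^ a := by
    have := card_Sq_le (F := F) ∅ a
    rw [hq]
    exact_mod_cast this
  have hqa : 0 ≤ q ^ a := by positivity
  have hcs1 : ‖∑ s ∈ Sq ∅ a, α s * B s‖ ^ 2 ≤ q ^ a * S2 := by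
    have h1 : ‖∑ s ∈ Sq ∅ a, α s * B s‖ ≤ ∑ s ∈ Sq ∅ a, ‖B s‖ := by
      refine (norm_sum_le _ _).trans (Finset.sum_le_sum fun s _ => ?_)
      rw [norm_mul]
      exact mul_le_of_le_one_left (norm_nonneg _) (hα s)
    have h3 : (∑ s ∈ Sq (F := F) ∅ a, ‖B s‖) ^ 2 ≤ ((Sq (F := F) ∅ a).card : ℝ) * S2 :=
      sq_sum_le_card_mul_sum_sq
    calc ‖∑ s ∈ Sq ∅ a, α s * B s‖ ^ 2 ≤ (∑ s ∈ Sq ∅ a, ‖B s‖) ^ 2 := by gcongr
      _ ≤ ((Sq (F := F) ∅ a).card : ℝ) * S2 := h3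
      _ ≤ q ^ a * S2 := by gcongr
  -- the phases
  set ε : Finset (Ir F) → ℂ := fun s => (starRingEnd ℂ) (B s) / B s with hε
  have hεn : ∀ s, ‖ε s‖ ≤ 1 := by
    intro s
    rw [hε]
    simp only [norm_div, RCLike.norm_conj]
    exact div_self_le_one _
  have hεB : ∀ s, ((‖B s‖ ^ 2 : ℝ) : ℂ) = ε s * (B s) ^ 2 := by
    intro s
    by_cases h0 : B s = 0
    · simp [h0]
    · rw [hε]
      simp only
      rw [sq (B s), ← mul_assoc, div_mul_cancel₀ _ h0, mul_comm, Complex.mul_conj,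
        Complex.normSq_eq_norm_sq]
  set P := Sq (F := F) ∅ b ×ˢ Sq (F := F) ∅ b with hP
  have hB2 : ∀ s, (B s) ^ 2 = ∑ x ∈ P, β x.1 * β x.2 * χ s (pr x.1 * pr x.2) := by
    intro s
    rw [sq, hB, hP, Finset.sum_mul_sum, Finset.sum_product]
    refine Finset.sum_congr rfl fun t₁ _ => Finset.sum_congr rfl fun t₂ _ => ?_
    simp only [hχ]
    rw [chi_mul]
    ring
  set E : F[X] → ℂ := fun C => ∑ s ∈ Sq ∅ a, ε s * χ s C with hE
  set γ : F[X] → ℂ := fun C => ∑ x ∈ P.filter (fun x => pr x.1 * pr x.2 = C),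
    β x.1 * β x.2 with hγ
  have hmap : ∀ x ∈ P, pr x.1 * pr x.2 ∈ Mon F (2 * b) := by
    intro x hx
    rw [hP, Finset.mem_product, mem_Sq, mem_Sq] at hx
    rw [mem_Mon]
    refine ⟨(pr_monic _).mul (pr_monic _), ?_⟩
    rw [(pr_monic _).natDegree_mul (pr_monic _), natDegree_pr, natDegree_pr, hx.1.2, hx.2.2]
    ring
  have hS2c : (S2 : ℂ) = ∑ C ∈ Mon F (2 * b), γ C * E C := by
    have h1 : (S2 : ℂ) = ∑ s ∈ Sq (F := F) ∅ a, ε s * (B s) ^ 2 := by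
      rw [hS2, Complex.ofReal_sum]
      exact Finset.sum_congr rfl fun s _ => hεB s
    rw [h1]
    have h3 : ∑ s ∈ Sq (F := F) ∅ a, ε s * (B s) ^ 2 =
        ∑ x ∈ P, β x.1 * β x.2 * E (pr x.1 * pr x.2) := by
      simp only [hB2, hE, Finset.mul_sum]
      rw [Finset.sum_comm]
      refine Finset.sum_congr rfl fun x _ => Finset.sum_congr rfl fun s _ => ?_
      ring
    rw [h3, ← Finset.sum_fiberwise_of_maps_to hmap]
    refine Finset.sum_congr rfl fun C _ => ?_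
    rw [hγ, Finset.sum_mul]
    refine Finset.sum_congr rfl fun x hx => ?_
    rw [(Finset.mem_filter.1 hx).2]
  have hγn : ∀ C, ‖γ C‖ ≤ ((P.filter (fun x => pr x.1 * pr x.2 = C)).card : ℝ) := by
    intro C
    rw [hγ]
    refine (norm_sum_le _ _).trans ?_
    rw [Finset.card_eq_sum_ones, Nat.cast_sum]
    refine Finset.sum_le_sum fun x _ => ?_
    rw [norm_mul, Nat.cast_one]
    exact mul_le_one₀ (hβ _) (norm_nonneg _) (hβ _)
  have hS2b : S2 ≤ ∑ C ∈ Mon F (2 * b), ‖γ C‖ * ‖E C‖ := by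
    have h1 : S2 = ‖(S2 : ℂ)‖ := by
      rw [Complex.norm_real, Real.norm_of_nonneg hS2nn]
    rw [h1, hS2c]
    refine (norm_sum_le _ _).trans (Finset.sum_le_sum fun C _ => ?_)
    rw [norm_mul]
  have hcs2 : S2 ^ 2 ≤ (((b : ℝ) + 1) * q ^ (2 * b)) * q ^ (a + 2 * b) := by
    calc S2 ^ 2 ≤ (∑ C ∈ Mon F (2 * b), ‖γ C‖ * ‖E C‖) ^ 2 := by gcongr
      _ ≤ (∑ C ∈ Mon F (2 * b), ‖γ C‖ ^ 2) * (∑ C ∈ Mon F (2 * b), ‖E C‖ ^ 2) :=
        Finset.sum_mul_sq_le_sq_mul_sq _ _ _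
      _ ≤ (((b : ℝ) + 1) * q ^ (2 * b)) * q ^ (a + 2 * b) := by
        refine mul_le_mul ?_ ?_ (Finset.sum_nonneg fun _ _ => by positivity) (by positivity)
        · refine le_trans (Finset.sum_le_sum fun C _ => ?_) (bilinear_count (F := F) b)
          exact pow_le_pow_left₀ (norm_nonneg _) (hγn C) 2
        · exact large_sieve g c hc a (2 * b) (by omega) ε hεn
  calc ‖∑ s ∈ Sq ∅ a, α s * B s‖ ^ 4 = (‖∑ s ∈ Sq ∅ a, α s * B s‖ ^ 2) ^ 2 := by ring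
    _ ≤ (q ^ a * S2) ^ 2 := by gcongr
    _ = q ^ (2 * a) * S2 ^ 2 := by ring
    _ ≤ q ^ (2 * a) * ((((b : ℝ) + 1) * q ^ (2 * b)) * q ^ (a + 2 * b)) := by gcongr
    _ = ((b : ℝ) + 1) * q ^ (3 * a + 4 * b) := by ring

end Pool.Agent.Helper48.ST
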