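import Pool.Agent.Helper48.ST.Bilinear

/-!
ST-21. Symmetric form of ST-20.

Proof. If `a ≤ b`: by ST-20 `|sum|^4 ≤ (b+1) q^(3a+4b) = q^(4(a+b)) (b+1) q^(-a) ≤ q^(4(a+b)) (a+b+1) q^(-T)`; take fourth roots
(`Real.rpow`). If `b < a` exchange the roles of `s` and `t` (`Finset.sum_comm`, `LL_symm` for disjoint sets).
-/

set_option autoImplicit false

open Polynomial
open scoped Classical

namespace Pool.Agent.Helper48.ST

theorem bilinear2_root (x q : ℝ) (hx : 0 ≤ x) (hq : 1 ≤ q) (a b T m : ℕ) (ha : T ≤ a)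
    (hm : m ≤ a + b) (h : x ^ 4 ≤ ((m : ℝ) + 1) * q ^ (3 * a + 4 * b)) :
    x ≤ q ^ (a + b) * (((a + b : ℕ) + 1 : ℝ) * (q⁻¹) ^ T) ^ (1 / 4 : ℝ) := by
  have hq0 : 0 < q := by linarith
  have hy0 : 0 ≤ ((a + b : ℕ) + 1 : ℝ) * (q⁻¹) ^ T := by positivity
  set y : ℝ := ((a + b : ℕ) + 1 : ℝ) * (q⁻¹) ^ T with hy
  have h1 : (q ^ (a + b) * y ^ (1 / 4 : ℝ)) ^ 4 = q ^ (4 * (a + b)) * y := by
    rw [mul_pow, ← pow_mul, ← Real.rpow_natCast (y ^ (1 / 4 : ℝ)) 4, ← Real.rpow_mul hy0]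
    norm_num
    left
    ring
  apply le_of_pow_le_pow_left₀ (n := 4) (by norm_num) (by positivity)
  rw [h1]
  refine h.trans ?_
  have h2 : ((m : ℝ) + 1) ≤ ((a + b : ℕ) + 1 : ℝ) := by
    have : (m : ℝ) ≤ ((a + b : ℕ) : ℝ) := by exact_mod_cast hm
    linarith
  have h3 : q ^ (3 * a + 4 * b) ≤ q ^ (4 * (a + b)) * (q⁻¹) ^ T := by
    have h4 : q ^ (4 * (a + b)) = q ^ (4 * (a + b) - T) * q ^ T := by
      rw [← pow_add]
      congr 1
      omega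
    rw [h4, mul_assoc, ← mul_pow, mul_inv_cancel₀ hq0.ne', one_pow, mul_one]
    exact pow_le_pow_right₀ hq (by omega)
  calc ((m : ℝ) + 1) * q ^ (3 * a + 4 * b)
      ≤ ((a + b : ℕ) + 1 : ℝ) * (q ^ (4 * (a + b)) * (q⁻¹) ^ T) := by
        apply mul_le_mul h2 h3 (by positivity) (by positivity)
    _ = q ^ (4 * (a + b)) * y := by rw [hy]; ring

theorem bilinear2 {F : Type} [Field F] [Fintype F] {ℓ : ℕ} [Fact ℓ.Prime] (g : Lg F ℓ) (h2 : ℓ ≠ 2)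
    (c : ZMod ℓ) (hc : c ≠ 0) (a b T : ℕ) (ha : T ≤ a) (hb : T ≤ b) (α β : Finset (Ir F) → ℂ)
    (hα : ∀ s, ‖α s‖ ≤ 1) (hβ : ∀ s, ‖β s‖ ≤ 1) :
    ‖∑ s ∈ Sq ∅ a, ∑ t ∈ Sq ∅ b,
      α s * β t * (if Disjoint s t then e (c * g.LL s t) else 0)‖ ≤
      (Fintype.card F : ℝ) ^ (a + b) *
        (((a + b : ℕ) + 1 : ℝ) * ((Fintype.card F : ℝ)⁻¹) ^ T) ^ (1 / 4 : ℝ) := by
  have hq : (1 : ℝ) ≤ (Fintype.card F : ℝ) := by
    have : 1 ≤ Fintype.card F := Fintype.card_pos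
    exact_mod_cast this
  rcases le_or_gt a b with hab | hab
  · exact bilinear2_root _ _ (norm_nonneg _) hq a b T b ha (by omega)
      (bilinear g h2 c hc a b hab α β hα hβ)
  · have hsw : ∑ s ∈ Sq ∅ a, ∑ t ∈ Sq ∅ b,
        α s * β t * (if Disjoint s t then e (c * g.LL s t) else 0) =
        ∑ t ∈ Sq ∅ b, ∑ s ∈ Sq ∅ a,
        β t * α s * (if Disjoint t s then e (c * g.LL t s) else 0) := by
      rw [Finset.sum_comm]
      apply Finset.sum_congr rfl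
      intro t _
      apply Finset.sum_congr rfl
      intro s _
      rw [mul_comm (α s)]
      by_cases h : Disjoint s t
      · rw [if_pos h, if_pos h.symm, LL_symm g h2 s t h]
      · rw [if_neg h, if_neg fun h' => h h'.symm]
    rw [hsw, add_comm a b]
    exact bilinear2_root _ _ (norm_nonneg _) hq b a T a hb (by omega)
      (bilinear g h2 c hc b a hab.le β α hβ hα)

end Pool.Agent.Helper48.ST
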