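import Pool.Agent.Helper48.ST.Defs2
import Pool.Agent.Helper96.PS.DefsC

/-!
# Project ST, stage 3: the Selmer group

* `LocIm M ℓ u a D`: over the field `M`, the subgroup of `(Mˣ)^n` generated by the `ℓ`-th powers and the values of
  the map `x - T`, `P ↦ (N_{L/M} (D^u (x(P) - a_j)))_j`, at the closed points `P = (x, y)`, `y ≠ 0`, of the affine
  curve `y^ℓ = D ∏ (x - a_i)` over `M` (`L` any finite extension of `M` over which the point is defined, and
  `n u ≡ 1 mod ℓ`, so that `D^u` is the inverse of the value at the point at infinity modulo `ℓ`-th powers).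
  These are the classes of the divisors `P - deg(P) ∞`.
* `Sel F ℓ u a D`: the Selmer group (for the isogeny `1 - ζ` of the Jacobian) of the curve
  `y^ℓ = D ∏ (x - a_i)` over `F(t)`, in the form of the elements of `(F(t)ˣ)^n` of norm an `ℓ`-th power which belong
  to `LocIm` over all completions of `F(t)`; it contains the `ℓ`-th powers.
* `CData ϖ M` (helper96): `M` is the fraction field of a complete discrete valuation ring `R` with uniformizer `ϖ`.
-/

set_option autoImplicit false

open Polynomial IsDedekindDomain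

namespace Pool.Agent.Helper48.ST

noncomputable section

/-- The local image. -/
def LocIm (M : Type) [Field M] (ℓ u : ℕ) {n : ℕ} (a : Fin n → M) (D : M) :
    Subgroup (Fin n → Mˣ) :=
  Subgroup.closure
    {z : Fin n → Mˣ | (∃ b : Fin n → Mˣ, z = b ^ ℓ) ∨
      ∃ (L : Type) (_ : Field L) (_ : Algebra M L) (x y : L), FiniteDimensional M L ∧ y ≠ 0 ∧
        y ^ ℓ = algebraMap M L D * ∏ i, (x - algebraMap M L (a i)) ∧
        ∀ j, (z j : M) = Algebra.norm M (algebraMap M L D ^ u * (x - algebraMap M L (a j)))}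

/-- The image of `z` over the extension field `M` of `K` is in the local image. -/
def LocSel {K : Type} (M : Type) [Field K] [Field M] [Algebra K M] (ℓ u : ℕ) {n : ℕ}
    (a : Fin n → K) (D : K) (z : Fin n → Kˣ) : Prop :=
  (fun j => Units.map (algebraMap K M).toMonoidHom (z j)) ∈
    LocIm M ℓ u (fun i => algebraMap K M (a i)) (algebraMap K M D)

open Classical in
/-- The Selmer group. -/
def Sel (F : Type) [Field F] (ℓ u : ℕ) {n : ℕ} (a : Fin n → RatFunc F) (D : RatFunc F) :
    Subgroup (Fin n → (RatFunc F)ˣ) where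
  carrier := {z | (∃ c : (RatFunc F)ˣ, ∏ j, z j = c ^ ℓ) ∧
    (∀ v : HeightOneSpectrum F[X], LocSel (v.adicCompletion (RatFunc F)) ℓ u a D z) ∧
    LocSel (RatFunc.CompletionAtInfty F) ℓ u a D z}
  mul_mem' := by
    rintro z z' ⟨⟨c, hc⟩, h1, h2⟩ ⟨⟨c', hc'⟩, h1', h2'⟩
    refine ⟨⟨c * c', ?_⟩, fun v => ?_, ?_⟩
    · simp only [Pi.mul_apply, Finset.prod_mul_distrib]
      rw [hc, hc', mul_pow]
    · have := mul_mem (h1 v) (h1' v)
      have e : (fun j => Units.map (algebraMap (RatFunc F)
          (v.adicCompletion (RatFunc F))).toMonoidHom ((z * z') j)) =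
          (fun j => Units.map (algebraMap (RatFunc F)
            (v.adicCompletion (RatFunc F))).toMonoidHom (z j)) *
          (fun j => Units.map (algebraMap (RatFunc F)
            (v.adicCompletion (RatFunc F))).toMonoidHom (z' j)) := by
        funext j
        simp only [Pi.mul_apply, map_mul]
      rw [LocSel, e]
      exact this
    · have := mul_mem h2 h2'
      have e : (fun j => Units.map (algebraMap (RatFunc F)
          (RatFunc.CompletionAtInfty F)).toMonoidHom ((z * z') j)) =
          (fun j => Units.map (algebraMap (RatFunc F)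
            (RatFunc.CompletionAtInfty F)).toMonoidHom (z j)) *
          (fun j => Units.map (algebraMap (RatFunc F)
            (RatFunc.CompletionAtInfty F)).toMonoidHom (z' j)) := by
        funext j
        simp only [Pi.mul_apply, map_mul]
      rw [LocSel, e]
      exact this
  one_mem' := by
    refine ⟨⟨1, by simp⟩, fun v => ?_, ?_⟩
    · have e : (fun j : Fin n => Units.map (algebraMap (RatFunc F)
          (v.adicCompletion (RatFunc F))).toMonoidHom ((1 : Fin n → (RatFunc F)ˣ) j)) = 1 := by
        funext j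
        simp only [Pi.one_apply, map_one]
      rw [LocSel, e]
      exact one_mem _
    · have e : (fun j : Fin n => Units.map (algebraMap (RatFunc F)
          (RatFunc.CompletionAtInfty F)).toMonoidHom ((1 : Fin n → (RatFunc F)ˣ) j)) = 1 := by
        funext j
        simp only [Pi.one_apply, map_one]
      rw [LocSel, e]
      exact one_mem _
  inv_mem' := by
    rintro z ⟨⟨c, hc⟩, h1, h2⟩
    refine ⟨⟨c⁻¹, ?_⟩, fun v => ?_, ?_⟩
    · simp only [Pi.inv_apply, Finset.prod_inv_distrib]
      rw [hc, inv_pow]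
    · have := inv_mem (h1 v)
      have e : (fun j => Units.map (algebraMap (RatFunc F)
          (v.adicCompletion (RatFunc F))).toMonoidHom (z⁻¹ j)) =
          (fun j => Units.map (algebraMap (RatFunc F)
            (v.adicCompletion (RatFunc F))).toMonoidHom (z j))⁻¹ := by
        funext j
        simp only [Pi.inv_apply, map_inv]
      rw [LocSel, e]
      exact this
    · have := inv_mem h2
      have e : (fun j => Units.map (algebraMap (RatFunc F)
          (RatFunc.CompletionAtInfty F)).toMonoidHom (z⁻¹ j)) =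
          (fun j => Units.map (algebraMap (RatFunc F)
            (RatFunc.CompletionAtInfty F)).toMonoidHom (z j))⁻¹ := by
        funext j
        simp only [Pi.inv_apply, map_inv]
      rw [LocSel, e]
      exact this

/-- `ℓ`-th powers of nonzero elements. -/
def PowM {M : Type} [Field M] (ℓ : ℕ) (z : M) : Prop := ∃ b : M, b ≠ 0 ∧ z = b ^ ℓ

/-- Units times `ℓ`-th powers. -/
def UnrM (R : Type) {M : Type} [CommRing R] [Field M] [Algebra R M] (ℓ : ℕ) (z : M) : Prop :=
  ∃ (ε : R) (b : M), IsUnit ε ∧ b ≠ 0 ∧ z = algebraMap R M ε * b ^ ℓ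

/-- Torsion classes. -/
def TorM {M : Type} [Field M] {n : ℕ} (a : Fin n → M) (D : M) (w : Fin n → ℤ) (j : Fin n) : M :=
  D ^ w j * ∏ i ∈ Finset.univ.erase j, (a j - a i) ^ (w j - w i)

/-- The local conditions over a complete discretely valued field. -/
def LCond {R : Type} (M : Type) [CommRing R] [Field M] [Algebra R M] (ϖ : R) (ℓ : ℕ) {n : ℕ}
    (a : Fin n → R) (D : R) (z : Fin n → M) : Prop :=
  ∃ w : Fin n → ℤ, ∑ i, w i = 0 ∧
    (∀ j, UnrM R ℓ (z j / TorM (fun i => algebraMap R M (a i)) (algebraMap R M D) w j)) ∧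
    (ϖ ∣ D → ∀ j, PowM ℓ (z j / TorM (fun i => algebraMap R M (a i)) (algebraMap R M D) w j)) ∧
    (∀ j k, j ≠ k → ϖ ∣ a j - a k →
      PowM ℓ ((z j / TorM (fun i => algebraMap R M (a i)) (algebraMap R M D) w j) /
        (z k / TorM (fun i => algebraMap R M (a i)) (algebraMap R M D) w k)))

/-- The hypotheses on the local data: `a j` distinct, at most one pair congruent, exactly to the first order, and then
`D` is a unit; `D` not divisible by `ϖ^2`. -/
structure LHyp {R : Type} [CommRing R] (ϖ : R) {n : ℕ} (a : Fin n → R) (D : R) : Prop where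
  ne : ∀ j k, j ≠ k → a j ≠ a k
  D0 : ¬ ϖ ^ 2 ∣ D
  sq : ∀ j k, j ≠ k → ¬ ϖ ^ 2 ∣ a j - a k
  DP : ∀ j k, j ≠ k → ϖ ∣ a j - a k → ¬ ϖ ∣ D
  uniq : ∀ j k j' k', j ≠ k → j' ≠ k' → ϖ ∣ a j - a k → ϖ ∣ a j' - a k' →
    (j' = j ∧ k' = k) ∨ (j' = k ∧ k' = j)

end

end Pool.Agent.Helper48.ST
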