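import Pool.Agent.Helper48.ST.Dec
import Pool.Agent.Helper48.ST.Defs3
import Pool.Agent.Helper96.PS.CompDVR
import Pool.Agent.Helper96.PS.CBasic

/-!
ST-85. Rational functions which are `ℓ`-th powers, or units times `ℓ`-th powers, in the completion at `P`.

`hL : LData P R M`: `R ⊂ M` is the completion of `F[t] ⊂ F(t)` at `P`, `ϖ = P`. Proof. Write `x = P^k A/B`, `P ∤ A B` (`k = vl P x`, `fp`); the images of `A`, `B` in `R` are units (`hL.inj` with `k = 1`, `CData.isUnit_iff`). If `x = ε b^ℓ`, `b = ε' ϖ^j` (`CData.exists_val`), then `k = ℓ j` (compare the exponents of `ϖ`):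
`br_unr`. If moreover `x = b^ℓ`: `A/B = ε'^ℓ`, i.e. `A = B ε'^ℓ` in `R`; `hL.surj` gives `c ∈ F[t]` with `P ∣ ε' - c` in `R`, so `P ∣ A - B c^ℓ` in `R` and (`hL.inj`) in `F[t]`: `L(A,P) = L(B c^ℓ, P) = L(B,P) + ℓ L(c,P) = L(B,P)` (`L_periodic`, `L_mul_left`, `L_pow`; `P ∤ c` because `P ∤ A`), and
`ch g P x = L(A,P) - L(B,P) = 0` (`ch_mul`, `ch_zpow`, `ch_self`, `ch_poly`).
-/

set_option autoImplicit false

open Polynomial
open scoped Classical
open Pool.Agent.Helper96.PS (CData LData)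

namespace Pool.Agent.Helper48.ST

theorem brfin_unique {R M : Type} [CommRing R] [IsDomain R] [Field M] [Algebra R M] {ϖ : R}
    (hC : CData ϖ M) {ε ε' : R} (hε : IsUnit ε) (hε' : IsUnit ε') {k k' : ℤ}
    (h : algebraMap R M ε * algebraMap R M ϖ ^ k = algebraMap R M ε' * algebraMap R M ϖ ^ k') :
    k = k' := by
  have key : ∀ {δ δ' : R} (_ : IsUnit δ) {m m' : ℤ}, m < m' →
      algebraMap R M δ * algebraMap R M ϖ ^ m = algebraMap R M δ' * algebraMap R M ϖ ^ m' →
      False := by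
    intro δ δ' hδ m m' hlt h
    have := hC.frac
    have hinj : Function.Injective (algebraMap R M) := IsFractionRing.injective R M
    have hp0 : algebraMap R M ϖ ≠ 0 := by
      intro h0
      exact hC.unif.ne_zero (hinj (by rw [h0, map_zero]))
    obtain ⟨n, hn⟩ : ∃ n : ℕ, m' = m + ((n : ℤ) + 1) := ⟨(m' - m - 1).toNat, by omega⟩
    rw [hn, zpow_add₀ hp0, ← mul_assoc, mul_right_comm] at h
    have h1 : algebraMap R M δ = algebraMap R M δ' * algebraMap R M ϖ ^ ((n : ℤ) + 1) :=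
      mul_right_cancel₀ (zpow_ne_zero m hp0) h
    have h2 : ((n : ℤ) + 1) = ((n + 1 : ℕ) : ℤ) := by push_cast; ring
    rw [h2, zpow_natCast, ← map_pow, ← map_mul] at h1
    have h3 : δ = δ' * ϖ ^ (n + 1) := hinj h1
    exact ((hC.isUnit_iff δ).1 hδ) (by rw [h3, pow_succ, ← mul_assoc]; exact dvd_mul_left _ _)
  rcases lt_trichotomy k k' with h1 | h1 | h1
  · exact (key hε h1 h).elim
  · exact h1
  · exact (key hε' h1 h.symm).elim

theorem brfin_fp_eq {F : Type} [Field F] (P : Ir F) (A : F[X]) :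
    P.1 ^ multiplicity P.1 A * fp P A = A := by
  have h := modByMonic_add_div A (P.1 ^ multiplicity P.1 A)
  rw [(modByMonic_eq_zero_iff_dvd (P.2.1.pow _)).2 (pow_multiplicity_dvd P.1 A), zero_add] at h
  exact h

theorem brfin_fp_ndvd {F : Type} [Field F] (P : Ir F) {A : F[X]} (hA : A ≠ 0) :
    ¬ P.1 ∣ fp P A := by
  rintro ⟨C, hC⟩
  have h := brfin_fp_eq P A
  rw [hC, ← mul_assoc, ← pow_succ] at h
  exact (FiniteMultiplicity.of_not_isUnit P.2.2.not_isUnit hA).not_pow_dvd_of_multiplicity_lt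
    (Nat.lt_succ_self _) ⟨C, h.symm⟩

theorem brfin_unit {F : Type} [Field F] (P : Ir F) {R M : Type} [CommRing R] [IsDomain R] [Field M]
    [Algebra R M] [Algebra F[X] R] [Algebra (RatFunc F) M] (hL : LData P.1 R M) {A : F[X]}
    (hA : A ≠ 0) : IsUnit (algebraMap F[X] R (fp P A)) := by
  rw [hL.toCData.isUnit_iff]
  intro h
  have h1 := hL.inj (fp P A) 1 (by rw [pow_one]; exact h)
  rw [pow_one] at h1
  exact brfin_fp_ndvd P hA h1

theorem brfin_eq {F : Type} [Field F] (P : Ir F) {R M : Type} [CommRing R] [IsDomain R] [Field M]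
    [Algebra R M] [Algebra F[X] R] [Algebra (RatFunc F) M] (hL : LData P.1 R M) (x : RatFunc F)
    (hx : x ≠ 0) : algebraMap (RatFunc F) M x * algebraMap R M (algebraMap F[X] R (fp P x.denom)) =
      algebraMap R M (algebraMap F[X] R (fp P x.num)) *
        algebraMap R M (algebraMap F[X] R P.1) ^ vl P x := by
  have hfr := hL.frac
  have hinj : Function.Injective (algebraMap R M) := IsFractionRing.injective R M
  have hp0 : algebraMap R M (algebraMap F[X] R P.1) ≠ 0 := by
    intro h0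
    exact hL.unif.ne_zero (hinj (by rw [h0, map_zero]))
  have hd : x.denom ≠ 0 := RatFunc.denom_ne_zero x
  have hd' : algebraMap F[X] (RatFunc F) x.denom ≠ 0 := RatFunc.algebraMap_ne_zero hd
  have h1 : x * algebraMap F[X] (RatFunc F) x.denom = algebraMap F[X] (RatFunc F) x.num := by
    have h := RatFunc.num_div_denom x
    rw [div_eq_iff hd'] at h
    exact h.symm
  have h2 := congrArg (algebraMap (RatFunc F) M) h1
  rw [map_mul, ← hL.comp, ← hL.comp] at h2
  have h3 := brfin_fp_eq P x.denom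
  have h4 := brfin_fp_eq P x.num
  have h5 : algebraMap R M (algebraMap F[X] R x.denom) =
      algebraMap R M (algebraMap F[X] R P.1) ^ multiplicity P.1 x.denom *
        algebraMap R M (algebraMap F[X] R (fp P x.denom)) := by
    conv_lhs => rw [← h3]
    rw [map_mul, map_mul, map_pow, map_pow]
  have h6 : algebraMap R M (algebraMap F[X] R x.num) =
      algebraMap R M (algebraMap F[X] R P.1) ^ multiplicity P.1 x.num *
        algebraMap R M (algebraMap F[X] R (fp P x.num)) := by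
    conv_lhs => rw [← h4]
    rw [map_mul, map_mul, map_pow, map_pow]
  rw [h5, h6] at h2
  have h7 : algebraMap R M (algebraMap F[X] R P.1) ^ vl P x *
      algebraMap R M (algebraMap F[X] R P.1) ^ multiplicity P.1 x.denom =
      algebraMap R M (algebraMap F[X] R P.1) ^ multiplicity P.1 x.num := by
    rw [← zpow_natCast, ← zpow_natCast, ← zpow_add₀ hp0]
    congr 1
    unfold vl
    ring
  have h8 : algebraMap R M (algebraMap F[X] R P.1) ^ multiplicity P.1 x.denom ≠ 0 :=
    pow_ne_zero _ hp0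
  apply mul_right_cancel₀ h8
  rw [mul_assoc (algebraMap R M (algebraMap F[X] R (fp P x.num))), h7, mul_comm
    (algebraMap R M (algebraMap F[X] R (fp P x.num))), ← h2]
  ring

theorem br_unr {F : Type} [Field F] (P : Ir F) {R M : Type} [CommRing R] [IsDomain R] [Field M]
    [Algebra R M] [Algebra F[X] R] [Algebra (RatFunc F) M] (hL : LData P.1 R M) (ℓ : ℕ)
    (x : RatFunc F) (hx : x ≠ 0) (h : UnrM R ℓ (algebraMap (RatFunc F) M x)) :
    (ℓ : ℤ) ∣ vl P x := by
  obtain ⟨ε, b, hε, hb, hxb⟩ := h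
  obtain ⟨j, ε', hε', hb'⟩ := hL.toCData.exists_val hb
  have h1 := brfin_eq P hL x hx
  have hA := brfin_unit P hL (RatFunc.num_ne_zero hx)
  have hB := brfin_unit P hL (RatFunc.denom_ne_zero x)
  rw [hxb, hb', mul_pow, ← zpow_natCast (algebraMap R M (algebraMap F[X] R P.1) ^ j), ← zpow_mul,
    ← map_pow] at h1
  have h2 : algebraMap R M (ε * ε' ^ ℓ * algebraMap F[X] R (fp P x.denom)) *
      algebraMap R M (algebraMap F[X] R P.1) ^ (j * ℓ) =
      algebraMap R M (algebraMap F[X] R (fp P x.num)) *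
        algebraMap R M (algebraMap F[X] R P.1) ^ vl P x := by
    rw [← h1, map_mul, map_mul]
    ring
  rw [← brfin_unique hL.toCData ((hε.mul (hε'.pow ℓ)).mul hB) hA h2]
  exact dvd_mul_left _ _

theorem br_pow {F : Type} [Field F] {ℓ : ℕ} [Fact ℓ.Prime] (g : Lg F ℓ) (P : Ir F) {R M : Type}
    [CommRing R] [IsDomain R] [Field M] [Algebra R M] [Algebra F[X] R] [Algebra (RatFunc F) M]
    (hL : LData P.1 R M) (x : RatFunc F) (hx : x ≠ 0)
    (h : PowM ℓ (algebraMap (RatFunc F) M x)) : ch g P x = 0 := by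
  obtain ⟨b, hb, hxb⟩ := h
  obtain ⟨j, ε', hε', hb'⟩ := hL.toCData.exists_val hb
  have hfr := hL.frac
  have hinj : Function.Injective (algebraMap R M) := IsFractionRing.injective R M
  have hp0 : algebraMap R M (algebraMap F[X] R P.1) ≠ 0 := by
    intro h0
    exact hL.unif.ne_zero (hinj (by rw [h0, map_zero]))
  have h1 := brfin_eq P hL x hx
  have hA0 := RatFunc.num_ne_zero hx
  have hB0 := RatFunc.denom_ne_zero x
  have hA := brfin_unit P hL hA0
  have hB := brfin_unit P hL hB0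
  rw [hxb, hb', mul_pow, ← zpow_natCast (algebraMap R M (algebraMap F[X] R P.1) ^ j), ← zpow_mul,
    ← map_pow] at h1
  have h2 : algebraMap R M (ε' ^ ℓ * algebraMap F[X] R (fp P x.denom)) *
      algebraMap R M (algebraMap F[X] R P.1) ^ (j * ℓ) =
      algebraMap R M (algebraMap F[X] R (fp P x.num)) *
        algebraMap R M (algebraMap F[X] R P.1) ^ vl P x := by
    rw [← h1, map_mul]
    ring
  have h3 := brfin_unique hL.toCData ((hε'.pow ℓ).mul hB) hA h2
  rw [← h3] at h2
  have h4 : ε' ^ ℓ * algebraMap F[X] R (fp P x.denom) = algebraMap F[X] R (fp P x.num) :=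
    hinj (mul_right_cancel₀ (zpow_ne_zero _ hp0) h2)
  obtain ⟨c, hc⟩ := hL.surj ε' 1
  rw [pow_one] at hc
  have h5 : algebraMap F[X] R P.1 ∣ algebraMap F[X] R (fp P x.num - fp P x.denom * c ^ ℓ) := by
    have h6 : algebraMap F[X] R (fp P x.num - fp P x.denom * c ^ ℓ) =
        (ε' ^ ℓ - (algebraMap F[X] R c) ^ ℓ) * algebraMap F[X] R (fp P x.denom) := by
      rw [map_sub, ← h4, map_mul, map_pow]
      ring
    rw [h6]
    exact (hc.trans (sub_dvd_pow_sub_pow _ _ ℓ)).mul_right _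
  have h6 : P.1 ∣ fp P x.num - fp P x.denom * c ^ ℓ := by
    have h7 := hL.inj (fp P x.num - fp P x.denom * c ^ ℓ) 1 (by rw [pow_one]; exact h5)
    rwa [pow_one] at h7
  have hℓ : ℓ ≠ 0 := (Fact.out : ℓ.Prime).ne_zero
  have hPc : ¬ P.1 ∣ c := by
    intro hd
    have h8 : P.1 ∣ fp P x.denom * c ^ ℓ := (hd.trans (dvd_pow_self c hℓ)).mul_left _
    exact brfin_fp_ndvd P hA0 ((dvd_sub_left h8).1 h6)
  have cop : ∀ {A : F[X]}, ¬ P.1 ∣ A → IsCoprime A P.1 := fun {A} hA =>
    ((P.2.2.coprime_iff_not_dvd).2 hA).symm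
  obtain ⟨C, hC⟩ := h6
  have h7 : fp P x.num = fp P x.denom * c ^ ℓ + P.1 * C := by rw [← hC]; ring
  have h8 : g.L (fp P x.num) P.1 = g.L (fp P x.denom) P.1 := by
    rw [h7, L_periodic g _ _ _ P.2.1, L_mul_left g _ _ P.1 P.2.1 (cop (brfin_fp_ndvd P hB0))
      ((cop hPc).pow_left), L_pow g c P.1 P.2.1 (cop hPc) ℓ, ZMod.natCast_self, zero_mul, add_zero]
  unfold ch
  rw [h8, sub_self]

end Pool.Agent.Helper48.ST
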