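import Pool.Agent.Helper48.ST.Defs3
import Pool.Agent.Helper96.PS.CompVal

/-!
ST-86. The completion at infinity.

Proof. `M = RatFunc.CompletionAtInfty F`, `R = (Valued.v).integer`, `v` extends the valuation `exp (intDegree)` of `F(t)`. `ϖ = 1/X` has valuation `exp (-1)` (`RatFunc.inftyValuation.X_inv`, `Valued.extensionValuation` on the image of `F(t)`), `M` is complete, `cdata_of_valued` of Helper96/PS/CompVal. (2) `ℓ` is a unit in `R`
(`ℓ ≠ 0` in `F`, a constant). (3) If the image of `x ≠ 0` is `ε b^ℓ` then `v(x) = exp (intDegree x) = v(b)^ℓ`, so `ℓ ∣ intDegree x`. (4) If `intDegree x ≤ 0` the image of `x` has valuation `≤ 1`, so it is in `R`. (5) If `intDegree x = 0` it has valuation `1`, while `ϖ ∣ r` gives valuation `≤ exp (-1)`.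
-/

set_option autoImplicit false

open Polynomial
open scoped Classical
open Pool.Agent.Helper96.PS (CData LData)

namespace Pool.Agent.Helper48.ST

theorem exists_cdInf (F : Type) [Field F] (ℓ : ℕ) (hℓ : (ℓ : F) ≠ 0) :
    ∃ (R : Type) (_ : CommRing R) (_ : IsDomain R)
      (_ : Algebra R (RatFunc.CompletionAtInfty F)) (ϖ : R),
      CData ϖ (RatFunc.CompletionAtInfty F) ∧ IsUnit (ℓ : R) ∧
      algebraMap R (RatFunc.CompletionAtInfty F) ϖ =
        algebraMap (RatFunc F) (RatFunc.CompletionAtInfty F) (1 / RatFunc.X) ∧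
      (∀ x : RatFunc F, x ≠ 0 →
        UnrM R ℓ (algebraMap (RatFunc F) (RatFunc.CompletionAtInfty F) x) →
          (ℓ : ℤ) ∣ x.intDegree) ∧
      (∀ x : RatFunc F, x ≠ 0 → x.intDegree ≤ 0 →
        ∃ r : R, algebraMap R (RatFunc.CompletionAtInfty F) r =
          algebraMap (RatFunc F) (RatFunc.CompletionAtInfty F) x) ∧
      (∀ (x : RatFunc F) (r : R), x ≠ 0 → x.intDegree = 0 →
        algebraMap R (RatFunc.CompletionAtInfty F) r =
          algebraMap (RatFunc F) (RatFunc.CompletionAtInfty F) x → ¬ ϖ ∣ r) := by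
  have hext : ∀ a : RatFunc F, (Valued.v (algebraMap (RatFunc F)
      (RatFunc.CompletionAtInfty F) a) : WithZero (Multiplicative ℤ)) = RatFunc.inftyValuation F a := by
    intro a
    rw [RatFunc.valuedCompletionAtInfty.def]
    let := RatFunc.inftyValued F
    exact Valued.extensionValuation_apply_coe (K := RatFunc F) a
  have hcs : CompleteSpace (RatFunc.CompletionAtInfty F) := by
    let := RatFunc.inftyValued F
    exact inferInstanceAs (CompleteSpace (UniformSpace.Completion (RatFunc F)))
  have hext' : ∀ a : RatFunc F, a ≠ 0 → (Valued.v (algebraMap (RatFunc F)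
      (RatFunc.CompletionAtInfty F) a) : WithZero (Multiplicative ℤ)) = WithZero.exp a.intDegree := by
    intro a ha
    rw [hext, RatFunc.inftyValuation_apply, RatFunc.inftyValuation_of_nonzero F ha]
  have hϖ : (Valued.v (algebraMap (RatFunc F) (RatFunc.CompletionAtInfty F) (1 / RatFunc.X)) :
      WithZero (Multiplicative ℤ)) = WithZero.exp (-1 : ℤ) := by
    rw [hext, RatFunc.inftyValuation.X_inv]
  have hle : (Valued.v (algebraMap (RatFunc F) (RatFunc.CompletionAtInfty F) (1 / RatFunc.X)) :
      WithZero (Multiplicative ℤ)) ≤ 1 := by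
    rw [hϖ, ← WithZero.exp_zero, WithZero.exp_le_exp]
    norm_num
  refine ⟨(Valued.v (R := RatFunc.CompletionAtInfty F) (Γ₀ := WithZero (Multiplicative ℤ))).integer, inferInstance,
    inferInstance, inferInstance,
    ⟨algebraMap (RatFunc F) (RatFunc.CompletionAtInfty F) (1 / RatFunc.X), hle⟩,
    Pool.Agent.Helper96.PS.cdata_of_valued _ hϖ, ?_, rfl, ?_, ?_, ?_⟩
  · have h1 := (Valuation.integer.integers (Valued.v (R := RatFunc.CompletionAtInfty F)
      (Γ₀ := WithZero (Multiplicative ℤ)))).isUnit_iff_valuation_eq_one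
      (x := ((ℓ : ℕ) : (Valued.v (R := RatFunc.CompletionAtInfty F) (Γ₀ := WithZero (Multiplicative ℤ))).integer))
    rw [h1, map_natCast]
    have h2 : ((ℓ : ℕ) : RatFunc.CompletionAtInfty F) =
        algebraMap (RatFunc F) (RatFunc.CompletionAtInfty F) (RatFunc.C (ℓ : F)) := by
      rw [map_natCast, map_natCast]
    rw [h2, hext, RatFunc.inftyValuation.C F hℓ]
  · rintro x hx ⟨ε, b, hε, hb, he⟩
    have h1 := (Valuation.integer.integers (Valued.v (R := RatFunc.CompletionAtInfty F)
      (Γ₀ := WithZero (Multiplicative ℤ)))).isUnit_iff_valuation_eq_one (x := ε)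
    have h2 := congrArg (fun y => (Valued.v y : WithZero (Multiplicative ℤ))) he
    simp only [map_mul, map_pow] at h2
    rw [hext' x hx, h1.1 hε, one_mul] at h2
    have hb0 : (Valued.v b : WithZero (Multiplicative ℤ)) ≠ 0 := by
      rw [Valuation.ne_zero_iff]
      exact hb
    rw [← WithZero.exp_log hb0, ← WithZero.exp_nsmul, WithZero.exp_inj] at h2
    exact ⟨WithZero.log (Valued.v b : WithZero (Multiplicative ℤ)), by rw [h2, nsmul_eq_mul]⟩
  · intro x hx hd
    refine ⟨⟨algebraMap (RatFunc F) (RatFunc.CompletionAtInfty F) x, ?_⟩, rfl⟩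
    change (Valued.v (algebraMap (RatFunc F) (RatFunc.CompletionAtInfty F) x) : WithZero (Multiplicative ℤ)) ≤ 1
    rw [hext' x hx, ← WithZero.exp_zero, WithZero.exp_le_exp]
    exact hd
  · rintro x r hx hd hr ⟨c, hc⟩
    have h1 : (Valued.v (algebraMap (Valued.v (R := RatFunc.CompletionAtInfty F)
        (Γ₀ := WithZero (Multiplicative ℤ))).integer (RatFunc.CompletionAtInfty F) r) : WithZero (Multiplicative ℤ)) = 1 := by
      rw [hr, hext' x hx, hd, WithZero.exp_zero]
    rw [hc, map_mul, map_mul] at h1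
    have h2 : (Valued.v (algebraMap (Valued.v (R := RatFunc.CompletionAtInfty F)
        (Γ₀ := WithZero (Multiplicative ℤ))).integer (RatFunc.CompletionAtInfty F) c) : WithZero (Multiplicative ℤ)) ≤ 1 := c.2
    have h3 : (Valued.v (algebraMap (Valued.v (R := RatFunc.CompletionAtInfty F)
        (Γ₀ := WithZero (Multiplicative ℤ))).integer (RatFunc.CompletionAtInfty F)
        ⟨algebraMap (RatFunc F) (RatFunc.CompletionAtInfty F) (1 / RatFunc.X), hle⟩) : WithZero (Multiplicative ℤ)) =
        WithZero.exp (-1 : ℤ) := hϖ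
    rw [h3] at h1
    have h4 : WithZero.exp (-1 : ℤ) * (Valued.v (algebraMap (Valued.v
        (R := RatFunc.CompletionAtInfty F)
        (Γ₀ := WithZero (Multiplicative ℤ))).integer (RatFunc.CompletionAtInfty F) c) : WithZero (Multiplicative ℤ)) ≤ WithZero.exp (-1 : ℤ) :=
      mul_le_of_le_one_right' h2
    rw [h1, ← WithZero.exp_zero, WithZero.exp_le_exp] at h4
    norm_num at h4

end Pool.Agent.Helper48.ST
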