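import Pool.Agent.Helper48.ST.Defs3
import Pool.Agent.Helper96.PS.LD
import Pool.Agent.Helper96.PS.NormMk
import Pool.Agent.Helper96.PS.CBasic

/-!
ST-75. The valuation of a norm from `M[X]/(A)` is divisible by the degree of the irreducible factor of the reduction.

Proof. Choose `k ∈ ℕ` with `ϖ^k B = B₀.map`, `B₀ ∈ R[X]` (finitely many coefficients, `IsFractionRing`, `exists_val`). `N(ϖ^k B) = ϖ^(k m) N(B)` and `m = deg A = r deg h`. `N_{M}(mk (A.map) (B₀.map)) = algebraMap (N_R (mk A B₀))` (`norm_map`, or `norm_mk` and `resultant_map_map`), and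
`exists_norm_eq` of Helper96/PS/LD gives `N_R(mk A B₀) = ε ϖ^(deg h * s')`. So `N(B) = ε ϖ^(deg h * (s' - k r))`.
-/

set_option autoImplicit false

open Polynomial
open scoped Classical
open Pool.Agent.Helper96.PS (CData LData)

namespace Pool.Agent.Helper48.ST

/-- `M[x] = R[x][1/ϖ]` -/
theorem valNB_clear {R M : Type} [CommRing R] [IsDomain R] [Field M] [Algebra R M] {ϖ : R}
    (hC : CData ϖ M) (Q : M[X]) :
    ∃ (k : ℕ) (P : R[X]), P.map (algebraMap R M) = C (algebraMap R M ϖ ^ k) * Q := by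
  have := hC.dvr
  have := hC.frac
  obtain ⟨b, hb, hbQ⟩ := IsLocalization.integerNormalization_spec (nonZeroDivisors R) Q
  obtain ⟨k, u, hu⟩ := IsDiscreteValuationRing.eq_unit_mul_pow_irreducible
    (nonZeroDivisors.ne_zero hb) hC.unif
  refine ⟨k, C ((u⁻¹ : Rˣ) : R) * IsLocalization.integerNormalization (nonZeroDivisors R) Q, ?_⟩
  rw [Polynomial.map_mul, hbQ, map_C]
  have h1 : b • Q = C (algebraMap R M b) * Q := by
    rw [← Polynomial.smul_eq_C_mul, algebraMap_smul]
  rw [h1, ← mul_assoc, ← C_mul, ← map_mul, hu, ← mul_assoc, Units.inv_mul, one_mul, map_pow]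

theorem val_norm {R M : Type} [CommRing R] [IsDomain R] [Field M] [Algebra R M] {ϖ : R}
    (hC : CData ϖ M) (A h : R[X]) (r : ℕ) (hA : A.Monic) (hh : h.Monic)
    (hirr : Irreducible (h.map (Ideal.Quotient.mk (Ideal.span {ϖ}))))
    (hAh : A.map (Ideal.Quotient.mk (Ideal.span {ϖ})) =
      h.map (Ideal.Quotient.mk (Ideal.span {ϖ})) ^ r) (B : M[X])
    (hB : Algebra.norm M (AdjoinRoot.mk (A.map (algebraMap R M)) B) ≠ 0) :
    ∃ (s : ℤ) (ε : R), IsUnit ε ∧
      Algebra.norm M (AdjoinRoot.mk (A.map (algebraMap R M)) B) =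
        algebraMap R M ε * algebraMap R M ϖ ^ ((h.natDegree : ℤ) * s) := by
  have hfrac := hC.frac
  have hinj : Function.Injective (algebraMap R M) := IsFractionRing.injective R M
  have hp0 : algebraMap R M ϖ ≠ 0 := by
    intro h0
    exact hC.unif.ne_zero (hinj (by rw [h0, map_zero]))
  have hmax := hC.isMaximal
  let fld : Field (R ⧸ (Ideal.span {ϖ} : Ideal R)) := Ideal.Quotient.field _
  have hdeg : A.natDegree = h.natDegree * r := by
    have h1 := congrArg natDegree hAh
    rw [hA.natDegree_map, natDegree_pow, hh.natDegree_map] at h1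
    rw [h1, mul_comm]
  obtain ⟨k, P, hP⟩ := valNB_clear hC B
  have hAM : (A.map (algebraMap R M)).Monic := hA.map _
  -- the norm of the integral element
  have h1 : Algebra.norm M (AdjoinRoot.mk (A.map (algebraMap R M)) (P.map (algebraMap R M))) =
      algebraMap R M (Algebra.norm R (AdjoinRoot.mk A P)) := by
    rw [← Pool.Agent.Helper96.PS.norm_map (algebraMap R M) hA]
    congr 1
    unfold AdjoinRoot.map
    rw [AdjoinRoot.lift_mk]
    have h2 : ∀ Q : M[X], AdjoinRoot.mk (A.map (algebraMap R M)) Q =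
        Q.eval₂ (AdjoinRoot.of (A.map (algebraMap R M))) (AdjoinRoot.root _) := by
      intro Q
      rw [← AdjoinRoot.aeval_eq]
      rfl
    rw [h2, eval₂_map]
  have h2 : Algebra.norm M (AdjoinRoot.mk (A.map (algebraMap R M)) (P.map (algebraMap R M))) =
      (algebraMap R M ϖ ^ k) ^ A.natDegree *
        Algebra.norm M (AdjoinRoot.mk (A.map (algebraMap R M)) B) := by
    rw [hP, map_mul, map_mul]
    congr 1
    have h3 : AdjoinRoot.mk (A.map (algebraMap R M)) (C (algebraMap R M ϖ ^ k)) =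
        algebraMap M (AdjoinRoot (A.map (algebraMap R M))) (algebraMap R M ϖ ^ k) := rfl
    rw [h3, Algebra.norm_algebraMap]
    congr 1
    rw [(AdjoinRoot.powerBasis' hAM).finrank, AdjoinRoot.powerBasis'_dim, hA.natDegree_map]
  have h3 : Algebra.norm R (AdjoinRoot.mk A P) ≠ 0 := by
    intro h0
    rw [h0, map_zero] at h1
    rw [h1] at h2
    exact mul_ne_zero (pow_ne_zero _ (pow_ne_zero _ hp0)) hB h2.symm
  obtain ⟨s', ε, hε, hs'⟩ := Pool.Agent.Helper96.PS.exists_norm_eq hC hA hh hirr hAh _ h3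
  refine ⟨(s' : ℤ) - k * r, ε, hε, ?_⟩
  have h4 : (algebraMap R M ϖ ^ k) ^ A.natDegree *
        Algebra.norm M (AdjoinRoot.mk (A.map (algebraMap R M)) B) =
      algebraMap R M ε * algebraMap R M ϖ ^ (h.natDegree * s') := by
    rw [← h2, h1, hs', map_mul, map_pow]
  have h5 : ((algebraMap R M ϖ ^ k) ^ A.natDegree) ≠ 0 := pow_ne_zero _ (pow_ne_zero _ hp0)
  apply mul_left_cancel₀ h5
  rw [h4, hdeg]
  have h6 : (algebraMap R M ϖ ^ k) ^ (h.natDegree * r) =
      algebraMap R M ϖ ^ ((k : ℤ) * (h.natDegree * r)) := by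
    rw [← pow_mul, ← zpow_natCast]
    congr 1
  rw [h6, mul_left_comm, ← zpow_add₀ hp0, ← zpow_natCast]
  congr 2
  push_cast
  ring

end Pool.Agent.Helper48.ST
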