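import Pool.Agent.Helper48.ST.TorsCase
import Pool.Agent.Helper48.ST.ValNB

/-!
ST-78. The local conditions for integral closed points which do not reduce to a point of a congruent pair.

Notation: `A.map (algebraMap R M)` is the polynomial, `Ā = h̄^r`, `m = deg A = r deg h`, bars are reductions mod `ϖ`, `z = zAB`. Proof.
(1) `h̄ = X - ā_i` for some `i` and `ϖ ∤ a_j - a_i` for all `j ≠ i`: `A(a_j) ≡ (a_j - a_i)^m mod ϖ`, a unit, so `tors_case` with `powM_of_congr`.
(2) `h̄ ≠ X - ā_i` for all `i`: `h̄(ā_i) ≠ 0` (a monic irreducible polynomial with the root `ā_i` is `X - ā_i`), so `A(a_i)` is a unit for all `i`.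
 (2a) `ϖ ∤ D`: `D` is a unit. `LCond` with `w = 0`: all `z j` are units; if `ϖ ∣ a_j - a_k` then `A(a_j) ≡ A(a_k)` and the quotient is an `ℓ`-th power (`powM_of_congr`).
 (2b) `ϖ ∣ D`: `D = ϖ * unit` by `L.D0`. `norm_rel`: `N^ℓ = D^m * unit`, and `N = ε ϖ^(deg h * s)` (`val_norm`), so `ℓ * deg h * s = m = r * deg h` and `ℓ ∣ r`, `ℓ ∣ m`. Then `A(a_j) ≡ h(a_j)^r mod ϖ` is an `ℓ`-th power up to a one-unit, and `D^(u m)`, `(-1)^m` are `ℓ`-th powers: all
 `z j` are `ℓ`-th powers: `LCond` with `w = 0`.
-/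

set_option autoImplicit false

open Polynomial
open scoped Classical
open Pool.Agent.Helper96.PS (CData LData)

namespace Pool.Agent.Helper48.ST

section
variable {R M : Type} [CommRing R] [IsDomain R] [Field M] [Algebra R M] {ϖ : R}

theorem casA_lt (hC : CData ϖ M) {ε ε' : R} (hε : IsUnit ε) {k l : ℤ} (hkl : k < l)
    (h : algebraMap R M ε * algebraMap R M ϖ ^ k = algebraMap R M ε' * algebraMap R M ϖ ^ l) :
    False := by
  have := hC.frac
  have hinj : Function.Injective (algebraMap R M) := IsFractionRing.injective R M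
  have hp0 : algebraMap R M ϖ ≠ 0 := by
    intro h0
    exact hC.unif.ne_zero (hinj (by rw [h0, map_zero]))
  obtain ⟨m, hm⟩ := Int.eq_ofNat_of_zero_le (sub_nonneg.2 hkl.le)
  have hl : l = k + (m : ℤ) := by omega
  rw [hl, zpow_add₀ hp0, zpow_natCast] at h
  have h' : algebraMap R M ε = algebraMap R M (ε' * ϖ ^ m) := by
    rw [map_mul, map_pow]
    have hk : algebraMap R M ϖ ^ k ≠ 0 := zpow_ne_zero _ hp0
    apply mul_right_cancel₀ hk
    rw [h]
    ring
  have h'' : ε = ε' * ϖ ^ m := hinj h'
  apply (hC.isUnit_iff ε).1 hε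
  rw [h'']
  exact dvd_mul_of_dvd_right (dvd_pow_self _ (by omega)) _

theorem casA_uniq (hC : CData ϖ M) {ε ε' : R} (hε : IsUnit ε) (hε' : IsUnit ε') {k l : ℤ}
    (h : algebraMap R M ε * algebraMap R M ϖ ^ k = algebraMap R M ε' * algebraMap R M ϖ ^ l) :
    k = l := by
  rcases lt_trichotomy k l with h1 | h1 | h1
  · exact (casA_lt hC hε h1 h).elim
  · exact h1
  · exact (casA_lt hC hε' h1 h.symm).elim

omit [IsDomain R] in
theorem casA_q (A : R[X]) (x : R) :
    Ideal.Quotient.mk (Ideal.span {ϖ}) (A.eval x) =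
      (A.map (Ideal.Quotient.mk (Ideal.span {ϖ}))).eval (Ideal.Quotient.mk (Ideal.span {ϖ}) x) := by
  rw [eval_map, eval₂_at_apply]

omit [IsDomain R] in
theorem casA_dvd (x : R) : ϖ ∣ x ↔ Ideal.Quotient.mk (Ideal.span {ϖ}) x = 0 := by
  rw [Ideal.Quotient.eq_zero_iff_mem, Ideal.mem_span_singleton]

theorem casA_tor {n : ℕ} (a : Fin n → M) (D : M) (j : Fin n) :
    TorM a D (fun _ => 0) j = 1 := by
  simp [TorM]

omit [IsDomain R] in
theorem casA_ev (A : R[X]) (x : R) :
    (A.map (algebraMap R M)).eval (algebraMap R M x) = algebraMap R M (A.eval x) := by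
  rw [eval_map, eval₂_at_apply]

end

theorem case_A {R M : Type} [CommRing R] [IsDomain R] [Field M] [Algebra R M] {ϖ : R}
    (hC : CData ϖ M) {ℓ n u : ℕ} (hℓp : ℓ.Prime) (hodd : Odd ℓ) (hℓ : IsUnit (ℓ : R))
    (hu : n * u ≡ 1 [MOD ℓ]) (a : Fin n → R) (D : R) (L : LHyp ϖ a D) (A : R[X]) (B : M[X])
    (hA : A.Monic) (hA0 : ∀ j, A.eval (a j) ≠ 0)
    (hAB : A.map (algebraMap R M) ∣
      B ^ ℓ - C (algebraMap R M D) * ∏ i, (X - C (algebraMap R M (a i))))
    (h : R[X]) (r : ℕ) (hh : h.Monic)
    (hirr : Irreducible (h.map (Ideal.Quotient.mk (Ideal.span {ϖ}))))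
    (hAh : A.map (Ideal.Quotient.mk (Ideal.span {ϖ})) =
      h.map (Ideal.Quotient.mk (Ideal.span {ϖ})) ^ r)
    (hcase : (∃ i, h.map (Ideal.Quotient.mk (Ideal.span {ϖ})) =
        X - C (Ideal.Quotient.mk (Ideal.span {ϖ}) (a i)) ∧ ∀ j, j ≠ i → ¬ ϖ ∣ a j - a i) ∨
      ∀ i, h.map (Ideal.Quotient.mk (Ideal.span {ϖ})) ≠
        X - C (Ideal.Quotient.mk (Ideal.span {ϖ}) (a i))) :
    LCond M ϖ ℓ a D
      (zAB u (fun i => algebraMap R M (a i)) (algebraMap R M D) (A.map (algebraMap R M))) := by
  have hmax := hC.isMaximal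
  have hfr := hC.frac
  have hinj : Function.Injective (algebraMap R M) := IsFractionRing.injective R M
  let _ : Field (R ⧸ Ideal.span {ϖ}) := Ideal.Quotient.field _
  have hℓ2 : 2 ≤ ℓ := hℓp.two_le
  have hℓ1 : 1 ≤ ℓ := by omega
  have hD : D ≠ 0 := by
    rintro rfl
    exact L.D0 (dvd_zero _)
  have hDM : algebraMap R M D ≠ 0 := fun h0 => hD (hinj (by rw [h0, map_zero]))
  have hA' : (A.map (algebraMap R M)).Monic := hA.map _
  have hdegM : (A.map (algebraMap R M)).natDegree = A.natDegree := hA.natDegree_map _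
  have hA0' : ∀ j, (A.map (algebraMap R M)).eval (algebraMap R M (a j)) ≠ 0 := by
    intro j h0
    rw [casA_ev] at h0
    exact hA0 j (hinj (by rw [h0, map_zero]))
  have hhq : (h.map (Ideal.Quotient.mk (Ideal.span {ϖ}))).Monic := hh.map _
  have hdegA : A.natDegree = r * h.natDegree := by
    have h1 := hA.natDegree_map (Ideal.Quotient.mk (Ideal.span {ϖ}))
    rw [hAh, hhq.natDegree_pow, hh.natDegree_map] at h1
    exact h1.symm
  have hqA : ∀ x, Ideal.Quotient.mk (Ideal.span {ϖ}) (A.eval x) =
      (Ideal.Quotient.mk (Ideal.span {ϖ}) (h.eval x)) ^ r := by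
    intro x
    rw [casA_q, hAh, eval_pow, ← casA_q]
  rcases hcase with ⟨i, hi, hni⟩ | hni
  · -- case (1)
    have hdegh : h.natDegree = 1 := by
      rw [← hh.natDegree_map (Ideal.Quotient.mk (Ideal.span {ϖ})), hi, natDegree_X_sub_C]
    refine tors_case hC hodd hℓ2 hu a D L.ne hD _ B hA' hA0' hAB i fun j hj => ?_
    have hnd : ¬ ϖ ∣ (a j - a i) ^ A.natDegree := by
      rw [casA_dvd, map_pow]
      exact pow_ne_zero _ fun h0 => hni j hj ((casA_dvd _).2 h0)
    have hcongr : ϖ ∣ A.eval (a j) - (a j - a i) ^ A.natDegree := by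
      rw [casA_dvd, map_sub, hqA, map_pow, casA_q, hi, eval_sub, eval_X, eval_C, map_sub, hdegA,
        hdegh, mul_one, sub_self]
    have h1 := powM_of_congr hC hℓ hℓ1 (A.eval (a j)) ((a j - a i) ^ A.natDegree) hnd hcongr
    rw [hdegM, casA_ev]
    rw [map_pow, map_sub] at h1
    exact h1
  · -- case (2)
    have hroot : ∀ i, Ideal.Quotient.mk (Ideal.span {ϖ}) (h.eval (a i)) ≠ 0 := by
      intro i h0
      rw [casA_q] at h0
      have h1 : (X - C (Ideal.Quotient.mk (Ideal.span {ϖ}) (a i))) ∣
          h.map (Ideal.Quotient.mk (Ideal.span {ϖ})) := dvd_iff_isRoot.2 h0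
      have h2 := (irreducible_X_sub_C (Ideal.Quotient.mk (Ideal.span {ϖ}) (a i))).associated_of_dvd
        hirr h1
      exact hni i (eq_of_monic_of_associated (monic_X_sub_C _) hhq h2).symm
    have hAu : ∀ i, IsUnit (A.eval (a i)) := by
      intro i
      rw [hC.isUnit_iff, casA_dvd, hqA]
      exact pow_ne_zero _ (hroot i)
    have hz : ∀ j, zAB u (fun i => algebraMap R M (a i)) (algebraMap R M D)
        (A.map (algebraMap R M)) j =
        algebraMap R M ((-1) ^ A.natDegree * A.eval (a j) * D ^ (u * A.natDegree)) := by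
      intro j
      unfold zAB
      rw [hdegM, casA_ev, map_mul, map_mul, map_pow, map_pow, map_neg, map_one]
    by_cases hϖD : ϖ ∣ D
    · -- case (2b)
      obtain ⟨δ, hδ⟩ := hϖD
      have hδu : IsUnit δ := by
        rw [hC.isUnit_iff]
        rintro ⟨c, hc⟩
        exact L.D0 ⟨c, by rw [hδ, hc]; ring⟩
      have hnr := norm_rel (A.map (algebraMap R M)) B hA' ℓ n (fun i => algebraMap R M (a i))
        (algebraMap R M D) hAB
      set N := Algebra.norm M (AdjoinRoot.mk (A.map (algebraMap R M)) B) with hN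
      have hprod : ∏ j, ((-1) ^ (A.map (algebraMap R M)).natDegree *
          (A.map (algebraMap R M)).eval (algebraMap R M (a j))) =
          algebraMap R M (∏ j, ((-1) ^ A.natDegree * A.eval (a j))) := by
        rw [map_prod]
        refine Finset.prod_congr rfl fun j _ => ?_
        rw [hdegM, casA_ev, map_mul, map_pow, map_neg, map_one]
      have hpu : IsUnit (∏ j, ((-1) ^ A.natDegree * A.eval (a j))) := by
        have h1 : ∀ s : Finset (Fin n), IsUnit (∏ j ∈ s, ((-1) ^ A.natDegree * A.eval (a j))) := by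
          intro s
          induction s using Finset.induction_on with
          | empty => simp
          | insert j s hj ih =>
            rw [Finset.prod_insert hj]
            exact ((isUnit_one.neg.pow _).mul (hAu j)).mul ih
        exact h1 _
      rw [hprod, hdegM] at hnr
      have hrhs : algebraMap R M D ^ A.natDegree *
          algebraMap R M (∏ j, ((-1) ^ A.natDegree * A.eval (a j))) ≠ 0 := by
        apply mul_ne_zero (pow_ne_zero _ hDM)
        exact (hpu.map (algebraMap R M)).ne_zero
      have hN0 : N ≠ 0 := by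
        intro h0
        rw [h0, zero_pow (by omega)] at hnr
        exact hrhs hnr.symm
      obtain ⟨s, ε, hε, hNe⟩ := val_norm hC A h r hA hh hirr hAh B hN0
      rw [← hN] at hNe
      have hp0 : algebraMap R M ϖ ≠ 0 := by
        intro h0
        exact hC.unif.ne_zero (hinj (by rw [h0, map_zero]))
      have hval : algebraMap R M (ε ^ ℓ) * algebraMap R M ϖ ^ ((h.natDegree : ℤ) * s * ℓ) =
          algebraMap R M (δ ^ A.natDegree * ∏ j, ((-1) ^ A.natDegree * A.eval (a j))) *
            algebraMap R M ϖ ^ (A.natDegree : ℤ) := by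
        rw [zpow_mul, zpow_natCast, zpow_natCast, map_pow, ← mul_pow, ← hNe, hnr, hδ, map_mul,
          map_mul, mul_pow, map_pow]
        ring
      have hexp := casA_uniq hC (hε.pow ℓ) ((hδu.pow _).mul hpu) hval
      have hhpos : 0 < h.natDegree := by
        rw [← hh.natDegree_map (Ideal.Quotient.mk (Ideal.span {ϖ}))]
        exact hirr.natDegree_pos
      have hrs : (r : ℤ) = ℓ * s := by
        have h1 : (h.natDegree : ℤ) * (ℓ * s) = (h.natDegree : ℤ) * r := by
          rw [hdegA] at hexp
          push_cast at hexp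
          linarith
        have h2 : (h.natDegree : ℤ) ≠ 0 := by exact_mod_cast hhpos.ne'
        exact (mul_left_cancel₀ h2 h1).symm
      have hℓr : ℓ ∣ r := by
        have : (ℓ : ℤ) ∣ (r : ℤ) := ⟨s, hrs⟩
        exact_mod_cast this
      obtain ⟨t, ht⟩ := hℓr
      have hpowA : ∀ j, PowM ℓ (algebraMap R M (A.eval (a j))) := by
        intro j
        have hnd : ¬ ϖ ∣ h.eval (a j) ^ r := by
          rw [casA_dvd, map_pow]
          exact pow_ne_zero _ (hroot j)
        have hcongr : ϖ ∣ A.eval (a j) - h.eval (a j) ^ r := by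
          rw [casA_dvd, map_sub, hqA, map_pow, sub_self]
        have h1 := powM_of_congr hC hℓ hℓ1 _ _ hnd hcongr
        have hne : algebraMap R M (h.eval (a j)) ≠ 0 := by
          intro h0
          apply hroot j
          rw [← casA_dvd]
          have : h.eval (a j) = 0 := hinj (by rw [h0, map_zero])
          rw [this]
          exact dvd_zero _
        have h2 : PowM ℓ (algebraMap R M (h.eval (a j) ^ r)) := by
          refine ⟨algebraMap R M (h.eval (a j)) ^ t, pow_ne_zero _ hne, ?_⟩
          rw [map_pow, ← pow_mul, ht, mul_comm ℓ t]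
        have h3 := powM_mul h1 h2
        rwa [div_mul_cancel₀] at h3
        rw [map_pow]
        exact pow_ne_zero _ hne
      have hpz : ∀ j, PowM ℓ (zAB u (fun i => algebraMap R M (a i)) (algebraMap R M D)
          (A.map (algebraMap R M)) j) := by
        intro j
        rw [hz j, map_mul, map_mul, map_pow, map_pow, map_neg, map_one]
        refine powM_mul (powM_mul ?_ (hpowA j)) ?_
        · have h1 := powM_neg_one (M := M) hodd
          have h2 := powM_zpow h1 (A.natDegree : ℤ)
          rwa [zpow_natCast] at h2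
        · refine ⟨algebraMap R M D ^ (u * (t * h.natDegree)), pow_ne_zero _ hDM, ?_⟩
          rw [← pow_mul, hdegA, ht]
          congr 1
          ring
      refine ⟨fun _ => 0, by simp, fun j => ?_, fun _ j => ?_, fun j k _ _ => ?_⟩
      · rw [casA_tor, div_one]
        exact unrM_of_powM (hpz j)
      · rw [casA_tor, div_one]
        exact hpz j
      · rw [casA_tor, casA_tor, div_one, div_one]
        exact powM_div (hpz j) (hpz k)
    · -- case (2a)
      have hDu : IsUnit D := (hC.isUnit_iff D).2 hϖD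
      refine ⟨fun _ => 0, by simp, fun j => ?_, fun h0 => absurd h0 hϖD, fun j k _ hjk => ?_⟩
      · rw [casA_tor, div_one, hz j]
        exact unrM_unit (((isUnit_one.neg.pow _).mul (hAu j)).mul (hDu.pow _))
      · rw [casA_tor, casA_tor, div_one, div_one, hz j, hz k]
        have hcongr : ϖ ∣ A.eval (a j) - A.eval (a k) := hjk.trans (sub_dvd_eval_sub _ _ _)
        have h1 := powM_of_congr hC hℓ hℓ1 _ _ ((hC.isUnit_iff _).1 (hAu k)) hcongr
        have h2 : algebraMap R M ((-1) ^ A.natDegree * A.eval (a j) * D ^ (u * A.natDegree)) /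
            algebraMap R M ((-1) ^ A.natDegree * A.eval (a k) * D ^ (u * A.natDegree)) =
            algebraMap R M (A.eval (a j)) / algebraMap R M (A.eval (a k)) := by
          have e1 : algebraMap R M ((-1) ^ A.natDegree) ≠ 0 :=
            ((isUnit_one.neg.pow _).map (algebraMap R M)).ne_zero
          have e2 : algebraMap R M (D ^ (u * A.natDegree)) ≠ 0 :=
            ((hDu.pow _).map (algebraMap R M)).ne_zero
          rw [map_mul, map_mul, map_mul, map_mul, mul_div_mul_right _ _ e2,
            mul_div_mul_left _ _ e1]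
        rw [h2]
        exact h1

end Pool.Agent.Helper48.ST
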