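import Pool.Agent.Helper48.ST.Defs3
import Pool.Agent.Helper96.PS.CBasic
import Pool.Agent.Helper96.PS.Hensel

/-!
ST-72. Irreducible polynomials over a complete discretely valued field: integral, or all values at integral points agree up to one-units.

Proof. `CData.exists_primitive`: `U₀ ∈ R[X]`, `U₀.map = C (ϖ^k) * A`, `Ū₀ ≠ 0` (reduction mod `ϖ`). The leading coefficient of `U₀` is `ϖ^k`, in `R`, so `k ≥ 0`. If `k = 0`, `A = U₀.map` with `U₀` monic: first case. If `k ≥ 1`: `s = deg Ū₀ < m = deg A` (the coefficients of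
`U₀` have degree `≤ m`, the one of `X^m` is `≡ 0`). If `s ≥ 1`: choose `a₀ ∈ R[X]` monic of degree `s` whose reduction is `Ū₀` divided by its leading coefficient, and `b₀ ∈ R` a lift of the leading coefficient: `a₀`, `b₀` are coprime mod `ϖ` (`b₀` is a unit), so
`hensel_factor` gives `U₀ = a b`, `a` monic of degree `s`, `1 ≤ s < m`: contradiction to the irreducibility of `A`. If `s = 0`: `u = U₀(0)` is a unit and all other coefficients of `U₀` are divisible by `ϖ`, so `U₀(c) = u (1 + ϖ r)` for `c ∈ R`: second case, `ε = 1 + ϖ r`.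
-/

set_option autoImplicit false

open Polynomial
open scoped Classical
open Pool.Agent.Helper96.PS (CData LData)

namespace Pool.Agent.Helper48.ST

theorem dich {R M : Type} [CommRing R] [IsDomain R] [Field M] [Algebra R M] {ϖ : R}
    (hC : CData ϖ M) (A : M[X]) (hA : A.Monic) (hirr : Irreducible A) :
    (∃ A₀ : R[X], A₀.Monic ∧ A = A₀.map (algebraMap R M)) ∨
      (A.eval 0 ≠ 0 ∧ ∀ c : R, ∃ ε : R, ϖ ∣ ε - 1 ∧
        A.eval (algebraMap R M c) = A.eval 0 * algebraMap R M ε) := by
  have := hC.dvr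
  have := hC.frac
  have hcompl : IsAdicComplete (Ideal.span {ϖ}) R := hC.compl
  have hinj : Function.Injective (algebraMap R M) := IsFractionRing.injective R M
  have hp0 : algebraMap R M ϖ ≠ 0 := by
    intro h0
    exact hC.unif.ne_zero (hinj (by rw [h0, map_zero]))
  obtain ⟨k, U₀, hU, hbar⟩ := hC.exists_primitive hA.ne_zero
  have hpk : algebraMap R M ϖ ^ k ≠ 0 := zpow_ne_zero _ hp0
  have hdeg : U₀.natDegree = A.natDegree := by
    rw [← natDegree_map_eq_of_injective hinj, hU, natDegree_C_mul hpk]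
  have hm1 : 1 ≤ A.natDegree := hirr.natDegree_pos
  -- the leading coefficient
  have hlc : algebraMap R M (U₀.coeff A.natDegree) = algebraMap R M ϖ ^ k := by
    rw [← coeff_map, hU, coeff_C_mul, hA.coeff_natDegree, mul_one]
  have hk : 0 ≤ k := by
    by_contra hneg
    push Not at hneg
    obtain ⟨j, hj⟩ : ∃ j : ℕ, k = -((j : ℤ) + 1) := ⟨(-k - 1).toNat, by omega⟩
    have h1 : U₀.coeff A.natDegree * ϖ ^ (j + 1) = 1 := by
      apply hinj
      rw [map_mul, hlc, map_pow, map_one, hj, zpow_neg]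
      have h2 : algebraMap R M ϖ ^ ((j : ℤ) + 1) = algebraMap R M ϖ ^ (j + 1) := by
        rw [← zpow_natCast]
        push_cast
        rfl
      rw [h2]
      exact inv_mul_cancel₀ (pow_ne_zero _ hp0)
    refine hC.unif.not_isUnit (IsUnit.of_mul_eq_one (U₀.coeff A.natDegree * ϖ ^ j) ?_)
    rw [← h1]
    ring
  obtain ⟨j, rfl⟩ := Int.eq_ofNat_of_zero_le hk
  have hlc' : U₀.coeff A.natDegree = ϖ ^ j := by
    apply hinj
    rw [hlc, map_pow]
    exact zpow_natCast _ _
  have hU' : U₀.map (algebraMap R M) = C (algebraMap R M ϖ ^ j) * A := by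
    rw [hU, zpow_natCast]
  have hpj : algebraMap R M ϖ ^ j ≠ 0 := pow_ne_zero _ hp0
  rcases Nat.eq_zero_or_pos j with hj0 | hj0
  · left
    refine ⟨U₀, ?_, ?_⟩
    · rw [Monic, leadingCoeff, hdeg, hlc', hj0, pow_zero]
    · rw [hU', hj0, pow_zero, C_1, one_mul]
  -- `ϖ` divides the leading coefficient
  have hmax : (Ideal.span {ϖ} : Ideal R).IsMaximal := hC.isMaximal
  obtain ⟨s, hs⟩ : ∃ s : ℕ, s = (U₀.map (Ideal.Quotient.mk (Ideal.span {ϖ}))).natDegree :=
    ⟨_, rfl⟩
  have hsm : s < A.natDegree := by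
    have h1 : s ≤ A.natDegree := by
      rw [hs, ← hdeg]
      exact natDegree_map_le
    rcases Nat.lt_or_eq_of_le h1 with h2 | h2
    · exact h2
    · exfalso
      have h3 := leadingCoeff_ne_zero.2 hbar
      rw [leadingCoeff, ← hs, h2, coeff_map, hlc'] at h3
      apply h3
      rw [Ideal.Quotient.eq_zero_iff_mem, Ideal.mem_span_singleton]
      exact dvd_pow_self _ (by omega)
  rcases Nat.eq_zero_or_pos s with hs0 | hs0
  · right
    have h1 : U₀.map (Ideal.Quotient.mk (Ideal.span {ϖ})) =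
        C (Ideal.Quotient.mk (Ideal.span {ϖ}) (U₀.coeff 0)) := by
      rw [← coeff_map]
      exact eq_C_of_natDegree_eq_zero (by rw [← hs, hs0])
    have hu : IsUnit (U₀.coeff 0) := by
      rw [hC.isUnit_iff]
      intro hd
      apply hbar
      rw [h1, Ideal.Quotient.eq_zero_iff_mem.2 (Ideal.mem_span_singleton.2 hd), C_0]
    obtain ⟨V, hV⟩ : C ϖ ∣ U₀ - C (U₀.coeff 0) := by
      rw [C_dvd_iff_dvd_coeff]
      intro i
      have h2 := congrArg (fun q => q.coeff i) h1
      simp only [coeff_map] at h2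
      rw [← Ideal.mem_span_singleton, ← Ideal.Quotient.eq_zero_iff_mem, coeff_sub, map_sub, h2,
        coeff_C, coeff_C]
      split_ifs
      · exact sub_self _
      · rw [map_zero, sub_zero]
    have hev : ∀ c : R, U₀.eval c = U₀.coeff 0 + ϖ * V.eval c := by
      intro c
      have h2 := congrArg (fun q => q.eval c) hV
      simp only [eval_sub, eval_C, eval_mul] at h2
      rw [← h2]
      ring
    have hAev : ∀ c : R, algebraMap R M ϖ ^ j * A.eval (algebraMap R M c) =
        algebraMap R M (U₀.eval c) := by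
      intro c
      have h2 := congrArg (fun q => q.eval (algebraMap R M c)) hU'
      simp only [eval_mul, eval_C, eval_map_algebraMap, aeval_algebraMap_apply, coe_aeval_eq_eval] at h2
      exact h2.symm
    have hA0 : algebraMap R M ϖ ^ j * A.eval 0 = algebraMap R M (U₀.coeff 0) := by
      have h2 := hAev 0
      rw [map_zero, ← coeff_zero_eq_eval_zero U₀] at h2
      exact h2
    obtain ⟨v, hv⟩ := hu
    refine ⟨?_, fun c => ⟨1 + ϖ * (((v⁻¹ : Rˣ) : R) * V.eval c), ?_, ?_⟩⟩
    · intro h0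
      rw [h0, mul_zero] at hA0
      have h3 : U₀.coeff 0 = 0 := hinj (by rw [← hA0, map_zero])
      rw [← hv] at h3
      exact v.ne_zero h3
    · rw [add_sub_cancel_left]
      exact dvd_mul_right _ _
    · apply mul_left_cancel₀ hpj
      rw [hAev c, ← mul_assoc, hA0, ← map_mul, hev c, ← hv]
      congr 1
      have hvv : (v : R) * ((v⁻¹ : Rˣ) : R) = 1 := Units.mul_inv v
      linear_combination (-(ϖ * V.eval c)) * hvv
  · exfalso
    let _ : Field (R ⧸ (Ideal.span {ϖ} : Ideal R)) := Ideal.Quotient.field _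
    obtain ⟨b, hb⟩ := Ideal.Quotient.mk_surjective
      (U₀.map (Ideal.Quotient.mk (Ideal.span {ϖ}))).leadingCoeff
    have hb0 : (Ideal.Quotient.mk (Ideal.span {ϖ}) b) ≠ 0 := by
      rw [hb]
      exact leadingCoeff_ne_zero.2 hbar
    have hmon := monic_mul_leadingCoeff_inv hbar
    have hnd := natDegree_mul_leadingCoeff_inv (U₀.map (Ideal.Quotient.mk (Ideal.span {ϖ}))) hbar
    obtain ⟨a₀, ha₀, ha₀d, ha₀m⟩ := lifts_and_natDegree_eq_and_monic
      ((mem_lifts _).2 (map_surjective (Ideal.Quotient.mk (Ideal.span {ϖ}))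
        Ideal.Quotient.mk_surjective (U₀.map (Ideal.Quotient.mk (Ideal.span {ϖ})) *
          C (U₀.map (Ideal.Quotient.mk (Ideal.span {ϖ}))).leadingCoeff⁻¹))) hmon
    have hcop : IsCoprime (a₀.map (Ideal.Quotient.mk (Ideal.span {ϖ})))
        ((C b : R[X]).map (Ideal.Quotient.mk (Ideal.span {ϖ}))) := by
      refine ⟨0, C ((Ideal.Quotient.mk (Ideal.span {ϖ}) b)⁻¹), ?_⟩
      rw [zero_mul, zero_add, map_C, ← C_mul, inv_mul_cancel₀ hb0, C_1]
    have hP : U₀.map (Ideal.Quotient.mk (Ideal.span {ϖ})) =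
        (a₀ * C b).map (Ideal.Quotient.mk (Ideal.span {ϖ})) := by
      rw [Polynomial.map_mul, ha₀, map_C, hb, mul_assoc, ← C_mul,
        inv_mul_cancel₀ (leadingCoeff_ne_zero.2 hbar), C_1, mul_one]
    obtain ⟨a, b', ham, had, -, -, hab⟩ := Pool.Agent.Helper96.PS.hensel_factor ϖ ha₀m hcop hP
    have hmap := congrArg (fun q : R[X] => q.map (algebraMap R M)) hab
    simp only [Polynomial.map_mul] at hmap
    rw [hU'] at hmap
    have hA' : A = (C ((algebraMap R M ϖ ^ j)⁻¹) * a.map (algebraMap R M)) *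
        b'.map (algebraMap R M) := by
      rw [mul_assoc, ← hmap, ← mul_assoc, ← C_mul, inv_mul_cancel₀ hpj, C_1, one_mul]
    have hd1 : (C ((algebraMap R M ϖ ^ j)⁻¹) * a.map (algebraMap R M)).natDegree = s := by
      rw [natDegree_C_mul (inv_ne_zero hpj), natDegree_map_eq_of_injective hinj, had, ha₀d, hnd,
        hs]
    have hne1 : (C ((algebraMap R M ϖ ^ j)⁻¹) * a.map (algebraMap R M)) ≠ 0 := by
      intro h0
      rw [h0, natDegree_zero] at hd1
      omega
    have hne2 : b'.map (algebraMap R M) ≠ 0 := by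
      intro h0
      rw [h0, mul_zero] at hA'
      exact hA.ne_zero hA'
    have hd2 : A.natDegree = s + (b'.map (algebraMap R M)).natDegree := by
      conv_lhs => rw [hA']
      rw [natDegree_mul hne1 hne2, hd1]
    rcases hirr.isUnit_or_isUnit hA' with h1 | h1
    · have h2 := natDegree_eq_zero_of_isUnit h1
      omega
    · have h2 := natDegree_eq_zero_of_isUnit h1
      omega

end Pool.Agent.Helper48.ST
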