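import Pool.Agent.Helper48.ST.Defs3
import Pool.Agent.Helper96.PS.CBasic
import Pool.Agent.Helper96.PS.Hensel

/-!
ST-73. The reduction of a monic polynomial which is irreducible over `M` is a power of an irreducible polynomial.

Proof. `κ = R/(ϖ)` is a field (`CData.isMaximal`). `Ā` is monic of degree `m ≥ 1`; let `h̄` be a monic irreducible factor, `Ā = h̄^r g`, `h̄ ∤ g`, `r ≥ 1`, `g` monic. Lift `h̄` to a monic `h ∈ R[X]` and `g` to a monic `g₀`. If `deg g ≥ 1` then `hensel_factor` with `a₀ = h^r`, `b₀ = g₀` (coprime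
mod `ϖ`) gives `A = a b`, `a` monic, `1 ≤ deg a = r deg h < m`: over `M` this contradicts irreducibility. So `g = 1`.
-/

set_option autoImplicit false

open Polynomial
open scoped Classical
open Pool.Agent.Helper96.PS (CData LData)

namespace Pool.Agent.Helper48.ST

theorem pure_red {R M : Type} [CommRing R] [IsDomain R] [Field M] [Algebra R M] {ϖ : R}
    (hC : CData ϖ M) (A : R[X]) (hA : A.Monic) (hirr : Irreducible (A.map (algebraMap R M))) :
    ∃ (h : R[X]) (r : ℕ), h.Monic ∧ 1 ≤ r ∧
      Irreducible (h.map (Ideal.Quotient.mk (Ideal.span {ϖ}))) ∧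
      A.map (Ideal.Quotient.mk (Ideal.span {ϖ})) =
        h.map (Ideal.Quotient.mk (Ideal.span {ϖ})) ^ r := by
  have hmax := hC.isMaximal
  have hcompl := hC.compl
  set q : R →+* R ⧸ (Ideal.span {ϖ} : Ideal R) := Ideal.Quotient.mk (Ideal.span {ϖ}) with hq
  let _ : Field (R ⧸ (Ideal.span {ϖ} : Ideal R)) := Ideal.Quotient.field _
  have hqs : Function.Surjective q := Ideal.Quotient.mk_surjective
  have hAq : (A.map q).Monic := hA.map q
  have hm : 1 ≤ A.natDegree := by
    by_contra h0
    have h1 : A.natDegree = 0 := by omega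
    have h2 : A = 1 := (hA.natDegree_eq_zero).1 h1
    rw [h2, Polynomial.map_one] at hirr
    exact not_irreducible_one hirr
  have hnu : ¬ IsUnit (A.map q) := by
    intro hu
    have h1 : (A.map q).natDegree = 0 := natDegree_eq_zero_of_isUnit hu
    rw [hA.natDegree_map] at h1
    omega
  obtain ⟨hb, hbm, hbi, hbd⟩ := exists_monic_irreducible_factor (A.map q) hnu
  have hfin : FiniteMultiplicity hb (A.map q) :=
    finiteMultiplicity_of_degree_pos_of_monic hbi.degree_pos hbm hAq.ne_zero
  obtain ⟨g, hg1, hg2⟩ := hfin.exists_eq_pow_mul_and_not_dvd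
  set r := multiplicity hb (A.map q) with hr
  have hr1 : 1 ≤ r := by
    by_contra h0
    have h1 : r = 0 := by omega
    rw [h1, pow_zero, one_mul] at hg1
    rw [hg1] at hbd
    exact hg2 hbd
  have hgm : g.Monic := (hbm.pow r).of_mul_monic_left (by rw [← hg1]; exact hAq)
  obtain ⟨h, hh1, hh2, hh3⟩ := lifts_and_natDegree_eq_and_monic
    (show hb ∈ lifts q from (mem_lifts _).2 (map_surjective q hqs hb)) hbm
  obtain ⟨g₀, hg3, hg4, hg5⟩ := lifts_and_natDegree_eq_and_monic
    (show g ∈ lifts q from (mem_lifts _).2 (map_surjective q hqs g)) hgm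
  have hbdeg : 0 < hb.natDegree := hbi.natDegree_pos
  have hdeg : A.natDegree = r * hb.natDegree + g.natDegree := by
    rw [← hA.natDegree_map q, hg1, (hbm.pow r).natDegree_mul hgm, hbm.natDegree_pow]
  have hgone : g = 1 := by
    by_contra hne
    have hgd : 1 ≤ g.natDegree := by
      by_contra h0
      exact hne ((hgm.natDegree_eq_zero).1 (by omega))
    obtain ⟨a, b, ha, had, hma, hmb, hAab⟩ := Pool.Agent.Helper96.PS.hensel_factor ϖ
      (P := A) (a₀ := h ^ r) (b₀ := g₀) (hh3.pow r)
      (by
        rw [← hq, Polynomial.map_pow, hh1, hg3]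
        exact (hbi.coprime_iff_not_dvd.2 hg2).pow_left)
      (by rw [← hq, Polynomial.map_mul, Polynomial.map_pow, hh1, hg3, hg1])
    have hbmon : b.Monic := ha.of_mul_monic_left (by rw [← hAab]; exact hA)
    have had2 : a.natDegree = r * hb.natDegree := by
      rw [had, hh3.natDegree_pow, hh2]
    have hdeg2 : A.natDegree = a.natDegree + b.natDegree := by
      rw [hAab, ha.natDegree_mul hbmon]
    rw [hAab, Polynomial.map_mul] at hirr
    rcases hirr.isUnit_or_isUnit rfl with hu | hu
    · have h1 := natDegree_eq_zero_of_isUnit hu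
      rw [ha.natDegree_map] at h1
      have : 0 < r * hb.natDegree := Nat.mul_pos hr1 hbdeg
      omega
    · have h1 := natDegree_eq_zero_of_isUnit hu
      rw [hbmon.natDegree_map] at h1
      omega
  refine ⟨h, r, hh3, hr1, ?_, ?_⟩
  · rw [hh1]
    exact hbi
  · rw [hh1, hg1, hgone, mul_one]

end Pool.Agent.Helper48.ST
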