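import Pool.Agent.Helper48.ST.TorsCase
import Pool.Agent.Helper48.ST.ValNB
import Pool.Agent.Helper48.ST.Dich
import Pool.Agent.Helper48.ST.Pure

/-!
ST-79. The local conditions for closed points which reduce to a point of a congruent pair.

Notation: `Ā = (X - ā_i)^m`, `m = deg A`, `i' ≠ i` with `ϖ ∣ a_i' - a_i`; by `L` `a_i' - a_i = ϖ β`, `β` a unit, `D` is a unit, and `ϖ ∤ a_j - a_i`, `ϖ ∤ a_j - a_i'` for `j ≠ i, i'`. So for `j ≠ i, i'`, `A(a_j) ≡ (a_j - a_i)^m ≡ (a_j - a_i')^m mod ϖ` is a unit. `z = zAB`.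
Proof. Let `A₂ = ϖ^(-m) A(ϖ Y + a_i) ∈ M[Y]`, monic, irreducible (linear change of variable), `A₂(0) = ϖ^(-m) A(a_i)`, `A₂(β) = ϖ^(-m) A(a_i')`. Apply `dich` to `A₂`.
(1) Second case of `dich`: `A(a_i') / A(a_i) = A₂(β)/A₂(0)` is a one-unit, so an `ℓ`-th power. `LCond` with `w = 0`: `z j` is a unit for `j ≠ i, i'`; `z i' / z i` is an `ℓ`-th power and `∏ z j` too (`prod_powM`), so `(z i)^2` is a unit times an `ℓ`-th power, so `z i` and `z i'` are `UnrM` (`ℓ` odd: `z i = ((z i)^2)^((ℓ+1)/2) / (z i)^ℓ`);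
the only congruent pair is `{i, i'}` (`L.uniq`) and `D` is a unit.
(2) `A₂ = A₃.map`, `A₃ ∈ R[X]` monic; `pure_red`: `Ā₃ = h̄₂^r`. (2a) `h̄₂ = X`: `A₃(β) ≡ β^m`, so `A(a_i') = ϖ^m A₃(β) = (a_i' - a_i)^m * one-unit`, and `tors_case` with `i`. (2b) `h̄₂ = X - β̄`: `A₃(0) ≡ (-β)^m`, `A(a_i) = (a_i - a_i')^m * one-unit`, and `tors_case` with `i'`.
(2c) otherwise `A₃(0)`, `A₃(β)` are units. Let `B₂ = B(ϖ Y + a_i)`; then `A₂ ∣ B₂^ℓ - (D ϖ^n) ∏ (Y - (a_j - a_i)/ϖ)`, and `norm_rel` (with `D ϖ^n` and the points `(a_j - a_i)/ϖ`) says `N^ℓ = D^m ϖ^(n m) ∏_j (±A₂((a_j - a_i)/ϖ)) = ± D^m ∏_j A(a_j)`, which has valuation `2 m`, and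
`N` has valuation `deg h₂ * s` (`val_norm` for `A₃`). So `ℓ deg h₂ s = 2 m = 2 r deg h₂`, `ℓ ∣ 2 r`, `ℓ ∣ r` (`ℓ` odd prime). Hence `A₃(0) ≡ h₂(0)^r`, `A₃(β) ≡ h₂(β)^r` are `ℓ`-th powers up to one-units, `A(a_i)/A(a_i')` is an `ℓ`-th power, and `ℓ ∣ m`, so `A(a_i) = ϖ^m * unit` is `UnrM`: `LCond` with `w = 0`.
-/

set_option autoImplicit false

open Polynomial
open scoped Classical
open Pool.Agent.Helper96.PS (CData LData)

namespace Pool.Agent.Helper48.ST

section
variable {R M : Type} [CommRing R] [IsDomain R] [Field M] [Algebra R M] {ϖ : R}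

theorem caseB_inj (hC : CData ϖ M) : Function.Injective (algebraMap R M) := by
  have := hC.frac
  exact IsFractionRing.injective R M

theorem caseB_ne (hC : CData ϖ M) : algebraMap R M ϖ ≠ 0 := by
  intro h
  exact hC.unif.ne_zero (caseB_inj hC (by rw [h, map_zero]))

theorem caseB_unit_ne (hC : CData ϖ M) {e : R} (he : IsUnit e) : algebraMap R M e ≠ 0 := by
  intro h
  have h1 : e = 0 := caseB_inj hC (by rw [h, map_zero])
  rw [h1] at he
  exact not_isUnit_zero he

theorem caseB_val_aux (hC : CData ϖ M) {ε ε' : R} (hε : IsUnit ε) {k l : ℤ} (hkl : k ≤ l)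
    (h : algebraMap R M ε * algebraMap R M ϖ ^ k = algebraMap R M ε' * algebraMap R M ϖ ^ l) :
    k = l := by
  have hp0 := caseB_ne hC
  obtain ⟨m, hm⟩ := Int.eq_ofNat_of_zero_le (sub_nonneg.2 hkl)
  have hl : l = k + (m : ℤ) := by omega
  rw [hl, zpow_add₀ hp0, zpow_natCast] at h
  have h' : algebraMap R M ε = algebraMap R M (ε' * ϖ ^ m) := by
    rw [map_mul, map_pow]
    have hk : algebraMap R M ϖ ^ k ≠ 0 := zpow_ne_zero _ hp0
    apply mul_right_cancel₀ hk
    rw [h]
    ring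
  have h'' : ε = ε' * ϖ ^ m := caseB_inj hC h'
  rcases Nat.eq_zero_or_pos m with h0 | h0
  · subst h0
    omega
  · exfalso
    apply hC.unif.not_isUnit
    refine isUnit_of_dvd_unit ?_ hε
    rw [h'']
    exact dvd_mul_of_dvd_right (dvd_pow_self _ (by omega)) _

theorem caseB_val (hC : CData ϖ M) {ε ε' : R} (hε : IsUnit ε) (hε' : IsUnit ε') {k l : ℤ}
    (h : algebraMap R M ε * algebraMap R M ϖ ^ k = algebraMap R M ε' * algebraMap R M ϖ ^ l) :
    k = l := by
  rcases le_total k l with hkl | hkl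
  · exact caseB_val_aux hC hε hkl h
  · exact (caseB_val_aux hC hε' hkl h.symm).symm

omit [IsDomain R] in
theorem caseB_unrM_pow {ℓ : ℕ} {x : M} (hx : UnrM R ℓ x) (k : ℕ) : UnrM R ℓ (x ^ k) := by
  have := unrM_prod (R := R) (ℓ := ℓ) (Finset.range k) (fun _ => x) (fun _ _ => hx)
  rwa [Finset.prod_const, Finset.card_range] at this

theorem caseB_unrM_ne (hC : CData ϖ M) {ℓ : ℕ} {x : M} (hx : UnrM R ℓ x) : x ≠ 0 := by
  obtain ⟨e, b, he, hb, rfl⟩ := hx
  exact mul_ne_zero (caseB_unit_ne hC he) (pow_ne_zero _ hb)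

/-- An element whose square is a unit times an `ℓ`-th power. -/
theorem caseB_sqrt {ℓ : ℕ} (hodd : Odd ℓ) {x : M} (hx0 : x ≠ 0)
    (hx : UnrM R ℓ (x ^ 2)) : UnrM R ℓ x := by
  obtain ⟨k, hk⟩ := hodd
  have h1 := caseB_unrM_pow hx (k + 1)
  have h2 : PowM ℓ (x ^ ℓ) := ⟨x, hx0, rfl⟩
  have h3 := unrM_mul h1 (unrM_inv (unrM_of_powM (R := R) h2))
  have h4 : (x ^ 2) ^ (k + 1) * (x ^ ℓ)⁻¹ = x := by
    rw [← pow_mul, hk]
    have : 2 * (k + 1) = (2 * k + 1) + 1 := by ring
    rw [this, pow_succ x (2 * k + 1)]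
    field_simp
  rwa [h4] at h3

theorem caseB_torM_zero {n : ℕ} (a : Fin n → M) (D : M) (j : Fin n) :
    TorM a D (fun _ => 0) j = 1 := by
  simp [TorM]

theorem caseB_cong (hC : CData ϖ M) {n : ℕ} {a : Fin n → R} {D : R} (L : LHyp ϖ a D)
    {i i' : Fin n} (hii : i' ≠ i) (hdvd : ϖ ∣ a i' - a i) :
    (∃ β : R, IsUnit β ∧ a i' - a i = ϖ * β) ∧ IsUnit D ∧
      (∀ j, j ≠ i → j ≠ i' → ¬ ϖ ∣ a j - a i ∧ ¬ ϖ ∣ a j - a i') ∧
      (∀ j k, j ≠ k → ϖ ∣ a j - a k → (j = i' ∧ k = i) ∨ (j = i ∧ k = i')) := by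
  refine ⟨?_, ?_, ?_, ?_⟩
  · obtain ⟨β, hβ⟩ := hdvd
    refine ⟨β, ?_, hβ⟩
    rw [hC.isUnit_iff]
    rintro ⟨γ, hγ⟩
    exact L.sq i' i hii ⟨γ, by rw [hβ, hγ]; ring⟩
  · rw [hC.isUnit_iff]
    exact L.DP i' i hii hdvd
  · intro j hj hj'
    constructor
    · intro h
      rcases L.uniq j i i' i hj hii h hdvd with ⟨h1, _⟩ | ⟨h1, _⟩
      · exact hj' h1.symm
      · exact hii h1
    · intro h
      rcases L.uniq j i' i' i hj' hii h hdvd with ⟨h1, _⟩ | ⟨_, h1⟩
      · exact hj' h1.symm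
      · exact hj h1.symm
  · intro j k hjk h
    rcases L.uniq i' i j k hii hjk hdvd h with ⟨h1, h2⟩ | ⟨h1, h2⟩
    · exact Or.inl ⟨h1, h2⟩
    · exact Or.inr ⟨h1, h2⟩

/-- The conclusion if the quotient of the values at the congruent pair is a power. -/
theorem caseB_fin (hC : CData ϖ M) {ℓ n u : ℕ} (hℓp : ℓ.Prime) (hodd : Odd ℓ)
    (hu : n * u ≡ 1 [MOD ℓ]) (a : Fin n → R) (D : R) (L : LHyp ϖ a D) (A : R[X]) (B : M[X])
    (hA : A.Monic) (hA0 : ∀ j, A.eval (a j) ≠ 0)
    (hAB : A.map (algebraMap R M) ∣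
      B ^ ℓ - C (algebraMap R M D) * ∏ i, (X - C (algebraMap R M (a i))))
    (i i' : Fin n) (hii : i' ≠ i) (hdvd : ϖ ∣ a i' - a i)
    (hun : ∀ j, j ≠ i → j ≠ i' → IsUnit (A.eval (a j)))
    (hr : PowM ℓ (algebraMap R M (A.eval (a i')) / algebraMap R M (A.eval (a i)))) :
    LCond M ϖ ℓ a D
      (zAB u (fun i => algebraMap R M (a i)) (algebraMap R M D) (A.map (algebraMap R M))) := by
  have hinj := caseB_inj hC
  obtain ⟨-, hD, -, hpair⟩ := caseB_cong hC L hii hdvd
  have hD0 : algebraMap R M D ≠ 0 := caseB_unit_ne hC hD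
  have hAM : (A.map (algebraMap R M)).Monic := hA.map _
  have hev : ∀ j, (A.map (algebraMap R M)).eval (algebraMap R M (a j)) =
      algebraMap R M (A.eval (a j)) := by
    intro j
    rw [eval_map, eval₂_at_apply]
  have hAM0 : ∀ j, (A.map (algebraMap R M)).eval (algebraMap R M (a j)) ≠ 0 := by
    intro j h
    rw [hev] at h
    exact hA0 j (hinj (by rw [h, map_zero]))
  set z := zAB u (fun i => algebraMap R M (a i)) (algebraMap R M D) (A.map (algebraMap R M))
    with hz
  have hzj : ∀ j, z j = (-1) ^ (A.map (algebraMap R M)).natDegree *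
      algebraMap R M (A.eval (a j)) *
      algebraMap R M D ^ (u * (A.map (algebraMap R M)).natDegree) := by
    intro j
    rw [hz]
    unfold zAB
    rw [hev]
  have hz0 : ∀ j, z j ≠ 0 := by
    intro j
    rw [hzj, ← hev]
    exact mul_ne_zero (mul_ne_zero (pow_ne_zero _ (neg_ne_zero.2 one_ne_zero)) (hAM0 j))
      (pow_ne_zero _ hD0)
  have hprod : PowM ℓ (∏ j, z j) :=
    prod_powM hℓp.two_le hu _ _ hD0 _ B hAM hAM0 hAB
  have hzu : ∀ j, j ≠ i → j ≠ i' → UnrM R ℓ (z j) := by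
    intro j h1 h2
    have h3 := unrM_unit (R := R) (M := M) (ℓ := ℓ)
      (((isUnit_one.neg.pow (A.map (algebraMap R M)).natDegree).mul (hun j h1 h2)).mul
        (hD.pow (u * (A.map (algebraMap R M)).natDegree)))
    rw [hzj]
    convert h3 using 1
    simp
  have hrat : PowM ℓ (z i' / z i) := by
    convert hr using 1
    rw [hzj, hzj]
    have h1 : algebraMap R M (A.eval (a i)) ≠ 0 := by
      rw [← hev]
      exact hAM0 i
    have h2 : algebraMap R M D ^ (u * (A.map (algebraMap R M)).natDegree) ≠ 0 :=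
      pow_ne_zero _ hD0
    have h3 : ((-1 : M)) ^ (A.map (algebraMap R M)).natDegree ≠ 0 :=
      pow_ne_zero _ (neg_ne_zero.2 one_ne_zero)
    rw [mul_div_mul_right _ _ h2, mul_div_mul_left _ _ h3]
  have hsplit : ∏ j, z j = z i ^ 2 * ((z i' / z i) *
      ∏ j ∈ (Finset.univ.erase i).erase i', z j) := by
    rw [← Finset.mul_prod_erase _ _ (Finset.mem_univ i),
      ← Finset.mul_prod_erase _ _ (Finset.mem_erase.2 ⟨hii, Finset.mem_univ i'⟩)]
    have := hz0 i
    field_simp
  have hothers : UnrM R ℓ (∏ j ∈ (Finset.univ.erase i).erase i', z j) := by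
    apply unrM_prod
    intro j hj
    rw [Finset.mem_erase, Finset.mem_erase] at hj
    exact hzu j hj.2.1 hj.1
  have hsq : UnrM R ℓ (z i ^ 2) := by
    have h1 := unrM_mul (unrM_of_powM (R := R) hprod)
      (unrM_inv (unrM_mul (unrM_of_powM (R := R) hrat) hothers))
    have h2 : (z i' / z i) * ∏ j ∈ (Finset.univ.erase i).erase i', z j ≠ 0 :=
      mul_ne_zero (div_ne_zero (hz0 _) (hz0 _)) (caseB_unrM_ne hC hothers)
    rw [hsplit, mul_assoc, mul_inv_cancel₀ h2, mul_one] at h1
    exact h1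
  have hzi : UnrM R ℓ (z i) := caseB_sqrt hodd (hz0 i) hsq
  have hzi' : UnrM R ℓ (z i') := by
    have h1 := unrM_mul (unrM_of_powM (R := R) hrat) hzi
    rwa [div_mul_cancel₀ _ (hz0 i)] at h1
  refine ⟨fun _ => 0, by simp, ?_, ?_, ?_⟩
  · intro j
    rw [caseB_torM_zero, div_one]
    by_cases h1 : j = i
    · rw [h1]; exact hzi
    · by_cases h2 : j = i'
      · rw [h2]; exact hzi'
      · exact hzu j h1 h2
  · intro h
    exact absurd h ((hC.isUnit_iff D).1 hD)
  · intro j k hjk h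
    rw [caseB_torM_zero, caseB_torM_zero, div_one, div_one]
    rcases hpair j k hjk h with ⟨h1, h2⟩ | ⟨h1, h2⟩
    · rw [h1, h2]; exact hrat
    · rw [h1, h2]
      have := powM_inv hrat
      rwa [inv_div] at this

end

section
variable {M : Type} [Field M]

theorem caseB_lin_deg {p : M} (hp : p ≠ 0) (c : M) : (C p * X + C c : M[X]).natDegree = 1 :=
  natDegree_linear hp

theorem caseB_poly_deg {p : M} (hp : p ≠ 0) (c : M) (A : M[X]) :
    (C (p⁻¹ ^ A.natDegree) * A.comp (C p * X + C c)).natDegree = A.natDegree := by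
  rw [natDegree_C_mul (pow_ne_zero _ (inv_ne_zero hp)), natDegree_comp, caseB_lin_deg hp, mul_one]

theorem caseB_poly_monic {p : M} (hp : p ≠ 0) (c : M) (A : M[X]) (hA : A.Monic) :
    (C (p⁻¹ ^ A.natDegree) * A.comp (C p * X + C c)).Monic := by
  unfold Monic
  rw [leadingCoeff_mul, leadingCoeff_C, leadingCoeff_comp (by rw [caseB_lin_deg hp]; exact one_ne_zero),
    leadingCoeff_linear hp, hA.leadingCoeff, one_mul, ← mul_pow, inv_mul_cancel₀ hp, one_pow]

theorem caseB_poly_irr {p : M} (hp : p ≠ 0) (c : M) (A : M[X]) (hA : Irreducible A) :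
    Irreducible (C (p⁻¹ ^ A.natDegree) * A.comp (C p * X + C c)) := by
  have : Invertible p := invertibleOfNonzero hp
  have h1 : IsUnit (C (p⁻¹ ^ A.natDegree)) :=
    isUnit_C.2 (isUnit_iff_ne_zero.2 (pow_ne_zero _ (inv_ne_zero hp)))
  rw [irreducible_isUnit_mul h1]
  have h2 := (MulEquiv.irreducible_iff (algEquivCMulXAddC p c)).2 hA
  rw [algEquivCMulXAddC_apply] at h2
  rw [comp_eq_aeval]
  exact h2

theorem caseB_poly_eval {p : M} (c : M) (A : M[X]) (x : M) :
    (C (p⁻¹ ^ A.natDegree) * A.comp (C p * X + C c)).eval x =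
      p⁻¹ ^ A.natDegree * A.eval (p * x + c) := by
  simp

theorem caseB_poly_dvd {p : M} (hp : p ≠ 0) (c : M) {ℓ n : ℕ} (a : Fin n → M) (D : M) (A B : M[X])
    (hAB : A ∣ B ^ ℓ - C D * ∏ i, (X - C (a i))) :
    C (p⁻¹ ^ A.natDegree) * A.comp (C p * X + C c) ∣
      (B.comp (C p * X + C c)) ^ ℓ - C (D * p ^ n) * ∏ i, (X - C ((a i - c) / p)) := by
  have h1 : IsUnit (C (p⁻¹ ^ A.natDegree)) :=
    isUnit_C.2 (isUnit_iff_ne_zero.2 (pow_ne_zero _ (inv_ne_zero hp)))
  rw [IsUnit.mul_left_dvd h1]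
  obtain ⟨E, hE⟩ := hAB
  refine ⟨E.comp (C p * X + C c), ?_⟩
  rw [← mul_comp, ← hE, sub_comp, mul_comp, pow_comp, C_comp, prod_comp]
  congr 1
  have h2 : ∀ i, (X - C (a i)).comp (C p * X + C c) = C p * (X - C ((a i - c) / p)) := by
    intro i
    have h3 : p * ((a i - c) / p) + c = a i := by
      field_simp
      ring
    have h4 : (C (a i) : M[X]) = C p * C ((a i - c) / p) + C c := by
      rw [← C_mul, ← C_add, h3]
    rw [sub_comp, X_comp, C_comp, h4]
    ring
  rw [Finset.prod_congr rfl fun i _ => h2 i, Finset.prod_mul_distrib, Finset.prod_const,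
    Finset.card_univ, Fintype.card_fin, C_mul, C_pow]
  ring

end

theorem case_B {R M : Type} [CommRing R] [IsDomain R] [Field M] [Algebra R M] {ϖ : R}
    (hC : CData ϖ M) {ℓ n u : ℕ} (hℓp : ℓ.Prime) (hodd : Odd ℓ) (hℓ : IsUnit (ℓ : R))
    (hu : n * u ≡ 1 [MOD ℓ]) (a : Fin n → R) (D : R) (L : LHyp ϖ a D) (A : R[X]) (B : M[X])
    (hA : A.Monic) (hirrA : Irreducible (A.map (algebraMap R M))) (hA0 : ∀ j, A.eval (a j) ≠ 0)
    (hAB : A.map (algebraMap R M) ∣
      B ^ ℓ - C (algebraMap R M D) * ∏ i, (X - C (algebraMap R M (a i))))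
    (i i' : Fin n) (hii : i' ≠ i) (hdvd : ϖ ∣ a i' - a i)
    (hAh : A.map (Ideal.Quotient.mk (Ideal.span {ϖ})) =
      (X - C (Ideal.Quotient.mk (Ideal.span {ϖ}) (a i))) ^ A.natDegree) :
    LCond M ϖ ℓ a D
      (zAB u (fun i => algebraMap R M (a i)) (algebraMap R M D) (A.map (algebraMap R M))) := by
  have hinj := caseB_inj hC
  have hp0 := caseB_ne hC
  obtain ⟨⟨β, hβu, hβ⟩, hD, hoth, -⟩ := caseB_cong hC L hii hdvd
  have hD0 : algebraMap R M D ≠ 0 := caseB_unit_ne hC hD
  have hDR : D ≠ 0 := hD.ne_zero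
  have hmax := hC.isMaximal
  have hnt : Nontrivial (R ⧸ Ideal.span {ϖ}) := Ideal.Quotient.nontrivial_iff.2 hmax.ne_top
  have hprime : Prime ϖ := by
    have := hC.dvr
    exact hC.unif.prime
  have hq : ∀ x : R, Ideal.Quotient.mk (Ideal.span {ϖ}) x = 0 ↔ ϖ ∣ x := by
    intro x
    rw [Ideal.Quotient.eq_zero_iff_mem, Ideal.mem_span_singleton]
  have hqe : ∀ (P : R[X]) (x : R), Ideal.Quotient.mk (Ideal.span {ϖ}) (P.eval x) =
      (P.map (Ideal.Quotient.mk (Ideal.span {ϖ}))).eval (Ideal.Quotient.mk (Ideal.span {ϖ}) x) := by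
    intro P x
    rw [eval_map, eval₂_at_apply]
  have hev : ∀ x, (A.map (algebraMap R M)).eval (algebraMap R M x) =
      algebraMap R M (A.eval x) := by
    intro x
    rw [eval_map, eval₂_at_apply]
  have hAM : (A.map (algebraMap R M)).Monic := hA.map _
  have hAMd : (A.map (algebraMap R M)).natDegree = A.natDegree := hA.natDegree_map _
  have hAM0 : ∀ j, (A.map (algebraMap R M)).eval (algebraMap R M (a j)) ≠ 0 := by
    intro j h
    rw [hev] at h
    exact hA0 j (hinj (by rw [h, map_zero]))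
  -- congruence for the values of `A`
  have hcong : ∀ j, ϖ ∣ A.eval (a j) - (a j - a i) ^ A.natDegree := by
    intro j
    rw [← hq, map_sub, hqe, hAh, eval_pow, eval_sub, eval_X, eval_C, map_pow, map_sub, sub_self]
  have hndvd : ∀ (x : R) (k : ℕ), ¬ ϖ ∣ x → ¬ ϖ ∣ x ^ k := fun x k hx h =>
    hx (hprime.dvd_of_dvd_pow h)
  have hun : ∀ j, j ≠ i → j ≠ i' → IsUnit (A.eval (a j)) := by
    intro j h1 h2
    rw [hC.isUnit_iff]
    intro h
    have h3 := (dvd_sub_right h).1 (hcong j)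
    exact hndvd _ _ (hoth j h1 h2).1 h3
  have hneR : ∀ j k, j ≠ k → algebraMap R M (a j) - algebraMap R M (a k) ≠ 0 := by
    intro j k hjk h
    exact L.ne j k hjk (hinj (sub_eq_zero.1 h))
  set c : M := algebraMap R M (a i) with hc
  set p : M := algebraMap R M ϖ with hp
  set A₂ : M[X] := C (p⁻¹ ^ (A.map (algebraMap R M)).natDegree) *
    (A.map (algebraMap R M)).comp (C p * X + C c) with hA₂
  have hm2 : A₂.Monic := caseB_poly_monic hp0 c _ hAM
  have hi2 : Irreducible A₂ := caseB_poly_irr hp0 c _ hirrA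
  have hd2 : A₂.natDegree = A.natDegree := by rw [hA₂, caseB_poly_deg hp0, hAMd]
  have he2 : ∀ x : M, A₂.eval x = p⁻¹ ^ A.natDegree *
      (A.map (algebraMap R M)).eval (p * x + c) := by
    intro x
    rw [hA₂, caseB_poly_eval, hAMd]
  have he0 : A₂.eval 0 = p⁻¹ ^ A.natDegree * algebraMap R M (A.eval (a i)) := by
    rw [he2, mul_zero, zero_add, hc, hev]
  have heb : A₂.eval (algebraMap R M β) =
      p⁻¹ ^ A.natDegree * algebraMap R M (A.eval (a i')) := by
    rw [he2, hc, hp, ← map_mul, ← map_add, hev, ← hβ, sub_add_cancel]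
  have hpi : p⁻¹ ^ A.natDegree ≠ 0 := pow_ne_zero _ (inv_ne_zero hp0)
  rcases dich hC A₂ hm2 hi2 with ⟨A₃, hm3, h3⟩ | ⟨h4, h5⟩
  · -- integral case
    have he3 : ∀ x : R, A₂.eval (algebraMap R M x) = algebraMap R M (A₃.eval x) := by
      intro x
      rw [h3, eval_map, eval₂_at_apply]
    have hd3 : A₃.natDegree = A.natDegree := by
      rw [← hd2, h3, hm3.natDegree_map]
    have hv0 : algebraMap R M (A.eval (a i)) = p ^ A.natDegree * algebraMap R M (A₃.eval 0) := by
      rw [← he3, map_zero, he0, ← mul_assoc, ← mul_pow, mul_inv_cancel₀ hp0, one_pow, one_mul]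
    have hvb : algebraMap R M (A.eval (a i')) =
        p ^ A.natDegree * algebraMap R M (A₃.eval β) := by
      rw [← he3, heb, ← mul_assoc, ← mul_pow, mul_inv_cancel₀ hp0, one_pow, one_mul]
    obtain ⟨h, r, hhm, hr1, hhi, hhr⟩ := pure_red hC A₃ hm3 (by rw [← h3]; exact hi2)
    have hdeg : A.natDegree = r * h.natDegree := by
      have h6 := congrArg natDegree hhr
      rw [hm3.natDegree_map, (hhm.map _).natDegree_pow, hhm.natDegree_map, hd3] at h6
      exact h6
    have hmon : (h.map (Ideal.Quotient.mk (Ideal.span {ϖ}))).Monic := hhm.map _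
    have hirrX : ∀ x : R, (h.map (Ideal.Quotient.mk (Ideal.span {ϖ}))).eval
        (Ideal.Quotient.mk (Ideal.span {ϖ}) x) = 0 →
        h.map (Ideal.Quotient.mk (Ideal.span {ϖ})) =
          X - C (Ideal.Quotient.mk (Ideal.span {ϖ}) x) := by
      intro x hx
      obtain ⟨g, hg⟩ := dvd_iff_isRoot.2 hx
      have hgm : g.Monic := (monic_X_sub_C _).of_mul_monic_left (by rw [← hg]; exact hmon)
      rcases hhi.isUnit_or_isUnit hg with h6 | h6
      · exact absurd h6 (not_isUnit_X_sub_C _)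
      · rw [hgm.eq_one_of_isUnit h6, mul_one] at hg
        exact hg
    have hpow : ∀ x : R, ¬ ϖ ∣ h.eval x → ℓ ∣ r → PowM ℓ (algebraMap R M (A₃.eval x)) := by
      rintro x hx ⟨r', hr'⟩
      have h6 : ¬ ϖ ∣ h.eval x ^ r := hndvd _ _ hx
      have h7 := powM_of_congr hC hℓ hℓp.one_lt.le (A₃.eval x) (h.eval x ^ r) h6 (by
        rw [← hq, map_sub, hqe, hhr, eval_pow, map_pow, ← hqe, sub_self])
      have h8 : algebraMap R M (h.eval x ^ r) ≠ 0 :=
        caseB_unit_ne hC ((hC.isUnit_iff _).2 h6)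
      have h9 : PowM ℓ (algebraMap R M (h.eval x ^ r)) := by
        refine ⟨algebraMap R M (h.eval x) ^ r', pow_ne_zero _
          (caseB_unit_ne hC ((hC.isUnit_iff _).2 hx)), ?_⟩
        rw [map_pow, ← pow_mul, mul_comm r' ℓ, ← hr']
      have h10 := powM_mul h7 h9
      rwa [div_mul_cancel₀ _ h8] at h10
    have hA3r : ∀ x : R, ϖ ∣ A₃.eval x - h.eval x ^ r := by
      intro x
      rw [← hq, map_sub, hqe, hhr, eval_pow, map_pow, ← hqe, sub_self]
    by_cases hcb : (h.map (Ideal.Quotient.mk (Ideal.span {ϖ}))).eval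
        (Ideal.Quotient.mk (Ideal.span {ϖ}) 0) = 0
    · -- the point `i`
      have h6 := hirrX 0 hcb
      have hd1 : h.natDegree = 1 := by
        rw [← hhm.natDegree_map (Ideal.Quotient.mk (Ideal.span {ϖ})), h6, natDegree_X_sub_C]
      have hrm : r = A.natDegree := by rw [hdeg, hd1, mul_one]
      refine tors_case hC hodd hℓp.two_le hu a D L.ne hDR (A.map (algebraMap R M)) B hAM hAM0
        hAB i fun j hj => ?_
      rw [hAMd, hev]
      by_cases hji : j = i'
      · have h7 : ϖ ∣ A₃.eval β - β ^ A.natDegree := by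
          rw [← hq, map_sub, hqe, hhr, h6, eval_pow, eval_sub, eval_X, eval_C, map_zero,
            sub_zero, map_pow, hrm, sub_self]
        have h8 := powM_of_congr hC hℓ hℓp.one_lt.le _ _
          (hndvd β A.natDegree ((hC.isUnit_iff β).1 hβu)) h7
        rw [hji, hvb, ← map_sub, hβ, map_mul, mul_pow, mul_div_mul_left _ _ (pow_ne_zero _ hp0),
          ← map_pow]
        exact h8
      · rw [← map_sub, ← map_pow]
        exact powM_of_congr hC hℓ hℓp.one_lt.le _ _ (hndvd _ _ (hoth j hj hji).1) (hcong j)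
    by_cases hcb' : (h.map (Ideal.Quotient.mk (Ideal.span {ϖ}))).eval
        (Ideal.Quotient.mk (Ideal.span {ϖ}) β) = 0
    · -- the point `i'`
      have h6 := hirrX β hcb'
      have hd1 : h.natDegree = 1 := by
        rw [← hhm.natDegree_map (Ideal.Quotient.mk (Ideal.span {ϖ})), h6, natDegree_X_sub_C]
      have hrm : r = A.natDegree := by rw [hdeg, hd1, mul_one]
      refine tors_case hC hodd hℓp.two_le hu a D L.ne hDR (A.map (algebraMap R M)) B hAM hAM0
        hAB i' fun j hj => ?_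
      rw [hAMd, hev]
      by_cases hji : j = i
      · have h7 : ϖ ∣ A₃.eval 0 - (-β) ^ A.natDegree := by
          rw [← hq, map_sub, hqe, hhr, h6, eval_pow, eval_sub, eval_X, eval_C, map_zero,
            zero_sub, map_pow, map_neg, hrm, sub_self]
        have h8 := powM_of_congr hC hℓ hℓp.one_lt.le _ _
          (hndvd (-β) A.natDegree ((hC.isUnit_iff _).1 hβu.neg)) h7
        have h9 : a i - a i' = ϖ * (-β) := by
          rw [mul_neg, ← hβ, neg_sub]
        rw [hji, hv0, ← map_sub, h9, map_mul, mul_pow, mul_div_mul_left _ _ (pow_ne_zero _ hp0),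
          ← map_pow]
        exact h8
      · rw [← map_sub, ← map_pow]
        refine powM_of_congr hC hℓ hℓp.one_lt.le _ _ (hndvd _ _ (hoth j hji hj).2) ?_
        have h7 : ϖ ∣ (a j - a i) ^ A.natDegree - (a j - a i') ^ A.natDegree := by
          refine dvd_trans ?_ (sub_dvd_pow_sub_pow _ _ _)
          have h8 : a j - a i - (a j - a i') = a i' - a i := by ring
          rw [h8]
          exact hdvd
        have h8 := dvd_add (hcong j) h7
        rwa [sub_add_sub_cancel] at h8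
    · -- the values are powers
      have hx0 : ¬ ϖ ∣ h.eval 0 := by
        rw [← hq, hqe]
        exact hcb
      have hxb : ¬ ϖ ∣ h.eval β := by
        rw [← hq, hqe]
        exact hcb'
      have hu0 : IsUnit (A₃.eval 0) := by
        rw [hC.isUnit_iff]
        intro h6
        exact hndvd _ r hx0 ((dvd_sub_right h6).1 (hA3r 0))
      have hub : IsUnit (A₃.eval β) := by
        rw [hC.isUnit_iff]
        intro h6
        exact hndvd _ r hxb ((dvd_sub_right h6).1 (hA3r β))
      have hℓr : ℓ ∣ r := by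
        have h6 := norm_rel A₂ _ hm2 ℓ n _ _ (caseB_poly_dvd hp0 c (fun j => algebraMap R M (a j))
          (algebraMap R M D) (A.map (algebraMap R M)) B hAB)
        have h7 : ∀ j, A₂.eval ((algebraMap R M (a j) - c) / p) =
            p⁻¹ ^ A.natDegree * algebraMap R M (A.eval (a j)) := by
          intro j
          have h8 : p * ((algebraMap R M (a j) - c) / p) + c = algebraMap R M (a j) := by
            field_simp
            ring
          rw [he2, h8, hev]
        simp only [h7, hd2] at h6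
        set U : R := D ^ A.natDegree * (((-1) ^ A.natDegree) ^ n * (A₃.eval 0 * (A₃.eval β *
          ∏ j ∈ (Finset.univ.erase i).erase i', A.eval (a j)))) with hU
        have hUu : IsUnit U := by
          refine (hD.pow _).mul (((isUnit_one.neg.pow _).pow _).mul (hu0.mul (hub.mul ?_)))
          refine IsUnit.prod_iff.2 fun j hj => ?_
          rw [Finset.mem_erase, Finset.mem_erase] at hj
          exact hun j hj.2.1 hj.1
        have h9 : (algebraMap R M D * p ^ n) ^ A.natDegree *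
            ∏ j, ((-1) ^ A.natDegree * (p⁻¹ ^ A.natDegree * algebraMap R M (A.eval (a j)))) =
            algebraMap R M U * p ^ (2 * A.natDegree) := by
          rw [Finset.prod_mul_distrib, Finset.prod_mul_distrib, Finset.prod_const,
            Finset.prod_const, Finset.card_univ, Fintype.card_fin,
            ← Finset.mul_prod_erase _ _ (Finset.mem_univ i),
            ← Finset.mul_prod_erase _ _ (Finset.mem_erase.2 ⟨hii, Finset.mem_univ i'⟩),
            hv0, hvb, hU]
          simp only [map_mul, map_pow, map_neg, map_one, map_prod]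
          have h10 : p ^ (n * A.natDegree) * (p⁻¹ ^ A.natDegree) ^ n = 1 := by
            rw [← pow_mul, mul_comm A.natDegree n, ← mul_pow, mul_inv_cancel₀ hp0, one_pow]
          have h11 : (p ^ n) ^ A.natDegree = p ^ (n * A.natDegree) := by rw [← pow_mul]
          have h12 : p ^ (2 * A.natDegree) = p ^ A.natDegree * p ^ A.natDegree := by
            rw [two_mul, pow_add]
          rw [mul_pow, h11, h12]
          linear_combination (algebraMap R M D ^ A.natDegree * ((-1) ^ A.natDegree) ^ n *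
            (p ^ A.natDegree * algebraMap R M (A₃.eval 0) * (p ^ A.natDegree *
              algebraMap R M (A₃.eval β) *
              ∏ j ∈ (Finset.univ.erase i).erase i', algebraMap R M (A.eval (a j))))) * h10
        rw [h9] at h6
        have h13 : Algebra.norm M (AdjoinRoot.mk (A₃.map (algebraMap R M))
            (B.comp (C p * X + C c))) ≠ 0 := by
          intro h14
          rw [h3, h14, zero_pow hℓp.ne_zero] at h6
          exact mul_ne_zero (caseB_unit_ne hC hUu) (pow_ne_zero _ hp0) h6.symm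
        obtain ⟨s, ε, hε, h15⟩ := val_norm hC A₃ h r hm3 hhm hhi hhr _ h13
        rw [h3, h15, mul_pow, ← map_pow, ← zpow_natCast (_ ^ _) ℓ, ← zpow_mul,
          ← zpow_natCast p] at h6
        have h16 := caseB_val hC (hε.pow ℓ) hUu h6
        have hd0 : h.natDegree ≠ 0 := by
          intro h17
          have h18 : (h.map (Ideal.Quotient.mk (Ideal.span {ϖ}))).natDegree = 0 := by
            rw [hhm.natDegree_map, h17]
          rw [hmon.natDegree_eq_zero.1 h18] at hhi
          exact not_irreducible_one hhi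
        have h19 : s * ℓ = 2 * r := by
          have h20 : (h.natDegree : ℤ) ≠ 0 := by exact_mod_cast hd0
          apply mul_left_cancel₀ h20
          rw [← mul_assoc, h16, hdeg]
          push_cast
          ring
        have h21 : (ℓ : ℤ) ∣ ((2 * r : ℕ) : ℤ) := by
          push_cast
          exact ⟨s, by rw [← h19]; ring⟩
        have h22 : ℓ ∣ 2 * r := by exact_mod_cast h21
        exact (Nat.Coprime.dvd_of_dvd_mul_left hodd.coprime_two_right h22)
      refine caseB_fin hC hℓp hodd hu a D L A B hA hA0 hAB i i' hii hdvd hun ?_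
      rw [hv0, hvb, mul_div_mul_left _ _ (pow_ne_zero _ hp0)]
      exact powM_div (hpow β hxb hℓr) (hpow 0 hx0 hℓr)
  · -- all values agree up to one-units
    obtain ⟨ε, hε, h6⟩ := h5 β
    refine caseB_fin hC hℓp hodd hu a D L A B hA hA0 hAB i i' hii hdvd hun ?_
    have h7 : algebraMap R M (A.eval (a i')) / algebraMap R M (A.eval (a i)) =
        algebraMap R M ε := by
      rw [heb, he0] at h6
      have h8 : algebraMap R M (A.eval (a i')) = algebraMap R M (A.eval (a i)) *
          algebraMap R M ε := by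
        rw [mul_assoc] at h6
        exact mul_left_cancel₀ hpi h6
      rw [h8]
      have h9 : algebraMap R M (A.eval (a i)) ≠ 0 := by
        rw [← hev]
        exact hAM0 i
      rw [mul_div_cancel_left₀ _ h9]
    rw [h7]
    exact powM_of_one hC hℓ hℓp.one_lt.le ε hε

end Pool.Agent.Helper48.ST
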