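import Pool.Agent.Helper48.ST.LBasic

/-!
ST-03. Symbols of products over finite sets of irreducible polynomials.

Proof. Induction on the finite sets with ST-02; two different monic irreducible polynomials are coprime; `pr s` and `pr t` are
coprime iff `s` and `t` are disjoint; `A` is coprime to `pr t` iff it is coprime to all members of `t`.
-/

set_option autoImplicit false

open Polynomial
open scoped Classical

namespace Pool.Agent.Helper48.ST

variable {F : Type} [Field F]

theorem pr_monic (s : Finset (Ir F)) : (pr s).Monic :=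
  Polynomial.monic_prod_of_monic s _ fun P _ => P.2.1

theorem natDegree_pr (s : Finset (Ir F)) : (pr s).natDegree = dgs s :=
  Polynomial.natDegree_prod_of_monic s _ fun P _ => P.2.1

theorem lsets_eq_of_dvd {P R : Ir F} (h : P.1 ∣ R.1) : P = R :=
  Subtype.ext (Polynomial.eq_of_monic_of_associated P.2.1 R.2.1
    (P.2.2.associated_of_dvd R.2.2 h))

theorem lsets_pr_empty : pr (∅ : Finset (Ir F)) = 1 := Finset.prod_empty

theorem lsets_pr_insert {P : Ir F} {t : Finset (Ir F)} (h : P ∉ t) :
    pr (insert P t) = P.1 * pr t := Finset.prod_insert h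

theorem ir_coprime {P R : Ir F} (h : P ≠ R) : IsCoprime P.1 R.1 :=
  (P.2.2.coprime_iff_not_dvd).2 fun hd => h (lsets_eq_of_dvd hd)

theorem coprime_pr_iff (A : F[X]) (t : Finset (Ir F)) :
    IsCoprime A (pr t) ↔ ∀ R ∈ t, IsCoprime A R.1 :=
  IsCoprime.prod_right_iff

theorem pr_coprime_iff (s t : Finset (Ir F)) : IsCoprime (pr s) (pr t) ↔ Disjoint s t := by
  rw [coprime_pr_iff, Finset.disjoint_left]
  constructor
  · intro h P hP hP'
    have h1 := h P hP'
    rw [isCoprime_comm, coprime_pr_iff] at h1
    exact P.2.2.not_isUnit (isCoprime_self.1 (h1 P hP))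
  · intro h R hR
    rw [isCoprime_comm, coprime_pr_iff]
    intro P hP
    refine ir_coprime ?_
    rintro rfl
    exact h hP hR

/-- A monic squarefree polynomial is the product of its monic irreducible factors. -/
theorem exists_pr (D : F[X]) (hD : D.Monic) (hs : Squarefree D) : ∃ t : Finset (Ir F), pr t = D := by
  have hD0 : D ≠ 0 := hD.ne_zero
  have hnd := (UniqueFactorizationMonoid.squarefree_iff_nodup_normalizedFactors hD0).1 hs
  have hir : ∀ p ∈ UniqueFactorizationMonoid.normalizedFactors D, p.Monic ∧ Irreducible p := by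
    intro p hp
    have h1 := UniqueFactorizationMonoid.irreducible_of_normalized_factor p hp
    refine ⟨?_, h1⟩
    rw [← UniqueFactorizationMonoid.normalize_normalized_factor p hp]
    exact Polynomial.monic_normalize h1.ne_zero
  refine ⟨(UniqueFactorizationMonoid.normalizedFactors D).toFinset.attach.image
    (fun p => ⟨p.1, hir p.1 (Multiset.mem_toFinset.1 p.2)⟩), ?_⟩
  unfold pr
  rw [Finset.prod_image]
  · have h2 : ∏ x ∈ (UniqueFactorizationMonoid.normalizedFactors D).toFinset.attach, (x : F[X]) =
        ∏ x ∈ (UniqueFactorizationMonoid.normalizedFactors D).toFinset, x :=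
      Finset.prod_attach _ (fun x => x)
    have h3 : ∏ x ∈ (UniqueFactorizationMonoid.normalizedFactors D).toFinset, x =
        (UniqueFactorizationMonoid.normalizedFactors D).prod := by
      rw [Finset.prod, Multiset.toFinset_val, Multiset.dedup_eq_self.2 hnd, Multiset.map_id']
    simp only
    rw [h2, h3, UniqueFactorizationMonoid.prod_normalizedFactors_eq hD0, hD.normalize_eq_self]
  · intro p _ q _ h
    exact Subtype.ext (congrArg (fun x : Ir F => x.1) h)

theorem squarefree_pr (t : Finset (Ir F)) : Squarefree (pr t) := by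
  refine Finset.squarefree_prod_of_pairwise_isCoprime ?_ ?_
  · intro P _ R _ h
    exact (ir_coprime h).isRelPrime
  · intro P _
    exact P.2.2.squarefree

theorem lsets_mem_iff (P : Ir F) (t : Finset (Ir F)) : P ∈ t ↔ P.1 ∣ pr t := by
  constructor
  · intro h
    exact Finset.dvd_prod_of_mem (fun R : Ir F => R.1) h
  · intro h
    obtain ⟨R, hR, hd⟩ := (P.2.2.prime).exists_mem_finset_dvd h
    rw [lsets_eq_of_dvd hd]
    exact hR

theorem pr_injective : Function.Injective (pr : Finset (Ir F) → F[X]) := by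
  intro s t h
  ext P
  rw [lsets_mem_iff, lsets_mem_iff, h]

theorem mem_iff_dvd_pr (P : Ir F) (t : Finset (Ir F)) : P ∈ t ↔ P.1 ∣ pr t :=
  lsets_mem_iff P t

variable {ℓ : ℕ} [Fact ℓ.Prime] (g : Lg F ℓ)

theorem L_pr_right (A : F[X]) (t : Finset (Ir F)) (h : IsCoprime A (pr t)) :
    g.L A (pr t) = ∑ R ∈ t, g.L A R.1 := by
  induction t using Finset.induction_on with
  | empty => rw [lsets_pr_empty, L_one_right, Finset.sum_empty]
  | insert R t hR ih =>
    rw [lsets_pr_insert hR] at h ⊢
    have h1 := IsCoprime.of_mul_right_left h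
    have h2 := IsCoprime.of_mul_right_right h
    rw [L_mul_right g A R.1 (pr t) R.2.1 (pr_monic t) h1 h2, ih h2, Finset.sum_insert hR]

theorem lsets_L_pr_left (B : F[X]) (hB : B.Monic) (s : Finset (Ir F)) (h : IsCoprime (pr s) B) :
    g.L (pr s) B = ∑ P ∈ s, g.L P.1 B := by
  induction s using Finset.induction_on with
  | empty => rw [lsets_pr_empty, L_one_left g B hB, Finset.sum_empty]
  | insert R t hR ih =>
    rw [lsets_pr_insert hR] at h ⊢
    have h1 := IsCoprime.of_mul_left_left h
    have h2 := IsCoprime.of_mul_left_right h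
    rw [L_mul_left g R.1 (pr t) B hB h1 h2, ih h2, Finset.sum_insert hR]

theorem LL_eq (s t : Finset (Ir F)) (h : Disjoint s t) : g.LL s t = g.L (pr s) (pr t) := by
  have h1 := (pr_coprime_iff s t).2 h
  rw [lsets_L_pr_left g (pr t) (pr_monic t) s h1]
  unfold Lg.LL
  refine Finset.sum_congr rfl fun P hP => ?_
  rw [L_pr_right g P.1 t]
  rw [coprime_pr_iff]
  intro R hR
  refine ir_coprime ?_
  rintro rfl
  exact Finset.disjoint_left.1 h hP hR

theorem LL_symm (h2 : ℓ ≠ 2) (s t : Finset (Ir F)) (h : Disjoint s t) : g.LL s t = g.LL t s := by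
  rw [LL_eq g s t h, LL_eq g t s h.symm]
  exact L_symm g h2 _ _ (pr_monic s) (pr_monic t) ((pr_coprime_iff s t).2 h)

theorem L_ir_symm (h2 : ℓ ≠ 2) {P R : Ir F} (h : P ≠ R) : g.L P.1 R.1 = g.L R.1 P.1 :=
  L_symm g h2 _ _ P.2.1 R.2.1 (ir_coprime h)

end Pool.Agent.Helper48.ST
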