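import Pool.Agent.Helper48.ST.Val
import Pool.Agent.Helper48.ST.LSets

/-!
ST-42. The local symbols of rational functions.

Proof. For a nonzero polynomial `A`, `fp P A` is the quotient of `A` by the exact power of the monic polynomial `P`, so `A = P^m * fp P A` and `P ∤ fp P A`, and
`fp P (A B) = fp P A * fp P B`. If `x = A/B` (nonzero polynomials), then `x.num * B = A * x.denom` gives `ch g P x = L (fp P A) P - L (fp P B) P` (`L_mul_left`, `IsCoprime` because `P` is
irreducible). All the rules follow. `ch_poly`: `fp P A = A` if `P ∤ A`, and `denom = 1`, `L 1 P = 0`. `ch_C`: `L_C`. `ch_pr`: `fp P (pr t) = pr (t.erase P)`, product rule.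
-/

set_option autoImplicit false

open Polynomial
open scoped Classical

namespace Pool.Agent.Helper48.ST

variable {F : Type} [Field F] {ℓ : ℕ} [Fact ℓ.Prime] (g : Lg F ℓ)

theorem chR_fm (P : Ir F) {A : F[X]} (hA : A ≠ 0) : FiniteMultiplicity P.1 A :=
  FiniteMultiplicity.of_not_isUnit P.2.2.not_isUnit hA

theorem chR_eq (P : Ir F) (A : F[X]) : P.1 ^ multiplicity P.1 A * fp P A = A := by
  have h := modByMonic_add_div A (P.1 ^ multiplicity P.1 A)
  rw [(modByMonic_eq_zero_iff_dvd (P.2.1.pow _)).2 (pow_multiplicity_dvd P.1 A), zero_add] at h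
  exact h

theorem chR_ndvd (P : Ir F) {A : F[X]} (hA : A ≠ 0) : ¬ P.1 ∣ fp P A := by
  rintro ⟨C, hC⟩
  have h := chR_eq P A
  rw [hC, ← mul_assoc, ← pow_succ] at h
  exact (chR_fm P hA).not_pow_dvd_of_multiplicity_lt (Nat.lt_succ_self _) ⟨C, h.symm⟩

theorem chR_cop (P : Ir F) {A : F[X]} (hA : A ≠ 0) : IsCoprime (fp P A) P.1 :=
  ((P.2.2.coprime_iff_not_dvd).2 (chR_ndvd P hA)).symm

theorem chR_mul (P : Ir F) {A B : F[X]} (hA : A ≠ 0) (hB : B ≠ 0) :
    fp P (A * B) = fp P A * fp P B := by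
  have h := chR_eq P (A * B)
  rw [multiplicity_mul P.2.2.prime (chR_fm P (mul_ne_zero hA hB)), pow_add] at h
  have h2 : P.1 ^ multiplicity P.1 A * P.1 ^ multiplicity P.1 B * (fp P A * fp P B) = A * B := by
    calc _ = (P.1 ^ multiplicity P.1 A * fp P A) * (P.1 ^ multiplicity P.1 B * fp P B) := by ring
      _ = A * B := by rw [chR_eq, chR_eq]
  have h3 : P.1 ^ multiplicity P.1 A * P.1 ^ multiplicity P.1 B ≠ 0 :=
    mul_ne_zero (pow_ne_zero _ P.2.1.ne_zero) (pow_ne_zero _ P.2.1.ne_zero)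
  exact mul_left_cancel₀ h3 (h.trans h2.symm)

theorem chR_fp_of_ndvd (P : Ir F) {A : F[X]} (hA : ¬ P.1 ∣ A) : fp P A = A := by
  have h := chR_eq P A
  rw [multiplicity_eq_zero.2 hA, pow_zero, one_mul] at h
  exact h

theorem chR_one (P : Ir F) : fp P 1 = 1 :=
  chR_fp_of_ndvd P (fun h => P.2.2.not_isUnit (isUnit_of_dvd_one h))

theorem chR_div (P : Ir F) (A B : F[X]) (hA : A ≠ 0) (hB : B ≠ 0) :
    ch g P (algebraMap F[X] (RatFunc F) A / algebraMap F[X] (RatFunc F) B) =
      g.L (fp P A) P.1 - g.L (fp P B) P.1 := by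
  set x : RatFunc F := algebraMap F[X] (RatFunc F) A / algebraMap F[X] (RatFunc F) B with hx
  have hA' : algebraMap F[X] (RatFunc F) A ≠ 0 := RatFunc.algebraMap_ne_zero hA
  have hB' : algebraMap F[X] (RatFunc F) B ≠ 0 := RatFunc.algebraMap_ne_zero hB
  have hx0 : x ≠ 0 := div_ne_zero hA' hB'
  have hn : x.num ≠ 0 := RatFunc.num_ne_zero hx0
  have hd : x.denom ≠ 0 := RatFunc.denom_ne_zero x
  have hd' : algebraMap F[X] (RatFunc F) x.denom ≠ 0 := RatFunc.algebraMap_ne_zero hd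
  have h1 : x.num * B = A * x.denom := by
    apply RatFunc.algebraMap_injective F
    rw [map_mul, map_mul]
    have h2 := RatFunc.num_div_denom x
    rw [hx] at h2
    rw [← hx] at h2
    have h3 : algebraMap F[X] (RatFunc F) x.num / algebraMap F[X] (RatFunc F) x.denom =
        algebraMap F[X] (RatFunc F) A / algebraMap F[X] (RatFunc F) B := h2
    rw [div_eq_div_iff hd' hB'] at h3
    exact h3
  have h2 : g.L (fp P x.num) P.1 + g.L (fp P B) P.1 = g.L (fp P A) P.1 + g.L (fp P x.denom) P.1 := by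
    rw [← L_mul_left g _ _ P.1 P.2.1 (chR_cop P hn) (chR_cop P hB), ← chR_mul P hn hB, h1,
      chR_mul P hA hd, L_mul_left g _ _ P.1 P.2.1 (chR_cop P hA) (chR_cop P hd)]
  unfold ch
  linear_combination h2

theorem ch_mul (P : Ir F) (x y : RatFunc F) (hx : x ≠ 0) (hy : y ≠ 0) :
    ch g P (x * y) = ch g P x + ch g P y := by
  have hx1 := RatFunc.num_ne_zero hx
  have hy1 := RatFunc.num_ne_zero hy
  have hx2 := RatFunc.denom_ne_zero x
  have hy2 := RatFunc.denom_ne_zero y
  have h : x * y = algebraMap F[X] (RatFunc F) (x.num * y.num) /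
      algebraMap F[X] (RatFunc F) (x.denom * y.denom) := by
    rw [map_mul, map_mul, ← div_mul_div_comm, RatFunc.num_div_denom, RatFunc.num_div_denom]
  rw [h, chR_div g P _ _ (mul_ne_zero hx1 hy1) (mul_ne_zero hx2 hy2), chR_mul P hx1 hy1,
    chR_mul P hx2 hy2, L_mul_left g _ _ P.1 P.2.1 (chR_cop P hx1) (chR_cop P hy1),
    L_mul_left g _ _ P.1 P.2.1 (chR_cop P hx2) (chR_cop P hy2)]
  unfold ch
  ring

theorem ch_one (P : Ir F) : ch g P (1 : RatFunc F) = 0 := by
  unfold ch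
  rw [RatFunc.num_one, RatFunc.denom_one, sub_self]

theorem ch_inv (P : Ir F) (x : RatFunc F) (hx : x ≠ 0) : ch g P x⁻¹ = -ch g P x := by
  have h := ch_mul g P x x⁻¹ hx (inv_ne_zero hx)
  rw [mul_inv_cancel₀ hx, ch_one] at h
  linear_combination -h

theorem chR_pow (P : Ir F) (x : RatFunc F) (hx : x ≠ 0) (k : ℕ) :
    ch g P (x ^ k) = (k : ZMod ℓ) * ch g P x := by
  induction k with
  | zero => rw [pow_zero, ch_one]; simp
  | succ k ih =>
    rw [pow_succ, ch_mul g P _ _ (pow_ne_zero k hx) hx, ih]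
    push_cast
    ring

theorem ch_zpow (P : Ir F) (x : RatFunc F) (hx : x ≠ 0) (k : ℤ) :
    ch g P (x ^ k) = (k : ZMod ℓ) * ch g P x := by
  obtain ⟨n, rfl | rfl⟩ := k.eq_nat_or_neg
  · rw [zpow_natCast, chR_pow g P x hx]
    push_cast
    ring
  · rw [zpow_neg, zpow_natCast, ch_inv g P _ (pow_ne_zero n hx), chR_pow g P x hx]
    push_cast
    ring

theorem ch_prod (P : Ir F) {ι : Type} (s : Finset ι) (f : ι → RatFunc F) (hf : ∀ i ∈ s, f i ≠ 0) :
    ch g P (∏ i ∈ s, f i) = ∑ i ∈ s, ch g P (f i) := by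
  induction s using Finset.induction_on with
  | empty => rw [Finset.prod_empty, Finset.sum_empty, ch_one]
  | insert a s ha ih =>
    have h1 : ∀ i ∈ s, f i ≠ 0 := fun i hi => hf i (Finset.mem_insert_of_mem hi)
    rw [Finset.prod_insert ha, Finset.sum_insert ha,
      ch_mul g P _ _ (hf a (Finset.mem_insert_self a s)) (Finset.prod_ne_zero_iff.2 h1), ih h1]

theorem ch_poly (P : Ir F) (A : F[X]) (hA : ¬ P.1 ∣ A) :
    ch g P (algebraMap F[X] (RatFunc F) A) = g.L A P.1 := by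
  have hA0 : A ≠ 0 := by
    rintro rfl
    exact hA (dvd_zero _)
  have h := chR_div g P A 1 hA0 one_ne_zero
  rw [map_one, div_one, chR_one, L_one_left g P.1 P.2.1, sub_zero, chR_fp_of_ndvd P hA] at h
  exact h

theorem ch_C (P : Ir F) (c : F) (hc : c ≠ 0) :
    ch g P (algebraMap F[X] (RatFunc F) (C c)) = (P.1.natDegree : ZMod ℓ) * g.toFun c := by
  rw [ch_poly g P (C c), L_C g c hc P.1 P.2.1]
  intro h
  exact P.2.2.not_isUnit (isUnit_of_dvd_unit h (isUnit_C.2 (isUnit_iff_ne_zero.2 hc)))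

theorem ch_self (P : Ir F) : ch g P (algebraMap F[X] (RatFunc F) P.1) = 0 := by
  have h := chR_div g P P.1 1 P.2.1.ne_zero one_ne_zero
  have h1 : fp P P.1 = 1 := by
    have h2 := chR_eq P P.1
    rw [multiplicity_self, pow_one] at h2
    exact mul_left_cancel₀ P.2.1.ne_zero (h2.trans (mul_one _).symm)
  rw [map_one, div_one, chR_one, h1, sub_self] at h
  exact h

theorem ch_pr (P : Ir F) (t : Finset (Ir F)) :
    ch g P (algebraMap F[X] (RatFunc F) (pr t)) = ∑ R ∈ t.erase P, g.L R.1 P.1 := by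
  have key : ∀ s : Finset (Ir F), P ∉ s →
      ch g P (algebraMap F[X] (RatFunc F) (pr s)) = ∑ R ∈ s, g.L R.1 P.1 := by
    intro s hs
    have h1 : ¬ P.1 ∣ pr s := fun h => hs ((mem_iff_dvd_pr P s).2 h)
    rw [ch_poly g P _ h1, lsets_L_pr_left g P.1 P.2.1 s
      ((P.2.2.coprime_iff_not_dvd).2 h1).symm]
  by_cases hP : P ∈ t
  · have h1 : pr t = P.1 * pr (t.erase P) := by
      rw [← lsets_pr_insert (Finset.notMem_erase P t), Finset.insert_erase hP]
    rw [h1, map_mul, ch_mul g P _ _ (RatFunc.algebraMap_ne_zero P.2.1.ne_zero)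
      (RatFunc.algebraMap_ne_zero (pr_monic _).ne_zero), ch_self, zero_add,
      key _ (Finset.notMem_erase P t)]
  · rw [key t hP, Finset.erase_eq_of_notMem hP]

end Pool.Agent.Helper48.ST
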