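import Pool.Agent.Helper48.ST.LBasic

/-!
ST-04. The symbol modulo a monic irreducible polynomial is surjective.

Proof. Let `k = AdjoinRoot P` (finite field with `q ^ d` elements, `d = deg P`), `θ` the root. For `A : F[X]` the resultant
`Res(P, A)` is `∏_{P(β) = 0} A(β)` over the algebraic closure (`resultant_eq_prod_eval`, `P` splits there) and the roots of `P`
are the conjugates `θ^(q^i)`, `i < d`, so `Res(P, A) = Norm_{k/F}(A(θ)) = A(θ)^((q^d - 1)/(q - 1))`
(`FiniteField`/`Algebra.norm_eq_prod_embeddings`, `P` is separable). `kˣ` is cyclic of order `q^d - 1`, so for a generator `A(θ)` the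
norm has order `q - 1`: the norm `kˣ → Fˣ` is surjective. Now use `g.surj'`: pick `a ≠ 0` with `g a = c` and `A` with
`Res(P, A) = a`; then `A` is coprime to `P` because the resultant is not zero (`resultant_eq_zero_iff`).
-/

set_option autoImplicit false

open Polynomial
open scoped Classical

namespace Pool.Agent.Helper48.ST

/-- The resultant with a monic irreducible polynomial is a norm. -/
theorem lsurj_resultant_eq_norm {F : Type} [Field F] [Finite F] (P : F[X]) (hP : P.Monic) [hI : Fact (Irreducible P)]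
    (A : F[X]) : resultant P A = Algebra.norm F (AdjoinRoot.mk P A) := by
  have hP0 : P ≠ 0 := hP.ne_zero
  have hirr : Irreducible P := hI.out
  set Ω := AlgebraicClosure F with hΩ
  set pb : PowerBasis F (AdjoinRoot P) := AdjoinRoot.powerBasis hP0 with hpb
  have : FiniteDimensional F (AdjoinRoot P) := pb.finite
  have hgen : pb.gen = AdjoinRoot.root P := AdjoinRoot.powerBasis_gen hP0
  have hmin : minpoly F pb.gen = P := by
    rw [hpb]
    exact AdjoinRoot.minpoly_powerBasis_gen_of_monic hP
  have hsep : P.Separable := PerfectField.separable_of_irreducible hirr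
  apply (algebraMap F Ω).injective
  have hsplit : (P.map (algebraMap F Ω)).Splits := IsAlgClosed.splits _
  have h1 : algebraMap F Ω (resultant P A) = ((P.map (algebraMap F Ω)).roots.map fun x => aeval x A).prod := by
    rw [← resultant_map_map]
    have h2 := resultant_eq_prod_eval (P.map (algebraMap F Ω)) (A.map (algebraMap F Ω)) A.natDegree
      natDegree_map_le hsplit
    rw [natDegree_map] at h2
    rw [h2, (hP.map _).leadingCoeff, one_pow, one_mul]
    congr 1
    refine Multiset.map_congr rfl fun x _ => ?_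
    rw [eval_map_algebraMap]
  rw [h1, Algebra.norm_eq_prod_embeddings F Ω]
  have h3 : ∀ σ : AdjoinRoot P →ₐ[F] Ω, σ (AdjoinRoot.mk P A) = aeval (σ pb.gen) A := by
    intro σ
    rw [hgen, aeval_algHom_apply, AdjoinRoot.aeval_eq]
  have h4 : ∏ σ : AdjoinRoot P →ₐ[F] Ω, σ (AdjoinRoot.mk P A) =
      ∏ x : {y : Ω // y ∈ (minpoly F pb.gen).aroots Ω}, aeval (x : Ω) A := by
    refine Fintype.prod_equiv pb.liftEquiv' _ _ fun σ => ?_
    rw [h3 σ]
    rfl
  rw [h4]
  rw [Finset.prod_mem_multiset _ _ (fun x : Ω => aeval x A) (fun _ => rfl), Finset.prod_eq_multiset_prod,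
    Multiset.toFinset_val, Multiset.dedup_eq_self.mpr, aroots_def, hmin]
  rw [aroots_def, hmin]
  exact nodup_roots hsep.map

theorem L_surj {F : Type} [Field F] [Fintype F] {ℓ : ℕ} [Fact ℓ.Prime] (g : Lg F ℓ) (P : Ir F)
    (c : ZMod ℓ) : ∃ A : F[X], IsCoprime A P.1 ∧ g.L A P.1 = c := by
  obtain ⟨a, ha, hga⟩ := g.surj' c
  have : Fact (Irreducible P.1) := ⟨P.2.2⟩
  have : FiniteDimensional F (AdjoinRoot P.1) := (AdjoinRoot.powerBasis P.2.1.ne_zero).finite
  have : Finite (AdjoinRoot P.1) := Module.finite_of_finite F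
  obtain ⟨x, hx⟩ := FiniteField.norm_surjective F (AdjoinRoot P.1) a
  obtain ⟨A, rfl⟩ := AdjoinRoot.mk_surjective x
  refine ⟨A, ?_, ?_⟩
  · rw [isCoprime_comm, P.2.2.coprime_iff_not_dvd]
    intro hd
    rw [AdjoinRoot.mk_eq_zero.mpr hd, Algebra.norm_zero] at hx
    exact ha hx.symm
  · unfold Lg.L
    rw [lsurj_resultant_eq_norm P.1 P.2.1 A, hx, hga]

end Pool.Agent.Helper48.ST
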