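import Pool.Agent.Helper48.ST.LSets
import Pool.Agent.Helper48.ST.LSurj

/-!
ST-05. The characters `g.chi c R`.

Proof. Multiplicativity: `IsCoprime (A * B) (pr R) ↔ IsCoprime A (pr R) ∧ IsCoprime B (pr R)` and ST-02 for each `P ∈ R`.
Periodicity: `IsCoprime (A + pr R * B) (pr R) ↔ IsCoprime A (pr R)`, and `L_periodic` with `P ∣ pr R`.
Non-trivial: let `P ∈ R`, `c P ≠ 0`; by ST-04 there is `A₀` coprime to `P` with `c P * L(A₀, P) ≠ 0`; by the Chinese remainder
theorem (`P` and `∏_{R \ P}` are coprime) there is `A ≡ A₀ mod P`, `A ≡ 1` modulo the other members of `R`; then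
`chi c R A = e (c P * L(A₀,P)) ≠ 1` (`ZMod.stdAddChar` is injective, `ZMod.injective_stdAddChar`).
Sum over monic polynomials of degree `m ≥ dgs R =: r`: multiplication by the element `A` above. The map
`B ↦ B'` with `B' ≡ A B mod pr R` permutes the monic polynomials of degree `m`: write `B = X^(m-r) * pr R + (rest of degree < m)`; more
simply: for a residue `x` mod `pr R` the number of `B ∈ Mon F m` with residue `x` is `q^(m-r)` for every `x`, so the sum is
`q^(m-r) * ∑_x chi x`, and `∑_x chi x = 0` as multiplication by `A` permutes the residues. (One may use the bijection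
`(Q, x) ↦ Q * pr R + x`, `Q ∈ Mon F (m - r)`, `x` of degree `< r`, from division with remainder.)
-/

set_option autoImplicit false

open Polynomial
open scoped Classical

namespace Pool.Agent.Helper48.ST

variable {F : Type} [Field F] {ℓ : ℕ} [Fact ℓ.Prime] (g : Lg F ℓ)

theorem chi_mul (c : Ir F → ZMod ℓ) (R : Finset (Ir F)) (A B : F[X]) :
    g.chi c R (A * B) = g.chi c R A * g.chi c R B := by
  unfold Lg.chi
  by_cases hA : IsCoprime A (pr R)
  · by_cases hB : IsCoprime B (pr R)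
    · rw [if_pos (hA.mul_left hB), if_pos hA, if_pos hB, ← e_add, ← Finset.sum_add_distrib]
      congr 1
      refine Finset.sum_congr rfl fun P hP => ?_
      rw [L_mul_left g A B P.1 P.2.1 ((coprime_pr_iff A R).1 hA P hP)
        ((coprime_pr_iff B R).1 hB P hP), mul_add]
    · rw [if_neg (fun h => hB (IsCoprime.mul_left_iff.1 h).2), if_neg hB, mul_zero]
  · rw [if_neg (fun h => hA (IsCoprime.mul_left_iff.1 h).1), if_neg hA, zero_mul]

theorem chi_one (c : Ir F → ZMod ℓ) (R : Finset (Ir F)) : g.chi c R 1 = 1 := by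
  unfold Lg.chi
  rw [if_pos isCoprime_one_left]
  have h : ∑ P ∈ R, c P * g.L 1 P.1 = 0 :=
    Finset.sum_eq_zero fun P _ => by rw [L_one_left g P.1 P.2.1, mul_zero]
  rw [h, e_zero]

theorem norm_chi_le (c : Ir F → ZMod ℓ) (R : Finset (Ir F)) (A : F[X]) : ‖g.chi c R A‖ ≤ 1 := by
  unfold Lg.chi
  split_ifs
  · rw [norm_e]
  · simp

/-- The square of a character. -/
theorem chi_sq (c : Ir F → ZMod ℓ) (R : Finset (Ir F)) (A : F[X]) :
    g.chi c R A ^ 2 = g.chi (fun P => 2 * c P) R A := by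
  unfold Lg.chi
  split_ifs
  · rw [sq, ← e_add, ← Finset.sum_add_distrib]
    congr 1
    refine Finset.sum_congr rfl fun P _ => ?_
    ring
  · simp

theorem chi_periodic (c : Ir F → ZMod ℓ) (R : Finset (Ir F)) (A B : F[X]) :
    g.chi c R (A + pr R * B) = g.chi c R A := by
  unfold Lg.chi
  have h1 : IsCoprime (A + pr R * B) (pr R) ↔ IsCoprime A (pr R) :=
    IsCoprime.add_mul_left_left_iff
  have h2 : ∑ P ∈ R, c P * g.L (A + pr R * B) P.1 = ∑ P ∈ R, c P * g.L A P.1 := by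
    refine Finset.sum_congr rfl fun P hP => ?_
    obtain ⟨C, hC⟩ := (mem_iff_dvd_pr P R).1 hP
    rw [hC, mul_assoc, L_periodic g A P.1 (C * B) P.2.1]
  rw [h2]
  by_cases h : IsCoprime A (pr R)
  · rw [if_pos h, if_pos (h1.2 h)]
  · rw [if_neg h, if_neg (fun h' => h (h1.1 h'))]

theorem chi_exists_ne_one [Fintype F] (c : Ir F → ZMod ℓ) (R : Finset (Ir F))
    (hc : ∃ P ∈ R, c P ≠ 0) : ∃ A : F[X], IsCoprime A (pr R) ∧ g.chi c R A ≠ 1 := by
  obtain ⟨P, hP, hcP⟩ := hc
  obtain ⟨A₀, hA₀, hL⟩ := L_surj g P ((c P)⁻¹)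
  have hcop : IsCoprime P.1 (pr (R.erase P)) :=
    (coprime_pr_iff P.1 (R.erase P)).2 fun R' hR' => ir_coprime (Finset.ne_of_mem_erase hR').symm
  obtain ⟨u, v, huv⟩ := hcop
  have hA1 : A₀ * (v * pr (R.erase P)) + u * P.1 = A₀ + P.1 * (u - A₀ * u) := by
    have h3 : v * pr (R.erase P) = 1 - u * P.1 := by rw [← huv]; ring
    rw [h3]; ring
  have hA2 : A₀ * (v * pr (R.erase P)) + u * P.1 = 1 + pr (R.erase P) * (A₀ * v - v) := by
    have h3 : u * P.1 = 1 - v * pr (R.erase P) := by rw [← huv]; ring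
    rw [h3]; ring
  set A : F[X] := A₀ * (v * pr (R.erase P)) + u * P.1 with hAdef
  have hAP : IsCoprime A P.1 := by
    rw [hA1]
    exact IsCoprime.add_mul_left_left_iff.2 hA₀
  have hAQ : IsCoprime A (pr (R.erase P)) := by
    rw [hA2]
    exact IsCoprime.add_mul_left_left_iff.2 isCoprime_one_left
  have hR : pr R = P.1 * pr (R.erase P) := (Finset.mul_prod_erase R (fun P => P.1) hP).symm
  have hAR : IsCoprime A (pr R) := by
    rw [hR]
    exact hAP.mul_right hAQ
  refine ⟨A, hAR, ?_⟩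
  have hsum : ∑ P' ∈ R, c P' * g.L A P'.1 = 1 := by
    rw [← Finset.add_sum_erase R _ hP]
    have h4 : g.L A P.1 = (c P)⁻¹ := by
      rw [hA1, L_periodic g A₀ P.1 _ P.2.1, hL]
    rw [h4, mul_inv_cancel₀ hcP]
    have h5 : ∑ x ∈ R.erase P, c x * g.L A x.1 = 0 := by
      refine Finset.sum_eq_zero fun x hx => ?_
      obtain ⟨C, hC⟩ := (mem_iff_dvd_pr x (R.erase P)).1 hx
      have h6 : A = 1 + x.1 * (C * (A₀ * v - v)) := by
        rw [hA2, hC]; ring
      rw [h6, L_periodic g 1 x.1 _ x.2.1, L_one_left g x.1 x.2.1, mul_zero]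
    rw [h5, add_zero]
  unfold Lg.chi
  rw [if_pos hAR, hsum]
  intro h
  have h7 : (ZMod.stdAddChar (1 : ZMod ℓ)) = ZMod.stdAddChar (0 : ZMod ℓ) := by
    have h8 : e (1 : ZMod ℓ) = e (0 : ZMod ℓ) := by rw [h, e_zero]
    exact h8
  exact one_ne_zero (ZMod.injective_stdAddChar h7)

theorem chi_sum_zero [Fintype F] (c : Ir F → ZMod ℓ) (R : Finset (Ir F)) (hc : ∃ P ∈ R, c P ≠ 0)
    (m : ℕ) (hm : dgs R ≤ m) : ∑ B ∈ Mon F m, g.chi c R B = 0 := by
  obtain ⟨A, hA, hne⟩ := chi_exists_ne_one g c R hc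
  have hM : (pr R).Monic := pr_monic R
  set M : F[X] := pr R with hMdef
  let φ : F[X] → F[X] := fun B => M * (B /ₘ M) + (A * (B %ₘ M)) %ₘ M
  have hφq : ∀ B, (φ B) /ₘ M = B /ₘ M ∧ (φ B) %ₘ M = (A * (B %ₘ M)) %ₘ M := by
    intro B
    refine div_modByMonic_unique (B /ₘ M) ((A * (B %ₘ M)) %ₘ M) hM ⟨?_, ?_⟩
    · simp only [φ]; ring
    · exact degree_modByMonic_lt _ hM
  have hφmem : ∀ B ∈ Mon F m, φ B ∈ Mon F m := by
    intro B hB
    rw [mem_Mon] at hB ⊢
    obtain ⟨hB1, hB2⟩ := hB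
    have hmM : M.natDegree ≤ B.natDegree := by
      rw [hB2, natDegree_pr]; exact hm
    have hqm : (B /ₘ M).Monic := by
      rw [Monic, leadingCoeff_divByMonic_of_monic hM (by
        rw [degree_eq_natDegree hM.ne_zero, degree_eq_natDegree hB1.ne_zero]
        exact_mod_cast hmM)]
      exact hB1
    have hqd : (B /ₘ M).natDegree = B.natDegree - M.natDegree := natDegree_divByMonic B hM
    have hMq : (M * (B /ₘ M)).Monic := hM.mul hqm
    have hMqd : (M * (B /ₘ M)).natDegree = m := by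
      rw [hM.natDegree_mul hqm, hqd, ← hB2]; omega
    have hlt : ((A * (B %ₘ M)) %ₘ M).degree < (M * (B /ₘ M)).degree := by
      refine lt_of_lt_of_le (degree_modByMonic_lt _ hM) ?_
      rw [degree_eq_natDegree hM.ne_zero, degree_eq_natDegree hMq.ne_zero, hMqd]
      rw [hB2] at hmM
      exact_mod_cast hmM
    refine ⟨hMq.add_of_left hlt, ?_⟩
    have h9 : (φ B).natDegree = (M * (B /ₘ M)).natDegree :=
      natDegree_eq_of_degree_eq (degree_add_eq_left_of_degree_lt hlt)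
    rw [h9, hMqd]
  have hφinj : ∀ B B', φ B = φ B' → B = B' := by
    intro B B' h
    have h1 : B /ₘ M = B' /ₘ M := by
      rw [← (hφq B).1, ← (hφq B').1, h]
    have h2 : (A * (B %ₘ M)) %ₘ M = (A * (B' %ₘ M)) %ₘ M := by
      rw [← (hφq B).2, ← (hφq B').2, h]
    have h3 : M ∣ A * (B %ₘ M - B' %ₘ M) := by
      rw [mul_sub]
      rw [← modByMonic_eq_zero_iff_dvd hM, sub_modByMonic, h2, sub_self]
    have h4 : M ∣ B %ₘ M - B' %ₘ M := hA.symm.dvd_of_dvd_mul_left h3
    have h5 : B %ₘ M - B' %ₘ M = 0 := by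
      refine eq_zero_of_dvd_of_degree_lt h4 ?_
      exact lt_of_le_of_lt (degree_sub_le _ _)
        (max_lt (degree_modByMonic_lt _ hM) (degree_modByMonic_lt _ hM))
    rw [← modByMonic_add_div B M, ← modByMonic_add_div B' M, h1, sub_eq_zero.1 h5]
  have himg : (Mon F m).image φ = Mon F m := by
    refine Finset.eq_of_subset_of_card_le ?_ ?_
    · intro C hC
      obtain ⟨B, hB, rfl⟩ := Finset.mem_image.1 hC
      exact hφmem B hB
    · rw [Finset.card_image_of_injective _ (fun B B' h => hφinj B B' h)]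
  have hchi : ∀ B, g.chi c R (φ B) = g.chi c R A * g.chi c R B := by
    intro B
    rw [← chi_mul]
    have h10 : φ B = A * B + pr R * ((B /ₘ M) - A * (B /ₘ M) - (A * (B %ₘ M)) /ₘ M) := by
      have h11 : A * (B %ₘ M) = (A * (B %ₘ M)) %ₘ M + M * ((A * (B %ₘ M)) /ₘ M) :=
        (modByMonic_add_div _ M).symm
      have h12 : A * B = A * (B %ₘ M) + A * (M * (B /ₘ M)) := by
        rw [← mul_add, modByMonic_add_div B M]
      rw [h12, h11]
      simp only [φ]
      rw [← hMdef]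
      have h13 : ((A * (B %ₘ M)) %ₘ M + M * ((A * (B %ₘ M)) /ₘ M)) = A * (B %ₘ M) := h11.symm
      rw [h13]
      ring_nf
      rw [← sub_eq_zero]
      have h14 : (A * (B %ₘ M)) %ₘ M = A * (B %ₘ M) - M * ((A * (B %ₘ M)) /ₘ M) := by
        rw [eq_sub_iff_add_eq]; exact modByMonic_add_div _ M
      rw [h14]
      ring
    rw [h10, chi_periodic]
  have hS : g.chi c R A * ∑ B ∈ Mon F m, g.chi c R B = ∑ B ∈ Mon F m, g.chi c R B := by
    conv_rhs => rw [← himg]
    rw [Finset.sum_image (fun B _ B' _ h => hφinj B B' h), Finset.mul_sum]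
    exact Finset.sum_congr rfl fun B _ => (hchi B).symm
  have hz : (g.chi c R A - 1) * ∑ B ∈ Mon F m, g.chi c R B = 0 := by
    rw [sub_mul, one_mul, hS, sub_self]
  rcases mul_eq_zero.1 hz with h | h
  · exact absurd (sub_eq_zero.1 h) hne
  · exact h

end Pool.Agent.Helper48.ST
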