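import Pool.Agent.Helper48.ST.Defs

/-!
ST-27. Roots of unity different from one.

Proof. `e x = exp (2 π i j/ℓ)`, `j = x.val`, `1 ≤ j ≤ ℓ - 1` (`ZMod.stdAddChar_apply`, `ZMod.toCircle_apply`), real part `cos (2 π j/ℓ)`; `2 π/ℓ ≤ 2πj/ℓ ≤ 2π - 2π/ℓ`, and `cos` is
decreasing on `[0, π]` and symmetric about `π`. `c0_pos`: `0 < 2π/ℓ ≤ π`, so `cos < 1`. `c0_le`: `1 - cos ≤ 2`, `κ ≥ 1`.
-/

set_option autoImplicit false

open Polynomial
open scoped Classical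

namespace Pool.Agent.Helper48.ST

/-- The constant in the mean value estimate. -/
noncomputable def c0 (ℓ κ : ℕ) : ℝ := (1 - Real.cos (2 * Real.pi / ℓ)) / (4 * (κ : ℝ) ^ 2)

theorem cosB_re {ℓ : ℕ} [Fact ℓ.Prime] (x : ZMod ℓ) :
    (e x).re = Real.cos (2 * Real.pi * x.val / ℓ) := by
  have h1 : e x = Complex.exp (((2 * Real.pi * x.val / ℓ : ℝ) : ℂ) * Complex.I) := by
    unfold e
    rw [ZMod.stdAddChar_apply, ZMod.toCircle_apply]
    congr 1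
    push_cast
    ring
  rw [h1, Complex.exp_ofReal_mul_I_re]

theorem re_e_le {ℓ : ℕ} [Fact ℓ.Prime] (x : ZMod ℓ) (hx : x ≠ 0) :
    (e x).re ≤ Real.cos (2 * Real.pi / ℓ) := by
  rw [cosB_re]
  have hℓ0 : (0 : ℝ) < ℓ := by exact_mod_cast (Fact.out : ℓ.Prime).pos
  have hπ := Real.pi_pos
  have h1 : 1 ≤ x.val := by
    have := (ZMod.val_ne_zero x).mpr hx
    omega
  have h2 : x.val + 1 ≤ ℓ := ZMod.val_lt x
  have h1' : (1 : ℝ) ≤ (x.val : ℝ) := by exact_mod_cast h1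
  have h2' : (x.val : ℝ) + 1 ≤ (ℓ : ℝ) := by exact_mod_cast h2
  have hlow : 2 * Real.pi / ℓ ≤ 2 * Real.pi * x.val / ℓ := by
    apply div_le_div_of_nonneg_right _ hℓ0.le
    nlinarith
  have hup : 2 * Real.pi * x.val / ℓ ≤ 2 * Real.pi - 2 * Real.pi / ℓ := by
    rw [le_sub_iff_add_le, ← add_div, div_le_iff₀ hℓ0]
    nlinarith
  have hpos : 0 < 2 * Real.pi / ℓ := by positivity
  rcases le_total (2 * Real.pi * x.val / ℓ) Real.pi with h | h
  · exact Real.cos_le_cos_of_nonneg_of_le_pi hpos.le h hlow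
  · rw [← Real.cos_two_pi_sub (2 * Real.pi * x.val / ℓ)]
    apply Real.cos_le_cos_of_nonneg_of_le_pi hpos.le
    · linarith
    · linarith

theorem c0_pos (ℓ κ : ℕ) (hℓ : 2 ≤ ℓ) (hκ : 1 ≤ κ) : 0 < c0 ℓ κ := by
  have hℓ0 : (2 : ℝ) ≤ ℓ := by exact_mod_cast hℓ
  have hκ0 : (1 : ℝ) ≤ κ := by exact_mod_cast hκ
  have hπ := Real.pi_pos
  have hpos : 0 < 2 * Real.pi / ℓ := by positivity
  have hle : 2 * Real.pi / ℓ ≤ Real.pi := by
    rw [div_le_iff₀ (by linarith)]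
    nlinarith
  have hcos : Real.cos (2 * Real.pi / ℓ) < 1 := by
    have := Real.cos_lt_cos_of_nonneg_of_le_pi le_rfl hle hpos
    rwa [Real.cos_zero] at this
  unfold c0
  apply div_pos
  · linarith
  · positivity

theorem c0_le (ℓ κ : ℕ) (hκ : 1 ≤ κ) : c0 ℓ κ ≤ 1 / (2 * (κ : ℝ) ^ 2) := by
  have hκ0 : (1 : ℝ) ≤ κ := by exact_mod_cast hκ
  have hcos := Real.neg_one_le_cos (2 * Real.pi / ℓ)
  unfold c0
  rw [div_le_div_iff₀ (by positivity) (by positivity)]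
  have hk : (0 : ℝ) < (κ : ℝ) ^ 2 := by positivity
  nlinarith

end Pool.Agent.Helper48.ST
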