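import Pool.Agent.Helper48.ST.ChR

/-!
ST-43. Decomposition of a rational function, and the formulas for the symbols.

Proof. Let `x ≠ 0`, `c` its leading coefficient (`x.num.leadingCoeff`), `T₀` the finite support of `vl · x`. Then `x = C c * ∏_{R ∈ T₀} R ^ (vl R x)`: unique factorisation of
`x.num` and `x.denom` (`UniqueFactorizationMonoid`; or: the quotient of both sides has all valuations `0`, so numerator and denominator, which are coprime, have no prime factor and are constants).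
`ch_formula`: apply `ch g P` (a homomorphism): the term `R = P` vanishes (`ch_self`), the others are `vl R x * L(R, P)` (`ch_poly`). The terms with `R ∉ T` are `0` in `ZMod ℓ`.
`deg_formula`: `intDegree` is additive (`RatFunc.intDegree_mul`). `isPow`: if all `vl R x = ℓ k_R` and `lgc g x = 0` then `c = b^ℓ` (`g.ker'`) and `x = (C b * ∏ R^(k_R))^ℓ`;
`vl_pow`, `ch_pow`: rules of ST-41, 42 (`(ℓ : ZMod ℓ) = 0`).
-/

set_option autoImplicit false

open Polynomial
open scoped Classical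

namespace Pool.Agent.Helper48.ST

variable {F : Type} [Field F] {ℓ : ℕ} [Fact ℓ.Prime] (g : Lg F ℓ)

theorem Dec_lc_mul (x y : RatFunc F) :
    (x * y).num.leadingCoeff = x.num.leadingCoeff * y.num.leadingCoeff := by
  have h := congrArg Polynomial.leadingCoeff (RatFunc.num_denom_mul x y)
  simp only [leadingCoeff_mul, (RatFunc.monic_denom _).leadingCoeff, mul_one] at h
  exact h

theorem Dec_lc_one : (1 : RatFunc F).num.leadingCoeff = 1 := by
  rw [RatFunc.num_one, leadingCoeff_one]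

/-- The leading coefficient as a homomorphism. -/
noncomputable def Dec_lc : RatFunc F →*₀ F where
  toFun x := x.num.leadingCoeff
  map_zero' := by rw [RatFunc.num_zero, leadingCoeff_zero]
  map_one' := Dec_lc_one
  map_mul' := Dec_lc_mul

theorem Dec_lc_apply (x : RatFunc F) : Dec_lc x = x.num.leadingCoeff := rfl

theorem Dec_alg_ne (P : Ir F) : algebraMap F[X] (RatFunc F) P.1 ≠ 0 := by
  rw [Ne, FaithfulSMul.algebraMap_eq_zero_iff]
  exact P.2.2.ne_zero

theorem Dec_lc_P (P : Ir F) : Dec_lc (algebraMap F[X] (RatFunc F) P.1) = 1 := by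
  rw [Dec_lc_apply, RatFunc.num_algebraMap, P.2.1.leadingCoeff]

theorem Dec_pr_singleton (R : Ir F) : pr {R} = R.1 := by
  unfold pr
  rw [Finset.prod_singleton]

theorem Dec_vl_P (P R : Ir F) : vl P (algebraMap F[X] (RatFunc F) R.1) = if P = R then 1 else 0 := by
  have h := vl_pr P {R}
  rw [Dec_pr_singleton] at h
  rw [h]
  simp only [Finset.mem_singleton]

theorem Dec_const (z : RatFunc F) (hz : z ≠ 0) (h : ∀ P, vl P z = 0) :
    z = algebraMap F[X] (RatFunc F) (C z.num.leadingCoeff) := by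
  have key : ∀ P : Ir F, ¬ P.1 ∣ z.num ∧ ¬ P.1 ∣ z.denom := by
    intro P
    have h1 := h P
    unfold vl at h1
    have h2 : multiplicity P.1 z.num = multiplicity P.1 z.denom := by
      have := sub_eq_zero.1 h1
      exact_mod_cast this
    have hfin : ∀ A : F[X], A ≠ 0 → FiniteMultiplicity P.1 A := fun A hA =>
      FiniteMultiplicity.of_not_isUnit P.2.2.not_isUnit hA
    have h3 : ∀ A : F[X], A ≠ 0 → (P.1 ∣ A ↔ multiplicity P.1 A ≠ 0) := fun A hA =>
      ⟨fun h4 => (multiplicity_ne_zero).2 h4, fun h4 => (multiplicity_ne_zero).1 h4⟩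
    have hno : ¬ (P.1 ∣ z.num ∧ P.1 ∣ z.denom) := fun h4 =>
      P.2.2.not_isUnit ((RatFunc.isCoprime_num_denom z).isUnit_of_dvd' h4.1 h4.2)
    have h5 := h3 _ (RatFunc.num_ne_zero hz)
    have h6 := h3 _ (RatFunc.denom_ne_zero z)
    rw [← h2, ← h5] at h6
    constructor
    · exact fun h7 => hno ⟨h7, h6.2 h7⟩
    · exact fun h7 => hno ⟨h6.1 h7, h7⟩
  have hn : IsUnit z.num := by
    by_contra hcon
    obtain ⟨Q, hQ1, hQ2, hQ3⟩ := exists_monic_irreducible_factor _ hcon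
    exact (key ⟨Q, hQ1, hQ2⟩).1 hQ3
  have hd : IsUnit z.denom := by
    by_contra hcon
    obtain ⟨Q, hQ1, hQ2, hQ3⟩ := exists_monic_irreducible_factor _ hcon
    exact (key ⟨Q, hQ1, hQ2⟩).2 hQ3
  have hd1 : z.denom = 1 := (RatFunc.monic_denom z).isUnit_iff.1 hd
  obtain ⟨r, -, hr⟩ := Polynomial.isUnit_iff.1 hn
  have h8 := RatFunc.num_div_denom z
  rw [hd1, map_one, div_one] at h8
  rw [← hr, leadingCoeff_C, hr]
  exact h8.symm

theorem dec (x : RatFunc F) (hx : x ≠ 0) :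
    ∃ T : Finset (Ir F), (∀ P, P ∉ T → vl P x = 0) ∧
      x = algebraMap F[X] (RatFunc F) (C x.num.leadingCoeff) *
        ∏ R ∈ T, (algebraMap F[X] (RatFunc F) R.1) ^ vl R x := by
  refine ⟨(vl_finite x hx).toFinset, fun P hP => ?_, ?_⟩
  · by_contra h
    exact hP ((vl_finite x hx).mem_toFinset.2 h)
  set T := (vl_finite x hx).toFinset with hT
  set w : RatFunc F := ∏ R ∈ T, (algebraMap F[X] (RatFunc F) R.1) ^ vl R x with hw
  have hw0 : w ≠ 0 := Finset.prod_ne_zero_iff.2 fun R _ => zpow_ne_zero _ (Dec_alg_ne R)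
  have hlw : Dec_lc w = 1 := by
    rw [hw, map_prod]
    refine Finset.prod_eq_one fun R _ => ?_
    rw [map_zpow₀, Dec_lc_P, one_zpow]
  have hvw : ∀ P, vl P w = vl P x := by
    intro P
    rw [hw, vl_prod P T _ fun R _ => zpow_ne_zero _ (Dec_alg_ne R)]
    have h1 : ∀ R ∈ T, vl P ((algebraMap F[X] (RatFunc F) R.1) ^ vl R x) =
        if P = R then vl R x else 0 := by
      intro R _
      rw [vl_zpow P _ (Dec_alg_ne R), Dec_vl_P]
      split_ifs <;> simp
    rw [Finset.sum_congr rfl h1, Finset.sum_ite_eq]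
    split_ifs with h2
    · rfl
    · by_contra h
      exact h2 ((vl_finite x hx).mem_toFinset.2 (Ne.symm h))
  have hz0 : x * w⁻¹ ≠ 0 := mul_ne_zero hx (inv_ne_zero hw0)
  have h3 := Dec_const (x * w⁻¹) hz0 fun P => by
    rw [vl_mul P x _ hx (inv_ne_zero hw0), vl_inv P w hw0, hvw, add_neg_cancel]
  have h4 : (x * w⁻¹).num.leadingCoeff = x.num.leadingCoeff := by
    rw [← Dec_lc_apply, map_mul, map_inv₀, hlw, inv_one, mul_one, Dec_lc_apply]
  rw [h4] at h3
  rw [← h3, mul_assoc, inv_mul_cancel₀ hw0, mul_one]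

theorem ch_formula (x : RatFunc F) (hx : x ≠ 0) (T : Finset (Ir F))
    (hT : ∀ P, P ∉ T → (ℓ : ℤ) ∣ vl P x) (P : Ir F) :
    ch g P x = (P.1.natDegree : ZMod ℓ) * lgc g x +
      ∑ R ∈ T.erase P, ((vl R x : ℤ) : ZMod ℓ) * g.L R.1 P.1 := by
  obtain ⟨T₀, hT₀, hdec⟩ := dec x hx
  have hc : x.num.leadingCoeff ≠ 0 := leadingCoeff_ne_zero.2 (RatFunc.num_ne_zero hx)
  have hC0 : algebraMap F[X] (RatFunc F) (C x.num.leadingCoeff) ≠ 0 := by
    rw [Ne, FaithfulSMul.algebraMap_eq_zero_iff, C_eq_zero]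
    exact hc
  have hf0 : ∀ R ∈ T₀, (algebraMap F[X] (RatFunc F) R.1) ^ vl R x ≠ 0 := fun R _ =>
    zpow_ne_zero _ (Dec_alg_ne R)
  have hP : ∀ R : Ir F, ch g P (algebraMap F[X] (RatFunc F) R.1) =
      if R = P then 0 else g.L R.1 P.1 := by
    intro R
    split_ifs with h1
    · rw [h1]
      exact ch_self g P
    · refine ch_poly g P R.1 fun h2 => h1 (Subtype.ext ?_)
      exact (eq_of_monic_of_associated P.2.1 R.2.1
        ((P.2.2.dvd_irreducible_iff_associated R.2.2).1 h2)).symm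
  have h1 : ch g P x = (P.1.natDegree : ZMod ℓ) * lgc g x +
      ∑ R ∈ T₀, ((vl R x : ℤ) : ZMod ℓ) * (if R = P then 0 else g.L R.1 P.1) := by
    conv_lhs => rw [hdec]
    rw [ch_mul g P _ _ hC0 (Finset.prod_ne_zero_iff.2 hf0), ch_C g P _ hc,
      ch_prod g P T₀ _ hf0]
    congr 1
    refine Finset.sum_congr rfl fun R _ => ?_
    rw [ch_zpow g P _ (Dec_alg_ne R), hP]
  rw [h1]
  congr 1
  have hz : ∀ R, R ∉ T → ((vl R x : ℤ) : ZMod ℓ) = 0 := fun R hR =>
    (ZMod.intCast_zmod_eq_zero_iff_dvd _ _).2 (hT R hR)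
  have h2 : ∑ R ∈ T₀, ((vl R x : ℤ) : ZMod ℓ) * (if R = P then 0 else g.L R.1 P.1) =
      ∑ R ∈ T₀ ∪ T, ((vl R x : ℤ) : ZMod ℓ) * (if R = P then 0 else g.L R.1 P.1) := by
    refine Finset.sum_subset Finset.subset_union_left fun R _ hR => ?_
    rw [hT₀ R hR, Int.cast_zero, zero_mul]
  have h3 : ∑ R ∈ T, ((vl R x : ℤ) : ZMod ℓ) * (if R = P then 0 else g.L R.1 P.1) =
      ∑ R ∈ T₀ ∪ T, ((vl R x : ℤ) : ZMod ℓ) * (if R = P then 0 else g.L R.1 P.1) := by
    refine Finset.sum_subset Finset.subset_union_right fun R _ hR => ?_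
    rw [hz R hR, zero_mul]
  rw [h2, ← h3]
  have h4 : ∑ R ∈ T.erase P, ((vl R x : ℤ) : ZMod ℓ) * g.L R.1 P.1 =
      ∑ R ∈ T.erase P, ((vl R x : ℤ) : ZMod ℓ) * (if R = P then 0 else g.L R.1 P.1) := by
    refine Finset.sum_congr rfl fun R hR => ?_
    rw [if_neg (Finset.ne_of_mem_erase hR)]
  rw [h4]
  symm
  refine Finset.sum_subset (Finset.erase_subset _ _) fun R hR hR' => ?_
  have h5 : R = P := by
    by_contra h6
    exact hR' (Finset.mem_erase.2 ⟨h6, hR⟩)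
  rw [if_pos h5, mul_zero]

theorem Dec_deg_zpow (x : RatFunc F) (hx : x ≠ 0) (k : ℤ) :
    (x ^ k).intDegree = k * x.intDegree := by
  have h1 : ∀ n : ℕ, (x ^ n).intDegree = n * x.intDegree := by
    intro n
    induction n with
    | zero => rw [pow_zero, RatFunc.intDegree_one, Nat.cast_zero, zero_mul]
    | succ n ih =>
      rw [pow_succ, RatFunc.intDegree_mul (pow_ne_zero _ hx) hx, ih]
      push_cast
      ring
  obtain ⟨n, rfl | rfl⟩ := k.eq_nat_or_neg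
  · rw [zpow_natCast, h1]
  · rw [zpow_neg, zpow_natCast, RatFunc.intDegree_inv, h1]
    ring

theorem Dec_deg_prod {ι : Type} (s : Finset ι) (f : ι → RatFunc F) (hf : ∀ i ∈ s, f i ≠ 0) :
    (∏ i ∈ s, f i).intDegree = ∑ i ∈ s, (f i).intDegree := by
  induction s using Finset.induction_on with
  | empty => rw [Finset.prod_empty, Finset.sum_empty, RatFunc.intDegree_one]
  | insert a s ha ih =>
    have h1 : ∀ i ∈ s, f i ≠ 0 := fun i hi => hf i (Finset.mem_insert_of_mem hi)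
    rw [Finset.prod_insert ha, Finset.sum_insert ha,
      RatFunc.intDegree_mul (hf a (Finset.mem_insert_self a s)) (Finset.prod_ne_zero_iff.2 h1),
      ih h1]

theorem deg_formula (x : RatFunc F) (hx : x ≠ 0) (T : Finset (Ir F))
    (hT : ∀ P, P ∉ T → (ℓ : ℤ) ∣ vl P x) :
    ((x.intDegree : ℤ) : ZMod ℓ) = ∑ R ∈ T, (R.1.natDegree : ZMod ℓ) * ((vl R x : ℤ) : ZMod ℓ) := by
  obtain ⟨T₀, hT₀, hdec⟩ := dec x hx
  have hc : x.num.leadingCoeff ≠ 0 := leadingCoeff_ne_zero.2 (RatFunc.num_ne_zero hx)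
  have hC0 : algebraMap F[X] (RatFunc F) (C x.num.leadingCoeff) ≠ 0 := by
    rw [Ne, FaithfulSMul.algebraMap_eq_zero_iff, C_eq_zero]
    exact hc
  have hf0 : ∀ R ∈ T₀, (algebraMap F[X] (RatFunc F) R.1) ^ vl R x ≠ 0 := fun R _ =>
    zpow_ne_zero _ (Dec_alg_ne R)
  have h1 : x.intDegree = ∑ R ∈ T₀, vl R x * (R.1.natDegree : ℤ) := by
    conv_lhs => rw [hdec]
    rw [RatFunc.intDegree_mul hC0 (Finset.prod_ne_zero_iff.2 hf0), RatFunc.intDegree_polynomial,
      natDegree_C, Nat.cast_zero, zero_add, Dec_deg_prod T₀ _ hf0]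
    refine Finset.sum_congr rfl fun R _ => ?_
    rw [Dec_deg_zpow _ (Dec_alg_ne R), RatFunc.intDegree_polynomial]
  have hz : ∀ R, R ∉ T → ((vl R x : ℤ) : ZMod ℓ) = 0 := fun R hR =>
    (ZMod.intCast_zmod_eq_zero_iff_dvd _ _).2 (hT R hR)
  rw [h1]
  push_cast
  have h2 : ∑ R ∈ T₀, ((vl R x : ℤ) : ZMod ℓ) * (R.1.natDegree : ZMod ℓ) =
      ∑ R ∈ T₀ ∪ T, ((vl R x : ℤ) : ZMod ℓ) * (R.1.natDegree : ZMod ℓ) := by
    refine Finset.sum_subset Finset.subset_union_left fun R _ hR => ?_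
    rw [hT₀ R hR, Int.cast_zero, zero_mul]
  have h3 : ∑ R ∈ T, ((vl R x : ℤ) : ZMod ℓ) * (R.1.natDegree : ZMod ℓ) =
      ∑ R ∈ T₀ ∪ T, ((vl R x : ℤ) : ZMod ℓ) * (R.1.natDegree : ZMod ℓ) := by
    refine Finset.sum_subset Finset.subset_union_right fun R _ hR => ?_
    rw [hz R hR, zero_mul]
  rw [h2, ← h3]
  exact Finset.sum_congr rfl fun R _ => mul_comm _ _

theorem isPow (x : RatFunc F) (hx : x ≠ 0) (h0 : lgc g x = 0) (h : ∀ P, (ℓ : ℤ) ∣ vl P x) :
    ∃ y : RatFunc F, y ≠ 0 ∧ x = y ^ ℓ := by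
  obtain ⟨T₀, hT₀, hdec⟩ := dec x hx
  have hc : x.num.leadingCoeff ≠ 0 := leadingCoeff_ne_zero.2 (RatFunc.num_ne_zero hx)
  obtain ⟨b, hb⟩ := g.ker' _ hc h0
  choose k hk using h
  have hl : ℓ ≠ 0 := (Fact.out : ℓ.Prime).ne_zero
  have hb0 : b ≠ 0 := by
    rintro rfl
    rw [zero_pow hl] at hb
    exact hc hb.symm
  have hB0 : algebraMap F[X] (RatFunc F) (C b) ≠ 0 := by
    rw [Ne, FaithfulSMul.algebraMap_eq_zero_iff, C_eq_zero]
    exact hb0
  refine ⟨algebraMap F[X] (RatFunc F) (C b) * ∏ R ∈ T₀, (algebraMap F[X] (RatFunc F) R.1) ^ k R,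
    mul_ne_zero hB0 (Finset.prod_ne_zero_iff.2 fun R _ => zpow_ne_zero _ (Dec_alg_ne R)), ?_⟩
  conv_lhs => rw [hdec]
  rw [mul_pow, ← Finset.prod_pow, ← hb, C_pow, map_pow]
  congr 1
  refine Finset.prod_congr rfl fun R _ => ?_
  rw [hk R, ← zpow_natCast, ← zpow_mul, mul_comm]

theorem vl_pow (P : Ir F) (x : RatFunc F) (hx : x ≠ 0) : (ℓ : ℤ) ∣ vl P (x ^ ℓ) := by
  rw [← zpow_natCast, vl_zpow P x hx]
  exact dvd_mul_right _ _

theorem lgc_pow (x : RatFunc F) (hx : x ≠ 0) : lgc g (x ^ ℓ) = 0 := by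
  rw [← zpow_natCast, lgc_zpow g x hx, Int.cast_natCast, ZMod.natCast_self, zero_mul]

theorem ch_pow (P : Ir F) (x : RatFunc F) (hx : x ≠ 0) : ch g P (x ^ ℓ) = 0 := by
  rw [← zpow_natCast, ch_zpow g P x hx, Int.cast_natCast, ZMod.natCast_self, zero_mul]

end Pool.Agent.Helper48.ST
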