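import Pool.Agent.Helper48.ST.WUpd
import Pool.Agent.Helper48.ST.Bilinear2
import Pool.Agent.Helper48.ST.CardSq

/-!
ST-23. Families with two long linked members.

Proof. `u ≠ u'` since `lk u u = K u u + K u u = 0`. Fix the members with index `≠ u, u'`: the families with degrees `n` correspond to triples
`(s₀, x, y)`, `s₀` a family with `s₀ u = s₀ u' = ∅`, pairwise disjoint, disjoint from `S`, `dgs (s₀ v) = n v` for `v ≠ u, u'`, and `x ∈ Sq ∅ (n u)`,
`y ∈ Sq ∅ (n u')` disjoint, both disjoint from `S` and from all the `s₀ v` (`s = update (update s₀ u x) u' y`). The number of `s₀` is at most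
`∏_{v ≠ u,u'} q^(n v)` (`card_Sq_le`). For fixed `s₀` the sum over `(x, y)` is, with `α`, `β` from `W_update`,
`∑_{x ∈ Sq ∅ (n u)} ∑_{y ∈ Sq ∅ (n u')} ([x good] α x) ([y good] β y) [Disjoint x y] e (lk u u' * LL x y)`, where `x` good means disjoint from `S` and all
`s₀ v`. By `bilinear2` its norm is at most `q^(n u + n u') ((n u + n u' + 1) q^(-T))^(1/4)`, and `n u + n u' ≤ ∑ n v = N` (if there is a family at all).
-/

set_option autoImplicit false

open Polynomial
open scoped Classical

namespace Pool.Agent.Helper48.ST

theorem stepB_up_apply {Ω : Type} {X : Type} (s : Ω → X) (u u' : Ω) (x y : X) (v : Ω) :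
    Function.update (Function.update s u x) u' y v =
      if v = u' then y else if v = u then x else s v := by
  by_cases h : v = u'
  · subst h
    simp
  · rw [Function.update_of_ne h, if_neg h]
    by_cases h' : v = u
    · subst h'
      simp
    · rw [Function.update_of_ne h', if_neg h']

/-- The base families. -/
noncomputable def stepBB (F : Type) [Field F] [Fintype F] {Ω : Type} [Fintype Ω] (n : Ω → ℕ) (u u' : Ω) :
    Finset (Ω → Finset (Ir F)) :=
  Fintype.piFinset fun v => if v = u ∨ v = u' then {∅} else Sq ∅ (n v)

theorem stepB_mem {F : Type} [Field F] [Fintype F] {Ω : Type} [Fintype Ω] (n : Ω → ℕ) (u u' : Ω)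
    (s : Ω → Finset (Ir F)) : s ∈ stepBB F n u u' ↔
      ∀ v, if v = u ∨ v = u' then s v = ∅ else dgs (s v) = n v := by
  unfold stepBB
  rw [Fintype.mem_piFinset]
  refine forall_congr' fun v => ?_
  by_cases h : v = u ∨ v = u'
  · rw [if_pos h, if_pos h, Finset.mem_singleton]
  · rw [if_neg h, if_neg h, mem_Sq]
    simp

theorem stepB_prod {Ω : Type} [Fintype Ω] (q : ℕ) (n : Ω → ℕ) (u u' : Ω) (h : u ≠ u') :
    (∏ v, if v = u ∨ v = u' then 1 else q ^ n v) * q ^ (n u + n u') = q ^ (∑ v, n v) := by
  have h1 : ∀ v, q ^ n v = (if v = u ∨ v = u' then 1 else q ^ n v) *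
      ((if v = u then q ^ n u else 1) * (if v = u' then q ^ n u' else 1)) := by
    intro v
    by_cases hv : v = u
    · subst hv
      simp [h]
    · by_cases hv' : v = u'
      · subst hv'
        simp [hv]
      · simp [hv, hv']
  rw [← Finset.prod_pow_eq_pow_sum, Finset.prod_congr rfl fun v _ => h1 v, Finset.prod_mul_distrib,
    Finset.prod_mul_distrib, Finset.prod_ite_eq', Finset.prod_ite_eq', if_pos (Finset.mem_univ _),
    if_pos (Finset.mem_univ _), pow_add]

theorem stepB_card {F : Type} [Field F] [Fintype F] {Ω : Type} [Fintype Ω] (n : Ω → ℕ) (u u' : Ω)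
    (h : u ≠ u') : (stepBB F n u u').card * Fintype.card F ^ (n u + n u') ≤
      Fintype.card F ^ (∑ v, n v) := by
  rw [← stepB_prod (Fintype.card F) n u u' h]
  refine Nat.mul_le_mul_right _ ?_
  unfold stepBB
  rw [Fintype.card_piFinset]
  refine Finset.prod_le_prod' fun v _ => ?_
  by_cases hv : v = u ∨ v = u'
  · rw [if_pos hv, if_pos hv, Finset.card_singleton]
  · rw [if_neg hv, if_neg hv]
    exact card_Sq_le ∅ (n v)

theorem stepB_reindex {F : Type} [Field F] [Fintype F] {Ω : Type} [Fintype Ω]
    (S : Finset (Ir F)) (N : ℕ) (n : Ω → ℕ) (u u' : Ω) (huu : u ≠ u')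
    (Φ : (Ω → Finset (Ir F)) → ℂ) :
    ∑ s ∈ (Fam Ω S N).filter (fun s => ∀ v, dgs (s v) = n v), Φ s =
      ∑ s₀ ∈ stepBB F n u u', ∑ x ∈ Sq ∅ (n u), ∑ y ∈ Sq ∅ (n u'),
        if Function.update (Function.update s₀ u x) u' y ∈ Fam Ω S N then
          Φ (Function.update (Function.update s₀ u x) u' y) else 0 := by
  have hb : ∀ s : Ω → Finset (Ir F), Function.update (Function.update
      (Function.update (Function.update s u ∅) u' ∅) u (s u)) u' (s u') = s := by
    intro s
    ext1 v
    rw [stepB_up_apply, stepB_up_apply]
    by_cases h : v = u'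
    · rw [if_pos h, h]
    · rw [if_neg h]
      by_cases h' : v = u
      · rw [if_pos h', h']
      · rw [if_neg h', if_neg h, if_neg h']
  symm
  calc ∑ s₀ ∈ stepBB F n u u', ∑ x ∈ Sq ∅ (n u), ∑ y ∈ Sq ∅ (n u'),
        (if Function.update (Function.update s₀ u x) u' y ∈ Fam Ω S N then
          Φ (Function.update (Function.update s₀ u x) u' y) else 0)
      = ∑ t ∈ stepBB F n u u' ×ˢ (Sq ∅ (n u) ×ˢ Sq ∅ (n u')),
          (if Function.update (Function.update t.1 u t.2.1) u' t.2.2 ∈ Fam Ω S N then
            Φ (Function.update (Function.update t.1 u t.2.1) u' t.2.2) else 0) := by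
        rw [Finset.sum_product]
        refine Finset.sum_congr rfl fun s₀ _ => ?_
        rw [Finset.sum_product]
    _ = ∑ t ∈ (stepBB F n u u' ×ˢ (Sq ∅ (n u) ×ˢ Sq ∅ (n u'))).filter
          (fun t => Function.update (Function.update t.1 u t.2.1) u' t.2.2 ∈ Fam Ω S N),
            Φ (Function.update (Function.update t.1 u t.2.1) u' t.2.2) := by
        rw [Finset.sum_filter]
    _ = ∑ s ∈ (Fam Ω S N).filter (fun s => ∀ v, dgs (s v) = n v), Φ s := by
        refine Finset.sum_nbij'
          (fun t => Function.update (Function.update t.1 u t.2.1) u' t.2.2)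
          (fun s => (Function.update (Function.update s u ∅) u' ∅, (s u, s u'))) ?_ ?_ ?_ ?_ ?_
        · rintro ⟨s, x, y⟩ ht
          rw [Finset.mem_filter, Finset.mem_product, Finset.mem_product, stepB_mem, mem_Sq,
            mem_Sq] at ht
          obtain ⟨⟨h1, ⟨-, h2⟩, ⟨-, h3⟩⟩, h4⟩ := ht
          rw [Finset.mem_filter]
          refine ⟨h4, fun v => ?_⟩
          simp only
          rw [stepB_up_apply]
          by_cases h : v = u'
          · rw [if_pos h, h]
            exact h3
          · rw [if_neg h]
            by_cases h' : v = u
            · rw [if_pos h', h']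
              exact h2
            · rw [if_neg h']
              have := h1 v
              rwa [if_neg (by tauto)] at this
        · intro s hs
          rw [Finset.mem_filter] at hs
          rw [Finset.mem_filter, Finset.mem_product, Finset.mem_product, stepB_mem, mem_Sq, mem_Sq]
          refine ⟨⟨fun v => ?_, ⟨Finset.disjoint_empty_right _, hs.2 u⟩,
            ⟨Finset.disjoint_empty_right _, hs.2 u'⟩⟩, ?_⟩
          · simp only
            rw [stepB_up_apply]
            by_cases h : v = u'
            · rw [if_pos (Or.inr h), if_pos h]
            · by_cases h' : v = u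
              · rw [if_pos (Or.inl h'), if_neg h, if_pos h']
              · rw [if_neg (by tauto), if_neg h, if_neg h']
                exact hs.2 v
          · simp only
            rw [hb]
            exact hs.1
        · rintro ⟨s, x, y⟩ ht
          rw [Finset.mem_filter, Finset.mem_product, Finset.mem_product, stepB_mem] at ht
          have h1 := ht.1.1
          simp only at h1
          have e1 : Function.update (Function.update
              (Function.update (Function.update s u x) u' y) u ∅) u' ∅ = s := by
            ext1 v
            rw [stepB_up_apply, stepB_up_apply]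
            have h2 := h1 v
            by_cases h : v = u'
            · rw [if_pos h]
              rw [if_pos (Or.inr h)] at h2
              exact h2.symm
            · rw [if_neg h]
              by_cases h' : v = u
              · rw [if_pos h']
                rw [if_pos (Or.inl h')] at h2
                exact h2.symm
              · rw [if_neg h', if_neg h, if_neg h']
          simp only
          rw [e1, stepB_up_apply, stepB_up_apply, if_neg huu, if_pos rfl, if_pos rfl]
        · intro s _
          exact hb s
        · intro t _
          rfl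

theorem step_B {F : Type} [Field F] [Fintype F] {ℓ : ℕ} [Fact ℓ.Prime] (g : Lg F ℓ) (h2 : ℓ ≠ 2)
    {Ω : Type} [Fintype Ω] (D : Dat F ℓ Ω) (hd : ∀ u, D.K u u = 0) (κ : ℕ) (hκ : 1 ≤ κ)
    (S : Finset (Ir F)) (N T : ℕ) (n : Ω → ℕ) (u u' : Ω) (hlk : D.lk u u' ≠ 0) (hu : T ≤ n u)
    (hu' : T ≤ n u') :
    ‖∑ s ∈ (Fam Ω S N).filter (fun s => ∀ v, dgs (s v) = n v), D.W g κ S s‖ ≤
      (Fintype.card F : ℝ) ^ N *
        (((N : ℝ) + 1) * ((Fintype.card F : ℝ)⁻¹) ^ T) ^ (1 / 4 : ℝ) := by
  have hq : (0 : ℝ) < Fintype.card F := by exact_mod_cast Fintype.card_pos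
  have huu : u ≠ u' := by
    rintro rfl
    exact hlk (by unfold Dat.lk; rw [hd]; simp)
  have hR : 0 ≤ (Fintype.card F : ℝ) ^ N *
        (((N : ℝ) + 1) * ((Fintype.card F : ℝ)⁻¹) ^ T) ^ (1 / 4 : ℝ) := by positivity
  by_cases hN : ∑ v, n v = N
  swap
  · rw [Finset.sum_eq_zero, norm_zero]
    · exact hR
    · intro s hs
      exfalso
      rw [Finset.mem_filter, mem_Fam] at hs
      apply hN
      rw [← hs.1.2.2]
      exact Finset.sum_congr rfl fun v _ => (hs.2 v).symm
  rw [stepB_reindex S N n u u' huu]
  set b : ℝ := (Fintype.card F : ℝ) ^ (n u + n u') *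
    (((N : ℝ) + 1) * ((Fintype.card F : ℝ)⁻¹) ^ T) ^ (1 / 4 : ℝ) with hb
  have hb0 : 0 ≤ b := by positivity
  have hmain : ∀ s₀ ∈ stepBB F n u u', ‖∑ x ∈ Sq ∅ (n u), ∑ y ∈ Sq ∅ (n u'),
        if Function.update (Function.update s₀ u x) u' y ∈ Fam Ω S N then
          D.W g κ S (Function.update (Function.update s₀ u x) u' y) else 0‖ ≤ b := by
    intro s₀ hs₀
    rw [stepB_mem] at hs₀
    by_cases hok : (∀ v w, v ≠ w → Disjoint (s₀ v) (s₀ w)) ∧ ∀ v, Disjoint (s₀ v) S
    swap
    · rw [Finset.sum_eq_zero, norm_zero]
      · exact hb0
      · intro x _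
        refine Finset.sum_eq_zero fun y _ => if_neg fun hmem => hok ?_
        rw [mem_Fam] at hmem
        obtain ⟨h3, h4, -⟩ := hmem
        have hsub : ∀ v, s₀ v ⊆ Function.update (Function.update s₀ u x) u' y v := by
          intro v
          rw [stepB_up_apply]
          have h5 := hs₀ v
          by_cases h : v = u'
          · rw [if_pos (Or.inr h)] at h5
            rw [h5]
            exact Finset.empty_subset _
          · by_cases h' : v = u
            · rw [if_pos (Or.inl h')] at h5
              rw [h5]
              exact Finset.empty_subset _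
            · rw [if_neg h, if_neg h']
        exact ⟨fun v w hvw => (h3 v w hvw).mono (hsub v) (hsub w), fun v => (h4 v).mono_left (hsub v)⟩
    obtain ⟨ho1, ho2⟩ := hok
    obtain ⟨α, β, hα, hβ, hαβ⟩ := W_update g h2 D hd κ hκ S s₀ u u' huu
    set G : Finset (Ir F) → Prop := fun x => Disjoint x S ∧ ∀ v, Disjoint x (s₀ v) with hG
    have hkey := bilinear2 g h2 (D.lk u u') hlk (n u) (n u') T hu hu'
      (fun x => if G x then α x else 0) (fun y => if G y then β y else 0)
      (fun x => by
        by_cases hx : G x
        · simp only [if_pos hx]; exact hα x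
        · simp only [if_neg hx, norm_zero]; exact zero_le_one)
      (fun y => by
        by_cases hy : G y
        · simp only [if_pos hy]; exact hβ y
        · simp only [if_neg hy, norm_zero]; exact zero_le_one)
    have hterm : ∀ x ∈ Sq (∅ : Finset (Ir F)) (n u), ∀ y ∈ Sq (∅ : Finset (Ir F)) (n u'),
        (if Function.update (Function.update s₀ u x) u' y ∈ Fam Ω S N then
          D.W g κ S (Function.update (Function.update s₀ u x) u' y) else 0) =
        (if G x then α x else 0) * (if G y then β y else 0) *
          (if Disjoint x y then e (D.lk u u' * g.LL x y) else 0) := by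
      intro x hx y hy
      rw [mem_Sq] at hx hy
      have hiff : Function.update (Function.update s₀ u x) u' y ∈ Fam Ω S N ↔
          G x ∧ G y ∧ Disjoint x y := by
        rw [mem_Fam]
        constructor
        · rintro ⟨h3, h4, -⟩
          have hx1 : Function.update (Function.update s₀ u x) u' y u = x := by
            rw [stepB_up_apply, if_neg huu, if_pos rfl]
          have hy1 : Function.update (Function.update s₀ u x) u' y u' = y := by
            rw [stepB_up_apply, if_pos rfl]
          refine ⟨⟨?_, fun v => ?_⟩, ⟨?_, fun v => ?_⟩, ?_⟩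
          · have := h4 u
            rwa [hx1] at this
          · have h5 := hs₀ v
            by_cases h : v = u ∨ v = u'
            · rw [if_pos h] at h5
              rw [h5]
              exact Finset.disjoint_empty_right _
            · have := h3 u v (by tauto)
              rwa [hx1, stepB_up_apply, if_neg (by tauto), if_neg (by tauto)] at this
          · have := h4 u'
            rwa [hy1] at this
          · have h5 := hs₀ v
            by_cases h : v = u ∨ v = u'
            · rw [if_pos h] at h5
              rw [h5]
              exact Finset.disjoint_empty_right _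
            · have := h3 u' v (by tauto)
              rwa [hy1, stepB_up_apply, if_neg (by tauto), if_neg (by tauto)] at this
          · have := h3 u u' huu
            rwa [hx1, hy1] at this
        · rintro ⟨⟨gx1, gx2⟩, ⟨gy1, gy2⟩, hxy⟩
          refine ⟨fun v w hvw => ?_, fun v => ?_, ?_⟩
          · rw [stepB_up_apply, stepB_up_apply]
            by_cases h1 : v = u'
            · rw [if_pos h1]
              by_cases h3 : w = u'
              · exact absurd (h1.trans h3.symm) hvw
              · rw [if_neg h3]
                by_cases h4 : w = u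
                · rw [if_pos h4]
                  exact hxy.symm
                · rw [if_neg h4]
                  exact gy2 w
            · rw [if_neg h1]
              by_cases h5 : v = u
              · rw [if_pos h5]
                by_cases h3 : w = u'
                · rw [if_pos h3]
                  exact hxy
                · rw [if_neg h3]
                  by_cases h4 : w = u
                  · exact absurd (h5.trans h4.symm) hvw
                  · rw [if_neg h4]
                    exact gx2 w
              · rw [if_neg h5]
                by_cases h3 : w = u'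
                · rw [if_pos h3]
                  exact (gy2 v).symm
                · rw [if_neg h3]
                  by_cases h4 : w = u
                  · rw [if_pos h4]
                    exact (gx2 v).symm
                  · rw [if_neg h4]
                    exact ho1 v w hvw
          · rw [stepB_up_apply]
            by_cases h1 : v = u'
            · rw [if_pos h1]
              exact gy1
            · rw [if_neg h1]
              by_cases h5 : v = u
              · rw [if_pos h5]
                exact gx1
              · rw [if_neg h5]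
                exact ho2 v
          · rw [← hN]
            refine Finset.sum_congr rfl fun v _ => ?_
            rw [stepB_up_apply]
            by_cases h1 : v = u'
            · rw [if_pos h1, h1]
              exact hy.2
            · rw [if_neg h1]
              by_cases h5 : v = u
              · rw [if_pos h5, h5]
                exact hx.2
              · rw [if_neg h5]
                have := hs₀ v
                rwa [if_neg (by tauto)] at this
      by_cases hm : Function.update (Function.update s₀ u x) u' y ∈ Fam Ω S N
      · rw [if_pos hm]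
        obtain ⟨gx, gy, hxy⟩ := hiff.1 hm
        rw [if_pos gx, if_pos gy, if_pos hxy]
        exact hαβ x y hxy
      · rw [if_neg hm]
        by_cases gx : G x
        · by_cases gy : G y
          · have hxy : ¬ Disjoint x y := fun h => hm (hiff.2 ⟨gx, gy, h⟩)
            rw [if_neg hxy, mul_zero]
          · rw [if_neg gy, mul_zero, zero_mul]
        · rw [if_neg gx, zero_mul, zero_mul]
    have hsum : (∑ x ∈ Sq (∅ : Finset (Ir F)) (n u), ∑ y ∈ Sq (∅ : Finset (Ir F)) (n u'),
        if Function.update (Function.update s₀ u x) u' y ∈ Fam Ω S N then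
          D.W g κ S (Function.update (Function.update s₀ u x) u' y) else 0) =
        ∑ x ∈ Sq (∅ : Finset (Ir F)) (n u), ∑ y ∈ Sq (∅ : Finset (Ir F)) (n u'),
          (if G x then α x else 0) * (if G y then β y else 0) *
          (if Disjoint x y then e (D.lk u u' * g.LL x y) else 0) :=
      Finset.sum_congr rfl fun x hx => Finset.sum_congr rfl fun y hy => hterm x hx y hy
    rw [hsum]
    refine hkey.trans ?_
    rw [hb]
    have hle : ((n u + n u' : ℕ) : ℝ) ≤ (N : ℝ) := by
      have h6 : n u + n u' ≤ N := by
        rw [← hN, ← Finset.sum_pair huu]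
        exact Finset.sum_le_sum_of_subset (Finset.subset_univ _)
      exact_mod_cast h6
    refine mul_le_mul_of_nonneg_left ?_ (by positivity)
    refine Real.rpow_le_rpow (by positivity) ?_ (by norm_num)
    refine mul_le_mul_of_nonneg_right (by linarith) (by positivity)
  refine (norm_sum_le _ _).trans ((Finset.sum_le_sum hmain).trans ?_)
  rw [Finset.sum_const, nsmul_eq_mul, hb, ← mul_assoc]
  refine mul_le_mul_of_nonneg_right ?_ (by positivity)
  rw [← hN]
  exact_mod_cast stepB_card (F := F) n u u' huu

end Pool.Agent.Helper48.ST
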