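import Pool.Agent.Helper48.ST.StepA
import Pool.Agent.Helper48.ST.StepB

/-!
ST-32. Decomposition according to the set of long members.

Proof. For a family `s` let `V(s) = {u : T ≤ dgs (s u)}`. Write `∑_s W = ∑_V ∑_{V(s) = V} W`, `q = card F`, and `A`, `B` for the two bounds
`A = 6 * 2^m₀ T^m₀ q^N N^(-1/κ)`, `B = q^N ((N+1) q^(-T))^(1/4)`, `m₀ = card Ω`. `‖W s‖ = κ^(-∑ card)` (`norm_e`).
(i) The families with `card V(s) < κ`: at most `A` (`step_A`).
(ii) If `V` contains `u, u'` with `lk u u' ≠ 0`: the sum over `V(s) = V` is the sum over the degree vectors `n : Ω → {0..N}` with `{u : T ≤ n u} = V` of the sums of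
`step_B`, each at most `B`; the total number of degree vectors (all `V`) is at most `(N+1)^m₀`.
(iii) Otherwise `V` is unlinked, and `card V ≥ κ` gives `card V = κ` (`hD.le`). Then `∑_{V(s) = V} W = ∑_{V(s) ⊆ V} W - ∑_{V(s) ⊂ V} W`; the condition `V(s) ⊆ V` is
`∀ v ∉ V, dgs (s v) < T`, and in the second sum `card V(s) < κ`, so it is at most `A` (`step_A`). There are at most `2^m₀` sets `V`.
Together the difference on the left is at most `A + (N+1)^m₀ B + 2^m₀ A`.
-/

set_option autoImplicit false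

open Polynomial
open scoped Classical

namespace Pool.Agent.Helper48.ST

private theorem sub_mid (a b c d e : ℂ) (A B M : ℝ) (h1 : a = b + (c + d)) (hb : ‖b‖ ≤ A)
    (hd : ‖d‖ ≤ B) (he : ‖e - c‖ ≤ M * A) : ‖a - e‖ ≤ (1 + M) * A + B := by
  have h : a - e = b + d - (e - c) := by rw [h1]; ring
  rw [h]
  calc ‖b + d - (e - c)‖ ≤ ‖b + d‖ + ‖e - c‖ := norm_sub_le _ _
    _ ≤ ‖b‖ + ‖d‖ + ‖e - c‖ := by gcongr; exact norm_add_le _ _
    _ ≤ A + B + M * A := by gcongr
    _ = (1 + M) * A + B := by ring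

theorem decomp {F : Type} [Field F] [Fintype F] {ℓ : ℕ} [Fact ℓ.Prime] (g : Lg F ℓ) (h2 : ℓ ≠ 2)
    {Ω : Type} [Fintype Ω] (D : Dat F ℓ Ω) (κ : ℕ) (hκ : 1 ≤ κ) (hD : D.Ok κ)
    (S : Finset (Ir F)) (N T : ℕ) (hN : 1 ≤ N) (hT : 1 ≤ T)
    (hTN : 2 * Fintype.card Ω * T ≤ N) :
    ‖∑ s ∈ Fam Ω S N, D.W g κ S s -
      ∑ U ∈ Finset.univ.filter (fun U : Finset Ω => D.Unl U ∧ U.card = κ),
        ∑ s ∈ (Fam Ω S N).filter (fun s => ∀ v, v ∉ U → dgs (s v) < T), D.W g κ S s‖ ≤
      (1 + 2 ^ Fintype.card Ω) *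
        (6 * 2 ^ Fintype.card Ω * (T : ℝ) ^ Fintype.card Ω * (Fintype.card F : ℝ) ^ N *
          (N : ℝ) ^ (-(1 / (κ : ℝ)))) +
      ((N : ℝ) + 1) ^ Fintype.card Ω * ((Fintype.card F : ℝ) ^ N *
        (((N : ℝ) + 1) * ((Fintype.card F : ℝ)⁻¹) ^ T) ^ (1 / 4 : ℝ)) := by
  have hA := step_A (F := F) (Ω := Ω) κ hκ S N T hN hT hTN
  set A : ℝ := 6 * 2 ^ Fintype.card Ω * (T : ℝ) ^ Fintype.card Ω * (Fintype.card F : ℝ) ^ N *
          (N : ℝ) ^ (-(1 / (κ : ℝ))) with hAdef
  set B : ℝ := (Fintype.card F : ℝ) ^ N *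
        (((N : ℝ) + 1) * ((Fintype.card F : ℝ)⁻¹) ^ T) ^ (1 / 4 : ℝ) with hBdef
  have hB0 : 0 ≤ B := by positivity
  set V : (Ω → Finset (Ir F)) → Finset Ω := fun s => Finset.univ.filter fun u => T ≤ dgs (s u)
    with hV
  set UU : Finset (Finset Ω) :=
    Finset.univ.filter (fun U : Finset Ω => D.Unl U ∧ U.card = κ) with hUU
  have hnorm : ∀ s, ‖D.W g κ S s‖ = ((κ : ℝ)⁻¹) ^ (∑ u, (s u).card) := by
    intro s
    unfold Dat.W
    rw [norm_mul, norm_e, mul_one, norm_pow, norm_inv, Complex.norm_natCast]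
  -- every set of families with few long members has a small sum
  have hfew : ∀ Q : Finset (Ω → Finset (Ir F)),
      (∀ s ∈ Q, s ∈ Fam Ω S N ∧ (V s).card < κ) → ‖∑ s ∈ Q, D.W g κ S s‖ ≤ A := by
    intro Q hQ
    calc ‖∑ s ∈ Q, D.W g κ S s‖ ≤ ∑ s ∈ Q, ‖D.W g κ S s‖ := norm_sum_le _ _
      _ = ∑ s ∈ Q, ((κ : ℝ)⁻¹) ^ (∑ u, (s u).card) :=
        Finset.sum_congr rfl fun s _ => hnorm s
      _ ≤ ∑ s ∈ (Fam Ω S N).filter
        (fun s => (Finset.univ.filter fun u => T ≤ dgs (s u)).card < κ),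
          ((κ : ℝ)⁻¹) ^ (∑ u, (s u).card) := by
        apply Finset.sum_le_sum_of_subset_of_nonneg
        · intro s hs
          exact Finset.mem_filter.2 (hQ s hs)
        · intro s _ _
          positivity
      _ ≤ A := hA
  -- the families whose long members are linked
  have hlink : ‖∑ s ∈ (Fam Ω S N).filter (fun s => ¬ (V s).card < κ ∧ V s ∉ UU),
      D.W g κ S s‖ ≤ ((N : ℝ) + 1) ^ Fintype.card Ω * B := by
    set PN : Finset (Ω → ℕ) := Fintype.piFinset fun _ : Ω => Finset.range (N + 1) with hPN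
    set VN : (Ω → ℕ) → Finset Ω := fun n => Finset.univ.filter fun u => T ≤ n u with hVN
    set PP : Finset (Ω → ℕ) := PN.filter (fun n => ¬ (VN n).card < κ ∧ VN n ∉ UU) with hPP
    have hmaps : ∀ s ∈ (Fam Ω S N).filter (fun s => ¬ (V s).card < κ ∧ V s ∉ UU),
        (fun v => dgs (s v)) ∈ PP := by
      intro s hs
      obtain ⟨hs1, hs2⟩ := Finset.mem_filter.1 hs
      refine Finset.mem_filter.2 ⟨?_, hs2⟩
      rw [hPN, Fintype.mem_piFinset]
      intro v
      rw [Finset.mem_range]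
      have h3 := (mem_Fam.1 hs1).2.2
      have h4 : dgs (s v) ≤ ∑ u, dgs (s u) :=
        Finset.single_le_sum (f := fun u => dgs (s u)) (fun _ _ => Nat.zero_le _)
          (Finset.mem_univ v)
      omega
    rw [← Finset.sum_fiberwise_of_maps_to hmaps]
    have hn : ∀ n ∈ PP, ‖∑ s ∈ ((Fam Ω S N).filter (fun s => ¬ (V s).card < κ ∧ V s ∉ UU)).filter
        (fun s => (fun v => dgs (s v)) = n), D.W g κ S s‖ ≤ B := by
      intro n hn
      have hfeq : ((Fam Ω S N).filter (fun s => ¬ (V s).card < κ ∧ V s ∉ UU)).filter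
          (fun s => (fun v => dgs (s v)) = n) = (Fam Ω S N).filter (fun s => ∀ v, dgs (s v) = n v) := by
        ext s
        simp only [Finset.mem_filter]
        constructor
        · rintro ⟨⟨h3, -⟩, h4⟩
          exact ⟨h3, fun v => congrFun h4 v⟩
        · rintro ⟨h3, h4⟩
          have h5 : (fun v => dgs (s v)) = n := funext h4
          refine ⟨⟨h3, ?_⟩, h5⟩
          have h6 := (Finset.mem_filter.1 hn).2
          rw [← h5] at h6
          exact h6
      rw [hfeq]
      have h6 := (Finset.mem_filter.1 hn).2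
      have h7 : ¬ D.Unl (VN n) := by
        intro h8
        apply h6.2
        refine Finset.mem_filter.2 ⟨Finset.mem_univ _, h8, le_antisymm (hD.le _ h8) ?_⟩
        exact not_lt.1 h6.1
      unfold Dat.Unl at h7
      push Not at h7
      obtain ⟨u, hu, u', hu', hlk⟩ := h7
      exact step_B g h2 D hD.diag κ hκ S N T n u u' hlk (Finset.mem_filter.1 hu).2
        (Finset.mem_filter.1 hu').2
    refine (norm_sum_le _ _).trans ((Finset.sum_le_sum hn).trans ?_)
    rw [Finset.sum_const, nsmul_eq_mul]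
    refine mul_le_mul_of_nonneg_right ?_ hB0
    have hcard : PP.card ≤ (N + 1) ^ Fintype.card Ω := by
      refine (Finset.card_filter_le _ _).trans ?_
      rw [hPN, Fintype.card_piFinset]
      simp
    calc (PP.card : ℝ) ≤ (((N + 1) ^ Fintype.card Ω : ℕ) : ℝ) := by exact_mod_cast hcard
      _ = ((N : ℝ) + 1) ^ Fintype.card Ω := by push_cast; rfl
  -- the decomposition
  have h1 : ∑ s ∈ Fam Ω S N, D.W g κ S s =
      ∑ s ∈ (Fam Ω S N).filter (fun s => (V s).card < κ), D.W g κ S s +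
      (∑ s ∈ (Fam Ω S N).filter (fun s => V s ∈ UU), D.W g κ S s +
        ∑ s ∈ (Fam Ω S N).filter (fun s => ¬ (V s).card < κ ∧ V s ∉ UU), D.W g κ S s) := by
    rw [← Finset.sum_filter_add_sum_filter_not (Fam Ω S N) (fun s => (V s).card < κ)]
    congr 1
    rw [← Finset.sum_filter_add_sum_filter_not ((Fam Ω S N).filter fun s => ¬ (V s).card < κ)
      (fun s => V s ∈ UU), Finset.filter_filter, Finset.filter_filter]
    congr 1
    refine Finset.sum_congr ?_ fun _ _ => rfl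
    ext s
    simp only [Finset.mem_filter]
    constructor
    · rintro ⟨h3, -, h4⟩
      exact ⟨h3, h4⟩
    · rintro ⟨h3, h4⟩
      refine ⟨h3, ?_, h4⟩
      have := (Finset.mem_filter.1 h4).2.2
      omega
  have hc : ∑ s ∈ (Fam Ω S N).filter (fun s => V s ∈ UU), D.W g κ S s =
      ∑ U ∈ UU, ∑ s ∈ (Fam Ω S N).filter (fun s => V s = U), D.W g κ S s := by
    rw [← Finset.sum_fiberwise_of_maps_to (s := (Fam Ω S N).filter (fun s => V s ∈ UU)) (t := UU)
      (g := V) (fun s hs => (Finset.mem_filter.1 hs).2)]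
    refine Finset.sum_congr rfl fun U hU => ?_
    rw [Finset.filter_filter]
    refine Finset.sum_congr ?_ fun _ _ => rfl
    ext s
    simp only [Finset.mem_filter]
    constructor
    · rintro ⟨h3, -, h4⟩
      exact ⟨h3, h4⟩
    · rintro ⟨h3, h4⟩
      exact ⟨h3, h4 ▸ hU, h4⟩
  refine sub_mid _ _ _ _ _ A _ _ h1 (hfew _ fun s hs => Finset.mem_filter.1 hs) hlink ?_
  rw [hc, ← Finset.sum_sub_distrib]
  have hU : ∀ U ∈ UU, ‖∑ s ∈ (Fam Ω S N).filter (fun s => ∀ v, v ∉ U → dgs (s v) < T), D.W g κ S s -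
      ∑ s ∈ (Fam Ω S N).filter (fun s => V s = U), D.W g κ S s‖ ≤ A := by
    intro U hU
    have hUc := (Finset.mem_filter.1 hU).2.2
    have hsub : ∀ s, (∀ v, v ∉ U → dgs (s v) < T) ↔ V s ⊆ U := by
      intro s
      constructor
      · intro h v hv
        by_contra hvU
        have h3 := (Finset.mem_filter.1 hv).2
        have h4 := h v hvU
        omega
      · intro h v hv
        by_contra h3
        exact hv (h (Finset.mem_filter.2 ⟨Finset.mem_univ _, not_lt.1 h3⟩))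
    have h3 : (Fam Ω S N).filter (fun s => ∀ v, v ∉ U → dgs (s v) < T) =
        (Fam Ω S N).filter (fun s => V s ⊆ U) :=
      Finset.filter_congr fun s _ => hsub s
    rw [h3, ← Finset.sum_filter_add_sum_filter_not ((Fam Ω S N).filter (fun s => V s ⊆ U))
      (fun s => V s = U), Finset.filter_filter, Finset.filter_filter]
    have h4 : (Fam Ω S N).filter (fun s => V s ⊆ U ∧ V s = U) =
        (Fam Ω S N).filter (fun s => V s = U) :=
      Finset.filter_congr fun s _ => ⟨fun h => h.2, fun h => ⟨h.subset, h⟩⟩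
    rw [h4, add_sub_cancel_left]
    refine hfew _ fun s hs => ?_
    obtain ⟨h5, h6, h7⟩ := Finset.mem_filter.1 hs
    refine ⟨h5, ?_⟩
    rw [← hUc]
    exact Finset.card_lt_card (lt_of_le_of_ne h6 h7)
  refine (norm_sum_le _ _).trans ((Finset.sum_le_sum hU).trans ?_)
  rw [Finset.sum_const, nsmul_eq_mul]
  have hA0 : 0 ≤ A := by positivity
  refine mul_le_mul_of_nonneg_right ?_ hA0
  have hcard : UU.card ≤ 2 ^ Fintype.card Ω := by
    refine (Finset.card_filter_le _ _).trans ?_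
    rw [Finset.card_univ, Fintype.card_finset]
  calc (UU.card : ℝ) ≤ ((2 ^ Fintype.card Ω : ℕ) : ℝ) := by exact_mod_cast hcard
    _ = 2 ^ Fintype.card Ω := by push_cast; rfl

end Pool.Agent.Helper48.ST
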