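import Mathlib

/-!
# Project ST (MP_8ac872_ag, SelmerTwists): definitions

* `Ir F`: monic irreducible polynomials over the finite field `F`; `IrLe F N`, `IrEq F k`: of degree at most `N`,
  exactly `k`; `Mon F k`: monic polynomials of degree `k`.
* `dgs s`, `pr s`: degree and product of a finite set `s` of monic irreducible polynomials.
* `Sq S N`: finite sets of monic irreducible polynomials, disjoint from `S`, of total degree `N` (squarefree monic
  polynomials of degree `N` prime to `S`).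
* `Fam ι S N`: families `s : ι → Finset (Ir F)`, pairwise disjoint and disjoint from `S`, of total degree `N`.
* `Lg F ℓ`: discrete logarithm `Fˣ → ZMod ℓ`; `g.L A B = g (Res(B, A))`: the logarithm of the power residue
  symbol of `A` modulo `B`; `g.LL s t` the same for finite sets of irreducibles.
* `e x = exp(2 π i x / ℓ)` for `x : ZMod ℓ`.
-/

set_option autoImplicit false

open Polynomial

namespace Pool.Agent.Helper48.ST

/-- Monic irreducible polynomials. -/
abbrev Ir (F : Type) [Field F] : Type := {P : F[X] // P.Monic ∧ Irreducible P}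

noncomputable section

open scoped Classical

/-- Total degree of a finite set of monic irreducible polynomials. -/
def dgs {F : Type} [Field F] (s : Finset (Ir F)) : ℕ := ∑ P ∈ s, P.1.natDegree

/-- Product of a finite set of monic irreducible polynomials. -/
def pr {F : Type} [Field F] (s : Finset (Ir F)) : F[X] := ∏ P ∈ s, P.1

theorem natDegree_le_finite (F : Type) [Field F] [Finite F] (N : ℕ) :
    {A : F[X] | A.natDegree ≤ N}.Finite := by
  refine Set.Finite.of_finite_image (f := fun A : F[X] => fun i : Fin (N + 1) => A.coeff i)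
    (Set.toFinite _) ?_
  intro A hA B hB h
  have hA' : A.natDegree ≤ N := hA
  have hB' : B.natDegree ≤ N := hB
  ext i
  by_cases hi : i ≤ N
  · exact congrFun h ⟨i, by omega⟩
  · rw [coeff_eq_zero_of_natDegree_lt (lt_of_le_of_lt hA' (by omega)),
      coeff_eq_zero_of_natDegree_lt (lt_of_le_of_lt hB' (by omega))]

theorem irLe_finite (F : Type) [Field F] [Finite F] (N : ℕ) :
    {P : Ir F | P.1.natDegree ≤ N}.Finite :=
  Set.Finite.preimage (f := fun P : Ir F => P.1) Subtype.val_injective.injOn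
    (natDegree_le_finite F N)

theorem mon_finite (F : Type) [Field F] [Finite F] (k : ℕ) :
    {A : F[X] | A.Monic ∧ A.natDegree = k}.Finite :=
  (natDegree_le_finite F k).subset fun _ hA => le_of_eq hA.2

/-- Monic irreducible polynomials of degree at most `N`. -/
def IrLe (F : Type) [Field F] [Fintype F] (N : ℕ) : Finset (Ir F) := (irLe_finite F N).toFinset

@[simp] theorem mem_IrLe {F : Type} [Field F] [Fintype F] {N : ℕ} {P : Ir F} :
    P ∈ IrLe F N ↔ P.1.natDegree ≤ N := by simp [IrLe]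

/-- Monic irreducible polynomials of degree `k`. -/
def IrEq (F : Type) [Field F] [Fintype F] (k : ℕ) : Finset (Ir F) :=
  (IrLe F k).filter fun P => P.1.natDegree = k

@[simp] theorem mem_IrEq {F : Type} [Field F] [Fintype F] {k : ℕ} {P : Ir F} :
    P ∈ IrEq F k ↔ P.1.natDegree = k := by
  simp only [IrEq, Finset.mem_filter, mem_IrLe]
  exact ⟨fun h => h.2, fun h => ⟨h.le, h⟩⟩

/-- Monic polynomials of degree `k`. -/
def Mon (F : Type) [Field F] [Fintype F] (k : ℕ) : Finset F[X] := (mon_finite F k).toFinset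

@[simp] theorem mem_Mon {F : Type} [Field F] [Fintype F] {k : ℕ} {A : F[X]} :
    A ∈ Mon F k ↔ A.Monic ∧ A.natDegree = k := by simp [Mon]

/-- Finite sets of monic irreducible polynomials, disjoint from `S`, of total degree `N`. -/
def Sq {F : Type} [Field F] [Fintype F] (S : Finset (Ir F)) (N : ℕ) : Finset (Finset (Ir F)) :=
  (IrLe F N).powerset.filter fun t => Disjoint t S ∧ dgs t = N

theorem natDegree_le_dgs {F : Type} [Field F] {s : Finset (Ir F)} {P : Ir F} (h : P ∈ s) :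
    P.1.natDegree ≤ dgs s :=
  Finset.single_le_sum (f := fun P : Ir F => P.1.natDegree) (fun _ _ => Nat.zero_le _) h

@[simp] theorem mem_Sq {F : Type} [Field F] [Fintype F] {S : Finset (Ir F)} {N : ℕ}
    {t : Finset (Ir F)} : t ∈ Sq S N ↔ Disjoint t S ∧ dgs t = N := by
  simp only [Sq, Finset.mem_filter, Finset.mem_powerset]
  refine ⟨fun h => h.2, fun h => ⟨fun P hP => ?_, h⟩⟩
  rw [mem_IrLe, ← h.2]
  exact natDegree_le_dgs hP

/-- Families of pairwise disjoint finite sets of monic irreducible polynomials, disjoint from `S`, of total degree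
`N`. -/
def Fam {F : Type} [Field F] [Fintype F] (ι : Type) [Fintype ι] (S : Finset (Ir F)) (N : ℕ) :
    Finset (ι → Finset (Ir F)) :=
  (Fintype.piFinset fun _ : ι => (IrLe F N).powerset).filter fun s =>
    (∀ u v, u ≠ v → Disjoint (s u) (s v)) ∧ (∀ u, Disjoint (s u) S) ∧ ∑ u, dgs (s u) = N

theorem mem_Fam {F : Type} [Field F] [Fintype F] {ι : Type} [Fintype ι] {S : Finset (Ir F)} {N : ℕ}
    {s : ι → Finset (Ir F)} : s ∈ Fam ι S N ↔
      (∀ u v, u ≠ v → Disjoint (s u) (s v)) ∧ (∀ u, Disjoint (s u) S) ∧ ∑ u, dgs (s u) = N := by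
  simp only [Fam, Finset.mem_filter, Fintype.mem_piFinset, Finset.mem_powerset]
  refine ⟨fun h => h.2, fun h => ⟨fun u P hP => ?_, h⟩⟩
  rw [mem_IrLe, ← h.2.2]
  exact (natDegree_le_dgs hP).trans
    (Finset.single_le_sum (f := fun u => dgs (s u)) (fun _ _ => Nat.zero_le _) (Finset.mem_univ u))

/-- The additive character `x ↦ exp(2 π i x / ℓ)`. -/
def e {ℓ : ℕ} [NeZero ℓ] (x : ZMod ℓ) : ℂ := ZMod.stdAddChar x

theorem e_add {ℓ : ℕ} [NeZero ℓ] (x y : ZMod ℓ) : e (x + y) = e x * e y :=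
  AddChar.map_add_eq_mul _ x y

theorem e_zero {ℓ : ℕ} [NeZero ℓ] : e (0 : ZMod ℓ) = 1 := AddChar.map_zero_eq_one _

theorem norm_e {ℓ : ℕ} [NeZero ℓ] (x : ZMod ℓ) : ‖e x‖ = 1 := by
  simp [e, ZMod.stdAddChar_apply]

/-- A discrete logarithm with values in `ZMod ℓ` on a field. -/
structure Lg (F : Type) [Field F] (ℓ : ℕ) where
  toFun : F → ZMod ℓ
  map_mul' : ∀ a b, a ≠ 0 → b ≠ 0 → toFun (a * b) = toFun a + toFun b
  surj' : ∀ c, ∃ a, a ≠ 0 ∧ toFun a = c
  ker' : ∀ a, a ≠ 0 → toFun a = 0 → ∃ b, b ^ ℓ = a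

/-- Logarithm of the `ℓ`-th power residue symbol of `A` modulo `B`. -/
def Lg.L {F : Type} [Field F] {ℓ : ℕ} (g : Lg F ℓ) (A B : F[X]) : ZMod ℓ :=
  g.toFun (resultant B A)

/-- The same for finite sets of irreducibles. -/
def Lg.LL {F : Type} [Field F] {ℓ : ℕ} (g : Lg F ℓ) (s t : Finset (Ir F)) : ZMod ℓ :=
  ∑ P ∈ s, ∑ R ∈ t, g.L P.1 R.1

/-- The character `B ↦ e (∑_{P ∈ R} c P * L(B, P))` modulo `∏_{P ∈ R} P`. -/
def Lg.chi {F : Type} [Field F] {ℓ : ℕ} [NeZero ℓ] (g : Lg F ℓ) (c : Ir F → ZMod ℓ)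
    (R : Finset (Ir F)) (B : F[X]) : ℂ :=
  if IsCoprime B (pr R) then e (∑ P ∈ R, c P * g.L B P.1) else 0

/-- The coefficients of the logarithmic derivative of the `L`-function of `χ` (von Mangoldt function): sum over the
prime powers of degree `k` of `deg P * χ(P^(k/d))`. -/
def cc {F : Type} [Field F] [Fintype F] (χ : F[X] → ℂ) (k : ℕ) : ℂ :=
  ∑ d ∈ k.divisors, (d : ℂ) * ∑ P ∈ IrEq F d, χ P.1 ^ (k / d)

/-- Data for the main character sum: `K` (linking), `A` (twists by the degree), `G` (exponents at the primes of `S`). -/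
structure Dat (F : Type) [Field F] (ℓ : ℕ) (Ω : Type) where
  K : Ω → Ω → ZMod ℓ
  A : Ω → ZMod ℓ
  G : Ir F → Ω → ZMod ℓ

/-- Symmetrised linking numbers. -/
def Dat.lk {F : Type} [Field F] {ℓ : ℕ} {Ω : Type} (D : Dat F ℓ Ω) (u v : Ω) : ZMod ℓ :=
  D.K u v + D.K v u

/-- Unlinked set of indices. -/
def Dat.Unl {F : Type} [Field F] {ℓ : ℕ} {Ω : Type} (D : Dat F ℓ Ω) (U : Finset Ω) : Prop :=
  ∀ u ∈ U, ∀ v ∈ U, D.lk u v = 0

/-- The phase of a family. -/
def Dat.phase {F : Type} [Field F] {ℓ : ℕ} {Ω : Type} [Fintype Ω] (D : Dat F ℓ Ω) (g : Lg F ℓ)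
    (S : Finset (Ir F)) (s : Ω → Finset (Ir F)) : ZMod ℓ :=
  ∑ u, (D.A u * (dgs (s u) : ZMod ℓ) + ∑ π ∈ S, D.G π u * g.LL {π} (s u)) +
    ∑ u, ∑ v, D.K u v * g.LL (s u) (s v)

/-- The weight of a family. -/
def Dat.W {F : Type} [Field F] {ℓ : ℕ} [NeZero ℓ] {Ω : Type} [Fintype Ω] (D : Dat F ℓ Ω)
    (g : Lg F ℓ) (κ : ℕ) (S : Finset (Ir F)) (s : Ω → Finset (Ir F)) : ℂ :=
  ((κ : ℂ)⁻¹) ^ (∑ u, (s u).card) * e (D.phase g S s)

/-- Hypotheses on the linking numbers: `κ` bounds the size of unlinked sets, and unlinked sets with `κ` elements are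
rigid. -/
structure Dat.Ok {F : Type} [Field F] {ℓ : ℕ} {Ω : Type} (D : Dat F ℓ Ω) (κ : ℕ) : Prop where
  diag : ∀ u, D.K u u = 0
  le : ∀ U : Finset Ω, D.Unl U → U.card ≤ κ
  rigid : ∀ U : Finset Ω, D.Unl U → U.card = κ → ∀ v, v ∉ U → ∃ u ∈ U, ∃ u' ∈ U, D.lk u v ≠ D.lk u' v

/-- All data are constant on `U`. -/
def Dat.Cst {F : Type} [Field F] {ℓ : ℕ} {Ω : Type} (D : Dat F ℓ Ω) (S : Finset (Ir F))
    (U : Finset Ω) : Prop :=
  ∀ u ∈ U, ∀ v ∈ U, D.A u = D.A v ∧ ∀ π ∈ S, D.G π u = D.G π v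

/-- The number of maximal unlinked sets on which all data are constant. -/
def Dat.cnt {F : Type} [Field F] {ℓ : ℕ} {Ω : Type} [Fintype Ω] (D : Dat F ℓ Ω) (κ : ℕ)
    (S : Finset (Ir F)) : ℕ :=
  (Finset.univ.filter fun U : Finset Ω => D.Unl U ∧ U.card = κ ∧ D.Cst S U).card

/-- Gluing a family indexed by `U` and a family indexed by the complement. -/
def glue {F : Type} [Field F] {Ω : Type} (U : Finset Ω) (s : {u : Ω // u ∈ U} → Finset (Ir F))
    (s' : {u : Ω // u ∉ U} → Finset (Ir F)) (u : Ω) : Finset (Ir F) :=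
  if h : u ∈ U then s ⟨u, h⟩ else s' ⟨u, h⟩

/-- Union of the members of a family. -/
def uni {F : Type} [Field F] {ι : Type} [Fintype ι] (s : ι → Finset (Ir F)) : Finset (Ir F) :=
  Finset.univ.biUnion s

/-- The local phase at `P` of index `u ∈ U` with respect to the short members `s'` of the family. -/
def Dat.phi {F : Type} [Field F] {ℓ : ℕ} {Ω : Type} [Fintype Ω] (D : Dat F ℓ Ω) (g : Lg F ℓ)
    (S : Finset (Ir F)) (U : Finset Ω) (s' : {u : Ω // u ∉ U} → Finset (Ir F)) (u : Ω) (P : Ir F) :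
    ZMod ℓ :=
  D.A u * (P.1.natDegree : ZMod ℓ) + ∑ π ∈ S, D.G π u * g.L P.1 π.1 +
    ∑ v, D.lk u v.1 * ∑ R ∈ s' v, g.L P.1 R.1

/-- The mean over `U` of the characters at `P`. -/
def Dat.h {F : Type} [Field F] {ℓ : ℕ} [NeZero ℓ] {Ω : Type} [Fintype Ω] (D : Dat F ℓ Ω)
    (g : Lg F ℓ) (κ : ℕ) (S : Finset (Ir F)) (U : Finset Ω)
    (s' : {u : Ω // u ∉ U} → Finset (Ir F)) (P : Ir F) : ℝ :=
  ‖(κ : ℂ)⁻¹ * ∑ u ∈ U, e (D.phi g S U s' u P)‖

end

end Pool.Agent.Helper48.ST
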