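import Pool.Agent.Helper48.ST.Defs

/-!
# Project ST, stage 2: definitions for the explicit description of the Selmer group

* `vl P x`, `lgc g x`, `ch g P x` for a rational function `x`: valuation at the monic irreducible polynomial `P`,
  logarithm of the leading coefficient, logarithm of the power residue symbol modulo `P` of the part of `x` prime
  to `P`.
* `Vs n ℓ`: the vectors `w : Fin n → ZMod ℓ` of sum `0`.
* `disc a`, `SS a`: the product of the differences `a i - a j`, `i < j`, and its prime divisors; `Stp`: the standing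
  hypotheses on `a`; `Pairs a pa pb`: each `P ∈ SS a` divides exactly one difference `a (pa P) - a (pb P)`.
* `Tor a D w j`: the class of the divisor of degree zero supported on the ramification points.
* `InS g a t x`: the local conditions for the twist by `D = pr t`.
* `DatP`: the data of the character sum belonging to a parameter `p = ((λ, e), (s, r))`.
-/

set_option autoImplicit false

open Polynomial

namespace Pool.Agent.Helper48.ST

noncomputable section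

open scoped Classical

/-- Valuation of a rational function at a monic irreducible polynomial. -/
def vl {F : Type} [Field F] (P : Ir F) (x : RatFunc F) : ℤ :=
  (multiplicity P.1 x.num : ℤ) - (multiplicity P.1 x.denom : ℤ)

/-- Logarithm of the leading coefficient. -/
def lgc {F : Type} [Field F] {ℓ : ℕ} (g : Lg F ℓ) (x : RatFunc F) : ZMod ℓ :=
  g.toFun x.num.leadingCoeff

/-- The part of `A` prime to `P`. -/
def fp {F : Type} [Field F] (P : Ir F) (A : F[X]) : F[X] :=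
  A /ₘ P.1 ^ multiplicity P.1 A

/-- Logarithm of the residue symbol modulo `P` of the part of `x` prime to `P`. -/
def ch {F : Type} [Field F] {ℓ : ℕ} (g : Lg F ℓ) (P : Ir F) (x : RatFunc F) : ZMod ℓ :=
  g.L (fp P x.num) P.1 - g.L (fp P x.denom) P.1

/-- Vectors of sum zero. -/
def Vs (n ℓ : ℕ) : Submodule (ZMod ℓ) (Fin n → ZMod ℓ) where
  carrier := {w | ∑ i, w i = 0}
  add_mem' := by
    intro a b ha hb
    change ∑ i, (a + b) i = 0
    have ha' : ∑ i, a i = 0 := ha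
    have hb' : ∑ i, b i = 0 := hb
    simp only [Pi.add_apply, Finset.sum_add_distrib]
    rw [ha', hb', add_zero]
  zero_mem' := by simp
  smul_mem' := by
    intro c x hx
    change ∑ i, (c • x) i = 0
    have hx' : ∑ i, x i = 0 := hx
    simp only [Pi.smul_apply, smul_eq_mul, ← Finset.mul_sum]
    rw [hx', mul_zero]

theorem mem_Vs {n ℓ : ℕ} {w : Fin n → ZMod ℓ} : w ∈ Vs n ℓ ↔ ∑ i, w i = 0 := Iff.rfl

/-- Product of the differences. -/
def disc {F : Type} [Field F] {n : ℕ} (a : Fin n → F[X]) : F[X] :=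
  ∏ i, ∏ j ∈ Finset.Ioi i, (a i - a j)

/-- Prime divisors of the discriminant. -/
def SS {F : Type} [Field F] [Fintype F] {n : ℕ} (a : Fin n → F[X]) : Finset (Ir F) :=
  (IrLe F (disc a).natDegree).filter fun P => P.1 ∣ disc a

/-- The standing hypotheses. -/
structure Stp {F : Type} [Field F] {n : ℕ} (d : ℕ) (a : Fin n → F[X]) : Prop where
  deg : ∀ i, (a i).natDegree ≤ d
  lead : ∀ i j, i ≠ j → (a i).coeff d ≠ (a j).coeff d
  sqf : Squarefree (disc a)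

/-- Each prime divisor of the discriminant divides exactly one difference. -/
def Pairs {F : Type} [Field F] [Fintype F] {n : ℕ} (a : Fin n → F[X]) (pa pb : Ir F → Fin n) :
    Prop :=
  ∀ P ∈ SS a, pa P < pb P ∧ P.1 ∣ a (pa P) - a (pb P) ∧
    ∀ i j, i < j → P.1 ∣ a i - a j → i = pa P ∧ j = pb P

/-- The class of the divisor `∑ w_i P_i` of degree zero, `P_i = (a_i, 0)`. -/
def Tor {F : Type} [Field F] {n : ℕ} (a : Fin n → F[X]) (D : F[X]) (w : Fin n → ℤ) (j : Fin n) :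
    RatFunc F :=
  algebraMap F[X] (RatFunc F) D ^ w j *
    ∏ i ∈ Finset.univ.erase j, (algebraMap F[X] (RatFunc F) (a j - a i)) ^ (w j - w i)

/-- The explicit conditions on `x` for the twist by `D = pr t`. -/
structure InS {F : Type} [Field F] {ℓ : ℕ} (g : Lg F ℓ) {n : ℕ} (a : Fin n → F[X])
    (t : Finset (Ir F)) (x : Fin n → (RatFunc F)ˣ) : Prop where
  prod : ∃ c : (RatFunc F)ˣ, ∏ j, x j = c ^ ℓ
  inf : ∀ j, (ℓ : ℤ) ∣ (x j : RatFunc F).intDegree
  loc : ∀ P : Ir F, ∃ w : Fin n → ℤ, ∑ i, w i = 0 ∧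
    (∀ j, (ℓ : ℤ) ∣ vl P (x j) - vl P (Tor a (pr t) w j)) ∧
    (P ∈ t → ∀ j, ch g P (x j) = ch g P (Tor a (pr t) w j)) ∧
    (∀ j k, j ≠ k → P.1 ∣ a j - a k →
      ch g P (x j) - ch g P (x k) = ch g P (Tor a (pr t) w j) - ch g P (Tor a (pr t) w k))

/-- `ℓ`-th powers. -/
abbrev Pw (F : Type) [Field F] (n ℓ : ℕ) : Subgroup (Fin n → (RatFunc F)ˣ) :=
  (powMonoidHom ℓ : (Fin n → (RatFunc F)ˣ) →* (Fin n → (RatFunc F)ˣ)).range

/-- Classes modulo `ℓ`-th powers satisfying the explicit conditions. -/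
def clsS {F : Type} [Field F] {ℓ : ℕ} (g : Lg F ℓ) {n : ℕ} (a : Fin n → F[X])
    (t : Finset (Ir F)) : Set ((Fin n → (RatFunc F)ˣ) ⧸ Pw F n ℓ) :=
  (fun x : Fin n → (RatFunc F)ˣ => (x : (Fin n → (RatFunc F)ˣ) ⧸ Pw F n ℓ)) ''
    {x : Fin n → (RatFunc F)ˣ | InS g a t x}

/-- Pairs (vector of sum zero, function on `S`). -/
abbrev Pr (F : Type) [Field F] (n ℓ : ℕ) (S : Finset (Ir F)) : Type :=
  Vs n ℓ × ({P : Ir F // P ∈ S} → ZMod ℓ)

/-- Extension by zero. -/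
def ex {F : Type} [Field F] {ℓ : ℕ} {S : Finset (Ir F)} (f : {P : Ir F // P ∈ S} → ZMod ℓ)
    (P : Ir F) : ZMod ℓ :=
  if h : P ∈ S then f ⟨P, h⟩ else 0

/-- The data of the character sum with parameters `y = (λ, e)`, `z = (s, r)`. -/
def DatP {F : Type} [Field F] {ℓ : ℕ} (g : Lg F ℓ) {n : ℕ} (a : Fin n → F[X])
    (pa pb : Ir F → Fin n) (S : Finset (Ir F)) (y z : Pr F n ℓ S) : Dat F ℓ (Vs n ℓ × Vs n ℓ) where
  K u v := ∑ j, (v.1.1 j - u.1.1 j) * u.2.1 j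
  A u := ∑ j, z.1.1 j * u.1.1 j + ∑ j, y.1.1 j * u.2.1 j +
    ∑ i, ∑ j ∈ Finset.Ioi i,
      (u.1.1 i - u.1.1 j) * (u.2.1 j - u.2.1 i) * g.toFun (a i - a j).leadingCoeff
  G π u := (u.1.1 (pa π) - u.1.1 (pb π) + ex y.2 π) * (u.2.1 (pb π) - u.2.1 (pa π) + ex z.2 π)

/-- The condition at `P ∈ t`, paired with the vector `z`. -/
def EP {F : Type} [Field F] {ℓ : ℕ} (g : Lg F ℓ) {n : ℕ} (a : Fin n → F[X])
    (pa pb : Ir F → Fin n) (S t : Finset (Ir F)) (y : Pr F n ℓ S)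
    (w : {P : Ir F // P ∈ t} → Vs n ℓ) (P : {P : Ir F // P ∈ t}) (z : Vs n ℓ) : ZMod ℓ :=
  ∑ R ∈ Finset.univ.erase P, (∑ j, ((w R).1 j - (w P).1 j) * z.1 j) * g.L R.1.1 P.1.1 +
    ∑ π ∈ S, ((w P).1 (pa π) - (w P).1 (pb π) + ex y.2 π) * (z.1 (pb π) - z.1 (pa π)) *
      g.L π.1 P.1.1 +
    (P.1.1.natDegree : ZMod ℓ) * (∑ j, y.1.1 j * z.1 j +
      ∑ i, ∑ j ∈ Finset.Ioi i,
        ((w P).1 i - (w P).1 j) * (z.1 j - z.1 i) * g.toFun (a i - a j).leadingCoeff)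

/-- The condition at `π ∈ S`, up to a constant not depending on `t`, `w`. -/
def ES {F : Type} [Field F] {ℓ : ℕ} (g : Lg F ℓ) {n : ℕ} (pa pb : Ir F → Fin n)
    (S t : Finset (Ir F)) (y : Pr F n ℓ S) (w : {P : Ir F // P ∈ t} → Vs n ℓ) (π : Ir F) :
    ZMod ℓ :=
  ∑ P, ((w P).1 (pa π) - (w P).1 (pb π) + ex y.2 π) * g.L P.1.1 π.1

/-- The condition at infinity, paired with the vector `s`, up to a constant not depending on `t`, `w`. -/
def EI {F : Type} [Field F] {ℓ n : ℕ} (t : Finset (Ir F)) (w : {P : Ir F // P ∈ t} → Vs n ℓ)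
    (s : Vs n ℓ) : ZMod ℓ :=
  ∑ P, (P.1.1.natDegree : ZMod ℓ) * ∑ j, s.1 j * (w P).1 j

/-- A vector as an element of `Vs` (zero if the sum is not zero). -/
def toV {n ℓ : ℕ} (w : Fin n → ZMod ℓ) : Vs n ℓ := if h : w ∈ Vs n ℓ then ⟨w, h⟩ else 0

/-- The parameters of `x`. -/
def prm {F : Type} [Field F] {ℓ : ℕ} (g : Lg F ℓ) {n : ℕ} (pb : Ir F → Fin n)
    (S t : Finset (Ir F)) (x : Fin n → (RatFunc F)ˣ) :
    Pr F n ℓ S × ({P : Ir F // P ∈ t} → Vs n ℓ) :=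
  ((toV fun j => lgc g (x j : RatFunc F), fun π => ((vl π.1 (x (pb π.1) : RatFunc F) : ℤ) : ZMod ℓ)),
    fun P => toV fun j => ((vl P.1 (x j : RatFunc F) : ℤ) : ZMod ℓ))

/-- Isotropic sets of indices. -/
def Iso {n ℓ : ℕ} (U : Finset (Vs n ℓ × Vs n ℓ)) : Prop :=
  ∀ u ∈ U, ∀ v ∈ U, ∑ j, (v.1.1 j - u.1.1 j) * (v.2.1 j - u.2.1 j) = 0

/-- The polar form. -/
def pol {n ℓ : ℕ} (x y : Vs n ℓ × Vs n ℓ) : ZMod ℓ :=
  ∑ j, (x.1.1 j * y.2.1 j + x.2.1 j * y.1.1 j)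

/-- Solutions `(y, w)` of all conditions, `cS`, `cI` being the constants. -/
def Sol {F : Type} [Field F] {ℓ : ℕ} [NeZero ℓ] (g : Lg F ℓ) {n : ℕ} (a : Fin n → F[X])
    (pa pb : Ir F → Fin n) (S t : Finset (Ir F)) (cS : Pr F n ℓ S → Ir F → ZMod ℓ)
    (cI : Pr F n ℓ S → Vs n ℓ → ZMod ℓ) :
    Finset (Pr F n ℓ S × ({P : Ir F // P ∈ t} → Vs n ℓ)) :=
  Finset.univ.filter fun yw =>
    (∀ P z, EP g a pa pb S t yw.1 yw.2 P z = 0) ∧
    (∀ π ∈ S, ES g pa pb S t yw.1 yw.2 π + cS yw.1 π = 0) ∧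
    (∀ s, EI t yw.2 s + cI yw.1 s = 0)

end

end Pool.Agent.Helper48.ST
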