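import Pool.Agent.Helper48.ST.LSets
import Pool.Agent.Helper48.ST.Defs2

/-!
ST-44. The differences `a i - a j` and the set `SS a`.

Proof. `a i - a j` has degree exactly `d` because the coefficients of `X^d` are different (`natDegree ≤ d`). Its prime factors divide `disc a` (a product of all the differences with `i < j`), so they are in
`SS a` (`natDegree ≤ natDegree (disc a)` as `disc a ≠ 0`). A monic irreducible `P` dividing `disc a` divides one of the differences (`Prime.dvd_finset_prod_iff`), and only one: otherwise `P^2` divides the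
product, which is squarefree; this gives `exists_pairs` (choose the pair; for `P ∉ SS a` take any value, `n ≥ 1`). `diff_dec`: `a i - a j` is squarefree (divides `disc a`), so it is its leading
coefficient times the product of its different monic prime factors. `exists_over`: `d ≥ 1`, so `a i - a j` is not a unit and has a monic irreducible factor.
-/

set_option autoImplicit false

open Polynomial
open scoped Classical

namespace Pool.Agent.Helper48.ST

variable {F : Type} [Field F] [Fintype F] {n : ℕ}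

theorem diffB_dvd_disc (a : Fin n → F[X]) {i j : Fin n} (h : i < j) : a i - a j ∣ disc a := by
  unfold disc
  exact (Finset.dvd_prod_of_mem (fun j => a i - a j) (Finset.mem_Ioi.mpr h)).trans
    (Finset.dvd_prod_of_mem (fun i => ∏ j ∈ Finset.Ioi i, (a i - a j)) (Finset.mem_univ i))

theorem diffB_dvd_disc' (a : Fin n → F[X]) {i j : Fin n} (h : i ≠ j) : a i - a j ∣ disc a := by
  rcases lt_or_gt_of_ne h with h' | h'
  · exact diffB_dvd_disc a h'
  · have h1 := diffB_dvd_disc a h'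
    have h2 : a i - a j = -(a j - a i) := by ring
    rw [h2, neg_dvd]
    exact h1

theorem diffB_of_dvd (a : Fin n → F[X]) (P : Ir F) (h : P.1 ∣ disc a) :
    ∃ i j, i < j ∧ P.1 ∣ a i - a j := by
  unfold disc at h
  obtain ⟨i, -, hi⟩ := (P.2.2.prime).exists_mem_finset_dvd h
  obtain ⟨j, hj, hij⟩ := (P.2.2.prime).exists_mem_finset_dvd hi
  exact ⟨i, j, Finset.mem_Ioi.mp hj, hij⟩

theorem diffB_mul_dvd (a : Fin n → F[X]) {i j k l : Fin n} (hij : i < j) (hkl : k < l)
    (h : ¬ (i = k ∧ j = l)) : (a i - a j) * (a k - a l) ∣ disc a := by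
  unfold disc
  by_cases hik : i = k
  · subst hik
    have hjl : j ≠ l := fun h' => h ⟨rfl, h'⟩
    refine dvd_trans ?_ (Finset.dvd_prod_of_mem (fun i => ∏ j ∈ Finset.Ioi i, (a i - a j))
      (Finset.mem_univ i))
    show (a i - a j) * (a i - a l) ∣ ∏ j ∈ Finset.Ioi i, (a i - a j)
    rw [← Finset.mul_prod_erase (Finset.Ioi i) (fun j => a i - a j) (Finset.mem_Ioi.mpr hij)]
    apply mul_dvd_mul_left
    exact Finset.dvd_prod_of_mem (fun j => a i - a j)
      (Finset.mem_erase.mpr ⟨hjl.symm, Finset.mem_Ioi.mpr hkl⟩)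
  · rw [← Finset.mul_prod_erase Finset.univ (fun i => ∏ j ∈ Finset.Ioi i, (a i - a j))
      (Finset.mem_univ i)]
    apply mul_dvd_mul
    · exact Finset.dvd_prod_of_mem (fun j => a i - a j) (Finset.mem_Ioi.mpr hij)
    · refine dvd_trans ?_ (Finset.dvd_prod_of_mem (fun i => ∏ j ∈ Finset.Ioi i, (a i - a j))
        (Finset.mem_erase.mpr ⟨Ne.symm hik, Finset.mem_univ k⟩))
      exact Finset.dvd_prod_of_mem (fun j => a k - a j) (Finset.mem_Ioi.mpr hkl)

theorem diffB_unique {d : ℕ} {a : Fin n → F[X]} (ha : Stp d a) (P : Ir F) {i j k l : Fin n}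
    (hij : i < j) (hkl : k < l) (h1 : P.1 ∣ a i - a j) (h2 : P.1 ∣ a k - a l) : i = k ∧ j = l := by
  by_contra h
  have h3 : P.1 * P.1 ∣ disc a := (mul_dvd_mul h1 h2).trans (diffB_mul_dvd a hij hkl h)
  exact P.2.2.not_isUnit (ha.sqf P.1 h3)

theorem diff_ne_zero {d : ℕ} {a : Fin n → F[X]} (ha : Stp d a) {i j : Fin n} (h : i ≠ j) :
    a i - a j ≠ 0 := by
  intro h0
  apply ha.lead i j h
  rw [sub_eq_zero.mp h0]

theorem natDegree_diff {d : ℕ} {a : Fin n → F[X]} (ha : Stp d a) {i j : Fin n} (h : i ≠ j) :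
    (a i - a j).natDegree = d := by
  apply le_antisymm
  · exact (Polynomial.natDegree_sub_le _ _).trans (max_le (ha.deg i) (ha.deg j))
  · apply Polynomial.le_natDegree_of_ne_zero
    rw [Polynomial.coeff_sub]
    exact sub_ne_zero.mpr (ha.lead i j h)

theorem mem_SS {d : ℕ} {a : Fin n → F[X]} (ha : Stp d a) (P : Ir F) :
    P ∈ SS a ↔ ∃ i j, i ≠ j ∧ P.1 ∣ a i - a j := by
  have h0 : disc a ≠ 0 := ha.sqf.ne_zero
  unfold SS
  rw [Finset.mem_filter, mem_IrLe]
  constructor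
  · rintro ⟨-, h⟩
    obtain ⟨i, j, hij, hd⟩ := diffB_of_dvd a P h
    exact ⟨i, j, hij.ne, hd⟩
  · rintro ⟨i, j, hij, hd⟩
    have h1 : P.1 ∣ disc a := hd.trans (diffB_dvd_disc' a hij)
    exact ⟨Polynomial.natDegree_le_of_dvd h1 h0, h1⟩

theorem exists_pairs {d : ℕ} {a : Fin n → F[X]} (hn : 1 ≤ n) (ha : Stp d a) :
    ∃ pa pb : Ir F → Fin n, Pairs a pa pb := by
  have hne : Nonempty (Fin n × Fin n) := ⟨(⟨0, hn⟩, ⟨0, hn⟩)⟩
  have key : ∀ P : Ir F, ∃ p : Fin n × Fin n, P ∈ SS a → (p.1 < p.2 ∧ P.1 ∣ a p.1 - a p.2) := by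
    intro P
    by_cases hP : P ∈ SS a
    · have h1 : P.1 ∣ disc a := by
        unfold SS at hP
        exact (Finset.mem_filter.mp hP).2
      obtain ⟨i, j, hij, hd⟩ := diffB_of_dvd a P h1
      exact ⟨(i, j), fun _ => ⟨hij, hd⟩⟩
    · exact ⟨hne.some, fun h => absurd h hP⟩
  choose f hf using key
  refine ⟨fun P => (f P).1, fun P => (f P).2, fun P hP => ⟨(hf P hP).1, (hf P hP).2, ?_⟩⟩
  intro i j hij hd
  exact diffB_unique ha P hij (hf P hP).1 hd (hf P hP).2

/-- The two indices, without ordering. -/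
theorem pairs_iff {d : ℕ} {a : Fin n → F[X]} (ha : Stp d a) {pa pb : Ir F → Fin n}
    (hp : Pairs a pa pb) {P : Ir F} (hP : P ∈ SS a) (i j : Fin n) (hij : i ≠ j) :
    P.1 ∣ a i - a j ↔ (i = pa P ∧ j = pb P) ∨ (i = pb P ∧ j = pa P) := by
  obtain ⟨h1, h2, h3⟩ := hp P hP
  have hneg : ∀ i j : Fin n, P.1 ∣ a i - a j → P.1 ∣ a j - a i := by
    intro i j h
    have h4 : a j - a i = -(a i - a j) := by ring
    rw [h4, dvd_neg]
    exact h
  constructor
  · intro h
    rcases lt_or_gt_of_ne hij with h' | h'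
    · exact Or.inl (h3 i j h' h)
    · obtain ⟨h4, h5⟩ := h3 j i h' (hneg _ _ h)
      exact Or.inr ⟨h5, h4⟩
  · rintro (⟨rfl, rfl⟩ | ⟨rfl, rfl⟩)
    · exact h2
    · exact hneg _ _ h2

theorem exists_over {d : ℕ} {a : Fin n → F[X]} (hd : 1 ≤ d) (ha : Stp d a) {pa pb : Ir F → Fin n}
    (hp : Pairs a pa pb) (i j : Fin n) (hij : i < j) : ∃ P ∈ SS a, pa P = i ∧ pb P = j := by
  have hnu : ¬ IsUnit (a i - a j) := by
    intro hu
    have h1 := Polynomial.natDegree_eq_zero_of_isUnit hu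
    rw [natDegree_diff ha hij.ne] at h1
    omega
  obtain ⟨p, hpm, hpi, hpd⟩ := Polynomial.exists_monic_irreducible_factor _ hnu
  have hP : (⟨p, hpm, hpi⟩ : Ir F) ∈ SS a := (mem_SS ha _).mpr ⟨i, j, hij.ne, hpd⟩
  obtain ⟨h1, h2⟩ := (hp _ hP).2.2 i j hij hpd
  exact ⟨_, hP, h1.symm, h2.symm⟩

theorem diff_dec {d : ℕ} {a : Fin n → F[X]} (ha : Stp d a) (i j : Fin n) (hij : i ≠ j) :
    a i - a j = C (a i - a j).leadingCoeff * pr ((SS a).filter fun P => P.1 ∣ a i - a j) := by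
  set A : F[X] := a i - a j with hA
  have hA0 : A ≠ 0 := diff_ne_zero ha hij
  have hl0 : A.leadingCoeff ≠ 0 := Polynomial.leadingCoeff_ne_zero.mpr hA0
  have hsq : Squarefree A := ha.sqf.squarefree_of_dvd (diffB_dvd_disc' a hij)
  have hmon := Polynomial.monic_mul_leadingCoeff_inv hA0
  have hAB : C A.leadingCoeff * (A * C A.leadingCoeff⁻¹) = A := by
    rw [mul_left_comm, ← Polynomial.C_mul, mul_inv_cancel₀ hl0, Polynomial.C_1, mul_one]
  have hBA : A * C A.leadingCoeff⁻¹ ∣ A := ⟨C A.leadingCoeff, by rw [mul_comm]; exact hAB.symm⟩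
  have hdvd : ∀ P : F[X], P ∣ A * C A.leadingCoeff⁻¹ ↔ P ∣ A := fun P =>
    ⟨fun h => h.trans hBA, fun h => h.trans (Dvd.intro _ rfl)⟩
  obtain ⟨t, ht⟩ := exists_pr _ hmon (hsq.squarefree_of_dvd hBA)
  have ht2 : t = (SS a).filter fun P => P.1 ∣ A := by
    ext P
    rw [mem_iff_dvd_pr, ht, hdvd, Finset.mem_filter]
    exact ⟨fun h => ⟨(mem_SS ha P).mpr ⟨i, j, hij, h⟩, h⟩, fun h => h.2⟩
  rw [← ht2, ht]
  exact hAB.symm

end Pool.Agent.Helper48.ST
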