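import Pool.Agent.Helper48.ST.Defs

/-!
ST-01. Existence of the discrete logarithm.

Proof. `Fˣ` is cyclic of order `q - 1`, let `γ` be a generator (`IsCyclic.exists_generator`). For `a ≠ 0` let `k a` be such that
`γ ^ k a = a` and `toFun a = (k a : ZMod ℓ)`, `toFun 0 = 0`. It is well defined and additive since `ℓ ∣ q - 1 = orderOf γ`
(`γ ^ i = γ ^ j ↔ i ≡ j [MOD q - 1]`). If `toFun a = 0` then `k a = ℓ m` and `a = (γ ^ m) ^ ℓ`.
-/

set_option autoImplicit false

open Polynomial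
open scoped Classical

namespace Pool.Agent.Helper48.ST

theorem exists_lg (F : Type) [Field F] [Fintype F] (ℓ : ℕ) [Fact ℓ.Prime]
    (hq : ℓ ∣ Fintype.card F - 1) : Nonempty (Lg F ℓ) := by
  obtain ⟨γ, hγ⟩ := IsCyclic.exists_monoid_generator (α := Fˣ)
  have hord : orderOf γ = Fintype.card F - 1 := by
    rw [← Fintype.card_units, orderOf_eq_card_of_forall_mem_powers hγ, Nat.card_eq_fintype_card]
  have hdvd : ℓ ∣ orderOf γ := by rw [hord]; exact hq
  have hk : ∀ a : Fˣ, ∃ k : ℕ, γ ^ k = a := fun a => by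
    obtain ⟨k, hk⟩ := (Submonoid.mem_powers_iff _ _).mp (hγ a)
    exact ⟨k, hk⟩
  choose k hk using hk
  have hkey : ∀ i j : ℕ, γ ^ i = γ ^ j → (i : ZMod ℓ) = (j : ZMod ℓ) := by
    intro i j hij
    rw [ZMod.natCast_eq_natCast_iff]
    exact (pow_eq_pow_iff_modEq.mp hij).of_dvd hdvd
  set f : F → ZMod ℓ := fun a => if h : a = 0 then 0 else (k (Units.mk0 a h) : ZMod ℓ) with hf
  have hfv : ∀ a : F, ∀ h : a ≠ 0, f a = (k (Units.mk0 a h) : ZMod ℓ) := by
    intro a h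
    simp only [hf]
    rw [dif_neg h]
  refine ⟨⟨f, ?_, ?_, ?_⟩⟩
  · intro a b ha hb
    rw [hfv a ha, hfv b hb, hfv (a * b) (mul_ne_zero ha hb), ← Nat.cast_add]
    apply hkey
    rw [pow_add, hk, hk, hk]
    ext
    simp
  · intro c
    refine ⟨((γ ^ c.val : Fˣ) : F), Units.ne_zero _, ?_⟩
    rw [hfv _ (Units.ne_zero _)]
    have h1 : (k (Units.mk0 ((γ ^ c.val : Fˣ) : F) (Units.ne_zero _)) : ZMod ℓ) = (c.val : ZMod ℓ) := by
      apply hkey
      rw [hk]
      ext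
      simp
    rw [h1, ZMod.natCast_zmod_val]
  · intro a ha h0
    rw [hfv a ha, ZMod.natCast_eq_zero_iff] at h0
    obtain ⟨m, hm⟩ := h0
    refine ⟨((γ ^ m : Fˣ) : F), ?_⟩
    have h1 := hk (Units.mk0 a ha)
    rw [hm, mul_comm, pow_mul] at h1
    have h2 := congrArg (fun u : Fˣ => (u : F)) h1
    simpa using h2

end Pool.Agent.Helper48.ST
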