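import Pool.Agent.Helper48.ST.Defs2

/-!
ST-52. The space `Vs` of vectors of sum zero.

Proof. `card_Vs`: `Fin n → ZMod ℓ` has `ℓ^n` elements and the sum map is surjective onto `ZMod ℓ` with kernel `Vs` (`n ≥ 1`), all fibres have the same size (or: bijection with `Fin (n-1) → ZMod ℓ`,
forget the last coordinate). `Vs_nondeg`: take `z = e_i - e_j` (`Pi.single`): `w i = w j`; then `Vs_const`: `0 = ∑ w = n w_i`, and `n ≠ 0` in the field `ZMod ℓ`. `exists_lift`: take `w j = (v j).val` and correct one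
coordinate by the multiple of `ℓ` which makes the sum zero (if `n = 0` trivial). `sum_e`: an additive map `f : Vs → ZMod ℓ`; if `f = 0` all terms are one; otherwise with `f z₀ ≠ 0`,
`e (f z₀) * ∑ = ∑` (translation by `z₀`) and `e (f z₀) ≠ 1` (`ZMod.injective_stdAddChar`). `sum_e_zmod`: the same for `r ↦ r * c`.
-/

set_option autoImplicit false

open Polynomial
open scoped Classical

namespace Pool.Agent.Helper48.ST

variable {n ℓ : ℕ}

theorem card_Vs [NeZero ℓ] (hn : 1 ≤ n) : Fintype.card (Vs n ℓ) = ℓ ^ (n - 1) := by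
  obtain ⟨m, rfl⟩ : ∃ m, n = m + 1 := ⟨n - 1, by omega⟩
  have h := Fintype.card_congr (α := Vs (m + 1) ℓ) (β := Fin m → ZMod ℓ)
    { toFun := fun w i => w.1 i.succ
      invFun := fun v => ⟨Fin.cons (-∑ i, v i) v, by
        rw [mem_Vs, Fin.sum_univ_succ]
        simp⟩
      left_inv := by
        intro w
        apply Subtype.ext
        have h := w.2
        rw [mem_Vs, Fin.sum_univ_succ] at h
        funext i
        refine Fin.cases ?_ (fun j => ?_) i
        · simp only [Fin.cons_zero]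
          linear_combination -h
        · simp only [Fin.cons_succ]
      right_inv := by
        intro v
        funext i
        simp only [Fin.cons_succ] }
  rw [h, Fintype.card_fun, ZMod.card, Fintype.card_fin]
  rfl

theorem Vs_const [Fact ℓ.Prime] (hn : ¬ ℓ ∣ n) (w : Vs n ℓ) (h : ∀ i j, w.1 i = w.1 j) :
    w = 0 := by
  have hn0 : (n : ZMod ℓ) ≠ 0 := by
    rw [Ne, ZMod.natCast_eq_zero_iff]
    exact hn
  apply Subtype.ext
  funext i
  have h1 := w.2
  rw [mem_Vs] at h1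
  have h2 : ∑ j, w.1 j = (n : ZMod ℓ) * w.1 i := by
    rw [Finset.sum_congr rfl (fun j _ => h j i), Finset.sum_const, Finset.card_univ,
      Fintype.card_fin, nsmul_eq_mul]
  rw [h2] at h1
  exact (mul_eq_zero.1 h1).resolve_left hn0

theorem Vs_nondeg [Fact ℓ.Prime] (hn : ¬ ℓ ∣ n) (w : Vs n ℓ)
    (h : ∀ z : Vs n ℓ, ∑ j, w.1 j * z.1 j = 0) : w = 0 := by
  apply Vs_const hn
  intro i j
  have hz : (Pi.single i 1 - Pi.single j 1 : Fin n → ZMod ℓ) ∈ Vs n ℓ := by
    rw [mem_Vs]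
    simp only [Pi.sub_apply, Finset.sum_sub_distrib, Finset.sum_pi_single', Finset.mem_univ,
      if_true, sub_self]
  have h1 := h ⟨_, hz⟩
  simp only [Pi.sub_apply, mul_sub, Finset.sum_sub_distrib, Pi.single_apply, mul_ite, mul_one,
    mul_zero, Finset.sum_ite_eq', Finset.mem_univ, if_true] at h1
  exact sub_eq_zero.1 h1

theorem exists_lift (hn : 1 ≤ n) [NeZero ℓ] (v : Vs n ℓ) :
    ∃ w : Fin n → ℤ, ∑ i, w i = 0 ∧ ∀ j, (w j : ZMod ℓ) = v.1 j := by
  have hu : ∀ j, ((((v.1 j).val : ℕ) : ℤ) : ZMod ℓ) = v.1 j := by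
    intro j
    rw [Int.cast_natCast, ZMod.natCast_zmod_val]
  have hs : ((∑ j, (((v.1 j).val : ℕ) : ℤ) : ℤ) : ZMod ℓ) = 0 := by
    rw [Int.cast_sum, Finset.sum_congr rfl (fun j _ => hu j)]
    exact v.2
  refine ⟨fun j => (((v.1 j).val : ℕ) : ℤ) -
    (if j = ⟨0, hn⟩ then ∑ j, (((v.1 j).val : ℕ) : ℤ) else 0), ?_, ?_⟩
  · rw [Finset.sum_sub_distrib, Finset.sum_ite_eq' Finset.univ, if_pos (Finset.mem_univ _), sub_self]
  · intro j
    beta_reduce
    by_cases hj : j = ⟨0, hn⟩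
    · rw [if_pos hj, Int.cast_sub, hs, hu, sub_zero]
    · rw [if_neg hj, sub_zero, hu]

theorem VBasic_e_ne_one [NeZero ℓ] (x : ZMod ℓ) (hx : x ≠ 0) : e x ≠ 1 := by
  intro h
  apply hx
  apply ZMod.injective_stdAddChar (N := ℓ)
  have h1 : (ZMod.stdAddChar x : ℂ) = 1 := h
  rw [h1, AddChar.map_zero_eq_one]

theorem sum_e_Vs [Fact ℓ.Prime] (f : Vs n ℓ → ZMod ℓ) (hf : ∀ s s', f (s + s') = f s + f s') :
    ∑ z, e (f z) = if ∀ z, f z = 0 then (Fintype.card (Vs n ℓ) : ℂ) else 0 := by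
  by_cases h : ∀ z, f z = 0
  · rw [if_pos h, Finset.sum_congr rfl (fun z _ => by rw [h z, e_zero]), Finset.sum_const,
      Finset.card_univ, nsmul_eq_mul, mul_one]
  · rw [if_neg h]
    push Not at h
    obtain ⟨z0, hz0⟩ := h
    have h1 : ∑ z, e (f z) = e (f z0) * ∑ z, e (f z) := by
      rw [Finset.mul_sum, ← Equiv.sum_comp (Equiv.addLeft z0) (fun z => e (f z))]
      apply Finset.sum_congr rfl
      intro z _
      rw [Equiv.coe_addLeft, hf, e_add]
    have h2 : (e (f z0) - 1) * ∑ z, e (f z) = 0 := by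
      rw [sub_mul, one_mul, ← h1, sub_self]
    exact (mul_eq_zero.1 h2).resolve_left (sub_ne_zero.2 (VBasic_e_ne_one _ hz0))

theorem sum_e_zmod [Fact ℓ.Prime] (c : ZMod ℓ) :
    ∑ r : ZMod ℓ, e (r * c) = if c = 0 then (ℓ : ℂ) else 0 := by
  by_cases h : c = 0
  · rw [if_pos h, h, Finset.sum_congr rfl (fun z _ => by rw [mul_zero, e_zero]), Finset.sum_const,
      Finset.card_univ, nsmul_eq_mul, mul_one, ZMod.card]
  · rw [if_neg h]
    have h1 : ∑ r : ZMod ℓ, e (r * c) = e c * ∑ r : ZMod ℓ, e (r * c) := by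
      rw [Finset.mul_sum, ← Equiv.sum_comp (Equiv.addLeft (1 : ZMod ℓ)) (fun r => e (r * c))]
      apply Finset.sum_congr rfl
      intro z _
      rw [Equiv.coe_addLeft, add_mul, one_mul, e_add]
    have h2 : (e c - 1) * ∑ r : ZMod ℓ, e (r * c) = 0 := by
      rw [sub_mul, one_mul, ← h1, sub_self]
    exact (mul_eq_zero.1 h2).resolve_left (sub_ne_zero.2 (VBasic_e_ne_one _ h))

end Pool.Agent.Helper48.ST
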