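import Pool.Agent.Helper48.ST.PhaseParts
import Pool.Agent.Helper48.ST.VBasic

/-!
ST-54. The number of solutions as a character sum.

Proof. `κ = card (Vs n ℓ)`. `EP ... P z` is additive in `z`, `EI ... s` in `s` (`sum_e_Vs`), so the indicator of the conditions of `Sol` for `(y, w)` is
`∏_{P : t} (κ⁻¹ ∑_{z ∈ Vs} e (EP P z)) * ∏_{π : S} (ℓ⁻¹ ∑_{r} e (r * (ES π + cS y π))) * κ⁻¹ ∑_{s ∈ Vs} e (EI s + cI y s)`. Expand the products (`Finset.prod_univ_sum`, `Fintype.piFinset_univ`): sums over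
`z : t → Vs`, `r : S → ZMod ℓ`, `s`: it is `κ^(-card t) κ⁻¹ ℓ^(-card S) ∑_{z, r, s} e (∑_P EP P (z P) + ∑_π r π ES π + EI s) * e (∑_π r π * cS y π + cI y s)`. Sum over `(y, w)`; the pairs `(w, z)` are the maps
`c : t → Vs × Vs`, and `y' = (s, r)`: `W_parts`. (`∑ π ∈ S, ex r π * f π = ∑ π : S, r π * f π`.)
-/

set_option autoImplicit false

open Polynomial
open scoped Classical

namespace Pool.Agent.Helper48.ST

private theorem xp_e_sum {ℓ : ℕ} [NeZero ℓ] {α : Type} (s : Finset α) (f : α → ZMod ℓ) :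
    e (∑ i ∈ s, f i) = ∏ i ∈ s, e (f i) := by
  induction s using Finset.induction_on with
  | empty => rw [Finset.sum_empty, Finset.prod_empty, e_zero]
  | insert i s hi ih => rw [Finset.sum_insert hi, Finset.prod_insert hi, e_add, ih]

/-- a sum over functions of a product is a product of sums -/
private theorem xp_pi {α β : Type} [Fintype α] [DecidableEq α] [Fintype β] (f : α → β → ℂ) :
    ∑ z : α → β, ∏ i, f i (z i) = ∏ i, ∑ b, f i b := by
  rw [Finset.prod_univ_sum, Fintype.piFinset_univ]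

private theorem xp_EP_add {F : Type} [Field F] {ℓ : ℕ} (g : Lg F ℓ) {n : ℕ} (a : Fin n → F[X])
    (pa pb : Ir F → Fin n) (S t : Finset (Ir F)) (y : Pr F n ℓ S)
    (w : {P : Ir F // P ∈ t} → Vs n ℓ) (P : {P : Ir F // P ∈ t}) (z z' : Vs n ℓ) :
    EP g a pa pb S t y w P (z + z') = EP g a pa pb S t y w P z + EP g a pa pb S t y w P z' := by
  have hz : ∀ j, (z + z').1 j = z.1 j + z'.1 j := fun j => rfl
  unfold EP
  have h1 : ∑ R ∈ Finset.univ.erase P, (∑ j, ((w R).1 j - (w P).1 j) * (z + z').1 j) *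
      g.L R.1.1 P.1.1 =
      ∑ R ∈ Finset.univ.erase P, (∑ j, ((w R).1 j - (w P).1 j) * z.1 j) * g.L R.1.1 P.1.1 +
      ∑ R ∈ Finset.univ.erase P, (∑ j, ((w R).1 j - (w P).1 j) * z'.1 j) * g.L R.1.1 P.1.1 := by
    rw [← Finset.sum_add_distrib]
    refine Finset.sum_congr rfl fun R _ => ?_
    rw [← add_mul, ← Finset.sum_add_distrib]
    congr 1
    refine Finset.sum_congr rfl fun j _ => ?_
    rw [hz, mul_add]
  have h2 : ∑ π ∈ S, ((w P).1 (pa π) - (w P).1 (pb π) + ex y.2 π) *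
      ((z + z').1 (pb π) - (z + z').1 (pa π)) * g.L π.1 P.1.1 =
      ∑ π ∈ S, ((w P).1 (pa π) - (w P).1 (pb π) + ex y.2 π) * (z.1 (pb π) - z.1 (pa π)) *
        g.L π.1 P.1.1 +
      ∑ π ∈ S, ((w P).1 (pa π) - (w P).1 (pb π) + ex y.2 π) * (z'.1 (pb π) - z'.1 (pa π)) *
        g.L π.1 P.1.1 := by
    rw [← Finset.sum_add_distrib]
    refine Finset.sum_congr rfl fun π _ => ?_
    rw [hz, hz]
    ring
  have h3 : ∑ j, y.1.1 j * (z + z').1 j = ∑ j, y.1.1 j * z.1 j + ∑ j, y.1.1 j * z'.1 j := by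
    rw [← Finset.sum_add_distrib]
    refine Finset.sum_congr rfl fun j _ => ?_
    rw [hz, mul_add]
  have h4 : ∑ i, ∑ j ∈ Finset.Ioi i, ((w P).1 i - (w P).1 j) * ((z + z').1 j - (z + z').1 i) *
      g.toFun (a i - a j).leadingCoeff =
      ∑ i, ∑ j ∈ Finset.Ioi i, ((w P).1 i - (w P).1 j) * (z.1 j - z.1 i) *
        g.toFun (a i - a j).leadingCoeff +
      ∑ i, ∑ j ∈ Finset.Ioi i, ((w P).1 i - (w P).1 j) * (z'.1 j - z'.1 i) *
        g.toFun (a i - a j).leadingCoeff := by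
    rw [← Finset.sum_add_distrib]
    refine Finset.sum_congr rfl fun i _ => ?_
    rw [← Finset.sum_add_distrib]
    refine Finset.sum_congr rfl fun j _ => ?_
    rw [hz, hz]
    ring
  rw [h1, h2, h3, h4]
  ring

private theorem xp_EI_add {F : Type} [Field F] {ℓ n : ℕ} (t : Finset (Ir F))
    (w : {P : Ir F // P ∈ t} → Vs n ℓ) (s s' : Vs n ℓ) :
    EI t w (s + s') = EI t w s + EI t w s' := by
  have hz : ∀ j, (s + s').1 j = s.1 j + s'.1 j := fun j => rfl
  unfold EI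
  rw [← Finset.sum_add_distrib]
  refine Finset.sum_congr rfl fun P _ => ?_
  rw [← mul_add, ← Finset.sum_add_distrib]
  congr 1
  refine Finset.sum_congr rfl fun j _ => ?_
  rw [hz, add_mul]

theorem card_Sol {F : Type} [Field F] {ℓ : ℕ} [Fact ℓ.Prime] (g : Lg F ℓ) (h2 : ℓ ≠ 2)
    {n : ℕ} (a : Fin n → F[X]) (pa pb : Ir F → Fin n) (S : Finset (Ir F))
    (cS : Pr F n ℓ S → Ir F → ZMod ℓ) (cI : Pr F n ℓ S → Vs n ℓ → ZMod ℓ)
    (hcI : ∀ y s s', cI y (s + s') = cI y s + cI y s') (t : Finset (Ir F)) (ht : Disjoint t S) :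
    ((Sol g a pa pb S t cS cI).card : ℂ) =
      ((Fintype.card (Vs n ℓ) : ℂ))⁻¹ * ((ℓ : ℂ)⁻¹) ^ S.card *
        ∑ y : Pr F n ℓ S, ∑ y' : Pr F n ℓ S,
          e (∑ π ∈ S, ex y'.2 π * cS y π + cI y y'.1) *
            ∑ c : {P : Ir F // P ∈ t} → Vs n ℓ × Vs n ℓ,
              (DatP g a pa pb S y y').W g (Fintype.card (Vs n ℓ)) S (parts t c) := by
  set κ : ℂ := (Fintype.card (Vs n ℓ) : ℂ) with hκ
  have hκ0 : κ ≠ 0 := by
    rw [hκ, Ne, Nat.cast_eq_zero]
    exact Fintype.card_ne_zero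
  have hℓ0 : (ℓ : ℂ) ≠ 0 := by
    rw [Ne, Nat.cast_eq_zero]
    exact (Fact.out : ℓ.Prime).ne_zero
  -- the three sums
  have hA : ∀ (y : Pr F n ℓ S) (w : {P : Ir F // P ∈ t} → Vs n ℓ),
      ∑ z : {P : Ir F // P ∈ t} → Vs n ℓ, e (∑ P, EP g a pa pb S t y w P (z P)) =
        if ∀ P z, EP g a pa pb S t y w P z = 0 then κ ^ t.card else 0 := by
    intro y w
    simp only [xp_e_sum]
    rw [xp_pi (fun P z => e (EP g a pa pb S t y w P z)),
      Finset.prod_congr rfl fun P _ => sum_e_Vs (EP g a pa pb S t y w P)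
        (xp_EP_add g a pa pb S t y w P), Finset.prod_ite_zero, Finset.prod_const,
      Finset.card_univ, Fintype.card_coe]
    simp only [Finset.mem_univ, forall_const]
    rfl
  have hB : ∀ (v : Ir F → ZMod ℓ),
      ∑ r : {P : Ir F // P ∈ S} → ZMod ℓ, e (∑ π ∈ S, ex r π * v π) =
        if ∀ π ∈ S, v π = 0 then (ℓ : ℂ) ^ S.card else 0 := by
    intro v
    have h3 : ∀ r : {P : Ir F // P ∈ S} → ZMod ℓ, e (∑ π ∈ S, ex r π * v π) =
        ∏ π : {P : Ir F // P ∈ S}, e (r π * v π.1) := by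
      intro r
      rw [← xp_e_sum, ← Finset.sum_coe_sort]
      congr 1
      refine Finset.sum_congr rfl fun π _ => ?_
      unfold ex
      rw [dif_pos π.2]
    rw [Finset.sum_congr rfl fun r _ => h3 r,
      xp_pi (fun (π : {P : Ir F // P ∈ S}) (r : ZMod ℓ) => e (r * v π.1)),
      Finset.prod_congr rfl fun π _ => sum_e_zmod (v π.1), Finset.prod_ite_zero,
      Finset.prod_const, Finset.card_univ, Fintype.card_coe]
    simp only [Finset.mem_univ, forall_const, Subtype.forall]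
  have hC : ∀ (y : Pr F n ℓ S) (w : {P : Ir F // P ∈ t} → Vs n ℓ),
      ∑ s : Vs n ℓ, e (EI t w s + cI y s) =
        if ∀ s, EI t w s + cI y s = 0 then κ else 0 := by
    intro y w
    refine sum_e_Vs (fun s => EI t w s + cI y s) fun s s' => ?_
    rw [xp_EI_add, hcI]
    ring
  have key : ∀ (y : Pr F n ℓ S) (w : {P : Ir F // P ∈ t} → Vs n ℓ),
      ∑ y' : Pr F n ℓ S, e (∑ π ∈ S, ex y'.2 π * cS y π + cI y y'.1) *
        ∑ z : {P : Ir F // P ∈ t} → Vs n ℓ,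
          e (∑ P, EP g a pa pb S t y w P (z P) +
            ∑ π ∈ S, ex y'.2 π * ES g pa pb S t y w π + EI t w y'.1) =
        if (∀ P z, EP g a pa pb S t y w P z = 0) ∧
          (∀ π ∈ S, ES g pa pb S t y w π + cS y π = 0) ∧ (∀ s, EI t w s + cI y s = 0)
        then κ ^ t.card * (ℓ : ℂ) ^ S.card * κ else 0 := by
    intro y w
    have h3 : ∑ y' : Pr F n ℓ S, e (∑ π ∈ S, ex y'.2 π * cS y π + cI y y'.1) *
        ∑ z : {P : Ir F // P ∈ t} → Vs n ℓ,
          e (∑ P, EP g a pa pb S t y w P (z P) +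
            ∑ π ∈ S, ex y'.2 π * ES g pa pb S t y w π + EI t w y'.1) =
        (∑ z : {P : Ir F // P ∈ t} → Vs n ℓ, e (∑ P, EP g a pa pb S t y w P (z P))) *
        (∑ r : {P : Ir F // P ∈ S} → ZMod ℓ,
          e (∑ π ∈ S, ex r π * (ES g pa pb S t y w π + cS y π))) *
        ∑ s : Vs n ℓ, e (EI t w s + cI y s) := by
      rw [Fintype.sum_prod_type, Finset.mul_sum]
      refine Finset.sum_congr rfl fun s _ => ?_
      rw [Finset.mul_sum, Finset.sum_mul]
      refine Finset.sum_congr rfl fun r _ => ?_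
      rw [Finset.mul_sum, Finset.sum_mul, Finset.sum_mul]
      refine Finset.sum_congr rfl fun z _ => ?_
      have h4 : ∑ π ∈ S, ex r π * (ES g pa pb S t y w π + cS y π) =
          ∑ π ∈ S, ex r π * ES g pa pb S t y w π + ∑ π ∈ S, ex r π * cS y π := by
        rw [← Finset.sum_add_distrib]
        exact Finset.sum_congr rfl fun π _ => mul_add _ _ _
      rw [h4]
      simp only [e_add]
      ring
    rw [h3, hA, hB, hC]
    by_cases c1 : ∀ P z, EP g a pa pb S t y w P z = 0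
    · by_cases c2 : ∀ π ∈ S, ES g pa pb S t y w π + cS y π = 0
      · by_cases c3 : ∀ s, EI t w s + cI y s = 0
        · rw [if_pos c1, if_pos c2, if_pos c3, if_pos ⟨c1, c2, c3⟩]
        · rw [if_neg c3, mul_zero, if_neg fun h => c3 h.2.2]
      · rw [if_neg c2, mul_zero, zero_mul, if_neg fun h => c2 h.2.1]
    · rw [if_neg c1, zero_mul, zero_mul, if_neg fun h => c1 h.1]
  -- the right hand side
  have hR : ∀ y y' : Pr F n ℓ S,
      ∑ c : {P : Ir F // P ∈ t} → Vs n ℓ × Vs n ℓ,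
        (DatP g a pa pb S y y').W g (Fintype.card (Vs n ℓ)) S (parts t c) =
      (κ⁻¹) ^ t.card * ∑ w : {P : Ir F // P ∈ t} → Vs n ℓ,
        ∑ z : {P : Ir F // P ∈ t} → Vs n ℓ,
          e (∑ P, EP g a pa pb S t y w P (z P) +
            ∑ π ∈ S, ex y'.2 π * ES g pa pb S t y w π + EI t w y'.1) := by
    intro y y'
    rw [← Fintype.sum_prod_type' (f := fun (w z : {P : Ir F // P ∈ t} → Vs n ℓ) =>
      e (∑ P, EP g a pa pb S t y w P (z P) +
        ∑ π ∈ S, ex y'.2 π * ES g pa pb S t y w π + EI t w y'.1)), Finset.mul_sum,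
      ← Equiv.sum_comp (Equiv.arrowProdEquivProdArrow {P : Ir F // P ∈ t}
        (fun _ => Vs n ℓ) (fun _ => Vs n ℓ))]
    refine Finset.sum_congr rfl fun c _ => ?_
    rw [W_parts g h2 a pa pb S t ht]
    rfl
  have hT : ∑ y : Pr F n ℓ S, ∑ y' : Pr F n ℓ S,
      e (∑ π ∈ S, ex y'.2 π * cS y π + cI y y'.1) *
        ∑ c : {P : Ir F // P ∈ t} → Vs n ℓ × Vs n ℓ,
          (DatP g a pa pb S y y').W g (Fintype.card (Vs n ℓ)) S (parts t c) =
      (κ⁻¹) ^ t.card * ((Sol g a pa pb S t cS cI).card *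
        (κ ^ t.card * (ℓ : ℂ) ^ S.card * κ)) := by
    have h3 : ((Sol g a pa pb S t cS cI).card : ℂ) * (κ ^ t.card * (ℓ : ℂ) ^ S.card * κ) =
        ∑ y : Pr F n ℓ S, ∑ w : {P : Ir F // P ∈ t} → Vs n ℓ,
          if (∀ P z, EP g a pa pb S t y w P z = 0) ∧
            (∀ π ∈ S, ES g pa pb S t y w π + cS y π = 0) ∧ (∀ s, EI t w s + cI y s = 0)
          then κ ^ t.card * (ℓ : ℂ) ^ S.card * κ else 0 := by
      rw [← Fintype.sum_prod_type' (f := fun (y : Pr F n ℓ S)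
        (w : {P : Ir F // P ∈ t} → Vs n ℓ) =>
          if (∀ P z, EP g a pa pb S t y w P z = 0) ∧
            (∀ π ∈ S, ES g pa pb S t y w π + cS y π = 0) ∧ (∀ s, EI t w s + cI y s = 0)
          then κ ^ t.card * (ℓ : ℂ) ^ S.card * κ else 0), ← Finset.sum_filter,
        Finset.sum_const, nsmul_eq_mul]
      rfl
    rw [h3, Finset.mul_sum]
    refine Finset.sum_congr rfl fun y _ => ?_
    rw [Finset.mul_sum]
    have h4 : ∀ w : {P : Ir F // P ∈ t} → Vs n ℓ,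
        (κ⁻¹) ^ t.card * (if (∀ P z, EP g a pa pb S t y w P z = 0) ∧
            (∀ π ∈ S, ES g pa pb S t y w π + cS y π = 0) ∧ (∀ s, EI t w s + cI y s = 0)
          then κ ^ t.card * (ℓ : ℂ) ^ S.card * κ else 0) =
        ∑ y' : Pr F n ℓ S, e (∑ π ∈ S, ex y'.2 π * cS y π + cI y y'.1) * ((κ⁻¹) ^ t.card *
          ∑ z : {P : Ir F // P ∈ t} → Vs n ℓ,
            e (∑ P, EP g a pa pb S t y w P (z P) +
              ∑ π ∈ S, ex y'.2 π * ES g pa pb S t y w π + EI t w y'.1)) := by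
      intro w
      rw [← key y w, Finset.mul_sum]
      refine Finset.sum_congr rfl fun y' _ => ?_
      ring
    rw [Finset.sum_congr rfl fun w _ => h4 w, Finset.sum_comm]
    refine Finset.sum_congr rfl fun y' _ => ?_
    rw [hR y y', Finset.mul_sum, Finset.mul_sum]
  rw [hT]
  have h5 : (κ⁻¹) ^ t.card * κ ^ t.card = 1 := by
    rw [← mul_pow, inv_mul_cancel₀ hκ0, one_pow]
  have h6 : ((ℓ : ℂ)⁻¹) ^ S.card * (ℓ : ℂ) ^ S.card = 1 := by
    rw [← mul_pow, inv_mul_cancel₀ hℓ0, one_pow]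
  have h7 : κ⁻¹ * κ = 1 := inv_mul_cancel₀ hκ0
  calc ((Sol g a pa pb S t cS cI).card : ℂ)
      = ((Sol g a pa pb S t cS cI).card : ℂ) * ((κ⁻¹) ^ t.card * κ ^ t.card) *
        (((ℓ : ℂ)⁻¹) ^ S.card * (ℓ : ℂ) ^ S.card) * (κ⁻¹ * κ) := by
          rw [h5, h6, h7]
          ring
    _ = _ := by ring

end Pool.Agent.Helper48.ST
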