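import Pool.Agent.Helper48.ST.TorVal

/-!
ST-47. Consequences of `InS` for the parameters of `x`.

Proof. `sum_lgc`, `sum_vl`: `∏ x_j = c^ℓ` and the rules (`lgc_prod`, `vl_prod`, `lgc_pow`, `vl_pow`). `vl_out`: `hx.loc P` and `tor_vl_out`. `vl_t`: for `P ∈ t` the vector `w` of `hx.loc P` satisfies
`w j ≡ vl P (x j) mod ℓ` (`tor_vl_t`) and `ch g P (x j) = ch g P (Tor w j)`. `vl_S`: `hx.loc P` and `tor_vl_S`: for `j ≠ pa P, pb P` the valuation is divisible by `ℓ`,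
`vl P (x (pa P)) ≡ w(pa) - w(pb) ≡ - vl P (x (pb P))`; and the condition on the symbols with `j = pa P`, `k = pb P` (`P ∣ a (pa P) - a (pb P)`).
-/

set_option autoImplicit false

open Polynomial
open scoped Classical

namespace Pool.Agent.Helper48.ST

variable {F : Type} [Field F] [Fintype F] {ℓ : ℕ} [Fact ℓ.Prime] (g : Lg F ℓ) {n d : ℕ}
    {a : Fin n → F[X]} (ha : Stp d a) {pa pb : Ir F → Fin n} (hp : Pairs a pa pb)
    {t : Finset (Ir F)} (ht : Disjoint t (SS a)) {x : Fin n → (RatFunc F)ˣ} (hx : InS g a t x)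

include hx in
theorem sum_lgc : ∑ j, lgc g (x j : RatFunc F) = 0 := by
  obtain ⟨c, hc⟩ := hx.prod
  have h1 : ∏ j, (x j : RatFunc F) = (c : RatFunc F) ^ ℓ := by
    rw [← Units.coe_prod, hc, Units.val_pow_eq_pow_val]
  rw [← lgc_prod g Finset.univ (fun j => (x j : RatFunc F)) (fun j _ => (x j).ne_zero), h1]
  exact lgc_pow g _ c.ne_zero

include hx in
theorem sum_vl (P : Ir F) : ∑ j, ((vl P (x j : RatFunc F) : ℤ) : ZMod ℓ) = 0 := by
  obtain ⟨c, hc⟩ := hx.prod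
  have h1 : ∏ j, (x j : RatFunc F) = (c : RatFunc F) ^ ℓ := by
    rw [← Units.coe_prod, hc, Units.val_pow_eq_pow_val]
  rw [← Int.cast_sum, ← vl_prod P Finset.univ (fun j => (x j : RatFunc F))
    (fun j _ => (x j).ne_zero), h1]
  exact (ZMod.intCast_zmod_eq_zero_iff_dvd _ _).mpr (vl_pow P _ c.ne_zero)

include ha hx in
theorem vl_out {P : Ir F} (hP : P ∉ t) (hP' : P ∉ SS a) (j : Fin n) :
    (ℓ : ℤ) ∣ vl P (x j : RatFunc F) := by
  obtain ⟨w, -, h1, -, -⟩ := hx.loc P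
  have h2 := h1 j
  rw [tor_vl_out ha w hP hP' j, sub_zero] at h2
  exact h2

theorem facts_cast_eq {ℓ : ℕ} {u v : ℤ} (h : (ℓ : ℤ) ∣ u - v) : (u : ZMod ℓ) = (v : ZMod ℓ) := by
  rw [← sub_eq_zero, ← Int.cast_sub]
  exact (ZMod.intCast_zmod_eq_zero_iff_dvd _ _).mpr h

include ha ht hx in
theorem loc_t {P : Ir F} (hP : P ∈ t) : ∃ w : Fin n → ℤ, ∑ i, w i = 0 ∧
    (∀ j, (w j : ZMod ℓ) = ((vl P (x j : RatFunc F) : ℤ) : ZMod ℓ)) ∧
    ∀ j, ch g P (x j : RatFunc F) = ch g P (Tor a (pr t) w j) := by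
  obtain ⟨w, hw, h1, h2, -⟩ := hx.loc P
  refine ⟨w, hw, fun j => ?_, h2 hP⟩
  have h3 := facts_cast_eq (h1 j)
  rw [tor_vl_t ha ht w hP j] at h3
  exact h3.symm

include ha hp ht hx in
theorem loc_S {P : Ir F} (hP : P ∈ SS a) : ∃ w : Fin n → ℤ, ∑ i, w i = 0 ∧
    ((vl P (x (pb P) : RatFunc F) : ℤ) : ZMod ℓ) = (w (pb P) : ZMod ℓ) - (w (pa P) : ZMod ℓ) ∧
    ((vl P (x (pa P) : RatFunc F) : ℤ) : ZMod ℓ) = (w (pa P) : ZMod ℓ) - (w (pb P) : ZMod ℓ) ∧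
    (∀ j, j ≠ pa P → j ≠ pb P → ((vl P (x j : RatFunc F) : ℤ) : ZMod ℓ) = 0) ∧
    ch g P (x (pa P) : RatFunc F) - ch g P (x (pb P) : RatFunc F) =
      ch g P (Tor a (pr t) w (pa P)) - ch g P (Tor a (pr t) w (pb P)) := by
  obtain ⟨w, hw, h1, -, h3⟩ := hx.loc P
  obtain ⟨hlt, hdvd, -⟩ := hp P hP
  refine ⟨w, hw, ?_, ?_, ?_, ?_⟩
  · have h4 := facts_cast_eq (h1 (pb P))
    rw [tor_vl_S ha hp ht w hP (pb P), if_neg hlt.ne', if_pos rfl, Int.cast_sub] at h4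
    exact h4
  · have h4 := facts_cast_eq (h1 (pa P))
    rw [tor_vl_S ha hp ht w hP (pa P), if_pos rfl, Int.cast_sub] at h4
    exact h4
  · intro j hja hjb
    have h4 := facts_cast_eq (h1 j)
    rw [tor_vl_S ha hp ht w hP j, if_neg hja, if_neg hjb, Int.cast_zero] at h4
    exact h4
  · exact h3 (pa P) (pb P) hlt.ne hdvd

end Pool.Agent.Helper48.ST
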