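import Pool.Agent.Helper48.ST.Defs

/-!
ST-11. Families and colourings.

`parts t c u` is the set of the `P ∈ t` of colour `u`.
Proof of `sum_colorings`: `(t, c) ↦ parts t c` is a bijection from the pairs (`t ∈ Sq S N`, `c : t → Ω`) onto `Fam Ω S N`; the inverse sends `s` to
`t = ⋃ s u` and `c P =` the unique `u` with `P ∈ s u`. (`Finset.sum_sigma'` and `Finset.sum_bij'`/`Finset.sum_nbij'`.)
`fam_prod`: apply `sum_colorings` to `Φ s = ∏_u ∏_{P ∈ s u} f u P`; for a colouring this is `∏_{P ∈ t} f (c P) P`, and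
`∑_c ∏_{P ∈ t} f (c P) P = ∏_{P ∈ t} ∑_u f u P` (`Finset.prod_univ_sum`, `Fintype.piFinset_univ`, and `Finset.prod_coe_sort`).
-/

set_option autoImplicit false

open Polynomial
open scoped Classical

namespace Pool.Agent.Helper48.ST

variable {F : Type} [Field F]

/-- The members of `t` of colour `u`. -/
noncomputable def parts {Ω : Type} (t : Finset (Ir F)) (c : {P // P ∈ t} → Ω) (u : Ω) :
    Finset (Ir F) :=
  t.filter fun P => ∃ h : P ∈ t, c ⟨P, h⟩ = u

theorem famProd_mem_parts {Ω : Type} (t : Finset (Ir F)) (c : {P // P ∈ t} → Ω) (u : Ω) (P : Ir F) :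
    P ∈ parts t c u ↔ ∃ h : P ∈ t, c ⟨P, h⟩ = u := by
  unfold parts
  rw [Finset.mem_filter]
  exact ⟨fun h => h.2, fun h => ⟨h.1, h⟩⟩

theorem famProd_disj {Ω : Type} (t : Finset (Ir F)) (c : {P // P ∈ t} → Ω) (u v : Ω) (huv : u ≠ v) :
    Disjoint (parts t c u) (parts t c v) := by
  rw [Finset.disjoint_left]
  intro P hP hP'
  rw [famProd_mem_parts] at hP hP'
  obtain ⟨h1, h2⟩ := hP
  obtain ⟨h3, h4⟩ := hP'
  exact huv (h2.symm.trans h4)

theorem famProd_union {Ω : Type} [Fintype Ω] (t : Finset (Ir F)) (c : {P // P ∈ t} → Ω) :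
    Finset.univ.biUnion (parts t c) = t := by
  ext P
  rw [Finset.mem_biUnion]
  constructor
  · rintro ⟨u, -, hu⟩
    rw [famProd_mem_parts] at hu
    exact hu.1
  · intro hP
    exact ⟨c ⟨P, hP⟩, Finset.mem_univ _, (famProd_mem_parts _ _ _ _).mpr ⟨hP, rfl⟩⟩

theorem famProd_dgs {Ω : Type} [Fintype Ω] (s : Ω → Finset (Ir F))
    (hs : ∀ u v, u ≠ v → Disjoint (s u) (s v)) : dgs (Finset.univ.biUnion s) = ∑ u, dgs (s u) := by
  unfold dgs
  exact Finset.sum_biUnion fun u _ v _ huv => hs u v huv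

theorem sum_colorings [Fintype F] {Ω : Type} [Fintype Ω] (S : Finset (Ir F)) (N : ℕ)
    (Φ : (Ω → Finset (Ir F)) → ℂ) :
    ∑ t ∈ Sq S N, ∑ c : {P // P ∈ t} → Ω, Φ (parts t c) = ∑ s ∈ Fam Ω S N, Φ s := by
  rw [Finset.sum_sigma']
  refine Finset.sum_bij (fun x _ => parts x.1 x.2) ?_ ?_ ?_ ?_
  · rintro ⟨t, c⟩ hx
    rw [Finset.mem_sigma] at hx
    have ht := mem_Sq.mp hx.1
    rw [mem_Fam]
    refine ⟨fun u v huv => famProd_disj t c u v huv, fun u => ?_, ?_⟩
    · refine Disjoint.mono_left ?_ ht.1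
      intro P hP
      exact ((famProd_mem_parts _ _ _ _).mp hP).1
    · rw [← famProd_dgs (parts t c) (fun u v huv => famProd_disj t c u v huv), famProd_union]
      exact ht.2
  · rintro ⟨t, c⟩ _ ⟨t', c'⟩ _ h
    have h0 : parts t c = parts t' c' := h
    have h1 : t = t' := by
      rw [← famProd_union t c, ← famProd_union t' c', h0]
    subst h1
    have h2 : c = c' := by
      funext P
      have h3 : P.1 ∈ parts t c (c P) := (famProd_mem_parts _ _ _ _).mpr ⟨P.2, rfl⟩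
      rw [h0] at h3
      obtain ⟨h4, h5⟩ := (famProd_mem_parts _ _ _ _).mp h3
      exact h5.symm
    subst h2
    rfl
  · intro s hs
    rw [mem_Fam] at hs
    obtain ⟨hs1, hs2, hs3⟩ := hs
    have hc : ∀ P : {P // P ∈ Finset.univ.biUnion s}, ∃ u, P.1 ∈ s u := by
      rintro ⟨P, hP⟩
      rw [Finset.mem_biUnion] at hP
      obtain ⟨u, -, hu⟩ := hP
      exact ⟨u, hu⟩
    choose c hc using hc
    refine ⟨⟨Finset.univ.biUnion s, c⟩, ?_, ?_⟩
    · rw [Finset.mem_sigma]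
      refine ⟨?_, Finset.mem_univ _⟩
      rw [mem_Sq]
      refine ⟨?_, ?_⟩
      · rw [Finset.disjoint_biUnion_left]
        exact fun u _ => hs2 u
      · rw [famProd_dgs s hs1, hs3]
    · funext u
      ext P
      show P ∈ parts (Finset.univ.biUnion s) c u ↔ P ∈ s u
      rw [famProd_mem_parts]
      constructor
      · rintro ⟨h1, h2⟩
        rw [← h2]
        exact hc ⟨P, h1⟩
      · intro hP
        have h1 : P ∈ Finset.univ.biUnion s := Finset.mem_biUnion.mpr ⟨u, Finset.mem_univ _, hP⟩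
        refine ⟨h1, ?_⟩
        by_contra hne
        exact Finset.disjoint_left.mp (hs1 _ _ hne) (hc ⟨P, h1⟩) hP
  · rintro ⟨t, c⟩ _
    rfl

theorem famProd_colour {Ω : Type} [Fintype Ω] (f : Ω → Ir F → ℂ) (t : Finset (Ir F))
    (c : {P // P ∈ t} → Ω) :
    ∏ u, ∏ P ∈ parts t c u, f u P = ∏ P : {P // P ∈ t}, f (c P) P.1 := by
  have h1 : ∀ u, ∏ P ∈ parts t c u, f u P =
      ∏ P : {P // P ∈ t}, (if c P = u then f u P.1 else 1) := by
    intro u
    unfold parts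
    rw [Finset.prod_filter, ← Finset.prod_attach]
    apply Finset.prod_congr rfl
    rintro ⟨P, hP⟩ _
    by_cases h : c ⟨P, hP⟩ = u
    · rw [if_pos h, if_pos ⟨hP, h⟩]
    · rw [if_neg h, if_neg]
      rintro ⟨_, h'⟩
      exact h h'
  rw [Finset.prod_congr rfl fun u _ => h1 u, Finset.prod_comm]
  apply Finset.prod_congr rfl
  intro P _
  rw [Finset.prod_ite_eq]
  simp

theorem famProd_expand {Ω : Type} [Fintype Ω] (f : Ω → Ir F → ℂ) (t : Finset (Ir F)) :
    ∑ c : {P // P ∈ t} → Ω, ∏ P : {P // P ∈ t}, f (c P) P.1 = ∏ P ∈ t, ∑ u, f u P := by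
  rw [← Finset.prod_attach, ← Finset.univ_eq_attach, Finset.prod_univ_sum, Fintype.piFinset_univ]

theorem fam_prod [Fintype F] {Ω : Type} [Fintype Ω] (S : Finset (Ir F)) (N : ℕ)
    (f : Ω → Ir F → ℂ) :
    ∑ s ∈ Fam Ω S N, ∏ u, ∏ P ∈ s u, f u P = ∑ t ∈ Sq S N, ∏ P ∈ t, ∑ u, f u P := by
  rw [← sum_colorings S N (fun s => ∏ u, ∏ P ∈ s u, f u P)]
  apply Finset.sum_congr rfl
  intro t _
  rw [← famProd_expand f t]
  apply Finset.sum_congr rfl
  intro c _
  exact famProd_colour f t c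

theorem fam_prod_real [Fintype F] {Ω : Type} [Fintype Ω] (S : Finset (Ir F)) (N : ℕ)
    (f : Ω → Ir F → ℝ) :
    ∑ s ∈ Fam Ω S N, ∏ u, ∏ P ∈ s u, f u P = ∑ t ∈ Sq S N, ∏ P ∈ t, ∑ u, f u P := by
  apply Complex.ofReal_injective
  push_cast
  exact fam_prod S N (fun u P => (f u P : ℂ))

end Pool.Agent.Helper48.ST
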