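import Pool.Agent.Helper48.ST.CaseA
import Pool.Agent.Helper48.ST.CaseB

/-!
ST-80. The local conditions for all closed points, finite places.

Proof. `dich` for `A`. Second case: `A(a_j)/A(a_k)` is the image of `ε_j/ε_k`, one-units, so `ratio_case` (`powM_of_one`). First case: `A = A₀.map`, `pure_red`: `Ā₀ = h̄^r`. If `h̄ = X - ā_i` for some `i` with a congruent `i'`: `deg h = 1`, `r = deg A₀`, `case_B`; otherwise `case_A` (`A₀.eval (a j) ≠ 0` as `R → M` is injective).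
-/

set_option autoImplicit false

open Polynomial
open scoped Classical
open Pool.Agent.Helper96.PS (CData LData)

namespace Pool.Agent.Helper48.ST

theorem fin_AB {R M : Type} [CommRing R] [IsDomain R] [Field M] [Algebra R M] {ϖ : R}
    (hC : CData ϖ M) {ℓ n u : ℕ} (hℓp : ℓ.Prime) (hodd : Odd ℓ) (hℓ : IsUnit (ℓ : R))
    (hu : n * u ≡ 1 [MOD ℓ]) (a : Fin n → R) (D : R) (L : LHyp ϖ a D) (A B : M[X])
    (hA : A.Monic) (hirrA : Irreducible A) (hA0 : ∀ j, A.eval (algebraMap R M (a j)) ≠ 0)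
    (hAB : A ∣ B ^ ℓ - C (algebraMap R M D) * ∏ i, (X - C (algebraMap R M (a i)))) :
    LCond M ϖ ℓ a D (zAB u (fun i => algebraMap R M (a i)) (algebraMap R M D) A) := by
  have hD : D ≠ 0 := by
    intro h
    apply L.D0
    rw [h]
    exact dvd_zero _
  rcases dich hC A hA hirrA with ⟨A₀, hA₀, rfl⟩ | ⟨h0, hd⟩
  · obtain ⟨h, r, hh, hr, hirr, hAh⟩ := pure_red hC A₀ hA₀ hirrA
    have hA0' : ∀ j, A₀.eval (a j) ≠ 0 := by
      intro j hj
      apply hA0 j
      rw [eval_map_algebraMap, aeval_algebraMap_apply, coe_aeval_eq_eval, hj, map_zero]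
    have hnt : Nontrivial (R ⧸ Ideal.span {ϖ}) := by
      rw [Ideal.Quotient.nontrivial_iff]
      intro h1
      exact hC.unif.not_isUnit (Ideal.span_singleton_eq_top.1 h1)
    by_cases hex : ∃ i i', i' ≠ i ∧ ϖ ∣ a i' - a i ∧
        h.map (Ideal.Quotient.mk (Ideal.span {ϖ})) =
          X - C (Ideal.Quotient.mk (Ideal.span {ϖ}) (a i))
    · obtain ⟨i, i', hii, hdvd, hhi⟩ := hex
      have hdeg : A₀.natDegree = r := by
        have h1 := congrArg natDegree hAh
        rw [hA₀.natDegree_map, hhi, (monic_X_sub_C _).natDegree_pow, natDegree_X_sub_C,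
          mul_one] at h1
        exact h1
      refine case_B hC hℓp hodd hℓ hu a D L A₀ B hA₀ hirrA hA0' hAB i i' hii hdvd ?_
      rw [hAh, hhi, hdeg]
    · refine case_A hC hℓp hodd hℓ hu a D L A₀ B hA₀ hA0' hAB h r hh hirr hAh ?_
      by_cases hi : ∃ i, h.map (Ideal.Quotient.mk (Ideal.span {ϖ})) =
          X - C (Ideal.Quotient.mk (Ideal.span {ϖ}) (a i))
      · obtain ⟨i, hi⟩ := hi
        exact Or.inl ⟨i, hi, fun j hj hdvd => hex ⟨i, j, hj, hdvd, hi⟩⟩
      · exact Or.inr fun i hi' => hi ⟨i, hi'⟩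
  · refine ratio_case hC hodd hℓp.two_le hu a D L.ne hD A B hA hA0 hAB ?_
    intro j k
    obtain ⟨ε, hε, hε'⟩ := hd (a j)
    obtain ⟨ε₁, hε₁, hε₁'⟩ := hd (a k)
    rw [hε', hε₁', mul_div_mul_left _ _ h0]
    exact powM_div (powM_of_one hC hℓ hℓp.one_le ε hε) (powM_of_one hC hℓ hℓp.one_le ε₁ hε₁)

end Pool.Agent.Helper48.ST
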