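import Pool.Agent.Helper48.ST.TorVal
import Pool.Agent.Helper48.ST.VBasic

/-!
ST-62. The classes `Tor w` are different for different `w ∈ Vs`.

Proof. Suppose `Tor w j` is an `ℓ`-th power for all `j`. For `i < j` take `P ∈ SS a` with `pa P = i`, `pb P = j` (`exists_over`): `vl P (Tor w i) = w i - w j` (`tor_vl_S`) is divisible by `ℓ` (`vl_pow`). So all `w i` are congruent modulo `ℓ`, and `∑ w = 0` gives
`n w i ≡ 0`, `w i ≡ 0 mod ℓ`.
-/

set_option autoImplicit false

open Polynomial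
open scoped Classical

namespace Pool.Agent.Helper48.ST

theorem tor_inj {F : Type} [Field F] [Fintype F] {ℓ : ℕ} [Fact ℓ.Prime] {n d : ℕ}
    (hn : ¬ ℓ ∣ n) (hd : 1 ≤ d) {a : Fin n → F[X]} (ha : Stp d a) {pa pb : Ir F → Fin n}
    (hp : Pairs a pa pb) {t : Finset (Ir F)} (ht : Disjoint t (SS a)) (w : Fin n → ℤ)
    (hw : ∑ i, w i = 0) (y : Fin n → RatFunc F) (hy : ∀ j, y j ≠ 0 ∧ Tor a (pr t) w j = y j ^ ℓ)
    (j : Fin n) : (ℓ : ℤ) ∣ w j := by
  have hlt : ∀ i k : Fin n, i < k → (ℓ : ℤ) ∣ w i - w k := by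
    intro i k hik
    obtain ⟨P, hP, h1, h2⟩ := exists_over hd ha hp i k hik
    have h3 := tor_vl_S ha hp ht w hP i
    rw [h1, h2, if_pos rfl, (hy i).2] at h3
    rw [← h3]
    exact vl_pow P (y i) (hy i).1
  have hall : ∀ i : Fin n, (ℓ : ℤ) ∣ w i - w j := by
    intro i
    rcases lt_trichotomy i j with h | h | h
    · exact hlt i j h
    · rw [h, sub_self]
      exact dvd_zero _
    · rw [← neg_sub]
      exact (hlt j i h).neg_right
  have hsum : (ℓ : ℤ) ∣ ∑ i, (w i - w j) := Finset.dvd_sum fun i _ => hall i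
  rw [Finset.sum_sub_distrib, hw, zero_sub, Finset.sum_const, Finset.card_univ, Fintype.card_fin,
    nsmul_eq_mul, dvd_neg] at hsum
  have hℓ : Prime (ℓ : ℤ) := Nat.prime_iff_prime_int.1 Fact.out
  rcases hℓ.dvd_or_dvd hsum with h | h
  · exact absurd (Int.natCast_dvd_natCast.1 h) hn
  · exact h

end Pool.Agent.Helper48.ST
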