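import Pool.Agent.Helper48.ST.InGrp
import Pool.Agent.Helper48.ST.TorInj
import Pool.Agent.Helper48.ST.ClsLe

/-!
ST-63. Either all classes are torsion classes or there are at least `ℓ κ` classes.

Proof. Let `G = Fin n → (RatFunc F)ˣ`, `Q = G ⧸ Pw`, `κ = ℓ^(n-1)`. By ST-46 `InS` is (the carrier of) a subgroup of `G` containing `Pw`, so `clsS` is a subgroup `H` of `Q`, finite by `cls_le`. The classes of `Tor w`, `w : Fin n → ℤ` of sum `0`, form a subgroup `T ≤ H` (`tor_add`, `tor_neg`, `ins_tor`),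
and `card T = κ`: the class of `Tor w` depends only on `w mod ℓ` (`Tor (ℓ w) = (Tor w)^ℓ` by `zpow_mul`), every `v ∈ Vs` has a lift (`exists_lift`), different `v` give different classes (`tor_inj`), `card_Vs`. If `H = T` we are in the first case (`QuotientGroup.eq`). Otherwise
`card H = κ * [H : T]` and `[H : T] > 1` is a power of `ℓ`, as `Q`, so `H/T`, has exponent `ℓ` (or: for `h ∈ H \ T` the cosets `h^i T`, `0 ≤ i < ℓ`, are different), so `card H ≥ ℓ κ`.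
-/

set_option autoImplicit false

open Polynomial
open scoped Classical

namespace Pool.Agent.Helper48.ST

/-- The class `Tor w` as a family of units. -/
noncomputable def kor_u {F : Type} [Field F] [Fintype F] {n d : ℕ} {a : Fin n → F[X]}
    (ha : Stp d a) (t : Finset (Ir F)) (w : Fin n → ℤ) : Fin n → (RatFunc F)ˣ :=
  fun j => Units.mk0 (Tor a (pr t) w j) (tor_ne_zero ha w j)

theorem kor_u_val {F : Type} [Field F] [Fintype F] {n d : ℕ} {a : Fin n → F[X]}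
    (ha : Stp d a) (t : Finset (Ir F)) (w : Fin n → ℤ) (j : Fin n) :
    ((kor_u ha t w j : (RatFunc F)ˣ) : RatFunc F) = Tor a (pr t) w j := rfl

theorem kor_u_add {F : Type} [Field F] [Fintype F] {n d : ℕ} {a : Fin n → F[X]}
    (ha : Stp d a) (t : Finset (Ir F)) (w w' : Fin n → ℤ) :
    kor_u ha t (fun i => w i + w' i) = kor_u ha t w * kor_u ha t w' := by
  funext j
  apply Units.ext
  rw [Pi.mul_apply, Units.val_mul, kor_u_val, kor_u_val, kor_u_val, tor_add ha]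

theorem kor_u_neg {F : Type} [Field F] [Fintype F] {n d : ℕ} {a : Fin n → F[X]}
    (ha : Stp d a) (t : Finset (Ir F)) (w : Fin n → ℤ) :
    kor_u ha t (fun i => -w i) = (kor_u ha t w)⁻¹ := by
  funext j
  apply Units.ext
  rw [Pi.inv_apply, Units.val_inv_eq_inv_val, kor_u_val, kor_u_val, tor_neg ha]

theorem kor_u_zero {F : Type} [Field F] [Fintype F] {n d : ℕ} {a : Fin n → F[X]}
    (ha : Stp d a) (t : Finset (Ir F)) : kor_u ha t (fun _ => 0) = 1 := by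
  funext j
  apply Units.ext
  rw [kor_u_val, Pi.one_apply, Units.val_one]
  unfold Tor
  simp

theorem kor_u_mul {F : Type} [Field F] [Fintype F] {n d : ℕ} {a : Fin n → F[X]}
    (ha : Stp d a) (t : Finset (Ir F)) (w : Fin n → ℤ) (k : ℕ) :
    kor_u ha t (fun i => (k : ℤ) * w i) = kor_u ha t w ^ k := by
  induction k with
  | zero =>
    rw [pow_zero, ← kor_u_zero ha t]
    congr 1
    funext i
    push_cast
    rw [zero_mul]
  | succ k ih =>
    rw [pow_succ, ← ih, ← kor_u_add]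
    congr 1
    funext i
    push_cast
    ring

/-- The group of the solutions of the local conditions. -/
def kor_I {F : Type} [Field F] [Fintype F] {ℓ : ℕ} [Fact ℓ.Prime] (g : Lg F ℓ) {n d : ℕ}
    {a : Fin n → F[X]} (ha : Stp d a) (t : Finset (Ir F)) : Subgroup (Fin n → (RatFunc F)ˣ) where
  carrier := {x | InS g a t x}
  mul_mem' := fun hx hy => ins_mul g ha hx hy
  one_mem' := by
    have h := ins_pow (t := t) (a := a) g (1 : Fin n → (RatFunc F)ˣ)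
    rw [one_pow] at h
    exact h
  inv_mem' := fun hx => ins_inv g ha hx

/-- The group of the torsion classes. -/
noncomputable def kor_T {F : Type} [Field F] [Fintype F] (ℓ : ℕ) {n d : ℕ}
    {a : Fin n → F[X]} (ha : Stp d a) (t : Finset (Ir F)) :
    Subgroup ((Fin n → (RatFunc F)ˣ) ⧸ Pw F n ℓ) where
  carrier := {c | ∃ w : Fin n → ℤ, ∑ i, w i = 0 ∧
    ((kor_u ha t w : Fin n → (RatFunc F)ˣ) : (Fin n → (RatFunc F)ˣ) ⧸ Pw F n ℓ) = c}
  mul_mem' := by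
    rintro _ _ ⟨w, hw, rfl⟩ ⟨w', hw', rfl⟩
    refine ⟨fun i => w i + w' i, ?_, ?_⟩
    · rw [Finset.sum_add_distrib, hw, hw', add_zero]
    · rw [kor_u_add]
      rfl
  one_mem' := ⟨fun _ => 0, by simp, by
    rw [kor_u_zero]
    rfl⟩
  inv_mem' := by
    rintro _ ⟨w, hw, rfl⟩
    refine ⟨fun i => -w i, ?_, ?_⟩
    · rw [Finset.sum_neg_distrib, hw, neg_zero]
    · rw [kor_u_neg]
      rfl

theorem kor_card_T {F : Type} [Field F] [Fintype F] {ℓ : ℕ} [Fact ℓ.Prime] {n d : ℕ}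
    (hn1 : 2 ≤ n) (hn : ¬ ℓ ∣ n) (hd : 1 ≤ d) {a : Fin n → F[X]} (ha : Stp d a)
    {t : Finset (Ir F)} (ht : Disjoint t (SS a)) : Nat.card (kor_T ℓ ha t) = ℓ ^ (n - 1) := by
  have hNZ : NeZero ℓ := ⟨(Fact.out : ℓ.Prime).ne_zero⟩
  rw [← card_Vs (n := n) (ℓ := ℓ) (by omega), ← Nat.card_eq_fintype_card]
  choose lift hl0 hl using fun v : Vs n ℓ => exists_lift (n := n) (ℓ := ℓ) (by omega) v
  obtain ⟨pa, pb, hp⟩ := exists_pairs (d := d) (by omega : 1 ≤ n) ha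
  refine (Nat.card_congr (Equiv.ofBijective (fun v : Vs n ℓ => (⟨((kor_u ha t (lift v) :
    Fin n → (RatFunc F)ˣ) : (Fin n → (RatFunc F)ˣ) ⧸ Pw F n ℓ), lift v, hl0 v, rfl⟩ :
      kor_T ℓ ha t)) ⟨?_, ?_⟩)).symm
  · intro v v' hv
    have h1 := congrArg Subtype.val hv
    have h2 := QuotientGroup.eq.1 h1
    rw [← kor_u_neg, ← kor_u_add] at h2
    obtain ⟨y, hy⟩ := h2
    have h3 := tor_inj hn hd ha hp ht (fun i => -lift v i + lift v' i) (by
      rw [Finset.sum_add_distrib, Finset.sum_neg_distrib, hl0, hl0, neg_zero, add_zero])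
      (fun j => (y j : RatFunc F)) (fun j => ⟨(y j).ne_zero, by
        have h4 := congrArg (fun z : Fin n → (RatFunc F)ˣ => ((z j : (RatFunc F)ˣ) : RatFunc F)) hy
        have h5 : ((y j : RatFunc F)) ^ ℓ = Tor a (pr t) (fun i => -lift v i + lift v' i) j := h4
        exact h5.symm⟩)
    apply Subtype.ext
    funext j
    rw [← hl v j, ← hl v' j]
    have h6 := (ZMod.intCast_zmod_eq_zero_iff_dvd _ ℓ).2 (h3 j)
    push_cast at h6
    rw [neg_add_eq_zero] at h6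
    exact h6
  · rintro ⟨_, w, hw, rfl⟩
    have hv : (fun j => (w j : ZMod ℓ)) ∈ Vs n ℓ := by
      rw [mem_Vs, ← Int.cast_sum, hw, Int.cast_zero]
    refine ⟨⟨_, hv⟩, Subtype.ext (QuotientGroup.eq.2 ?_)⟩
    obtain ⟨w', hw'⟩ : ∃ w', w' = lift ⟨_, hv⟩ := ⟨_, rfl⟩
    have h0 : ∀ j, (ℓ : ℤ) ∣ -w' j + w j := by
      intro j
      rw [← ZMod.intCast_zmod_eq_zero_iff_dvd]
      push_cast
      rw [hw', hl, neg_add_cancel]
    choose q hq using h0
    rw [← hw', ← kor_u_neg, ← kor_u_add]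
    have h1 : (fun i => -w' i + w i) = fun i => (ℓ : ℤ) * q i := funext hq
    rw [h1, kor_u_mul]
    exact ⟨_, rfl⟩

theorem k_or {F : Type} [Field F] [Fintype F] {ℓ : ℕ} [Fact ℓ.Prime] (g : Lg F ℓ)
    (h2 : ℓ ≠ 2) {n d : ℕ} (hn1 : 2 ≤ n) (hn : ¬ ℓ ∣ n) (hd : 1 ≤ d) {a : Fin n → F[X]}
    (ha : Stp d a) {t : Finset (Ir F)} (ht : Disjoint t (SS a)) (hN : ℓ ∣ dgs t + n * d) :
    ((clsS g a t).ncard = ℓ ^ (n - 1) ∧ ∀ x : Fin n → (RatFunc F)ˣ, InS g a t x →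
      ∃ w : Fin n → ℤ, ∑ i, w i = 0 ∧ ∃ b : Fin n → (RatFunc F)ˣ,
        ∀ j, (x j : RatFunc F) = Tor a (pr t) w j * (b j : RatFunc F) ^ ℓ) ∨
      ℓ * ℓ ^ (n - 1) ≤ (clsS g a t).ncard := by
  have hNZ : NeZero ℓ := ⟨(Fact.out : ℓ.Prime).ne_zero⟩
  obtain ⟨pa, pb, hp⟩ := exists_pairs (d := d) (by omega : 1 ≤ n) ha
  obtain ⟨cS, cI, _, hcl⟩ := cls_le g h2 ha hp
  have hfin := (hcl t ht).1
  obtain ⟨H, hH⟩ : ∃ H : Subgroup ((Fin n → (RatFunc F)ˣ) ⧸ Pw F n ℓ),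
    H = (kor_I g ha t).map (QuotientGroup.mk' (Pw F n ℓ)) := ⟨_, rfl⟩
  have hHs : clsS g a t = (H : Set ((Fin n → (RatFunc F)ˣ) ⧸ Pw F n ℓ)) := by
    rw [hH, Subgroup.coe_map]
    rfl
  rw [hHs] at hfin ⊢
  have hT := kor_card_T hn1 hn hd ha ht
  have hTH : kor_T ℓ ha t ≤ H := by
    rintro _ ⟨w, hw, rfl⟩
    rw [hH]
    exact ⟨kor_u ha t w, ins_tor g ha h2 hN w hw _ fun j => rfl, rfl⟩
  have hFH : Finite H := hfin
  by_cases hle : H ≤ kor_T ℓ ha t
  · left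
    have heq : H = kor_T ℓ ha t := le_antisymm hle hTH
    refine ⟨?_, fun x hx => ?_⟩
    · rw [heq, ← Nat.card_coe_set_eq]
      exact hT
    · have h1 : ((x : Fin n → (RatFunc F)ˣ) : (Fin n → (RatFunc F)ˣ) ⧸ Pw F n ℓ) ∈
          kor_T ℓ ha t := by
        apply hle
        rw [hH]
        exact ⟨x, hx, rfl⟩
      obtain ⟨w, hw, hwx⟩ := h1
      have h2 := QuotientGroup.eq.1 hwx
      obtain ⟨b, hb⟩ := h2
      refine ⟨w, hw, b, fun j => ?_⟩
      have h3 : x = kor_u ha t w * b ^ ℓ := by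
        have h4 : b ^ ℓ = (kor_u ha t w)⁻¹ * x := hb
        rw [h4, mul_inv_cancel_left]
      rw [h3]
      rfl
  · right
    have hp' : IsPGroup ℓ H := by
      rintro ⟨c, hc⟩
      refine ⟨1, Subtype.ext ?_⟩
      obtain ⟨x, rfl⟩ := QuotientGroup.mk_surjective c
      rw [pow_one]
      have h1 : ((x ^ ℓ : Fin n → (RatFunc F)ˣ) : (Fin n → (RatFunc F)ˣ) ⧸ Pw F n ℓ) = 1 := by
        rw [QuotientGroup.eq_one_iff]
        exact ⟨x, rfl⟩
      exact h1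
    obtain ⟨m, hm⟩ := IsPGroup.iff_card.1 hp'
    have hlt : (kor_T ℓ ha t : Set ((Fin n → (RatFunc F)ˣ) ⧸ Pw F n ℓ)).ncard <
        (H : Set ((Fin n → (RatFunc F)ˣ) ⧸ Pw F n ℓ)).ncard := by
      refine Set.ncard_lt_ncard ⟨hTH, hle⟩ hfin
    have h1 : (H : Set ((Fin n → (RatFunc F)ˣ) ⧸ Pw F n ℓ)).ncard = ℓ ^ m := by
      rw [← hm, ← Nat.card_coe_set_eq]
      rfl
    have h3 : (kor_T ℓ ha t : Set ((Fin n → (RatFunc F)ˣ) ⧸ Pw F n ℓ)).ncard = ℓ ^ (n - 1) := by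
      rw [← hT, ← Nat.card_coe_set_eq]
      rfl
    rw [h1, h3] at hlt
    rw [h1, ← pow_succ']
    have h4 : n - 1 < m := (Nat.pow_lt_pow_iff_right (Fact.out : ℓ.Prime).one_lt).1 hlt
    exact Nat.pow_le_pow_right (Fact.out : ℓ.Prime).pos h4

end Pool.Agent.Helper48.ST
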