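import Pool.Agent.Helper48.ST.RelIx
import Pool.Agent.Helper48.ST.Prop1
import Pool.Agent.Helper48.ST.SqLower
import Pool.Agent.Helper48.ST.ExLg

/-!
ST-95. The final theorem.

Proof. `g` from `exists_lg`. `pr` is a bijection of `Sq (SS a) N` onto `Tw a N`: `pr t` is monic (`pr_monic`), squarefree (`squarefree_pr`), of degree `dgs t = N` (`natDegree_pr`), prime to `disc a` (`coprime_pr_iff`/`mem_iff_dvd_pr`, `mem_SS`, the primes of `disc a` are those of `SS a`); injective (`pr_injective`), surjective (`exists_pr`).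
So `Tw a N` is finite, `ncard = card (Sq (SS a) N)`, and `finsum` over `Tw a N` is the sum over `Sq (SS a) N` of the value at `pr t`. `sq_lower` gives `c`; `avg` and `relIx_le` give the average; `relIx_ne`, `le_relIx`; `prop1` with `relIx_eq` (and `sel_in` for the last property: elements of `Sel` are in `InS`, so torsion classes) the proportion.
-/

set_option autoImplicit false

open Polynomial
open scoped Classical
open Pool.Agent.Helper96.PS (CData LData)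

namespace Pool.Agent.Helper48.ST

/-- The twisting polynomials. -/
def Tw {F : Type} [Field F] {n : ℕ} (a : Fin n → F[X]) (N : ℕ) : Set F[X] :=
  {D : F[X] | D.Monic ∧ Squarefree D ∧ D.natDegree = N ∧ IsCoprime D (disc a)}

/-- The order of the Selmer group of `y^ℓ = D ∏ (x - a_i)` over `F(t)`. -/
noncomputable def selOrd {F : Type} [Field F] (ℓ u : ℕ) {n : ℕ} (a : Fin n → F[X]) (D : F[X]) :
    ℕ :=
  (Pw F n ℓ).relIndex (Sel F ℓ u (fun i => algebraMap F[X] (RatFunc F) (a i))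
    (algebraMap F[X] (RatFunc F) D))

theorem final_coprime {F : Type} [Field F] [Fintype F] {n d : ℕ} {a : Fin n → F[X]}
    (ha : Stp d a) (t : Finset (Ir F)) :
    IsCoprime (pr t) (disc a) ↔ Disjoint t (SS a) := by
  rw [isCoprime_comm, coprime_pr_iff, Finset.disjoint_left]
  have h0 : disc a ≠ 0 := ha.sqf.ne_zero
  constructor
  · intro h P hP hP'
    have h1 := h P hP
    have h2 : P.1 ∣ disc a := by
      unfold SS at hP'
      exact (Finset.mem_filter.mp hP').2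
    rw [isCoprime_comm, P.2.2.coprime_iff_not_dvd] at h1
    exact h1 h2
  · intro h R hR
    rw [isCoprime_comm, R.2.2.coprime_iff_not_dvd]
    intro hd
    refine h hR ?_
    unfold SS
    exact Finset.mem_filter.mpr ⟨mem_IrLe.2 (natDegree_le_of_dvd hd h0), hd⟩

theorem final_Tw {F : Type} [Field F] [Fintype F] {n d : ℕ} {a : Fin n → F[X]}
    (ha : Stp d a) (N : ℕ) :
    Tw a N = pr '' (↑(Sq (SS a) N) : Set (Finset (Ir F))) := by
  ext D
  constructor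
  · rintro ⟨h1, h2, h3, h4⟩
    obtain ⟨t, rfl⟩ := exists_pr D h1 h2
    refine ⟨t, ?_, rfl⟩
    rw [Finset.mem_coe, mem_Sq]
    exact ⟨(final_coprime ha t).1 h4, by rw [← natDegree_pr]; exact h3⟩
  · rintro ⟨t, ht, rfl⟩
    rw [Finset.mem_coe, mem_Sq] at ht
    exact ⟨pr_monic t, squarefree_pr t, by rw [natDegree_pr]; exact ht.2,
      (final_coprime ha t).2 ht.1⟩

theorem final {F : Type} [Field F] [Fintype F] {ℓ : ℕ} [Fact ℓ.Prime]
    (h2 : ℓ ≠ 2) (hq : ℓ ∣ Fintype.card F - 1) {n d u : ℕ} (hn1 : 2 ≤ n) (hn : ¬ ℓ ∣ n)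
    (hd : 1 ≤ d) (hu : n * u ≡ 1 [MOD ℓ]) (a : Fin n → F[X]) (ha : Stp d a) :
    ∃ c : ℝ, 0 < c ∧ ∀ δ : ℝ, 0 < δ → ∃ N₀ : ℕ, ∀ N, N₀ ≤ N → ℓ ∣ N + n * d →
      (Tw a N).Finite ∧ c * (Fintype.card F : ℝ) ^ N ≤ ((Tw a N).ncard : ℝ) ∧
      (∀ D ∈ Tw a N, ℓ ^ (n - 1) ≤ selOrd ℓ u a D) ∧
      ∑ᶠ D ∈ Tw a N, (selOrd ℓ u a D : ℝ) ≤
        (2 + δ) * (ℓ : ℝ) ^ (n - 1) * ((Tw a N).ncard : ℝ) ∧
      (((ℓ : ℝ) - 2) / ((ℓ : ℝ) - 1) - δ) * ((Tw a N).ncard : ℝ) ≤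
        ({D : F[X] | D ∈ Tw a N ∧ selOrd ℓ u a D = ℓ ^ (n - 1) ∧
          ∀ x ∈ Sel F ℓ u (fun i => algebraMap F[X] (RatFunc F) (a i))
            (algebraMap F[X] (RatFunc F) D),
            ∃ w : Fin n → ℤ, ∑ i, w i = 0 ∧ ∃ b : Fin n → (RatFunc F)ˣ,
              ∀ j, (x j : RatFunc F) = Tor a D w j * (b j : RatFunc F) ^ ℓ}.ncard : ℝ) := by
  obtain ⟨g⟩ := exists_lg F ℓ hq
  obtain ⟨c, hc, N₁, hN₁⟩ := sq_lower (SS a)
  refine ⟨c, hc, fun δ hδ => ?_⟩
  obtain ⟨N₂, hN₂⟩ := avg g h2 hn1 hn hd ha δ hδ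
  obtain ⟨N₃, hN₃⟩ := prop1 g h2 hn1 hn hd ha δ hδ
  refine ⟨max N₁ (max N₂ N₃), fun N hN hdvd => ?_⟩
  have hT := final_Tw ha N
  have hfin : (Tw a N).Finite := by
    rw [hT]
    exact (Finset.finite_toSet _).image _
  have hcard : (Tw a N).ncard = (Sq (SS a) N).card := by
    rw [hT, Set.ncard_image_of_injective _ pr_injective, Set.ncard_coe_finset]
  have hmem : ∀ t ∈ Sq (SS a) N, Disjoint t (SS a) ∧ ℓ ∣ dgs t + n * d := by
    intro t ht
    rw [mem_Sq] at ht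
    exact ⟨ht.1, by rw [ht.2]; exact hdvd⟩
  refine ⟨hfin, ?_, ?_, ?_, ?_⟩
  · rw [hcard]
    exact hN₁ N ((le_max_left _ _).trans hN)
  · intro D hD
    rw [hT] at hD
    obtain ⟨t, ht, rfl⟩ := hD
    obtain ⟨h3, h4⟩ := hmem t (Finset.mem_coe.1 ht)
    exact le_relIx g h2 hq hn1 hn hd hu ha h3 h4
  · have hsum : ∑ᶠ D ∈ Tw a N, (selOrd ℓ u a D : ℝ) =
        ∑ t ∈ Sq (SS a) N, (selOrd ℓ u a (pr t) : ℝ) := by
      rw [hT, finsum_mem_image pr_injective.injOn, finsum_mem_coe_finset]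
    rw [hsum, hcard]
    refine le_trans (Finset.sum_le_sum fun t ht => ?_)
      (hN₂ N (((le_max_left _ _).trans (le_max_right _ _)).trans hN))
    obtain ⟨h3, h4⟩ := hmem t ht
    exact_mod_cast relIx_le g h2 hq hn1 hn hd hu ha h3 h4
  · rw [hcard]
    refine (hN₃ N (((le_max_right _ _).trans (le_max_right _ _)).trans hN) hdvd).trans ?_
    rw [← Set.ncard_coe_finset, ← Set.ncard_image_of_injective _ pr_injective]
    refine Nat.cast_le.2 (Set.ncard_le_ncard ?_ (hfin.subset fun D hD => hD.1))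
    rintro D ⟨t, ht, rfl⟩
    rw [Finset.mem_coe, Finset.mem_filter] at ht
    obtain ⟨h3, h4⟩ := hmem t ht.1
    refine ⟨?_, relIx_eq g h2 hq hn1 hn hd hu ha h3 h4 ht.2, fun x hx => ?_⟩
    · rw [hT]
      exact ⟨t, Finset.mem_coe.2 ht.1, rfl⟩
    · exact ht.2 x (sel_in g h2 hq (by omega) hu ha h3 h4 x hx)

end Pool.Agent.Helper48.ST
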