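import Pool.Agent.Helper48.ST.CardSq

/-!
ST-08. Upper bound for sums of multiplicative functions over squarefree polynomials.

Proof. Put `q = card F`, `G j = ∑_{t ∈ Sq S j} ∏_{P ∈ t} h P`, `γ j = G j / q^j ≥ 0`.
(1) `m * G m = ∑_{t ∈ Sq S m} (∑_{P ∈ t} deg P) ∏_{t} h = ∑_P deg P * h P * ∑_{t' ∈ Sq S (m - deg P), P ∉ t'} ∏_{t'} h`
(`t = insert P t'`) `≤ ∑_{k=1}^m k (∑_{P ∈ IrEq k} h P) G (m-k) ≤ ∑_{k=1}^m θ k q^k G(m-k)`, so `m γ m ≤ ∑_{k=1}^m θ k γ(m-k) ≤ ∑_{j<m} γ j`.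
(2) `∑_{j<m} γ j ≤ ∑_{t ⊆ IrLe (m-1)} ∏_{P ∈ t} h P q^(-deg P) = ∏_{P ∈ IrLe (m-1)} (1 + h P q^(-deg P))` (`Finset.prod_one_add`) `≤
exp (∑_{P ∈ IrLe (m-1)} h P q^(-deg P)) = exp (∑_{k=1}^{m-1} q^(-k) ∑_{P ∈ IrEq k} h P) ≤ exp (∑_{k=1}^{m-1} θ k / k)` (degrees are `≥ 1`).
-/

set_option autoImplicit false

open Polynomial
open scoped Classical

namespace Pool.Agent.Helper48.ST

theorem hb_deg_pos {F : Type} [Field F] (P : Ir F) : 1 ≤ P.1.natDegree :=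
  Nat.one_le_iff_ne_zero.mpr P.2.2.natDegree_pos.ne'

theorem hb_step {F : Type} [Field F] [Fintype F] (S : Finset (Ir F)) (h : Ir F → ℝ)
    (h0 : ∀ P, 0 ≤ h P) (m : ℕ) :
    (m : ℝ) * ∑ t ∈ Sq S m, ∏ P ∈ t, h P ≤
      ∑ k ∈ Finset.Icc 1 m, (k : ℝ) * (∑ P ∈ IrEq F k, h P) * ∑ t ∈ Sq S (m - k), ∏ P ∈ t, h P := by
  have e1 : (m : ℝ) * ∑ t ∈ Sq S m, ∏ P ∈ t, h P =
      ∑ x ∈ (Sq S m).sigma (fun t => t),
        ((x.2.1.natDegree : ℝ) * (h x.2 * ∏ Q ∈ x.1.erase x.2, h Q)) := by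
    rw [Finset.sum_sigma, Finset.mul_sum]
    refine Finset.sum_congr rfl fun t ht => ?_
    rw [mem_Sq] at ht
    have : (m : ℝ) = ∑ P ∈ t, (P.1.natDegree : ℝ) := by
      rw [← ht.2, dgs]; push_cast; rfl
    rw [this, Finset.sum_mul]
    refine Finset.sum_congr rfl fun P hP => ?_
    rw [Finset.mul_prod_erase t h hP]
  have e2 : ∑ k ∈ Finset.Icc 1 m, (k : ℝ) * (∑ P ∈ IrEq F k, h P) *
      ∑ t ∈ Sq S (m - k), ∏ P ∈ t, h P =
      ∑ y ∈ (Finset.Icc 1 m).sigma (fun k => IrEq F k ×ˢ Sq S (m - k)),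
        ((y.2.1.1.natDegree : ℝ) * (h y.2.1 * ∏ Q ∈ y.2.2, h Q)) := by
    rw [Finset.sum_sigma]
    refine Finset.sum_congr rfl fun k hk => ?_
    rw [Finset.sum_product, mul_assoc, Finset.sum_mul, Finset.mul_sum]
    refine Finset.sum_congr rfl fun P hP => ?_
    rw [mem_IrEq] at hP
    rw [Finset.mul_sum, Finset.mul_sum]
    refine Finset.sum_congr rfl fun t _ => ?_
    simp only [hP]
  rw [e1, e2]
  let f : (Σ _ : Finset (Ir F), Ir F) → (Σ _ : ℕ, Ir F × Finset (Ir F)) :=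
    fun x => ⟨x.2.1.natDegree, (x.2, x.1.erase x.2)⟩
  have hmaps : ∀ x ∈ (Sq S m).sigma (fun t => t),
      f x ∈ (Finset.Icc 1 m).sigma (fun k => IrEq F k ×ˢ Sq S (m - k)) := by
    rintro ⟨t, P⟩ hx
    rw [Finset.mem_sigma] at hx
    obtain ⟨ht, hP⟩ := hx
    simp only at ht hP
    rw [mem_Sq] at ht
    have hle : P.1.natDegree ≤ m := ht.2 ▸ natDegree_le_dgs hP
    simp only [f, Finset.mem_sigma, Finset.mem_Icc, Finset.mem_product, mem_IrEq, mem_Sq, true_and]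
    refine ⟨⟨hb_deg_pos P, hle⟩, ht.1.mono_left (Finset.erase_subset _ _), ?_⟩
    have := Finset.add_sum_erase t (fun P : Ir F => P.1.natDegree) hP
    have h2 := ht.2
    rw [dgs] at h2 ⊢
    omega
  have hinj : Set.InjOn f ((Sq S m).sigma (fun t => t) : Finset _) := by
    rintro ⟨t, P⟩ hx ⟨t', P'⟩ hy hxy
    rw [Finset.mem_coe, Finset.mem_sigma] at hx hy
    simp only [f, Sigma.mk.injEq] at hxy
    obtain ⟨_, hxy⟩ := hxy
    have hxy := eq_of_heq hxy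
    rw [Prod.mk.injEq] at hxy
    obtain ⟨rfl, h2⟩ := hxy
    have hx2 : P ∈ t := hx.2
    have hy2 : P ∈ t' := hy.2
    have : t = t' := by
      rw [← Finset.insert_erase hx2, ← Finset.insert_erase hy2, h2]
    subst this
    rfl
  calc ∑ x ∈ (Sq S m).sigma (fun t => t),
        ((x.2.1.natDegree : ℝ) * (h x.2 * ∏ Q ∈ x.1.erase x.2, h Q))
      = ∑ y ∈ ((Sq S m).sigma (fun t => t)).image f,
        ((y.2.1.1.natDegree : ℝ) * (h y.2.1 * ∏ Q ∈ y.2.2, h Q)) := by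
        rw [Finset.sum_image hinj]
    _ ≤ _ := by
        refine Finset.sum_le_sum_of_subset_of_nonneg ?_ ?_
        · intro y hy
          rw [Finset.mem_image] at hy
          obtain ⟨x, hx, rfl⟩ := hy
          exact hmaps x hx
        · intro y _ _
          exact mul_nonneg (Nat.cast_nonneg _) (mul_nonneg (h0 _) (Finset.prod_nonneg fun _ _ => h0 _))

theorem hb_gen {F : Type} [Field F] [Fintype F] (S : Finset (Ir F)) (h : Ir F → ℝ)
    (h0 : ∀ P, 0 ≤ h P) (θ : ℕ → ℝ)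
    (hθ : ∀ k : ℕ, 1 ≤ k → (k : ℝ) * ∑ P ∈ IrEq F k, h P ≤ θ k * (Fintype.card F : ℝ) ^ k)
    (m : ℕ) (hm : 1 ≤ m) :
    ∑ j ∈ Finset.range m, (∑ t ∈ Sq S j, ∏ P ∈ t, h P) / (Fintype.card F : ℝ) ^ j ≤
      Real.exp (∑ k ∈ Finset.Ico 1 m, θ k / k) := by
  have hq : (0 : ℝ) < (Fintype.card F : ℝ) := by
    exact_mod_cast Fintype.card_pos
  set q : ℝ := (Fintype.card F : ℝ) with hqd
  set w : Ir F → ℝ := fun P => h P / q ^ P.1.natDegree with hw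
  have hw0 : ∀ P, 0 ≤ w P := fun P => div_nonneg (h0 P) (pow_nonneg hq.le _)
  have e1 : ∀ j, (∑ t ∈ Sq S j, ∏ P ∈ t, h P) / q ^ j = ∑ t ∈ Sq S j, ∏ P ∈ t, w P := by
    intro j
    rw [Finset.sum_div]
    refine Finset.sum_congr rfl fun t ht => ?_
    rw [mem_Sq] at ht
    rw [hw, Finset.prod_div_distrib, Finset.prod_pow_eq_pow_sum]
    congr 2
    exact ht.2.symm
  simp only [e1]
  have e2 : ∑ j ∈ Finset.range m, ∑ t ∈ Sq S j, ∏ P ∈ t, w P =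
      ∑ t ∈ (Finset.range m).biUnion (fun j => Sq S j), ∏ P ∈ t, w P := by
    rw [Finset.sum_biUnion]
    intro i _ j _ hij
    rw [Function.onFun, Finset.disjoint_left]
    intro t hi hj
    rw [mem_Sq] at hi hj
    exact hij (hi.2.symm.trans hj.2)
  have e3 : ∑ t ∈ (Finset.range m).biUnion (fun j => Sq S j), ∏ P ∈ t, w P ≤
      ∑ t ∈ (IrLe F (m - 1)).powerset, ∏ P ∈ t, w P := by
    refine Finset.sum_le_sum_of_subset_of_nonneg ?_ fun t _ _ => Finset.prod_nonneg fun _ _ => hw0 _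
    intro t ht
    rw [Finset.mem_biUnion] at ht
    obtain ⟨j, hj, ht⟩ := ht
    rw [Finset.mem_range] at hj
    rw [mem_Sq] at ht
    rw [Finset.mem_powerset]
    intro P hP
    rw [mem_IrLe]
    have := natDegree_le_dgs hP
    omega
  have e4 : ∑ t ∈ (IrLe F (m - 1)).powerset, ∏ P ∈ t, w P ≤
      Real.exp (∑ P ∈ IrLe F (m - 1), w P) := by
    rw [← Finset.prod_one_add, Real.exp_sum]
    refine Finset.prod_le_prod (fun P _ => by have := hw0 P; positivity) fun P _ => ?_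
    rw [add_comm]
    exact Real.add_one_le_exp _
  have e5 : ∑ P ∈ IrLe F (m - 1), w P = ∑ k ∈ Finset.Ico 1 m, ∑ P ∈ IrEq F k, w P := by
    rw [← Finset.sum_fiberwise_of_maps_to (s := IrLe F (m - 1)) (t := Finset.Ico 1 m)
      (g := fun P : Ir F => P.1.natDegree)]
    · refine Finset.sum_congr rfl fun k hk => ?_
      rw [Finset.mem_Ico] at hk
      refine Finset.sum_congr ?_ fun _ _ => rfl
      ext P
      rw [Finset.mem_filter, mem_IrLe, mem_IrEq]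
      omega
    · intro P hP
      rw [mem_IrLe] at hP
      rw [Finset.mem_Ico]
      have := hb_deg_pos P
      omega
  have e6 : ∑ P ∈ IrLe F (m - 1), w P ≤ ∑ k ∈ Finset.Ico 1 m, θ k / k := by
    rw [e5]
    refine Finset.sum_le_sum fun k hk => ?_
    rw [Finset.mem_Ico] at hk
    have hk0 : (0 : ℝ) < k := by exact_mod_cast hk.1
    have e7 : ∑ P ∈ IrEq F k, w P = (∑ P ∈ IrEq F k, h P) / q ^ k := by
      rw [Finset.sum_div]
      refine Finset.sum_congr rfl fun P hP => ?_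
      rw [mem_IrEq] at hP
      simp only [hw, hP]
    rw [e7, div_le_div_iff₀ (pow_pos hq _) hk0, mul_comm]
    exact hθ k hk.1
  rw [e2]
  exact e3.trans (e4.trans (Real.exp_le_exp.mpr e6))

theorem h_bound {F : Type} [Field F] [Fintype F] (S : Finset (Ir F)) (h : Ir F → ℝ)
    (h0 : ∀ P, 0 ≤ h P) (θ : ℕ → ℝ) (hθ0 : ∀ k, 0 ≤ θ k) (hθ1 : ∀ k, θ k ≤ 1)
    (hθ : ∀ k : ℕ, 1 ≤ k → (k : ℝ) * ∑ P ∈ IrEq F k, h P ≤ θ k * (Fintype.card F : ℝ) ^ k)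
    (m : ℕ) (hm : 1 ≤ m) :
    ∑ t ∈ Sq S m, ∏ P ∈ t, h P ≤
      (Fintype.card F : ℝ) ^ m / m * Real.exp (∑ k ∈ Finset.Ico 1 m, θ k / k) := by
  have hq : (0 : ℝ) < (Fintype.card F : ℝ) := by
    exact_mod_cast Fintype.card_pos
  have hm0 : (0 : ℝ) < m := by exact_mod_cast hm
  have hG : ∀ j, 0 ≤ ∑ t ∈ Sq S j, ∏ P ∈ t, h P := fun j =>
    Finset.sum_nonneg fun _ _ => Finset.prod_nonneg fun _ _ => h0 _
  have h1 := hb_step S h h0 m
  have h2 : ∑ k ∈ Finset.Icc 1 m, (k : ℝ) * (∑ P ∈ IrEq F k, h P) *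
      ∑ t ∈ Sq S (m - k), ∏ P ∈ t, h P ≤
      ∑ k ∈ Finset.Icc 1 m, (Fintype.card F : ℝ) ^ m *
        ((∑ t ∈ Sq S (m - k), ∏ P ∈ t, h P) / (Fintype.card F : ℝ) ^ (m - k)) := by
    refine Finset.sum_le_sum fun k hk => ?_
    rw [Finset.mem_Icc] at hk
    have e1 : (Fintype.card F : ℝ) ^ m *
        ((∑ t ∈ Sq S (m - k), ∏ P ∈ t, h P) / (Fintype.card F : ℝ) ^ (m - k)) =
        (Fintype.card F : ℝ) ^ k * (∑ t ∈ Sq S (m - k), ∏ P ∈ t, h P) := by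
      have : (Fintype.card F : ℝ) ^ m = (Fintype.card F : ℝ) ^ k * (Fintype.card F : ℝ) ^ (m - k) := by
        rw [← pow_add]; congr 1; omega
      rw [this]
      have h3 : (Fintype.card F : ℝ) ^ (m - k) ≠ 0 := (pow_pos hq _).ne'
      field_simp
    rw [e1]
    refine mul_le_mul_of_nonneg_right ((hθ k hk.1).trans ?_) (hG _)
    calc θ k * (Fintype.card F : ℝ) ^ k ≤ 1 * (Fintype.card F : ℝ) ^ k :=
          mul_le_mul_of_nonneg_right (hθ1 k) (pow_nonneg hq.le _)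
      _ = _ := one_mul _
  have h3 : ∑ k ∈ Finset.Icc 1 m, (Fintype.card F : ℝ) ^ m *
        ((∑ t ∈ Sq S (m - k), ∏ P ∈ t, h P) / (Fintype.card F : ℝ) ^ (m - k)) =
      (Fintype.card F : ℝ) ^ m * ∑ j ∈ Finset.range m,
        ((∑ t ∈ Sq S j, ∏ P ∈ t, h P) / (Fintype.card F : ℝ) ^ j) := by
    rw [← Finset.mul_sum]
    congr 1
    refine Finset.sum_nbij' (fun k => m - k) (fun j => m - j) ?_ ?_ ?_ ?_ ?_
    · intro k hk; rw [Finset.mem_Icc] at hk; rw [Finset.mem_range]; omega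
    · intro k hk; rw [Finset.mem_range] at hk; rw [Finset.mem_Icc]; omega
    · intro k hk; rw [Finset.mem_Icc] at hk; omega
    · intro k hk; rw [Finset.mem_range] at hk; omega
    · intro k _; rfl
  have h4 := hb_gen S h h0 θ hθ m hm
  have h5 : (m : ℝ) * ∑ t ∈ Sq S m, ∏ P ∈ t, h P ≤
      (Fintype.card F : ℝ) ^ m * Real.exp (∑ k ∈ Finset.Ico 1 m, θ k / k) :=
    (h1.trans h2).trans (h3.le.trans (mul_le_mul_of_nonneg_left h4 (pow_nonneg hq.le _)))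
  rw [div_mul_eq_mul_div, le_div_iff₀ hm0, mul_comm]
  exact h5

end Pool.Agent.Helper48.ST
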