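import Pool.Agent.Helper48.ST.HBound

/-!
ST-09. Two corollaries of ST-08.

`pow_bound`: `h P = z`, `θ k = z` (by `card_IrEq`, `k * card (IrEq k) ≤ q^k`): `∏_{P ∈ t} z = z ^ card t`; `∑_{k=1}^{m-1} 1/k ≤ 1 + log m`
(`Real.add_pow_le_pow_mul_pow_of_add_eq_one`... or `harmonic_le_one_add_log`), `exp (z (1 + log m)) ≤ e * m^z ≤ 3 m^z`, and
`m^z / m = m^(z-1) ≤ m^(-1/κ)` because `z ≤ 1 - 1/κ` and `m ≥ 1`.
`mean_bound`: apply ST-08 to `h' P = if P ∈ S then 0 else h P` (the `t ∈ Sq S m` are disjoint from `S`) with `θ k = 1` if `k < k₀` or `ℓ ∣ k`, `θ k = 1 - c` otherwise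
(`k * ∑ h' ≤ k * card (IrEq k) ≤ q^k` as `h ≤ 1`). Then `∑_{k=1}^{m-1} θ k / k ≤ 1 + log m - c * N'`, `N' = ∑_{k₀ ≤ k < m, ℓ ∤ k} 1/k`. If `m ≤ k₀` the claim is trivial
(`e ≤ 21 (k₀/m)^(c/2)`). Otherwise let `M'` be the sum over the multiples of `ℓ` in `[k₀, m)`: for a multiple `j > k₀`, `j - 1` is a non-multiple in `[k₀, m)` and
`1/j ≤ 1/(j-1)`, so `M' ≤ N' + 1/k₀ ≤ N' + 1`, hence `2 N' + 1 ≥ ∑_{k₀ ≤ k < m} 1/k ≥ log (m/k₀)` and the exponent is at most `1 + log m - (c/2) log (m/k₀) + c/2`: the bound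
is `q^m e^(1+c/2) (k₀/m)^(c/2) ≤ 21 q^m (k₀/m)^(c/2)`.
-/

set_option autoImplicit false

open Polynomial
open scoped Classical

namespace Pool.Agent.Helper48.ST

private theorem hc_sum_le (m : ℕ) (hm : 1 ≤ m) :
    ∑ k ∈ Finset.Ico 1 m, (1 : ℝ) / k ≤ 1 + Real.log m := by
  have h1 : ∑ k ∈ Finset.Ico 1 m, (1 : ℝ) / k = ((harmonic (m - 1) : ℚ) : ℝ) := by
    rw [harmonic, Finset.sum_Ico_eq_sum_range]
    push_cast
    refine Finset.sum_congr rfl fun i _ => ?_
    rw [one_div, add_comm]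
  rw [h1]
  refine (harmonic_le_one_add_log _).trans ?_
  rcases Nat.eq_zero_or_pos (m - 1) with h | h
  · rw [h]
    simp only [Nat.cast_zero, Real.log_zero, add_zero]
    have := Real.log_nonneg (x := (m : ℝ)) (by exact_mod_cast hm)
    linarith
  · have h2 : Real.log ((m - 1 : ℕ) : ℝ) ≤ Real.log m :=
      Real.log_le_log (by exact_mod_cast h) (by exact_mod_cast Nat.sub_le m 1)
    linarith

private theorem hc_log_le (a m : ℕ) (ha : 1 ≤ a) (ham : a ≤ m) :
    Real.log m - Real.log a ≤ ∑ k ∈ Finset.Ico a m, (1 : ℝ) / k := by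
  induction m, ham using Nat.le_induction with
  | base => simp
  | succ m hm ih =>
    rw [Finset.sum_Ico_succ_top hm]
    have hm0 : (0 : ℝ) < m := by
      have : 1 ≤ m := ha.trans hm
      exact_mod_cast this
    have h1 : Real.log ((m + 1 : ℕ) : ℝ) - Real.log m ≤ 1 / m := by
      rw [← Real.log_div (by positivity) hm0.ne']
      refine (Real.log_le_sub_one_of_pos (by positivity)).trans (le_of_eq ?_)
      push_cast
      field_simp
      ring
    linarith

private theorem hc_mult (a m ℓ : ℕ) (ha : 1 ≤ a) (hℓ : 2 ≤ ℓ) :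
    ∑ k ∈ (Finset.Ico a m).filter (fun k => ℓ ∣ k), (1 : ℝ) / k ≤
      ∑ k ∈ (Finset.Ico a m).filter (fun k => ¬ ℓ ∣ k), (1 : ℝ) / k + 1 := by
  have h1 : (Finset.Ico a m).filter (fun k => ℓ ∣ k) ⊆
      {a} ∪ (Finset.Ico (a + 1) m).filter (fun k => ℓ ∣ k) := by
    intro k hk
    rw [Finset.mem_filter, Finset.mem_Ico] at hk
    rw [Finset.mem_union, Finset.mem_singleton, Finset.mem_filter, Finset.mem_Ico]
    by_cases h : k = a
    · exact Or.inl h
    · exact Or.inr ⟨⟨by omega, hk.1.2⟩, hk.2⟩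
  have hdis : Disjoint ({a} : Finset ℕ) ((Finset.Ico (a + 1) m).filter (fun k => ℓ ∣ k)) := by
    rw [Finset.disjoint_singleton_left, Finset.mem_filter, Finset.mem_Ico]
    omega
  have h2 := Finset.sum_le_sum_of_subset_of_nonneg h1
    (f := fun k : ℕ => (1 : ℝ) / k) (fun k _ _ => by positivity)
  rw [Finset.sum_union hdis, Finset.sum_singleton] at h2
  have h3 : (1 : ℝ) / a ≤ 1 := by
    rw [div_le_one (by exact_mod_cast ha)]
    exact_mod_cast ha
  have h4 : ∑ k ∈ (Finset.Ico (a + 1) m).filter (fun k => ℓ ∣ k), (1 : ℝ) / k ≤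
      ∑ k ∈ (Finset.Ico a m).filter (fun k => ¬ ℓ ∣ k), (1 : ℝ) / k := by
    calc ∑ k ∈ (Finset.Ico (a + 1) m).filter (fun k => ℓ ∣ k), (1 : ℝ) / k
        ≤ ∑ k ∈ (Finset.Ico (a + 1) m).filter (fun k => ℓ ∣ k), (1 : ℝ) / ((k - 1 : ℕ) : ℝ) := by
          refine Finset.sum_le_sum fun k hk => ?_
          rw [Finset.mem_filter, Finset.mem_Ico] at hk
          refine one_div_le_one_div_of_le ?_ (by exact_mod_cast Nat.sub_le k 1)
          have : 0 < k - 1 := by omega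
          exact_mod_cast this
      _ = ∑ j ∈ ((Finset.Ico (a + 1) m).filter (fun k => ℓ ∣ k)).image (fun k : ℕ => k - 1),
            (1 : ℝ) / ((j : ℕ) : ℝ) := by
          rw [Finset.sum_image]
          intro x hx y hy hxy
          rw [Finset.mem_coe, Finset.mem_filter, Finset.mem_Ico] at hx hy
          simp only at hxy
          omega
      _ ≤ _ := by
          refine Finset.sum_le_sum_of_subset_of_nonneg ?_ (fun k _ _ => by positivity)
          intro j hj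
          rw [Finset.mem_image] at hj
          obtain ⟨k, hk, rfl⟩ := hj
          rw [Finset.mem_filter, Finset.mem_Ico] at hk ⊢
          refine ⟨by omega, fun h => ?_⟩
          have h5 : ℓ ∣ k - (k - 1) := Nat.dvd_sub hk.2 h
          have h6 : k - (k - 1) = 1 := by omega
          rw [h6] at h5
          have := Nat.le_of_dvd one_pos h5
          omega
  linarith

theorem pow_bound {F : Type} [Field F] [Fintype F] (S : Finset (Ir F)) (κ : ℕ) (hκ : 1 ≤ κ) (z : ℝ)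
    (hz0 : 0 ≤ z) (hz1 : z ≤ 1 - 1 / (κ : ℝ)) (m : ℕ) (hm : 1 ≤ m) :
    ∑ t ∈ Sq S m, z ^ t.card ≤ 3 * (Fintype.card F : ℝ) ^ m * (m : ℝ) ^ (-(1 / (κ : ℝ))) := by
  have hκ0 : (0 : ℝ) < κ := by exact_mod_cast hκ
  have hz2 : z ≤ 1 := by
    have : 0 ≤ 1 / (κ : ℝ) := by positivity
    linarith
  have hm0 : (0 : ℝ) < m := by exact_mod_cast hm
  have hm1 : (1 : ℝ) ≤ m := by exact_mod_cast hm
  have h1 := h_bound S (fun _ => z) (fun _ => hz0) (fun _ => z) (fun _ => hz0) (fun _ => hz2)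
    (fun k hk => by
      rw [Finset.sum_const, nsmul_eq_mul]
      have h2 : (k : ℝ) * (IrEq F k).card ≤ (Fintype.card F : ℝ) ^ k := by
        exact_mod_cast card_IrEq (F := F) k
      calc (k : ℝ) * ((IrEq F k).card * z) = z * ((k : ℝ) * (IrEq F k).card) := by ring
        _ ≤ z * (Fintype.card F : ℝ) ^ k := mul_le_mul_of_nonneg_left h2 hz0) m hm
  simp only [Finset.prod_const] at h1
  refine h1.trans ?_
  have h3 : ∑ k ∈ Finset.Ico 1 m, z / (k : ℝ) ≤ z + z * Real.log m := by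
    have h4 : ∑ k ∈ Finset.Ico 1 m, z / (k : ℝ) = z * ∑ k ∈ Finset.Ico 1 m, (1 : ℝ) / k := by
      rw [Finset.mul_sum]
      exact Finset.sum_congr rfl fun k _ => by rw [mul_one_div]
    rw [h4]
    have := mul_le_mul_of_nonneg_left (hc_sum_le m hm) hz0
    linarith
  have h5 : Real.exp (∑ k ∈ Finset.Ico 1 m, z / (k : ℝ)) ≤ 3 * (m : ℝ) ^ z := by
    refine (Real.exp_le_exp.2 h3).trans ?_
    rw [Real.exp_add, Real.rpow_def_of_pos hm0, mul_comm z (Real.log m)]
    refine mul_le_mul_of_nonneg_right ?_ (Real.exp_pos _).le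
    exact (Real.exp_le_exp.2 hz2).trans (by have := Real.exp_one_lt_d9; linarith)
  calc (Fintype.card F : ℝ) ^ m / m * Real.exp (∑ k ∈ Finset.Ico 1 m, z / (k : ℝ))
      ≤ (Fintype.card F : ℝ) ^ m / m * (3 * (m : ℝ) ^ z) :=
        mul_le_mul_of_nonneg_left h5 (by positivity)
    _ = 3 * (Fintype.card F : ℝ) ^ m * ((m : ℝ) ^ z / m) := by ring
    _ ≤ 3 * (Fintype.card F : ℝ) ^ m * (m : ℝ) ^ (-(1 / (κ : ℝ))) := by
        refine mul_le_mul_of_nonneg_left ?_ (by positivity)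
        rw [← Real.rpow_sub_one hm0.ne']
        exact Real.rpow_le_rpow_of_exponent_le hm1 (by linarith)

theorem mean_bound {F : Type} [Field F] [Fintype F] (S : Finset (Ir F)) (ℓ : ℕ) (hℓ : 3 ≤ ℓ)
    (h : Ir F → ℝ) (h0 : ∀ P, 0 ≤ h P) (h1 : ∀ P, h P ≤ 1) (c : ℝ) (hc0 : 0 ≤ c) (hc1 : c ≤ 1)
    (k₀ : ℕ) (hk₀ : 1 ≤ k₀)
    (hk : ∀ k, k₀ ≤ k → ¬ ℓ ∣ k →
      (k : ℝ) * ∑ P ∈ (IrEq F k).filter (fun P => P ∉ S), h P ≤ (1 - c) * (Fintype.card F : ℝ) ^ k)
    (m : ℕ) (hm : 1 ≤ m) :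
    ∑ t ∈ Sq S m, ∏ P ∈ t, h P ≤
      21 * (Fintype.card F : ℝ) ^ m * ((k₀ : ℝ) / m) ^ (c / 2) := by
  have hm0 : (0 : ℝ) < m := by exact_mod_cast hm
  have hm1 : (1 : ℝ) ≤ m := by exact_mod_cast hm
  have hk1 : (1 : ℝ) ≤ k₀ := by exact_mod_cast hk₀
  have hq : (0 : ℝ) < (Fintype.card F : ℝ) := by exact_mod_cast Fintype.card_pos
  set θ : ℕ → ℝ := fun k => if k < k₀ ∨ ℓ ∣ k then 1 else 1 - c with hθ
  have hθ0 : ∀ k, 0 ≤ θ k := by
    intro k
    simp only [hθ]
    split_ifs <;> linarith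
  have hθ1 : ∀ k, θ k ≤ 1 := by
    intro k
    simp only [hθ]
    split_ifs <;> linarith
  have e1 : ∑ t ∈ Sq S m, ∏ P ∈ t, h P = ∑ t ∈ Sq S m, ∏ P ∈ t, (if P ∈ S then 0 else h P) := by
    refine Finset.sum_congr rfl fun t ht => Finset.prod_congr rfl fun P hP => ?_
    rw [mem_Sq] at ht
    rw [if_neg (Finset.disjoint_left.1 ht.1 hP)]
  have b1 := h_bound S (fun P => if P ∈ S then 0 else h P) (fun P => by
      split_ifs
      · exact le_rfl
      · exact h0 P) θ hθ0 hθ1 (fun k hk' => by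
      by_cases hc : k < k₀ ∨ ℓ ∣ k
      · have e2 : θ k = 1 := by simp only [hθ, if_pos hc]
        rw [e2, one_mul]
        have h2 : (k : ℝ) * (IrEq F k).card ≤ (Fintype.card F : ℝ) ^ k := by
          exact_mod_cast card_IrEq (F := F) k
        refine le_trans (mul_le_mul_of_nonneg_left ?_ (Nat.cast_nonneg k)) h2
        have h3 : ∑ P ∈ IrEq F k, (if P ∈ S then 0 else h P) ≤ ∑ _P ∈ IrEq F k, (1 : ℝ) := by
          refine Finset.sum_le_sum fun P _ => ?_
          split_ifs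
          · exact zero_le_one
          · exact h1 P
        rw [Finset.sum_const, nsmul_eq_mul, mul_one] at h3
        exact h3
      · have e2 : θ k = 1 - c := by simp only [hθ, if_neg hc]
        rw [e2]
        rw [not_or, not_lt] at hc
        have e3 : ∑ P ∈ IrEq F k, (if P ∈ S then 0 else h P) =
            ∑ P ∈ (IrEq F k).filter (fun P => P ∉ S), h P := by
          rw [Finset.sum_filter]
          refine Finset.sum_congr rfl fun P _ => ?_
          by_cases hP : P ∈ S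
          · rw [if_pos hP, if_neg (not_not.2 hP)]
          · rw [if_neg hP, if_pos hP]
        rw [e3]
        exact hk k hc.1 hc.2) m hm
  rw [e1]
  refine b1.trans ?_
  have s1 := hc_sum_le m hm
  have he := Real.exp_one_lt_d9
  by_cases hmk : m ≤ k₀
  · have b2 : ∑ k ∈ Finset.Ico 1 m, θ k / (k : ℝ) ≤ 1 + Real.log m := by
      refine le_trans (Finset.sum_le_sum fun k _ => ?_) s1
      exact div_le_div_of_nonneg_right (hθ1 k) (Nat.cast_nonneg k)
    have b3 : Real.exp (∑ k ∈ Finset.Ico 1 m, θ k / (k : ℝ)) ≤ 3 * m := by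
      refine (Real.exp_le_exp.2 b2).trans ?_
      rw [Real.exp_add, Real.exp_log hm0]
      exact mul_le_mul_of_nonneg_right (by linarith) hm0.le
    have b4 : (1 : ℝ) ≤ ((k₀ : ℝ) / m) ^ (c / 2) := by
      refine Real.one_le_rpow ?_ (by linarith)
      rw [le_div_iff₀ hm0, one_mul]
      exact_mod_cast hmk
    calc (Fintype.card F : ℝ) ^ m / m * Real.exp (∑ k ∈ Finset.Ico 1 m, θ k / (k : ℝ))
        ≤ (Fintype.card F : ℝ) ^ m / m * (3 * m) := mul_le_mul_of_nonneg_left b3 (by positivity)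
      _ = 3 * (Fintype.card F : ℝ) ^ m * 1 := by field_simp
      _ ≤ 21 * (Fintype.card F : ℝ) ^ m * ((k₀ : ℝ) / m) ^ (c / 2) := by
          refine mul_le_mul ?_ b4 zero_le_one (by positivity)
          exact mul_le_mul_of_nonneg_right (by norm_num) (by positivity)
  · rw [not_le] at hmk
    set N := ∑ k ∈ (Finset.Ico k₀ m).filter (fun k => ¬ ℓ ∣ k), (1 : ℝ) / k with hN
    have e4 : ∑ k ∈ Finset.Ico 1 m, θ k / (k : ℝ) = ∑ k ∈ Finset.Ico 1 m, (1 : ℝ) / k - c * N := by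
      have e5 : c * N = ∑ k ∈ Finset.Ico 1 m, (if k < k₀ ∨ ℓ ∣ k then 0 else c / (k : ℝ)) := by
        rw [hN, Finset.mul_sum]
        have e6 : (Finset.Ico k₀ m).filter (fun k => ¬ ℓ ∣ k) =
            (Finset.Ico 1 m).filter (fun k => ¬ (k < k₀ ∨ ℓ ∣ k)) := by
          ext k
          rw [Finset.mem_filter, Finset.mem_filter, Finset.mem_Ico, Finset.mem_Ico, not_or, not_lt]
          constructor
          · rintro ⟨⟨a1, a2⟩, a3⟩
            exact ⟨⟨hk₀.trans a1, a2⟩, a1, a3⟩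
          · rintro ⟨⟨a1, a2⟩, a3, a4⟩
            exact ⟨⟨a3, a2⟩, a4⟩
        rw [e6, Finset.sum_filter]
        refine Finset.sum_congr rfl fun k _ => ?_
        by_cases hc : k < k₀ ∨ ℓ ∣ k
        · rw [if_neg (not_not.2 hc), if_pos hc]
        · rw [if_pos hc, if_neg hc, mul_one_div]
      rw [e5, ← Finset.sum_sub_distrib]
      refine Finset.sum_congr rfl fun k _ => ?_
      simp only [hθ]
      split_ifs
      · rw [sub_zero]
      · rw [sub_div]
    have s2 := hc_log_le k₀ m hk₀ hmk.le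
    have s3 := hc_mult k₀ m ℓ hk₀ (by omega)
    have s4 := Finset.sum_filter_add_sum_filter_not (Finset.Ico k₀ m) (fun k => ℓ ∣ k)
      (fun k : ℕ => (1 : ℝ) / k)
    have s5 : Real.log m - Real.log k₀ ≤ 2 * N + 1 := by linarith
    have b5 : ∑ k ∈ Finset.Ico 1 m, θ k / (k : ℝ) ≤
        (1 + c / 2) + Real.log m + Real.log ((k₀ : ℝ) / m) * (c / 2) := by
      rw [e4, Real.log_div (by positivity) hm0.ne']
      nlinarith
    have b6 : Real.exp (∑ k ∈ Finset.Ico 1 m, θ k / (k : ℝ)) ≤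
        21 * m * ((k₀ : ℝ) / m) ^ (c / 2) := by
      refine (Real.exp_le_exp.2 b5).trans ?_
      rw [Real.exp_add, Real.exp_add, Real.exp_log hm0,
        Real.rpow_def_of_pos (div_pos (by positivity) hm0)]
      refine mul_le_mul_of_nonneg_right ?_ (Real.exp_pos _).le
      refine mul_le_mul_of_nonneg_right ?_ hm0.le
      have b7 : Real.exp (1 + c / 2) ≤ Real.exp (1 + 1) := Real.exp_le_exp.2 (by linarith)
      rw [Real.exp_add 1 1] at b7
      have b8 : Real.exp 1 * Real.exp 1 ≤ 3 * 3 :=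
        mul_le_mul (by linarith) (by linarith) (Real.exp_pos _).le (by norm_num)
      linarith
    calc (Fintype.card F : ℝ) ^ m / m * Real.exp (∑ k ∈ Finset.Ico 1 m, θ k / (k : ℝ))
        ≤ (Fintype.card F : ℝ) ^ m / m * (21 * m * ((k₀ : ℝ) / m) ^ (c / 2)) :=
          mul_le_mul_of_nonneg_left b6 (by positivity)
      _ = 21 * (Fintype.card F : ℝ) ^ m * ((k₀ : ℝ) / m) ^ (c / 2) := by
          field_simp

end Pool.Agent.Helper48.ST
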