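import Pool.Agent.Helper48.ST.TorVal

/-!
ST-46. `InS` is a group containing the `ℓ`-th powers and the classes `Tor`.

Proof. `tor_add`: `zpow_add₀` (`a j - a i ≠ 0`, `pr t ≠ 0`). `tor_prod`: `∏_j D^(w_j) = D^0 = 1` and in `∏_j ∏_{i ≠ j} (a j - a i)^(w_j - w_i)` the factors `(i,j)` and `(j,i)` multiply to
`(a j - a i)^(w_j - w_i) (a i - a j)^(w_i - w_j) = (-1)^(w_i - w_j)`, an `ℓ`-th power because `ℓ` is odd (`(-1)^ℓ = -1`).
`ins_mul`, `ins_inv`: for `P` take `w + w'`, `-w`; the maps `vl P`, `ch g P`, `intDegree` are homomorphisms, `Tor (w + w') = Tor w * Tor w'`, `Tor (-w) = (Tor w)⁻¹`. `ins_pow`: `w = 0`, `Tor 0 = 1`, and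
`vl_pow`, `ch_pow`, `intDegree (x^ℓ) = ℓ * intDegree x`. `ins_tor`: for every `P` take the same `w`: all differences are `0`; degree: `tor_deg` and `ℓ ∣ dgs t + n d`.
-/

set_option autoImplicit false

open Polynomial
open scoped Classical

namespace Pool.Agent.Helper48.ST

variable {F : Type} [Field F] [Fintype F] {ℓ : ℕ} [Fact ℓ.Prime] (g : Lg F ℓ) {n d : ℕ}
    {a : Fin n → F[X]} (ha : Stp d a) {t : Finset (Ir F)}

theorem ingrp_pr_ne (t : Finset (Ir F)) : algebraMap F[X] (RatFunc F) (pr t) ≠ 0 := by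
  rw [Ne, map_eq_zero_iff _ (IsFractionRing.injective F[X] (RatFunc F))]
  exact (pr_monic t).ne_zero

include ha in
theorem ingrp_diff_ne {i j : Fin n} (h : i ≠ j) :
    algebraMap F[X] (RatFunc F) (a i - a j) ≠ 0 := by
  rw [Ne, map_eq_zero_iff _ (IsFractionRing.injective F[X] (RatFunc F))]
  exact diff_ne_zero ha h

omit [Fintype F] in
theorem ingrp_prod_zpow {ι : Type} (x : RatFunc F) (hx : x ≠ 0) (s : Finset ι) (f : ι → ℤ) :
    ∏ i ∈ s, x ^ f i = x ^ ∑ i ∈ s, f i := by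
  induction s using Finset.induction_on with
  | empty => rw [Finset.prod_empty, Finset.sum_empty, zpow_zero]
  | insert i s hi ih => rw [Finset.prod_insert hi, Finset.sum_insert hi, ih, zpow_add₀ hx]

include ha in
theorem tor_add (w w' : Fin n → ℤ) (j : Fin n) :
    Tor a (pr t) (fun i => w i + w' i) j = Tor a (pr t) w j * Tor a (pr t) w' j := by
  unfold Tor
  rw [zpow_add₀ (ingrp_pr_ne t)]
  have h : ∀ i ∈ Finset.univ.erase j, algebraMap F[X] (RatFunc F) (a j - a i) ^
      (w j + w' j - (w i + w' i)) = algebraMap F[X] (RatFunc F) (a j - a i) ^ (w j - w i) *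
        algebraMap F[X] (RatFunc F) (a j - a i) ^ (w' j - w' i) := by
    intro i hi
    rw [← zpow_add₀ (ingrp_diff_ne ha (Finset.ne_of_mem_erase hi).symm)]
    congr 1
    ring
  rw [Finset.prod_congr rfl h, Finset.prod_mul_distrib]
  ring

include ha in
theorem tor_neg (w : Fin n → ℤ) (j : Fin n) :
    Tor a (pr t) (fun i => -w i) j = (Tor a (pr t) w j)⁻¹ := by
  unfold Tor
  rw [mul_inv, ← Finset.prod_inv_distrib, zpow_neg]
  congr 1
  refine Finset.prod_congr rfl fun i _ => ?_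
  rw [← zpow_neg]
  congr 1
  ring

include ha in
theorem tor_prod (h2 : ℓ ≠ 2) (w : Fin n → ℤ) (hw : ∑ i, w i = 0) :
    ∃ c : RatFunc F, c ≠ 0 ∧ ∏ j, Tor a (pr t) w j = c ^ ℓ := by
  have hℓ : Odd ℓ := (Fact.out : ℓ.Prime).odd_of_ne_two h2
  have hmem : ∀ j i : Fin n, (j ∈ (Finset.univ : Finset (Fin n)) ∧ i ∈ Finset.univ.erase j) ↔
      (j ∈ Finset.univ.erase i ∧ i ∈ (Finset.univ : Finset (Fin n))) := by
    intro j i
    simp only [Finset.mem_univ, Finset.mem_erase, true_and, and_true]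
    exact ne_comm
  have h1 : ∏ j, Tor a (pr t) w j = ∏ j, ∏ i ∈ Finset.univ.erase j,
      algebraMap F[X] (RatFunc F) (a j - a i) ^ (w j - w i) := by
    unfold Tor
    rw [Finset.prod_mul_distrib, ingrp_prod_zpow _ (ingrp_pr_ne t), hw, zpow_zero, one_mul]
  have hs : ∑ j : Fin n, ∑ i ∈ Finset.univ.erase j, -(w j - w i) = 0 := by
    have h3 : ∑ j : Fin n, ∑ i ∈ Finset.univ.erase j, -(w j - w i) =
        ∑ i : Fin n, ∑ j ∈ Finset.univ.erase i, -(w j - w i) := Finset.sum_comm' hmem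
    have h4 : ∑ i : Fin n, ∑ j ∈ Finset.univ.erase i, -(w j - w i) =
        -∑ i : Fin n, ∑ j ∈ Finset.univ.erase i, -(w i - w j) := by
      rw [← Finset.sum_neg_distrib]
      refine Finset.sum_congr rfl fun i _ => ?_
      rw [← Finset.sum_neg_distrib]
      refine Finset.sum_congr rfl fun j _ => ?_
      ring
    rw [h4] at h3
    omega
  have h5 : (∏ j, ∏ i ∈ Finset.univ.erase j,
      algebraMap F[X] (RatFunc F) (a j - a i) ^ (w j - w i)) *
      (∏ j, ∏ i ∈ Finset.univ.erase j,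
        algebraMap F[X] (RatFunc F) (a j - a i) ^ (w j - w i)) = 1 := by
    have h6 : ∏ j : Fin n, ∏ i ∈ Finset.univ.erase j,
        algebraMap F[X] (RatFunc F) (a j - a i) ^ (w j - w i) =
        ∏ i : Fin n, ∏ j ∈ Finset.univ.erase i,
          algebraMap F[X] (RatFunc F) (a j - a i) ^ (w j - w i) := Finset.prod_comm' hmem
    nth_rewrite 2 [h6]
    rw [← Finset.prod_mul_distrib]
    have h7 : ∀ j ∈ (Finset.univ : Finset (Fin n)), (∏ i ∈ Finset.univ.erase j,
        algebraMap F[X] (RatFunc F) (a j - a i) ^ (w j - w i)) * (∏ i ∈ Finset.univ.erase j,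
        algebraMap F[X] (RatFunc F) (a i - a j) ^ (w i - w j)) =
        (-1 : RatFunc F) ^ ∑ i ∈ Finset.univ.erase j, -(w j - w i) := by
      intro j _
      rw [← Finset.prod_mul_distrib, ← ingrp_prod_zpow _ (neg_ne_zero.2 one_ne_zero)]
      refine Finset.prod_congr rfl fun i hi => ?_
      have h8 := ingrp_diff_ne ha (Finset.ne_of_mem_erase hi).symm
      have h9 : algebraMap F[X] (RatFunc F) (a i - a j) =
          (-1 : RatFunc F) * algebraMap F[X] (RatFunc F) (a j - a i) := by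
        rw [neg_one_mul, ← map_neg, neg_sub]
      have h10 : w i - w j = -(w j - w i) := by ring
      rw [h9, h10, mul_zpow, mul_left_comm, ← zpow_add₀ h8, add_neg_cancel, zpow_zero, mul_one]
    rw [Finset.prod_congr rfl h7, ingrp_prod_zpow _ (neg_ne_zero.2 one_ne_zero), hs, zpow_zero]
  rw [h1]
  rcases mul_self_eq_one_iff.1 h5 with h6 | h6
  · exact ⟨1, one_ne_zero, by rw [h6, one_pow]⟩
  · exact ⟨-1, neg_ne_zero.2 one_ne_zero, by rw [h6, hℓ.neg_one_pow]⟩

include ha in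
theorem ins_mul {x y : Fin n → (RatFunc F)ˣ} (hx : InS g a t x) (hy : InS g a t y) :
    InS g a t (x * y) := by
  refine ⟨?_, fun j => ?_, fun P => ?_⟩
  · obtain ⟨c, hc⟩ := hx.prod
    obtain ⟨c', hc'⟩ := hy.prod
    refine ⟨c * c', ?_⟩
    rw [mul_pow, ← hc, ← hc', ← Finset.prod_mul_distrib]
    rfl
  · rw [Pi.mul_apply, Units.val_mul, RatFunc.intDegree_mul (x j).ne_zero (y j).ne_zero]
    exact dvd_add (hx.inf j) (hy.inf j)
  · obtain ⟨w, hw, hv, ht, hS⟩ := hx.loc P
    obtain ⟨w', hw', hv', ht', hS'⟩ := hy.loc P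
    have hvl : ∀ j, vl P ((x * y) j : RatFunc F) = vl P (x j) + vl P (y j) := fun j => by
      rw [Pi.mul_apply, Units.val_mul, vl_mul P _ _ (x j).ne_zero (y j).ne_zero]
    have hch : ∀ j, ch g P ((x * y) j : RatFunc F) = ch g P (x j) + ch g P (y j) := fun j => by
      rw [Pi.mul_apply, Units.val_mul, ch_mul g P _ _ (x j).ne_zero (y j).ne_zero]
    have hvT : ∀ j, vl P (Tor a (pr t) (fun i => w i + w' i) j) =
        vl P (Tor a (pr t) w j) + vl P (Tor a (pr t) w' j) := fun j => by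
      rw [tor_add ha, vl_mul P _ _ (tor_ne_zero ha w j) (tor_ne_zero ha w' j)]
    have hcT : ∀ j, ch g P (Tor a (pr t) (fun i => w i + w' i) j) =
        ch g P (Tor a (pr t) w j) + ch g P (Tor a (pr t) w' j) := fun j => by
      rw [tor_add ha, ch_mul g P _ _ (tor_ne_zero ha w j) (tor_ne_zero ha w' j)]
    refine ⟨fun i => w i + w' i, ?_, fun j => ?_, fun hP j => ?_, fun j k hjk hd => ?_⟩
    · rw [Finset.sum_add_distrib, hw, hw', add_zero]
    · rw [hvl, hvT]
      have h := dvd_add (hv j) (hv' j)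
      have h1 : vl P (x j : RatFunc F) + vl P (y j : RatFunc F) -
          (vl P (Tor a (pr t) w j) + vl P (Tor a (pr t) w' j)) =
          vl P (x j : RatFunc F) - vl P (Tor a (pr t) w j) +
          (vl P (y j : RatFunc F) - vl P (Tor a (pr t) w' j)) := by ring
      rw [h1]
      exact h
    · rw [hch, hcT, ht hP j, ht' hP j]
    · rw [hch, hch, hcT, hcT]
      have h := hS j k hjk hd
      have h' := hS' j k hjk hd
      linear_combination h + h'

include ha in
theorem ins_inv {x : Fin n → (RatFunc F)ˣ} (hx : InS g a t x) : InS g a t x⁻¹ := by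
  refine ⟨?_, fun j => ?_, fun P => ?_⟩
  · obtain ⟨c, hc⟩ := hx.prod
    refine ⟨c⁻¹, ?_⟩
    rw [inv_pow, ← hc, ← Finset.prod_inv_distrib]
    rfl
  · rw [Pi.inv_apply, Units.val_inv_eq_inv_val, RatFunc.intDegree_inv]
    exact (dvd_neg.2 (hx.inf j))
  · obtain ⟨w, hw, hv, ht, hS⟩ := hx.loc P
    have hvl : ∀ j, vl P (x⁻¹ j : RatFunc F) = -vl P (x j) := fun j => by
      rw [Pi.inv_apply, Units.val_inv_eq_inv_val, vl_inv P _ (x j).ne_zero]
    have hch : ∀ j, ch g P (x⁻¹ j : RatFunc F) = -ch g P (x j) := fun j => by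
      rw [Pi.inv_apply, Units.val_inv_eq_inv_val, ch_inv g P _ (x j).ne_zero]
    have hvT : ∀ j, vl P (Tor a (pr t) (fun i => -w i) j) = -vl P (Tor a (pr t) w j) := fun j => by
      rw [tor_neg ha, vl_inv P _ (tor_ne_zero ha w j)]
    have hcT : ∀ j, ch g P (Tor a (pr t) (fun i => -w i) j) =
        -ch g P (Tor a (pr t) w j) := fun j => by
      rw [tor_neg ha, ch_inv g P _ (tor_ne_zero ha w j)]
    refine ⟨fun i => -w i, ?_, fun j => ?_, fun hP j => ?_, fun j k hjk hd => ?_⟩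
    · rw [Finset.sum_neg_distrib, hw, neg_zero]
    · rw [hvl, hvT]
      have h1 : -vl P (x j : RatFunc F) - -vl P (Tor a (pr t) w j) =
          -(vl P (x j : RatFunc F) - vl P (Tor a (pr t) w j)) := by ring
      rw [h1]
      exact dvd_neg.2 (hv j)
    · rw [hch, hcT, ht hP j]
    · rw [hch, hch, hcT, hcT]
      have h := hS j k hjk hd
      linear_combination -h

theorem ins_pow (x : Fin n → (RatFunc F)ˣ) : InS g a t (x ^ ℓ) := by
  have hT : ∀ j, Tor a (pr t) (fun _ => 0) j = 1 := by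
    intro j
    unfold Tor
    rw [zpow_zero, one_mul]
    refine Finset.prod_eq_one fun i _ => ?_
    rw [sub_self, zpow_zero]
  refine ⟨⟨∏ j, x j, ?_⟩, fun j => ?_, fun P => ⟨fun _ => 0, ?_, fun j => ?_, fun _ j => ?_,
    fun j k _ _ => ?_⟩⟩
  · rw [← Finset.prod_pow]
    rfl
  · rw [Pi.pow_apply, Units.val_pow_eq_pow_val]
    have h : ∀ m : ℕ, ((x j : RatFunc F) ^ m).intDegree = m * (x j : RatFunc F).intDegree := by
      intro m
      induction m with
      | zero => rw [pow_zero, RatFunc.intDegree_one, Nat.cast_zero, zero_mul]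
      | succ m ih =>
        rw [pow_succ, RatFunc.intDegree_mul (pow_ne_zero _ (x j).ne_zero) (x j).ne_zero, ih]
        push_cast
        ring
    rw [h]
    exact dvd_mul_right _ _
  · exact Finset.sum_const_zero
  · rw [hT, vl_one, sub_zero, Pi.pow_apply, Units.val_pow_eq_pow_val]
    exact vl_pow P _ (x j).ne_zero
  · rw [hT, ch_one, Pi.pow_apply, Units.val_pow_eq_pow_val]
    exact ch_pow g P _ (x j).ne_zero
  · rw [hT, hT, ch_one, Pi.pow_apply, Units.val_pow_eq_pow_val, Pi.pow_apply,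
      Units.val_pow_eq_pow_val, ch_pow g P _ (x j).ne_zero, ch_pow g P _ (x k).ne_zero]

include ha in
theorem ins_tor (h2 : ℓ ≠ 2) (hN : ℓ ∣ dgs t + n * d) (w : Fin n → ℤ) (hw : ∑ i, w i = 0)
    (x : Fin n → (RatFunc F)ˣ) (hx : ∀ j, (x j : RatFunc F) = Tor a (pr t) w j) :
    InS g a t x := by
  refine ⟨?_, fun j => ?_, fun P => ⟨w, hw, fun j => ?_, fun _ j => ?_, fun j k _ _ => ?_⟩⟩
  · obtain ⟨c, hc0, hc⟩ := tor_prod (ℓ := ℓ) ha (t := t) h2 w hw
    refine ⟨Units.mk0 c hc0, Units.ext ?_⟩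
    rw [Units.coe_prod, Units.val_pow_eq_pow_val, Units.val_mk0, ← hc]
    exact Finset.prod_congr rfl fun j _ => hx j
  · rw [hx, tor_deg ha w hw]
    have h : (ℓ : ℤ) ∣ ((dgs t + n * d : ℕ) : ℤ) := Int.natCast_dvd_natCast.2 hN
    push_cast at h
    exact Dvd.dvd.mul_right h _
  · rw [hx, sub_self]
    exact dvd_zero _
  · rw [hx]
  · rw [hx, hx]

end Pool.Agent.Helper48.ST
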