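import Pool.Agent.Helper48.ST.TorsCase
import Pool.Agent.Helper48.ST.Dich
import Pool.Agent.Helper48.ST.Pure

/-!
ST-81. The local conditions at infinity.

Here `a j = ϖ^(-d) a' j`, `a' j ∈ R`, the `a' j` different mod `ϖ`, `D = ϖ^(-N) D'`, `D'` a unit, `ℓ ∣ N + n d`. Proof. `m = deg A`, `A' = scaleRoots A (ϖ^d)`: monic, irreducible over `M`, `A'(a' j) = ϖ^(d m) A(a j)`. `z = zAB`. Apply `dich` to `A'`.
Second case: `A(a j)/A(a k)` are quotients of one-units, so `z j / z k` are `ℓ`-th powers and all `z j` are, by `all_of_ratio` and `prod_powM`. First case: `A' = A₀.map`, `Ā₀ = h̄^r` (`pure_red`), and there is at most one `i` with `h̄(ā'_i) = 0` (`h̄` is irreducible, so it would be `X - ā'_i`). For the other `j`, `A₀(a' j)` is a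
unit, so `z j = ± ϖ^(-d m) * unit * (ϖ^(-N) D')^(u m) = unit * ϖ^(-m (d + N u))`, and `n u = 1 + ℓ k` gives `d + N u ≡ (n d + N) u ≡ 0 mod ℓ`: `z j` is `UnrM`. For the exceptional `i` (if any): `∏ z j` is `UnrM` (`prod_powM`), so `z i` is.
-/

set_option autoImplicit false

open Polynomial
open scoped Classical
open Pool.Agent.Helper96.PS (CData LData)

namespace Pool.Agent.Helper48.ST

theorem infAB_irr {M : Type} [Field M] {A : M[X]} (hA : Irreducible A) {s : M} (hs : s ≠ 0) :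
    Irreducible (A.scaleRoots s) := by
  have hunit : ∀ f : M[X], IsUnit (f.scaleRoots s⁻¹) → IsUnit f := by
    intro f hf
    rw [Polynomial.isUnit_iff_degree_eq_zero] at hf ⊢
    rwa [degree_scaleRoots] at hf
  constructor
  · intro h
    apply hA.not_isUnit
    rw [Polynomial.isUnit_iff_degree_eq_zero] at h ⊢
    rwa [degree_scaleRoots] at h
  · intro f g hfg
    have h1 : A = f.scaleRoots s⁻¹ * g.scaleRoots s⁻¹ := by
      rw [← mul_scaleRoots_of_noZeroDivisors, ← hfg, ← scaleRoots_mul, mul_inv_cancel₀ hs,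
        scaleRoots_one]
    rcases hA.isUnit_or_isUnit h1 with h | h
    · exact Or.inl (hunit f h)
    · exact Or.inr (hunit g h)

theorem infAB_root {κ : Type} [Field κ] {h : κ[X]} (hi : Irreducible h) {c c' : κ}
    (hc : h.eval c = 0) (hc' : h.eval c' = 0) : c = c' := by
  have h1 : (X - C c) ∣ h := dvd_iff_isRoot.2 hc
  have h2 : Associated (X - C c) h :=
    (Irreducible.dvd_irreducible_iff_associated (irreducible_X_sub_C c) hi).1 h1
  have h3 : h ∣ X - C c := h2.symm.dvd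
  have h4 : (X - C c : κ[X]).eval c' = 0 := by
    obtain ⟨q, hq⟩ := h3
    rw [hq, eval_mul, hc', zero_mul]
  rw [eval_sub, eval_X, eval_C, sub_eq_zero] at h4
  exact h4.symm

theorem infAB_zpow {M : Type} [Field M] {ℓ : ℕ} {p : M} (hp : p ≠ 0) {k : ℤ}
    (hk : (ℓ : ℤ) ∣ k) : ∃ b : M, b ≠ 0 ∧ p ^ k = b ^ ℓ := by
  obtain ⟨c, rfl⟩ := hk
  refine ⟨p ^ c, zpow_ne_zero _ hp, ?_⟩
  rw [← zpow_natCast, ← zpow_mul, mul_comm]

theorem infAB_unr {R M : Type} [CommRing R] [IsDomain R] [Field M] [Algebra R M] {ϖ : R}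
    (hp0 : algebraMap R M ϖ ≠ 0) {ℓ u d N m : ℕ} (hdiv : ℓ ∣ d + N * u) (x D : M)
    (E D' : R) (hE : IsUnit E) (hx : algebraMap R M E = (algebraMap R M ϖ ^ d) ^ m * x)
    (hD : algebraMap R M D' = algebraMap R M ϖ ^ N * D) (hD' : IsUnit D') :
    UnrM R ℓ ((-1) ^ m * x * D ^ (u * m)) := by
  obtain ⟨b, hb, hb'⟩ := infAB_zpow (ℓ := ℓ) (k := -(((d + N * u) * m : ℕ) : ℤ)) hp0
    (by
      rw [dvd_neg]
      exact_mod_cast hdiv.mul_right m)
  refine ⟨(-1) ^ m * E * D' ^ (u * m), b, ?_, hb, ?_⟩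
  · exact ((isUnit_one.neg.pow m).mul hE).mul (hD'.pow _)
  · rw [← hb', map_mul, map_mul, map_pow, map_pow, map_neg, map_one, hx, hD]
    have e1 : algebraMap R M ϖ ^ (-(((d + N * u) * m : ℕ) : ℤ)) =
        (algebraMap R M ϖ ^ ((d + N * u) * m))⁻¹ := by
      rw [zpow_neg, zpow_natCast]
    have e2 : algebraMap R M ϖ ^ ((d + N * u) * m) =
        (algebraMap R M ϖ ^ d) ^ m * (algebraMap R M ϖ ^ N) ^ (u * m) := by
      rw [← pow_mul, ← pow_mul, ← pow_add]
      congr 1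
      ring
    have h1 : (algebraMap R M ϖ ^ d) ^ m ≠ 0 := pow_ne_zero _ (pow_ne_zero _ hp0)
    have h2 : (algebraMap R M ϖ ^ N) ^ (u * m) ≠ 0 := pow_ne_zero _ (pow_ne_zero _ hp0)
    rw [e1, e2, mul_pow]
    field_simp

theorem inf_AB {R M : Type} [CommRing R] [IsDomain R] [Field M] [Algebra R M] {ϖ : R}
    (hC : CData ϖ M) {ℓ n u : ℕ} (hℓp : ℓ.Prime) (hodd : Odd ℓ) (hℓ : IsUnit (ℓ : R))
    (hu : n * u ≡ 1 [MOD ℓ]) (d N : ℕ) (hN : ℓ ∣ N + n * d) (a : Fin n → M) (D : M)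
    (a' : Fin n → R) (D' : R) (ha : ∀ j, algebraMap R M (a' j) = algebraMap R M ϖ ^ d * a j)
    (hD : algebraMap R M D' = algebraMap R M ϖ ^ N * D) (hD' : IsUnit D')
    (hne : ∀ j k, j ≠ k → ¬ ϖ ∣ a' j - a' k) (A B : M[X]) (hA : A.Monic) (hirrA : Irreducible A)
    (hA0 : ∀ j, A.eval (a j) ≠ 0) (hAB : A ∣ B ^ ℓ - C D * ∏ i, (X - C (a i))) (j : Fin n) :
    UnrM R ℓ (zAB u a D A j) := by
  have hfrac := hC.frac
  have hinj : Function.Injective (algebraMap R M) := IsFractionRing.injective R M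
  have hp0 : algebraMap R M ϖ ≠ 0 := fun h =>
    hC.unif.ne_zero (hinj (by rw [h, map_zero]))
  have hD0 : D ≠ 0 := by
    intro h
    rw [h, mul_zero] at hD
    exact hD'.ne_zero (hinj (by rw [hD, map_zero]))
  have hpm := prod_powM hℓp.two_le hu a D hD0 A B hA hA0 hAB
  have hz0 : ∀ k, zAB u a D A k ≠ 0 := fun k =>
    mul_ne_zero (mul_ne_zero (pow_ne_zero _ (neg_ne_zero.2 one_ne_zero)) (hA0 k))
      (pow_ne_zero _ hD0)
  have hs : algebraMap R M ϖ ^ d ≠ 0 := pow_ne_zero _ hp0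
  have hev : ∀ k, (A.scaleRoots (algebraMap R M ϖ ^ d)).eval (algebraMap R M (a' k)) =
      (algebraMap R M ϖ ^ d) ^ A.natDegree * A.eval (a k) := by
    intro k
    rw [ha, scaleRoots_eval_mul]
  have hmon : (A.scaleRoots (algebraMap R M ϖ ^ d)).Monic := (monic_scaleRoots_iff _).2 hA
  rcases dich hC _ hmon (infAB_irr hirrA hs) with ⟨A₀, hA₀, hA₀'⟩ | ⟨h0, hd⟩
  · have hirr₀ : Irreducible (A₀.map (algebraMap R M)) := by
      rw [← hA₀']
      exact infAB_irr hirrA hs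
    obtain ⟨h, r, hh, hr, hirr, hAh⟩ := pure_red hC A₀ hA₀ hirr₀
    have hmax := hC.isMaximal
    let _ : Field (R ⧸ (Ideal.span {ϖ} : Ideal R)) := Ideal.Quotient.field _
    have hdiv : ℓ ∣ d + N * u := by
      have h1 : ℓ ∣ (N + n * d) * u := hN.mul_right u
      have h2 : (N + n * d) * u = N * u + d * (n * u) := by ring
      have h3 : d * (n * u) ≡ d * 1 [MOD ℓ] := hu.mul_left d
      have h4 : N * u + d * (n * u) ≡ N * u + d * 1 [MOD ℓ] := h3.add_left _
      rw [h2] at h1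
      have h5 := (h4.dvd_iff dvd_rfl).1 h1
      rwa [mul_one, add_comm] at h5
    have hgood : ∀ k, (h.map (Ideal.Quotient.mk (Ideal.span {ϖ}))).eval
        (Ideal.Quotient.mk (Ideal.span {ϖ}) (a' k)) ≠ 0 → UnrM R ℓ (zAB u a D A k) := by
      intro k hk
      have h1 : Ideal.Quotient.mk (Ideal.span {ϖ}) (A₀.eval (a' k)) ≠ 0 := by
        rw [← eval_map_apply, hAh, eval_pow]
        exact pow_ne_zero _ hk
      have h2 : IsUnit (A₀.eval (a' k)) := by
        rw [hC.isUnit_iff]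
        intro h3
        exact h1 (by rw [Ideal.Quotient.eq_zero_iff_mem, Ideal.mem_span_singleton]; exact h3)
      refine infAB_unr hp0 hdiv (A.eval (a k)) D (A₀.eval (a' k)) D' h2 ?_ hD hD'
      rw [← hev, hA₀', eval_map_apply]
    by_cases hj : (h.map (Ideal.Quotient.mk (Ideal.span {ϖ}))).eval
        (Ideal.Quotient.mk (Ideal.span {ϖ}) (a' j)) = 0
    · have hrest : UnrM R ℓ (∏ k ∈ Finset.univ.erase j, zAB u a D A k) := by
        refine unrM_prod _ _ fun k hk => hgood k fun h1 => ?_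
        have h2 := infAB_root hirr hj h1
        rw [Ideal.Quotient.eq, Ideal.mem_span_singleton] at h2
        exact hne j k (Finset.ne_of_mem_erase hk).symm h2
      have hne' : ∏ k ∈ Finset.univ.erase j, zAB u a D A k ≠ 0 :=
        Finset.prod_ne_zero_iff.2 fun k _ => hz0 k
      have h3 : zAB u a D A j = (∏ k, zAB u a D A k) *
          (∏ k ∈ Finset.univ.erase j, zAB u a D A k)⁻¹ := by
        rw [← Finset.mul_prod_erase Finset.univ _ (Finset.mem_univ j), mul_assoc,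
          mul_inv_cancel₀ hne', mul_one]
      rw [h3]
      exact unrM_mul (unrM_of_powM hpm) (unrM_inv hrest)
    · exact hgood j hj
  · refine unrM_of_powM (all_of_ratio hu _ hz0 hpm ?_ j)
    intro k l
    obtain ⟨ε, hε, hε'⟩ := hd (a' k)
    obtain ⟨ε₁, hε₁, hε₁'⟩ := hd (a' l)
    have h1 : zAB u a D A k / zAB u a D A l = algebraMap R M ε / algebraMap R M ε₁ := by
      have h2 : (algebraMap R M ϖ ^ d) ^ A.natDegree * A.eval (a k) /
          ((algebraMap R M ϖ ^ d) ^ A.natDegree * A.eval (a l)) =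
          algebraMap R M ε / algebraMap R M ε₁ := by
        rw [← hev, ← hev, hε', hε₁', mul_div_mul_left _ _ h0]
      rw [mul_div_mul_left _ _ (pow_ne_zero _ hs)] at h2
      have h3 : ((-1 : M)) ^ A.natDegree ≠ 0 := pow_ne_zero _ (neg_ne_zero.2 one_ne_zero)
      have h4 : D ^ (u * A.natDegree) ≠ 0 := pow_ne_zero _ hD0
      unfold zAB
      rw [mul_div_mul_right _ _ h4, mul_div_mul_left _ _ h3, h2]
    rw [h1]
    exact powM_div (powM_of_one hC hℓ hℓp.one_le ε hε) (powM_of_one hC hℓ hℓp.one_le ε₁ hε₁)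

end Pool.Agent.Helper48.ST
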