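import Pool.Agent.Helper48.ST.WGlue
import Pool.Agent.Helper48.ST.FamProd

/-!
ST-26. The inner sum in terms of the mean `h`.

Proof. `W_glue` and `fam_prod` with `f u P = κ⁻¹ * e (phi u P)`: the sum is `w * ∑_{t ∈ Sq (S ∪ uni s') n} ∏_{P ∈ t} ∑_{u ∈ U} κ⁻¹ e (phi u P)`
(`Finset.sum_coe_sort` to pass from the subtype to `U`). Take norms. (`mem_Fam` gives the disjointness hypotheses.)
-/

set_option autoImplicit false

open Polynomial
open scoped Classical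

namespace Pool.Agent.Helper48.ST

theorem inner_le {F : Type} [Field F] [Fintype F] {ℓ : ℕ} [Fact ℓ.Prime] (g : Lg F ℓ) (h2 : ℓ ≠ 2)
    {Ω : Type} [Fintype Ω] (D : Dat F ℓ Ω) (hd : ∀ u, D.K u u = 0) (κ : ℕ) (hκ : 1 ≤ κ)
    (S : Finset (Ir F)) (U : Finset Ω) (hU : D.Unl U) (s' : {u : Ω // u ∉ U} → Finset (Ir F))
    (n : ℕ) :
    ‖∑ s'' ∈ Fam {u : Ω // u ∈ U} (S ∪ uni s') n, D.W g κ S (glue U s'' s')‖ ≤
      ∑ t ∈ Sq (S ∪ uni s') n, ∏ P ∈ t, D.h g κ S U s' P := by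
  obtain ⟨w, hw, hW⟩ := W_glue g h2 D hd κ hκ S U hU s'
  have h1 : ∑ s'' ∈ Fam {u : Ω // u ∈ U} (S ∪ uni s') n, D.W g κ S (glue U s'' s') =
      w * ∑ t ∈ Sq (S ∪ uni s') n, ∏ P ∈ t, ∑ u : {u : Ω // u ∈ U},
        ((κ : ℂ)⁻¹ * e (D.phi g S U s' u.1 P)) := by
    rw [← fam_prod, Finset.mul_sum]
    refine Finset.sum_congr rfl fun s'' hs => ?_
    rw [mem_Fam] at hs
    exact hW s'' hs.1 hs.2.1
  rw [h1, norm_mul]
  refine (mul_le_mul hw (norm_sum_le _ _) (norm_nonneg _) zero_le_one).trans (le_of_eq ?_)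
  rw [one_mul]
  refine Finset.sum_congr rfl fun t _ => ?_
  rw [norm_prod]
  refine Finset.prod_congr rfl fun P _ => ?_
  unfold Dat.h
  rw [Finset.mul_sum, ← Finset.sum_coe_sort U]

end Pool.Agent.Helper48.ST
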