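import Pool.Agent.Helper48.ST.Theta1

/-!
ST-29. The mean of `h` over the irreducible polynomials of degree `k` is at most `1 - c0`.

Proof. Let `R = S ∪ uni s'`, `Z` the set of `P ∈ IrEq k`, `P ∉ R`; `k * card Z ≤ q^k` (`card_IrEq`). For every `P`,
`(h P)^2 = κ^(-2) ∑_{u, u' ∈ U} Re e (phi u P - phi u' P)` (expand `|∑ e|^2 = (∑ e) conj (∑ e)`), every term is `≤ 1`, there are `κ^2` terms, and `h ≤ (1 + h^2)/2`.
There are `u₀ ≠ u₁ ∈ U` of one of the following kinds.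
(1) If `s' v ≠ ∅` for some `v`: by `hD.rigid` there are `u₀, u₁ ∈ U` with `lk u₀ v ≠ lk u₁ v`. (2) Otherwise `¬ Cst`: there are `u₀, u₁ ∈ U` with
`G π u₀ ≠ G π u₁` for some `π ∈ S`, or (3) with `A u₀ ≠ A u₁` and `G π u₀ = G π u₁` for all `π ∈ S` (and all `s' v = ∅`).
In the cases (1), (2) `theta_pair` gives `k ∑_{P ∈ Z} Re e (phi u₀ P - phi u₁ P) ≤ q^k/2` and the same for `(u₁, u₀)`, so
`k ∑_Z h^2 ≤ κ^(-2) ((κ^2 - 2) q^k + q^k) = (1 - κ^(-2)) q^k` and `k ∑_Z h ≤ (1 - κ^(-2)/2) q^k ≤ (1 - c0) q^k` (`c0_le`).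
In the case (3) `phi u₀ P - phi u₁ P = (A u₀ - A u₁) * k ≠ 0` in `ZMod ℓ` for all `P ∈ Z` (`ℓ ∤ k`), so by `re_e_le` both terms are at most `cos (2π/ℓ)`:
`h^2 ≤ 1 - 2 (1 - cos (2π/ℓ))/κ^2`, `h ≤ 1 - (1 - cos(2π/ℓ))/κ^2 ≤ 1 - c0`, and sum with `k * card Z ≤ q^k` (`1 - c0 ≥ 0`).
-/

set_option autoImplicit false

open Polynomial
open scoped Classical

namespace Pool.Agent.Helper48.ST

theorem th2_normsq {ℓ : ℕ} [Fact ℓ.Prime] {Ω : Type} (U : Finset Ω) (x : Ω → ZMod ℓ) :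
    ‖∑ u ∈ U, e (x u)‖ ^ 2 = ∑ p ∈ U ×ˢ U, (e (x p.1 - x p.2)).re := by
  have hconj : ∀ y : ZMod ℓ, (starRingEnd ℂ) (e y) = e (-y) := by
    intro y
    rw [← Complex.inv_eq_conj (norm_e y)]
    exact (AddChar.map_neg_eq_inv _ y).symm
  have h1 : ((‖∑ u ∈ U, e (x u)‖ ^ 2 : ℝ) : ℂ) = ∑ p ∈ U ×ˢ U, e (x p.1 - x p.2) := by
    push_cast
    rw [← Complex.mul_conj', map_sum, Finset.sum_mul_sum, Finset.sum_product]
    refine Finset.sum_congr rfl fun u _ => Finset.sum_congr rfl fun v _ => ?_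
    rw [hconj, ← e_add, sub_eq_add_neg]
  have h2 := congrArg Complex.re h1
  rw [Complex.ofReal_re, Complex.re_sum] at h2
  exact h2

theorem th2_re_le {ℓ : ℕ} [Fact ℓ.Prime] (x : ZMod ℓ) : (e x).re ≤ 1 := by
  have h := Complex.re_le_norm (e x)
  rwa [norm_e] at h

theorem th2_pair {ℓ : ℕ} [Fact ℓ.Prime] {Ω : Type} (U : Finset Ω) (x : Ω → ZMod ℓ) {u₀ u₁ : Ω}
    (h0 : u₀ ∈ U) (h1 : u₁ ∈ U) (h01 : u₀ ≠ u₁) :
    ‖∑ u ∈ U, e (x u)‖ ^ 2 ≤ (U.card : ℝ) ^ 2 - 2 + (e (x u₀ - x u₁)).re + (e (x u₁ - x u₀)).re := by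
  rw [th2_normsq]
  have hsub : ({(u₀, u₁), (u₁, u₀)} : Finset (Ω × Ω)) ⊆ U ×ˢ U := by
    intro p hp
    rw [Finset.mem_insert, Finset.mem_singleton] at hp
    rcases hp with rfl | rfl
    · exact Finset.mem_product.2 ⟨h0, h1⟩
    · exact Finset.mem_product.2 ⟨h1, h0⟩
  have hne : (u₀, u₁) ≠ (u₁, u₀) := fun h => h01 (Prod.ext_iff.1 h).1
  have h2 := Finset.sum_le_sum_of_subset_of_nonneg (f := fun p : Ω × Ω => 1 - (e (x p.1 - x p.2)).re)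
    hsub (fun p _ _ => by
      have := th2_re_le (x p.1 - x p.2)
      linarith)
  rw [Finset.sum_pair hne, Finset.sum_sub_distrib, Finset.sum_const, Finset.card_product,
    nsmul_eq_mul, mul_one] at h2
  push_cast at h2
  nlinarith [h2]

theorem th2_h {F : Type} [Field F] {ℓ : ℕ} [Fact ℓ.Prime] (g : Lg F ℓ)
    {Ω : Type} [Fintype Ω] (D : Dat F ℓ Ω) (κ : ℕ) (hκ : 1 ≤ κ)
    (S : Finset (Ir F)) (U : Finset Ω) (hUκ : U.card = κ)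
    (s' : {u : Ω // u ∉ U} → Finset (Ir F)) {u₀ u₁ : Ω} (h0 : u₀ ∈ U) (h1 : u₁ ∈ U)
    (h01 : u₀ ≠ u₁) (P : Ir F) :
    D.h g κ S U s' P ≤ 1 - 1 / (κ : ℝ) ^ 2 +
      ((e (D.phi g S U s' u₀ P - D.phi g S U s' u₁ P)).re +
        (e (D.phi g S U s' u₁ P - D.phi g S U s' u₀ P)).re) / (2 * (κ : ℝ) ^ 2) := by
  have hκr : (1 : ℝ) ≤ (κ : ℝ) := by exact_mod_cast hκ
  have hκ0 : (0 : ℝ) < (κ : ℝ) ^ 2 := by positivity
  have h2 := th2_pair U (fun u => D.phi g S U s' u P) h0 h1 h01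
  rw [hUκ] at h2
  have h3 : D.h g κ S U s' P ^ 2 = ‖∑ u ∈ U, e (D.phi g S U s' u P)‖ ^ 2 / (κ : ℝ) ^ 2 := by
    unfold Dat.h
    rw [norm_mul, norm_inv, mul_pow, inv_pow, Complex.norm_natCast]
    field_simp
  have h4 : D.h g κ S U s' P ^ 2 ≤ ((κ : ℝ) ^ 2 - 2 +
      (e (D.phi g S U s' u₀ P - D.phi g S U s' u₁ P)).re +
        (e (D.phi g S U s' u₁ P - D.phi g S U s' u₀ P)).re) / (κ : ℝ) ^ 2 := by
    rw [h3]
    exact div_le_div_of_nonneg_right h2 hκ0.le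
  have h5 : D.h g κ S U s' P ≤ (1 + D.h g κ S U s' P ^ 2) / 2 := by
    nlinarith [sq_nonneg (D.h g κ S U s' P - 1)]
  refine h5.trans ?_
  have h6 : (1 + ((κ : ℝ) ^ 2 - 2 +
      (e (D.phi g S U s' u₀ P - D.phi g S U s' u₁ P)).re +
        (e (D.phi g S U s' u₁ P - D.phi g S U s' u₀ P)).re) / (κ : ℝ) ^ 2) / 2 =
      1 - 1 / (κ : ℝ) ^ 2 + ((e (D.phi g S U s' u₀ P - D.phi g S U s' u₁ P)).re +
        (e (D.phi g S U s' u₁ P - D.phi g S U s' u₀ P)).re) / (2 * (κ : ℝ) ^ 2) := by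
    field_simp
    ring
  rw [← h6]
  linarith

theorem th2_card {F : Type} [Field F] [Fintype F] (k : ℕ) (T : Finset (Ir F)) :
    (k : ℝ) * (((IrEq F k).filter (fun P => P ∉ T)).card : ℝ) ≤ (Fintype.card F : ℝ) ^ k := by
  have h1 : k * ((IrEq F k).filter (fun P => P ∉ T)).card ≤ Fintype.card F ^ k :=
    (Nat.mul_le_mul_left k (Finset.card_filter_le _ _)).trans (card_IrEq k)
  exact_mod_cast h1

/-- The cases with a bound for the character sums. -/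
theorem th2_case {F : Type} [Field F] [Fintype F] {ℓ : ℕ} [Fact ℓ.Prime] (g : Lg F ℓ)
    {Ω : Type} [Fintype Ω] (D : Dat F ℓ Ω) (κ : ℕ) (hκ : 1 ≤ κ)
    (S : Finset (Ir F)) (U : Finset Ω) (hUκ : U.card = κ)
    (s' : {u : Ω // u ∉ U} → Finset (Ir F)) {u₀ u₁ : Ω} (h0 : u₀ ∈ U) (h1 : u₁ ∈ U)
    (h01 : u₀ ≠ u₁) (k : ℕ)
    (hb : ∀ a b : Ω, (a = u₀ ∧ b = u₁) ∨ (a = u₁ ∧ b = u₀) →
      (k : ℝ) * ‖∑ P ∈ (IrEq F k).filter (fun P => P ∉ S ∪ uni s'),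
        e (D.phi g S U s' a P - D.phi g S U s' b P)‖ ≤ (Fintype.card F : ℝ) ^ k / 2) :
    (k : ℝ) * ∑ P ∈ (IrEq F k).filter (fun P => P ∉ S ∪ uni s'), D.h g κ S U s' P ≤
      (1 - c0 ℓ κ) * (Fintype.card F : ℝ) ^ k := by
  have hκr : (1 : ℝ) ≤ (κ : ℝ) := by exact_mod_cast hκ
  have hκ1 : (1 : ℝ) ≤ (κ : ℝ) ^ 2 := one_le_pow₀ hκr
  have hκ0 : (0 : ℝ) < (κ : ℝ) ^ 2 := by linarith
  have hk0 : (0 : ℝ) ≤ (k : ℝ) := Nat.cast_nonneg k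
  have hcard := th2_card (F := F) k (S ∪ uni s')
  obtain ⟨Z, hZ⟩ : ∃ Z : Finset (Ir F), Z = (IrEq F k).filter (fun P => P ∉ S ∪ uni s') :=
    ⟨_, rfl⟩
  rw [← hZ] at hcard hb ⊢
  have hre : ∀ a b : Ω, (a = u₀ ∧ b = u₁) ∨ (a = u₁ ∧ b = u₀) →
      (k : ℝ) * ∑ P ∈ Z, (e (D.phi g S U s' a P - D.phi g S U s' b P)).re ≤
        (Fintype.card F : ℝ) ^ k / 2 := by
    intro a b hab
    refine le_trans (mul_le_mul_of_nonneg_left ?_ hk0) (hb a b hab)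
    rw [← Complex.re_sum]
    exact Complex.re_le_norm _
  have h2 := hre u₀ u₁ (Or.inl ⟨rfl, rfl⟩)
  have h3 := hre u₁ u₀ (Or.inr ⟨rfl, rfl⟩)
  have h4 : ∑ P ∈ Z, D.h g κ S U s' P ≤ (Z.card : ℝ) * (1 - 1 / (κ : ℝ) ^ 2) +
      (∑ P ∈ Z, (e (D.phi g S U s' u₀ P - D.phi g S U s' u₁ P)).re +
        ∑ P ∈ Z, (e (D.phi g S U s' u₁ P - D.phi g S U s' u₀ P)).re) / (2 * (κ : ℝ) ^ 2) := by
    refine (Finset.sum_le_sum fun P _ => th2_h g D κ hκ S U hUκ s' h0 h1 h01 P).trans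
      (le_of_eq ?_)
    rw [Finset.sum_add_distrib, Finset.sum_const, nsmul_eq_mul, ← Finset.sum_div,
      Finset.sum_add_distrib]
  have h5 := mul_le_mul_of_nonneg_left h4 hk0
  refine h5.trans ?_
  have h6 : 0 ≤ 1 - 1 / (κ : ℝ) ^ 2 := by
    rw [sub_nonneg, div_le_one hκ0]
    exact hκ1
  have h7 := mul_le_mul_of_nonneg_right hcard h6
  have h8 : (k : ℝ) * ((∑ P ∈ Z, (e (D.phi g S U s' u₀ P - D.phi g S U s' u₁ P)).re +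
        ∑ P ∈ Z, (e (D.phi g S U s' u₁ P - D.phi g S U s' u₀ P)).re) / (2 * (κ : ℝ) ^ 2)) ≤
      (Fintype.card F : ℝ) ^ k / (2 * (κ : ℝ) ^ 2) := by
    rw [← mul_div_assoc]
    refine div_le_div_of_nonneg_right ?_ (by positivity)
    rw [mul_add]
    linarith
  have h9 := mul_le_mul_of_nonneg_right (c0_le ℓ κ hκ)
    (by positivity : (0 : ℝ) ≤ (Fintype.card F : ℝ) ^ k)
  have h10 : (Fintype.card F : ℝ) ^ k * (1 - 1 / (κ : ℝ) ^ 2) +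
      (Fintype.card F : ℝ) ^ k / (2 * (κ : ℝ) ^ 2) =
      (Fintype.card F : ℝ) ^ k - 1 / (2 * (κ : ℝ) ^ 2) * (Fintype.card F : ℝ) ^ k := by
    field_simp
    ring
  rw [mul_add]
  linarith

/-- The case of different twists by the degree. -/
theorem th2_case' {F : Type} [Field F] [Fintype F] {ℓ : ℕ} [Fact ℓ.Prime] (g : Lg F ℓ)
    {Ω : Type} [Fintype Ω] (D : Dat F ℓ Ω) (κ : ℕ) (hκ : 1 ≤ κ)
    (S : Finset (Ir F)) (U : Finset Ω) (hUκ : U.card = κ)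
    (s' : {u : Ω // u ∉ U} → Finset (Ir F)) {u₀ u₁ : Ω} (h0 : u₀ ∈ U) (h1 : u₁ ∈ U)
    (h01 : u₀ ≠ u₁) (k : ℕ) (hℓk : ¬ ℓ ∣ k) (hA : D.A u₀ ≠ D.A u₁)
    (hG : ∀ π ∈ S, D.G π u₀ = D.G π u₁) (hs : ∀ v, s' v = ∅) :
    (k : ℝ) * ∑ P ∈ (IrEq F k).filter (fun P => P ∉ S ∪ uni s'), D.h g κ S U s' P ≤
      (1 - c0 ℓ κ) * (Fintype.card F : ℝ) ^ k := by
  have hκr : (1 : ℝ) ≤ (κ : ℝ) := by exact_mod_cast hκ
  have hκ1 : (1 : ℝ) ≤ (κ : ℝ) ^ 2 := one_le_pow₀ hκr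
  have hκ0 : (0 : ℝ) < (κ : ℝ) ^ 2 := by linarith
  have hk0 : (0 : ℝ) ≤ (k : ℝ) := Nat.cast_nonneg k
  have hkz : (k : ZMod ℓ) ≠ 0 := by
    rw [Ne, ZMod.natCast_eq_zero_iff]
    exact hℓk
  have hphi : ∀ (a b : Ω) (P : Ir F), P.1.natDegree = k → (∀ π ∈ S, D.G π a = D.G π b) →
      D.phi g S U s' a P - D.phi g S U s' b P = (D.A a - D.A b) * (k : ZMod ℓ) := by
    intro a b P hP hab
    unfold Dat.phi
    have e1 : ∑ π ∈ S, D.G π a * g.L P.1 π.1 = ∑ π ∈ S, D.G π b * g.L P.1 π.1 :=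
      Finset.sum_congr rfl fun π hπ => by rw [hab π hπ]
    have e2 : ∀ c : Ω, ∑ v : {u : Ω // u ∉ U}, D.lk c v.1 * ∑ R ∈ s' v, g.L P.1 R.1 = 0 := by
      intro c
      refine Finset.sum_eq_zero fun v _ => ?_
      rw [hs v, Finset.sum_empty, mul_zero]
    rw [e1, e2, e2, hP]
    ring
  have hcard := th2_card (F := F) k (S ∪ uni s')
  have hc := c0_le ℓ κ hκ
  have hhalf : 1 / (2 * (κ : ℝ) ^ 2) ≤ 1 / 2 := by
    apply one_div_le_one_div_of_le (by norm_num)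
    linarith
  have hcos : Real.cos (2 * Real.pi / ℓ) ≤ 1 := Real.cos_le_one _
  have hle : ∀ P ∈ (IrEq F k).filter (fun P => P ∉ S ∪ uni s'),
      D.h g κ S U s' P ≤ 1 - c0 ℓ κ := by
    intro P hP
    have hPk : P.1.natDegree = k := mem_IrEq.1 (Finset.mem_filter.1 hP).1
    refine (th2_h g D κ hκ S U hUκ s' h0 h1 h01 P).trans ?_
    have r1 : (e (D.phi g S U s' u₀ P - D.phi g S U s' u₁ P)).re ≤
        Real.cos (2 * Real.pi / ℓ) := by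
      apply re_e_le
      rw [hphi u₀ u₁ P hPk hG]
      exact mul_ne_zero (sub_ne_zero.2 hA) hkz
    have r2 : (e (D.phi g S U s' u₁ P - D.phi g S U s' u₀ P)).re ≤
        Real.cos (2 * Real.pi / ℓ) := by
      apply re_e_le
      rw [hphi u₁ u₀ P hPk fun π hπ => (hG π hπ).symm]
      exact mul_ne_zero (sub_ne_zero.2 hA.symm) hkz
    have r3 : ((e (D.phi g S U s' u₀ P - D.phi g S U s' u₁ P)).re +
        (e (D.phi g S U s' u₁ P - D.phi g S U s' u₀ P)).re) / (2 * (κ : ℝ) ^ 2) ≤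
        (2 * Real.cos (2 * Real.pi / ℓ)) / (2 * (κ : ℝ) ^ 2) :=
      div_le_div_of_nonneg_right (by linarith) (by positivity)
    have r4 : (2 * Real.cos (2 * Real.pi / ℓ)) / (2 * (κ : ℝ) ^ 2) - 1 / (κ : ℝ) ^ 2 =
        -((1 - Real.cos (2 * Real.pi / ℓ)) / (κ : ℝ) ^ 2) := by
      field_simp
      ring
    have r5 : c0 ℓ κ ≤ (1 - Real.cos (2 * Real.pi / ℓ)) / (κ : ℝ) ^ 2 := by
      unfold c0
      apply div_le_div_of_nonneg_left (by linarith) hκ0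
      linarith
    linarith
  have h2 := Finset.sum_le_card_nsmul _ _ _ hle
  rw [nsmul_eq_mul] at h2
  have h3 := mul_le_mul_of_nonneg_left h2 hk0
  refine h3.trans ?_
  rw [← mul_assoc, mul_comm (1 - c0 ℓ κ)]
  exact mul_le_mul_of_nonneg_right hcard (by linarith)

theorem theta {F : Type} [Field F] [Fintype F] {ℓ : ℕ} [Fact ℓ.Prime] (g : Lg F ℓ)
    (h2 : ℓ ≠ 2) {Ω : Type} [Fintype Ω] (D : Dat F ℓ Ω) (κ : ℕ) (hκ : 1 ≤ κ) (hD : D.Ok κ)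
    (S : Finset (Ir F)) (U : Finset Ω) (hU : D.Unl U) (hUκ : U.card = κ) (m : ℕ)
    (s' : {u : Ω // u ∉ U} → Finset (Ir F)) (hs' : s' ∈ Fam {u : Ω // u ∉ U} S m)
    (hne : (∃ v, s' v ≠ ∅) ∨ ¬ D.Cst S U) (M : ℕ) (hM : dgs S + m ≤ M) (hM1 : 1 ≤ M)
    (k : ℕ) (hk : 1000 * M ^ 2 ≤ k) (hℓk : ¬ ℓ ∣ k) :
    (k : ℝ) * ∑ P ∈ (IrEq F k).filter (fun P => P ∉ S ∪ uni s'), D.h g κ S U s' P ≤
      (1 - c0 ℓ κ) * (Fintype.card F : ℝ) ^ k := by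
  have hk1 := hM1
  by_cases hs : ∃ v, s' v ≠ ∅
  · obtain ⟨v, hv⟩ := hs
    obtain ⟨u₀, h0, u₁, h1, hlk⟩ := hD.rigid U hU hUκ v.1 v.2
    have h01 : u₀ ≠ u₁ := by
      rintro rfl
      exact hlk rfl
    refine th2_case g D κ hκ S U hUκ s' h0 h1 h01 k ?_
    rintro a b (⟨rfl, rfl⟩ | ⟨rfl, rfl⟩)
    · exact theta_pair g h2 D S U m s' hs' M hM k hk _ _ (Or.inr ⟨v, hv, hlk⟩)
    · exact theta_pair g h2 D S U m s' hs' M hM k hk _ _ (Or.inr ⟨v, hv, hlk.symm⟩)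
  · have hC : ¬ D.Cst S U := hne.resolve_left hs
    push Not at hs
    unfold Dat.Cst at hC
    push Not at hC
    obtain ⟨u₀, h0, u₁, h1, hC⟩ := hC
    have h01 : u₀ ≠ u₁ := by
      rintro rfl
      obtain ⟨π, -, h3⟩ := hC rfl
      exact h3 rfl
    by_cases hG : ∃ π ∈ S, D.G π u₀ ≠ D.G π u₁
    · obtain ⟨π, hπ, hG⟩ := hG
      refine th2_case g D κ hκ S U hUκ s' h0 h1 h01 k ?_
      rintro a b (⟨rfl, rfl⟩ | ⟨rfl, rfl⟩)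
      · exact theta_pair g h2 D S U m s' hs' M hM k hk _ _ (Or.inl ⟨π, hπ, hG⟩)
      · exact theta_pair g h2 D S U m s' hs' M hM k hk _ _ (Or.inl ⟨π, hπ, hG.symm⟩)
    · push Not at hG
      have hA : D.A u₀ ≠ D.A u₁ := by
        intro hA
        obtain ⟨π, hπ, h3⟩ := hC hA
        exact h3 (hG π hπ)
      exact th2_case' g D κ hκ S U hUκ s' h0 h1 h01 k hℓk hA hG hs

end Pool.Agent.Helper48.ST
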