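import Pool.Agent.Helper48.ST.Inner
import Pool.Agent.Helper48.ST.Theta2
import Pool.Agent.Helper48.ST.HCor

/-!
ST-30. Bounds for the inner sums.

Proof. `inner_le`; `0 ≤ h ≤ 1` because `U` has `κ` elements. First statement: all products are `≤ 1`. Second: `mean_bound` with `S := S ∪ uni s'`, `c = c0 ℓ κ`
(`0 < c0 ≤ 1`, ST-27), `k₀ = 1000 M^2`, the hypothesis being `theta`; `ℓ ≥ 3`.
-/

set_option autoImplicit false

open Polynomial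
open scoped Classical

namespace Pool.Agent.Helper48.ST

/-- the mean is nonnegative -/
theorem ib_h_nonneg {F : Type} [Field F] {ℓ : ℕ} [NeZero ℓ] {Ω : Type} [Fintype Ω]
    (D : Dat F ℓ Ω) (g : Lg F ℓ) (κ : ℕ) (S : Finset (Ir F)) (U : Finset Ω)
    (s' : {u : Ω // u ∉ U} → Finset (Ir F)) (P : Ir F) : 0 ≤ D.h g κ S U s' P :=
  norm_nonneg _

/-- the mean is at most `1` -/
theorem ib_h_le_one {F : Type} [Field F] {ℓ : ℕ} [NeZero ℓ] {Ω : Type} [Fintype Ω]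
    (D : Dat F ℓ Ω) (g : Lg F ℓ) (κ : ℕ) (hκ : 1 ≤ κ) (S : Finset (Ir F)) (U : Finset Ω)
    (hUκ : U.card = κ) (s' : {u : Ω // u ∉ U} → Finset (Ir F)) (P : Ir F) :
    D.h g κ S U s' P ≤ 1 := by
  unfold Dat.h
  have hκ0 : (0 : ℝ) < (κ : ℝ) := by exact_mod_cast hκ
  rw [norm_mul, norm_inv, Complex.norm_natCast]
  have h1 : ‖∑ u ∈ U, e (D.phi g S U s' u P)‖ ≤ (κ : ℝ) := by
    refine (norm_sum_le _ _).trans ?_
    simp only [norm_e]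
    rw [Finset.sum_const, hUκ, nsmul_eq_mul, mul_one]
  calc (κ : ℝ)⁻¹ * ‖∑ u ∈ U, e (D.phi g S U s' u P)‖ ≤ (κ : ℝ)⁻¹ * (κ : ℝ) :=
        mul_le_mul_of_nonneg_left h1 (inv_nonneg.2 hκ0.le)
    _ = 1 := inv_mul_cancel₀ hκ0.ne'

variable {F : Type} [Field F] [Fintype F] {ℓ : ℕ} [Fact ℓ.Prime] (g : Lg F ℓ)
    (h2 : ℓ ≠ 2) {Ω : Type} [Fintype Ω] (D : Dat F ℓ Ω) (κ : ℕ) (hκ : 1 ≤ κ) (hD : D.Ok κ)
    (S : Finset (Ir F)) (U : Finset Ω) (hU : D.Unl U) (hUκ : U.card = κ)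
    (s' : {u : Ω // u ∉ U} → Finset (Ir F))

include h2 hκ hD hU hUκ in
theorem inner_trivial (n : ℕ) :
    ‖∑ s'' ∈ Fam {u : Ω // u ∈ U} (S ∪ uni s') n, D.W g κ S (glue U s'' s')‖ ≤
      ((Sq (S ∪ uni s') n).card : ℝ) := by
  refine (inner_le g h2 D hD.diag κ hκ S U hU s' n).trans ?_
  have h1 : ∀ t ∈ Sq (S ∪ uni s') n, ∏ P ∈ t, D.h g κ S U s' P ≤ 1 := fun t _ =>
    Finset.prod_le_one (fun P _ => ib_h_nonneg D g κ S U s' P)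
      (fun P _ => ib_h_le_one D g κ hκ S U hUκ s' P)
  refine (Finset.sum_le_sum h1).trans ?_
  rw [Finset.sum_const, nsmul_eq_mul, mul_one]

include h2 hκ hD hU hUκ in
theorem inner_bound (m : ℕ) (hs' : s' ∈ Fam {u : Ω // u ∉ U} S m)
    (hne : (∃ v, s' v ≠ ∅) ∨ ¬ D.Cst S U) (M : ℕ) (hM : dgs S + m ≤ M) (hM1 : 1 ≤ M) (n : ℕ)
    (hn : 1 ≤ n) :
    ‖∑ s'' ∈ Fam {u : Ω // u ∈ U} (S ∪ uni s') n, D.W g κ S (glue U s'' s')‖ ≤
      21 * (Fintype.card F : ℝ) ^ n * ((1000 * (M : ℝ) ^ 2) / n) ^ (c0 ℓ κ / 2) := by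
  refine (inner_le g h2 D hD.diag κ hκ S U hU s' n).trans ?_
  have hp : ℓ.Prime := Fact.out
  have hℓ : 3 ≤ ℓ := by
    have := hp.two_le
    omega
  have hM2 : 1 ≤ M ^ 2 := Nat.one_le_pow _ _ hM1
  have hc1 : c0 ℓ κ ≤ 1 := by
    refine (c0_le ℓ κ hκ).trans ?_
    have hκ1 : (1 : ℝ) ≤ (κ : ℝ) := by exact_mod_cast hκ
    rw [div_le_one (by positivity)]
    nlinarith
  have h1 := mean_bound (S ∪ uni s') ℓ hℓ (D.h g κ S U s') (ib_h_nonneg D g κ S U s')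
    (ib_h_le_one D g κ hκ S U hUκ s') (c0 ℓ κ) (c0_pos ℓ κ (by omega) hκ).le hc1
    (1000 * M ^ 2) (by omega)
    (fun k hk hℓk => theta g h2 D κ hκ hD S U hU hUκ m s' hs' hne M hM hM1 k hk hℓk) n hn
  push_cast at h1
  exact h1

end Pool.Agent.Helper48.ST
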