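import Pool.Agent.Helper48.ST.VBasic

/-!
ST-56. Isotropic sets.

Proof. `V = Vs n ℓ`, `κ = card V`, `Q x = ∑_j x.1 j * x.2 j`, `pol x y = Q (x + y) - Q x - Q y`, nondegenerate on `V × V` (`Vs_nondeg` on both components). For a submodule `W` of `V × V`, with `W^⊥` for `pol`:
`card W * card W^⊥ = κ^2` (`LinearMap.BilinForm.finrank_orthogonal`, or duality), so `pol = 0` on `W`, i.e. `W ≤ W^⊥`, gives `card W ≤ κ`, and `W^⊥ = W` if `card W = κ`.
Let `U` be isotropic, `u₀ ∈ U`. For `u, v ∈ U`: `Q (u - u₀) = 0`, `Q (v - u₀) = 0`, `Q (v - u) = 0`, so `pol (u - u₀) (v - u₀) = 0` (`Q (x - y) = Q x + Q y - pol x y`). Let `W` be the span of the `u - u₀`, `u ∈ U`: `pol` vanishes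
on `W` (bilinear), `U ⊆ u₀ + W`, `card U ≤ card W ≤ κ`; if `card U = κ` then `U = u₀ + W` and `card W = κ`.
-/

set_option autoImplicit false

open Polynomial
open scoped Classical

namespace Pool.Agent.Helper48.ST

variable {n ℓ : ℕ} [Fact ℓ.Prime]

/-- the polar form as a bilinear form -/
noncomputable def istB (n ℓ : ℕ) [Fact ℓ.Prime] :
    LinearMap.BilinForm (ZMod ℓ) (Vs n ℓ × Vs n ℓ) :=
  LinearMap.mk₂ (ZMod ℓ) pol
    (by
      intro x x' y
      unfold pol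
      rw [← Finset.sum_add_distrib]
      refine Finset.sum_congr rfl fun j _ => ?_
      simp only [Prod.fst_add, Prod.snd_add, Submodule.coe_add, Pi.add_apply]
      ring)
    (by
      intro c x y
      unfold pol
      rw [smul_eq_mul, Finset.mul_sum]
      refine Finset.sum_congr rfl fun j _ => ?_
      simp only [Prod.smul_fst, Prod.smul_snd, Submodule.coe_smul, Pi.smul_apply, smul_eq_mul]
      ring)
    (by
      intro x y y'
      unfold pol
      rw [← Finset.sum_add_distrib]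
      refine Finset.sum_congr rfl fun j _ => ?_
      simp only [Prod.fst_add, Prod.snd_add, Submodule.coe_add, Pi.add_apply]
      ring)
    (by
      intro c x y
      unfold pol
      rw [smul_eq_mul, Finset.mul_sum]
      refine Finset.sum_congr rfl fun j _ => ?_
      simp only [Prod.smul_fst, Prod.smul_snd, Submodule.coe_smul, Pi.smul_apply, smul_eq_mul]
      ring)

theorem istB_apply (x y : Vs n ℓ × Vs n ℓ) : istB n ℓ x y = pol x y := rfl

theorem ist_symm (x y : Vs n ℓ × Vs n ℓ) : pol x y = pol y x := by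
  unfold pol
  refine Finset.sum_congr rfl fun j _ => ?_
  ring

theorem ist_left (hn : ¬ ℓ ∣ n) (x : Vs n ℓ × Vs n ℓ) (h : ∀ y, pol x y = 0) : x = 0 := by
  have h1 : x.1 = 0 := by
    apply Vs_nondeg hn
    intro z
    have h2 := h (0, z)
    unfold pol at h2
    rw [← h2]
    refine Finset.sum_congr rfl fun j _ => ?_
    simp
  have h1' : x.2 = 0 := by
    apply Vs_nondeg hn
    intro z
    have h2 := h (z, 0)
    unfold pol at h2
    rw [← h2]
    refine Finset.sum_congr rfl fun j _ => ?_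
    simp
  exact Prod.ext h1 h1'

theorem ist_nondeg (hn : ¬ ℓ ∣ n) : (istB n ℓ).Nondegenerate := by
  refine ⟨fun x h => ist_left hn x h, fun y h => ?_⟩
  apply ist_left hn y
  intro x
  rw [ist_symm]
  exact h x

theorem ist_dim (hn : ¬ ℓ ∣ n) (W : Submodule (ZMod ℓ) (Vs n ℓ × Vs n ℓ))
    (hW : ∀ x ∈ W, ∀ y ∈ W, pol x y = 0) :
    Module.finrank (ZMod ℓ) W ≤ Module.finrank (ZMod ℓ) (Vs n ℓ) ∧
      (Module.finrank (ZMod ℓ) W = Module.finrank (ZMod ℓ) (Vs n ℓ) →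
        (istB n ℓ).orthogonal W = W) := by
  have hle : W ≤ (istB n ℓ).orthogonal W := fun y hy x hx => hW x hx y hy
  have h1 := LinearMap.BilinForm.finrank_orthogonal (ist_nondeg hn) W
  have h2 := Submodule.finrank_mono hle
  have h3 := Submodule.finrank_le W
  rw [h1] at h2
  rw [Module.finrank_prod] at h1 h2 h3
  refine ⟨by omega, fun h4 => ?_⟩
  exact (Submodule.eq_of_le_of_finrank_eq hle (by rw [h1]; omega)).symm

/-- the main estimate -/
theorem ist_main (U : Finset (Vs n ℓ × Vs n ℓ)) (hU : Iso U)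
    {u₀ : Vs n ℓ × Vs n ℓ} (hu₀ : u₀ ∈ U) :
    ∃ W : Submodule (ZMod ℓ) (Vs n ℓ × Vs n ℓ), (∀ u ∈ U, u - u₀ ∈ W) ∧
      (∀ x ∈ W, ∀ y ∈ W, pol x y = 0) := by
  set s : Set (Vs n ℓ × Vs n ℓ) := {x | ∃ u ∈ U, u - u₀ = x} with hs
  have hss : ∀ x ∈ s, ∀ y ∈ s, pol x y = 0 := by
    rintro _ ⟨u, hu, rfl⟩ _ ⟨v, hv, rfl⟩
    have a1 := hU u₀ hu₀ u hu
    have a2 := hU u₀ hu₀ v hv
    have a3 := hU v hv u hu
    have : pol (u - u₀) (v - u₀) = ∑ j, (u.1.1 j - u₀.1.1 j) * (u.2.1 j - u₀.2.1 j) +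
        ∑ j, (v.1.1 j - u₀.1.1 j) * (v.2.1 j - u₀.2.1 j) -
        ∑ j, (u.1.1 j - v.1.1 j) * (u.2.1 j - v.2.1 j) := by
      unfold pol
      rw [← Finset.sum_add_distrib, ← Finset.sum_sub_distrib]
      refine Finset.sum_congr rfl fun j _ => ?_
      simp only [Prod.fst_sub, Prod.snd_sub, Submodule.coe_sub, Pi.sub_apply]
      ring
    rw [this, a1, a2, a3, add_zero, sub_zero]
  refine ⟨Submodule.span (ZMod ℓ) s, fun u hu => Submodule.subset_span ⟨u, hu, rfl⟩, ?_⟩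
  have h1 : ∀ y ∈ s, Submodule.span (ZMod ℓ) s ≤ LinearMap.ker ((istB n ℓ).flip y) := by
    intro y hy
    rw [Submodule.span_le]
    intro x hx
    exact hss x hx y hy
  have h2 : ∀ x ∈ Submodule.span (ZMod ℓ) s,
      Submodule.span (ZMod ℓ) s ≤ LinearMap.ker (istB n ℓ x) := by
    intro x hx
    rw [Submodule.span_le]
    intro y hy
    exact h1 y hy hx
  intro x hx y hy
  exact h2 x hx hy

theorem ist_card_sub (W : Submodule (ZMod ℓ) (Vs n ℓ × Vs n ℓ)) :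
    (W : Set (Vs n ℓ × Vs n ℓ)).ncard = ℓ ^ Module.finrank (ZMod ℓ) W := by
  have h1 : Nat.card W = Nat.card (ZMod ℓ) ^ Module.finrank (ZMod ℓ) W :=
    Module.natCard_eq_pow_finrank
  rw [Nat.card_zmod] at h1
  rw [← h1]
  exact (Nat.card_coe_set_eq _).symm

theorem ist_card_Vs : Fintype.card (Vs n ℓ) = ℓ ^ Module.finrank (ZMod ℓ) (Vs n ℓ) := by
  have h1 : Nat.card (Vs n ℓ) = Nat.card (ZMod ℓ) ^ Module.finrank (ZMod ℓ) (Vs n ℓ) :=
    Module.natCard_eq_pow_finrank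
  rw [Nat.card_zmod] at h1
  rw [← h1, Nat.card_eq_fintype_card]

theorem ist_card_U (U : Finset (Vs n ℓ × Vs n ℓ)) (u₀ : Vs n ℓ × Vs n ℓ) :
    ((fun u => u - u₀) '' (U : Set (Vs n ℓ × Vs n ℓ))).ncard = U.card := by
  rw [Set.ncard_image_of_injective _ (sub_left_injective), Set.ncard_coe_finset]

theorem iso_card_le (hn : ¬ ℓ ∣ n) (U : Finset (Vs n ℓ × Vs n ℓ)) (hU : Iso U) :
    U.card ≤ Fintype.card (Vs n ℓ) := by
  rcases U.eq_empty_or_nonempty with rfl | ⟨u₀, hu₀⟩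
  · rw [Finset.card_empty]
    exact Nat.zero_le _
  obtain ⟨W, hW1, hW2⟩ := ist_main U hU hu₀
  have hsub : (fun u => u - u₀) '' (U : Set (Vs n ℓ × Vs n ℓ)) ⊆ W := by
    rintro _ ⟨u, hu, rfl⟩
    exact hW1 u hu
  have h1 := Set.ncard_le_ncard hsub (Set.toFinite _)
  rw [ist_card_U, ist_card_sub] at h1
  rw [ist_card_Vs]
  exact h1.trans (Nat.pow_le_pow_right (Fact.out : ℓ.Prime).pos (ist_dim hn W hW2).1)

theorem iso_coset (hn : ¬ ℓ ∣ n) (U : Finset (Vs n ℓ × Vs n ℓ)) (hU : Iso U)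
    (hc : U.card = Fintype.card (Vs n ℓ)) :
    ∃ (W : Submodule (ZMod ℓ) (Vs n ℓ × Vs n ℓ)) (u₀ : Vs n ℓ × Vs n ℓ),
      (∀ v, v ∈ U ↔ v - u₀ ∈ W) ∧ (∀ x ∈ W, ∀ y ∈ W, pol x y = 0) ∧
      ∀ v, (∀ x ∈ W, pol x v = 0) → v ∈ W := by
  have hpos : 0 < U.card := by
    rw [hc]
    exact Fintype.card_pos
  obtain ⟨u₀, hu₀⟩ := Finset.card_pos.1 hpos
  obtain ⟨W, hW1, hW2⟩ := ist_main U hU hu₀
  have hsub : (fun u => u - u₀) '' (U : Set (Vs n ℓ × Vs n ℓ)) ⊆ W := by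
    rintro _ ⟨u, hu, rfl⟩
    exact hW1 u hu
  obtain ⟨d1, d2⟩ := ist_dim hn W hW2
  have h1 := Set.ncard_le_ncard hsub (Set.toFinite _)
  rw [ist_card_U, ist_card_sub, hc, ist_card_Vs] at h1
  have hl : 1 < ℓ := (Fact.out : ℓ.Prime).one_lt
  have h2 := (Nat.pow_le_pow_iff_right hl).1 h1
  have hdim := le_antisymm d1 h2
  have heq : (fun u => u - u₀) '' (U : Set (Vs n ℓ × Vs n ℓ)) = W := by
    apply Set.eq_of_subset_of_ncard_le hsub _ (Set.toFinite _)
    rw [ist_card_U, ist_card_sub, hc, ist_card_Vs, hdim]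
  refine ⟨W, u₀, fun v => ⟨fun hv => hW1 v hv, fun hv => ?_⟩, hW2, fun v hv => ?_⟩
  · have h3 : v - u₀ ∈ (fun u => u - u₀) '' (U : Set (Vs n ℓ × Vs n ℓ)) := by
      rw [heq]
      exact hv
    obtain ⟨u, hu, h4⟩ := h3
    have h5 : u = v := sub_left_injective h4
    rw [← h5]
    exact hu
  · rw [← d2 hdim]
    exact hv

end Pool.Agent.Helper48.ST
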