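import Pool.Agent.Helper48.ST.Defs

/-!
ST-02. Rules for the symbol `g.L A B = g (Res(B, A))`, `B` monic.

Proof. `resultant_mul_right` (product in `A`), `resultant_mul_left` (product in `B`), `resultant_comm` (symmetry: the sign
`(-1)^(mn)` has logarithm `0` because `2 * g(-1) = g 1 = 0` and `ℓ` is odd), `resultant_ne_zero` for coprime polynomials,
`resultant_add_mul_right` and `resultant_add_right_deg` (for `B` monic `resultant B A m n` does not depend on
`n ≥ natDegree A`, so `Res(B, A + B C) = Res(B, A)`), `resultant_C_right`, `resultant_C_mul_right`.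
-/

set_option autoImplicit false

open Polynomial
open scoped Classical

namespace Pool.Agent.Helper48.ST

variable {F : Type} [Field F] {ℓ : ℕ} [Fact ℓ.Prime] (g : Lg F ℓ)

theorem lg_one : g.toFun 1 = 0 := by
  have h := g.map_mul' 1 1 one_ne_zero one_ne_zero
  rw [mul_one] at h
  exact left_eq_add.1 h

theorem lg_pow (a : F) (ha : a ≠ 0) (k : ℕ) : g.toFun (a ^ k) = (k : ZMod ℓ) * g.toFun a := by
  induction k with
  | zero => rw [pow_zero, lg_one]; simp
  | succ k ih =>
    rw [pow_succ, g.map_mul' _ _ (pow_ne_zero k ha) ha, ih]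
    push_cast
    ring

theorem lg_neg_one (h2 : ℓ ≠ 2) : g.toFun (-1) = 0 := by
  have h := g.map_mul' (-1) (-1) (neg_ne_zero.2 one_ne_zero) (neg_ne_zero.2 one_ne_zero)
  rw [neg_mul_neg, mul_one, lg_one] at h
  have h3 : (2 : ZMod ℓ) * g.toFun (-1) = 0 := by rw [two_mul]; exact h.symm
  rcases mul_eq_zero.1 h3 with h4 | h4
  · exfalso
    have h5 : ((2 : ℕ) : ZMod ℓ) = 0 := by exact_mod_cast h4
    rw [ZMod.natCast_eq_zero_iff] at h5
    exact h2 ((Nat.prime_dvd_prime_iff_eq (Fact.out : ℓ.Prime) Nat.prime_two).1 h5)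
  · exact h4

theorem lbasic_res (A B : F[X]) (hB : B.Monic) (n : ℕ) (hn : A.natDegree ≤ n) :
    resultant B A B.natDegree n = resultant B A := by
  obtain ⟨k, rfl⟩ := Nat.exists_eq_add_of_le hn
  rw [resultant_add_right_deg B A _ _ k le_rfl, hB.coeff_natDegree, one_pow, one_mul]

/-- Product in the first argument. -/
theorem L_mul_left (A A' B : F[X]) (hB : B.Monic) (h : IsCoprime A B) (h' : IsCoprime A' B) :
    g.L (A * A') B = g.L A B + g.L A' B := by
  have h1 : resultant B (A * A') = resultant B A * resultant B A' := by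
    rw [← lbasic_res (A * A') B hB _ natDegree_mul_le, resultant_mul_right B A A' _ le_rfl]
  rw [Lg.L, h1, g.map_mul' _ _ (resultant_ne_zero _ _ h.symm) (resultant_ne_zero _ _ h'.symm)]
  rfl

/-- Product in the second argument. -/
theorem L_mul_right (A B B' : F[X]) (hB : B.Monic) (hB' : B'.Monic) (h : IsCoprime A B)
    (h' : IsCoprime A B') : g.L A (B * B') = g.L A B + g.L A B' := by
  have h1 : resultant (B * B') A = resultant B A * resultant B' A := by
    have h2 := resultant_mul_left B B' A A.natDegree le_rfl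
    rw [← hB.natDegree_mul hB'] at h2
    exact h2
  rw [Lg.L, h1, g.map_mul' _ _ (resultant_ne_zero _ _ h.symm) (resultant_ne_zero _ _ h'.symm)]
  rfl

/-- Reciprocity. -/
theorem L_symm (h2 : ℓ ≠ 2) (A B : F[X]) (hA : A.Monic) (hB : B.Monic) (h : IsCoprime A B) :
    g.L A B = g.L B A := by
  rw [Lg.L, Lg.L, resultant_comm B A,
    g.map_mul' _ _ (pow_ne_zero _ (neg_ne_zero.2 one_ne_zero)) (resultant_ne_zero _ _ h),
    lg_pow g _ (neg_ne_zero.2 one_ne_zero), lg_neg_one g h2, mul_zero, zero_add]

theorem L_periodic (A B C : F[X]) (hB : B.Monic) : g.L (A + B * C) B = g.L A B := by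
  have hn1 : (A + B * C).natDegree ≤ max A.natDegree (C.natDegree + B.natDegree) := by
    refine (natDegree_add_le _ _).trans (max_le_max le_rfl ?_)
    refine natDegree_mul_le.trans ?_
    rw [add_comm]
  have h1 := resultant_add_mul_right B A C B.natDegree
    (max A.natDegree (C.natDegree + B.natDegree)) (le_max_right _ _) le_rfl
  rw [lbasic_res _ B hB _ hn1, lbasic_res _ B hB _ (le_max_left _ _)] at h1
  rw [Lg.L, Lg.L, h1]

theorem L_one_left (B : F[X]) (hB : B.Monic) : g.L 1 B = 0 := by
  rw [Lg.L, resultant_one_right, natDegree_one, pow_zero, lg_one]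

theorem L_one_right (A : F[X]) : g.L A 1 = 0 := by
  rw [Lg.L, resultant_one_left, natDegree_one, zero_mul, pow_zero, pow_zero, mul_one, lg_one]

/-- Constants. -/
theorem L_C (c : F) (hc : c ≠ 0) (B : F[X]) (hB : B.Monic) :
    g.L (C c) B = (B.natDegree : ZMod ℓ) * g.toFun c := by
  rw [Lg.L, resultant_C_right, natDegree_C, pow_zero, one_mul, lg_pow g c hc]

theorem L_pow (A B : F[X]) (hB : B.Monic) (h : IsCoprime A B) (k : ℕ) :
    g.L (A ^ k) B = (k : ZMod ℓ) * g.L A B := by
  induction k with
  | zero => rw [pow_zero, L_one_left g B hB]; simp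
  | succ k ih =>
    rw [pow_succ, L_mul_left g _ _ B hB h.pow_left h, ih]
    push_cast
    ring

end Pool.Agent.Helper48.ST
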