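import Pool.Agent.Helper48.ST.Defs3
import Pool.Agent.Helper96.PS.NormMk

/-!
ST-74. The norm relation.

Proof. `AdjoinRoot A` is free of rank `m = deg A` over `M`. `norm_lin`: `N(θ - c) = (-1)^m A(c)` (`norm_mk` of Helper96/PS/NormMk and `resultant A (X - C c) = (-1)^m A(c)`; or: `X - c` has characteristic polynomial `A(X + c)`). `norm_rel`: `B(θ)^ℓ = D ∏ (θ - a_j)` in
`AdjoinRoot A`; take norms: `N(B(θ))^ℓ = D^m ∏_j (-1)^m A(a_j)`.
-/

set_option autoImplicit false

open Polynomial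
open scoped Classical

namespace Pool.Agent.Helper48.ST

theorem norm_lin {M : Type} [Field M] (A : M[X]) (hA : A.Monic) (c : M) :
    Algebra.norm M (AdjoinRoot.mk A (X - C c)) = (-1) ^ A.natDegree * A.eval c := by
  rw [Pool.Agent.Helper96.PS.norm_mk hA (X - C c), natDegree_X_sub_C]
  exact resultant_X_sub_C_right _ _ _ le_rfl

theorem norm_rel {M : Type} [Field M] (A B : M[X]) (hA : A.Monic) (ℓ n : ℕ) (a : Fin n → M) (D : M)
    (hAB : A ∣ B ^ ℓ - C D * ∏ i, (X - C (a i))) :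
    Algebra.norm M (AdjoinRoot.mk A B) ^ ℓ =
      D ^ A.natDegree * ∏ j, ((-1) ^ A.natDegree * A.eval (a j)) := by
  have h1 : AdjoinRoot.mk A (B ^ ℓ) = AdjoinRoot.mk A (C D * ∏ i, (X - C (a i))) := by
    rw [← sub_eq_zero, ← map_sub, AdjoinRoot.mk_eq_zero]
    exact hAB
  rw [← map_pow, ← map_pow, h1, map_mul, map_mul, map_prod, map_prod,
    Finset.prod_congr rfl fun i _ => norm_lin A hA (a i)]
  congr 1
  rw [Pool.Agent.Helper96.PS.norm_mk hA (C D), natDegree_C]
  exact resultant_C_zero_right _ _ _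

end Pool.Agent.Helper48.ST
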