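import Pool.Agent.Helper48.ST.Defs3
import Pool.Agent.Helper96.PS.CBasic

/-!
ST-71. One-units are `ℓ`-th powers (`ℓ` a unit of `R`).

Proof. `R` is `ϖ`-adically complete, so Hensel's lemma holds for `X^ℓ - a` at the approximate root `1`: `1 - a ≡ 0`, derivative `ℓ` a unit (`IsAdicComplete.henselianRing`, or the Newton iteration
`s ↦ s - (s^ℓ - a) / (ℓ s^(ℓ-1))` as in Helper96/PS/CBasic for squares; or `hensel_factor` of Helper96/PS/Hensel applied to `X^ℓ - a ≡ (X - 1) * (1 + X + ... + X^(ℓ-1))`). The root `b ≡ 1` is a unit (`R` is local, `ϖ` in the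
maximal ideal). `powM_of_one`: the image in `M`.
-/

set_option autoImplicit false

open Polynomial
open scoped Classical
open Pool.Agent.Helper96.PS (CData LData)

namespace Pool.Agent.Helper48.ST

theorem one_unit {R M : Type} [CommRing R] [IsDomain R] [Field M] [Algebra R M] {ϖ : R}
    (hC : CData ϖ M) {ℓ : ℕ} (hℓ : IsUnit (ℓ : R)) (hℓ1 : 1 ≤ ℓ) (a : R) (ha : ϖ ∣ a - 1) :
    ∃ b : R, IsUnit b ∧ b ^ ℓ = a := by
  have hdvr := hC.dvr
  have hmax : IsLocalRing.maximalIdeal R = Ideal.span {ϖ} :=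
    (IsDiscreteValuationRing.irreducible_iff_uniformizer ϖ).1 hC.unif
  have hh : HenselianRing R (Ideal.span {ϖ}) := by
    have := hC.compl
    exact IsAdicComplete.henselianRing R _
  obtain ⟨s, hs, hs1⟩ := hh.is_henselian (X ^ ℓ - C a) (monic_X_pow_sub_C a (by omega)) 1
    (by
      rw [Ideal.mem_span_singleton]
      have : eval 1 (X ^ ℓ - C a : R[X]) = -(a - 1) := by
        simp
      rw [this]
      exact (dvd_neg).2 ha)
    (by
      have : eval 1 (derivative (X ^ ℓ - C a : R[X])) = (ℓ : R) := by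
        rw [derivative_sub, derivative_C, sub_zero, derivative_X_pow]
        simp
      rw [this]
      exact hℓ.map _)
  refine ⟨s, ?_, ?_⟩
  · by_contra hns
    have h1 : s ∈ IsLocalRing.maximalIdeal R := (IsLocalRing.mem_maximalIdeal s).2 hns
    rw [hmax] at h1
    have h2 : (1 : R) ∈ Ideal.span {ϖ} := by
      have := Ideal.sub_mem _ h1 hs1
      simpa using this
    rw [← hmax] at h2
    exact (Ideal.ne_top_iff_one _).1 (IsLocalRing.maximalIdeal.isMaximal R).ne_top h2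
  · have : s ^ ℓ - a = 0 := by simpa [IsRoot.def] using hs
    exact sub_eq_zero.1 this

theorem powM_of_one {R M : Type} [CommRing R] [IsDomain R] [Field M] [Algebra R M] {ϖ : R}
    (hC : CData ϖ M) {ℓ : ℕ} (hℓ : IsUnit (ℓ : R)) (hℓ1 : 1 ≤ ℓ) (a : R) (ha : ϖ ∣ a - 1) :
    PowM ℓ (algebraMap R M a) := by
  obtain ⟨b, hb, hba⟩ := one_unit hC hℓ hℓ1 a ha
  refine ⟨algebraMap R M b, (hb.map (algebraMap R M)).ne_zero, ?_⟩
  rw [← hba, map_pow]

/-- If `a ≡ b mod ϖ` are units then the quotient is an `ℓ`-th power. -/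
theorem powM_of_congr {R M : Type} [CommRing R] [IsDomain R] [Field M] [Algebra R M] {ϖ : R}
    (hC : CData ϖ M) {ℓ : ℕ} (hℓ : IsUnit (ℓ : R)) (hℓ1 : 1 ≤ ℓ) (a b : R) (hb : ¬ ϖ ∣ b)
    (hab : ϖ ∣ a - b) : PowM ℓ (algebraMap R M a / algebraMap R M b) := by
  have hdvr := hC.dvr
  have hmax : IsLocalRing.maximalIdeal R = Ideal.span {ϖ} :=
    (IsDiscreteValuationRing.irreducible_iff_uniformizer ϖ).1 hC.unif
  have hbu : IsUnit b := by
    by_contra hns
    have h1 : b ∈ IsLocalRing.maximalIdeal R := (IsLocalRing.mem_maximalIdeal b).2 hns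
    rw [hmax, Ideal.mem_span_singleton] at h1
    exact hb h1
  obtain ⟨c, rfl⟩ := hbu
  have h2 : ϖ ∣ a * ((c⁻¹ : Rˣ) : R) - 1 := by
    have e : a * ((c⁻¹ : Rˣ) : R) - 1 = (a - (c : R)) * ((c⁻¹ : Rˣ) : R) := by
      rw [sub_mul, Units.mul_inv]
    rw [e]
    exact Dvd.dvd.mul_right hab _
  have h3 := powM_of_one hC hℓ hℓ1 _ h2
  have hc0 : algebraMap R M (c : R) ≠ 0 := (c.isUnit.map (algebraMap R M)).ne_zero
  have e : algebraMap R M a / algebraMap R M (c : R) = algebraMap R M (a * ((c⁻¹ : Rˣ) : R)) := by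
    rw [div_eq_iff hc0, ← map_mul, mul_assoc, Units.inv_mul, mul_one]
  rw [e]
  exact h3

end Pool.Agent.Helper48.ST
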