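import Pool.Agent.Helper48.ST.PowLem
import Pool.Agent.Helper48.ST.OneUnit
import Pool.Agent.Helper48.ST.NormRel

/-!
ST-77. Closed points near a ramification point have a torsion class.

Notation: `m = deg A`, `z j = (-1)^m A(a_j) D^(u m)`. Proof. `prod_powM`: `norm_rel` and `norm` not zero: `∏ z j = N^ℓ D^(m (n u - 1))`, `ℓ ∣ n u - 1` (`n u ≥ 1` because `n u ≡ 1`, `ℓ ≥ 2`). `tors_case`: `w` from `torM_point`; for `j ≠ i`
`z j / TorM w j = (-1)^m (A(a_j) / (a_j - a_i)^m) * (D^(u m) (a_j - a_i)^m / TorM w j)` is an `ℓ`-th power; for `j = i` apply `all_of_all_but` to `z j / TorM w j` (`prod_powM`, `torM_prod`). So all conditions of `LCond` hold. `ratio_case`: `all_of_ratio`, then `w = 0`, `TorM 0 = 1`.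
-/

set_option autoImplicit false

open Polynomial
open scoped Classical
open Pool.Agent.Helper96.PS (CData LData)

namespace Pool.Agent.Helper48.ST

section
variable {M : Type} [Field M] {ℓ n u : ℕ}

/-- The value of `x - T` at the divisor of zeros of `A`. -/
def zAB (u : ℕ) (a : Fin n → M) (D : M) (A : M[X]) (j : Fin n) : M :=
  (-1) ^ A.natDegree * A.eval (a j) * D ^ (u * A.natDegree)

theorem prod_powM (hℓ2 : 2 ≤ ℓ) (hu : n * u ≡ 1 [MOD ℓ]) (a : Fin n → M) (D : M) (hD : D ≠ 0)
    (A B : M[X]) (hA : A.Monic) (hA0 : ∀ j, A.eval (a j) ≠ 0)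
    (hAB : A ∣ B ^ ℓ - C D * ∏ i, (X - C (a i))) : PowM ℓ (∏ j, zAB u a D A j) := by
  have hnu : 1 ≤ n * u := by
    rcases Nat.eq_zero_or_pos (n * u) with h0 | h0
    · rw [h0] at hu
      have h1 : 0 % ℓ = 1 % ℓ := hu
      rw [Nat.zero_mod, Nat.mod_eq_of_lt (by omega)] at h1
      omega
    · exact h0
  obtain ⟨k, hk⟩ := (Nat.modEq_iff_dvd' hnu).1 hu.symm
  have hk' : n * u = 1 + ℓ * k := by omega
  have hrel := norm_rel A B hA ℓ n a D hAB
  refine ⟨Algebra.norm M (AdjoinRoot.mk A B) * D ^ (k * A.natDegree), ?_, ?_⟩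
  · refine mul_ne_zero ?_ (pow_ne_zero _ hD)
    intro h0
    rw [h0, zero_pow (by omega)] at hrel
    refine mul_ne_zero (pow_ne_zero _ hD) (Finset.prod_ne_zero_iff.2 fun j _ => ?_) hrel.symm
    exact mul_ne_zero (pow_ne_zero _ (neg_ne_zero.2 one_ne_zero)) (hA0 j)
  · have h1 : ∏ j, zAB u a D A j =
        (∏ j, ((-1) ^ A.natDegree * A.eval (a j))) * (D ^ (u * A.natDegree)) ^ n := by
      unfold zAB
      rw [Finset.prod_mul_distrib, Finset.prod_const, Finset.card_univ, Fintype.card_fin]
    have h2 : (D ^ (u * A.natDegree)) ^ n = D ^ A.natDegree * (D ^ (k * A.natDegree)) ^ ℓ := by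
      rw [← pow_mul, ← pow_mul, ← pow_add]
      congr 1
      calc u * A.natDegree * n = (n * u) * A.natDegree := by ring
        _ = (1 + ℓ * k) * A.natDegree := by rw [hk']
        _ = _ := by ring
    rw [h1, h2, mul_pow, hrel]
    ring

theorem torsCase_powM_neg_one_pow (hodd : Odd ℓ) (m : ℕ) : PowM ℓ ((-1 : M) ^ m) := by
  have h := powM_zpow (powM_neg_one (M := M) hodd) (m : ℤ)
  rwa [zpow_natCast] at h

end

section
variable {R M : Type} [CommRing R] [IsDomain R] [Field M] [Algebra R M] {ϖ : R} (hC : CData ϖ M)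
    {ℓ n u : ℕ} (hodd : Odd ℓ) (hℓ2 : 2 ≤ ℓ) (hu : n * u ≡ 1 [MOD ℓ]) (a : Fin n → R) (D : R)
    (hne : ∀ j k, j ≠ k → a j ≠ a k) (hD : D ≠ 0) (A B : M[X]) (hA : A.Monic)
    (hA0 : ∀ j, A.eval (algebraMap R M (a j)) ≠ 0)
    (hAB : A ∣ B ^ ℓ - C (algebraMap R M D) * ∏ i, (X - C (algebraMap R M (a i))))

include hC hodd hℓ2 hu hne hD hA hA0 hAB in
theorem tors_case (i : Fin n)
    (h : ∀ j, j ≠ i → PowM ℓ (A.eval (algebraMap R M (a j)) /
      (algebraMap R M (a j) - algebraMap R M (a i)) ^ A.natDegree)) :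
    LCond M ϖ ℓ a D (zAB u (fun i => algebraMap R M (a i)) (algebraMap R M D) A) := by
  have := hC.frac
  have hinj : Function.Injective (algebraMap R M) := IsFractionRing.injective R M
  have hDM : algebraMap R M D ≠ 0 := fun h0 => hD (hinj (by rw [h0, map_zero]))
  have hneM : ∀ j k, j ≠ k → algebraMap R M (a j) ≠ algebraMap R M (a k) :=
    fun j k hjk h0 => hne j k hjk (hinj h0)
  obtain ⟨w, hw, hw'⟩ := torM_point hu hneM hDM A.natDegree i
  have hT : ∀ j, TorM (fun i => algebraMap R M (a i)) (algebraMap R M D) w j ≠ 0 :=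
    fun j => torM_ne_zero hneM hDM w j
  have hall1 : ∀ j, j ≠ i → PowM ℓ (zAB u (fun i => algebraMap R M (a i)) (algebraMap R M D) A j /
      TorM (fun i => algebraMap R M (a i)) (algebraMap R M D) w j) := by
    intro j hj
    have h1 := powM_mul (powM_mul (torsCase_powM_neg_one_pow (M := M) hodd A.natDegree) (h j hj))
      (hw' j hj)
    have h2 : (algebraMap R M (a j) - algebraMap R M (a i)) ^ A.natDegree ≠ 0 :=
      pow_ne_zero _ (sub_ne_zero.2 (hneM j i hj))
    have h3 : zAB u (fun i => algebraMap R M (a i)) (algebraMap R M D) A j /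
        TorM (fun i => algebraMap R M (a i)) (algebraMap R M D) w j =
        (-1) ^ A.natDegree * (A.eval (algebraMap R M (a j)) /
        (algebraMap R M (a j) - algebraMap R M (a i)) ^ A.natDegree) *
        (algebraMap R M D ^ (u * A.natDegree) *
          (algebraMap R M (a j) - algebraMap R M (a i)) ^ A.natDegree /
          TorM (fun i => algebraMap R M (a i)) (algebraMap R M D) w j) := by
      have h4 := hT j
      unfold zAB
      field_simp
    rw [h3]
    exact h1
  have hall : ∀ j, PowM ℓ (zAB u (fun i => algebraMap R M (a i)) (algebraMap R M D) A j /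
      TorM (fun i => algebraMap R M (a i)) (algebraMap R M D) w j) := by
    intro j
    by_cases hj : j = i
    · subst hj
      refine all_of_all_but (fun j => zAB u (fun i => algebraMap R M (a i)) (algebraMap R M D) A j /
        TorM (fun i => algebraMap R M (a i)) (algebraMap R M D) w j) ?_ j hall1
      rw [Finset.prod_div_distrib]
      exact powM_div (prod_powM hℓ2 hu _ _ hDM A B hA hA0 hAB) (torM_prod hodd hneM hDM w hw)
    · exact hall1 j hj
  exact ⟨w, hw, fun j => unrM_of_powM (hall j), fun _ j => hall j,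
    fun j k _ _ => powM_div (hall j) (hall k)⟩

include hC hodd hℓ2 hu hne hD hA hA0 hAB in
theorem ratio_case
    (h : ∀ j k, PowM ℓ (A.eval (algebraMap R M (a j)) / A.eval (algebraMap R M (a k)))) :
    LCond M ϖ ℓ a D (zAB u (fun i => algebraMap R M (a i)) (algebraMap R M D) A) := by
  have := hC.frac
  have hinj : Function.Injective (algebraMap R M) := IsFractionRing.injective R M
  have hDM : algebraMap R M D ≠ 0 := fun h0 => hD (hinj (by rw [h0, map_zero]))
  have hz0 : ∀ j, zAB u (fun i => algebraMap R M (a i)) (algebraMap R M D) A j ≠ 0 := fun j =>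
    mul_ne_zero (mul_ne_zero (pow_ne_zero _ (neg_ne_zero.2 one_ne_zero)) (hA0 j))
      (pow_ne_zero _ hDM)
  have hall0 : ∀ j, PowM ℓ (zAB u (fun i => algebraMap R M (a i)) (algebraMap R M D) A j) := by
    refine all_of_ratio hu _ hz0 (prod_powM hℓ2 hu _ _ hDM A B hA hA0 hAB) fun j k => ?_
    have h1 : zAB u (fun i => algebraMap R M (a i)) (algebraMap R M D) A j /
        zAB u (fun i => algebraMap R M (a i)) (algebraMap R M D) A k =
        A.eval (algebraMap R M (a j)) / A.eval (algebraMap R M (a k)) := by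
      have h2 := hA0 k
      have h3 : ((-1 : M)) ^ A.natDegree ≠ 0 := pow_ne_zero _ (neg_ne_zero.2 one_ne_zero)
      have h4 : (algebraMap R M D) ^ (u * A.natDegree) ≠ 0 := pow_ne_zero _ hDM
      unfold zAB
      rw [mul_div_mul_right _ _ h4, mul_div_mul_left _ _ h3]
    rw [h1]
    exact h j k
  have hT : ∀ j, TorM (fun i => algebraMap R M (a i)) (algebraMap R M D) (fun _ => (0 : ℤ)) j = 1 := by
    intro j
    unfold TorM
    simp
  have hall : ∀ j, PowM ℓ (zAB u (fun i => algebraMap R M (a i)) (algebraMap R M D) A j /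
      TorM (fun i => algebraMap R M (a i)) (algebraMap R M D) (fun _ => (0 : ℤ)) j) := by
    intro j
    rw [hT, div_one]
    exact hall0 j
  have _ := hodd
  have _ := hne
  exact ⟨fun _ => 0, by simp, fun j => unrM_of_powM (hall j), fun _ j => hall j,
    fun j k _ _ => powM_div (hall j) (hall k)⟩

end

end Pool.Agent.Helper48.ST
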