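import Pool.Agent.Helper48.ST.PowLem
import Pool.Agent.Helper48.ST.TorsCase

/-!
ST-82. Reduction of a closed point to a pair of polynomials.

Proof. Let `A = minpoly M x`, `m = deg A`, `L₀ = M⟮x⟯` (intermediate field, `AdjoinRoot A`), `k = [L : L₀]`, `c = D ∏ (x - a_i) ∈ L₀`. For `z ∈ L₀` `N_{L/M}(z) = N_{L₀/M}(z)^k` (`Algebra.norm_eq_of_tower`… , `Algebra.norm_norm`, `Algebra.norm_algebraMap`), and `N_{L₀/M}(D^u (x - a_j)) = D^(u m) (-1)^m A(a_j) = zAB j`
(`norm_lin`, or `IntermediateField.AdjoinSimple.norm_gen_eq_…` for the minimal polynomial of `x - a_j`). `A(a_j) ≠ 0`: otherwise `A = X - a_j`, `x = a_j` and `y = 0`. (1) If `c = b^ℓ` with `b ∈ L₀`, write `b = B(x)`: `B^ℓ - D ∏ (X - a_i)` vanishes at `x`, so `A` divides it: second alternative.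
(2) Otherwise `X^ℓ - c` is irreducible over `L₀` (`X_pow_sub_C_irreducible_of_prime`), it is the minimal polynomial of `y` over `L₀`, so `ℓ = [L₀(y) : L₀]` divides `k = ℓ k'`, and `N_{L/M}(D^u (x - a_j)) = (zAB j ^ k')^ℓ`: first alternative.
-/

set_option autoImplicit false

open Polynomial
open scoped Classical
open Pool.Agent.Helper96.PS (CData LData)

namespace Pool.Agent.Helper48.ST

theorem toAB_norm {M L : Type} [Field M] [Field L] [Algebra M L] [FiniteDimensional M L]
    {n u : ℕ} (a : Fin n → M) (D : M) (x : L) (j : Fin n) :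
    Algebra.norm M (algebraMap M L D ^ u * (x - algebraMap M L (a j))) =
      zAB u a D (minpoly M x) j ^ Module.finrank (IntermediateField.adjoin M {x}) L := by
  have hx : IsIntegral M x := Algebra.IsIntegral.isIntegral x
  have hfin := IntermediateField.adjoin.finrank hx
  set K := IntermediateField.adjoin M {x} with hK
  set e := IntermediateField.adjoinRootEquivAdjoin M hx with he
  set z : K := algebraMap M K D ^ u * (IntermediateField.AdjoinSimple.gen M x -
    algebraMap M K (a j)) with hz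
  have h1 : algebraMap M L D ^ u * (x - algebraMap M L (a j)) = algebraMap K L z := by
    rw [hz, map_mul, map_pow, map_sub, ← IsScalarTower.algebraMap_apply M K L,
      ← IsScalarTower.algebraMap_apply M K L, IntermediateField.AdjoinSimple.algebraMap_gen]
  have h2 : Algebra.norm M (IntermediateField.AdjoinSimple.gen M x - algebraMap M K (a j)) =
      (-1) ^ (minpoly M x).natDegree * (minpoly M x).eval (a j) := by
    rw [← norm_lin (minpoly M x) (minpoly.monic hx) (a j), ← Algebra.norm_eq_of_algEquiv e]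
    congr 1
    rw [map_sub, map_sub, AdjoinRoot.mk_X, AdjoinRoot.mk_C]
    congr 1
    · rw [he, IntermediateField.adjoinRootEquivAdjoin_apply_root]
    · exact (e.commutes (a j)).symm
  rw [h1, ← Algebra.norm_norm (S := K), Algebra.norm_algebraMap, map_pow]
  congr 1
  rw [hz, map_mul, map_pow, Algebra.norm_algebraMap, h2, hfin, zAB]
  ring

theorem toAB_ne {M L : Type} [Field M] [Field L] [Algebra M L] [FiniteDimensional M L] {ℓ n : ℕ}
    (hℓ : ℓ ≠ 0) (a : Fin n → M) (D : M) (x y : L) (hy : y ≠ 0)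
    (hxy : y ^ ℓ = algebraMap M L D * ∏ i, (x - algebraMap M L (a i))) (j : Fin n) :
    (minpoly M x).eval (a j) ≠ 0 := by
  intro h
  have hx : IsIntegral M x := Algebra.IsIntegral.isIntegral x
  have h1 : (X - C (a j)) ∣ minpoly M x := dvd_iff_isRoot.2 h
  have h2 : Associated (X - C (a j)) (minpoly M x) :=
    (Irreducible.dvd_irreducible_iff_associated (irreducible_X_sub_C _)
      (minpoly.irreducible hx)).1 h1
  obtain ⟨q, hq⟩ := h2.symm.dvd
  have h3 : aeval x (X - C (a j) : M[X]) = 0 := by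
    rw [hq, map_mul, minpoly.aeval, zero_mul]
  rw [map_sub, aeval_X, aeval_C] at h3
  have h4 : y ^ ℓ = 0 := by
    rw [hxy, Finset.prod_eq_zero (Finset.mem_univ j) h3, mul_zero]
  exact hy (pow_eq_zero_iff hℓ |>.1 h4)

theorem to_AB {M L : Type} [Field M] [Field L] [Algebra M L] [FiniteDimensional M L] {ℓ n u : ℕ}
    (hℓp : ℓ.Prime) (a : Fin n → M) (D : M) (hD : D ≠ 0) (x y : L) (hy : y ≠ 0)
    (hxy : y ^ ℓ = algebraMap M L D * ∏ i, (x - algebraMap M L (a i))) :
    (∀ j, PowM ℓ (Algebra.norm M (algebraMap M L D ^ u * (x - algebraMap M L (a j))))) ∨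
      ∃ (A B : M[X]) (k : ℕ), A.Monic ∧ Irreducible A ∧ (∀ j, A.eval (a j) ≠ 0) ∧
        A ∣ B ^ ℓ - C D * ∏ i, (X - C (a i)) ∧
        ∀ j, Algebra.norm M (algebraMap M L D ^ u * (x - algebraMap M L (a j))) =
          zAB u a D A j ^ k := by
  have hx : IsIntegral M x := Algebra.IsIntegral.isIntegral x
  have hne := toAB_ne hℓp.ne_zero a D x y hy hxy
  have hzne : ∀ j, zAB u a D (minpoly M x) j ≠ 0 := fun j =>
    mul_ne_zero (mul_ne_zero (pow_ne_zero _ (neg_ne_zero.2 one_ne_zero)) (hne j))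
      (pow_ne_zero _ hD)
  set K := IntermediateField.adjoin M {x} with hK
  set e := IntermediateField.adjoinRootEquivAdjoin M hx with he
  set P : M[X] := C D * ∏ i, (X - C (a i)) with hP
  set c : K := e (AdjoinRoot.mk (minpoly M x) P) with hc
  have heval : ∀ Q : M[X], algebraMap K L (e (AdjoinRoot.mk (minpoly M x) Q)) = aeval x Q := by
    intro Q
    have h1 : (AdjoinRoot.mk (minpoly M x) Q) = aeval (AdjoinRoot.root (minpoly M x)) Q :=
      (AdjoinRoot.aeval_eq Q).symm
    rw [h1]
    have h2 : e (aeval (AdjoinRoot.root (minpoly M x)) Q) =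
        aeval (IntermediateField.AdjoinSimple.gen M x) Q := by
      rw [← IntermediateField.adjoinRootEquivAdjoin_apply_root M hx, ← he]
      exact (aeval_algHom_apply (e : AdjoinRoot (minpoly M x) →ₐ[M] K) _ Q).symm
    rw [h2, ← aeval_algebraMap_apply, IntermediateField.AdjoinSimple.algebraMap_gen]
  have hcL : algebraMap K L c = y ^ ℓ := by
    rw [hc, heval, hP, map_mul, aeval_C, map_prod, hxy]
    congr 1
    refine Finset.prod_congr rfl fun i _ => ?_
    rw [map_sub, aeval_X, aeval_C]
  by_cases hb : ∃ b : K, b ^ ℓ = c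
  · right
    obtain ⟨b, hb⟩ := hb
    obtain ⟨B, hB⟩ := AdjoinRoot.mk_surjective (e.symm b)
    refine ⟨minpoly M x, B, Module.finrank K L, minpoly.monic hx, minpoly.irreducible hx, hne, ?_,
      fun j => toAB_norm a D x j⟩
    rw [← AdjoinRoot.mk_eq_zero, map_sub, map_pow, hB, sub_eq_zero]
    apply e.injective
    rw [map_pow, AlgEquiv.apply_symm_apply, hb]
  · left
    have hirr : Irreducible (X ^ ℓ - C c) :=
      X_pow_sub_C_irreducible_of_prime hℓp fun b h => hb ⟨b, h⟩
    have hmp : minpoly K y = X ^ ℓ - C c := by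
      symm
      refine minpoly.eq_of_irreducible_of_monic hirr ?_ (monic_X_pow_sub_C c hℓp.ne_zero)
      rw [map_sub, map_pow, aeval_X, aeval_C, hcL, sub_self]
    have hy' : IsIntegral K y := Algebra.IsIntegral.isIntegral y
    have hdvd := minpoly.degree_dvd hy'
    rw [hmp, natDegree_X_pow_sub_C] at hdvd
    obtain ⟨k', hk'⟩ := hdvd
    intro j
    refine ⟨zAB u a D (minpoly M x) j ^ k', pow_ne_zero _ (hzne j), ?_⟩
    rw [toAB_norm a D x j, ← hK, hk', ← pow_mul, mul_comm]

end Pool.Agent.Helper48.ST
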