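import Pool.Agent.Helper48.ST.FinAB
import Pool.Agent.Helper48.ST.ToAB

/-!
ST-83. The local image is contained in the local conditions, finite places.

Proof. The set of `z : Fin n → Mˣ` with `LCond` is a subgroup: for products and inverses add the vectors `w`, negate them (`torM_add`, `torM_neg`, rules of ST-76). It contains the `ℓ`-th powers (`w = 0`, `TorM 0 = 1`) and the classes of the closed points: `to_AB`, `fin_AB` and powers.
`Subgroup.closure_induction`.
-/

set_option autoImplicit false

open Polynomial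
open scoped Classical
open Pool.Agent.Helper96.PS (CData LData)

namespace Pool.Agent.Helper48.ST

section

variable {R M : Type} [CommRing R] [Field M] [Algebra R M] {ϖ : R} {ℓ n : ℕ} {a : Fin n → R} {D : R}

theorem lcond_mul [IsDomain R] (hne : ∀ j k, j ≠ k → algebraMap R M (a j) ≠ algebraMap R M (a k))
    (hD : algebraMap R M D ≠ 0) {z z' : Fin n → M} (h : LCond M ϖ ℓ a D z)
    (h' : LCond M ϖ ℓ a D z') : LCond M ϖ ℓ a D (fun j => z j * z' j) := by
  obtain ⟨w, hw, h1, h2, h3⟩ := h
  obtain ⟨w', hw', h1', h2', h3'⟩ := h'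
  have key : ∀ j, z j * z' j / TorM (fun i => algebraMap R M (a i)) (algebraMap R M D)
      (fun i => w i + w' i) j =
      (z j / TorM (fun i => algebraMap R M (a i)) (algebraMap R M D) w j) *
      (z' j / TorM (fun i => algebraMap R M (a i)) (algebraMap R M D) w' j) := by
    intro j
    rw [torM_add hne hD, div_mul_div_comm]
  refine ⟨fun i => w i + w' i, ?_, fun j => ?_, fun hd j => ?_, fun j k hjk hd => ?_⟩
  · rw [Finset.sum_add_distrib, hw, hw', add_zero]
  · simp only [key]
    exact unrM_mul (h1 j) (h1' j)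
  · simp only [key]
    exact powM_mul (h2 hd j) (h2' hd j)
  · simp only [key]
    rw [mul_div_mul_comm]
    exact powM_mul (h3 j k hjk hd) (h3' j k hjk hd)

theorem lcond_inv [IsDomain R] (hne : ∀ j k, j ≠ k → algebraMap R M (a j) ≠ algebraMap R M (a k))
    (hD : algebraMap R M D ≠ 0) {z : Fin n → M} (h : LCond M ϖ ℓ a D z) :
    LCond M ϖ ℓ a D (fun j => (z j)⁻¹) := by
  obtain ⟨w, hw, h1, h2, h3⟩ := h
  have key : ∀ j, (z j)⁻¹ / TorM (fun i => algebraMap R M (a i)) (algebraMap R M D)
      (fun i => -w i) j =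
      (z j / TorM (fun i => algebraMap R M (a i)) (algebraMap R M D) w j)⁻¹ := by
    intro j
    rw [torM_neg hne hD, inv_div, div_inv_eq_mul, mul_comm, div_eq_mul_inv]
  refine ⟨fun i => -w i, ?_, fun j => ?_, fun hd j => ?_, fun j k hjk hd => ?_⟩
  · rw [Finset.sum_neg_distrib, hw, neg_zero]
  · simp only [key]
    exact unrM_inv (h1 j)
  · simp only [key]
    exact powM_inv (h2 hd j)
  · simp only [key]
    rw [← inv_div_inv, inv_inv, inv_inv, ← inv_div]
    exact powM_inv (h3 j k hjk hd)

theorem torM_zero (b : Fin n → M) (E : M) (j : Fin n) : TorM b E (fun _ => 0) j = 1 := by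
  unfold TorM
  simp

theorem lcond_of_powM {z : Fin n → M} (h : ∀ j, PowM ℓ (z j)) : LCond M ϖ ℓ a D z := by
  refine ⟨fun _ => 0, by simp, fun j => ?_, fun _ j => ?_, fun j k _ _ => ?_⟩
  · rw [torM_zero, div_one]
    exact unrM_of_powM (h j)
  · rw [torM_zero, div_one]
    exact h j
  · rw [torM_zero, torM_zero, div_one, div_one]
    exact powM_div (h j) (h k)

theorem lcond_pow [IsDomain R] (hne : ∀ j k, j ≠ k → algebraMap R M (a j) ≠ algebraMap R M (a k))
    (hD : algebraMap R M D ≠ 0) {z : Fin n → M} (h : LCond M ϖ ℓ a D z) (k : ℕ) :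
    LCond M ϖ ℓ a D (fun j => z j ^ k) := by
  induction k with
  | zero =>
    simp only [pow_zero]
    exact lcond_of_powM fun _ => powM_one
  | succ k ih =>
    simp only [pow_succ]
    exact lcond_mul hne hD ih h

end

theorem loc_fin {R M : Type} [CommRing R] [IsDomain R] [Field M] [Algebra R M] {ϖ : R}
    (hC : CData ϖ M) {ℓ n u : ℕ} (hℓp : ℓ.Prime) (hodd : Odd ℓ) (hℓ : IsUnit (ℓ : R))
    (hu : n * u ≡ 1 [MOD ℓ]) (a : Fin n → R) (D : R) (L : LHyp ϖ a D) (z : Fin n → Mˣ)
    (hz : z ∈ LocIm M ℓ u (fun i => algebraMap R M (a i)) (algebraMap R M D)) :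
    LCond M ϖ ℓ a D (fun j => (z j : M)) := by
  have hfrac := hC.frac
  have hinj : Function.Injective (algebraMap R M) := IsFractionRing.injective R M
  have hD0 : D ≠ 0 := by
    rintro rfl
    exact L.D0 (dvd_zero _)
  have hD : algebraMap R M D ≠ 0 := fun h => hD0 (hinj (by rw [h, map_zero]))
  have hne : ∀ j k, j ≠ k → algebraMap R M (a j) ≠ algebraMap R M (a k) :=
    fun j k hjk h => L.ne j k hjk (hinj h)
  unfold LocIm at hz
  induction hz using Subgroup.closure_induction with
  | mem z hz =>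
    rcases hz with ⟨b, rfl⟩ | ⟨L', _, _, x, y, hfd, hy, hxy, hzj⟩
    · exact lcond_of_powM fun j => ⟨(b j : M), (b j).ne_zero, by simp⟩
    · simp only [hzj]
      rcases to_AB (u := u) hℓp (fun i => algebraMap R M (a i)) (algebraMap R M D) hD x y hy hxy with
        h | ⟨A, B, k, hA, hirr, hA0, hAB, hk⟩
      · exact lcond_of_powM h
      · simp only [hk]
        exact lcond_pow hne hD (fin_AB hC hℓp hodd hℓ hu a D L A B hA hirr hA0 hAB) k
  | one => exact lcond_of_powM fun j => by simpa using powM_one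
  | mul z z' _ _ h h' =>
    have e : (fun j => (((z * z') j : Mˣ) : M)) = fun j => (z j : M) * (z' j : M) := by
      funext j
      rw [Pi.mul_apply, Units.val_mul]
    rw [e]
    exact lcond_mul hne hD h h'
  | inv z _ h =>
    have e : (fun j => ((z⁻¹ j : Mˣ) : M)) = fun j => (z j : M)⁻¹ := by
      funext j
      rw [Pi.inv_apply, Units.val_inv_eq_inv_val]
    rw [e]
    exact lcond_inv hne hD h

end Pool.Agent.Helper48.ST
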