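import Pool.Agent.Helper48.ST.InfAB
import Pool.Agent.Helper48.ST.ToAB

/-!
ST-84. The local image at infinity.

Proof. As ST-83: the `z` with all `z j` `UnrM` form a subgroup, it contains `ℓ`-th powers and the classes of closed points (`to_AB`, `inf_AB`, powers).
-/

set_option autoImplicit false

open Polynomial
open scoped Classical
open Pool.Agent.Helper96.PS (CData LData)

namespace Pool.Agent.Helper48.ST

theorem locInf_one {R M : Type} [CommRing R] [Field M] [Algebra R M] (ℓ : ℕ) :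
    UnrM R ℓ (1 : M) := ⟨1, 1, isUnit_one, one_ne_zero, by simp⟩

theorem locInf_mul {R M : Type} [CommRing R] [Field M] [Algebra R M] {ℓ : ℕ} {x y : M}
    (hx : UnrM R ℓ x) (hy : UnrM R ℓ y) : UnrM R ℓ (x * y) := by
  obtain ⟨e, b, he, hb, rfl⟩ := hx
  obtain ⟨e', b', he', hb', rfl⟩ := hy
  exact ⟨e * e', b * b', he.mul he', mul_ne_zero hb hb', by rw [map_mul, mul_pow]; ring⟩

theorem locInf_inv {R M : Type} [CommRing R] [Field M] [Algebra R M] {ℓ : ℕ} {x : M}
    (hx : UnrM R ℓ x) : UnrM R ℓ x⁻¹ := by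
  obtain ⟨e, b, he, hb, rfl⟩ := hx
  obtain ⟨v, rfl⟩ := he
  refine ⟨((v⁻¹ : Rˣ) : R), b⁻¹, Units.isUnit _, inv_ne_zero hb, ?_⟩
  rw [mul_inv, inv_pow]
  congr 1
  have h : algebraMap R M (v : R) * algebraMap R M ((v⁻¹ : Rˣ) : R) = 1 := by
    rw [← map_mul, Units.mul_inv, map_one]
  exact inv_eq_of_mul_eq_one_right h

theorem locInf_pow {R M : Type} [CommRing R] [Field M] [Algebra R M] {ℓ : ℕ} {x : M}
    (hx : UnrM R ℓ x) (k : ℕ) : UnrM R ℓ (x ^ k) := by
  induction k with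
  | zero => rw [pow_zero]; exact locInf_one ℓ
  | succ k ih => rw [pow_succ]; exact locInf_mul ih hx

theorem loc_inf {R M : Type} [CommRing R] [IsDomain R] [Field M] [Algebra R M] {ϖ : R}
    (hC : CData ϖ M) {ℓ n u : ℕ} (hℓp : ℓ.Prime) (hodd : Odd ℓ) (hℓ : IsUnit (ℓ : R))
    (hu : n * u ≡ 1 [MOD ℓ]) (d N : ℕ) (hN : ℓ ∣ N + n * d) (a : Fin n → M) (D : M)
    (a' : Fin n → R) (D' : R) (ha : ∀ j, algebraMap R M (a' j) = algebraMap R M ϖ ^ d * a j)
    (hD : algebraMap R M D' = algebraMap R M ϖ ^ N * D) (hD' : IsUnit D')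
    (hne : ∀ j k, j ≠ k → ¬ ϖ ∣ a' j - a' k) (z : Fin n → Mˣ) (hz : z ∈ LocIm M ℓ u a D)
    (j : Fin n) : UnrM R ℓ (z j : M) := by
  have hD0 : D ≠ 0 := by
    rintro rfl
    rw [mul_zero] at hD
    have h : IsUnit (algebraMap R M D') := hD'.map _
    rw [hD] at h
    exact not_isUnit_zero h
  unfold LocIm at hz
  induction hz using Subgroup.closure_induction with
  | one => exact locInf_one ℓ
  | mul x y _ _ hx hy => exact locInf_mul hx hy
  | inv x _ hx =>
    have h := locInf_inv hx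
    rwa [← Units.val_inv_eq_inv_val] at h
  | mem x hx =>
    rcases hx with ⟨b, rfl⟩ | ⟨L, _, _, x1, y1, hfd, hy, hxy, hval⟩
    · exact ⟨1, (b j : M), isUnit_one, (b j).ne_zero, by simp⟩
    · rw [hval j]
      rcases to_AB hℓp a D hD0 x1 y1 hy hxy with h | ⟨A, B, k, hA, hirr, hA0, hAB, hk⟩
      · obtain ⟨b, hb, hb'⟩ := h j
        exact ⟨1, b, isUnit_one, hb, by rw [hb', map_one, one_mul]⟩
      · rw [hk j]
        exact locInf_pow (inf_AB hC hℓp hodd hℓ hu d N hN a D a' D' ha hD hD' hne A B hA hirr hA0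
          hAB j) k

end Pool.Agent.Helper48.ST
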