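import Mathlib

/-!
ST-13. Newton's identities: the solution of `k a_k = ∑ c_j a_(k-j)` are power sums (Mathlib only).

Proof. `M ≥ 1` as `a 0 = 1`. Let `f = ∑_{k<M} a k X^(M-1-k)`, monic of degree `M - 1`, and `γ = f.roots` (`M - 1` of them, `ℂ` is algebraically
closed), so `f = ∏_{x ∈ γ} (X - x)`, that is `A := ∑_{k<M} a k X^k = ∏_{x ∈ γ} (1 - x X)` (reverse polynomial; as a power series, `coeff k A = a k` for
all `k` since `a k = 0` for `k ≥ M`). Let `p k = ∑_{x ∈ γ} x^k` and `p = ∑_{k≥1} p k X^k` (power series). Then `X A' = - p * A`: by induction over the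
multiset (for `A = (1 - x X) B`: `X A' = - x X B + (1 - x X) X B'` and `(∑_{k≥1} x^k X^k) (1 - x X) = x X`). Comparing coefficients,
`k a k = - ∑_{j=1}^k p j a (k-j)` for all `k ≥ 1`. Since `a 0 = 1` the equations `k a k = ∑_{j=1}^k c j a (k-j)` determine the `c k` recursively
(strong induction), so `c k = - p k`.
-/

set_option autoImplicit false

open Polynomial
open scoped Classical

namespace Pool.Agent.Helper48.ST

theorem newton_gx (x : ℂ) :
    (PowerSeries.mk (fun k : ℕ => if k = 0 then (0 : ℂ) else x ^ k)) *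
      (1 - PowerSeries.C x * PowerSeries.X) = PowerSeries.C x * PowerSeries.X := by
  ext k
  rw [mul_sub, mul_one, map_sub, mul_comm (PowerSeries.C x) PowerSeries.X, ← mul_assoc,
    PowerSeries.coeff_mk]
  cases k with
  | zero => simp
  | succ k =>
    rw [PowerSeries.coeff_mul_C, PowerSeries.coeff_succ_mul_X, PowerSeries.coeff_mk,
      if_neg (Nat.succ_ne_zero k), PowerSeries.coeff_mul_C, PowerSeries.coeff_X]
    by_cases hk : k = 0
    · subst hk; simp
    · rw [if_neg hk, if_neg (by omega)]
      ring

theorem newton_prod (γ : Multiset ℂ) :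
    (PowerSeries.X : PowerSeries ℂ) * PowerSeries.derivative ℂ
      ((γ.map fun x => (1 - PowerSeries.C x * PowerSeries.X : PowerSeries ℂ)).prod) =
      -(PowerSeries.mk (fun k : ℕ => if k = 0 then (0 : ℂ) else (γ.map fun x => x ^ k).sum)) *
        (γ.map fun x => (1 - PowerSeries.C x * PowerSeries.X : PowerSeries ℂ)).prod := by
  induction γ using Multiset.induction_on with
  | empty =>
    simp only [Multiset.map_zero, Multiset.prod_zero, Multiset.sum_zero, ite_self]
    rw [Derivation.map_one_eq_zero, mul_zero]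
    have : (PowerSeries.mk (fun _ : ℕ => (0 : ℂ))) = 0 := by ext k; simp
    rw [this, neg_zero, zero_mul]
  | cons x γ ih =>
    rw [Multiset.map_cons, Multiset.prod_cons, Derivation.leibniz, smul_eq_mul, smul_eq_mul,
      map_sub, Derivation.map_one_eq_zero, Derivation.leibniz, PowerSeries.derivative_X,
      PowerSeries.derivative_C, smul_zero, add_zero, smul_eq_mul, mul_one, zero_sub]
    have hp : (PowerSeries.mk (fun k : ℕ => if k = 0 then (0 : ℂ) else
        (((x ::ₘ γ).map fun x => x ^ k)).sum)) =
        PowerSeries.mk (fun k : ℕ => if k = 0 then (0 : ℂ) else x ^ k) +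
        PowerSeries.mk (fun k : ℕ => if k = 0 then (0 : ℂ) else (γ.map fun x => x ^ k).sum) := by
      ext k
      rw [map_add, PowerSeries.coeff_mk, PowerSeries.coeff_mk, PowerSeries.coeff_mk]
      by_cases hk : k = 0
      · simp [hk]
      · simp [hk]
    rw [hp]
    linear_combination (1 - PowerSeries.C x * PowerSeries.X : PowerSeries ℂ) * ih +
      (γ.map fun x => (1 - PowerSeries.C x * PowerSeries.X : PowerSeries ℂ)).prod *
        newton_gx x

theorem newton (a c : ℕ → ℂ) (M : ℕ) (h0 : a 0 = 1) (hM : ∀ k, M ≤ k → a k = 0)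
    (h : ∀ k : ℕ, 1 ≤ k → (k : ℂ) * a k = ∑ j ∈ Finset.Icc 1 k, c j * a (k - j)) :
    ∃ γ : Multiset ℂ, γ.card ≤ M ∧ ∀ k : ℕ, 1 ≤ k → c k = -(γ.map fun x => x ^ k).sum := by
  set A : ℂ[X] := ∑ k ∈ Finset.range M, C (a k) * X ^ k with hA
  have hcoeff : ∀ k, A.coeff k = a k := by
    intro k
    rw [hA, Polynomial.finsetSum_coeff]
    simp only [Polynomial.coeff_C_mul, Polynomial.coeff_X_pow]
    rw [Finset.sum_eq_single k]
    · simp
    · intro b _ hb
      rw [if_neg (Ne.symm hb), mul_zero]
    · intro hk
      rw [Finset.mem_range, not_lt] at hk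
      rw [hM k hk, zero_mul]
  have hA0 : A ≠ 0 := by
    intro h1
    have := hcoeff 0
    rw [h1, Polynomial.coeff_zero, h0] at this
    exact zero_ne_one this
  have hdeg : A.natDegree ≤ M := by
    rw [Polynomial.natDegree_le_iff_coeff_eq_zero]
    intro N hN
    rw [hcoeff, hM N hN.le]
  have hroot : ∀ r ∈ A.roots, r ≠ 0 := by
    intro r hr hr0
    rw [Polynomial.mem_roots hA0, hr0, Polynomial.IsRoot, ← Polynomial.coeff_zero_eq_eval_zero,
      hcoeff, h0] at hr
    exact one_ne_zero hr
  have hprod : A = ((A.roots.map (fun r => r⁻¹)).map fun x => (1 - C x * X : ℂ[X])).prod := by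
    have hsp := (IsAlgClosed.splits A).eq_prod_roots
    have e1 : (A.roots.map fun r => (X - C r : ℂ[X])).prod =
        C ((A.roots.map fun r => -r).prod) *
          ((A.roots.map (fun r => r⁻¹)).map fun x => (1 - C x * X : ℂ[X])).prod := by
      rw [Multiset.map_map, map_multiset_prod (C : ℂ →+* ℂ[X]), Multiset.map_map,
        ← Multiset.prod_map_mul]
      apply congrArg
      apply Multiset.map_congr rfl
      intro r hr
      simp only [Function.comp_apply]
      have hr0 := hroot r hr
      rw [mul_sub, mul_one, ← mul_assoc, ← C_mul, neg_mul, mul_inv_cancel₀ hr0, C_neg, C_neg, C_1]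
      ring
    have e2 : A.leadingCoeff * (A.roots.map fun r => -r).prod = 1 := by
      have h1 := hcoeff 0
      rw [h0, Polynomial.coeff_zero_eq_eval_zero, hsp, Polynomial.eval_mul, Polynomial.eval_C,
        Polynomial.eval_multiset_prod, Multiset.map_map] at h1
      rw [← h1]
      congr 2
      apply Multiset.map_congr rfl
      intro r _
      simp
    conv_lhs => rw [hsp]
    rw [e1, ← mul_assoc, ← C_mul, e2, C_1, one_mul]
  set γ := A.roots.map (fun r => r⁻¹) with hγ
  have hps : (A : PowerSeries ℂ) =
      (γ.map fun x => (1 - PowerSeries.C x * PowerSeries.X : PowerSeries ℂ)).prod := by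
    have h1 := congrArg (fun P : ℂ[X] => (Polynomial.coeToPowerSeries.ringHom P : PowerSeries ℂ)) hprod
    beta_reduce at h1
    rw [map_multiset_prod, Multiset.map_map, Polynomial.coeToPowerSeries.ringHom_apply] at h1
    rw [h1]
    apply congrArg
    apply Multiset.map_congr rfl
    intro x _
    simp [Polynomial.coeToPowerSeries.ringHom_apply]
  refine ⟨γ, ?_, ?_⟩
  · rw [hγ, Multiset.card_map]
    exact (Polynomial.card_roots' A).trans hdeg
  · have hmain := newton_prod γ
    rw [← hps] at hmain
    have hk : ∀ k : ℕ, 1 ≤ k → ∑ j ∈ Finset.Icc 1 k,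
        (c j + (γ.map fun x => x ^ j).sum) * a (k - j) = 0 := by
      intro k hk
      have h1 := congrArg (PowerSeries.coeff k) hmain
      obtain ⟨k', rfl⟩ : ∃ k', k = k' + 1 := ⟨k - 1, by omega⟩
      rw [PowerSeries.coeff_succ_X_mul, PowerSeries.coeff_derivative, Polynomial.coeff_coe, hcoeff,
        neg_mul, map_neg, PowerSeries.coeff_mul,
        Finset.Nat.sum_antidiagonal_eq_sum_range_succ_mk, Finset.sum_range_succ'] at h1
      simp only [PowerSeries.coeff_mk, Polynomial.coeff_coe, hcoeff, if_true, zero_mul,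
        add_zero, Nat.succ_ne_zero, if_false] at h1
      have h2 : ∑ j ∈ Finset.Icc 1 (k' + 1), (γ.map fun x => x ^ j).sum * a (k' + 1 - j) =
          ∑ j ∈ Finset.range (k' + 1), (γ.map fun x => x ^ (j + 1)).sum * a (k' + 1 - (j + 1)) := by
        rw [Finset.range_eq_Ico, Finset.sum_Ico_add'
          (fun j => (γ.map fun x => x ^ j).sum * a (k' + 1 - j)) 0 (k' + 1) 1]
        apply Finset.sum_congr _ (fun _ _ => rfl)
        ext j
        simp only [Finset.mem_Icc, Finset.mem_Ico]
        omega
      have h3 := h (k' + 1) hk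
      simp only [add_mul]
      rw [Finset.sum_add_distrib, ← h3, h2]
      simp only [Nat.add_sub_add_right] at h1 ⊢
      push_cast
      linear_combination h1
    intro k
    induction k using Nat.strong_induction_on with
    | _ k ih =>
      intro hk1
      have h1 := hk k hk1
      rw [Finset.sum_eq_single k] at h1
      · rw [Nat.sub_self, h0, mul_one] at h1
        exact eq_neg_of_add_eq_zero_left h1
      · intro j hj hjk
        rw [Finset.mem_Icc] at hj
        rw [ih j (by omega) hj.1, neg_add_cancel, zero_mul]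
      · intro hn
        exact absurd (Finset.mem_Icc.2 ⟨hk1, le_rfl⟩) hn

end Pool.Agent.Helper48.ST
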