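import Pool.Agent.Helper48.ST.IsoStr

/-!
ST-57. The data `DatP` satisfy the hypotheses `Ok`.

Proof. `V = Vs n ℓ`, `κ = card V`. `diag`: `K u u = 0`. `lk u v = ∑_j (v.1 - u.1) u.2 + (u.1 - v.1) v.2 = - ∑_j (v.1 j - u.1 j)(v.2 j - u.2 j)`, so `Unl U ↔ Iso U` (`unl_iff`), and `iso_card_le` is `le`. `rigid`: `U = u₀ + W` by `iso_coset`. Suppose
`lk u v` is the same for all `u ∈ U`, that is `Q (v - u₀ - x)` is the same for all `x ∈ W`; with `v' = v - u₀`, `Q (v' - x) = Q v' + Q x - pol x v'`, `2 Q x = pol x x = 0` so `Q x = 0` (`ℓ ≠ 2`), hence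
`pol x v' = pol 0 v' = 0` for all `x ∈ W`, so `v' ∈ W` and `v ∈ U`, contradiction.
-/

set_option autoImplicit false

open Polynomial
open scoped Classical

namespace Pool.Agent.Helper48.ST

theorem okdat_lk {F : Type} [Field F] {ℓ : ℕ} (g : Lg F ℓ) {n : ℕ} (a : Fin n → F[X])
    (pa pb : Ir F → Fin n) (S : Finset (Ir F)) (y y' : Pr F n ℓ S) (u v : Vs n ℓ × Vs n ℓ) :
    (DatP g a pa pb S y y').lk u v = -∑ j, (v.1.1 j - u.1.1 j) * (v.2.1 j - u.2.1 j) := by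
  unfold Dat.lk
  change ∑ j, (v.1.1 j - u.1.1 j) * u.2.1 j + ∑ j, (u.1.1 j - v.1.1 j) * v.2.1 j = _
  rw [← Finset.sum_add_distrib, ← Finset.sum_neg_distrib]
  exact Finset.sum_congr rfl fun j _ => by ring

theorem unl_iff {F : Type} [Field F] {ℓ : ℕ} (g : Lg F ℓ) {n : ℕ} (a : Fin n → F[X])
    (pa pb : Ir F → Fin n) (S : Finset (Ir F)) (y y' : Pr F n ℓ S)
    (U : Finset (Vs n ℓ × Vs n ℓ)) : (DatP g a pa pb S y y').Unl U ↔ Iso U := by
  unfold Dat.Unl Iso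
  refine forall₂_congr fun u _ => forall₂_congr fun v _ => ?_
  rw [okdat_lk, neg_eq_zero]

theorem datP_ok {F : Type} [Field F] {ℓ : ℕ} [Fact ℓ.Prime] (h2 : ℓ ≠ 2) (g : Lg F ℓ) {n : ℕ}
    (hn : ¬ ℓ ∣ n) (a : Fin n → F[X]) (pa pb : Ir F → Fin n) (S : Finset (Ir F))
    (y y' : Pr F n ℓ S) : (DatP g a pa pb S y y').Ok (Fintype.card (Vs n ℓ)) := by
  refine ⟨?_, ?_, ?_⟩
  · intro u
    change ∑ j, (u.1.1 j - u.1.1 j) * u.2.1 j = 0
    exact Finset.sum_eq_zero fun j _ => by rw [sub_self, zero_mul]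
  · intro U hU
    exact iso_card_le hn U ((unl_iff g a pa pb S y y' U).1 hU)
  · intro U hU hc v hv
    by_contra hcon
    push Not at hcon
    obtain ⟨W, u₀, hW1, hW2, hW3⟩ := iso_coset hn U ((unl_iff g a pa pb S y y' U).1 hU) hc
    have hu0 : u₀ ∈ U := (hW1 u₀).2 (by rw [sub_self]; exact W.zero_mem)
    apply hv
    rw [hW1]
    apply hW3
    intro x hx
    have hux : u₀ + x ∈ U := (hW1 _).2 (by rw [add_sub_cancel_left]; exact hx)
    have h1 := hcon u₀ hu0 (u₀ + x) hux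
    rw [okdat_lk, okdat_lk, neg_inj] at h1
    have h3 : (2 : ZMod ℓ) ≠ 0 := by
      intro h4
      have h5 : ((2 : ℕ) : ZMod ℓ) = 0 := by exact_mod_cast h4
      rw [ZMod.natCast_eq_zero_iff] at h5
      exact h2 ((Nat.prime_dvd_prime_iff_eq (Fact.out : ℓ.Prime) Nat.prime_two).1 h5)
    have h4 : (2 : ZMod ℓ) * ∑ j, x.1.1 j * x.2.1 j = 0 := by
      rw [← hW2 x hx x hx, pol, Finset.mul_sum]
      exact Finset.sum_congr rfl fun j _ => by ring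
    have h5 : ∑ j, x.1.1 j * x.2.1 j = 0 := (mul_eq_zero.1 h4).resolve_left h3
    have h6 : pol x (v - u₀) = ∑ j, (v.1.1 j - u₀.1.1 j) * (v.2.1 j - u₀.2.1 j) -
        ∑ j, (v.1.1 j - (u₀ + x).1.1 j) * (v.2.1 j - (u₀ + x).2.1 j) +
        ∑ j, x.1.1 j * x.2.1 j := by
      rw [pol, ← Finset.sum_sub_distrib, ← Finset.sum_add_distrib]
      refine Finset.sum_congr rfl fun j _ => ?_
      change x.1.1 j * (v.2.1 j - u₀.2.1 j) + x.2.1 j * (v.1.1 j - u₀.1.1 j) =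
        (v.1.1 j - u₀.1.1 j) * (v.2.1 j - u₀.2.1 j) -
          (v.1.1 j - (u₀.1.1 j + x.1.1 j)) * (v.2.1 j - (u₀.2.1 j + x.2.1 j)) +
          x.1.1 j * x.2.1 j
      ring
    rw [h6, h1, h5, sub_self, zero_add]

end Pool.Agent.Helper48.ST
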