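import Pool.Agent.Helper48.ST.LSets
import Pool.Agent.Helper48.ST.FamProd
import Pool.Agent.Helper48.ST.Defs2

/-!
ST-53. The weight of the family of parts of a colouring.

Proof. Let `s u = parts t c u`, `c P = (w P, z P)`. The parts are pairwise disjoint with union `t`: `∑_u card (s u) = card t`, and for every function `f`, `∑_u ∑_{P ∈ s u} f u P = ∑_{P ∈ t} f (c P) P`. So (`D = DatP g a pa pb S y y'`,
`y = (λ, e)`, `y' = (s, r)`) the phase is `∑_{P ∈ t} (A (c P) deg P + ∑_{π ∈ S} G π (c P) L(π,P)) + ∑_{P, R ∈ t} K (c P) (c R) L(P,R)`, and `K u u = 0`, so the last sum is over `P ≠ R`, where `L(P,R) = L(R,P)`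
(`L_ir_symm`) and `K (c P) (c R) = ∑_j ((w R) j - (w P) j) (z P) j`. Also `L(π,P) = L(P,π)` (`π ∉ t`). Expanding `G π (c P) = (w_a - w_b + e π)(z_b - z_a) + (w_a - w_b + e π) r π` and
`A` one finds `∑_P EP P (z P) + ∑_{π ∈ S} r π * ES π + EI s`.
-/

set_option autoImplicit false

open Polynomial
open scoped Classical

namespace Pool.Agent.Helper48.ST

theorem phaseParts_sum {F : Type} [Field F] {Ω : Type} [Fintype Ω] {A : Type} [AddCommMonoid A]
    (f : Ω → Ir F → A) (t : Finset (Ir F)) (c : {P : Ir F // P ∈ t} → Ω) :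
    ∑ u, ∑ P ∈ parts t c u, f u P = ∑ P : {P : Ir F // P ∈ t}, f (c P) P.1 := by
  have h1 : ∀ u, ∑ P ∈ parts t c u, f u P =
      ∑ P : {P : Ir F // P ∈ t}, (if c P = u then f u P.1 else 0) := by
    intro u
    unfold parts
    rw [Finset.sum_filter, ← Finset.sum_attach]
    apply Finset.sum_congr rfl
    rintro ⟨P, hP⟩ _
    by_cases h : c ⟨P, hP⟩ = u
    · rw [if_pos h, if_pos ⟨hP, h⟩]
    · rw [if_neg h, if_neg]
      rintro ⟨_, h'⟩
      exact h h'
  rw [Finset.sum_congr rfl fun u _ => h1 u, Finset.sum_comm]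
  apply Finset.sum_congr rfl
  intro P _
  rw [Finset.sum_ite_eq]
  simp

theorem phaseParts_card {F : Type} [Field F] {Ω : Type} [Fintype Ω]
    (t : Finset (Ir F)) (c : {P : Ir F // P ∈ t} → Ω) :
    ∑ u, (parts t c u).card = t.card := by
  have h := phaseParts_sum (fun (_ : Ω) (_ : Ir F) => (1 : ℕ)) t c
  simp only [Finset.sum_const, smul_eq_mul, mul_one] at h
  rw [h, Finset.card_univ, Fintype.card_coe]

theorem phaseParts_phase {F : Type} [Field F] {ℓ : ℕ} {Ω : Type} [Fintype Ω] (D : Dat F ℓ Ω)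
    (g : Lg F ℓ) (S t : Finset (Ir F)) (c : {P : Ir F // P ∈ t} → Ω) :
    D.phase g S (parts t c) =
      ∑ P : {P : Ir F // P ∈ t}, (D.A (c P) * (P.1.1.natDegree : ZMod ℓ) +
        ∑ π ∈ S, D.G π (c P) * g.L π.1 P.1.1) +
      ∑ P : {P : Ir F // P ∈ t}, ∑ R : {P : Ir F // P ∈ t}, D.K (c P) (c R) * g.L P.1.1 R.1.1 := by
  unfold Dat.phase
  congr 1
  · rw [← phaseParts_sum (fun u P => D.A u * (P.1.natDegree : ZMod ℓ) +
        ∑ π ∈ S, D.G π u * g.L π.1 P.1) t c]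
    refine Finset.sum_congr rfl fun u _ => ?_
    rw [Finset.sum_add_distrib]
    congr 1
    · unfold dgs
      rw [Nat.cast_sum, Finset.mul_sum]
    · rw [Finset.sum_comm]
      refine Finset.sum_congr rfl fun π _ => ?_
      unfold Lg.LL
      rw [Finset.sum_singleton, Finset.mul_sum]
  · rw [← phaseParts_sum (fun u P => ∑ R : {P : Ir F // P ∈ t}, D.K u (c R) * g.L P.1 R.1.1) t c]
    refine Finset.sum_congr rfl fun u _ => ?_
    have h1 : ∀ P : Ir F, ∑ R : {P : Ir F // P ∈ t}, D.K u (c R) * g.L P.1 R.1.1 =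
        ∑ v, ∑ R ∈ parts t c v, D.K u v * g.L P.1 R.1 := fun P =>
      (phaseParts_sum (fun v R => D.K u v * g.L P.1 R.1) t c).symm
    rw [Finset.sum_congr rfl fun P _ => h1 P, Finset.sum_comm]
    refine Finset.sum_congr rfl fun v _ => ?_
    unfold Lg.LL
    rw [Finset.mul_sum]
    refine Finset.sum_congr rfl fun P _ => ?_
    rw [Finset.mul_sum]

theorem W_parts {F : Type} [Field F] {ℓ : ℕ} [Fact ℓ.Prime] (g : Lg F ℓ) (h2 : ℓ ≠ 2)
    {n : ℕ} (a : Fin n → F[X]) (pa pb : Ir F → Fin n) (S t : Finset (Ir F)) (ht : Disjoint t S)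
    (κ : ℕ) (y y' : Pr F n ℓ S) (c : {P : Ir F // P ∈ t} → Vs n ℓ × Vs n ℓ) :
    (DatP g a pa pb S y y').W g κ S (parts t c) = ((κ : ℂ)⁻¹) ^ t.card *
      e (∑ P, EP g a pa pb S t y (fun R => (c R).1) P (c P).2 +
        ∑ π ∈ S, ex y'.2 π * ES g pa pb S t y (fun R => (c R).1) π +
        EI t (fun R => (c R).1) y'.1) := by
  unfold Dat.W
  rw [phaseParts_card, phaseParts_phase]
  congr 2
  have hL : ∀ π ∈ S, ∀ P : {P : Ir F // P ∈ t}, g.L P.1.1 π.1 = g.L π.1 P.1.1 := by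
    intro π hπ P
    refine L_ir_symm g h2 ?_
    intro h
    exact Finset.disjoint_left.1 ht P.2 (h ▸ hπ)
  have hK : ∀ P R : {P : Ir F // P ∈ t}, (DatP g a pa pb S y y').K (c P) (c R) =
      ∑ j, ((c R).1.1 j - (c P).1.1 j) * (c P).2.1 j := fun P R => rfl
  have hES : ∑ π ∈ S, ex y'.2 π * ES g pa pb S t y (fun R => (c R).1) π =
      ∑ P : {P : Ir F // P ∈ t}, ∑ π ∈ S, ((c P).1.1 (pa π) - (c P).1.1 (pb π) + ex y.2 π) *
        ex y'.2 π * g.L π.1 P.1.1 := by
    rw [Finset.sum_comm]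
    refine Finset.sum_congr rfl fun π hπ => ?_
    unfold ES
    rw [Finset.mul_sum]
    refine Finset.sum_congr rfl fun P _ => ?_
    rw [hL π hπ P]
    ring
  rw [hES]
  unfold EI
  rw [← Finset.sum_add_distrib, ← Finset.sum_add_distrib, ← Finset.sum_add_distrib]
  refine Finset.sum_congr rfl fun P _ => ?_
  have hA : (DatP g a pa pb S y y').A (c P) = ∑ j, y'.1.1 j * (c P).1.1 j +
      ∑ j, y.1.1 j * (c P).2.1 j + ∑ i, ∑ j ∈ Finset.Ioi i,
      ((c P).1.1 i - (c P).1.1 j) * ((c P).2.1 j - (c P).2.1 i) *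
        g.toFun (a i - a j).leadingCoeff := rfl
  have hG : ∑ π ∈ S, (DatP g a pa pb S y y').G π (c P) * g.L π.1 P.1.1 =
      ∑ π ∈ S, ((c P).1.1 (pa π) - (c P).1.1 (pb π) + ex y.2 π) *
        ((c P).2.1 (pb π) - (c P).2.1 (pa π)) * g.L π.1 P.1.1 +
      ∑ π ∈ S, ((c P).1.1 (pa π) - (c P).1.1 (pb π) + ex y.2 π) * ex y'.2 π *
        g.L π.1 P.1.1 := by
    rw [← Finset.sum_add_distrib]
    refine Finset.sum_congr rfl fun π _ => ?_
    have hG1 : (DatP g a pa pb S y y').G π (c P) =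
      ((c P).1.1 (pa π) - (c P).1.1 (pb π) + ex y.2 π) *
        ((c P).2.1 (pb π) - (c P).2.1 (pa π) + ex y'.2 π) := rfl
    rw [hG1]
    ring
  have hKK : ∑ R : {P : Ir F // P ∈ t}, (DatP g a pa pb S y y').K (c P) (c R) *
        g.L P.1.1 R.1.1 =
      ∑ R ∈ Finset.univ.erase P, (∑ j, ((c R).1.1 j - (c P).1.1 j) * (c P).2.1 j) *
        g.L R.1.1 P.1.1 := by
    rw [← Finset.add_sum_erase _ _ (Finset.mem_univ P)]
    have h0 : (DatP g a pa pb S y y').K (c P) (c P) = 0 := by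
      rw [hK]
      refine Finset.sum_eq_zero fun j _ => ?_
      rw [sub_self, zero_mul]
    rw [h0, zero_mul, zero_add]
    refine Finset.sum_congr rfl fun R hR => ?_
    rw [hK, L_ir_symm g h2]
    intro h
    exact (Finset.ne_of_mem_erase hR) (Subtype.ext h.symm)
  rw [hG, hKK, hA]
  unfold EP
  ring

end Pool.Agent.Helper48.ST
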