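import Pool.Agent.Helper48.ST.Cards

/-!
ST-16. Bounds and positivity for the von Mangoldt sums `cc χ k`.

Proof. `q^k = ∑_{d ∣ k} d * card (IrEq d)` (`sum_divisors`). `norm_cc_le`: termwise. `cc_pos`: the expression is
`∑_{d ∣ k} d ∑_{P ∈ IrEq d} (3 + 4 Re (u^k w) + Re ((u^k w)^2))`, `w = χ(P)^(k/d)`, and each bracket is `≥ 0`: if `w = 0` it is `3`, if `‖w‖ = 1` and
`z = u^k w = a + b i`, `a^2 + b^2 = 1`, it is `3 + 4a + a^2 - b^2 = 2 (1 + a)^2`. (`k/d ≥ 1`, so `χ P = 0` gives `w = 0`.)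
`cc_sub`: the terms with `d < k` have `d ≤ k/2` and norm at most `d * card (IrEq d) ≤ q^d` (`card_IrEq`), and `∑_{d=1}^{m} q^d ≤ 2 q^m` for `q ≥ 2`.
-/

set_option autoImplicit false

open Polynomial
open scoped Classical

namespace Pool.Agent.Helper48.ST

variable {F : Type} [Field F] [Fintype F]

theorem pos_bracket (z : ℂ) (hz : z = 0 ∨ ‖z‖ = 1) : 0 ≤ 3 + 4 * z.re + (z ^ 2).re := by
  rcases hz with h | h
  · rw [h]
    simp
  · have h1 : z.re ^ 2 + z.im ^ 2 = 1 := by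
      have h2 := Complex.normSq_apply z
      have h3 : Complex.normSq z = 1 := by
        rw [Complex.normSq_eq_norm_sq, h]
        norm_num
      rw [h3] at h2
      nlinarith [h2]
    have h4 : (z ^ 2).re = z.re ^ 2 - z.im ^ 2 := by
      rw [sq, Complex.mul_re]
      ring
    rw [h4]
    nlinarith [sq_nonneg (1 + z.re)]

theorem pos_cast_sum (k : ℕ) (hk : 1 ≤ k) :
    ∑ d ∈ k.divisors, (d : ℝ) * ((IrEq F d).card : ℝ) = (Fintype.card F : ℝ) ^ k := by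
  have h := sum_divisors (F := F) k hk
  have h2 : ((∑ d ∈ k.divisors, d * (IrEq F d).card : ℕ) : ℝ) = ((Fintype.card F ^ k : ℕ) : ℝ) := by
    rw [h]
  push_cast at h2
  exact h2

theorem pos_term_norm (χ : F[X] → ℂ) (h : ∀ P : Ir F, ‖χ P.1‖ ≤ 1) (d m : ℕ) :
    ‖(d : ℂ) * ∑ P ∈ IrEq F d, χ P.1 ^ m‖ ≤ (d : ℝ) * ((IrEq F d).card : ℝ) := by
  rw [norm_mul, Complex.norm_natCast]
  apply mul_le_mul_of_nonneg_left _ (Nat.cast_nonneg d)
  refine (norm_sum_le _ _).trans ?_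
  calc ∑ P ∈ IrEq F d, ‖χ P.1 ^ m‖ ≤ ∑ P ∈ IrEq F d, (1 : ℝ) := by
        apply Finset.sum_le_sum
        intro P _
        rw [norm_pow]
        exact pow_le_one₀ (norm_nonneg _) (h P)
    _ = ((IrEq F d).card : ℝ) := by simp

theorem pos_geom (q : ℝ) (hq : 2 ≤ q) (m : ℕ) : ∑ d ∈ Finset.range (m + 1), q ^ d ≤ 2 * q ^ m := by
  induction m with
  | zero => simp
  | succ m ih =>
    rw [Finset.sum_range_succ]
    have h0 : 0 < q ^ m := by positivity
    have h1 : 2 * q ^ m ≤ q ^ (m + 1) := by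
      rw [pow_succ]
      nlinarith
    linarith

theorem pos_card_two : (2 : ℝ) ≤ (Fintype.card F : ℝ) := by
  have h : 1 < Fintype.card F := Fintype.one_lt_card
  exact_mod_cast h

theorem norm_cc_le (χ : F[X] → ℂ) (h : ∀ P : Ir F, ‖χ P.1‖ ≤ 1) (k : ℕ) (hk : 1 ≤ k) :
    ‖cc χ k‖ ≤ (Fintype.card F : ℝ) ^ k := by
  unfold cc
  rw [← pos_cast_sum k hk]
  refine (norm_sum_le _ _).trans ?_
  apply Finset.sum_le_sum
  intro d _
  exact pos_term_norm χ h d (k / d)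

theorem cc_pos (χ χ' : F[X] → ℂ) (h : ∀ P : Ir F, χ P.1 = 0 ∨ ‖χ P.1‖ = 1)
    (h' : ∀ P : Ir F, χ' P.1 = χ P.1 ^ 2) (u : ℂ) (hu : ‖u‖ = 1) (k : ℕ) (hk : 1 ≤ k) :
    0 ≤ 3 * (Fintype.card F : ℝ) ^ k + 4 * (u ^ k * cc χ k).re + (u ^ (2 * k) * cc χ' k).re := by
  have e1 : 3 * (Fintype.card F : ℝ) ^ k = ∑ d ∈ k.divisors, (d : ℝ) * ∑ P ∈ IrEq F d, (3 : ℝ) := by
    rw [← pos_cast_sum k hk, Finset.mul_sum]
    apply Finset.sum_congr rfl
    intro d _
    rw [Finset.sum_const, nsmul_eq_mul]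
    ring
  have e2 : (u ^ k * cc χ k).re = ∑ d ∈ k.divisors, (d : ℝ) * ∑ P ∈ IrEq F d,
      (u ^ k * χ P.1 ^ (k / d)).re := by
    unfold cc
    rw [Finset.mul_sum, Complex.re_sum]
    apply Finset.sum_congr rfl
    intro d _
    have e3 : u ^ k * ((d : ℂ) * ∑ P ∈ IrEq F d, χ P.1 ^ (k / d)) =
        ((d : ℝ) : ℂ) * ∑ P ∈ IrEq F d, u ^ k * χ P.1 ^ (k / d) := by
      rw [← Finset.mul_sum]
      push_cast
      ring
    rw [e3, Complex.re_ofReal_mul, Complex.re_sum]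
  have e3 : (u ^ (2 * k) * cc χ' k).re = ∑ d ∈ k.divisors, (d : ℝ) * ∑ P ∈ IrEq F d,
      ((u ^ k * χ P.1 ^ (k / d)) ^ 2).re := by
    unfold cc
    rw [Finset.mul_sum, Complex.re_sum]
    apply Finset.sum_congr rfl
    intro d _
    have e4 : u ^ (2 * k) * ((d : ℂ) * ∑ P ∈ IrEq F d, χ' P.1 ^ (k / d)) =
        ((d : ℝ) : ℂ) * ∑ P ∈ IrEq F d, (u ^ k * χ P.1 ^ (k / d)) ^ 2 := by
      have e5 : ∑ P ∈ IrEq F d, (u ^ k * χ P.1 ^ (k / d)) ^ 2 =
          u ^ (2 * k) * ∑ P ∈ IrEq F d, χ' P.1 ^ (k / d) := by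
        rw [Finset.mul_sum]
        apply Finset.sum_congr rfl
        intro P _
        rw [h' P]
        ring
      rw [e5]
      push_cast
      ring
    rw [e4, Complex.re_ofReal_mul, Complex.re_sum]
  rw [e1, e2, e3, Finset.mul_sum, ← Finset.sum_add_distrib, ← Finset.sum_add_distrib]
  apply Finset.sum_nonneg
  intro d hd
  have hd' := Nat.mem_divisors.mp hd
  have hkd : k / d ≠ 0 := by
    have h1 : 0 < k / d := Nat.div_pos (Nat.le_of_dvd (by omega) hd'.1)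
      (Nat.pos_of_dvd_of_pos hd'.1 (by omega))
    omega
  have e6 : (d : ℝ) * ∑ P ∈ IrEq F d, (3 : ℝ) + 4 * ((d : ℝ) * ∑ P ∈ IrEq F d,
      (u ^ k * χ P.1 ^ (k / d)).re) + (d : ℝ) * ∑ P ∈ IrEq F d, ((u ^ k * χ P.1 ^ (k / d)) ^ 2).re =
      (d : ℝ) * ∑ P ∈ IrEq F d, (3 + 4 * (u ^ k * χ P.1 ^ (k / d)).re +
        ((u ^ k * χ P.1 ^ (k / d)) ^ 2).re) := by
    rw [Finset.sum_add_distrib, Finset.sum_add_distrib, ← Finset.mul_sum]
    ring
  rw [e6]
  apply mul_nonneg (Nat.cast_nonneg d)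
  apply Finset.sum_nonneg
  intro P _
  apply pos_bracket
  rcases h P with h0 | h1
  · left
    rw [h0, zero_pow hkd, mul_zero]
  · right
    rw [norm_mul, norm_pow, norm_pow, hu, h1]
    simp

theorem cc_sub (χ : F[X] → ℂ) (h : ∀ P : Ir F, ‖χ P.1‖ ≤ 1) (k : ℕ) (hk : 1 ≤ k) :
    ‖cc χ k - (k : ℂ) * ∑ P ∈ IrEq F k, χ P.1‖ ≤ 2 * (Fintype.card F : ℝ) ^ (k / 2) := by
  have e1 : cc χ k - (k : ℂ) * ∑ P ∈ IrEq F k, χ P.1 =
      ∑ d ∈ k.properDivisors, (d : ℂ) * ∑ P ∈ IrEq F d, χ P.1 ^ (k / d) := by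
    unfold cc
    rw [← Nat.insert_self_properDivisors (by omega : k ≠ 0),
      Finset.sum_insert (by simp [Nat.mem_properDivisors]), Nat.div_self (by omega)]
    simp only [pow_one]
    ring
  rw [e1]
  refine (norm_sum_le _ _).trans ?_
  calc ∑ d ∈ k.properDivisors, ‖(d : ℂ) * ∑ P ∈ IrEq F d, χ P.1 ^ (k / d)‖
      ≤ ∑ d ∈ k.properDivisors, (Fintype.card F : ℝ) ^ d := by
        apply Finset.sum_le_sum
        intro d _
        refine (pos_term_norm χ h d (k / d)).trans ?_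
        exact_mod_cast card_IrEq (F := F) d
    _ ≤ ∑ d ∈ Finset.range (k / 2 + 1), (Fintype.card F : ℝ) ^ d := by
        apply Finset.sum_le_sum_of_subset_of_nonneg
        · intro d hd
          rw [Nat.mem_properDivisors] at hd
          rw [Finset.mem_range]
          obtain ⟨⟨m, hm⟩, h2⟩ := hd
          have hm2 : 2 ≤ m := by
            by_contra hcon
            push Not at hcon
            interval_cases m <;> omega
          have h3 : d * 2 ≤ k := by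
            rw [hm]
            exact Nat.mul_le_mul_left d hm2
          omega
        · intro d _ _
          positivity
    _ ≤ 2 * (Fintype.card F : ℝ) ^ (k / 2) := pos_geom _ pos_card_two (k / 2)

end Pool.Agent.Helper48.ST
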