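import Pool.Agent.Helper48.ST.Radius

/-!
ST-15. The 3-4-1 inequality gives a zero free region (uses only `re_div_one_sub` of ST-14).

Proof. Let `x₀ ∈ γ`, `x₀ ≠ 0` (else trivial: `70 M ≥ 1`), `‖x₀‖ = q (1 - δ)`, `0 ≤ δ < 1`, and `u = conj x₀ / ‖x₀‖`, so `u x₀ = ‖x₀‖`. Multiply the
positivity inequality by `(r/q)^k`, `r = 1 - η`, `η = 1/(10 M)`, and sum over `k ≥ 1` (all series are geometric, `Z(w) = w/(1-w)`):
`0 ≤ 3 Z(r) - 4 ∑_{x ∈ γ} Re Z(u x r/q) - ∑_{y ∈ γ'} Re Z(u^2 y r/q)`. The arguments have norm `≤ r < 1`, so by `re_div_one_sub` every term is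
`≥ -1/2`, and the term `x = x₀` is `Z(r (1-δ)) = 1/(1 - r(1-δ)) - 1 ≥ 1/(η+δ) - 1`. As `Z(r) = 1/η - 1`:
`0 ≤ 3/η - 3 - 4/(η+δ) + 4 + 2 M + M/2`, hence `4/(η+δ) ≤ 30 M + 1 + 5M/2 ≤ 33.5 M`, `η + δ ≥ 4/(33.5 M)` and
`δ ≥ (4/33.5 - 1/10)/M ≥ 1/(70 M)`.
-/

set_option autoImplicit false

open Polynomial
open scoped Classical

namespace Pool.Agent.Helper48.ST

private theorem hasSum_geo (w : ℂ) (hw : ‖w‖ < 1) : HasSum (fun k : ℕ => w ^ (k + 1)) (w / (1 - w)) := by
  have h := (hasSum_geometric_of_norm_lt_one hw).mul_left w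
  have e : (fun k : ℕ => w ^ (k + 1)) = fun k : ℕ => w * w ^ k := by
    funext k
    rw [pow_succ, mul_comm]
  rw [e, div_eq_mul_inv]
  exact h

private theorem hasSum_multiset (s : Multiset ℂ) (f : ℂ → ℕ → ℂ) (g : ℂ → ℂ)
    (h : ∀ x ∈ s, HasSum (f x) (g x)) :
    HasSum (fun k => (s.map (fun x => f x k)).sum) ((s.map g).sum) := by
  induction s using Multiset.induction with
  | empty => simp
  | cons a s ih =>
    have h1 := h a (Multiset.mem_cons_self a s)
    have h2 := ih fun x hx => h x (Multiset.mem_cons_of_mem hx)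
    simpa using h1.add h2

private theorem re_sum_ge (s : Multiset ℂ) (g : ℂ → ℂ) (h : ∀ x ∈ s, -(1 / 2 : ℝ) ≤ (g x).re) :
    -((s.card : ℝ) / 2) ≤ ((s.map g).sum).re := by
  induction s using Multiset.induction with
  | empty => simp
  | cons a s ih =>
    have h1 := h a (Multiset.mem_cons_self a s)
    have h2 := ih fun x hx => h x (Multiset.mem_cons_of_mem hx)
    simp only [Multiset.card_cons, Multiset.map_cons, Multiset.sum_cons, Complex.add_re]
    push_cast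
    linarith

private theorem key_bound (m t : ℝ) (hm : 1 ≤ m) (ht1 : t ≤ 1) (ht : 1 - 1 / (70 * m) < t)
    (h : 0 ≤ 3 * (10 * m - 1) - 4 * ((1 / (1 - (1 - 1 / (10 * m)) * t) - 1) - (m - 1) / 2) + m / 2) : False := by
  have hm0 : 0 < m := by linarith
  have h70 : 0 < 70 * m := by positivity
  have h10 : 0 < 10 * m := by positivity
  have hη : 0 < 1 / (10 * m) := by positivity
  have hη1 : 1 / (10 * m) ≤ 1 / 10 := by
    rw [div_le_div_iff₀ h10 (by norm_num)]
    linarith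
  have ht0 : 0 ≤ t := by
    have : 1 / (70 * m) ≤ 1 := by
      rw [div_le_one h70]
      linarith
    linarith
  have hd0 : 0 < 1 - (1 - 1 / (10 * m)) * t := by nlinarith
  have hd : 1 - (1 - 1 / (10 * m)) * t ≤ 8 / (70 * m) := by
    have e : 8 / (70 * m) = 1 / (10 * m) + 1 / (70 * m) := by
      field_simp
      norm_num
    rw [e]
    nlinarith
  have h2 : 35 * m / 4 ≤ 1 / (1 - (1 - 1 / (10 * m)) * t) := by
    rw [le_div_iff₀ hd0]
    calc 35 * m / 4 * (1 - (1 - 1 / (10 * m)) * t) ≤ 35 * m / 4 * (8 / (70 * m)) := by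
          apply mul_le_mul_of_nonneg_left hd (by positivity)
      _ = 1 := by
          field_simp
          norm_num
  linarith

theorem zero_free (γ γ' : Multiset ℂ) (q : ℝ) (hq : 0 < q) (M : ℕ) (hM : 1 ≤ M)
    (hγ : γ.card ≤ M) (hγ' : γ'.card ≤ M) (h1 : ∀ x ∈ γ, ‖x‖ ≤ q) (h2 : ∀ x ∈ γ', ‖x‖ ≤ q)
    (hpos : ∀ u : ℂ, ‖u‖ = 1 → ∀ k : ℕ, 1 ≤ k →
      0 ≤ 3 * q ^ k - 4 * (u ^ k * (γ.map fun x => x ^ k).sum).re -
        (u ^ (2 * k) * (γ'.map fun x => x ^ k).sum).re) :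
    ∀ x ∈ γ, ‖x‖ ≤ q * (1 - 1 / (70 * (M : ℝ))) := by
  intro x₀ hx₀
  have hm : (1 : ℝ) ≤ (M : ℝ) := by exact_mod_cast hM
  set m : ℝ := (M : ℝ) with hmdef
  have hm0 : 0 < m := by linarith
  by_cases hx : x₀ = 0
  · rw [hx, norm_zero]
    have : 1 / (70 * m) ≤ 1 := by
      rw [div_le_one (by positivity)]
      linarith
    exact mul_nonneg hq.le (by linarith)
  by_contra hcon
  push Not at hcon
  have hn0 : 0 < ‖x₀‖ := norm_pos_iff.mpr hx
  set t : ℝ := ‖x₀‖ / q with htdef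
  have ht1 : t ≤ 1 := (div_le_one hq).mpr (h1 x₀ hx₀)
  have ht : 1 - 1 / (70 * m) < t := by
    rw [htdef, lt_div_iff₀ hq]
    linarith [mul_comm q (1 - 1 / (70 * m))]
  set r : ℝ := 1 - 1 / (10 * m) with hrdef
  have hη1 : 1 / (10 * m) ≤ 1 / 10 := by
    rw [div_le_div_iff₀ (by positivity) (by norm_num)]
    linarith
  have hη : 0 < 1 / (10 * m) := by positivity
  have hr0 : 0 < r := by linarith
  have hr1 : r < 1 := by linarith
  obtain ⟨u, hu, hux⟩ : ∃ u : ℂ, ‖u‖ = 1 ∧ u * x₀ = (‖x₀‖ : ℂ) := by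
    refine ⟨(starRingEnd ℂ) x₀ / (‖x₀‖ : ℂ), ?_, ?_⟩
    · rw [norm_div, Complex.norm_conj, Complex.norm_real, norm_norm, div_self hn0.ne']
    · have hne : (‖x₀‖ : ℂ) ≠ 0 := by exact_mod_cast hn0.ne'
      rw [div_mul_eq_mul_div, mul_comm, Complex.mul_conj, div_eq_iff hne, Complex.normSq_eq_norm_sq]
      push_cast
      ring
  -- arguments
  have hrq : 0 < r / q := div_pos hr0 hq
  have hA : ∀ x ∈ γ, ‖u * x * ((r / q : ℝ) : ℂ)‖ < 1 := by
    intro x hx'
    rw [norm_mul, norm_mul, hu, one_mul, Complex.norm_real, Real.norm_of_nonneg hrq.le]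
    calc ‖x‖ * (r / q) ≤ q * (r / q) := mul_le_mul_of_nonneg_right (h1 x hx') hrq.le
      _ = r := by field_simp
      _ < 1 := hr1
  have hB : ∀ y ∈ γ', ‖u ^ 2 * y * ((r / q : ℝ) : ℂ)‖ < 1 := by
    intro x hx'
    rw [norm_mul, norm_mul, norm_pow, hu, one_pow, one_mul, Complex.norm_real, Real.norm_of_nonneg hrq.le]
    calc ‖x‖ * (r / q) ≤ q * (r / q) := mul_le_mul_of_nonneg_right (h2 x hx') hrq.le
      _ = r := by field_simp
      _ < 1 := hr1
  have SA := Complex.hasSum_re (hasSum_multiset γ (fun x k => (u * x * ((r / q : ℝ) : ℂ)) ^ (k + 1))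
    (fun x => (u * x * ((r / q : ℝ) : ℂ)) / (1 - (u * x * ((r / q : ℝ) : ℂ))))
    fun x hx' => hasSum_geo _ (hA x hx'))
  have SB := Complex.hasSum_re (hasSum_multiset γ' (fun x k => (u ^ 2 * x * ((r / q : ℝ) : ℂ)) ^ (k + 1))
    (fun x => (u ^ 2 * x * ((r / q : ℝ) : ℂ)) / (1 - (u ^ 2 * x * ((r / q : ℝ) : ℂ))))
    fun x hx' => hasSum_geo _ (hB x hx'))
  have SR : HasSum (fun k : ℕ => r ^ (k + 1)) (10 * m - 1) := by
    have h := (hasSum_geometric_of_lt_one hr0.le hr1).mul_left r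
    have e : (fun k : ℕ => r ^ (k + 1)) = fun k : ℕ => r * r ^ k := by
      funext k
      rw [pow_succ, mul_comm]
    have e2 : r * (1 - r)⁻¹ = 10 * m - 1 := by
      have e3 : 1 - r = 1 / (10 * m) := by rw [hrdef]; ring
      rw [e3, hrdef]
      field_simp
    rw [e, ← e2]
    exact h
  have ST := ((SR.mul_left 3).sub (SA.mul_left 4)).sub SB
  have hnn := ST.nonneg (fun k => by
    have hk := hpos u hu (k + 1) (by omega)
    have hp : 0 < (r / q) ^ (k + 1) := pow_pos hrq _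
    have h3 := mul_nonneg hk hp.le
    have eA : ((γ.map fun x => (u * x * ((r / q : ℝ) : ℂ)) ^ (k + 1)).sum) =
        (((r / q) ^ (k + 1) : ℝ) : ℂ) * (u ^ (k + 1) * (γ.map fun x => x ^ (k + 1)).sum) := by
      rw [← Multiset.sum_map_mul_left, ← Multiset.sum_map_mul_left]
      congr 1
      apply Multiset.map_congr rfl
      intro x _
      push_cast
      ring
    have eB : ((γ'.map fun x => (u ^ 2 * x * ((r / q : ℝ) : ℂ)) ^ (k + 1)).sum) =
        (((r / q) ^ (k + 1) : ℝ) : ℂ) * (u ^ (2 * (k + 1)) * (γ'.map fun x => x ^ (k + 1)).sum) := by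
      rw [← Multiset.sum_map_mul_left, ← Multiset.sum_map_mul_left]
      congr 1
      apply Multiset.map_congr rfl
      intro x _
      push_cast
      ring
    have e3 : 3 * q ^ (k + 1) * (r / q) ^ (k + 1) = 3 * r ^ (k + 1) := by
      rw [mul_assoc, ← mul_pow]
      congr 2
      field_simp
    simp only [eA, eB, Complex.re_ofReal_mul]
    nlinarith [h3, e3])
  -- lower bounds of the two sums
  have LB : -((γ'.card : ℝ) / 2) ≤ ((γ'.map (fun x => (u ^ 2 * x * ((r / q : ℝ) : ℂ)) /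
      (1 - (u ^ 2 * x * ((r / q : ℝ) : ℂ))))).sum).re :=
    re_sum_ge γ' _ fun x hx' => re_div_one_sub _ (hB x hx')
  obtain ⟨s, hs⟩ := Multiset.exists_cons_of_mem hx₀
  have hsc : (s.card : ℝ) + 1 ≤ m := by
    have : s.card + 1 ≤ M := by
      rw [hs, Multiset.card_cons] at hγ
      exact hγ
    rw [hmdef]
    exact_mod_cast this
  have LA : (1 / (1 - r * t) - 1) - (m - 1) / 2 ≤ ((γ.map (fun x => (u * x * ((r / q : ℝ) : ℂ)) /
      (1 - (u * x * ((r / q : ℝ) : ℂ))))).sum).re := by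
    have L1 := re_sum_ge s (fun x => (u * x * ((r / q : ℝ) : ℂ)) / (1 - (u * x * ((r / q : ℝ) : ℂ))))
      fun x hx' => re_div_one_sub _ (hA x (by rw [hs]; exact Multiset.mem_cons_of_mem hx'))
    have e : (u * x₀ * ((r / q : ℝ) : ℂ)) / (1 - (u * x₀ * ((r / q : ℝ) : ℂ))) =
        ((1 / (1 - r * t) - 1 : ℝ) : ℂ) := by
      have e1 : u * x₀ * ((r / q : ℝ) : ℂ) = ((r * t : ℝ) : ℂ) := by
        rw [hux, htdef]
        push_cast
        ring
      have hrt : 1 - r * t ≠ 0 := by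
        have : r * t < 1 := by
          have : r * t ≤ r * 1 := mul_le_mul_of_nonneg_left ht1 hr0.le
          linarith
        linarith
      rw [e1]
      have e2 : (1 / (1 - r * t) - 1 : ℝ) = r * t / (1 - r * t) := by
        field_simp
        ring
      rw [e2]
      push_cast
      rfl
    rw [hs, Multiset.map_cons, Multiset.sum_cons, Complex.add_re, e, Complex.ofReal_re]
    linarith
  have hcard' : (γ'.card : ℝ) ≤ m := by
    rw [hmdef]
    exact_mod_cast hγ'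
  exact key_bound m t hm ht1 ht (by
    rw [← hrdef]
    linarith)

end Pool.Agent.Helper48.ST
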