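import Pool.Agent.Helper48.ST.Chi
import Pool.Agent.Helper48.ST.Newton
import Pool.Agent.Helper48.ST.ZeroFree
import Pool.Agent.Helper48.ST.Pos

/-!
ST-17. Prime number theorem for the characters.

Proof. `q = card F ≥ 2`, `χ = g.chi c R`; `M ≥ 1` since `R` is not empty. `a k = ∑_{A ∈ Mon k} χ A`: `a 0 = 1` (`Mon F 0 = {1}`), `a k = 0` for `k ≥ M`
(`chi_sum_zero`), and `mangoldt` (multiplicativity `chi_mul`), so `newton` gives `γ` with `card γ ≤ M`, `cc χ k = -∑_{x ∈ γ} x^k`. The same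
for `χ' = g.chi (2 c) R = χ^2` (`chi_sq`; `2 c P ≠ 0` as `ℓ ≠ 2`): `γ'`. `norm_cc_le` and `radius`: all norms are `≤ q`. The value of `χ` at a
polynomial is `0` or of norm one (`norm_e`), so `cc_pos` is the positivity hypothesis of `zero_free`: `‖x‖ ≤ q (1 - 1/(70M))` for `x ∈ γ`. Hence
`‖cc χ k‖ ≤ M q^k (1 - 1/(70M))^k ≤ M q^k exp (-k/(70M)) ≤ M q^k exp (-14 M) ≤ q^k/4` for `k ≥ 1000 M^2`, and by `cc_sub`
`k ‖∑ χ‖ ≤ q^k/4 + 2 q^(k/2) ≤ q^k/2` (`k ≥ 1000`).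
-/

set_option autoImplicit false

open Polynomial
open scoped Classical

namespace Pool.Agent.Helper48.ST

theorem pnt_Mon_zero (F : Type) [Field F] [Fintype F] : Mon F 0 = {1} := by
  ext A
  rw [mem_Mon, Finset.mem_singleton]
  constructor
  · rintro ⟨h1, h2⟩
    exact (Polynomial.Monic.natDegree_eq_zero h1).1 h2
  · rintro rfl
    exact ⟨monic_one, natDegree_one⟩

theorem pnt_chi_val {F : Type} [Field F] {ℓ : ℕ} [Fact ℓ.Prime] (g : Lg F ℓ)
    (c : Ir F → ZMod ℓ) (R : Finset (Ir F)) (A : F[X]) : g.chi c R A = 0 ∨ ‖g.chi c R A‖ = 1 := by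
  unfold Lg.chi
  by_cases h : IsCoprime A (pr R)
  · right
    rw [if_pos h, norm_e]
  · left
    rw [if_neg h]

theorem pnt_power_sums {F : Type} [Field F] [Fintype F] {ℓ : ℕ} [Fact ℓ.Prime] (g : Lg F ℓ)
    (c : Ir F → ZMod ℓ) (R : Finset (Ir F)) (hc : ∃ P ∈ R, c P ≠ 0) (M : ℕ) (hM : dgs R ≤ M) :
    ∃ γ : Multiset ℂ, γ.card ≤ M ∧ (∀ x ∈ γ, ‖x‖ ≤ Fintype.card F) ∧
      ∀ k : ℕ, 1 ≤ k → cc (g.chi c R) k = -(γ.map fun x => x ^ k).sum := by
  have hq : (0 : ℝ) < Fintype.card F := by exact_mod_cast Fintype.card_pos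
  obtain ⟨γ, h1, h2⟩ := newton (fun k => ∑ A ∈ Mon F k, g.chi c R A) (cc (g.chi c R)) M
    (by
      show ∑ A ∈ Mon F 0, g.chi c R A = 1
      rw [pnt_Mon_zero, Finset.sum_singleton, chi_one])
    (fun k hk => chi_sum_zero g c R hc k (hM.trans hk))
    (fun k hk => mangoldt (g.chi c R) (chi_one g c R) (fun A B _ _ => chi_mul g c R A B) k hk)
  refine ⟨γ, h1, ?_, h2⟩
  apply radius γ _ hq
  intro k hk
  rw [← norm_neg, ← h2 k hk]
  exact norm_cc_le _ (fun P => norm_chi_le g c R P.1) k hk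

theorem pnt {F : Type} [Field F] [Fintype F] {ℓ : ℕ} [Fact ℓ.Prime] (g : Lg F ℓ) (h2 : ℓ ≠ 2)
    (c : Ir F → ZMod ℓ) (R : Finset (Ir F)) (hc : ∃ P ∈ R, c P ≠ 0) (M : ℕ) (hM : dgs R ≤ M)
    (k : ℕ) (hk : 1000 * M ^ 2 ≤ k) :
    (k : ℝ) * ‖∑ P ∈ IrEq F k, g.chi c R P.1‖ ≤ (Fintype.card F : ℝ) ^ k / 2 := by
  have hq : (0 : ℝ) < Fintype.card F := by exact_mod_cast Fintype.card_pos
  have hq2 : (2 : ℝ) ≤ Fintype.card F := by exact_mod_cast Fintype.one_lt_card (α := F)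
  have hM1 : 1 ≤ M := by
    obtain ⟨P, hP, _⟩ := hc
    have h1 := natDegree_le_dgs hP
    have h3 := P.2.2.natDegree_pos
    omega
  have hM0 : (1 : ℝ) ≤ M := by exact_mod_cast hM1
  have hk1 : 1000 ≤ k := le_trans (by nlinarith) hk
  have hkR : 1000 * (M : ℝ) ^ 2 ≤ k := by exact_mod_cast hk
  have h2' : (2 : ZMod ℓ) ≠ 0 := by
    intro h
    have h3 : ((2 : ℕ) : ZMod ℓ) = 0 := by exact_mod_cast h
    rw [ZMod.natCast_eq_zero_iff] at h3
    exact h2 ((Nat.prime_dvd_prime_iff_eq Fact.out Nat.prime_two).1 h3)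
  have hc' : ∃ P ∈ R, (fun P => 2 * c P) P ≠ 0 := by
    obtain ⟨P, hP, hcP⟩ := hc
    exact ⟨P, hP, mul_ne_zero h2' hcP⟩
  obtain ⟨γ, g1, g2, g3⟩ := pnt_power_sums g c R hc M hM
  obtain ⟨γ', g1', g2', g3'⟩ := pnt_power_sums g (fun P => 2 * c P) R hc' M hM
  have hz := zero_free γ γ' (Fintype.card F) hq M hM1 g1 g1' g2 g2' (by
    intro u hu j hj
    have h3 := cc_pos (g.chi c R) (g.chi (fun P => 2 * c P) R) (fun P => pnt_chi_val g c R P.1)
      (fun P => (chi_sq g c R P.1).symm) u hu j hj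
    rw [g3 j hj, g3' j hj] at h3
    simp only [mul_neg, Complex.neg_re] at h3
    linarith)
  -- bound for `cc`
  have hcc : ‖cc (g.chi c R) k‖ ≤ (Fintype.card F : ℝ) ^ k / 4 := by
    rw [g3 k (by omega), norm_neg]
    have h3 : ‖(γ.map fun x => x ^ k).sum‖ ≤ ((γ.map fun x => x ^ k).map fun x => ‖x‖).sum :=
      norm_multiset_sum_le _
    have hb0 : (0 : ℝ) ≤ 1 - 1 / (70 * (M : ℝ)) := by
      have : 1 / (70 * (M : ℝ)) ≤ 1 := by
        rw [div_le_one (by positivity)]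
        linarith
      linarith
    have h4 : ((γ.map fun x => x ^ k).map fun x => ‖x‖).sum ≤
        γ.card • ((Fintype.card F : ℝ) * (1 - 1 / (70 * (M : ℝ)))) ^ k := by
      rw [Multiset.map_map]
      have h5 := Multiset.sum_le_card_nsmul (γ.map ((fun x => ‖x‖) ∘ fun x => x ^ k))
        (((Fintype.card F : ℝ) * (1 - 1 / (70 * (M : ℝ)))) ^ k) (by
          intro y hy
          rw [Multiset.mem_map] at hy
          obtain ⟨x, hx, rfl⟩ := hy
          simp only [Function.comp_apply, norm_pow]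
          exact pow_le_pow_left₀ (norm_nonneg _) (hz x hx) k)
      rwa [Multiset.card_map] at h5
    have h6 : (γ.card : ℝ) ≤ M := by exact_mod_cast g1
    have h7 : (1 - 1 / (70 * (M : ℝ))) ^ k ≤ Real.exp (-(14 * M)) := by
      have h8 : 1 - 1 / (70 * (M : ℝ)) ≤ Real.exp (-(1 / (70 * (M : ℝ)))) :=
        Real.one_sub_le_exp_neg _
      refine (pow_le_pow_left₀ hb0 h8 k).trans ?_
      rw [← Real.exp_nat_mul]
      apply Real.exp_le_exp.2
      have h9 : 14 * (M : ℝ) ≤ (k : ℝ) * (1 / (70 * (M : ℝ))) := by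
        rw [mul_one_div, le_div_iff₀ (by positivity)]
        nlinarith
      linarith
    have h8 : (M : ℝ) * Real.exp (-(14 * M)) ≤ 1 / 4 := by
      rw [Real.exp_neg, ← div_eq_mul_inv, div_le_iff₀ (Real.exp_pos _)]
      have := Real.add_one_le_exp (14 * (M : ℝ))
      linarith
    refine h3.trans (h4.trans ?_)
    rw [nsmul_eq_mul, mul_pow]
    have h9 : (0 : ℝ) ≤ (1 - 1 / (70 * (M : ℝ))) ^ k := pow_nonneg hb0 k
    have h10 : (0 : ℝ) ≤ (Fintype.card F : ℝ) ^ k := by positivity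
    calc (γ.card : ℝ) * ((Fintype.card F : ℝ) ^ k * (1 - 1 / (70 * (M : ℝ))) ^ k)
        ≤ (M : ℝ) * ((Fintype.card F : ℝ) ^ k * Real.exp (-(14 * M))) :=
          mul_le_mul h6 (mul_le_mul_of_nonneg_left h7 h10) (by positivity) (by positivity)
      _ = (Fintype.card F : ℝ) ^ k * ((M : ℝ) * Real.exp (-(14 * M))) := by ring
      _ ≤ (Fintype.card F : ℝ) ^ k * (1 / 4) := mul_le_mul_of_nonneg_left h8 h10
      _ = (Fintype.card F : ℝ) ^ k / 4 := by ring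
  have hsub := cc_sub (g.chi c R) (fun P => norm_chi_le g c R P.1) k (by omega)
  have hsq : 2 * (Fintype.card F : ℝ) ^ (k / 2) ≤ (Fintype.card F : ℝ) ^ k / 4 := by
    have e1 : (Fintype.card F : ℝ) ^ k =
        (Fintype.card F : ℝ) ^ (k / 2) * (Fintype.card F : ℝ) ^ (k - k / 2) := by
      rw [← pow_add]
      congr 1
      omega
    have e2 : (2 : ℝ) ^ 3 ≤ (Fintype.card F : ℝ) ^ (k - k / 2) :=
      (pow_le_pow_left₀ (by norm_num) hq2 3).trans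
        (pow_le_pow_right₀ (by linarith) (by omega))
    have e3 : (0 : ℝ) < (Fintype.card F : ℝ) ^ (k / 2) := by positivity
    rw [e1]
    nlinarith
  have hfin : (k : ℝ) * ‖∑ P ∈ IrEq F k, g.chi c R P.1‖ =
      ‖(k : ℂ) * ∑ P ∈ IrEq F k, g.chi c R P.1‖ := by
    rw [norm_mul, Complex.norm_natCast]
  rw [hfin]
  have h5 : ‖(k : ℂ) * ∑ P ∈ IrEq F k, g.chi c R P.1‖ ≤ ‖cc (g.chi c R) k‖ +
      ‖cc (g.chi c R) k - (k : ℂ) * ∑ P ∈ IrEq F k, g.chi c R P.1‖ := by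
    have e1 : (k : ℂ) * ∑ P ∈ IrEq F k, g.chi c R P.1 = cc (g.chi c R) k -
        (cc (g.chi c R) k - (k : ℂ) * ∑ P ∈ IrEq F k, g.chi c R P.1) := by ring
    calc ‖(k : ℂ) * ∑ P ∈ IrEq F k, g.chi c R P.1‖ = ‖cc (g.chi c R) k -
        (cc (g.chi c R) k - (k : ℂ) * ∑ P ∈ IrEq F k, g.chi c R P.1)‖ := by rw [← e1]
      _ ≤ _ := norm_sub_le _ _
  linarith

end Pool.Agent.Helper48.ST
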