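import Pool.Agent.Helper48.ST.Defs3

/-!
ST-76. Rules for `PowM`, `UnrM`, `TorM`.

Proof. `powM_of_pow`: `n u = 1 + ℓ k`, so `z = z^(n u) / (z^k)^ℓ`. `powM_neg_one`: `(-1)^ℓ = -1`. `torM_prod`: `∏ D^(w_j) = D^0`, and the factors `(i,j)`, `(j,i)` give `(-1)^(w_i - w_j)`. `torM_point`: for the vector `w k = m u` (`k ≠ i`), `w i = m u - m n u` one has `∑ w = 0`, `w j - w k = 0` for `j, k ≠ i`,
`w j - w i = m n u`, so for `j ≠ i` `TorM w j = D^(m u) (a j - a i)^(m n u)`, and `m n u = m + ℓ (m k)`. `all_of_ratio`: `z_j^n = (∏_k z_j / z_k) ∏_k z_k`. `all_of_all_but`: `z_i = ∏ z / ∏_{j ≠ i} z_j`.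
-/

set_option autoImplicit false

open Polynomial
open scoped Classical

namespace Pool.Agent.Helper48.ST

section
variable {M : Type} [Field M] {ℓ : ℕ}

theorem powM_one : PowM ℓ (1 : M) :=
  ⟨1, one_ne_zero, (one_pow ℓ).symm⟩

theorem powM_mul {x y : M} (hx : PowM ℓ x) (hy : PowM ℓ y) : PowM ℓ (x * y) := by
  obtain ⟨b, hb, rfl⟩ := hx
  obtain ⟨c, hc, rfl⟩ := hy
  exact ⟨b * c, mul_ne_zero hb hc, (mul_pow b c ℓ).symm⟩

theorem powM_inv {x : M} (hx : PowM ℓ x) : PowM ℓ x⁻¹ := by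
  obtain ⟨b, hb, rfl⟩ := hx
  exact ⟨b⁻¹, inv_ne_zero hb, (inv_pow b ℓ).symm⟩

theorem powM_div {x y : M} (hx : PowM ℓ x) (hy : PowM ℓ y) : PowM ℓ (x / y) := by
  rw [div_eq_mul_inv]
  exact powM_mul hx (powM_inv hy)

theorem powM_zpow {x : M} (hx : PowM ℓ x) (k : ℤ) : PowM ℓ (x ^ k) := by
  obtain ⟨b, hb, rfl⟩ := hx
  refine ⟨b ^ k, zpow_ne_zero k hb, ?_⟩
  rw [← zpow_natCast, ← zpow_natCast, ← zpow_mul, ← zpow_mul, mul_comm]

theorem powM_prod {ι : Type} (s : Finset ι) (f : ι → M) (hf : ∀ i ∈ s, PowM ℓ (f i)) :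
    PowM ℓ (∏ i ∈ s, f i) :=
  Finset.prod_induction f (PowM ℓ) (fun _ _ hx hy => powM_mul hx hy) powM_one hf

theorem powM_self {x : M} (hx : x ≠ 0) (k : ℤ) : PowM ℓ (x ^ ((ℓ : ℤ) * k)) := by
  refine ⟨x ^ k, zpow_ne_zero k hx, ?_⟩
  rw [← zpow_natCast, ← zpow_mul, mul_comm]

theorem powM_neg_one (hodd : Odd ℓ) : PowM ℓ (-1 : M) :=
  ⟨-1, by simp, (Odd.neg_one_pow hodd).symm⟩

theorem powM_of_pow {n u : ℕ} (hu : n * u ≡ 1 [MOD ℓ]) {x : M} (hx0 : x ≠ 0)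
    (hx : PowM ℓ (x ^ n)) : PowM ℓ x := by
  obtain ⟨k, hk⟩ := (Nat.modEq_iff_dvd).1 hu
  have hk' : (1 : ℤ) = (n : ℤ) * (u : ℤ) + (ℓ : ℤ) * k := by
    push_cast at hk
    linarith
  have h1 : x = (x ^ n) ^ (u : ℤ) * x ^ ((ℓ : ℤ) * k) := by
    rw [← zpow_natCast x n, ← zpow_mul, ← zpow_add₀ hx0, ← hk', zpow_one]
  rw [h1]
  exact powM_mul (powM_zpow hx _) (powM_self hx0 k)

theorem all_of_ratio {n u : ℕ} (hu : n * u ≡ 1 [MOD ℓ]) (z : Fin n → M) (hz : ∀ j, z j ≠ 0)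
    (hp : PowM ℓ (∏ j, z j)) (hr : ∀ j k, PowM ℓ (z j / z k)) (j : Fin n) : PowM ℓ (z j) := by
  apply powM_of_pow hu (hz j)
  have hne : ∏ k, z k ≠ 0 := Finset.prod_ne_zero_iff.2 (fun k _ => hz k)
  have h1 : z j ^ n = (∏ k, z j / z k) * ∏ k, z k := by
    rw [Finset.prod_div_distrib, Finset.prod_const, Finset.card_univ, Fintype.card_fin,
      div_mul_cancel₀ _ hne]
  rw [h1]
  exact powM_mul (powM_prod _ _ (fun k _ => hr j k)) hp

theorem all_of_all_but {n : ℕ} (z : Fin n → M) (hp : PowM ℓ (∏ j, z j)) (i : Fin n)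
    (h : ∀ j, j ≠ i → PowM ℓ (z j)) : PowM ℓ (z i) := by
  have h1 := Finset.mul_prod_erase Finset.univ z (Finset.mem_univ i)
  have h2 : PowM ℓ (∏ j ∈ Finset.univ.erase i, z j) :=
    powM_prod _ _ (fun j hj => h j (Finset.ne_of_mem_erase hj))
  have hne : ∏ j ∈ Finset.univ.erase i, z j ≠ 0 := by
    obtain ⟨b, hb, hb'⟩ := h2
    rw [hb']
    exact pow_ne_zero _ hb
  have h3 : z i = (∏ j, z j) / ∏ j ∈ Finset.univ.erase i, z j := by
    rw [← h1, mul_div_assoc, div_self hne, mul_one]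
  rw [h3]
  exact powM_div hp h2

theorem torM_ne_zero {n : ℕ} {a : Fin n → M} (ha : ∀ j k, j ≠ k → a j ≠ a k) {D : M} (hD : D ≠ 0)
    (w : Fin n → ℤ) (j : Fin n) : TorM a D w j ≠ 0 := by
  unfold TorM
  refine mul_ne_zero (zpow_ne_zero _ hD) (Finset.prod_ne_zero_iff.2 (fun i hi => ?_))
  exact zpow_ne_zero _ (sub_ne_zero.2 (ha j i (Finset.ne_of_mem_erase hi).symm))

theorem torM_prod (hodd : Odd ℓ) {n : ℕ} {a : Fin n → M} (ha : ∀ j k, j ≠ k → a j ≠ a k) {D : M}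
    (hD : D ≠ 0) (w : Fin n → ℤ) (hw : ∑ i, w i = 0) : PowM ℓ (∏ j, TorM a D w j) := by
  unfold TorM
  rw [Finset.prod_mul_distrib]
  have h1 : ∏ j, D ^ w j = 1 := by
    have : ∀ s : Finset (Fin n), ∏ j ∈ s, D ^ w j = D ^ (∑ j ∈ s, w j) := by
      intro s
      induction s using Finset.induction_on with
      | empty => simp
      | insert a s has ih => rw [Finset.prod_insert has, Finset.sum_insert has, ih, zpow_add₀ hD]
    rw [this, hw, zpow_zero]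
  rw [h1, one_mul]
  set P : M := ∏ j, ∏ i ∈ Finset.univ.erase j, (a j - a i) ^ (w j - w i) with hP
  have hP0 : P ≠ 0 := by
    rw [hP]
    refine Finset.prod_ne_zero_iff.2 (fun j _ => Finset.prod_ne_zero_iff.2 (fun i hi => ?_))
    exact zpow_ne_zero _ (sub_ne_zero.2 (ha j i (Finset.ne_of_mem_erase hi).symm))
  have hP' : P = ∏ j, ∏ i ∈ Finset.univ.erase j, (a i - a j) ^ (w i - w j) := by
    rw [hP]
    apply Finset.prod_comm'
    intro x y
    simp only [Finset.mem_univ, Finset.mem_erase, ne_eq, and_true, true_and]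
    exact ⟨fun h h' => h h'.symm, fun h h' => h h'.symm⟩
  obtain ⟨r, hr⟩ := hodd
  have hu2 : 2 * (r + 1) ≡ 1 [MOD ℓ] := by
    have : 2 * (r + 1) = 1 + ℓ := by omega
    rw [this]
    simp [Nat.ModEq]
  apply powM_of_pow hu2 hP0
  rw [pow_two]
  nth_rewrite 2 [hP']
  rw [hP, ← Finset.prod_mul_distrib]
  refine powM_prod _ _ (fun j _ => ?_)
  rw [← Finset.prod_mul_distrib]
  refine powM_prod _ _ (fun i hi => ?_)
  have hji : a j - a i ≠ 0 := sub_ne_zero.2 (ha j i (Finset.ne_of_mem_erase hi).symm)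
  have h2 : (a j - a i) ^ (w j - w i) * (a i - a j) ^ (w i - w j) = (-1 : M) ^ (w i - w j) := by
    have e1 : a i - a j = (-1) * (a j - a i) := by ring
    rw [e1, mul_zpow, mul_left_comm, ← zpow_add₀ hji]
    have e2 : w j - w i + (w i - w j) = 0 := by ring
    rw [e2, zpow_zero, mul_one]
  rw [h2]
  exact powM_zpow (powM_neg_one ⟨r, hr⟩) _

theorem torM_add {n : ℕ} {a : Fin n → M} (ha : ∀ j k, j ≠ k → a j ≠ a k) {D : M} (hD : D ≠ 0)
    (w w' : Fin n → ℤ) (j : Fin n) :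
    TorM a D (fun i => w i + w' i) j = TorM a D w j * TorM a D w' j := by
  unfold TorM
  rw [zpow_add₀ hD]
  have h1 : ∏ i ∈ Finset.univ.erase j, (a j - a i) ^ (w j + w' j - (w i + w' i)) =
      (∏ i ∈ Finset.univ.erase j, (a j - a i) ^ (w j - w i)) *
        ∏ i ∈ Finset.univ.erase j, (a j - a i) ^ (w' j - w' i) := by
    rw [← Finset.prod_mul_distrib]
    refine Finset.prod_congr rfl (fun i hi => ?_)
    have hji : a j - a i ≠ 0 := sub_ne_zero.2 (ha j i (Finset.ne_of_mem_erase hi).symm)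
    rw [← zpow_add₀ hji]
    congr 1
    ring
  rw [h1]
  ring

theorem torM_neg {n : ℕ} {a : Fin n → M} (ha : ∀ j k, j ≠ k → a j ≠ a k) {D : M} (hD : D ≠ 0)
    (w : Fin n → ℤ) (j : Fin n) : TorM a D (fun i => -w i) j = (TorM a D w j)⁻¹ := by
  unfold TorM
  rw [mul_inv, zpow_neg, ← Finset.prod_inv_distrib]
  congr 1
  refine Finset.prod_congr rfl (fun i hi => ?_)
  rw [← zpow_neg]
  congr 1
  ring

/-- The class of `m (P_i - ∞)`. -/
theorem torM_point {n u : ℕ} (hu : n * u ≡ 1 [MOD ℓ]) {a : Fin n → M}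
    (ha : ∀ j k, j ≠ k → a j ≠ a k) {D : M} (hD : D ≠ 0) (m : ℕ) (i : Fin n) :
    ∃ w : Fin n → ℤ, ∑ k, w k = 0 ∧
      ∀ j, j ≠ i → PowM ℓ (D ^ (u * m) * (a j - a i) ^ m / TorM a D w j) := by
  refine ⟨fun k => if k = i then (m : ℤ) * u - m * n * u else m * u, ?_, ?_⟩
  · have h1 : ∑ k, (if k = i then (m : ℤ) * u - m * n * u else m * u) =
        ∑ k : Fin n, ((m : ℤ) * u - if k = i then (m : ℤ) * n * u else 0) := by
      refine Finset.sum_congr rfl (fun k _ => ?_)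
      split_ifs <;> ring
    rw [h1, Finset.sum_sub_distrib, Finset.sum_const, Finset.card_univ, Fintype.card_fin,
      Finset.sum_ite_eq' Finset.univ i]
    simp only [Finset.mem_univ, if_true, nsmul_eq_mul]
    ring
  · intro j hj
    have hji : a j - a i ≠ 0 := sub_ne_zero.2 (ha j i hj)
    have hT : TorM a D (fun k => if k = i then (m : ℤ) * u - m * n * u else m * u) j =
        D ^ ((m : ℤ) * u) * (a j - a i) ^ ((m : ℤ) * n * u) := by
      unfold TorM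
      beta_reduce
      rw [if_neg hj]
      congr 1
      rw [Finset.prod_eq_single_of_mem i (Finset.mem_erase.2 ⟨fun h => hj h.symm, Finset.mem_univ i⟩)]
      · rw [if_pos rfl]
        congr 1
        ring
      · intro k _ hk
        rw [if_neg hk, sub_self, zpow_zero]
    rw [hT]
    obtain ⟨k, hk⟩ := (Nat.modEq_iff_dvd).1 hu
    have hk' : (1 : ℤ) = (n : ℤ) * (u : ℤ) + (ℓ : ℤ) * k := by
      push_cast at hk
      linarith
    have h2 : D ^ (u * m) * (a j - a i) ^ m / (D ^ ((m : ℤ) * u) * (a j - a i) ^ ((m : ℤ) * n * u)) =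
        (a j - a i) ^ ((ℓ : ℤ) * (m * k)) := by
      have e1 : D ^ (u * m) = D ^ ((m : ℤ) * u) := by
        rw [← zpow_natCast]
        congr 1
        push_cast
        ring
      have e2 : (a j - a i) ^ m = (a j - a i) ^ ((m : ℤ) * n * u) * (a j - a i) ^ ((ℓ : ℤ) * (m * k)) := by
        rw [← zpow_add₀ hji, ← zpow_natCast]
        congr 1
        linear_combination (m : ℤ) * hk'
      rw [e1, e2]
      have hD' : D ^ ((m : ℤ) * u) ≠ 0 := zpow_ne_zero _ hD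
      have ha' : (a j - a i) ^ ((m : ℤ) * n * u) ≠ 0 := zpow_ne_zero _ hji
      field_simp
    rw [h2]
    exact powM_self hji _

end

section
variable {R M : Type} [CommRing R] [Field M] [Algebra R M] {ℓ : ℕ}

theorem unrM_of_powM {x : M} (hx : PowM ℓ x) : UnrM R ℓ x := by
  obtain ⟨b, hb, rfl⟩ := hx
  exact ⟨1, b, isUnit_one, hb, by rw [map_one, one_mul]⟩

theorem unrM_unit {ε : R} (hε : IsUnit ε) : UnrM R ℓ (algebraMap R M ε) :=
  ⟨ε, 1, hε, one_ne_zero, by rw [one_pow, mul_one]⟩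

theorem unrM_mul {x y : M} (hx : UnrM R ℓ x) (hy : UnrM R ℓ y) : UnrM R ℓ (x * y) := by
  obtain ⟨ε, b, hε, hb, rfl⟩ := hx
  obtain ⟨ε', b', hε', hb', rfl⟩ := hy
  exact ⟨ε * ε', b * b', hε.mul hε', mul_ne_zero hb hb', by rw [map_mul, mul_pow]; ring⟩

theorem unrM_inv [IsDomain R] {x : M} (hx : UnrM R ℓ x) : UnrM R ℓ x⁻¹ := by
  obtain ⟨ε, b, hε, hb, rfl⟩ := hx
  obtain ⟨v, rfl⟩ := hε
  refine ⟨((v⁻¹ : Rˣ) : R), b⁻¹, Units.isUnit _, inv_ne_zero hb, ?_⟩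
  have h1 : algebraMap R M ((v⁻¹ : Rˣ) : R) = (algebraMap R M (v : R))⁻¹ := by
    apply eq_inv_of_mul_eq_one_left
    rw [← map_mul, Units.inv_mul, map_one]
  rw [h1, mul_inv, inv_pow]

theorem unrM_prod {ι : Type} (s : Finset ι) (f : ι → M) (hf : ∀ i ∈ s, UnrM R ℓ (f i)) :
    UnrM R ℓ (∏ i ∈ s, f i) :=
  Finset.prod_induction f (UnrM R ℓ) (fun _ _ hx hy => unrM_mul hx hy) (unrM_of_powM powM_one) hf

end

end Pool.Agent.Helper48.ST
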