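import Pool.Agent.Helper48.ST.Facts

/-!
ST-48. The parameters of `x ∈ InS` satisfy the conditions at `P ∈ t`.

Notation: `m j R = (vl R (x j) : ZMod ℓ)`, `λ j = lgc g (x j)`, `S = SS a`; `prm` has `λ` (sum `0` by `sum_lgc`, so `toV` is the vector itself), `e π = m (pb π) π`, `w R = (m j R)_j` for `R ∈ t`.
Proof. Let `P ∈ t`, `z ∈ Vs`. By `vl_out` and `ch_formula` with `T = t ∪ S` (disjoint), for every `j`
`ch P (x j) = deg P * λ j + ∑_{R ∈ t \ P} m j R L(R,P) + ∑_{π ∈ S} m j π L(π,P)`, and by `loc_t`, `tor_ch_t` it equals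
`m j P * ∑_{R ∈ t \ P} L(R,P) + ∑_{i ≠ j} (m j P - m i P) (deg P * θ i j + ∑_{π ∈ S, π ∣ a j - a i} L(π,P))`, `θ i j = g (lc (a j - a i)) = θ j i` (`g (-1) = 0`). Subtract, multiply by `z j` and sum over `j`:
the terms in `R ∈ t \ P` give `(∑_j (m j R - m j P) z j) L(R,P)`; the coefficient of `L(π,P)` is `∑_j m j π z j + ∑_{j} ∑_{i : π ∣ a j - a i} (m i P - m j P) z j`; by `loc_S` `m j π = 0` for `j ≠ pa, pb` and
`m (pa π) π = - m (pb π) π = - e π`, and by `pairs_iff` the pairs `(i,j)` are `(pb,pa)` and `(pa,pb)`: total `e π (z_b - z_a) + (m_a - m_b)(z_b - z_a)`, `m_a = m (pa π) P` etc.; the coefficient of `deg P` is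
`∑_j λ j z j + ∑_j ∑_{i ≠ j} (m i P - m j P) θ i j z j = ∑_j λ j z j + ∑_{i<j} (m i P - m j P)(z j - z i) θ i j`. So `EP = 0`.
-/

set_option autoImplicit false

open Polynomial
open scoped Classical

namespace Pool.Agent.Helper48.ST

theorem prmT_sum_erase {F : Type} [Field F] {ℓ : ℕ} (t : Finset (Ir F))
    (P : {P : Ir F // P ∈ t}) (f : Ir F → ZMod ℓ) :
    ∑ R ∈ (Finset.univ : Finset {P : Ir F // P ∈ t}).erase P, f R.1 =
      ∑ R ∈ t.erase P.1, f R := by
  rw [Finset.sum_erase_eq_sub (Finset.mem_univ P), Finset.sum_erase_eq_sub P.2,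
    Finset.sum_coe_sort t f]

theorem prmT_toV {n ℓ : ℕ} (w : Fin n → ZMod ℓ) (hw : ∑ i, w i = 0) (j : Fin n) :
    (toV w).1 j = w j := by
  unfold toV
  rw [dif_pos (mem_Vs.2 hw)]

theorem prmT_theta {F : Type} [Field F] {ℓ : ℕ} [Fact ℓ.Prime] (g : Lg F ℓ) (h2 : ℓ ≠ 2)
    (A : F[X]) (hA : A ≠ 0) : g.toFun (-A).leadingCoeff = g.toFun A.leadingCoeff := by
  rw [leadingCoeff_neg, ← neg_one_mul, g.map_mul' _ _ (by norm_num) (leadingCoeff_ne_zero.2 hA),
    lg_neg_one g h2, zero_add]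

/-- The terms with `θ`. -/
theorem prmT_off {n ℓ : ℕ} (m z : Fin n → ZMod ℓ) (θ : Fin n → Fin n → ZMod ℓ)
    (hθ : ∀ i j, i ≠ j → θ i j = θ j i) :
    ∑ j, z j * ∑ i ∈ Finset.univ.erase j, (m i - m j) * θ j i =
      ∑ i, ∑ j ∈ Finset.Ioi i, (m i - m j) * (z j - z i) * θ i j := by
  have h1 := Finset.sum_sum_Ioi_add_eq_sum_sum_off_diag
    (fun i j : Fin n => z j * ((m i - m j) * θ j i))
  have h2 : ∑ j, z j * ∑ i ∈ Finset.univ.erase j, (m i - m j) * θ j i =
      ∑ i, ∑ j ∈ ({i}ᶜ : Finset (Fin n)), z i * ((m j - m i) * θ i j) := by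
    refine Finset.sum_congr rfl fun j _ => ?_
    rw [Finset.mul_sum, Finset.compl_eq_univ_sdiff, Finset.sdiff_singleton_eq_erase]
  rw [h2, ← h1]
  refine Finset.sum_congr rfl fun i _ => Finset.sum_congr rfl fun j hj => ?_
  rw [hθ j i (ne_of_gt (Finset.mem_Ioi.1 hj))]
  ring

/-- The coefficient of `L(π,P)`. -/
theorem prmT_pi {n ℓ : ℕ} (m z k : Fin n → ZMod ℓ) (A B : Fin n) (hAB : A ≠ B)
    (D : Fin n → Fin n → Prop) (hD : ∀ i j, i ≠ j → (D i j ↔ (i = A ∧ j = B) ∨ (i = B ∧ j = A)))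
    (hk : ∀ j, j ≠ A → j ≠ B → k j = 0) (hkA : k A = - k B) :
    ∑ j, z j * (k j + ∑ i ∈ Finset.univ.erase j, if D j i then m i - m j else 0) =
      (m A - m B + k B) * (z B - z A) := by
  have h1 : ∀ j, j ≠ A → j ≠ B →
      z j * (k j + ∑ i ∈ Finset.univ.erase j, if D j i then m i - m j else 0) = 0 := by
    intro j hjA hjB
    rw [hk j hjA hjB, Finset.sum_eq_zero, add_zero, mul_zero]
    intro i hi
    rw [if_neg]
    intro h
    rcases (hD j i (Finset.ne_of_mem_erase hi).symm).1 h with h | h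
    · exact hjA h.1
    · exact hjB h.1
  have h2 : ∑ i ∈ Finset.univ.erase A, (if D A i then m i - m A else 0) = m B - m A := by
    rw [Finset.sum_eq_single B]
    · rw [if_pos ((hD A B hAB).2 (Or.inl ⟨rfl, rfl⟩))]
    · intro i hi hiB
      rw [if_neg]
      intro h
      rcases (hD A i (Finset.ne_of_mem_erase hi).symm).1 h with h | h
      · exact hiB h.2
      · exact hAB h.1
    · intro h
      exact absurd (Finset.mem_erase.2 ⟨hAB.symm, Finset.mem_univ _⟩) h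
  have h3 : ∑ i ∈ Finset.univ.erase B, (if D B i then m i - m B else 0) = m A - m B := by
    rw [Finset.sum_eq_single A]
    · rw [if_pos ((hD B A hAB.symm).2 (Or.inr ⟨rfl, rfl⟩))]
    · intro i hi hiA
      rw [if_neg]
      intro h
      rcases (hD B i (Finset.ne_of_mem_erase hi).symm).1 h with h | h
      · exact hAB h.1.symm
      · exact hiA h.2
    · intro h
      exact absurd (Finset.mem_erase.2 ⟨hAB, Finset.mem_univ _⟩) h
  rw [Finset.sum_eq_add A B hAB (fun j _ hj => h1 j hj.1 hj.2)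
    (fun h => absurd (Finset.mem_univ _) h) (fun h => absurd (Finset.mem_univ _) h), h2, h3, hkA]
  ring

theorem prm_EP {F : Type} [Field F] [Fintype F] {ℓ : ℕ} [Fact ℓ.Prime] (g : Lg F ℓ) (h2 : ℓ ≠ 2)
    {n d : ℕ} {a : Fin n → F[X]} (ha : Stp d a) {pa pb : Ir F → Fin n} (hp : Pairs a pa pb)
    {t : Finset (Ir F)} (ht : Disjoint t (SS a)) {x : Fin n → (RatFunc F)ˣ} (hx : InS g a t x)
    (P : {P : Ir F // P ∈ t}) (z : Vs n ℓ) :
    EP g a pa pb (SS a) t (prm g pb (SS a) t x).1 (prm g pb (SS a) t x).2 P z = 0 := by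
  set m : Fin n → Ir F → ZMod ℓ := fun j R => ((vl R (x j : RatFunc F) : ℤ) : ZMod ℓ) with hm
  have hQS : P.1 ∉ SS a := Finset.disjoint_left.1 ht P.2
  -- the identity for every index
  have hE : ∀ j, (P.1.1.natDegree : ZMod ℓ) * lgc g (x j : RatFunc F) +
      ∑ R ∈ t.erase P.1, (m j R - m j P.1) * g.L R.1 P.1.1 +
      ∑ π ∈ SS a, m j π * g.L π.1 P.1.1 +
      ∑ i ∈ Finset.univ.erase j, (m i P.1 - m j P.1) *
        ((P.1.1.natDegree : ZMod ℓ) * g.toFun (a j - a i).leadingCoeff +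
          ∑ R ∈ (SS a).filter (fun R => R.1 ∣ a j - a i), g.L R.1 P.1.1) = 0 := by
    intro j
    obtain ⟨w, -, hw1, hw2⟩ := loc_t g ha ht hx P.2
    have h3 := ch_formula g (x j : RatFunc F) (x j).ne_zero (t ∪ SS a)
      (fun R hR => vl_out g ha hx (fun h => hR (Finset.mem_union_left _ h))
        (fun h => hR (Finset.mem_union_right _ h)) j) P.1
    have h4 : (t ∪ SS a).erase P.1 = t.erase P.1 ∪ SS a := by
      rw [Finset.erase_union_distrib, Finset.erase_eq_of_notMem hQS]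
    have h5 : Disjoint (t.erase P.1) (SS a) := ht.mono_left (Finset.erase_subset _ _)
    rw [h4, Finset.sum_union h5, hw2 j, tor_ch_t g ha ht w h2 P.2 j] at h3
    have h6 : ∑ R ∈ t.erase P.1, (m j R - m j P.1) * g.L R.1 P.1.1 =
        ∑ R ∈ t.erase P.1, ((vl R (x j : RatFunc F) : ℤ) : ZMod ℓ) * g.L R.1 P.1.1 -
          m j P.1 * ∑ R ∈ t.erase P.1, g.L R.1 P.1.1 := by
      rw [Finset.mul_sum, ← Finset.sum_sub_distrib]
      refine Finset.sum_congr rfl fun R _ => ?_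
      ring
    have h7 : ∑ i ∈ Finset.univ.erase j, (m i P.1 - m j P.1) *
        ((P.1.1.natDegree : ZMod ℓ) * g.toFun (a j - a i).leadingCoeff +
          ∑ R ∈ (SS a).filter (fun R => R.1 ∣ a j - a i), g.L R.1 P.1.1) =
        -∑ i ∈ Finset.univ.erase j, ((w j : ZMod ℓ) - (w i : ZMod ℓ)) *
        ((P.1.1.natDegree : ZMod ℓ) * g.toFun (a j - a i).leadingCoeff +
          ∑ R ∈ (SS a).filter (fun R => R.1 ∣ a j - a i), g.L R.1 P.1.1) := by
      rw [← Finset.sum_neg_distrib]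
      refine Finset.sum_congr rfl fun i _ => ?_
      rw [hw1 i, hw1 j]
      ring
    rw [h6, h7]
    linear_combination -h3 + (∑ R ∈ t.erase P.1, g.L R.1 P.1.1) * hw1 j
  have hsum : ∑ j, z.1 j * ((P.1.1.natDegree : ZMod ℓ) * lgc g (x j : RatFunc F) +
      ∑ R ∈ t.erase P.1, (m j R - m j P.1) * g.L R.1 P.1.1 +
      ∑ π ∈ SS a, m j π * g.L π.1 P.1.1 +
      ∑ i ∈ Finset.univ.erase j, (m i P.1 - m j P.1) *
        ((P.1.1.natDegree : ZMod ℓ) * g.toFun (a j - a i).leadingCoeff +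
          ∑ R ∈ (SS a).filter (fun R => R.1 ∣ a j - a i), g.L R.1 P.1.1)) = 0 :=
    Finset.sum_eq_zero fun j _ => by rw [hE j, mul_zero]
  -- the parts
  have p1 : ∑ j, z.1 j * ((P.1.1.natDegree : ZMod ℓ) * lgc g (x j : RatFunc F)) =
      (P.1.1.natDegree : ZMod ℓ) * ∑ j, lgc g (x j : RatFunc F) * z.1 j := by
    rw [Finset.mul_sum]
    exact Finset.sum_congr rfl fun j _ => by ring
  have p2 : ∑ j, z.1 j * ∑ R ∈ t.erase P.1, (m j R - m j P.1) * g.L R.1 P.1.1 =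
      ∑ R ∈ t.erase P.1, (∑ j, (m j R - m j P.1) * z.1 j) * g.L R.1 P.1.1 := by
    simp only [Finset.mul_sum, Finset.sum_mul]
    rw [Finset.sum_comm]
    exact Finset.sum_congr rfl fun R _ => Finset.sum_congr rfl fun j _ => by ring
  have p4 : ∑ j, z.1 j * ∑ i ∈ Finset.univ.erase j, (m i P.1 - m j P.1) *
        ((P.1.1.natDegree : ZMod ℓ) * g.toFun (a j - a i).leadingCoeff) =
      (P.1.1.natDegree : ZMod ℓ) * ∑ i, ∑ j ∈ Finset.Ioi i,
        (m i P.1 - m j P.1) * (z.1 j - z.1 i) * g.toFun (a i - a j).leadingCoeff := by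
    rw [← prmT_off (fun i => m i P.1) z.1 (fun i j => g.toFun (a i - a j).leadingCoeff)
      (fun i j hij => by
        have := prmT_theta g h2 (a j - a i) (diff_ne_zero ha hij.symm)
        rwa [neg_sub] at this)]
    rw [Finset.mul_sum]
    refine Finset.sum_congr rfl fun j _ => ?_
    rw [Finset.mul_sum, Finset.mul_sum, Finset.mul_sum]
    exact Finset.sum_congr rfl fun i _ => by ring
  have p3 : ∑ j, z.1 j * (∑ π ∈ SS a, m j π * g.L π.1 P.1.1 +
      ∑ i ∈ Finset.univ.erase j, (m i P.1 - m j P.1) *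
        ∑ R ∈ (SS a).filter (fun R => R.1 ∣ a j - a i), g.L R.1 P.1.1) =
      ∑ π ∈ SS a, (m (pa π) P.1 - m (pb π) P.1 + m (pb π) π) *
        (z.1 (pb π) - z.1 (pa π)) * g.L π.1 P.1.1 := by
    have q1 : ∀ j, z.1 j * (∑ π ∈ SS a, m j π * g.L π.1 P.1.1 +
        ∑ i ∈ Finset.univ.erase j, (m i P.1 - m j P.1) *
          ∑ R ∈ (SS a).filter (fun R => R.1 ∣ a j - a i), g.L R.1 P.1.1) =
        ∑ π ∈ SS a, (z.1 j * (m j π + ∑ i ∈ Finset.univ.erase j,
          if π.1 ∣ a j - a i then m i P.1 - m j P.1 else 0)) * g.L π.1 P.1.1 := by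
      intro j
      have q2 : ∑ i ∈ Finset.univ.erase j, (m i P.1 - m j P.1) *
          ∑ R ∈ (SS a).filter (fun R => R.1 ∣ a j - a i), g.L R.1 P.1.1 =
          ∑ π ∈ SS a, (∑ i ∈ Finset.univ.erase j,
            if π.1 ∣ a j - a i then m i P.1 - m j P.1 else 0) * g.L π.1 P.1.1 := by
        simp only [Finset.sum_mul, Finset.mul_sum, Finset.sum_filter]
        rw [Finset.sum_comm]
        refine Finset.sum_congr rfl fun π _ => Finset.sum_congr rfl fun i _ => ?_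
        split_ifs <;> ring
      rw [q2, ← Finset.sum_add_distrib, Finset.mul_sum]
      exact Finset.sum_congr rfl fun π _ => by ring
    rw [Finset.sum_congr rfl fun j _ => q1 j, Finset.sum_comm]
    refine Finset.sum_congr rfl fun π hπ => ?_
    rw [← Finset.sum_mul]
    obtain ⟨w, -, hw1, hw2, hw3, -⟩ := loc_S g ha hp ht hx hπ
    rw [prmT_pi (fun i => m i P.1) z.1 (fun j => m j π) (pa π) (pb π) (ne_of_lt (hp π hπ).1)
      (fun j i => π.1 ∣ a j - a i) (fun i j hij => pairs_iff ha hp hπ i j hij) hw3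
      (by
        show m (pa π) π = - m (pb π) π
        rw [hm]
        show ((vl π (x (pa π) : RatFunc F) : ℤ) : ZMod ℓ) = -((vl π (x (pb π) : RatFunc F) : ℤ) : ZMod ℓ)
        rw [hw1, hw2]
        ring)]
  have hEP : EP g a pa pb (SS a) t (prm g pb (SS a) t x).1 (prm g pb (SS a) t x).2 P z =
      ∑ R ∈ t.erase P.1, (∑ j, (m j R - m j P.1) * z.1 j) * g.L R.1 P.1.1 +
      ∑ π ∈ SS a, (m (pa π) P.1 - m (pb π) P.1 + m (pb π) π) *
        (z.1 (pb π) - z.1 (pa π)) * g.L π.1 P.1.1 +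
      (P.1.1.natDegree : ZMod ℓ) * (∑ j, lgc g (x j : RatFunc F) * z.1 j + ∑ i, ∑ j ∈ Finset.Ioi i,
        (m i P.1 - m j P.1) * (z.1 j - z.1 i) * g.toFun (a i - a j).leadingCoeff) := by
    unfold EP prm
    have hv : ∀ (R : Ir F) (j : Fin n),
        (toV fun j => ((vl R (x j : RatFunc F) : ℤ) : ZMod ℓ)).1 j = m j R := fun R j =>
      prmT_toV _ (sum_vl g hx R) j
    have hl : ∀ j : Fin n, (toV fun j => lgc g (x j : RatFunc F)).1 j = lgc g (x j : RatFunc F) :=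
      fun j => prmT_toV _ (sum_lgc g hx) j
    simp only [hv, hl]
    rw [prmT_sum_erase t P (fun R => (∑ j, (m j R - m j P.1) * z.1 j) * g.L R.1 P.1.1)]
    congr 2
    refine Finset.sum_congr rfl fun π hπ => ?_
    unfold ex
    rw [dif_pos hπ]
  rw [hEP, ← p2, ← p3, mul_add, ← p1, ← p4]
  rw [← hsum]
  rw [← Finset.sum_add_distrib, ← Finset.sum_add_distrib, ← Finset.sum_add_distrib]
  refine Finset.sum_congr rfl fun j _ => ?_
  have h8 : ∑ i ∈ Finset.univ.erase j, (m i P.1 - m j P.1) *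
        ((P.1.1.natDegree : ZMod ℓ) * g.toFun (a j - a i).leadingCoeff +
          ∑ R ∈ (SS a).filter (fun R => R.1 ∣ a j - a i), g.L R.1 P.1.1) =
      ∑ i ∈ Finset.univ.erase j, (m i P.1 - m j P.1) *
        ((P.1.1.natDegree : ZMod ℓ) * g.toFun (a j - a i).leadingCoeff) +
      ∑ i ∈ Finset.univ.erase j, (m i P.1 - m j P.1) *
        ∑ R ∈ (SS a).filter (fun R => R.1 ∣ a j - a i), g.L R.1 P.1.1 := by
    rw [← Finset.sum_add_distrib]
    exact Finset.sum_congr rfl fun i _ => by ring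
  rw [h8]
  ring

end Pool.Agent.Helper48.ST
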