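import Pool.Agent.Helper48.ST.Cards

/-!
ST-18. The number of solutions of `A₁ A₂ = A₃ A₄` in monic polynomials of degree `b`.

Proof. Let `G` be the monic gcd of `A₁` and `A₃`, of degree `j ≤ b`, `A₁ = G X`, `A₃ = G Y`, `X`, `Y` monic coprime of degree `b - j`; then `X A₂ = Y A₄`, so
`A₂ = Y Z`, `A₄ = X Z` with `Z` monic of degree `j`. So the solutions are covered by the images of `(G, X, Y, Z) ∈ Mon j × Mon (b-j) × Mon (b-j) × Mon j`,
`j = 0..b`, and each set has `q^(2b)` elements (`card_Mon`).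
-/

set_option autoImplicit false

open Polynomial
open scoped Classical

namespace Pool.Agent.Helper48.ST

/-- the monic common factor -/
theorem quadc_gcd {F : Type} [Field F] (A B : F[X]) (hA : A.Monic) (hB : B.Monic) :
    ∃ G X Y : F[X], G.Monic ∧ X.Monic ∧ Y.Monic ∧ A = G * X ∧ B = G * Y ∧ IsCoprime X Y := by
  have hg0 : EuclideanDomain.gcd A B ≠ 0 := by
    intro h
    rw [EuclideanDomain.gcd_eq_zero_iff] at h
    exact hA.ne_zero h.1
  obtain ⟨G, hG, hGm⟩ : ∃ G : F[X], Associated G (EuclideanDomain.gcd A B) ∧ G.Monic :=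
    ⟨normalize (EuclideanDomain.gcd A B), (normalize_associated _), monic_normalize hg0⟩
  obtain ⟨X, hX⟩ : G ∣ A := hG.dvd.trans (EuclideanDomain.gcd_dvd_left A B)
  obtain ⟨Y, hY⟩ : G ∣ B := hG.dvd.trans (EuclideanDomain.gcd_dvd_right A B)
  have hXm : X.Monic := by
    rw [hX] at hA
    exact hGm.of_mul_monic_left hA
  have hYm : Y.Monic := by
    rw [hY] at hB
    exact hGm.of_mul_monic_left hB
  refine ⟨G, X, Y, hGm, hXm, hYm, hX, hY, ?_⟩
  obtain ⟨u, hu⟩ := hG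
  have h1 := EuclideanDomain.gcd_eq_gcd_ab A B
  have h2 : G * (u : F[X]) = G * (X * EuclideanDomain.gcdA A B + Y * EuclideanDomain.gcdB A B) := by
    rw [hu]
    nth_rewrite 1 [h1]
    nth_rewrite 1 [hX]
    nth_rewrite 2 [hY]
    ring
  have h3 := mul_left_cancel₀ hGm.ne_zero h2
  refine ⟨EuclideanDomain.gcdA A B * ((u⁻¹ : F[X]ˣ) : F[X]),
    EuclideanDomain.gcdB A B * ((u⁻¹ : F[X]ˣ) : F[X]), ?_⟩
  calc EuclideanDomain.gcdA A B * ((u⁻¹ : F[X]ˣ) : F[X]) * X +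
      EuclideanDomain.gcdB A B * ((u⁻¹ : F[X]ˣ) : F[X]) * Y =
        (X * EuclideanDomain.gcdA A B + Y * EuclideanDomain.gcdB A B) * ((u⁻¹ : F[X]ˣ) : F[X]) := by
        ring
    _ = 1 := by rw [← h3, Units.mul_inv]

theorem quad_count {F : Type} [Field F] [Fintype F] (b : ℕ) :
    (((Mon F b ×ˢ Mon F b) ×ˢ (Mon F b ×ˢ Mon F b)).filter
      (fun x => x.1.1 * x.1.2 = x.2.1 * x.2.2)).card ≤ (b + 1) * Fintype.card F ^ (2 * b) := by
  set f : (F[X] × F[X]) × (F[X] × F[X]) → (F[X] × F[X]) × (F[X] × F[X]) :=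
    fun x => ((x.1.1 * x.1.2, x.2.1 * x.2.2), (x.1.1 * x.2.1, x.1.2 * x.2.2)) with hf
  have hsub : ((Mon F b ×ˢ Mon F b) ×ˢ (Mon F b ×ˢ Mon F b)).filter
      (fun x => x.1.1 * x.1.2 = x.2.1 * x.2.2) ⊆
      (Finset.range (b + 1)).biUnion (fun j =>
        ((Mon F j ×ˢ Mon F (b - j)) ×ˢ (Mon F (b - j) ×ˢ Mon F j)).image f) := by
    rintro ⟨⟨A₁, A₂⟩, ⟨A₃, A₄⟩⟩ hx
    simp only [Finset.mem_filter, Finset.mem_product, mem_Mon] at hx
    obtain ⟨⟨⟨⟨h1, d1⟩, ⟨h2, d2⟩⟩, ⟨h3, d3⟩, ⟨h4, d4⟩⟩, heq⟩ := hx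
    obtain ⟨G, X, Y, hG, hX, hY, e1, e3, hcop⟩ := quadc_gcd A₁ A₃ h1 h3
    have h5 : X * A₂ = Y * A₄ := by
      apply mul_left_cancel₀ hG.ne_zero
      rw [← mul_assoc, ← mul_assoc, ← e1, ← e3, heq]
    have h6 : Y ∣ A₂ := by
      apply hcop.symm.dvd_of_dvd_mul_left
      rw [h5]
      exact dvd_mul_right Y A₄
    obtain ⟨Z, hZ⟩ := h6
    have h7 : A₄ = X * Z := by
      apply mul_left_cancel₀ hY.ne_zero
      rw [← h5, hZ]
      ring
    have hZm : Z.Monic := by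
      rw [hZ] at h2
      exact hY.of_mul_monic_left h2
    have g1 : G.natDegree + X.natDegree = b := by
      rw [← hG.natDegree_mul hX, ← e1, d1]
    have g3 : G.natDegree + Y.natDegree = b := by
      rw [← hG.natDegree_mul hY, ← e3, d3]
    have g2 : Y.natDegree + Z.natDegree = b := by
      rw [← hY.natDegree_mul hZm, ← hZ, d2]
    rw [Finset.mem_biUnion]
    refine ⟨G.natDegree, Finset.mem_range.2 (by omega), ?_⟩
    rw [Finset.mem_image]
    refine ⟨((G, X), (Y, Z)), ?_, ?_⟩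
    · simp only [Finset.mem_product, mem_Mon]
      refine ⟨⟨⟨hG, trivial⟩, ⟨hX, by omega⟩⟩, ⟨hY, by omega⟩, ⟨hZm, by omega⟩⟩
    · rw [hf]
      simp only
      rw [← e1, ← e3, ← hZ, ← h7]
  refine (Finset.card_le_card hsub).trans (Finset.card_biUnion_le.trans ?_)
  have hle : ∀ j ∈ Finset.range (b + 1),
      (((Mon F j ×ˢ Mon F (b - j)) ×ˢ (Mon F (b - j) ×ˢ Mon F j)).image f).card ≤
        Fintype.card F ^ (2 * b) := by
    intro j hj
    rw [Finset.mem_range] at hj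
    refine Finset.card_image_le.trans (le_of_eq ?_)
    rw [Finset.card_product, Finset.card_product, Finset.card_product, card_Mon, card_Mon,
      ← pow_add, ← pow_add, ← pow_add]
    congr 1
    omega
  refine (Finset.sum_le_sum hle).trans (le_of_eq ?_)
  rw [Finset.sum_const, Finset.card_range, smul_eq_mul]

end Pool.Agent.Helper48.ST
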