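import Mathlib

/-!
ST-14. A bound for power sums bounds the numbers (Mathlib only).

Proof. `re_div_one_sub`: `w/(1-w) = 1/(1-w) - 1` and `Re (1/(1-w)) = Re (1-w) / |1-w|^2 ≥ 1/2` iff `2 (1 - Re w) ≥ 1 - 2 Re w + |w|^2` iff `|w| ≤ 1`.
`radius`: suppose some element has norm `> q`; let `x ∈ γ` have the maximal norm `ρ > q`. For `0 < ε < 1` put `z = (1 - ε)/x`; then
`‖y z‖ ≤ 1 - ε < 1` for all `y ∈ γ` and, by geometric series, `∑_{y ∈ γ} y z/(1 - y z) = ∑_{k ≥ 1} (∑_{y ∈ γ} y^k) z^k`, of norm at most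
`∑_{k≥1} (q/ρ)^k =: C`. The real part of the left side is at least `(1-ε)/ε - card γ / 2` (the term `y = x` is `(1-ε)/ε`, the others are
`≥ -1/2` by the first lemma). For `ε → 0` this is a contradiction.
-/

set_option autoImplicit false

open Polynomial
open scoped Classical

namespace Pool.Agent.Helper48.ST

theorem re_div_one_sub (w : ℂ) (hw : ‖w‖ < 1) : -(1 / 2 : ℝ) ≤ (w / (1 - w)).re := by
  have h1 : w.re * w.re + w.im * w.im ≤ 1 := by
    have h2 : Complex.normSq w = ‖w‖ ^ 2 := Complex.normSq_eq_norm_sq w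
    rw [Complex.normSq_apply] at h2
    rw [h2]
    have h3 := norm_nonneg w
    nlinarith
  have hne : (1 : ℂ) - w ≠ 0 := by
    intro h
    have h2 : w = 1 := (sub_eq_zero.mp h).symm
    rw [h2, norm_one] at hw
    exact lt_irrefl _ hw
  have hpos : 0 < Complex.normSq (1 - w) := Complex.normSq_pos.mpr hne
  rw [Complex.div_re, ← add_div, le_div_iff₀ hpos, Complex.normSq_apply]
  simp only [Complex.sub_re, Complex.one_re, Complex.sub_im, Complex.one_im]
  nlinarith

theorem radius_hasSum (γ : Multiset ℂ) (z : ℂ) (h : ∀ y ∈ γ, ‖y * z‖ < 1) :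
    HasSum (fun k : ℕ => (γ.map fun y => (y * z) ^ (k + 1)).sum)
      (γ.map fun y => y * z / (1 - y * z)).sum := by
  induction γ using Multiset.induction_on with
  | empty =>
    simp only [Multiset.map_zero, Multiset.sum_zero]
    exact hasSum_zero
  | cons a γ ih =>
    simp only [Multiset.map_cons, Multiset.sum_cons]
    refine HasSum.add ?_ (ih fun y hy => h y (Multiset.mem_cons_of_mem hy))
    have h1 := (hasSum_geometric_of_norm_lt_one (h a (Multiset.mem_cons_self a γ))).mul_left (a * z)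
    rw [← div_eq_mul_inv] at h1
    have h2 : (fun k : ℕ => (a * z) ^ (k + 1)) = fun k : ℕ => a * z * (a * z) ^ k := by
      funext k
      exact pow_succ' (a * z) k
    rw [h2]
    exact h1

theorem radius_re (γ : Multiset ℂ) (z : ℂ) (h : ∀ y ∈ γ, ‖y * z‖ < 1) :
    -((Multiset.card γ : ℝ) / 2) ≤ ((γ.map fun y => y * z / (1 - y * z)).sum).re := by
  induction γ using Multiset.induction_on with
  | empty => simp
  | cons a γ ih =>
    simp only [Multiset.map_cons, Multiset.sum_cons, Multiset.card_cons, Complex.add_re]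
    have h1 := ih fun y hy => h y (Multiset.mem_cons_of_mem hy)
    have h2 := re_div_one_sub (a * z) (h a (Multiset.mem_cons_self a γ))
    push_cast
    linarith


theorem radius (γ : Multiset ℂ) (q : ℝ) (hq : 0 < q)
    (h : ∀ k : ℕ, 1 ≤ k → ‖(γ.map fun x => x ^ k).sum‖ ≤ q ^ k) : ∀ x ∈ γ, ‖x‖ ≤ q := by
  by_contra hcon
  push Not at hcon
  obtain ⟨x0, hx0, hx0q⟩ := hcon
  obtain ⟨x, hx, hmax⟩ := Finset.exists_max_image γ.toFinset (fun y => ‖y‖)
    ⟨x0, Multiset.mem_toFinset.mpr hx0⟩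
  rw [Multiset.mem_toFinset] at hx
  have hρ : q < ‖x‖ := lt_of_lt_of_le hx0q (hmax x0 (Multiset.mem_toFinset.mpr hx0))
  have hmax' : ∀ y ∈ γ, ‖y‖ ≤ ‖x‖ := fun y hy => hmax y (Multiset.mem_toFinset.mpr hy)
  have hρ0 : 0 < ‖x‖ := hq.trans hρ
  have hxne : x ≠ 0 := norm_pos_iff.mp hρ0
  have hr1 : q / ‖x‖ < 1 := (div_lt_one hρ0).mpr hρ
  have hr0 : 0 < q / ‖x‖ := div_pos hq hρ0
  set r := q / ‖x‖ with hr
  set C := r / (1 - r) with hC
  have hC0 : 0 < C := div_pos hr0 (by linarith)
  obtain ⟨γ', hγ'⟩ := Multiset.exists_cons_of_mem hx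
  have key : ∀ ε : ℝ, 0 < ε → ε < 1 → (1 - ε) / ε ≤ C + (Multiset.card γ' : ℝ) / 2 := by
    intro ε hε0 hε1
    set z : ℂ := ((1 - ε : ℝ) : ℂ) / x with hz
    have hznorm : ‖z‖ = (1 - ε) / ‖x‖ := by
      rw [hz, norm_div, Complex.norm_real, Real.norm_of_nonneg (by linarith)]
    have hyz : ∀ y ∈ γ, ‖y * z‖ < 1 := by
      intro y hy
      rw [norm_mul, hznorm]
      have h1 : ‖y‖ * ((1 - ε) / ‖x‖) ≤ ‖x‖ * ((1 - ε) / ‖x‖) :=
        mul_le_mul_of_nonneg_right (hmax' y hy) (div_nonneg (by linarith) hρ0.le)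
      have h2 : ‖x‖ * ((1 - ε) / ‖x‖) = 1 - ε := by field_simp
      linarith
    have hsum := radius_hasSum γ z hyz
    have hg : HasSum (fun k : ℕ => r ^ (k + 1)) C := by
      have h1 := (hasSum_geometric_of_lt_one hr0.le hr1).mul_left r
      rw [← div_eq_mul_inv] at h1
      have h2 : (fun k : ℕ => r ^ (k + 1)) = fun k : ℕ => r * r ^ k := by
        funext k
        exact pow_succ' r k
      rw [h2]
      exact h1
    have hbd : ∀ k : ℕ, ‖(γ.map fun y => (y * z) ^ (k + 1)).sum‖ ≤ r ^ (k + 1) := by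
      intro k
      have h1 : (γ.map fun y => (y * z) ^ (k + 1)).sum =
          (γ.map fun y => y ^ (k + 1)).sum * z ^ (k + 1) := by
        rw [← Multiset.sum_map_mul_right]
        simp only [mul_pow]
      rw [h1, norm_mul, norm_pow, hznorm]
      have h2 := h (k + 1) (Nat.succ_le_succ (Nat.zero_le k))
      have h3 : ((1 - ε) / ‖x‖) ^ (k + 1) ≤ (1 / ‖x‖) ^ (k + 1) := by
        refine pow_le_pow_left₀ (div_nonneg (by linarith) hρ0.le) ?_ _
        exact div_le_div_of_nonneg_right (by linarith) hρ0.le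
      have h4 : q ^ (k + 1) * (1 / ‖x‖) ^ (k + 1) = r ^ (k + 1) := by
        rw [← mul_pow, hr]
        congr 1
        ring
      rw [← h4]
      exact mul_le_mul h2 h3 (pow_nonneg (div_nonneg (by linarith) hρ0.le) _)
        (pow_nonneg hq.le _)
    have hnorm : ‖(γ.map fun y => y * z / (1 - y * z)).sum‖ ≤ C := by
      rw [← hsum.tsum_eq]
      exact tsum_of_norm_bounded hg hbd
    have hre : ((γ.map fun y => y * z / (1 - y * z)).sum).re ≤ C :=
      (Complex.re_le_norm _).trans hnorm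
    rw [hγ', Multiset.map_cons, Multiset.sum_cons, Complex.add_re] at hre
    have hxz : x * z = ((1 - ε : ℝ) : ℂ) := by
      rw [hz]
      field_simp
    have hfirst : (x * z / (1 - x * z)).re = (1 - ε) / ε := by
      rw [hxz, ← Complex.ofReal_one, ← Complex.ofReal_sub, ← Complex.ofReal_div, Complex.ofReal_re]
      congr 1
      ring
    have hrest := radius_re γ' z fun y hy => hyz y (by
      rw [hγ']
      exact Multiset.mem_cons_of_mem hy)
    rw [hfirst] at hre
    linarith
  set K := C + (Multiset.card γ' : ℝ) / 2 with hK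
  have hK0 : 0 < K := by
    have : (0 : ℝ) ≤ (Multiset.card γ' : ℝ) / 2 := by positivity
    linarith
  have h1 := key (1 / (K + 2)) (by positivity) ((div_lt_one (by linarith)).mpr (by linarith))
  have h2 : (1 - 1 / (K + 2)) / (1 / (K + 2)) = K + 1 := by
    field_simp
    ring
  rw [h2] at h1
  linarith

end Pool.Agent.Helper48.ST
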