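import Pool.Agent.Helper48.ST.LocInf
import Pool.Agent.Helper48.ST.CDInf
import Pool.Agent.Helper48.ST.DiffB

/-!
ST-88. Selmer elements satisfy the condition of `InS` at infinity.

Proof. `exists_cdInf` (`ℓ ≠ 0` in `F` since `ℓ ∣ q - 1`), `ϖ = 1/t`. `a' j ∈ R` with image `t^(-d) a j` (degree `≤ 0`; if `a j = 0` take `0`), `D' ∈ R` with image `t^(-N) D`, `N = dgs t`, of degree `0`, so `ϖ ∤ D'` and `D'` is a unit (`R` local, `CData`: discrete valuation ring with uniformizer `ϖ`). For `j ≠ k` `a' j - a' k` has image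
`t^(-d) (a j - a k)` of degree `0` (`natDegree_diff`), so `ϖ ∤ a' j - a' k`. `loc_inf` and the third property of `exists_cdInf`.
-/

set_option autoImplicit false

open Polynomial
open scoped Classical
open Pool.Agent.Helper96.PS (CData LData)

namespace Pool.Agent.Helper48.ST

theorem selinf_cast_ne {F : Type} [Field F] [Fintype F] {ℓ : ℕ}
    (hq : ℓ ∣ Fintype.card F - 1) : (ℓ : F) ≠ 0 := by
  intro h0
  obtain ⟨k, hk⟩ := hq
  have h1 : 1 ≤ Fintype.card F := Fintype.card_pos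
  have h2 : Fintype.card F = ℓ * k + 1 := by omega
  have h3 : ((Fintype.card F : ℕ) : F) = 0 := FiniteField.cast_card_eq_zero F
  rw [h2] at h3
  push_cast at h3
  rw [h0, zero_mul, zero_add] at h3
  exact one_ne_zero h3

theorem selinf_deg {F : Type} [Field F] (m : ℕ) {A : F[X]} (hA : A ≠ 0) :
    ((1 / RatFunc.X : RatFunc F) ^ m * algebraMap F[X] (RatFunc F) A).intDegree =
      (A.natDegree : ℤ) - m := by
  have hA' : algebraMap F[X] (RatFunc F) A ≠ 0 := RatFunc.algebraMap_ne_zero hA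
  have hX : (1 / RatFunc.X : RatFunc F) ≠ 0 := one_div_ne_zero RatFunc.X_ne_zero
  have hXm : ∀ m : ℕ, ((1 / RatFunc.X : RatFunc F) ^ m).intDegree = -(m : ℤ) := by
    intro m
    induction m with
    | zero => simp
    | succ m ih =>
      rw [pow_succ, RatFunc.intDegree_mul (pow_ne_zero _ hX) hX, ih, one_div,
        RatFunc.intDegree_inv, RatFunc.intDegree_X]
      push_cast
      ring
  rw [RatFunc.intDegree_mul (pow_ne_zero _ hX) hA', hXm, RatFunc.intDegree_polynomial]
  ring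

theorem sel_inf {F : Type} [Field F] [Fintype F] {ℓ : ℕ} [Fact ℓ.Prime]
    (h2 : ℓ ≠ 2) (hq : ℓ ∣ Fintype.card F - 1) {n d u : ℕ} (hu : n * u ≡ 1 [MOD ℓ])
    {a : Fin n → F[X]} (ha : Stp d a) {t : Finset (Ir F)} (hN : ℓ ∣ dgs t + n * d)
    (x : Fin n → (RatFunc F)ˣ)
    (hx : LocSel (RatFunc.CompletionAtInfty F) ℓ u (fun i => algebraMap F[X] (RatFunc F) (a i))
      (algebraMap F[X] (RatFunc F) (pr t)) x) (j : Fin n) :
    (ℓ : ℤ) ∣ (x j : RatFunc F).intDegree := by
  have hℓp : ℓ.Prime := Fact.out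
  obtain ⟨R, iR1, iR2, iR3, ϖ, hC, hℓu, hϖ, h3, h4, h5⟩ :=
    exists_cdInf F ℓ (selinf_cast_ne hq)
  have hX : (1 / RatFunc.X : RatFunc F) ≠ 0 := one_div_ne_zero RatFunc.X_ne_zero
  -- the integral representatives
  have key : ∀ (m : ℕ) (A : F[X]), A.natDegree ≤ m → ∃ r : R,
      algebraMap R (RatFunc.CompletionAtInfty F) r =
        algebraMap R (RatFunc.CompletionAtInfty F) ϖ ^ m *
          algebraMap (RatFunc F) (RatFunc.CompletionAtInfty F)
            (algebraMap F[X] (RatFunc F) A) := by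
    intro m A hA
    by_cases hA0 : A = 0
    · refine ⟨0, ?_⟩
      rw [hA0, map_zero, map_zero, map_zero, mul_zero]
    · have hne : (1 / RatFunc.X : RatFunc F) ^ m * algebraMap F[X] (RatFunc F) A ≠ 0 :=
        mul_ne_zero (pow_ne_zero _ hX) (RatFunc.algebraMap_ne_zero hA0)
      obtain ⟨r, hr⟩ := h4 _ hne (by
        rw [selinf_deg m hA0]
        have : (A.natDegree : ℤ) ≤ m := by exact_mod_cast hA
        linarith)
      refine ⟨r, ?_⟩
      rw [hr, map_mul, map_pow, hϖ]
  have key2 : ∀ (m : ℕ) (A : F[X]) (r : R), A ≠ 0 → A.natDegree = m →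
      algebraMap R (RatFunc.CompletionAtInfty F) r =
        algebraMap R (RatFunc.CompletionAtInfty F) ϖ ^ m *
          algebraMap (RatFunc F) (RatFunc.CompletionAtInfty F)
            (algebraMap F[X] (RatFunc F) A) → ¬ ϖ ∣ r := by
    intro m A r hA0 hA hr
    have hne : (1 / RatFunc.X : RatFunc F) ^ m * algebraMap F[X] (RatFunc F) A ≠ 0 :=
      mul_ne_zero (pow_ne_zero _ hX) (RatFunc.algebraMap_ne_zero hA0)
    refine h5 _ r hne ?_ ?_
    · rw [selinf_deg m hA0, hA]
      ring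
    · rw [hr, map_mul, map_pow, hϖ]
  choose a' ha' using fun i => key d (a i) (ha.deg i)
  obtain ⟨D', hD'⟩ := key (dgs t) (pr t) (natDegree_pr t).le
  have hD'u : IsUnit D' :=
    (hC.isUnit_iff D').2 (key2 (dgs t) (pr t) D' (pr_monic t).ne_zero (natDegree_pr t) hD')
  have hdiff : ∀ i k, i ≠ k → ¬ ϖ ∣ a' i - a' k := by
    intro i k hik
    refine key2 d (a i - a k) _ (diff_ne_zero ha hik) (natDegree_diff ha hik) ?_
    rw [map_sub, ha' i, ha' k, map_sub, map_sub, mul_sub]
  have hodd : Odd ℓ := hℓp.odd_of_ne_two h2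
  have hmain := loc_inf hC hℓp hodd hℓu hu d (dgs t) hN
    (fun i => algebraMap (RatFunc F) (RatFunc.CompletionAtInfty F)
      (algebraMap F[X] (RatFunc F) (a i)))
    (algebraMap (RatFunc F) (RatFunc.CompletionAtInfty F) (algebraMap F[X] (RatFunc F) (pr t)))
    a' D' ha' hD' hD'u hdiff _ hx j
  exact h3 (x j : RatFunc F) (x j).ne_zero hmain

end Pool.Agent.Helper48.ST
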