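import Pool.Agent.Helper48.ST.SelFin
import Pool.Agent.Helper48.ST.SelInf

/-!
ST-89. The Selmer group is contained in `InS`.

Proof. `sel_fin`, `sel_inf` and the definition of `Sel`.
-/

set_option autoImplicit false

open Polynomial
open scoped Classical
open Pool.Agent.Helper96.PS (CData LData)

namespace Pool.Agent.Helper48.ST

theorem sel_in {F : Type} [Field F] [Fintype F] {ℓ : ℕ} [Fact ℓ.Prime] (g : Lg F ℓ)
    (h2 : ℓ ≠ 2) (hq : ℓ ∣ Fintype.card F - 1) {n d u : ℕ} (hn1 : 1 ≤ n)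
    (hu : n * u ≡ 1 [MOD ℓ]) {a : Fin n → F[X]}
    (ha : Stp d a) {t : Finset (Ir F)} (ht : Disjoint t (SS a)) (hN : ℓ ∣ dgs t + n * d)
    (x : Fin n → (RatFunc F)ˣ)
    (hx : x ∈ Sel F ℓ u (fun i => algebraMap F[X] (RatFunc F) (a i))
      (algebraMap F[X] (RatFunc F) (pr t))) : InS g a t x :=
  ⟨hx.1, fun j => sel_inf h2 hq hu ha hN x hx.2.2 j,
    fun P => sel_fin g h2 hq hn1 hu ha ht x P hx.2.1⟩

end Pool.Agent.Helper48.ST
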