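import Pool.Agent.Helper48.ST.TorSel
import Pool.Agent.Helper48.ST.KOr
import Pool.Agent.Helper48.ST.SelIn

/-!
ST-94. The order of the Selmer group modulo `ℓ`-th powers.

Proof. `G = Fin n → (RatFunc F)ˣ`, `κ = ℓ^(n-1)`. `(Pw F n ℓ).relIndex S` for a subgroup `S ≥ Pw` is the number of elements of the image of `S` in `G ⧸ Pw` (`Subgroup.relIndex`, index of `Pw.subgroupOf S`; first isomorphism theorem for `S → G ⧸ Pw`). The image of `Sel` is contained in `clsS g a t` (`sel_in`), which is finite (`cls_le`):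
the first two statements. It contains the classes of `Tor w`, of which there are exactly `κ` (as in ST-63: the class depends on `w mod ℓ` only, all `v ∈ Vs` have lifts, different `v` have different classes by `tor_inj`; `tor_sel`; `card_Vs`): third statement. If all elements are torsion classes the number is `κ`.
-/

set_option autoImplicit false

open Polynomial
open scoped Classical
open Pool.Agent.Helper96.PS (CData LData)

namespace Pool.Agent.Helper48.ST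

theorem ri_card {F : Type} [Field F] {n ℓ : ℕ} (S : Subgroup (Fin n → (RatFunc F)ˣ)) :
    (Pw F n ℓ).relIndex S = Nat.card (S.map (QuotientGroup.mk' (Pw F n ℓ))) := by
  have h1 : (⊥ : Subgroup ((Fin n → (RatFunc F)ˣ) ⧸ Pw F n ℓ)).comap
      (QuotientGroup.mk' (Pw F n ℓ)) = Pw F n ℓ := by
    rw [MonoidHom.comap_bot, QuotientGroup.ker_mk']
  have h2 := Subgroup.relIndex_comap (⊥ : Subgroup ((Fin n → (RatFunc F)ˣ) ⧸ Pw F n ℓ))
    (QuotientGroup.mk' (Pw F n ℓ)) S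
  rw [h1, Subgroup.relIndex_bot_left] at h2
  exact h2

section
variable {F : Type} [Field F] [Fintype F] {ℓ : ℕ} [Fact ℓ.Prime] (g : Lg F ℓ)
    (h2 : ℓ ≠ 2) (hq : ℓ ∣ Fintype.card F - 1) {n d u : ℕ} (hn1 : 2 ≤ n) (hn : ¬ ℓ ∣ n)
    (hd : 1 ≤ d) (hu : n * u ≡ 1 [MOD ℓ]) {a : Fin n → F[X]} (ha : Stp d a)
    {t : Finset (Ir F)} (ht : Disjoint t (SS a)) (hN : ℓ ∣ dgs t + n * d)

include h2 hq hn1 hu ha ht hN in
theorem ri_sub : (((Sel F ℓ u (fun i => algebraMap F[X] (RatFunc F) (a i))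
    (algebraMap F[X] (RatFunc F) (pr t))).map (QuotientGroup.mk' (Pw F n ℓ)) :
      Subgroup ((Fin n → (RatFunc F)ˣ) ⧸ Pw F n ℓ)) :
        Set ((Fin n → (RatFunc F)ˣ) ⧸ Pw F n ℓ)) ⊆ clsS g a t := by
  rintro _ ⟨x, hx, rfl⟩
  exact ⟨x, sel_in g h2 hq (by omega) hu ha ht hN x hx, rfl⟩

include h2 hn1 ha ht in
theorem ri_fin : (clsS g a t).Finite := by
  obtain ⟨pa, pb, hp⟩ := exists_pairs (d := d) (by omega : 1 ≤ n) ha
  obtain ⟨cS, cI, _, hcl⟩ := cls_le g h2 ha hp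
  exact (hcl t ht).1

include g h2 hq hn1 hu ha ht hN in
theorem ri_finite : Finite ((Sel F ℓ u (fun i => algebraMap F[X] (RatFunc F) (a i))
    (algebraMap F[X] (RatFunc F) (pr t))).map (QuotientGroup.mk' (Pw F n ℓ)) :
      Subgroup ((Fin n → (RatFunc F)ˣ) ⧸ Pw F n ℓ)) :=
  (ri_fin g h2 hn1 ha ht).subset (ri_sub g h2 hq hn1 hu ha ht hN)

include h2 hq hu in
theorem ri_T_le : kor_T ℓ ha t ≤ (Sel F ℓ u (fun i => algebraMap F[X] (RatFunc F) (a i))
    (algebraMap F[X] (RatFunc F) (pr t))).map (QuotientGroup.mk' (Pw F n ℓ)) := by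
  rintro _ ⟨w, hw, rfl⟩
  exact ⟨kor_u ha t w, tor_sel h2 hq hu ha w hw (kor_u ha t w) 1 (fun j => by
    rw [kor_u_val, Pi.one_apply, Units.val_one, one_pow, mul_one]), rfl⟩

include g h2 hq hn1 hn hd hu ha ht hN in
theorem relIx_ne : (Pw F n ℓ).relIndex (Sel F ℓ u (fun i => algebraMap F[X] (RatFunc F) (a i))
    (algebraMap F[X] (RatFunc F) (pr t))) ≠ 0 := by
  rw [ri_card]
  have h := ri_finite g h2 hq hn1 hu ha ht hN
  exact Nat.card_pos.ne'

include h2 hq hn1 hn hd hu ha ht hN in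
theorem relIx_le : (Pw F n ℓ).relIndex (Sel F ℓ u (fun i => algebraMap F[X] (RatFunc F) (a i))
    (algebraMap F[X] (RatFunc F) (pr t))) ≤ (clsS g a t).ncard := by
  rw [ri_card]
  exact Set.ncard_le_ncard (ri_sub g h2 hq hn1 hu ha ht hN) (ri_fin g h2 hn1 ha ht)

include g h2 hq hn1 hn hd hu ha ht hN in
theorem le_relIx : ℓ ^ (n - 1) ≤ (Pw F n ℓ).relIndex
    (Sel F ℓ u (fun i => algebraMap F[X] (RatFunc F) (a i))
      (algebraMap F[X] (RatFunc F) (pr t))) := by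
  rw [ri_card, ← kor_card_T hn1 hn hd ha ht]
  have h := ri_finite g h2 hq hn1 hu ha ht hN
  exact Set.ncard_le_ncard (ri_T_le h2 hq hu ha) (Set.toFinite _)

include h2 hq hn1 hn hd hu ha ht hN in
theorem relIx_eq (h : ∀ x : Fin n → (RatFunc F)ˣ, InS g a t x →
      ∃ w : Fin n → ℤ, ∑ i, w i = 0 ∧ ∃ b : Fin n → (RatFunc F)ˣ,
        ∀ j, (x j : RatFunc F) = Tor a (pr t) w j * (b j : RatFunc F) ^ ℓ) :
    (Pw F n ℓ).relIndex (Sel F ℓ u (fun i => algebraMap F[X] (RatFunc F) (a i))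
      (algebraMap F[X] (RatFunc F) (pr t))) = ℓ ^ (n - 1) := by
  refine le_antisymm ?_ (le_relIx g h2 hq hn1 hn hd hu ha ht hN)
  rw [ri_card, ← kor_card_T hn1 hn hd ha ht]
  have hfin : Finite (kor_T ℓ ha t) := by
    apply Nat.finite_of_card_ne_zero
    rw [kor_card_T hn1 hn hd ha ht]
    exact pow_ne_zero _ (Fact.out : ℓ.Prime).ne_zero
  refine Set.ncard_le_ncard ?_ (Set.toFinite _)
  rintro _ ⟨x, hx, rfl⟩
  obtain ⟨w, hw, b, hb⟩ := h x (sel_in g h2 hq (by omega) hu ha ht hN x hx)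
  refine ⟨w, hw, QuotientGroup.eq.2 ⟨b, ?_⟩⟩
  have h3 : x = kor_u ha t w * b ^ ℓ := by
    funext j
    apply Units.ext
    rw [hb j]
    rfl
  change b ^ ℓ = (kor_u ha t w)⁻¹ * x
  rw [h3, inv_mul_cancel_left]

end

end Pool.Agent.Helper48.ST
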