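import Pool.Agent.Helper48.ST.LocFin
import Pool.Agent.Helper48.ST.BrFin
import Pool.Agent.Helper48.ST.DiffB
import Pool.Agent.Helper48.ST.InGrp

/-!
ST-87. Selmer elements satisfy the local conditions of `InS` at the finite places.

Proof. `P : Ir F` gives the height one prime `v = (P)` (`v.asIdeal = span {P}`), `R = v.adicCompletionIntegers`, `M = v.adicCompletion`, `hL = lData_adicCompletion v` (Helper96/PS/CompDVR), `ϖ` = image of `P`. `ℓ` is a unit in `R` (a nonzero constant of `F`: `ℓ ≠ 0` in `F` because `ℓ ∣ q - 1`). The images of `a j` and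
`D = pr t` satisfy `LHyp` by `hL.inj` (`ϖ^k ∣ image → P^k ∣`) and `Stp`, `Pairs`-type facts: `P^2 ∤ pr t` (`squarefree_pr`), `P^2 ∤ a j - a k` (`disc a` squarefree), `P ∣ a j - a k → P ∈ SS a → P ∉ t → P ∤ pr t`, uniqueness (`exists_pairs`, `pairs_iff`). So `loc_fin` gives `w` with `LCond` for the images of the `x j`
(`algebraMap R M (algebraMap F[X] R a) = algebraMap (RatFunc F) M (a)` by `hL.comp`; `LocSel` is about the image of `z`). `TorM` over `M` is the image of `Tor` (`map_zpow₀`, `map_prod`). So the images of `y j = x j / Tor w j` satisfy: all `UnrM`, so `ℓ ∣ vl P (y j)` (`br_unr`) `= vl P (x j) - vl P (Tor w j)`;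
if `P ∈ t` then `ϖ ∣ D`, they are `PowM` and `ch g P (y j) = 0` (`br_pow`); if `P ∣ a j - a k` then `ch g P (y j / y k) = 0`.
-/

set_option autoImplicit false

open Polynomial
open scoped Classical
open Pool.Agent.Helper96.PS (CData LData)

namespace Pool.Agent.Helper48.ST

theorem sel_fin_aux {F : Type} [Field F] [Fintype F] {ℓ : ℕ} [Fact ℓ.Prime] (g : Lg F ℓ)
    (h2 : ℓ ≠ 2) (hq : ℓ ∣ Fintype.card F - 1) {n d u : ℕ} (hn1 : 1 ≤ n)
    (hu : n * u ≡ 1 [MOD ℓ]) {a : Fin n → F[X]}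
    (ha : Stp d a) {t : Finset (Ir F)} (ht : Disjoint t (SS a)) (x : Fin n → (RatFunc F)ˣ)
    (P : Ir F) {R M : Type} [CommRing R] [IsDomain R] [Field M] [Algebra R M] [Algebra F[X] R]
    [Algebra (RatFunc F) M] (hL : LData P.1 R M)
    (hx : LocSel M ℓ u (fun i => algebraMap F[X] (RatFunc F) (a i))
        (algebraMap F[X] (RatFunc F) (pr t)) x) :
    ∃ w : Fin n → ℤ, ∑ i, w i = 0 ∧
      (∀ j, (ℓ : ℤ) ∣ vl P (x j) - vl P (Tor a (pr t) w j)) ∧
      (P ∈ t → ∀ j, ch g P (x j) = ch g P (Tor a (pr t) w j)) ∧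
      (∀ j k, j ≠ k → P.1 ∣ a j - a k →
        ch g P (x j) - ch g P (x k) = ch g P (Tor a (pr t) w j) - ch g P (Tor a (pr t) w k)) := by
  obtain ⟨pa, pb, hp⟩ := exists_pairs hn1 ha
  have hℓp : ℓ.Prime := Fact.out
  have hodd : Odd ℓ := hℓp.odd_of_ne_two h2
  have hℓF : (ℓ : F) ≠ 0 := by
    intro h0
    have hc : ((Fintype.card F : ℕ) : F) = 0 := FiniteField.cast_card_eq_zero F
    obtain ⟨m, hm⟩ := hq
    have hpos : 1 ≤ Fintype.card F := Fintype.card_pos
    have h1 : Fintype.card F = ℓ * m + 1 := by omega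
    rw [h1] at hc
    push_cast at hc
    rw [h0, zero_mul, zero_add] at hc
    exact one_ne_zero hc
  have hℓR : IsUnit (ℓ : R) := by
    have h1 : IsUnit (algebraMap F[X] R (C (ℓ : F))) :=
      (Polynomial.isUnit_C.2 (isUnit_iff_ne_zero.2 hℓF)).map _
    rwa [map_natCast, map_natCast] at h1
  have hdv : ∀ A : F[X], algebraMap F[X] R P.1 ∣ algebraMap F[X] R A → P.1 ∣ A := by
    intro A hA
    have h1 := hL.inj A 1 (by rw [pow_one]; exact hA)
    rwa [pow_one] at h1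
  have hsq : ∀ j k, j ≠ k →
      ¬ (algebraMap F[X] R P.1) ^ 2 ∣ algebraMap F[X] R (a j) - algebraMap F[X] R (a k) := by
    intro j k hjk h
    rw [← map_sub] at h
    have h' := hL.inj _ _ h
    exact P.2.2.not_isUnit (ha.sqf P.1 (by rw [← sq]; exact h'.trans (diffB_dvd_disc' a hjk)))
  have hSS : ∀ j k, j ≠ k →
      algebraMap F[X] R P.1 ∣ algebraMap F[X] R (a j) - algebraMap F[X] R (a k) →
      P.1 ∣ a j - a k ∧ P ∈ SS a := by
    intro j k hjk h
    rw [← map_sub] at h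
    have h' := hdv _ h
    exact ⟨h', (mem_SS ha P).2 ⟨j, k, hjk, h'⟩⟩
  have L : LHyp (algebraMap F[X] R P.1) (fun i => algebraMap F[X] R (a i))
      (algebraMap F[X] R (pr t)) := by
    refine ⟨fun j k hjk h => ?_, fun h => ?_, hsq, fun j k hjk h hD => ?_,
      fun j k j' k' hjk hjk' h h' => ?_⟩
    · exact hsq j k hjk (by rw [sub_eq_zero.2 h]; exact dvd_zero _)
    · exact P.2.2.not_isUnit (squarefree_pr t P.1 (by rw [← sq]; exact hL.inj _ _ h))
    · have h1 := hSS j k hjk h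
      exact Finset.disjoint_left.1 ht ((mem_iff_dvd_pr P t).2 (hdv _ hD)) h1.2
    · have h1 := hSS j k hjk h
      have h1' := hSS j' k' hjk' h'
      rcases (pairs_iff ha hp h1.2 j k hjk).1 h1.1 with ⟨e1, e2⟩ | ⟨e1, e2⟩ <;>
        rcases (pairs_iff ha hp h1.2 j' k' hjk').1 h1'.1 with ⟨e1', e2'⟩ | ⟨e1', e2'⟩
      · exact Or.inl ⟨e1'.trans e1.symm, e2'.trans e2.symm⟩
      · exact Or.inr ⟨e1'.trans e2.symm, e2'.trans e1.symm⟩
      · exact Or.inr ⟨e1'.trans e2.symm, e2'.trans e1.symm⟩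
      · exact Or.inl ⟨e1'.trans e1.symm, e2'.trans e2.symm⟩
  have hz : (fun j => Units.map (algebraMap (RatFunc F) M).toMonoidHom (x j)) ∈
      LocIm M ℓ u (fun i => algebraMap R M (algebraMap F[X] R (a i)))
        (algebraMap R M (algebraMap F[X] R (pr t))) := by
    simp only [hL.comp]
    exact hx
  obtain ⟨w, hw, c1, c2, c3⟩ := loc_fin hL.toCData hℓp hodd hℓR hu _ _ L _ hz
  have hT : ∀ j, Tor a (pr t) w j ≠ 0 := fun j => tor_ne_zero ha w j
  have hy : ∀ j, (x j : RatFunc F) / Tor a (pr t) w j ≠ 0 :=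
    fun j => div_ne_zero (x j).ne_zero (hT j)
  have hTor : ∀ j, TorM (fun i => algebraMap R M (algebraMap F[X] R (a i)))
      (algebraMap R M (algebraMap F[X] R (pr t))) w j =
      algebraMap (RatFunc F) M (Tor a (pr t) w j) := by
    intro j
    unfold TorM Tor
    rw [map_mul, map_zpow₀, map_prod, hL.comp]
    congr 1
    refine Finset.prod_congr rfl fun i _ => ?_
    beta_reduce
    rw [map_zpow₀, hL.comp, hL.comp, map_sub, map_sub]
  have key : ∀ j, ((Units.map (algebraMap (RatFunc F) M).toMonoidHom (x j) : Mˣ) : M) /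
      TorM (fun i => algebraMap R M (algebraMap F[X] R (a i)))
      (algebraMap R M (algebraMap F[X] R (pr t))) w j =
      algebraMap (RatFunc F) M ((x j : RatFunc F) / Tor a (pr t) w j) := by
    intro j
    rw [hTor, map_div₀]
    rfl
  have hch : ∀ j, ch g P ((x j : RatFunc F) / Tor a (pr t) w j) =
      ch g P (x j) - ch g P (Tor a (pr t) w j) := by
    intro j
    rw [div_eq_mul_inv, ch_mul g P _ _ (x j).ne_zero (inv_ne_zero (hT j)), ch_inv g P _ (hT j),
      sub_eq_add_neg]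
  refine ⟨w, hw, fun j => ?_, fun hP j => ?_, fun j k hjk hd => ?_⟩
  · have h1 := c1 j
    simp only [key] at h1
    have h3 := br_unr P hL ℓ _ (hy j) h1
    rwa [div_eq_mul_inv, vl_mul P _ _ (x j).ne_zero (inv_ne_zero (hT j)), vl_inv P _ (hT j),
      ← sub_eq_add_neg] at h3
  · have h1 := c2 (map_dvd (algebraMap F[X] R) ((mem_iff_dvd_pr P t).1 hP)) j
    simp only [key] at h1
    have h3 := br_pow g P hL _ (hy j) h1
    rw [hch] at h3
    exact sub_eq_zero.1 h3
  · have h1 := c3 j k hjk (by rw [← map_sub]; exact map_dvd _ hd)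
    simp only [key] at h1
    rw [← map_div₀] at h1
    have h3 := br_pow g P hL _ (div_ne_zero (hy j) (hy k)) h1
    rw [div_eq_mul_inv, ch_mul g P _ _ (hy j) (inv_ne_zero (hy k)), ch_inv g P _ (hy k), hch,
      hch] at h3
    linear_combination h3

theorem sel_fin {F : Type} [Field F] [Fintype F] {ℓ : ℕ} [Fact ℓ.Prime] (g : Lg F ℓ)
    (h2 : ℓ ≠ 2) (hq : ℓ ∣ Fintype.card F - 1) {n d u : ℕ} (hn1 : 1 ≤ n)
    (hu : n * u ≡ 1 [MOD ℓ]) {a : Fin n → F[X]}
    (ha : Stp d a) {t : Finset (Ir F)} (ht : Disjoint t (SS a)) (x : Fin n → (RatFunc F)ˣ)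
    (P : Ir F)
    (hx : ∀ v : IsDedekindDomain.HeightOneSpectrum F[X],
      LocSel (v.adicCompletion (RatFunc F)) ℓ u (fun i => algebraMap F[X] (RatFunc F) (a i))
        (algebraMap F[X] (RatFunc F) (pr t)) x) :
    ∃ w : Fin n → ℤ, ∑ i, w i = 0 ∧
      (∀ j, (ℓ : ℤ) ∣ vl P (x j) - vl P (Tor a (pr t) w j)) ∧
      (P ∈ t → ∀ j, ch g P (x j) = ch g P (Tor a (pr t) w j)) ∧
      (∀ j k, j ≠ k → P.1 ∣ a j - a k →
        ch g P (x j) - ch g P (x k) = ch g P (Tor a (pr t) w j) - ch g P (Tor a (pr t) w k)) := by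
  have hv : (Ideal.span {P.1} : Ideal F[X]).IsPrime :=
    (Ideal.span_singleton_prime P.2.2.ne_zero).2 P.2.2.prime
  have hb : (Ideal.span {P.1} : Ideal F[X]) ≠ ⊥ := by
    rw [Ne, Ideal.span_singleton_eq_bot]
    exact P.2.2.ne_zero
  exact sel_fin_aux g h2 hq hn1 hu ha ht x P
    (Pool.Agent.Helper96.PS.lData_adicCompletion
      (⟨Ideal.span {P.1}, hv, hb⟩ : IsDedekindDomain.HeightOneSpectrum F[X]) rfl)
    (hx ⟨Ideal.span {P.1}, hv, hb⟩)

end Pool.Agent.Helper48.ST
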