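import Pool.Agent.Helper48.ST.HCor
import Pool.Agent.Helper48.ST.FamProd
import Pool.Agent.Helper48.ST.Split

/-!
ST-24. Families with fewer than `κ` long members.

Proof. `m₀ = card Ω`, `q = card F`. Split according to the set `U` of the long members, `card U < κ` (at most `2^m₀` sets). For fixed `U`, by `split_real` (applied to the
summand times the indicator of `{u : T ≤ dgs (s u)} = U`, then drop the condition that the members in `U` are long) the sum is at most
`∑_m ∑_{s' ∈ Fam Uᶜ S m, all members of degree < T} κ^(-∑ card (s' v)) ∑_{s'' ∈ Fam U (S ∪ uni s') (N - m)} κ^(-∑ card (s'' u))`, `m ≤ m₀ T ≤ N/2`. The inner sum is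
`∑_{t ∈ Sq (S ∪ uni s') (N-m)} (card U / κ)^(card t)` by `fam_prod_real` (`f = κ⁻¹`), and `card U / κ ≤ 1 - 1/κ`, so by `pow_bound` it is at most
`3 q^(N-m) (N-m)^(-1/κ) ≤ 6 q^(N-m) N^(-1/κ)` (`N - m ≥ N/2`, `2^(1/κ) ≤ 2`). The sum of `q^(-m)` over the short families `s'` is at most
`T^(card Uᶜ) ≤ T^m₀` (`short_sum`).
-/

set_option autoImplicit false

open Polynomial
open scoped Classical

namespace Pool.Agent.Helper48.ST

/-- The inner sum: free families indexed by `U`, `card U < κ`. -/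
private theorem stepA_inner {F : Type} [Field F] [Fintype F] {ι : Type} [Fintype ι] (κ : ℕ)
    (hκ : 1 ≤ κ) (hι : Fintype.card ι < κ) (S : Finset (Ir F)) (N m : ℕ) (hN : 1 ≤ N)
    (hm : 2 * m ≤ N) :
    ∑ s ∈ Fam ι S (N - m), ((κ : ℝ)⁻¹) ^ (∑ u, (s u).card) ≤
      6 * (Fintype.card F : ℝ) ^ N * (N : ℝ) ^ (-(1 / (κ : ℝ))) *
        ((Fintype.card F : ℝ)⁻¹) ^ m := by
  have hκ0 : (0 : ℝ) < κ := by exact_mod_cast hκ
  have hq0 : (0 : ℝ) < Fintype.card F := by exact_mod_cast Fintype.card_pos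
  have hNm : 1 ≤ N - m := by omega
  have h1 : ∑ s ∈ Fam ι S (N - m), ((κ : ℝ)⁻¹) ^ (∑ u, (s u).card) =
      ∑ t ∈ Sq S (N - m), ((Fintype.card ι : ℝ) * (κ : ℝ)⁻¹) ^ t.card := by
    have h := fam_prod_real (F := F) (Ω := ι) S (N - m) (fun _ _ => (κ : ℝ)⁻¹)
    simp only [Finset.prod_const, Finset.sum_const, Finset.card_univ, nsmul_eq_mul] at h
    rw [← h]
    refine Finset.sum_congr rfl fun s _ => ?_
    rw [Finset.prod_pow_eq_pow_sum]
  rw [h1]
  have hz1 : (Fintype.card ι : ℝ) * (κ : ℝ)⁻¹ ≤ 1 - 1 / (κ : ℝ) := by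
    have h : (Fintype.card ι : ℝ) + 1 ≤ κ := by exact_mod_cast hι
    have : (1 : ℝ) - 1 / κ = (κ - 1) * (κ : ℝ)⁻¹ := by field_simp
    rw [this]
    exact mul_le_mul_of_nonneg_right (by linarith) (by positivity)
  refine (pow_bound S κ hκ _ (by positivity) hz1 (N - m) hNm).trans ?_
  have hqq : (Fintype.card F : ℝ) ^ (N - m) =
      (Fintype.card F : ℝ) ^ N * ((Fintype.card F : ℝ)⁻¹) ^ m := by
    have : (Fintype.card F : ℝ) ^ N = (Fintype.card F : ℝ) ^ (N - m) * (Fintype.card F : ℝ) ^ m := by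
      rw [← pow_add]
      congr 1
      omega
    rw [this, inv_pow, mul_assoc, mul_inv_cancel₀ (by positivity), mul_one]
  have hN0 : (0 : ℝ) < N := by exact_mod_cast hN
  have hr : ((N - m : ℕ) : ℝ) ^ (-(1 / (κ : ℝ))) ≤ 2 * (N : ℝ) ^ (-(1 / (κ : ℝ))) := by
    have h2 : (N : ℝ) / 2 ≤ ((N - m : ℕ) : ℝ) := by
      rw [Nat.cast_sub (by omega)]
      have : (2 : ℝ) * m ≤ N := by exact_mod_cast hm
      linarith
    have h3 : ((N - m : ℕ) : ℝ) ^ (-(1 / (κ : ℝ))) ≤ ((N : ℝ) / 2) ^ (-(1 / (κ : ℝ))) :=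
      Real.rpow_le_rpow_of_nonpos (by positivity) h2 (by
        have : (0 : ℝ) ≤ 1 / κ := by positivity
        linarith)
    refine h3.trans ?_
    rw [Real.div_rpow hN0.le (by norm_num), Real.rpow_neg (by norm_num : (0 : ℝ) ≤ 2),
      div_inv_eq_mul, mul_comm]
    refine mul_le_mul_of_nonneg_right ?_ (by positivity)
    calc (2 : ℝ) ^ (1 / (κ : ℝ)) ≤ (2 : ℝ) ^ (1 : ℝ) := by
          refine Real.rpow_le_rpow_of_exponent_le (by norm_num) ?_
          rw [div_le_one hκ0]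
          exact_mod_cast hκ
      _ = 2 := Real.rpow_one 2
  calc 3 * (Fintype.card F : ℝ) ^ (N - m) * ((N - m : ℕ) : ℝ) ^ (-(1 / (κ : ℝ)))
      ≤ 3 * (Fintype.card F : ℝ) ^ (N - m) * (2 * (N : ℝ) ^ (-(1 / (κ : ℝ)))) :=
        mul_le_mul_of_nonneg_left hr (by positivity)
    _ = 6 * (Fintype.card F : ℝ) ^ N * (N : ℝ) ^ (-(1 / (κ : ℝ))) *
        ((Fintype.card F : ℝ)⁻¹) ^ m := by rw [hqq]; ring

/-- Families whose members outside `U` are short. -/
private theorem stepA_fixed {F : Type} [Field F] [Fintype F] {Ω : Type} [Fintype Ω] (κ : ℕ)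
    (hκ : 1 ≤ κ) (S : Finset (Ir F)) (N T : ℕ) (hN : 1 ≤ N) (hT : 1 ≤ T)
    (hTN : 2 * Fintype.card Ω * T ≤ N) (U : Finset Ω) (hU : U.card < κ) :
    ∑ s ∈ (Fam Ω S N).filter (fun s => ∀ v, v ∉ U → dgs (s v) < T),
      ((κ : ℝ)⁻¹) ^ (∑ u, (s u).card) ≤
      6 * (T : ℝ) ^ Fintype.card Ω * (Fintype.card F : ℝ) ^ N * (N : ℝ) ^ (-(1 / (κ : ℝ))) := by
  have hκ0 : (0 : ℝ) < κ := by exact_mod_cast hκ
  have hκ1 : (κ : ℝ)⁻¹ ≤ 1 := inv_le_one_of_one_le₀ (by exact_mod_cast hκ)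
  have hq0 : (0 : ℝ) < Fintype.card F := by exact_mod_cast Fintype.card_pos
  have hT1 : (1 : ℝ) ≤ T := by exact_mod_cast hT
  have hN0 : (0 : ℝ) < N := by exact_mod_cast hN
  rw [Finset.sum_filter, split_real U S N]
  set C : ℝ := 6 * (Fintype.card F : ℝ) ^ N * (N : ℝ) ^ (-(1 / (κ : ℝ))) with hC
  have hC0 : 0 ≤ C := by positivity
  have hcardU : Fintype.card {u : Ω // u ∈ U} = U.card := by simp
  have key : ∀ m ∈ Finset.range (N + 1), ∀ s' ∈ Fam {u : Ω // u ∉ U} S m,
      ∑ s'' ∈ Fam {u : Ω // u ∈ U} (S ∪ uni s') (N - m),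
        (if ∀ v, v ∉ U → dgs (glue U s'' s' v) < T then
          ((κ : ℝ)⁻¹) ^ (∑ u, (glue U s'' s' u).card) else 0) ≤
      if ∀ u, dgs (s' u) < T then C * ((Fintype.card F : ℝ)⁻¹) ^ m else 0 := by
    intro m _ s' hs'
    have hcond : ∀ s'' : {u : Ω // u ∈ U} → Finset (Ir F),
        (∀ v, v ∉ U → dgs (glue U s'' s' v) < T) ↔ ∀ u, dgs (s' u) < T := by
      intro s''
      constructor
      · intro h u
        have := h u.1 u.2
        rwa [glue, dif_neg u.2] at this
      · intro h v hv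
        rw [glue, dif_neg hv]
        exact h _
    by_cases hs : ∀ u, dgs (s' u) < T
    · rw [if_pos hs]
      have hm2 : 2 * m ≤ N := by
        have h1 := (mem_Fam.1 hs').2.2
        have h2 : ∑ u, dgs (s' u) ≤ Fintype.card {u : Ω // u ∉ U} * T := by
          calc ∑ u, dgs (s' u) ≤ ∑ _u : {u : Ω // u ∉ U}, T :=
                Finset.sum_le_sum fun u _ => (hs u).le
            _ = Fintype.card {u : Ω // u ∉ U} * T := by simp
        have h3 : Fintype.card {u : Ω // u ∉ U} ≤ Fintype.card Ω :=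
          Fintype.card_subtype_le _
        have h4 : Fintype.card {u : Ω // u ∉ U} * T ≤ Fintype.card Ω * T :=
          Nat.mul_le_mul_right _ h3
        have h5 : 2 * (Fintype.card Ω * T) ≤ N := by rw [← mul_assoc]; exact hTN
        omega
      refine (Finset.sum_le_sum fun s'' _ => ?_).trans
        (stepA_inner κ hκ (hcardU ▸ hU) (S ∪ uni s') N m hN hm2)
      rw [if_pos ((hcond s'').2 hs)]
      refine pow_le_pow_of_le_one (by positivity) hκ1 ?_
      have e1 : ∑ u ∈ Finset.univ.filter (fun u : Ω => u ∈ U), (glue U s'' s' u).card =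
          ∑ u : {u : Ω // u ∈ U}, (glue U s'' s' u.1).card :=
        Finset.sum_subtype _ (by simp) (fun u => (glue U s'' s' u).card)
      have e2 : ∀ u : {u : Ω // u ∈ U}, (glue U s'' s' u.1).card = (s'' u).card := by
        intro u
        rw [glue, dif_pos u.2]
      calc ∑ u, (s'' u).card = ∑ u : {u : Ω // u ∈ U}, (glue U s'' s' u.1).card :=
            (Finset.sum_congr rfl fun u _ => e2 u).symm
        _ = ∑ u ∈ Finset.univ.filter (fun u : Ω => u ∈ U), (glue U s'' s' u).card := e1.symm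
        _ ≤ ∑ u, (glue U s'' s' u).card :=
            Finset.sum_le_sum_of_subset (Finset.filter_subset _ _)
    · rw [if_neg hs]
      refine le_of_eq (Finset.sum_eq_zero fun s'' _ => ?_)
      rw [if_neg (fun h => hs ((hcond s'').1 h))]
  calc _ ≤ ∑ m ∈ Finset.range (N + 1), ∑ s' ∈ Fam {u : Ω // u ∉ U} S m,
        (if ∀ u, dgs (s' u) < T then C * ((Fintype.card F : ℝ)⁻¹) ^ m else 0) :=
        Finset.sum_le_sum fun m hm => Finset.sum_le_sum fun s' hs' => key m hm s' hs'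
    _ = C * ∑ m ∈ Finset.range (N + 1),
        ∑ _s ∈ (Fam {u : Ω // u ∉ U} S m).filter (fun s => ∀ u, dgs (s u) < T),
          ((Fintype.card F : ℝ)⁻¹) ^ m := by
        rw [Finset.mul_sum]
        refine Finset.sum_congr rfl fun m _ => ?_
        rw [Finset.mul_sum, Finset.sum_filter]
    _ ≤ C * (T : ℝ) ^ Fintype.card {u : Ω // u ∉ U} :=
        mul_le_mul_of_nonneg_left (short_sum S T N hT) hC0
    _ ≤ C * (T : ℝ) ^ Fintype.card Ω :=
        mul_le_mul_of_nonneg_left (pow_le_pow_right₀ hT1 (Fintype.card_subtype_le _)) hC0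
    _ = _ := by rw [hC]; ring

theorem step_A {F : Type} [Field F] [Fintype F] {Ω : Type} [Fintype Ω] (κ : ℕ) (hκ : 1 ≤ κ)
    (S : Finset (Ir F)) (N T : ℕ) (hN : 1 ≤ N) (hT : 1 ≤ T) (hTN : 2 * Fintype.card Ω * T ≤ N) :
    ∑ s ∈ (Fam Ω S N).filter
        (fun s => (Finset.univ.filter fun u => T ≤ dgs (s u)).card < κ),
      ((κ : ℝ)⁻¹) ^ (∑ u, (s u).card) ≤
      6 * 2 ^ Fintype.card Ω * (T : ℝ) ^ Fintype.card Ω * (Fintype.card F : ℝ) ^ N *
        (N : ℝ) ^ (-(1 / (κ : ℝ))) := by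
  have hκ0 : (0 : ℝ) < κ := by exact_mod_cast hκ
  have hq0 : (0 : ℝ) < Fintype.card F := by exact_mod_cast Fintype.card_pos
  have hN0 : (0 : ℝ) < N := by exact_mod_cast hN
  set w : (Ω → Finset (Ir F)) → ℝ := fun s => ((κ : ℝ)⁻¹) ^ (∑ u, (s u).card) with hw
  have hw0 : ∀ s, 0 ≤ w s := fun s => by positivity
  have h1 : ∑ s ∈ (Fam Ω S N).filter
        (fun s => (Finset.univ.filter fun u => T ≤ dgs (s u)).card < κ), w s ≤
      ∑ U ∈ (Finset.univ : Finset (Finset Ω)).filter (fun U => U.card < κ),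
        ∑ s ∈ (Fam Ω S N).filter (fun s => ∀ v, v ∉ U → dgs (s v) < T), w s := by
    have : ∀ s ∈ (Fam Ω S N).filter
        (fun s => (Finset.univ.filter fun u => T ≤ dgs (s u)).card < κ),
        w s ≤ ∑ U ∈ (Finset.univ : Finset (Finset Ω)).filter (fun U => U.card < κ),
          if (∀ v, v ∉ U → dgs (s v) < T) then w s else 0 := by
      intro s hs
      rw [Finset.mem_filter] at hs
      have h2 := Finset.single_le_sum (f := fun U : Finset Ω =>
        if (∀ v, v ∉ U → dgs (s v) < T) then w s else 0)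
        (s := (Finset.univ : Finset (Finset Ω)).filter (fun U => U.card < κ))
        (fun U _ => by
          split_ifs
          · exact hw0 s
          · exact le_rfl)
        (Finset.mem_filter.2 ⟨Finset.mem_univ
          (Finset.univ.filter fun u => T ≤ dgs (s u)), hs.2⟩)
      refine le_trans (le_of_eq ?_) h2
      rw [if_pos]
      intro v hv
      rw [Finset.mem_filter, not_and] at hv
      exact not_le.1 (hv (Finset.mem_univ v))
    refine (Finset.sum_le_sum this).trans ?_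
    rw [Finset.sum_comm]
    refine Finset.sum_le_sum fun U _ => ?_
    rw [Finset.sum_filter (s := Fam Ω S N) (p := fun s => ∀ v, v ∉ U → dgs (s v) < T)]
    refine Finset.sum_le_sum_of_subset_of_nonneg (Finset.filter_subset _ _) fun s _ _ => ?_
    split_ifs
    · exact hw0 s
    · exact le_rfl
  refine h1.trans ?_
  set B : ℝ := 6 * (T : ℝ) ^ Fintype.card Ω * (Fintype.card F : ℝ) ^ N *
    (N : ℝ) ^ (-(1 / (κ : ℝ))) with hB
  have hB0 : 0 ≤ B := by positivity
  calc ∑ U ∈ (Finset.univ : Finset (Finset Ω)).filter (fun U => U.card < κ),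
        ∑ s ∈ (Fam Ω S N).filter (fun s => ∀ v, v ∉ U → dgs (s v) < T), w s
      ≤ ∑ _U ∈ (Finset.univ : Finset (Finset Ω)).filter (fun U => U.card < κ), B :=
        Finset.sum_le_sum fun U hU =>
          stepA_fixed κ hκ S N T hN hT hTN U (Finset.mem_filter.1 hU).2
    _ ≤ ∑ _U : Finset Ω, B :=
        Finset.sum_le_sum_of_subset_of_nonneg (Finset.filter_subset _ _) fun _ _ _ => hB0
    _ = 2 ^ Fintype.card Ω * B := by
        rw [Finset.sum_const, Finset.card_univ, Fintype.card_finset, nsmul_eq_mul]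
        push_cast
        ring
    _ = _ := by rw [hB]; ring

end Pool.Agent.Helper48.ST
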