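import Pool.Agent.Helper48.ST.Pnt
import Pool.Agent.Helper48.ST.CosB

/-!
ST-28. The character sum of a pair of indices.

Proof. Let `R = S ∪ uni s'`. For `P ∉ R`, `phi u P - phi u' P = (A u - A u') deg P + ∑_{π ∈ S} (G π u - G π u') L(P, π) + ∑_v (lk u v - lk u' v) ∑_{R' ∈ s' v} L(P, R')`. As the `s' v` are
pairwise disjoint and disjoint from `S` this is `(A u - A u') deg P + ∑_{R' ∈ R} c R' * L(P, R')` with `c π = G π u - G π u'` for `π ∈ S`, `c R' = lk u v - lk u' v` for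
`R' ∈ s' v`. So `∑_{P ∈ IrEq k, P ∉ R} e (phi u P - phi u' P) = e ((A u - A u') k) * ∑_{P ∈ IrEq k} g.chi c R P` (`chi` vanishes for `P ∈ R`: not coprime; for
`P ∉ R` it is coprime to `pr R`, `ir_coprime`, `coprime_pr_iff`). The hypothesis `hne` says that `c` is not identically `0` on `R`; `dgs R ≤ dgs S + m ≤ M`
(`mem_Fam`); now `pnt`.
-/

set_option autoImplicit false

open Polynomial
open scoped Classical

namespace Pool.Agent.Helper48.ST

/-- The coefficients of the character of a pair of indices. -/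
noncomputable def theta1_c {F : Type} [Field F] {ℓ : ℕ} {Ω : Type} [Fintype Ω] (D : Dat F ℓ Ω)
    (S : Finset (Ir F)) (U : Finset Ω) (s' : {u : Ω // u ∉ U} → Finset (Ir F)) (u u' : Ω)
    (R : Ir F) : ZMod ℓ :=
  if R ∈ S then D.G R u - D.G R u' else
    ∑ v : {u : Ω // u ∉ U}, if R ∈ s' v then D.lk u v.1 - D.lk u' v.1 else 0

theorem theta1_c_S {F : Type} [Field F] {ℓ : ℕ} {Ω : Type} [Fintype Ω] (D : Dat F ℓ Ω)
    (S : Finset (Ir F)) (U : Finset Ω) (s' : {u : Ω // u ∉ U} → Finset (Ir F)) (u u' : Ω)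
    (R : Ir F) (hR : R ∈ S) : theta1_c D S U s' u u' R = D.G R u - D.G R u' := by
  unfold theta1_c
  rw [if_pos hR]

theorem theta1_c_s {F : Type} [Field F] {ℓ : ℕ} {Ω : Type} [Fintype Ω] (D : Dat F ℓ Ω)
    (S : Finset (Ir F)) (U : Finset Ω) (s' : {u : Ω // u ∉ U} → Finset (Ir F))
    (hd : ∀ u v, u ≠ v → Disjoint (s' u) (s' v)) (hS : ∀ u, Disjoint (s' u) S) (u u' : Ω)
    (v : {u : Ω // u ∉ U}) (R : Ir F) (hR : R ∈ s' v) :
    theta1_c D S U s' u u' R = D.lk u v.1 - D.lk u' v.1 := by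
  unfold theta1_c
  rw [if_neg (Finset.disjoint_left.1 (hS v) hR), Finset.sum_eq_single v]
  · rw [if_pos hR]
  · intro w _ hw
    rw [if_neg]
    exact fun h => Finset.disjoint_left.1 (hd w v hw) h hR
  · intro h
    exact absurd (Finset.mem_univ v) h

theorem theta1_disj {F : Type} [Field F] {ι : Type} [Fintype ι]
    (S : Finset (Ir F)) (s' : ι → Finset (Ir F)) (hS : ∀ u, Disjoint (s' u) S) :
    Disjoint S (uni s') := by
  rw [Finset.disjoint_right]
  intro P hP hPS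
  unfold uni at hP
  rw [Finset.mem_biUnion] at hP
  obtain ⟨v, -, hv⟩ := hP
  exact Finset.disjoint_left.1 (hS v) hv hPS

theorem theta1_phase {F : Type} [Field F] {ℓ : ℕ} (g : Lg F ℓ) {Ω : Type} [Fintype Ω]
    (D : Dat F ℓ Ω)
    (S : Finset (Ir F)) (U : Finset Ω) (s' : {u : Ω // u ∉ U} → Finset (Ir F))
    (hd : ∀ u v, u ≠ v → Disjoint (s' u) (s' v)) (hS : ∀ u, Disjoint (s' u) S) (u u' : Ω)
    (P : Ir F) :
    D.phi g S U s' u P - D.phi g S U s' u' P = (D.A u - D.A u') * (P.1.natDegree : ZMod ℓ) +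
      ∑ R ∈ S ∪ uni s', theta1_c D S U s' u u' R * g.L P.1 R.1 := by
  rw [Finset.sum_union (theta1_disj S s' hS)]
  have h1 : ∑ R ∈ S, theta1_c D S U s' u u' R * g.L P.1 R.1 =
      ∑ R ∈ S, D.G R u * g.L P.1 R.1 - ∑ R ∈ S, D.G R u' * g.L P.1 R.1 := by
    rw [← Finset.sum_sub_distrib]
    refine Finset.sum_congr rfl fun R hR => ?_
    rw [theta1_c_S D S U s' u u' R hR]
    ring
  have h2 : ∑ R ∈ uni s', theta1_c D S U s' u u' R * g.L P.1 R.1 =
      ∑ v, D.lk u v.1 * ∑ R ∈ s' v, g.L P.1 R.1 - ∑ v, D.lk u' v.1 * ∑ R ∈ s' v, g.L P.1 R.1 := by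
    unfold uni
    rw [Finset.sum_biUnion (fun v _ w _ hvw => hd v w hvw), ← Finset.sum_sub_distrib]
    refine Finset.sum_congr rfl fun v _ => ?_
    rw [Finset.mul_sum, Finset.mul_sum, ← Finset.sum_sub_distrib]
    refine Finset.sum_congr rfl fun R hR => ?_
    rw [theta1_c_s D S U s' hd hS u u' v R hR]
    ring
  rw [h1, h2]
  unfold Dat.phi
  ring

theorem theta_pair {F : Type} [Field F] [Fintype F] {ℓ : ℕ} [Fact ℓ.Prime] (g : Lg F ℓ)
    (h2 : ℓ ≠ 2) {Ω : Type} [Fintype Ω] (D : Dat F ℓ Ω) (S : Finset (Ir F)) (U : Finset Ω) (m : ℕ)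
    (s' : {u : Ω // u ∉ U} → Finset (Ir F)) (hs' : s' ∈ Fam {u : Ω // u ∉ U} S m) (M : ℕ)
    (hM : dgs S + m ≤ M) (k : ℕ) (hk : 1000 * M ^ 2 ≤ k) (u u' : Ω)
    (hne : (∃ π ∈ S, D.G π u ≠ D.G π u') ∨ (∃ v, s' v ≠ ∅ ∧ D.lk u v.1 ≠ D.lk u' v.1)) :
    (k : ℝ) * ‖∑ P ∈ (IrEq F k).filter (fun P => P ∉ S ∪ uni s'),
      e (D.phi g S U s' u P - D.phi g S U s' u' P)‖ ≤ (Fintype.card F : ℝ) ^ k / 2 := by
  obtain ⟨hd, hS, hm⟩ := mem_Fam.1 hs'
  have hc : ∃ P ∈ S ∪ uni s', theta1_c D S U s' u u' P ≠ 0 := by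
    rcases hne with ⟨π, hπ, h⟩ | ⟨v, hv, h⟩
    · refine ⟨π, Finset.mem_union_left _ hπ, ?_⟩
      rw [theta1_c_S D S U s' u u' π hπ]
      exact sub_ne_zero.2 h
    · obtain ⟨R, hR⟩ := Finset.nonempty_iff_ne_empty.2 hv
      refine ⟨R, Finset.mem_union_right _ ?_, ?_⟩
      · unfold uni
        exact Finset.mem_biUnion.2 ⟨v, Finset.mem_univ _, hR⟩
      · rw [theta1_c_s D S U s' hd hS u u' v R hR]
        exact sub_ne_zero.2 h
  have hdeg : dgs (S ∪ uni s') ≤ M := by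
    have h1 : dgs (S ∪ uni s') = dgs S + m := by
      unfold dgs
      rw [Finset.sum_union (theta1_disj S s' hS)]
      congr 1
      rw [← hm]
      unfold uni
      rw [Finset.sum_biUnion (fun v _ w _ hvw => hd v w hvw)]
      rfl
    omega
  have hp := pnt g h2 (theta1_c D S U s' u u') (S ∪ uni s') hc M hdeg k hk
  have hsum : ∑ P ∈ (IrEq F k).filter (fun P => P ∉ S ∪ uni s'),
      e (D.phi g S U s' u P - D.phi g S U s' u' P) =
      e ((D.A u - D.A u') * (k : ZMod ℓ)) *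
        ∑ P ∈ IrEq F k, g.chi (theta1_c D S U s' u u') (S ∪ uni s') P.1 := by
    rw [Finset.mul_sum, Finset.sum_filter]
    refine Finset.sum_congr rfl fun P hP => ?_
    rw [mem_IrEq] at hP
    unfold Lg.chi
    by_cases hPR : P ∈ S ∪ uni s'
    · rw [if_neg (not_not.2 hPR), if_neg, mul_zero]
      intro hcop
      rw [coprime_pr_iff] at hcop
      exact P.2.2.not_isUnit (isCoprime_self.1 (hcop P hPR))
    · rw [if_pos hPR, if_pos, theta1_phase g D S U s' hd hS u u' P, e_add, hP]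
      rw [coprime_pr_iff]
      intro R hR
      refine ir_coprime ?_
      rintro rfl
      exact hPR hR
  rw [hsum, norm_mul, norm_e, one_mul]
  exact hp

end Pool.Agent.Helper48.ST
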