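import Pool.Agent.Helper48.ST.TorPt

/-!
ST-92. All torsion classes are in the local image.

Proof. Let `w⁽ⁱ⁾` be the vector of ST-91 and `z⁽ⁱ⁾ ∈ Fin n → Mˣ` with `z⁽ⁱ⁾ j = TorM a D w⁽ⁱ⁾ j` (nonzero, `torM_ne_zero`); it is in `LocIm` by `tor_pt`, so `z' = ∏_i (z⁽ⁱ⁾)^(-w i) ∈ LocIm`. By `torM_add`, `torM_neg` `z' j = TorM a D w' j` with `w' = ∑_i (-w i) w⁽ⁱ⁾ = - u (∑ w) + n u w = n u w` (as `∑ w = 0`), so
`w' = w + ℓ k w` (`n u = 1 + ℓ k`), `TorM w' j = TorM w j * (TorM w j)^(ℓ k)`. Hence `z j / z' j` is an `ℓ`-th power for all `j`, so `z ∈ LocIm` (`LocIm` contains the `ℓ`-th powers).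
-/

set_option autoImplicit false

open Polynomial
open scoped Classical
open Pool.Agent.Helper96.PS (CData LData)

namespace Pool.Agent.Helper48.ST

theorem torLoc_zpow {M : Type} [Field M] {n : ℕ} (a : Fin n → M) (D : M) (w : Fin n → ℤ) (c : ℤ)
    (j : Fin n) : TorM a D (fun k => c * w k) j = TorM a D w j ^ c := by
  unfold TorM
  rw [mul_zpow, ← Finset.prod_zpow, ← zpow_mul, mul_comm (w j) c]
  congr 1
  refine Finset.prod_congr rfl fun i _ => ?_
  rw [← zpow_mul]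
  congr 1
  ring

theorem torLoc_sum {M : Type} [Field M] {n : ℕ} {a : Fin n → M} (ha : ∀ j k, j ≠ k → a j ≠ a k)
    {D : M} (hD : D ≠ 0) {ι : Type} (s : Finset ι) (W : ι → Fin n → ℤ) (j : Fin n) :
    TorM a D (fun k => ∑ i ∈ s, W i k) j = ∏ i ∈ s, TorM a D (W i) j := by
  induction s using Finset.induction_on with
  | empty =>
    rw [Finset.prod_empty]
    unfold TorM
    simp
  | insert b s hb ih =>
    rw [Finset.prod_insert hb, ← ih, ← torM_add ha hD]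
    congr 1
    funext k
    rw [Finset.sum_insert hb]

theorem tor_loc {R M : Type} [CommRing R] [IsDomain R] [Field M] [Algebra R M] {ϖ : R}
    (hC : CData ϖ M) {ℓ n u : ℕ} (hodd : Odd ℓ) (hℓ2 : 2 ≤ ℓ) (hℓ : IsUnit (ℓ : R))
    (hu : n * u ≡ 1 [MOD ℓ]) (a : Fin n → M) (hne : ∀ j k, j ≠ k → a j ≠ a k) (D : M)
    (hD : D ≠ 0) (w : Fin n → ℤ) (hw : ∑ i, w i = 0) (z : Fin n → Mˣ)
    (hz : ∀ j, PowM ℓ ((z j : M) / TorM a D w j)) :
    z ∈ LocIm M ℓ u a D := by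
  set W : Fin n → Fin n → ℤ := fun i k => if k = i then (u : ℤ) - n * u else (u : ℤ) with hW
  set Z : Fin n → Fin n → Mˣ := fun i j => Units.mk0 (TorM a D (W i) j)
    (torM_ne_zero hne hD (W i) j) with hZ
  have hZmem : ∀ i, Z i ∈ LocIm M ℓ u a D := by
    intro i
    refine tor_pt hC hodd hℓ2 hℓ hu a hne D hD i (Z i) fun j => ?_
    refine ⟨1, one_ne_zero, ?_⟩
    rw [one_pow]
    exact div_self (torM_ne_zero hne hD (W i) j)
  have hz' : ∏ i, Z i ^ (-(w i)) ∈ LocIm M ℓ u a D :=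
    Subgroup.prod_mem _ fun i _ => Subgroup.zpow_mem _ (hZmem i) _
  have hval : ∀ j, (((∏ i, Z i ^ (-(w i))) j : Mˣ) : M) = TorM a D w j ^ ((n : ℤ) * u) := by
    intro j
    have h1 : (((∏ i, Z i ^ (-(w i))) j : Mˣ) : M) = ∏ i, TorM a D (fun k => -(w i) * W i k) j := by
      rw [Finset.prod_apply, Units.coe_prod]
      refine Finset.prod_congr rfl fun i _ => ?_
      rw [Pi.pow_apply, Units.val_zpow_eq_zpow_val, torLoc_zpow]
      rfl
    rw [h1, ← torLoc_sum hne hD, ← torLoc_zpow]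
    congr 1
    funext k
    have h2 : ∀ i, -(w i) * W i k = -(w i) * u + if k = i then w i * ((n : ℤ) * u) else 0 := by
      intro i
      rw [hW]
      simp only
      split_ifs <;> ring
    rw [Finset.sum_congr rfl fun i _ => h2 i, Finset.sum_add_distrib, ← Finset.sum_mul,
      Finset.sum_neg_distrib, hw, Finset.sum_ite_eq, if_pos (Finset.mem_univ k)]
    ring
  obtain ⟨k, hk⟩ : ∃ k : ℤ, (n : ℤ) * u = 1 + ℓ * k := by
    have h1 : ((n * u : ℕ) : ℤ) ≡ ((1 : ℕ) : ℤ) [ZMOD ℓ] := (Int.natCast_modEq_iff).2 hu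
    obtain ⟨k, hk⟩ := h1.symm.dvd
    refine ⟨k, ?_⟩
    push_cast at hk
    linarith
  choose b hb0 hb using hz
  have hT : ∀ j, TorM a D w j ≠ 0 := torM_ne_zero hne hD w
  set c : Fin n → Mˣ := fun j => Units.mk0 (b j * TorM a D w j ^ (-k))
    (mul_ne_zero (hb0 j) (zpow_ne_zero _ (hT j))) with hc
  have hcm : c ^ ℓ ∈ LocIm M ℓ u a D := Subgroup.subset_closure (Or.inl ⟨c, rfl⟩)
  have hfin : z = (∏ i, Z i ^ (-(w i))) * c ^ ℓ := by
    funext j
    apply Units.ext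
    rw [Pi.mul_apply, Units.val_mul, hval, Pi.pow_apply, Units.val_pow_eq_pow_val]
    have h1 : ((c j : Mˣ) : M) = b j * TorM a D w j ^ (-k) := rfl
    rw [h1, hk, mul_pow, ← hb j, zpow_add₀ (hT j), zpow_one, ← zpow_natCast (TorM a D w j ^ (-k)),
      ← zpow_mul]
    have h2 : TorM a D w j ^ ((ℓ : ℤ) * k) * TorM a D w j ^ (-k * (ℓ : ℤ)) = 1 := by
      rw [← zpow_add₀ (hT j)]
      have : (ℓ : ℤ) * k + -k * (ℓ : ℤ) = 0 := by ring
      rw [this, zpow_zero]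
    calc (z j : M) = TorM a D w j * ((z j : M) / TorM a D w j) := by
          field_simp [hT j]
      _ = TorM a D w j * ((z j : M) / TorM a D w j) *
          (TorM a D w j ^ ((ℓ : ℤ) * k) * TorM a D w j ^ (-k * (ℓ : ℤ))) := by rw [h2, mul_one]
      _ = _ := by ring
  rw [hfin]
  exact mul_mem hz' hcm

end Pool.Agent.Helper48.ST
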