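import Pool.Agent.Helper48.ST.OneUnit
import Pool.Agent.Helper48.ST.PowLem

/-!
ST-91. The class of the ramification point `P_i - ∞` is in the local image.

Proof. `β_j = a i - a j ≠ 0` for `j ≠ i`, `Π = ∏_{j ≠ i} β_j`. Let `k ∈ ℕ` be so large that `ϖ^(k ℓ) / (D Π β_j)` is the image of an element of `ϖ R` for all `j ≠ i` (`CData.exists_val`), `s = ϖ^k` (in `M`), `x = a i + s^ℓ / (D Π)`. Then `(x - a j)/β_j = 1 + s^ℓ/(D Π β_j)` is a one-unit for `j ≠ i`,
so an `ℓ`-th power (`powM_of_one`), `D ∏_j (x - a j) = D (s^ℓ/(D Π)) ∏_{j ≠ i} (x - a j) = s^ℓ ∏_{j ≠ i} ((x - a j)/β_j) = y^ℓ` with `y ≠ 0`. So (`L = M`, norm = identity) the vector `z₀ j = D^u (x - a j)` (nonzero) is a generator of `LocIm`. For `w i = u - n u`, `w k = u` otherwise: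
`TorM w j = D^u β'_j^(n u)`, `β'_j = a j - a i = - β_j`, for `j ≠ i` and `TorM w i = D^(u - n u) ∏_{k ≠ i} (a i - a k)^(- n u)`, so `z₀ j / TorM w j` is an `ℓ`-th power for `j ≠ i` (`ℓ ∣ n u - 1`, `-1 = (-1)^ℓ`) and `z₀ i / TorM w i = D^u (s^ℓ/(D Π)) D^(n u - u) Π^(n u) = s^ℓ (D Π)^(n u - 1)` too.
Hence `z j / z₀ j` is an `ℓ`-th power for all `j`: `z = z₀ * b^ℓ ∈ LocIm`.
-/

set_option autoImplicit false

open Polynomial
open scoped Classical
open Pool.Agent.Helper96.PS (CData LData)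

namespace Pool.Agent.Helper48.ST

theorem torPt_small {R M : Type} [CommRing R] [IsDomain R] [Field M] [Algebra R M] {ϖ : R}
    (hC : CData ϖ M) (c : M) (hc : c ≠ 0) :
    ∃ K : ℕ, ∀ k : ℕ, K ≤ k → ∃ r : R, ϖ ∣ r ∧ algebraMap R M r = algebraMap R M ϖ ^ k * c := by
  obtain ⟨m, ε, hε, hcm⟩ := hC.exists_val hc
  have := hC.frac
  have hinj : Function.Injective (algebraMap R M) := IsFractionRing.injective R M
  have hp0 : algebraMap R M ϖ ≠ 0 := by
    intro h0
    exact hC.unif.ne_zero (hinj (by rw [h0, map_zero]))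
  refine ⟨(1 - m).toNat, fun k hk => ?_⟩
  have h1 : 1 ≤ (k : ℤ) + m := by omega
  obtain ⟨e, he⟩ : ∃ e : ℕ, (k : ℤ) + m = ((e + 1 : ℕ) : ℤ) := ⟨((k : ℤ) + m - 1).toNat, by omega⟩
  refine ⟨ϖ ^ (e + 1) * ε, ?_, ?_⟩
  · exact Dvd.dvd.mul_right (dvd_pow_self ϖ (by omega)) _
  · rw [hcm, map_mul, map_pow, ← zpow_natCast, ← zpow_natCast, ← he, zpow_add₀ hp0]
    ring

theorem tor_pt {R M : Type} [CommRing R] [IsDomain R] [Field M] [Algebra R M] {ϖ : R}
    (hC : CData ϖ M) {ℓ n u : ℕ} (hodd : Odd ℓ) (hℓ2 : 2 ≤ ℓ) (hℓ : IsUnit (ℓ : R))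
    (hu : n * u ≡ 1 [MOD ℓ]) (a : Fin n → M) (hne : ∀ j k, j ≠ k → a j ≠ a k) (D : M)
    (hD : D ≠ 0) (i : Fin n) (z : Fin n → Mˣ)
    (hz : ∀ j, PowM ℓ ((z j : M) /
      TorM a D (fun k => if k = i then (u : ℤ) - n * u else (u : ℤ)) j)) :
    z ∈ LocIm M ℓ u a D := by
  have := hC.frac
  have hinj : Function.Injective (algebraMap R M) := IsFractionRing.injective R M
  have hp0 : algebraMap R M ϖ ≠ 0 := by
    intro h0
    exact hC.unif.ne_zero (hinj (by rw [h0, map_zero]))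
  have hβ : ∀ j, j ≠ i → a i - a j ≠ 0 := fun j hj => sub_ne_zero.2 (hne i j hj.symm)
  set P : M := ∏ j ∈ Finset.univ.erase i, (a i - a j) with hP
  have hP0 : P ≠ 0 := Finset.prod_ne_zero_iff.2 (fun j hj => hβ j (Finset.ne_of_mem_erase hj))
  have hDP : D * P ≠ 0 := mul_ne_zero hD hP0
  -- the exponent
  have hK : ∀ j, ∃ K : ℕ, j ≠ i → ∀ k : ℕ, K ≤ k → ∃ r : R, ϖ ∣ r ∧
      algebraMap R M r = algebraMap R M ϖ ^ k * (D * P * (a i - a j))⁻¹ := by
    intro j
    by_cases hj : j = i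
    · exact ⟨0, fun h => absurd hj h⟩
    · obtain ⟨K, hK⟩ := torPt_small hC (D * P * (a i - a j))⁻¹
        (inv_ne_zero (mul_ne_zero hDP (hβ j hj)))
      exact ⟨K, fun _ => hK⟩
  choose K hK using hK
  set k : ℕ := ∑ j, K j with hk
  have hKk : ∀ j, K j ≤ k * ℓ := by
    intro j
    calc K j ≤ k := Finset.single_le_sum (f := K) (fun _ _ => Nat.zero_le _) (Finset.mem_univ j)
      _ ≤ k * ℓ := Nat.le_mul_of_pos_right _ (by omega)
  set s : M := algebraMap R M ϖ ^ k with hs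
  have hs0 : s ≠ 0 := pow_ne_zero _ hp0
  set x : M := a i + s ^ ℓ / (D * P) with hx
  have hxi : x - a i = s ^ ℓ / (D * P) := by rw [hx]; ring
  have hone : ∀ j, j ≠ i → PowM ℓ ((x - a j) / (a i - a j)) := by
    intro j hj
    obtain ⟨r, hr, hr'⟩ := hK j hj (k * ℓ) (hKk j)
    have e : (x - a j) / (a i - a j) = algebraMap R M (1 + r) := by
      rw [map_add, map_one, hr', pow_mul, ← hs, hx]
      have h1 := hβ j hj
      field_simp
      ring
    rw [e]
    exact powM_of_one hC hℓ (by omega) _ (by simpa using hr)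
  have hxj : ∀ j, x - a j ≠ 0 := by
    intro j
    by_cases hj : j = i
    · subst hj
      rw [hxi]
      exact div_ne_zero (pow_ne_zero _ hs0) hDP
    · obtain ⟨b, hb, hb'⟩ := hone j hj
      intro h0
      rw [h0, zero_div] at hb'
      exact pow_ne_zero ℓ hb hb'.symm
  have hprod : ∃ y : M, y ≠ 0 ∧ y ^ ℓ = D * ∏ j, (x - a j) := by
    obtain ⟨c, hc, hc'⟩ := powM_prod (Finset.univ.erase i) (fun j => (x - a j) / (a i - a j))
      (fun j hj => hone j (Finset.ne_of_mem_erase hj))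
    refine ⟨s * c, mul_ne_zero hs0 hc, ?_⟩
    rw [mul_pow, ← hc', Finset.prod_div_distrib, ← hP,
      ← Finset.mul_prod_erase Finset.univ (fun j => x - a j) (Finset.mem_univ i), hxi]
    field_simp
  obtain ⟨y, hy0, hy⟩ := hprod
  -- the generator
  set z₀ : Fin n → Mˣ := fun j => Units.mk0 (D ^ u * (x - a j)) (mul_ne_zero (pow_ne_zero _ hD) (hxj j))
    with hz₀
  have hgen : z₀ ∈ LocIm M ℓ u a D := by
    refine Subgroup.subset_closure (Or.inr ⟨M, inferInstance, inferInstance, x, y, inferInstance, hy0, ?_, ?_⟩)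
    · simpa using hy
    · intro j
      simp [hz₀, Algebra.norm_self]
  obtain ⟨q, hq⟩ := (Nat.modEq_iff_dvd).1 hu
  have hq' : (1 : ℤ) = (n : ℤ) * (u : ℤ) + (ℓ : ℤ) * q := by
    push_cast at hq
    linarith
  set w : Fin n → ℤ := fun k => if k = i then (u : ℤ) - n * u else (u : ℤ) with hw
  have hT0 : ∀ j, TorM a D w j ≠ 0 := fun j => torM_ne_zero hne hD w j
  have hTj : ∀ j, PowM ℓ (((z₀ j : Mˣ) : M) / TorM a D w j) := by
    intro j
    have hval : ((z₀ j : Mˣ) : M) = D ^ u * (x - a j) := rfl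
    by_cases hj : j = i
    · subst hj
      have hTi : TorM a D w j = D ^ ((u : ℤ) - n * u) * P ^ (-((n : ℤ) * u)) := by
        unfold TorM
        have e0 : w j = (u : ℤ) - n * u := by simp [hw]
        rw [e0]
        congr 1
        rw [hP, ← Finset.prod_zpow]
        refine Finset.prod_congr rfl (fun l hl => ?_)
        have hlj : l ≠ j := Finset.ne_of_mem_erase hl
        have e1 : w l = (u : ℤ) := by simp [hw, hlj]
        rw [e1]
        congr 1
        ring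
      rw [hval, hTi, hxi]
      have e : D ^ u * (s ^ ℓ / (D * P)) / (D ^ ((u : ℤ) - n * u) * P ^ (-((n : ℤ) * u))) =
          s ^ ℓ * (D * P) ^ ((ℓ : ℤ) * (-q)) := by
        have e1 : ((ℓ : ℤ) * (-q)) = (n : ℤ) * u - 1 := by linarith
        rw [e1, zpow_sub₀ hDP, zpow_one, zpow_neg, zpow_sub₀ hD, zpow_natCast, mul_zpow]
        have h1 : D ^ ((n : ℤ) * u) ≠ 0 := zpow_ne_zero _ hD
        have h2 : P ^ ((n : ℤ) * u) ≠ 0 := zpow_ne_zero _ hP0
        have h3 : D ^ u ≠ 0 := pow_ne_zero _ hD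
        field_simp
      rw [e]
      exact powM_mul ⟨s, hs0, rfl⟩ (powM_self hDP _)
    · have hji : a j - a i ≠ 0 := sub_ne_zero.2 (hne j i hj)
      have hTj' : TorM a D w j = D ^ u * (a j - a i) ^ ((n : ℤ) * u) := by
        unfold TorM
        have e0 : w j = (u : ℤ) := by simp [hw, hj]
        rw [e0, zpow_natCast]
        congr 1
        rw [Finset.prod_eq_single_of_mem i (Finset.mem_erase.2 ⟨fun h => hj h.symm, Finset.mem_univ i⟩)]
        · have e1 : w i = (u : ℤ) - n * u := by simp [hw]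
          rw [e1]
          congr 1
          ring
        · intro l _ hl
          have e1 : w l = (u : ℤ) := by simp [hw, hl]
          rw [e1, sub_self, zpow_zero]
      rw [hval, hTj']
      have e : D ^ u * (x - a j) / (D ^ u * (a j - a i) ^ ((n : ℤ) * u)) =
          (x - a j) / (a i - a j) * (-1) * (a j - a i) ^ ((ℓ : ℤ) * q) := by
        have e1 : ((ℓ : ℤ) * q) = 1 - (n : ℤ) * u := by linarith
        rw [e1, zpow_sub₀ hji, zpow_one]
        have h1 : (a j - a i) ^ ((n : ℤ) * u) ≠ 0 := zpow_ne_zero _ hji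
        have h3 : D ^ u ≠ 0 := pow_ne_zero _ hD
        have h4 := hβ j hj
        field_simp
        ring
      rw [e]
      exact powM_mul (powM_mul (hone j hj) (powM_neg_one hodd)) (powM_self hji _)
  have hzz : ∀ j, PowM ℓ ((z j : M) / (z₀ j : M)) := by
    intro j
    have h1 := powM_div (hz j) (hTj j)
    have h2 : (z j : M) / TorM a D w j / (((z₀ j : Mˣ) : M) / TorM a D w j) =
        (z j : M) / (z₀ j : M) := by
      have h3 := hT0 j
      have h4 : ((z₀ j : Mˣ) : M) ≠ 0 := (z₀ j).ne_zero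
      field_simp
    rwa [h2] at h1
  choose b hb0 hb using hzz
  have hfin : z = z₀ * (fun j => Units.mk0 (b j) (hb0 j)) ^ ℓ := by
    funext j
    ext
    simp only [Pi.mul_apply, Pi.pow_apply, Units.val_mul, Units.val_pow_eq_pow_val, Units.val_mk0]
    rw [← hb j]
    have h4 : ((z₀ j : Mˣ) : M) ≠ 0 := (z₀ j).ne_zero
    field_simp
  rw [hfin]
  exact Subgroup.mul_mem _ hgen (Subgroup.subset_closure (Or.inl ⟨_, rfl⟩))

end Pool.Agent.Helper48.ST
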