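import Pool.Agent.Helper48.ST.TorLoc
import Pool.Agent.Helper48.ST.CDInf
import Pool.Agent.Helper48.ST.InGrp
import Pool.Agent.Helper96.PS.CompDVR

/-!
ST-93. The torsion classes are in the Selmer group.

Proof. `∏ x j` is an `ℓ`-th power by `tor_prod`. Let `M` be a completion: for `v` finite, `v.asIdeal = span {π}` (principal ideal domain), `lData_adicCompletion v` (Helper96/PS/CompDVR) contains `CData`; at infinity `exists_cdInf`. `ℓ` is a unit in `R` (a nonzero constant: the image of the unit `C (ℓ : F)` of `F[X]`).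
The image in `M` of `Tor a D w j` is `TorM` of the images (`map_zpow₀`, `map_prod`), the images of the `a j` are different (`F(t) → M` is injective, `diff_ne_zero`), so `tor_loc` applies to the images of the `x j`.
-/

set_option autoImplicit false

open Polynomial
open scoped Classical
open Pool.Agent.Helper96.PS (CData LData)

namespace Pool.Agent.Helper48.ST

theorem torsel_aux {F : Type} [Field F] [Fintype F] {ℓ : ℕ} [Fact ℓ.Prime] (h2 : ℓ ≠ 2)
    {n d u : ℕ} (hu : n * u ≡ 1 [MOD ℓ]) {a : Fin n → F[X]} (ha : Stp d a) {t : Finset (Ir F)}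
    (w : Fin n → ℤ) (hw : ∑ i, w i = 0) (x b : Fin n → (RatFunc F)ˣ)
    (hx : ∀ j, (x j : RatFunc F) = Tor a (pr t) w j * (b j : RatFunc F) ^ ℓ)
    {R M : Type} [CommRing R] [IsDomain R] [Field M] [Algebra R M] [Algebra (RatFunc F) M] {ϖ : R}
    (hC : CData ϖ M) (hℓ : IsUnit (ℓ : R)) :
    LocSel M ℓ u (fun i => algebraMap F[X] (RatFunc F) (a i))
      (algebraMap F[X] (RatFunc F) (pr t)) x := by
  have hinj : Function.Injective (algebraMap (RatFunc F) M) := (algebraMap (RatFunc F) M).injective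
  have hne : ∀ j k, j ≠ k → algebraMap (RatFunc F) M (algebraMap F[X] (RatFunc F) (a j)) ≠
      algebraMap (RatFunc F) M (algebraMap F[X] (RatFunc F) (a k)) := by
    intro j k hjk h
    exact diff_ne_zero ha hjk (sub_eq_zero.2 (IsFractionRing.injective F[X] (RatFunc F) (hinj h)))
  have hD : algebraMap (RatFunc F) M (algebraMap F[X] (RatFunc F) (pr t)) ≠ 0 := by
    rw [Ne, map_eq_zero_iff _ hinj]
    exact ingrp_pr_ne t
  have hT : ∀ j, algebraMap (RatFunc F) M (Tor a (pr t) w j) =
      TorM (fun i => algebraMap (RatFunc F) M (algebraMap F[X] (RatFunc F) (a i)))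
        (algebraMap (RatFunc F) M (algebraMap F[X] (RatFunc F) (pr t))) w j := by
    intro j
    unfold Tor TorM
    rw [map_mul, map_zpow₀, map_prod]
    congr 1
    refine Finset.prod_congr rfl fun i _ => ?_
    rw [map_zpow₀, map_sub, map_sub]
  unfold LocSel
  refine tor_loc hC ((Fact.out : ℓ.Prime).odd_of_ne_two h2) (Fact.out : ℓ.Prime).two_le hℓ hu _ hne
    _ hD w hw _ fun j => ?_
  refine ⟨algebraMap (RatFunc F) M (b j : RatFunc F), ?_, ?_⟩
  · rw [Ne, map_eq_zero_iff _ hinj]
    exact (b j).ne_zero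
  · have hT0 : TorM (fun i => algebraMap (RatFunc F) M (algebraMap F[X] (RatFunc F) (a i)))
        (algebraMap (RatFunc F) M (algebraMap F[X] (RatFunc F) (pr t))) w j ≠ 0 :=
      torM_ne_zero hne hD w j
    rw [div_eq_iff hT0, ← hT j, ← map_pow, ← map_mul]
    change algebraMap (RatFunc F) M (x j : RatFunc F) = _
    rw [hx j, mul_comm]

theorem tor_sel {F : Type} [Field F] [Fintype F] {ℓ : ℕ} [Fact ℓ.Prime]
    (h2 : ℓ ≠ 2) (hq : ℓ ∣ Fintype.card F - 1) {n d u : ℕ}
    (hu : n * u ≡ 1 [MOD ℓ]) {a : Fin n → F[X]} (ha : Stp d a) {t : Finset (Ir F)}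
    (w : Fin n → ℤ) (hw : ∑ i, w i = 0) (x b : Fin n → (RatFunc F)ˣ)
    (hx : ∀ j, (x j : RatFunc F) = Tor a (pr t) w j * (b j : RatFunc F) ^ ℓ) :
    x ∈ Sel F ℓ u (fun i => algebraMap F[X] (RatFunc F) (a i))
      (algebraMap F[X] (RatFunc F) (pr t)) := by
  have hℓF : (ℓ : F) ≠ 0 := by
    intro h
    obtain ⟨k, hk⟩ := hq
    have h1 : Fintype.card F = ℓ * k + 1 := by
      have := Fintype.card_pos (α := F)
      omega
    have h3 : ((Fintype.card F : ℕ) : F) = 0 := Nat.cast_card_eq_zero F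
    rw [h1] at h3
    push_cast at h3
    rw [h, zero_mul, zero_add] at h3
    exact one_ne_zero h3
  refine ⟨?_, fun v => ?_, ?_⟩
  · obtain ⟨c, hc0, hc⟩ := tor_prod ha h2 (t := t) w hw
    refine ⟨Units.mk0 c hc0 * ∏ j, b j, ?_⟩
    apply Units.ext
    rw [Units.coe_prod, Units.val_pow_eq_pow_val, Units.val_mul, Units.val_mk0, Units.coe_prod,
      mul_pow, ← hc, ← Finset.prod_pow, ← Finset.prod_mul_distrib]
    exact Finset.prod_congr rfl fun j _ => hx j
  · obtain ⟨π, hπ⟩ : ∃ π : F[X], v.asIdeal = Ideal.span {π} :=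
      (IsPrincipalIdealRing.principal v.asIdeal).principal
    have hL := Pool.Agent.Helper96.PS.lData_adicCompletion v hπ
    refine torsel_aux h2 hu ha w hw x b hx hL.toCData ?_
    have h1 : IsUnit (algebraMap F[X] (v.adicCompletionIntegers (RatFunc F)) (C (ℓ : F))) :=
      ((isUnit_iff_ne_zero.2 hℓF).map C).map _
    have h3 : algebraMap F[X] (v.adicCompletionIntegers (RatFunc F)) (C (ℓ : F)) =
        (ℓ : v.adicCompletionIntegers (RatFunc F)) := by
      rw [map_natCast C, map_natCast]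
    rwa [h3] at h1
  · obtain ⟨R, _, _, _, ϖ, hC, hu', -⟩ := exists_cdInf F ℓ hℓF
    exact torsel_aux h2 hu ha w hw x b hx hC hu'

end Pool.Agent.Helper48.ST
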