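import Pool.Agent.Helper48.ST.Dec
import Pool.Agent.Helper48.ST.DiffB

/-!
ST-45. Valuations and symbols of the classes `Tor`.

Proof. All from the rules of ST-41 to 44. `a j - a i = C lc * pr (primes dividing it)` (`diff_dec`), so `vl P (a j - a i)` is `1` if `P ∣ a j - a i`, else `0`, and `P ∣ a j - a i` only if `P ∈ SS a` and
`{i, j} = {pa P, pb P}`. `t` and `SS a` are disjoint. `vl P (pr t) = 1` for `P ∈ t`, `0` otherwise (`vl_pr`). `ch P (a j - a i) = deg P * g (lc) + ∑_{R ∣ a j - a i, R ≠ P} L(R, P)`. `lc (a j - a i) = - lc (a i - a j)` and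
`g (-1) = 0` give the symmetric form. `tor_deg`: `intDegree = w_j * dgs t + ∑_{i ≠ j} (w_j - w_i) d = (dgs t + n d) w_j` because `∑ w = 0`.
-/

set_option autoImplicit false

open Polynomial
open scoped Classical

namespace Pool.Agent.Helper48.ST

section TorValAux

variable {F : Type} [Field F] {ℓ : ℕ} [Fact ℓ.Prime] (g : Lg F ℓ)

theorem torval_am_ne_zero {A : F[X]} (hA : A ≠ 0) : algebraMap F[X] (RatFunc F) A ≠ 0 :=
  (map_ne_zero_iff _ (IsFractionRing.injective F[X] (RatFunc F))).2 hA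

theorem torval_pr_ne (t : Finset (Ir F)) : algebraMap F[X] (RatFunc F) (pr t) ≠ 0 :=
  torval_am_ne_zero (pr_monic t).ne_zero

theorem torval_deg_pow (x : RatFunc F) (hx : x ≠ 0) (k : ℕ) :
    (x ^ k).intDegree = k * x.intDegree := by
  induction k with
  | zero => rw [pow_zero, RatFunc.intDegree_one]; simp
  | succ k ih =>
    rw [pow_succ, RatFunc.intDegree_mul (pow_ne_zero k hx) hx, ih]
    push_cast
    ring

theorem torval_deg_inv (x : RatFunc F) (hx : x ≠ 0) : (x⁻¹).intDegree = - x.intDegree := by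
  have h := RatFunc.intDegree_mul hx (inv_ne_zero hx)
  rw [mul_inv_cancel₀ hx, RatFunc.intDegree_one] at h
  linarith

theorem torval_deg_zpow (x : RatFunc F) (hx : x ≠ 0) (k : ℤ) :
    (x ^ k).intDegree = k * x.intDegree := by
  cases k with
  | ofNat k => rw [Int.ofNat_eq_natCast, zpow_natCast, torval_deg_pow x hx]
  | negSucc k =>
    rw [zpow_negSucc, torval_deg_inv _ (pow_ne_zero _ hx), torval_deg_pow x hx,
      Int.negSucc_eq]
    push_cast
    ring

theorem torval_deg_prod {ι : Type} (s : Finset ι) (f : ι → RatFunc F) (hf : ∀ i ∈ s, f i ≠ 0) :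
    (∏ i ∈ s, f i).intDegree = ∑ i ∈ s, (f i).intDegree := by
  induction s using Finset.induction_on with
  | empty => rw [Finset.prod_empty, Finset.sum_empty, RatFunc.intDegree_one]
  | insert i s hi ih =>
    have h1 : ∀ j ∈ s, f j ≠ 0 := fun j hj => hf j (Finset.mem_insert_of_mem hj)
    rw [Finset.prod_insert hi, Finset.sum_insert hi,
      RatFunc.intDegree_mul (hf i (Finset.mem_insert_self i s)) (Finset.prod_ne_zero_iff.2 h1), ih h1]

/-- a homomorphism-like function of `Tor` -/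
theorem torval_gen {M : Type} [AddCommGroup M] (f : RatFunc F → M) (mul' : ℤ → M → M)
    (h1 : ∀ x y, x ≠ 0 → y ≠ 0 → f (x * y) = f x + f y)
    (h2 : ∀ {ι : Type} (s : Finset ι) (u : ι → RatFunc F), (∀ i ∈ s, u i ≠ 0) →
      f (∏ i ∈ s, u i) = ∑ i ∈ s, f (u i))
    (h3 : ∀ x, x ≠ 0 → ∀ k : ℤ, f (x ^ k) = mul' k (f x))
    {n : ℕ} (a : Fin n → F[X]) (hne : ∀ i j, i ≠ j → a i - a j ≠ 0) (D : F[X]) (hD : D ≠ 0)
    (w : Fin n → ℤ) (j : Fin n) :
    f (Tor a D w j) = mul' (w j) (f (algebraMap F[X] (RatFunc F) D)) +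
      ∑ i ∈ Finset.univ.erase j, mul' (w j - w i) (f (algebraMap F[X] (RatFunc F) (a j - a i))) := by
  have e1 : ∀ i ∈ Finset.univ.erase j,
      (algebraMap F[X] (RatFunc F) (a j - a i)) ^ (w j - w i) ≠ 0 := by
    intro i hi
    exact zpow_ne_zero _ (torval_am_ne_zero (hne j i (Finset.ne_of_mem_erase hi).symm))
  rw [Tor, h1 _ _ (zpow_ne_zero _ (torval_am_ne_zero hD)) (Finset.prod_ne_zero_iff.2 e1),
    h3 _ (torval_am_ne_zero hD), h2 _ _ e1]
  congr 1
  refine Finset.sum_congr rfl fun i hi => ?_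
  rw [h3 _ (torval_am_ne_zero (hne j i (Finset.ne_of_mem_erase hi).symm))]

end TorValAux

section TorValAux2

variable {F : Type} [Field F] [Fintype F] {ℓ : ℕ} [Fact ℓ.Prime] (g : Lg F ℓ) {n d : ℕ}
    {a : Fin n → F[X]} (ha : Stp d a)

include ha

theorem torval_vl_diff (P : Ir F) {i j : Fin n} (hij : i ≠ j) :
    vl P (algebraMap F[X] (RatFunc F) (a i - a j)) = if P.1 ∣ a i - a j then 1 else 0 := by
  have hne := diff_ne_zero ha hij
  have hlc : (a i - a j).leadingCoeff ≠ 0 := leadingCoeff_ne_zero.2 hne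
  have hC : ¬ P.1 ∣ C (a i - a j).leadingCoeff := by
    intro h
    exact P.2.2.not_isUnit (isUnit_of_dvd_unit h (isUnit_C.2 (isUnit_iff_ne_zero.2 hlc)))
  conv_lhs => rw [diff_dec ha i j hij, map_mul]
  rw [vl_mul P _ _ (torval_am_ne_zero (C_ne_zero.2 hlc)) (torval_pr_ne _), vl_poly_zero P _ hC,
    vl_pr, zero_add]
  have h1 : P ∈ (SS a).filter (fun P => P.1 ∣ a i - a j) ↔ P.1 ∣ a i - a j := by
    rw [Finset.mem_filter, mem_SS ha]
    exact ⟨fun h => h.2, fun h => ⟨⟨i, j, hij, h⟩, h⟩⟩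
  simp only [h1]

theorem torval_ch_diff (P : Ir F) {i j : Fin n} (hij : i ≠ j) :
    ch g P (algebraMap F[X] (RatFunc F) (a i - a j)) =
      (P.1.natDegree : ZMod ℓ) * g.toFun (a i - a j).leadingCoeff +
        ∑ R ∈ ((SS a).filter (fun R => R.1 ∣ a i - a j)).erase P, g.L R.1 P.1 := by
  have hne := diff_ne_zero ha hij
  have hlc : (a i - a j).leadingCoeff ≠ 0 := leadingCoeff_ne_zero.2 hne
  conv_lhs => rw [diff_dec ha i j hij, map_mul]
  rw [ch_mul g P _ _ (torval_am_ne_zero (C_ne_zero.2 hlc)) (torval_pr_ne _), ch_C g P _ hlc, ch_pr]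

theorem torval_ch_neg (h2 : ℓ ≠ 2) (P : Ir F) {i j : Fin n} (hij : i ≠ j) :
    ch g P (algebraMap F[X] (RatFunc F) (a i - a j)) =
      ch g P (algebraMap F[X] (RatFunc F) (a j - a i)) := by
  have h1 : a i - a j = C (-1) * (a j - a i) := by
    rw [C_neg, C_1]
    ring
  rw [h1, map_mul, ch_mul g P _ _ (torval_am_ne_zero (C_ne_zero.2 (neg_ne_zero.2 one_ne_zero)))
    (torval_am_ne_zero (diff_ne_zero ha hij.symm)), ch_C g P _ (neg_ne_zero.2 one_ne_zero),
    lg_neg_one g h2, mul_zero, zero_add]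

theorem torval_vl (P : Ir F) (t : Finset (Ir F)) (w : Fin n → ℤ) (j : Fin n) :
    vl P (Tor a (pr t) w j) = w j * (if P ∈ t then 1 else 0) +
      ∑ i ∈ Finset.univ.erase j, (w j - w i) * (if P.1 ∣ a j - a i then 1 else 0) := by
  have h := torval_gen (vl P) (fun k m => k * m) (fun x y hx hy => vl_mul P x y hx hy)
    (fun s u hu => vl_prod P s u hu) (fun x hx k => vl_zpow P x hx k) a
    (fun i j hij => diff_ne_zero ha hij) (pr t) (pr_monic t).ne_zero w j
  rw [h, vl_pr]
  congr 1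
  refine Finset.sum_congr rfl fun i hi => ?_
  rw [torval_vl_diff ha P (Finset.ne_of_mem_erase hi).symm]

theorem torval_ch (P : Ir F) (t : Finset (Ir F)) (w : Fin n → ℤ) (j : Fin n) :
    ch g P (Tor a (pr t) w j) = (w j : ZMod ℓ) * ∑ R ∈ t.erase P, g.L R.1 P.1 +
      ∑ i ∈ Finset.univ.erase j, ((w j : ZMod ℓ) - (w i : ZMod ℓ)) *
        ch g P (algebraMap F[X] (RatFunc F) (a j - a i)) := by
  have h := torval_gen (ch g P) (fun k m => (k : ZMod ℓ) * m) (fun x y hx hy => ch_mul g P x y hx hy)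
    (fun s u hu => ch_prod g P s u hu) (fun x hx k => ch_zpow g P x hx k) a
    (fun i j hij => diff_ne_zero ha hij) (pr t) (pr_monic t).ne_zero w j
  rw [h, ch_pr]
  congr 1
  refine Finset.sum_congr rfl fun i _ => ?_
  push_cast
  rfl

end TorValAux2

variable {F : Type} [Field F] [Fintype F] {ℓ : ℕ} [Fact ℓ.Prime] (g : Lg F ℓ) {n d : ℕ}
    {a : Fin n → F[X]} (ha : Stp d a) {pa pb : Ir F → Fin n} (hp : Pairs a pa pb)
    {t : Finset (Ir F)} (ht : Disjoint t (SS a)) (w : Fin n → ℤ)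

include ha in
theorem tor_ne_zero (j : Fin n) : Tor a (pr t) w j ≠ 0 := by
  rw [Tor]
  refine mul_ne_zero (zpow_ne_zero _ (torval_pr_ne t)) (Finset.prod_ne_zero_iff.2 fun i hi => ?_)
  exact zpow_ne_zero _ (torval_am_ne_zero (diff_ne_zero ha (Finset.ne_of_mem_erase hi).symm))

include ha ht in
theorem tor_vl_t {P : Ir F} (hP : P ∈ t) (j : Fin n) : vl P (Tor a (pr t) w j) = w j := by
  rw [torval_vl ha, if_pos hP, mul_one, Finset.sum_eq_zero, add_zero]
  intro i hi
  rw [if_neg, mul_zero]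
  intro h
  exact Finset.disjoint_left.1 ht hP ((mem_SS ha P).2 ⟨j, i, (Finset.ne_of_mem_erase hi).symm, h⟩)

include ha in
theorem tor_vl_out {P : Ir F} (hP : P ∉ t) (hP' : P ∉ SS a) (j : Fin n) :
    vl P (Tor a (pr t) w j) = 0 := by
  rw [torval_vl ha, if_neg hP, mul_zero, zero_add, Finset.sum_eq_zero]
  intro i hi
  rw [if_neg, mul_zero]
  intro h
  exact hP' ((mem_SS ha P).2 ⟨j, i, (Finset.ne_of_mem_erase hi).symm, h⟩)

include ha hp ht in
theorem tor_vl_S {P : Ir F} (hP : P ∈ SS a) (j : Fin n) :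
    vl P (Tor a (pr t) w j) =
      if j = pa P then w (pa P) - w (pb P) else if j = pb P then w (pb P) - w (pa P) else 0 := by
  have hPt : P ∉ t := fun h => Finset.disjoint_left.1 ht h hP
  have hab : pa P ≠ pb P := (hp P hP).1.ne
  rw [torval_vl ha, if_neg hPt, mul_zero, zero_add]
  have h1 : ∀ i ∈ Finset.univ.erase j, (w j - w i) * (if P.1 ∣ a j - a i then (1 : ℤ) else 0) =
      if (j = pa P ∧ i = pb P) ∨ (j = pb P ∧ i = pa P) then w j - w i else 0 := by
    intro i hi
    have h2 := pairs_iff ha hp hP j i (Finset.ne_of_mem_erase hi).symm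
    simp only [h2]
    split_ifs <;> simp
  rw [Finset.sum_congr rfl h1]
  by_cases hja : j = pa P
  · rw [if_pos hja, Finset.sum_eq_single (pb P)]
    · rw [if_pos (Or.inl ⟨hja, rfl⟩), hja]
    · intro i _ hi
      rw [if_neg]
      rintro (h | h)
      · exact hi h.2
      · exact hab (hja.symm.trans h.1)
    · intro h
      exfalso
      apply h
      rw [Finset.mem_erase]
      exact ⟨fun h3 => hab (hja.symm.trans h3.symm), Finset.mem_univ _⟩
  · rw [if_neg hja]
    by_cases hjb : j = pb P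
    · rw [if_pos hjb, Finset.sum_eq_single (pa P)]
      · rw [if_pos (Or.inr ⟨hjb, rfl⟩), hjb]
      · intro i _ hi
        rw [if_neg]
        rintro (h | h)
        · exact hja h.1
        · exact hi h.2
      · intro h
        exfalso
        apply h
        rw [Finset.mem_erase]
        exact ⟨fun h3 => hja h3.symm, Finset.mem_univ _⟩
    · rw [if_neg hjb, Finset.sum_eq_zero]
      intro i _
      rw [if_neg]
      rintro (h | h)
      · exact hja h.1
      · exact hjb h.1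

include ha ht in
/-- The symbol at `P ∈ t`. -/
theorem tor_ch_t (h2 : ℓ ≠ 2) {P : Ir F} (hP : P ∈ t) (j : Fin n) :
    ch g P (Tor a (pr t) w j) = (w j : ZMod ℓ) * ∑ R ∈ t.erase P, g.L R.1 P.1 +
      ∑ i ∈ Finset.univ.erase j, ((w j : ZMod ℓ) - (w i : ZMod ℓ)) *
        ((P.1.natDegree : ZMod ℓ) * g.toFun (a j - a i).leadingCoeff +
          ∑ R ∈ (SS a).filter (fun R => R.1 ∣ a j - a i), g.L R.1 P.1) := by
  have hPS : P ∉ SS a := Finset.disjoint_left.1 ht hP
  rw [torval_ch g ha]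
  congr 1
  refine Finset.sum_congr rfl fun i hi => ?_
  rw [torval_ch_diff g ha P (Finset.ne_of_mem_erase hi).symm, Finset.erase_eq_of_notMem]
  intro h
  exact hPS (Finset.mem_filter.1 h).1

include ha hp ht in
/-- The difference of the symbols at `P ∈ SS a`. -/
theorem tor_ch_S (h2 : ℓ ≠ 2) {P : Ir F} (hP : P ∈ SS a) :
    ch g P (Tor a (pr t) w (pa P)) - ch g P (Tor a (pr t) w (pb P)) =
      ((w (pa P) : ZMod ℓ) - (w (pb P) : ZMod ℓ)) *
        (∑ R ∈ t, g.L R.1 P.1 + 2 * ch g P (algebraMap F[X] (RatFunc F) (a (pa P) - a (pb P))) +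
          ∑ i ∈ (Finset.univ.erase (pa P)).erase (pb P), g.L (a (pa P) - a i) P.1) := by
  have hPt : P ∉ t := fun h => Finset.disjoint_left.1 ht h hP
  have hab : pa P ≠ pb P := (hp P hP).1.ne
  have hdiv : P.1 ∣ a (pb P) - a (pa P) := by
    rw [← neg_sub, dvd_neg]
    exact (hp P hP).2.1
  have hba : pb P ∈ Finset.univ.erase (pa P) := by
    rw [Finset.mem_erase]
    exact ⟨hab.symm, Finset.mem_univ _⟩
  have hab' : pa P ∈ Finset.univ.erase (pb P) := by
    rw [Finset.mem_erase]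
    exact ⟨hab, Finset.mem_univ _⟩
  rw [torval_ch g ha, torval_ch g ha, Finset.erase_eq_of_notMem hPt,
    ← Finset.add_sum_erase _ _ hba, ← Finset.add_sum_erase _ _ hab',
    torval_ch_neg g ha h2 P hab.symm, Finset.erase_right_comm (a := pb P) (b := pa P)]
  have h3 : ∀ i ∈ (Finset.univ.erase (pa P)).erase (pb P),
      ch g P (algebraMap F[X] (RatFunc F) (a (pa P) - a i)) = g.L (a (pa P) - a i) P.1 ∧
      ch g P (algebraMap F[X] (RatFunc F) (a (pb P) - a i)) = g.L (a (pa P) - a i) P.1 := by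
    intro i hi
    rw [Finset.mem_erase, Finset.mem_erase] at hi
    have e1 : ¬ P.1 ∣ a (pa P) - a i := by
      rw [pairs_iff ha hp hP _ _ hi.2.1.symm]
      rintro (h | h)
      · exact hi.1 h.2
      · exact hab h.1
    have e2 : ¬ P.1 ∣ a (pb P) - a i := by
      rw [pairs_iff ha hp hP _ _ hi.1.symm]
      rintro (h | h)
      · exact hab h.1.symm
      · exact hi.2.1 h.2
    refine ⟨ch_poly g P _ e1, ?_⟩
    rw [ch_poly g P _ e2]
    obtain ⟨c, hc⟩ := hdiv
    have e3 : a (pb P) - a i = (a (pa P) - a i) + P.1 * c := by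
      rw [← hc]
      ring
    rw [e3, L_periodic g _ _ _ P.2.1]
  have h4 : ∑ i ∈ (Finset.univ.erase (pa P)).erase (pb P),
      ((w (pa P) : ZMod ℓ) - (w i : ZMod ℓ)) *
        ch g P (algebraMap F[X] (RatFunc F) (a (pa P) - a i)) -
      ∑ i ∈ (Finset.univ.erase (pa P)).erase (pb P),
      ((w (pb P) : ZMod ℓ) - (w i : ZMod ℓ)) *
        ch g P (algebraMap F[X] (RatFunc F) (a (pb P) - a i)) =
      ((w (pa P) : ZMod ℓ) - (w (pb P) : ZMod ℓ)) *
        ∑ i ∈ (Finset.univ.erase (pa P)).erase (pb P), g.L (a (pa P) - a i) P.1 := by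
    rw [← Finset.sum_sub_distrib, Finset.mul_sum]
    refine Finset.sum_congr rfl fun i hi => ?_
    rw [(h3 i hi).1, (h3 i hi).2]
    ring
  linear_combination h4

include ha in
theorem tor_lgc (j : Fin n) : lgc g (Tor a (pr t) w j) =
    ∑ i ∈ Finset.univ.erase j, ((w j : ZMod ℓ) - (w i : ZMod ℓ)) *
      g.toFun (a j - a i).leadingCoeff := by
  have h := torval_gen (lgc g) (fun k m => (k : ZMod ℓ) * m) (fun x y hx hy => lgc_mul g x y hx hy)
    (fun s u hu => lgc_prod g s u hu) (fun x hx k => lgc_zpow g x hx k) a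
    (fun i j hij => diff_ne_zero ha hij) (pr t) (pr_monic t).ne_zero w j
  rw [h, lgc_poly, (pr_monic t).leadingCoeff, lg_one, mul_zero, zero_add]
  refine Finset.sum_congr rfl fun i _ => ?_
  rw [lgc_poly]
  push_cast
  rfl

include ha in
theorem tor_deg (hw : ∑ i, w i = 0) (j : Fin n) :
    (Tor a (pr t) w j).intDegree = ((dgs t : ℤ) + n * d) * w j := by
  have h := torval_gen RatFunc.intDegree (fun k m => k * m)
    (fun x y hx hy => RatFunc.intDegree_mul hx hy)
    (fun s u hu => torval_deg_prod s u hu) (fun x hx k => torval_deg_zpow x hx k) a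
    (fun i j hij => diff_ne_zero ha hij) (pr t) (pr_monic t).ne_zero w j
  rw [h, RatFunc.intDegree_polynomial, natDegree_pr]
  have h1 : ∀ i ∈ Finset.univ.erase j, (w j - w i) *
      (algebraMap F[X] (RatFunc F) (a j - a i)).intDegree = (w j - w i) * d := by
    intro i hi
    rw [RatFunc.intDegree_polynomial, natDegree_diff ha (Finset.ne_of_mem_erase hi).symm]
  rw [Finset.sum_congr rfl h1, ← Finset.sum_mul]
  have h2 : ∑ i ∈ Finset.univ.erase j, (w j - w i) = n * w j := by
    have h3 : ∑ i, (w j - w i) = (w j - w j) + ∑ i ∈ Finset.univ.erase j, (w j - w i) :=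
      (Finset.add_sum_erase _ _ (Finset.mem_univ j)).symm
    rw [Finset.sum_sub_distrib, hw, Finset.sum_const, Finset.card_univ, Fintype.card_fin,
      nsmul_eq_mul] at h3
    linarith
  rw [h2]
  ring

end Pool.Agent.Helper48.ST
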