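import Pool.Agent.Helper48.ST.OkDat
import Pool.Agent.Helper48.ST.AffProd

/-!
ST-59. The maximal unlinked sets on which the data are constant.

Proof. `U = u₀ + W` (`iso_coset`). For a pair `i < j` let `π ∈ S` with `pa π = i`, `pb π = j`: `G π u = (w_i - w_j + e)(z_j - z_i + r)` is constant on `U`; with `u = u₀ + x`, `x ∈ W`, this is a product of two affine functions of `x`, so by `aff_prod`
`x.1 i = x.1 j` for all `x ∈ W` or `x.2 i = x.2 j` for all `x ∈ W`. Apply `two_rel` to the relations `r i j : ∀ x ∈ W, x.1 i = x.1 j` and `s i j : ∀ x ∈ W, x.2 i = x.2 j`: if `r i j` for all `i, j` then `x.1 = 0` for all `x ∈ W` (`Vs_const`), so all elements of `U` have first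
component `u₀.1`, and `card U = card V` gives `U = {u₀.1} × V`. Similarly for the second.
-/

set_option autoImplicit false

open Polynomial
open scoped Classical

namespace Pool.Agent.Helper48.ST

/-- the difference of two coordinates of the first component -/
noncomputable def typF (n ℓ : ℕ) (i j : Fin n) : (Vs n ℓ × Vs n ℓ) →ₗ[ZMod ℓ] ZMod ℓ where
  toFun x := x.1.1 i - x.1.1 j
  map_add' x y := by
    change (x.1.1 i + y.1.1 i) - (x.1.1 j + y.1.1 j) = _
    ring
  map_smul' c x := by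
    change c * x.1.1 i - c * x.1.1 j = c * (x.1.1 i - x.1.1 j)
    ring

/-- the difference of two coordinates of the second component -/
noncomputable def typH (n ℓ : ℕ) (i j : Fin n) : (Vs n ℓ × Vs n ℓ) →ₗ[ZMod ℓ] ZMod ℓ where
  toFun x := x.2.1 j - x.2.1 i
  map_add' x y := by
    change (x.2.1 j + y.2.1 j) - (x.2.1 i + y.2.1 i) = _
    ring
  map_smul' c x := by
    change c * x.2.1 j - c * x.2.1 i = c * (x.2.1 j - x.2.1 i)
    ring

theorem typF_apply {n ℓ : ℕ} (i j : Fin n) (x : Vs n ℓ × Vs n ℓ) :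
    typF n ℓ i j x = x.1.1 i - x.1.1 j := rfl

theorem typH_apply {n ℓ : ℕ} (i j : Fin n) (x : Vs n ℓ × Vs n ℓ) :
    typH n ℓ i j x = x.2.1 j - x.2.1 i := rfl

theorem types {F : Type} [Field F] {ℓ : ℕ} [Fact ℓ.Prime] (h2 : ℓ ≠ 2) (g : Lg F ℓ) {n : ℕ}
    (hn : ¬ ℓ ∣ n) (a : Fin n → F[X]) (pa pb : Ir F → Fin n) (S : Finset (Ir F))
    (hS : ∀ i j, i < j → ∃ π ∈ S, pa π = i ∧ pb π = j) (y y' : Pr F n ℓ S)
    (U : Finset (Vs n ℓ × Vs n ℓ)) (hU : Iso U) (hc : U.card = Fintype.card (Vs n ℓ))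
    (hC : (DatP g a pa pb S y y').Cst S U) :
    (∃ w₀, U = Finset.univ.filter fun u => u.1 = w₀) ∨
      ∃ z₀, U = Finset.univ.filter fun u => u.2 = z₀ := by
  obtain ⟨W, u₀, hW1, -, -⟩ := iso_coset hn U hU hc
  have hu0 : u₀ ∈ U := (hW1 u₀).2 (by rw [sub_self]; exact W.zero_mem)
  have hpair : ∀ i j, i < j → (∀ x ∈ W, x.1.1 i = x.1.1 j) ∨ ∀ x ∈ W, x.2.1 i = x.2.1 j := by
    intro i j hij
    obtain ⟨π, hπ, rfl, rfl⟩ := hS i j hij
    have key := aff_prod h2 W (typF n ℓ (pa π) (pb π)) (typH n ℓ (pa π) (pb π))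
      (u₀.1.1 (pa π) - u₀.1.1 (pb π) + ex y.2 π) (u₀.2.1 (pb π) - u₀.2.1 (pa π) + ex y'.2 π)
      (fun x hx => by
        have hux : u₀ + x ∈ U := (hW1 _).2 (by rw [add_sub_cancel_left]; exact hx)
        have h3 := (hC (u₀ + x) hux u₀ hu0).2 π hπ
        change ((u₀.1.1 (pa π) + x.1.1 (pa π)) - (u₀.1.1 (pb π) + x.1.1 (pb π)) + ex y.2 π) *
          ((u₀.2.1 (pb π) + x.2.1 (pb π)) - (u₀.2.1 (pa π) + x.2.1 (pa π)) + ex y'.2 π) =
          (u₀.1.1 (pa π) - u₀.1.1 (pb π) + ex y.2 π) *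
          (u₀.2.1 (pb π) - u₀.2.1 (pa π) + ex y'.2 π) at h3
        rw [typF_apply, typH_apply, ← h3]
        ring)
    rcases key with h | h
    · left
      intro x hx
      have := h x hx
      rw [typF_apply] at this
      exact sub_eq_zero.1 this
    · right
      intro x hx
      have := h x hx
      rw [typH_apply] at this
      exact (sub_eq_zero.1 this).symm
  have hall : ∀ i j, (∀ x ∈ W, x.1.1 i = x.1.1 j) ∨ ∀ x ∈ W, x.2.1 i = x.2.1 j := by
    intro i j
    rcases lt_trichotomy i j with h | h | h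
    · exact hpair i j h
    · left
      intro x _
      rw [h]
    · rcases hpair j i h with h3 | h3
      · exact Or.inl fun x hx => (h3 x hx).symm
      · exact Or.inr fun x hx => (h3 x hx).symm
  have hfin : ∀ v ∈ U, ∃ x ∈ W, v = u₀ + x := fun v hv =>
    ⟨v - u₀, (hW1 v).1 hv, by rw [add_sub_cancel]⟩
  have hcardV : ∀ s : Finset (Vs n ℓ × Vs n ℓ),
      (∀ u ∈ s, ∀ v ∈ s, u.1 = v.1) ∨ (∀ u ∈ s, ∀ v ∈ s, u.2 = v.2) →
      s.card ≤ Fintype.card (Vs n ℓ) := by
    intro s hs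
    rw [← Finset.card_univ]
    rcases hs with hs | hs
    · exact Finset.card_le_card_of_injOn (fun u => u.2) (fun _ _ => Finset.mem_coe.2 (Finset.mem_univ _))
        fun u hu v hv huv => Prod.ext (hs u hu v hv) huv
    · exact Finset.card_le_card_of_injOn (fun u => u.1) (fun _ _ => Finset.mem_coe.2 (Finset.mem_univ _))
        fun u hu v hv huv => Prod.ext huv (hs u hu v hv)
  rcases two_rel (fun i j => ∀ x ∈ W, x.1.1 i = x.1.1 j) (fun i j => ∀ x ∈ W, x.2.1 i = x.2.1 j)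
    ⟨fun _ _ _ => rfl, fun h x hx => (h x hx).symm, fun h h' x hx => (h x hx).trans (h' x hx)⟩
    ⟨fun _ _ _ => rfl, fun h x hx => (h x hx).symm, fun h h' x hx => (h x hx).trans (h' x hx)⟩
    hall with h | h
  · left
    refine ⟨u₀.1, Finset.eq_of_subset_of_card_le ?_ ?_⟩
    · intro v hv
      obtain ⟨x, hx, rfl⟩ := hfin v hv
      rw [Finset.mem_filter]
      refine ⟨Finset.mem_univ _, ?_⟩
      have hx0 : x.1 = 0 := Vs_const hn x.1 fun i j => h i j x hx
      rw [Prod.fst_add, hx0, add_zero]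
    · rw [hc]
      apply hcardV
      left
      intro u hu v hv
      rw [(Finset.mem_filter.1 hu).2, (Finset.mem_filter.1 hv).2]
  · right
    refine ⟨u₀.2, Finset.eq_of_subset_of_card_le ?_ ?_⟩
    · intro v hv
      obtain ⟨x, hx, rfl⟩ := hfin v hv
      rw [Finset.mem_filter]
      refine ⟨Finset.mem_univ _, ?_⟩
      have hx0 : x.2 = 0 := Vs_const hn x.2 fun i j => h i j x hx
      rw [Prod.snd_add, hx0, add_zero]
    · rw [hc]
      apply hcardV
      right
      intro u hu v hv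
      rw [(Finset.mem_filter.1 hu).2, (Finset.mem_filter.1 hv).2]

end Pool.Agent.Helper48.ST
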