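import Pool.Agent.Helper48.ST.Defs2

/-!
ST-41. Valuations and leading coefficients of rational functions.

Proof. For a prime `P`, `multiplicity P` is additive on products of nonzero polynomials (`Prime`, `finiteMultiplicity` for nonzero elements). If
`x = A/B` with `A`, `B` nonzero polynomials then `x.num * B = A * x.denom` (`RatFunc.num_div_denom`, `div_eq_div_iff`), so `vl P x = mult A - mult B`, which gives
all the rules; `lgc g x = g (lc A) - g (lc B)` since `x.denom` is monic. `vl_pr`: `pr t` is the product of different monic irreducible polynomials.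
-/

set_option autoImplicit false

open Polynomial
open scoped Classical

namespace Pool.Agent.Helper48.ST

variable {F : Type} [Field F]

theorem val41_prime (P : Ir F) : Prime P.1 := P.2.2.prime

theorem val41_fin (P : Ir F) {A : F[X]} (hA : A ≠ 0) : FiniteMultiplicity P.1 A :=
  FiniteMultiplicity.of_not_isUnit P.2.2.not_isUnit hA

theorem val41_mul (P : Ir F) {A B : F[X]} (hA : A ≠ 0) (hB : B ≠ 0) :
    multiplicity P.1 (A * B) = multiplicity P.1 A + multiplicity P.1 B :=
  multiplicity_mul (val41_prime P) (val41_fin P (mul_ne_zero hA hB))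

theorem val41_inj {A B : F[X]} (h : algebraMap F[X] (RatFunc F) A = algebraMap F[X] (RatFunc F) B) :
    A = B :=
  RatFunc.algebraMap_injective F h

theorem val41_den (x : RatFunc F) : algebraMap F[X] (RatFunc F) x.denom ≠ 0 := by
  rw [Ne, map_eq_zero_iff _ (RatFunc.algebraMap_injective F)]
  exact x.denom_ne_zero

theorem val41_num (x : RatFunc F) :
    x * algebraMap F[X] (RatFunc F) x.denom = algebraMap F[X] (RatFunc F) x.num := by
  have h := RatFunc.num_div_denom x
  rw [div_eq_iff (val41_den x)] at h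
  exact h.symm

theorem val41_cross {x : RatFunc F} {A B : F[X]}
    (h : x * algebraMap F[X] (RatFunc F) B = algebraMap F[X] (RatFunc F) A) :
    x.num * B = A * x.denom := by
  apply val41_inj
  rw [map_mul, map_mul, ← val41_num, ← h]
  ring

theorem val41_frac (P : Ir F) {x : RatFunc F} (hx : x ≠ 0) {A B : F[X]} (hA : A ≠ 0) (hB : B ≠ 0)
    (h : x * algebraMap F[X] (RatFunc F) B = algebraMap F[X] (RatFunc F) A) :
    vl P x = (multiplicity P.1 A : ℤ) - (multiplicity P.1 B : ℤ) := by
  have h1 : ((multiplicity P.1 (x.num * B) : ℕ) : ℤ) = (multiplicity P.1 (A * x.denom) : ℕ) := by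
    rw [val41_cross h]
  rw [val41_mul P (RatFunc.num_ne_zero hx) hB, val41_mul P hA x.denom_ne_zero] at h1
  unfold vl
  push_cast at h1
  linarith

theorem vl_mul (P : Ir F) (x y : RatFunc F) (hx : x ≠ 0) (hy : y ≠ 0) :
    vl P (x * y) = vl P x + vl P y := by
  have h : (x * y) * algebraMap F[X] (RatFunc F) (x.denom * y.denom) =
      algebraMap F[X] (RatFunc F) (x.num * y.num) := by
    rw [map_mul, map_mul, ← val41_num x, ← val41_num y]
    ring
  rw [val41_frac P (mul_ne_zero hx hy)
    (mul_ne_zero (RatFunc.num_ne_zero hx) (RatFunc.num_ne_zero hy))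
    (mul_ne_zero x.denom_ne_zero y.denom_ne_zero) h,
    val41_mul P (RatFunc.num_ne_zero hx) (RatFunc.num_ne_zero hy),
    val41_mul P x.denom_ne_zero y.denom_ne_zero]
  unfold vl
  push_cast
  ring

theorem vl_one (P : Ir F) : vl P (1 : RatFunc F) = 0 := by
  unfold vl
  rw [RatFunc.num_one, RatFunc.denom_one, sub_self]

theorem vl_inv (P : Ir F) (x : RatFunc F) (hx : x ≠ 0) : vl P x⁻¹ = -vl P x := by
  have h := vl_mul P x x⁻¹ hx (inv_ne_zero hx)
  rw [mul_inv_cancel₀ hx, vl_one] at h
  linarith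

theorem val41_pow (P : Ir F) (x : RatFunc F) (hx : x ≠ 0) (k : ℕ) :
    vl P (x ^ k) = k * vl P x := by
  induction k with
  | zero => rw [pow_zero, vl_one]; simp
  | succ k ih =>
    rw [pow_succ, vl_mul P _ _ (pow_ne_zero _ hx) hx, ih]
    push_cast
    ring

theorem vl_zpow (P : Ir F) (x : RatFunc F) (hx : x ≠ 0) (k : ℤ) : vl P (x ^ k) = k * vl P x := by
  obtain ⟨n, rfl | rfl⟩ := k.eq_nat_or_neg
  · rw [zpow_natCast, val41_pow P x hx]
  · rw [zpow_neg, zpow_natCast, vl_inv P _ (pow_ne_zero _ hx), val41_pow P x hx]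
    ring

theorem vl_prod (P : Ir F) {ι : Type} (s : Finset ι) (f : ι → RatFunc F) (hf : ∀ i ∈ s, f i ≠ 0) :
    vl P (∏ i ∈ s, f i) = ∑ i ∈ s, vl P (f i) := by
  induction s using Finset.induction_on with
  | empty => rw [Finset.prod_empty, Finset.sum_empty, vl_one]
  | insert a s ha ih =>
    rw [Finset.prod_insert ha, Finset.sum_insert ha,
      vl_mul P _ _ (hf a (Finset.mem_insert_self a s))
        (Finset.prod_ne_zero_iff.2 fun i hi => hf i (Finset.mem_insert_of_mem hi)),
      ih fun i hi => hf i (Finset.mem_insert_of_mem hi)]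

theorem vl_poly (P : Ir F) (A : F[X]) (hA : A ≠ 0) :
    vl P (algebraMap F[X] (RatFunc F) A) = (multiplicity P.1 A : ℤ) := by
  unfold vl
  rw [RatFunc.num_algebraMap, RatFunc.denom_algebraMap]
  have h : multiplicity P.1 (1 : F[X]) = 0 := by
    rw [multiplicity_eq_zero]
    exact fun h => P.2.2.not_isUnit (isUnit_of_dvd_one h)
  rw [h]
  simp

theorem vl_poly_zero (P : Ir F) (A : F[X]) (hA : ¬ P.1 ∣ A) :
    vl P (algebraMap F[X] (RatFunc F) A) = 0 := by
  have hA0 : A ≠ 0 := by
    rintro rfl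
    exact hA (dvd_zero _)
  rw [vl_poly P A hA0, multiplicity_eq_zero.2 hA]
  rfl

theorem val41_dvd {P Q : Ir F} (h : P.1 ∣ Q.1) : P = Q := by
  apply Subtype.ext
  exact eq_of_monic_of_associated P.2.1 Q.2.1 (P.2.2.associated_of_dvd Q.2.2 h)

theorem val41_self (P Q : Ir F) :
    vl P (algebraMap F[X] (RatFunc F) Q.1) = if P = Q then 1 else 0 := by
  by_cases h : P = Q
  · subst h
    rw [if_pos rfl, vl_poly P P.1 P.2.2.ne_zero, multiplicity_self]
    rfl
  · rw [if_neg h]
    exact vl_poly_zero P _ fun h' => h (val41_dvd h')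

theorem vl_pr (P : Ir F) (t : Finset (Ir F)) :
    vl P (algebraMap F[X] (RatFunc F) (pr t)) = if P ∈ t then 1 else 0 := by
  unfold pr
  rw [map_prod, vl_prod P t _ fun i _ => by
    rw [Ne, map_eq_zero_iff _ (RatFunc.algebraMap_injective F)]
    exact i.2.2.ne_zero]
  rw [Finset.sum_congr rfl fun Q _ => val41_self P Q, Finset.sum_ite_eq]

theorem val41_finite {A : F[X]} (hA : A ≠ 0) : {P : Ir F | P.1 ∣ A}.Finite := by
  have h1 : {q : F[X] | q ∈ UniqueFactorizationMonoid.normalizedFactors A}.Finite :=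
    Multiset.finite_toSet _
  refine (Set.Finite.preimage (f := fun P : Ir F => P.1) Subtype.val_injective.injOn h1).subset ?_
  intro P hP
  obtain ⟨q, hq, hPq⟩ :=
    UniqueFactorizationMonoid.exists_mem_normalizedFactors_of_dvd hA P.2.2 hP
  have h2 : normalize q = q := UniqueFactorizationMonoid.normalize_normalized_factor q hq
  have h3 : normalize P.1 = P.1 := P.2.1.normalize_eq_self
  have h4 : P.1 = q := by
    rw [← h2, ← h3]
    exact normalize_eq_normalize hPq.dvd hPq.symm.dvd
  change P.1 ∈ UniqueFactorizationMonoid.normalizedFactors A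
  rw [h4]
  exact hq

theorem vl_finite (x : RatFunc F) (hx : x ≠ 0) : {P : Ir F | vl P x ≠ 0}.Finite := by
  refine ((val41_finite (RatFunc.num_ne_zero hx)).union (val41_finite x.denom_ne_zero)).subset ?_
  intro P hP
  by_contra hcon
  rw [Set.mem_union, not_or] at hcon
  apply hP
  unfold vl
  rw [multiplicity_eq_zero.2 hcon.1, multiplicity_eq_zero.2 hcon.2]
  rfl

variable {ℓ : ℕ} [Fact ℓ.Prime] (g : Lg F ℓ)

theorem val41_log_one : g.toFun 1 = 0 := by
  have h := g.map_mul' 1 1 one_ne_zero one_ne_zero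
  rw [mul_one] at h
  exact left_eq_add.1 h

theorem val41_lc {x : RatFunc F} (hx : x ≠ 0) {A B : F[X]} (hA : A ≠ 0) (hB : B ≠ 0)
    (h : x * algebraMap F[X] (RatFunc F) B = algebraMap F[X] (RatFunc F) A) :
    lgc g x = g.toFun A.leadingCoeff - g.toFun B.leadingCoeff := by
  have h1 := congrArg leadingCoeff (val41_cross h)
  rw [leadingCoeff_mul, leadingCoeff_mul, (RatFunc.monic_denom x).leadingCoeff, mul_one] at h1
  unfold lgc
  rw [← h1, g.map_mul' _ _ (leadingCoeff_ne_zero.2 (RatFunc.num_ne_zero hx))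
    (leadingCoeff_ne_zero.2 hB)]
  ring

theorem lgc_mul (x y : RatFunc F) (hx : x ≠ 0) (hy : y ≠ 0) :
    lgc g (x * y) = lgc g x + lgc g y := by
  have h : (x * y) * algebraMap F[X] (RatFunc F) (x.denom * y.denom) =
      algebraMap F[X] (RatFunc F) (x.num * y.num) := by
    rw [map_mul, map_mul, ← val41_num x, ← val41_num y]
    ring
  have hx' := RatFunc.num_ne_zero hx
  have hy' := RatFunc.num_ne_zero hy
  rw [val41_lc g (mul_ne_zero hx hy) (mul_ne_zero hx' hy')
    (mul_ne_zero x.denom_ne_zero y.denom_ne_zero) h,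
    leadingCoeff_mul, leadingCoeff_mul, (RatFunc.monic_denom x).leadingCoeff,
    (RatFunc.monic_denom y).leadingCoeff, mul_one, val41_log_one,
    g.map_mul' _ _ (leadingCoeff_ne_zero.2 hx') (leadingCoeff_ne_zero.2 hy'), sub_zero]
  rfl

theorem val41_lgc_one : lgc g (1 : RatFunc F) = 0 := by
  unfold lgc
  rw [RatFunc.num_one, leadingCoeff_one, val41_log_one]

theorem lgc_inv (x : RatFunc F) (hx : x ≠ 0) : lgc g x⁻¹ = -lgc g x := by
  have h := lgc_mul g x x⁻¹ hx (inv_ne_zero hx)
  rw [mul_inv_cancel₀ hx, val41_lgc_one] at h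
  exact (neg_eq_of_add_eq_zero_right h.symm).symm

theorem val41_lgc_pow (x : RatFunc F) (hx : x ≠ 0) (k : ℕ) :
    lgc g (x ^ k) = (k : ZMod ℓ) * lgc g x := by
  induction k with
  | zero => rw [pow_zero, val41_lgc_one]; simp
  | succ k ih =>
    rw [pow_succ, lgc_mul g _ _ (pow_ne_zero _ hx) hx, ih]
    push_cast
    ring

theorem lgc_zpow (x : RatFunc F) (hx : x ≠ 0) (k : ℤ) : lgc g (x ^ k) = (k : ZMod ℓ) * lgc g x := by
  obtain ⟨n, rfl | rfl⟩ := k.eq_nat_or_neg
  · rw [zpow_natCast, val41_lgc_pow g x hx]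
    push_cast
    rfl
  · rw [zpow_neg, zpow_natCast, lgc_inv g _ (pow_ne_zero _ hx), val41_lgc_pow g x hx]
    push_cast
    ring

theorem lgc_prod {ι : Type} (s : Finset ι) (f : ι → RatFunc F) (hf : ∀ i ∈ s, f i ≠ 0) :
    lgc g (∏ i ∈ s, f i) = ∑ i ∈ s, lgc g (f i) := by
  induction s using Finset.induction_on with
  | empty => rw [Finset.prod_empty, Finset.sum_empty, val41_lgc_one]
  | insert a s ha ih =>
    rw [Finset.prod_insert ha, Finset.sum_insert ha,
      lgc_mul g _ _ (hf a (Finset.mem_insert_self a s))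
        (Finset.prod_ne_zero_iff.2 fun i hi => hf i (Finset.mem_insert_of_mem hi)),
      ih fun i hi => hf i (Finset.mem_insert_of_mem hi)]

theorem lgc_poly (A : F[X]) : lgc g (algebraMap F[X] (RatFunc F) A) = g.toFun A.leadingCoeff := by
  unfold lgc
  rw [RatFunc.num_algebraMap]

end Pool.Agent.Helper48.ST
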