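import Pool.Agent.Helper48.ST.LSets

/-!
ST-25. The weight of a family whose members outside an unlinked set `U` are fixed.
-/

set_option autoImplicit false

open Polynomial
open scoped Classical

namespace Pool.Agent.Helper48.ST

theorem wglue_e_sum {ℓ : ℕ} [NeZero ℓ] {ι : Type} (t : Finset ι) (f : ι → ZMod ℓ) :
    e (∑ i ∈ t, f i) = ∏ i ∈ t, e (f i) := by
  induction t using Finset.induction_on with
  | empty => rw [Finset.sum_empty, Finset.prod_empty, e_zero]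
  | insert i t hi ih => rw [Finset.sum_insert hi, Finset.prod_insert hi, e_add, ih]

theorem wglue_in {F : Type} [Field F] {Ω : Type} (U : Finset Ω)
    (s : {u : Ω // u ∈ U} → Finset (Ir F)) (s' : {u : Ω // u ∉ U} → Finset (Ir F))
    (u : {u : Ω // u ∈ U}) : glue U s s' u.1 = s u := by
  unfold glue
  rw [dif_pos u.2]

theorem wglue_out {F : Type} [Field F] {Ω : Type} (U : Finset Ω)
    (s : {u : Ω // u ∈ U} → Finset (Ir F)) (s' : {u : Ω // u ∉ U} → Finset (Ir F))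
    (u : {u : Ω // u ∉ U}) : glue U s s' u.1 = s' u := by
  unfold glue
  rw [dif_neg u.2]

theorem wglue_split {M Ω : Type} [AddCommMonoid M] [Fintype Ω] (U : Finset Ω) (f : Ω → M) :
    ∑ u, f u = ∑ u : {u : Ω // u ∈ U}, f u.1 + ∑ v : {u : Ω // u ∉ U}, f v.1 := by
  have h := (Fintype.sum_subtype_add_sum_subtype (fun u => u ∈ U) f).symm
  rw [h]
  congr 1
  refine Finset.sum_congr ?_ fun _ _ => rfl
  ext x
  simp

/-- the terms inside the unlinked set -/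
theorem wglue_diag {F : Type} [Field F] {ℓ : ℕ} [Fact ℓ.Prime] (g : Lg F ℓ) (h2 : ℓ ≠ 2)
    {Ω : Type} [Fintype Ω] (D : Dat F ℓ Ω) (hd : ∀ u, D.K u u = 0) (U : Finset Ω) (hU : D.Unl U)
    (s : {u : Ω // u ∈ U} → Finset (Ir F)) (hs : ∀ u v, u ≠ v → Disjoint (s u) (s v)) :
    ∑ u : {u : Ω // u ∈ U}, ∑ v : {u : Ω // u ∈ U}, D.K u.1 v.1 * g.LL (s u) (s v) = 0 := by
  set X := ∑ u : {u : Ω // u ∈ U}, ∑ v : {u : Ω // u ∈ U}, D.K u.1 v.1 * g.LL (s u) (s v) with hX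
  have h1 : X + X = 0 := by
    have h3 : X = ∑ u : {u : Ω // u ∈ U}, ∑ v : {u : Ω // u ∈ U},
        D.K v.1 u.1 * g.LL (s v) (s u) := by
      rw [hX, Finset.sum_comm]
    calc X + X = X + ∑ u : {u : Ω // u ∈ U}, ∑ v : {u : Ω // u ∈ U},
        D.K v.1 u.1 * g.LL (s v) (s u) := by rw [← h3]
      _ = ∑ u : {u : Ω // u ∈ U}, ∑ v : {u : Ω // u ∈ U},
          (D.K u.1 v.1 * g.LL (s u) (s v) + D.K v.1 u.1 * g.LL (s v) (s u)) := by
          rw [hX, ← Finset.sum_add_distrib]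
          refine Finset.sum_congr rfl fun u _ => ?_
          rw [← Finset.sum_add_distrib]
      _ = 0 := by
          refine Finset.sum_eq_zero fun u _ => Finset.sum_eq_zero fun v _ => ?_
          by_cases huv : u = v
          · rw [huv, hd, zero_mul, add_zero]
          · rw [LL_symm g h2 (s v) (s u) (hs v u (Ne.symm huv)), ← add_mul]
            have h4 : D.K u.1 v.1 + D.K v.1 u.1 = 0 := hU u.1 u.2 v.1 v.2
            rw [h4, zero_mul]
  have h5 : (2 : ZMod ℓ) ≠ 0 := by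
    intro h6
    have hp : ℓ.Prime := Fact.out
    have h7 : ((2 : ℕ) : ZMod ℓ) = 0 := by exact_mod_cast h6
    rw [ZMod.natCast_eq_zero_iff] at h7
    exact h2 ((Nat.prime_dvd_prime_iff_eq hp Nat.prime_two).mp h7)
  have h8 : (2 : ZMod ℓ) * X = 0 := by rw [two_mul]; exact h1
  rcases mul_eq_zero.mp h8 with h9 | h9
  · exact absurd h9 h5
  · exact h9

/-- the phase of the glued family -/
theorem wglue_phase {F : Type} [Field F] {ℓ : ℕ} [Fact ℓ.Prime] (g : Lg F ℓ) (h2 : ℓ ≠ 2)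
    {Ω : Type} [Fintype Ω] (D : Dat F ℓ Ω) (hd : ∀ u, D.K u u = 0)
    (S : Finset (Ir F)) (U : Finset Ω) (hU : D.Unl U) (s' : {u : Ω // u ∉ U} → Finset (Ir F))
    (s'' : {u : Ω // u ∈ U} → Finset (Ir F))
    (hs : ∀ u v, u ≠ v → Disjoint (s'' u) (s'' v)) (hS : ∀ u, Disjoint (s'' u) (S ∪ uni s')) :
    D.phase g S (glue U s'' s') =
      (∑ v : {u : Ω // u ∉ U}, (D.A v.1 * (dgs (s' v) : ZMod ℓ) +
        ∑ π ∈ S, D.G π v.1 * g.LL {π} (s' v)) +
        ∑ v : {u : Ω // u ∉ U}, ∑ v' : {u : Ω // u ∉ U}, D.K v.1 v'.1 * g.LL (s' v) (s' v')) +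
      ∑ u : {u : Ω // u ∈ U}, ∑ P ∈ s'' u, D.phi g S U s' u.1 P := by
  have hdisjS : ∀ u, ∀ π ∈ S, ∀ P ∈ s'' u, P ≠ π := by
    intro u π hπ P hP h
    exact Finset.disjoint_left.1 (hS u) hP (Finset.mem_union_left _ (h ▸ hπ))
  have hdisj' : ∀ u v, Disjoint (s'' u) (s' v) := by
    intro u v
    refine Finset.disjoint_of_subset_right ?_ (hS u)
    intro P hP
    exact Finset.mem_union_right _ (Finset.mem_biUnion.2 ⟨v, Finset.mem_univ v, hP⟩)
  unfold Dat.phase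
  rw [wglue_split U (fun u => D.A u * (dgs (glue U s'' s' u) : ZMod ℓ) +
    ∑ π ∈ S, D.G π u * g.LL {π} (glue U s'' s' u))]
  rw [wglue_split U (fun u => ∑ v, D.K u v * g.LL (glue U s'' s' u) (glue U s'' s' v))]
  have e1 : ∀ u : Ω, ∑ v, D.K u v * g.LL (glue U s'' s' u) (glue U s'' s' v) =
      ∑ v : {u : Ω // u ∈ U}, D.K u v.1 * g.LL (glue U s'' s' u) (s'' v) +
      ∑ v : {u : Ω // u ∉ U}, D.K u v.1 * g.LL (glue U s'' s' u) (s' v) := by
    intro u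
    rw [wglue_split U (fun v => D.K u v * g.LL (glue U s'' s' u) (glue U s'' s' v))]
    congr 1
    · exact Finset.sum_congr rfl fun v _ => by rw [wglue_in]
    · exact Finset.sum_congr rfl fun v _ => by rw [wglue_out]
  have e2 : ∑ u : {u : Ω // u ∈ U}, (fun u => ∑ v, D.K u v *
      g.LL (glue U s'' s' u) (glue U s'' s' v)) u.1 =
      ∑ u : {u : Ω // u ∈ U}, ∑ v : {u : Ω // u ∉ U}, D.K u.1 v.1 * g.LL (s'' u) (s' v) := by
    have e3 : ∀ u : {u : Ω // u ∈ U}, (fun u => ∑ v, D.K u v *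
        g.LL (glue U s'' s' u) (glue U s'' s' v)) u.1 =
        ∑ v : {u : Ω // u ∈ U}, D.K u.1 v.1 * g.LL (s'' u) (s'' v) +
        ∑ v : {u : Ω // u ∉ U}, D.K u.1 v.1 * g.LL (s'' u) (s' v) := by
      intro u
      show ∑ v, D.K u.1 v * g.LL (glue U s'' s' u.1) (glue U s'' s' v) = _
      rw [e1 u.1, wglue_in]
    rw [Finset.sum_congr rfl fun u _ => e3 u, Finset.sum_add_distrib,
      wglue_diag g h2 D hd U hU s'' hs, zero_add]
  have e4 : ∑ u : {u : Ω // u ∉ U}, (fun u => ∑ v, D.K u v *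
      g.LL (glue U s'' s' u) (glue U s'' s' v)) u.1 =
      ∑ u : {u : Ω // u ∈ U}, ∑ v : {u : Ω // u ∉ U}, D.K v.1 u.1 * g.LL (s'' u) (s' v) +
      ∑ v : {u : Ω // u ∉ U}, ∑ v' : {u : Ω // u ∉ U}, D.K v.1 v'.1 * g.LL (s' v) (s' v') := by
    have e3 : ∀ u : {u : Ω // u ∉ U}, (fun u => ∑ v, D.K u v *
        g.LL (glue U s'' s' u) (glue U s'' s' v)) u.1 =
        ∑ v : {u : Ω // u ∈ U}, D.K u.1 v.1 * g.LL (s' u) (s'' v) +
        ∑ v : {u : Ω // u ∉ U}, D.K u.1 v.1 * g.LL (s' u) (s' v) := by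
      intro u
      show ∑ v, D.K u.1 v * g.LL (glue U s'' s' u.1) (glue U s'' s' v) = _
      rw [e1 u.1, wglue_out]
    rw [Finset.sum_congr rfl fun u _ => e3 u, Finset.sum_add_distrib]
    congr 1
    rw [Finset.sum_comm]
    refine Finset.sum_congr rfl fun u _ => Finset.sum_congr rfl fun v _ => ?_
    rw [LL_symm g h2 (s' v) (s'' u) (hdisj' u v).symm]
  rw [e2, e4]
  have e5 : ∑ u : {u : Ω // u ∈ U}, (fun u => D.A u * (dgs (glue U s'' s' u) : ZMod ℓ) +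
      ∑ π ∈ S, D.G π u * g.LL {π} (glue U s'' s' u)) u.1 =
      ∑ u : {u : Ω // u ∈ U}, ∑ P ∈ s'' u, (D.A u.1 * (P.1.natDegree : ZMod ℓ) +
        ∑ π ∈ S, D.G π u.1 * g.L P.1 π.1) := by
    refine Finset.sum_congr rfl fun u _ => ?_
    show D.A u.1 * (dgs (glue U s'' s' u.1) : ZMod ℓ) +
      ∑ π ∈ S, D.G π u.1 * g.LL {π} (glue U s'' s' u.1) = _
    rw [wglue_in, Finset.sum_add_distrib]
    congr 1
    · unfold dgs
      rw [Nat.cast_sum, Finset.mul_sum]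
    · rw [Finset.sum_comm]
      refine Finset.sum_congr rfl fun π hπ => ?_
      unfold Lg.LL
      rw [Finset.sum_singleton, Finset.mul_sum]
      refine Finset.sum_congr rfl fun P hP => ?_
      rw [L_ir_symm g h2 (hdisjS u π hπ P hP)]
  have e6 : ∑ u : {u : Ω // u ∉ U}, (fun u => D.A u * (dgs (glue U s'' s' u) : ZMod ℓ) +
      ∑ π ∈ S, D.G π u * g.LL {π} (glue U s'' s' u)) u.1 =
      ∑ v : {u : Ω // u ∉ U}, (D.A v.1 * (dgs (s' v) : ZMod ℓ) +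
        ∑ π ∈ S, D.G π v.1 * g.LL {π} (s' v)) := by
    refine Finset.sum_congr rfl fun u _ => ?_
    show D.A u.1 * (dgs (glue U s'' s' u.1) : ZMod ℓ) +
      ∑ π ∈ S, D.G π u.1 * g.LL {π} (glue U s'' s' u.1) = _
    rw [wglue_out]
  rw [e5, e6]
  have e7 : ∑ u : {u : Ω // u ∈ U}, ∑ P ∈ s'' u, D.phi g S U s' u.1 P =
      ∑ u : {u : Ω // u ∈ U}, ∑ P ∈ s'' u, (D.A u.1 * (P.1.natDegree : ZMod ℓ) +
        ∑ π ∈ S, D.G π u.1 * g.L P.1 π.1) +
      (∑ u : {u : Ω // u ∈ U}, ∑ v : {u : Ω // u ∉ U}, D.K u.1 v.1 * g.LL (s'' u) (s' v) +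
      ∑ u : {u : Ω // u ∈ U}, ∑ v : {u : Ω // u ∉ U}, D.K v.1 u.1 * g.LL (s'' u) (s' v)) := by
    rw [← Finset.sum_add_distrib, ← Finset.sum_add_distrib]
    refine Finset.sum_congr rfl fun u _ => ?_
    unfold Dat.phi
    rw [Finset.sum_add_distrib]
    congr 1
    rw [← Finset.sum_add_distrib, Finset.sum_comm]
    refine Finset.sum_congr rfl fun v _ => ?_
    unfold Dat.lk Lg.LL
    rw [← Finset.mul_sum]
    ring
  rw [e7]
  abel

theorem W_glue {F : Type} [Field F] {ℓ : ℕ} [Fact ℓ.Prime] (g : Lg F ℓ) (h2 : ℓ ≠ 2)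
    {Ω : Type} [Fintype Ω] (D : Dat F ℓ Ω) (hd : ∀ u, D.K u u = 0) (κ : ℕ) (hκ : 1 ≤ κ)
    (S : Finset (Ir F)) (U : Finset Ω) (hU : D.Unl U) (s' : {u : Ω // u ∉ U} → Finset (Ir F)) :
    ∃ w : ℂ, ‖w‖ ≤ 1 ∧ ∀ s'' : {u : Ω // u ∈ U} → Finset (Ir F),
      (∀ u v, u ≠ v → Disjoint (s'' u) (s'' v)) → (∀ u, Disjoint (s'' u) (S ∪ uni s')) →
        D.W g κ S (glue U s'' s') =
          w * ∏ u : {u : Ω // u ∈ U}, ∏ P ∈ s'' u, ((κ : ℂ)⁻¹ * e (D.phi g S U s' u.1 P)) := by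
  refine ⟨((κ : ℂ)⁻¹) ^ (∑ v : {u : Ω // u ∉ U}, (s' v).card) *
    e (∑ v : {u : Ω // u ∉ U}, (D.A v.1 * (dgs (s' v) : ZMod ℓ) +
        ∑ π ∈ S, D.G π v.1 * g.LL {π} (s' v)) +
        ∑ v : {u : Ω // u ∉ U}, ∑ v' : {u : Ω // u ∉ U}, D.K v.1 v'.1 * g.LL (s' v) (s' v')),
    ?_, ?_⟩
  · rw [norm_mul, norm_e, mul_one, norm_pow]
    apply pow_le_one₀ (norm_nonneg _)
    rw [norm_inv, Complex.norm_natCast]
    exact inv_le_one_of_one_le₀ (by exact_mod_cast hκ)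
  · intro s'' hs hS
    unfold Dat.W
    rw [wglue_phase g h2 D hd S U hU s' s'' hs hS, e_add, wglue_e_sum]
    have e1 : ∑ u, (glue U s'' s' u).card = ∑ u : {u : Ω // u ∈ U}, (s'' u).card +
        ∑ v : {u : Ω // u ∉ U}, (s' v).card := by
      rw [wglue_split U (fun u => (glue U s'' s' u).card)]
      congr 1
      · exact Finset.sum_congr rfl fun v _ => by rw [wglue_in]
      · exact Finset.sum_congr rfl fun v _ => by rw [wglue_out]
    rw [e1, pow_add]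
    have e2 : ∏ u : {u : Ω // u ∈ U}, ∏ P ∈ s'' u, ((κ : ℂ)⁻¹ * e (D.phi g S U s' u.1 P)) =
        ((κ : ℂ)⁻¹) ^ (∑ u : {u : Ω // u ∈ U}, (s'' u).card) *
          ∏ u : {u : Ω // u ∈ U}, e (∑ P ∈ s'' u, D.phi g S U s' u.1 P) := by
      rw [← Finset.prod_pow_eq_pow_sum, ← Finset.prod_mul_distrib]
      refine Finset.prod_congr rfl fun u _ => ?_
      rw [Finset.prod_mul_distrib, Finset.prod_const, wglue_e_sum]
    rw [e2]
    ring

end Pool.Agent.Helper48.ST
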