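import Pool.Agent.Helper48.ST.LSets

/-!
ST-22. Dependence of the weight on two members of a family.

Proof. Let `s₁ = update (update s u x) u' y`. In `D.phase g S s₁` the terms are: those not involving `u`, `u'` (constant); the linear terms
`A u * dgs x + ∑_π G π u * LL {π} x` and the same for `u'`, `y`; `K u v LL x (s v) + K v u LL (s v) x` for `v ≠ u, u'` (depends only on `x`), the same for
`u'`, `y`; the diagonal terms `K u u = 0`, `K u' u' = 0`; and `K u u' LL x y + K u' u LL y x = lk u u' * LL x y` by `LL_symm` (`x`, `y` disjoint). So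
`D.phase g S s₁ = f x + f' y + lk u u' * LL x y`, and `W = (κ⁻¹)^(card x) e (f x) * [(κ⁻¹)^(card y + rest) e (f' y)] * e (lk * LL x y)`; the norms of the two
factors are at most one (`κ ≥ 1`).
-/

set_option autoImplicit false

open Polynomial
open scoped Classical

namespace Pool.Agent.Helper48.ST

theorem wupd_split {Ω M : Type} [Fintype Ω] [AddCommMonoid M] (u u' : Ω) (huu : u ≠ u') (φ : Ω → M) :
    ∑ v, φ v = φ u + φ u' + ∑ v ∈ (Finset.univ.erase u).erase u', φ v := by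
  rw [← Finset.add_sum_erase Finset.univ φ (Finset.mem_univ u),
    ← Finset.add_sum_erase (Finset.univ.erase u) φ
      (Finset.mem_erase.2 ⟨huu.symm, Finset.mem_univ u'⟩), add_assoc]

theorem wupd_norm {ℓ : ℕ} [NeZero ℓ] (κ : ℕ) (hκ : 1 ≤ κ) (n : ℕ) (z : ZMod ℓ) :
    ‖((κ : ℂ)⁻¹) ^ n * e z‖ ≤ 1 := by
  rw [norm_mul, norm_e, mul_one, norm_pow, norm_inv, Complex.norm_natCast]
  refine pow_le_one₀ (by positivity) ?_
  have h1 : (1 : ℝ) ≤ (κ : ℝ) := by exact_mod_cast hκ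
  exact inv_le_one_of_one_le₀ h1

theorem W_update {F : Type} [Field F] {ℓ : ℕ} [Fact ℓ.Prime] (g : Lg F ℓ) (h2 : ℓ ≠ 2)
    {Ω : Type} [Fintype Ω] (D : Dat F ℓ Ω) (hd : ∀ u, D.K u u = 0) (κ : ℕ) (hκ : 1 ≤ κ)
    (S : Finset (Ir F)) (s : Ω → Finset (Ir F)) (u u' : Ω) (huu : u ≠ u') :
    ∃ α β : Finset (Ir F) → ℂ, (∀ x, ‖α x‖ ≤ 1) ∧ (∀ y, ‖β y‖ ≤ 1) ∧
      ∀ x y, Disjoint x y →
        D.W g κ S (Function.update (Function.update s u x) u' y) =
          α x * β y * e (D.lk u u' * g.LL x y) := by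
  obtain ⟨R, hR⟩ : ∃ R : Finset Ω, R = (Finset.univ.erase u).erase u' := ⟨_, rfl⟩
  obtain ⟨lin, hlin⟩ : ∃ lin : Ω → Finset (Ir F) → ZMod ℓ, ∀ v t, lin v t =
      D.A v * (dgs t : ZMod ℓ) + ∑ π ∈ S, D.G π v * g.LL {π} t := ⟨_, fun _ _ => rfl⟩
  obtain ⟨f, hf⟩ : ∃ f : Ω → Finset (Ir F) → ZMod ℓ, ∀ v t, f v t =
      lin v t + ∑ w ∈ R, D.K v w * g.LL t (s w) + ∑ w ∈ R, D.K w v * g.LL (s w) t :=
    ⟨_, fun _ _ => rfl⟩
  obtain ⟨c0, hc0⟩ : ∃ c0 : ZMod ℓ, c0 = ∑ v ∈ R, lin v (s v) +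
      ∑ v ∈ R, ∑ w ∈ R, D.K v w * g.LL (s v) (s w) := ⟨_, rfl⟩
  obtain ⟨cR, hcR⟩ : ∃ cR : ℕ, cR = ∑ v ∈ R, (s v).card := ⟨_, rfl⟩
  refine ⟨fun x => ((κ : ℂ)⁻¹) ^ x.card * e (f u x),
    fun y => ((κ : ℂ)⁻¹) ^ (y.card + cR) * e (f u' y + c0),
    fun x => wupd_norm κ hκ _ _, fun y => wupd_norm κ hκ _ _, ?_⟩
  intro x y hxy
  obtain ⟨s₁, hs₁⟩ : ∃ s₁ : Ω → Finset (Ir F), s₁ = Function.update (Function.update s u x) u' y :=
    ⟨_, rfl⟩
  have h1 : s₁ u = x := by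
    rw [hs₁, Function.update_of_ne huu, Function.update_self]
  have h1' : s₁ u' = y := by
    rw [hs₁, Function.update_self]
  have hsR : ∀ v ∈ R, s₁ v = s v := by
    intro v hv
    rw [hR, Finset.mem_erase, Finset.mem_erase] at hv
    rw [hs₁, Function.update_of_ne hv.1, Function.update_of_ne hv.2.1]
  have hsplit : ∀ φ : Ω → ZMod ℓ, ∑ v, φ v = φ u + φ u' + ∑ v ∈ R, φ v := by
    intro φ
    rw [hR]
    exact wupd_split u u' huu φ
  have hcard : ∑ v, (s₁ v).card = x.card + (y.card + cR) := by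
    rw [wupd_split u u' huu, ← hR, h1, h1', hcR, add_assoc]
    congr 2
    exact Finset.sum_congr rfl fun v hv => by rw [hsR v hv]
  have hsym : g.LL y x = g.LL x y := LL_symm g h2 y x hxy.symm
  have hlin1 : ∑ v, lin v (s₁ v) = lin u x + lin u' y + ∑ v ∈ R, lin v (s v) := by
    rw [hsplit, h1, h1']
    congr 1
    exact Finset.sum_congr rfl fun v hv => by rw [hsR v hv]
  have hrow : ∀ v t, ∑ w, D.K v w * g.LL t (s₁ w) =
      D.K v u * g.LL t x + D.K v u' * g.LL t y + ∑ w ∈ R, D.K v w * g.LL t (s w) := by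
    intro v t
    rw [hsplit, h1, h1']
    congr 1
    exact Finset.sum_congr rfl fun w hw => by rw [hsR w hw]
  have hquad : ∑ v, ∑ w, D.K v w * g.LL (s₁ v) (s₁ w) =
      (D.K u u' * g.LL x y + ∑ w ∈ R, D.K u w * g.LL x (s w)) +
        (D.K u' u * g.LL x y + ∑ w ∈ R, D.K u' w * g.LL y (s w)) +
        (∑ v ∈ R, D.K v u * g.LL (s v) x + ∑ v ∈ R, D.K v u' * g.LL (s v) y +
          ∑ v ∈ R, ∑ w ∈ R, D.K v w * g.LL (s v) (s w)) := by
    rw [hsplit, hrow, hrow, h1, h1', hd, hd, hsym]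
    have h3 : ∑ v ∈ R, ∑ w, D.K v w * g.LL (s₁ v) (s₁ w) =
        ∑ v ∈ R, (D.K v u * g.LL (s v) x + D.K v u' * g.LL (s v) y +
          ∑ w ∈ R, D.K v w * g.LL (s v) (s w)) := by
      refine Finset.sum_congr rfl fun v hv => ?_
      rw [hrow, hsR v hv]
    rw [h3, Finset.sum_add_distrib, Finset.sum_add_distrib]
    ring
  have hphase : D.phase g S s₁ = f u x + (f u' y + c0) + D.lk u u' * g.LL x y := by
    have h4 : D.phase g S s₁ = ∑ v, lin v (s₁ v) + ∑ v, ∑ w, D.K v w * g.LL (s₁ v) (s₁ w) := by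
      unfold Dat.phase
      congr 1
      exact Finset.sum_congr rfl fun v _ => (hlin v (s₁ v)).symm
    rw [h4, hlin1, hquad, hf, hf, hc0]
    unfold Dat.lk
    ring
  rw [← hs₁]
  unfold Dat.W
  rw [hphase, hcard, e_add, e_add, pow_add]
  ring

end Pool.Agent.Helper48.ST
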